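import Pool.Agent.Gen.F5.X12CD3Cm1.S000
import Pool.Agent.Gen.F5.X12CD3Cm1.S001
import Pool.Agent.Gen.F5.X12CD3Cm1.S002
import Pool.Agent.Gen.F5.X12CD3Cm1.S003
import Pool.Agent.Gen.F5.X12CD3Cm1.S004
import Pool.Agent.Gen.F5.X12CD3Cm1.S005
import Pool.Agent.Gen.F5.X12CD3Cm1.S006
import Pool.Agent.Gen.F5.X12CD3Cm1.S007
import Pool.Agent.Gen.F5.X12CD3Cm1.S008
import Pool.Agent.Gen.F5.X12CD3Cm1.S009
import Pool.Agent.Gen.F5.X12CD3Cm1.S010
import Pool.Agent.Gen.F5.X12CD3Cm1.S011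
import Pool.Agent.Gen.F5.X12CD3Cm1.S012
import Pool.Agent.Gen.F5.X12CD3Cm1.S013
import Pool.Agent.Gen.F5.X12CD3Cm1.S014
import Pool.Agent.Gen.F5.X12CD3Cm1.S015
import Pool.Agent.Gen.F5.X12CD3Cm1.S016
import Pool.Agent.Gen.F5.X12CD3Cm1.S017
import Pool.Agent.Gen.F5.X12CD3Cm1.S018
import Pool.Agent.Gen.F5.X12CD3Cm1.S019

set_option autoImplicit false
set_option maxRecDepth 100000

namespace Pool.Agent.Gen.F5.X12CD3Cm1

open Pool.Agent.Helper72.F5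

def n0 : Cl (O (nat_lit 1)) (R (nat_lit 14353))
    (p (nat_lit 0xd8e8e0c8c1a) (nat_lit 0) (p (nat_lit 0xd0c8d8c0b9a) (nat_lit 0) (p (nat_lit 0xc8018c8d0b8b0a) (nat_lit 0) (p (nat_lit 0x58014) (nat_lit 0) (p (nat_lit 0x5800c) (nat_lit 1) (p (nat_lit 0xb000c) (nat_lit 0) (p (nat_lit 0x81) (nat_lit 0) (p (nat_lit 0xc1) (nat_lit 1) (p (nat_lit 0x100004) (nat_lit 0) (p (nat_lit 0xb0014) (nat_lit 0) (p (nat_lit 0x380c2) (nat_lit 1) (p (nat_lit 0x444aa) (nat_lit 7) (p (nat_lit 0x200004) (nat_lit 0) (p (nat_lit 0xc1) (nat_lit 1) (p (nat_lit 0x380c2) (nat_lit 0) (p (nat_lit 0x4c42a) (nat_lit 2) (p (nat_lit 0x111) (nat_lit 0) (p (nat_lit 0xc9) (nat_lit 0) (p (nat_lit 0x81) (nat_lit 0) (p (nat_lit 0x101) (nat_lit 1) (p (nat_lit 0x119) (nat_lit 0) (p (nat_lit 0xd1) (nat_lit 0) (p (nat_lit 0x89) (nat_lit 0) (p (nat_lit 0x41) (nat_lit 0) (p (nat_lit 0x8090887069a) (nat_lit 0) (p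 (nat_lit 0x7870806861a) (nat_lit 0) (p (nat_lit 0x800070786058a) (nat_lit 0) (p (nat_lit 0x787058502) (nat_lit 0) (p (nat_lit 0x586850482) (nat_lit 0) (p (nat_lit 0x160014) (nat_lit 0) (p (nat_lit 0x16000c) (nat_lit 0) (p (nat_lit 0x68612) (nat_lit 0) (p (nat_lit 0x50592) (nat_lit 0) (p (nat_lit 0x40512) (nat_lit 0) (p (nat_lit 0x50312) (nat_lit 0) (p (nat_lit 0x38292) (nat_lit 0) (p (nat_lit 0x28212) (nat_lit 0) (p (nat_lit 0x38112) (nat_lit 0) (p (nat_lit 0x20092) (nat_lit 0) (p (nat_lit 0x10012) (nat_lit 0) pn)))))))))))))))))))))))))))))))))))))))) :=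
  Cl.node (nat_lit 0x41) (nat_lit 2) (by decide +kernel) (ClAll.succ (ClAll.succ ClAll.zero s35) s36)

def n1 : Cl (O (nat_lit 1)) (R (nat_lit 14353))
    (p (nat_lit 0xd0c8d8c0b9a) (nat_lit 0) (p (nat_lit 0xc8018c8d0b8b0a) (nat_lit 0) (p (nat_lit 0x58014) (nat_lit 0) (p (nat_lit 0x5800c) (nat_lit 1) (p (nat_lit 0xb000c) (nat_lit 0) (p (nat_lit 0x81) (nat_lit 0) (p (nat_lit 0xc1) (nat_lit 1) (p (nat_lit 0x100004) (nat_lit 0) (p (nat_lit 0xb0014) (nat_lit 0) (p (nat_lit 0x380c2) (nat_lit 1) (p (nat_lit 0x444aa) (nat_lit 7) (p (nat_lit 0x200004) (nat_lit 0) (p (nat_lit 0xc1) (nat_lit 1) (p (nat_lit 0x380c2) (nat_lit 0) (p (nat_lit 0x4c42a) (nat_lit 2) (p (nat_lit 0x111) (nat_lit 0) (p (nat_lit 0xc9) (nat_lit 0) (p (nat_lit 0x81) (nat_lit 0) (p (nat_lit 0x101) (nat_lit 1) (p (nat_lit 0x119) (nat_lit 0) (p (nat_lit 0xd1) (nat_lit 0) (p (nat_lit 0x89) (nat_lit 0) (p (nat_lit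 0x41) (nat_lit 0) (p (nat_lit 0x8090887069a) (nat_lit 0) (p (nat_lit 0x7870806861a) (nat_lit 0) (p (nat_lit 0x800070786058a) (nat_lit 0) (p (nat_lit 0x787058502) (nat_lit 0) (p (nat_lit 0x586850482) (nat_lit 0) (p (nat_lit 0x160014) (nat_lit 0) (p (nat_lit 0x16000c) (nat_lit 0) (p (nat_lit 0x68612) (nat_lit 0) (p (nat_lit 0x50592) (nat_lit 0) (p (nat_lit 0x40512) (nat_lit 0) (p (nat_lit 0x50312) (nat_lit 0) (p (nat_lit 0x38292) (nat_lit 0) (p (nat_lit 0x28212) (nat_lit 0) (p (nat_lit 0x38112) (nat_lit 0) (p (nat_lit 0x20092) (nat_lit 0) (p (nat_lit 0x10012) (nat_lit 0) pn))))))))))))))))))))))))))))))))))))))) :=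
  Cl.node (nat_lit 0xd8e8e0c8c1a) (nat_lit 1) (by decide +kernel) (ClAll.succ ClAll.zero n0)

def n2 : Cl (O (nat_lit 1)) (R (nat_lit 14353))
    (p (nat_lit 0xc8018c8d0b8b0a) (nat_lit 0) (p (nat_lit 0x58014) (nat_lit 0) (p (nat_lit 0x5800c) (nat_lit 1) (p (nat_lit 0xb000c) (nat_lit 0) (p (nat_lit 0x81) (nat_lit 0) (p (nat_lit 0xc1) (nat_lit 1) (p (nat_lit 0x100004) (nat_lit 0) (p (nat_lit 0xb0014) (nat_lit 0) (p (nat_lit 0x380c2) (nat_lit 1) (p (nat_lit 0x444aa) (nat_lit 7) (p (nat_lit 0x200004) (nat_lit 0) (p (nat_lit 0xc1) (nat_lit 1) (p (nat_lit 0x380c2) (nat_lit 0) (p (nat_lit 0x4c42a) (nat_lit 2) (p (nat_lit 0x111) (nat_lit 0) (p (nat_lit 0xc9) (nat_lit 0) (p (nat_lit 0x81) (nat_lit 0) (p (nat_lit 0x101) (nat_lit 1) (p (nat_lit 0x119) (nat_lit 0) (p (nat_lit 0xd1) (nat_lit 0) (p (nat_lit 0x89) (nat_lit 0) (p (nat_lit 0x41) (nat_lit 0) (p (nat_lit 0x8090887069a)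 (nat_lit 0) (p (nat_lit 0x7870806861a) (nat_lit 0) (p (nat_lit 0x800070786058a) (nat_lit 0) (p (nat_lit 0x787058502) (nat_lit 0) (p (nat_lit 0x586850482) (nat_lit 0) (p (nat_lit 0x160014) (nat_lit 0) (p (nat_lit 0x16000c) (nat_lit 0) (p (nat_lit 0x68612) (nat_lit 0) (p (nat_lit 0x50592) (nat_lit 0) (p (nat_lit 0x40512) (nat_lit 0) (p (nat_lit 0x50312) (nat_lit 0) (p (nat_lit 0x38292) (nat_lit 0) (p (nat_lit 0x28212) (nat_lit 0) (p (nat_lit 0x38112) (nat_lit 0) (p (nat_lit 0x20092) (nat_lit 0) (p (nat_lit 0x10012) (nat_lit 0) pn)))))))))))))))))))))))))))))))))))))) :=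
  Cl.node (nat_lit 0xd0c8d8c0b9a) (nat_lit 1) (by decide +kernel) (ClAll.succ ClAll.zero n1)

def n3 : Cl (O (nat_lit 1)) (R (nat_lit 14353))
    (p (nat_lit 0x58014) (nat_lit 0) (p (nat_lit 0x5800c) (nat_lit 1) (p (nat_lit 0xb000c) (nat_lit 0) (p (nat_lit 0x81) (nat_lit 0) (p (nat_lit 0xc1) (nat_lit 1) (p (nat_lit 0x100004) (nat_lit 0) (p (nat_lit 0xb0014) (nat_lit 0) (p (nat_lit 0x380c2) (nat_lit 1) (p (nat_lit 0x444aa) (nat_lit 7) (p (nat_lit 0x200004) (nat_lit 0) (p (nat_lit 0xc1) (nat_lit 1) (p (nat_lit 0x380c2) (nat_lit 0) (p (nat_lit 0x4c42a) (nat_lit 2) (p (nat_lit 0x111) (nat_lit 0) (p (nat_lit 0xc9) (nat_lit 0) (p (nat_lit 0x81) (nat_lit 0) (p (nat_lit 0x101) (nat_lit 1) (p (nat_lit 0x119) (nat_lit 0) (p (nat_lit 0xd1) (nat_lit 0) (p (nat_lit 0x89) (nat_lit 0) (p (nat_lit 0x41) (nat_lit 0) (p (nat_lit 0x8090887069a) (nat_lit 0) (p (nat_lit 0x7870806861a) (nat_lit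 0) (p (nat_lit 0x800070786058a) (nat_lit 0) (p (nat_lit 0x787058502) (nat_lit 0) (p (nat_lit 0x586850482) (nat_lit 0) (p (nat_lit 0x160014) (nat_lit 0) (p (nat_lit 0x16000c) (nat_lit 0) (p (nat_lit 0x68612) (nat_lit 0) (p (nat_lit 0x50592) (nat_lit 0) (p (nat_lit 0x40512) (nat_lit 0) (p (nat_lit 0x50312) (nat_lit 0) (p (nat_lit 0x38292) (nat_lit 0) (p (nat_lit 0x28212) (nat_lit 0) (p (nat_lit 0x38112) (nat_lit 0) (p (nat_lit 0x20092) (nat_lit 0) (p (nat_lit 0x10012) (nat_lit 0) pn))))))))))))))))))))))))))))))))))))) :=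
  Cl.node (nat_lit 0xc8018c8d0b8b0a) (nat_lit 1) (by decide +kernel) (ClAll.succ ClAll.zero n2)

def n4 : Cl (O (nat_lit 1)) (R (nat_lit 14353))
    (p (nat_lit 0x111) (nat_lit 1) (p (nat_lit 0x11c014) (nat_lit 0) (p (nat_lit 0x11c00c) (nat_lit 0) (p (nat_lit 0xc0004) (nat_lit 1) (p (nat_lit 0x109) (nat_lit 0) (p (nat_lit 0xc9) (nat_lit 0) (p (nat_lit 0x134014) (nat_lit 0) (p (nat_lit 0x13400c) (nat_lit 0) (p (nat_lit 0x80004) (nat_lit 1) (p (nat_lit 0xc1) (nat_lit 0) (p (nat_lit 0x100004) (nat_lit 0) (p (nat_lit 0x200004) (nat_lit 0) (p (nat_lit 0x380c2) (nat_lit 1) (p (nat_lit 0x444aa) (nat_lit 7) (p (nat_lit 0xd1) (nat_lit 1) (p (nat_lit 0x109) (nat_lit 1) (p (nat_lit 0x101) (nat_lit 0) (p (nat_lit 0x119) (nat_lit 0) (p (nat_lit 0xc9) (nat_lit 0) (p (nat_lit 0x89) (nat_lit 1) (p (nat_lit 0x41) (nat_lit 0) (p (nat_lit 0x8090887069a) (nat_lit 0) (p (nat_lit 0x7870806861a)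 (nat_lit 0) (p (nat_lit 0x800070786058a) (nat_lit 0) (p (nat_lit 0x787058502) (nat_lit 0) (p (nat_lit 0x586850482) (nat_lit 0) (p (nat_lit 0x160014) (nat_lit 0) (p (nat_lit 0x16000c) (nat_lit 0) (p (nat_lit 0x68612) (nat_lit 0) (p (nat_lit 0x50592) (nat_lit 0) (p (nat_lit 0x40512) (nat_lit 0) (p (nat_lit 0x50312) (nat_lit 0) (p (nat_lit 0x38292) (nat_lit 0) (p (nat_lit 0x28212) (nat_lit 0) (p (nat_lit 0x38112) (nat_lit 0) (p (nat_lit 0x20092) (nat_lit 0) (p (nat_lit 0x10012) (nat_lit 0) pn))))))))))))))))))))))))))))))))))))) :=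
  Cl.node (nat_lit 0x3cc2a) (nat_lit 12) (by decide +kernel) (ClAll.succ (ClAll.succ (ClAll.succ (ClAll.succ (ClAll.succ (ClAll.succ (ClAll.succ (ClAll.succ (ClAll.succ (ClAll.succ (ClAll.succ (ClAll.succ ClAll.zero s502) s503) s504) s505) s506) s507) s508) s509) s510) s511) s512) s513)

def n5 : Cl (O (nat_lit 1)) (R (nat_lit 14353))
    (p (nat_lit 0x5800c) (nat_lit 1) (p (nat_lit 0xb000c) (nat_lit 0) (p (nat_lit 0x81) (nat_lit 0) (p (nat_lit 0xc1) (nat_lit 1) (p (nat_lit 0x100004) (nat_lit 0) (p (nat_lit 0xb0014) (nat_lit 0) (p (nat_lit 0x380c2) (nat_lit 1) (p (nat_lit 0x444aa) (nat_lit 7) (p (nat_lit 0x200004) (nat_lit 0) (p (nat_lit 0xc1) (nat_lit 1) (p (nat_lit 0x380c2) (nat_lit 0) (p (nat_lit 0x4c42a) (nat_lit 2) (p (nat_lit 0x111) (nat_lit 0) (p (nat_lit 0xc9) (nat_lit 0) (p (nat_lit 0x81) (nat_lit 0) (p (nat_lit 0x101) (nat_lit 1) (p (nat_lit 0x119) (nat_lit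 0) (p (nat_lit 0xd1) (nat_lit 0) (p (nat_lit 0x89) (nat_lit 0) (p (nat_lit 0x41) (nat_lit 0) (p (nat_lit 0x8090887069a) (nat_lit 0) (p (nat_lit 0x7870806861a) (nat_lit 0) (p (nat_lit 0x800070786058a) (nat_lit 0) (p (nat_lit 0x787058502) (nat_lit 0) (p (nat_lit 0x586850482) (nat_lit 0) (p (nat_lit 0x160014) (nat_lit 0) (p (nat_lit 0x16000c) (nat_lit 0) (p (nat_lit 0x68612) (nat_lit 0) (p (nat_lit 0x50592) (nat_lit 0) (p (nat_lit 0x40512) (nat_lit 0) (p (nat_lit 0x50312) (nat_lit 0) (p (nat_lit 0x38292) (nat_lit 0) (p (nat_lit 0x28212) (nat_lit 0) (p (nat_lit 0x38112) (nat_lit 0) (p (nat_lit 0x20092) (nat_lit 0) (p (nat_lit 0x10012) (nat_lit 0) pn)))))))))))))))))))))))))))))))))))) :=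
  Cl.node (nat_lit 0x58014) (nat_lit 2) (by decide +kernel) (ClAll.succ (ClAll.succ ClAll.zero n3) s37)

def n6 : Cl (O (nat_lit 1)) (R (nat_lit 14353))
    (p (nat_lit 0xb000c) (nat_lit 0) (p (nat_lit 0x41) (nat_lit 0) (p (nat_lit 0x81) (nat_lit 1) (p (nat_lit 0xc1) (nat_lit 1) (p (nat_lit 0x100004) (nat_lit 0) (p (nat_lit 0xb0014) (nat_lit 0) (p (nat_lit 0x380c2) (nat_lit 1) (p (nat_lit 0x444aa) (nat_lit 7) (p (nat_lit 0x200004) (nat_lit 0) (p (nat_lit 0xc1) (nat_lit 1) (p (nat_lit 0x380c2) (nat_lit 0) (p (nat_lit 0x4c42a) (nat_lit 2) (p (nat_lit 0x111) (nat_lit 0) (p (nat_lit 0xc9) (nat_lit 0) (p (nat_lit 0x81) (nat_lit 0) (p (nat_lit 0x101) (nat_lit 1) (p (nat_lit 0x119) (nat_lit 0) (p (nat_lit 0xd1) (nat_lit 0) (p (nat_lit 0x89) (nat_lit 0) (p (nat_lit 0x41) (nat_lit 0) (p (nat_lit 0x8090887069a) (nat_lit 0) (p (nat_lit 0x7870806861a) (nat_lit 0) (p (nat_lit 0x800070786058a)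 (nat_lit 0) (p (nat_lit 0x787058502) (nat_lit 0) (p (nat_lit 0x586850482) (nat_lit 0) (p (nat_lit 0x160014) (nat_lit 0) (p (nat_lit 0x16000c) (nat_lit 0) (p (nat_lit 0x68612) (nat_lit 0) (p (nat_lit 0x50592) (nat_lit 0) (p (nat_lit 0x40512) (nat_lit 0) (p (nat_lit 0x50312) (nat_lit 0) (p (nat_lit 0x38292) (nat_lit 0) (p (nat_lit 0x28212) (nat_lit 0) (p (nat_lit 0x38112) (nat_lit 0) (p (nat_lit 0x20092) (nat_lit 0) (p (nat_lit 0x10012) (nat_lit 0) pn)))))))))))))))))))))))))))))))))))) :=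
  Cl.node (nat_lit 0x80004) (nat_lit 2) (by decide +kernel) (ClAll.succ (ClAll.succ ClAll.zero s39) s40)

def n7 : Cl (O (nat_lit 1)) (R (nat_lit 14353))
    (p (nat_lit 0xb000c) (nat_lit 0) (p (nat_lit 0x41) (nat_lit 1) (p (nat_lit 0x81) (nat_lit 1) (p (nat_lit 0xc1) (nat_lit 1) (p (nat_lit 0x100004) (nat_lit 0) (p (nat_lit 0xb0014) (nat_lit 0) (p (nat_lit 0x380c2) (nat_lit 1) (p (nat_lit 0x444aa) (nat_lit 7) (p (nat_lit 0x200004) (nat_lit 0) (p (nat_lit 0xc1) (nat_lit 1) (p (nat_lit 0x380c2) (nat_lit 0) (p (nat_lit 0x4c42a) (nat_lit 2) (p (nat_lit 0x111) (nat_lit 0) (p (nat_lit 0xc9) (nat_lit 0) (p (nat_lit 0x81) (nat_lit 0) (p (nat_lit 0x101) (nat_lit 1) (p (nat_lit 0x119) (nat_lit 0) (p (nat_lit 0xd1) (nat_lit 0) (p (nat_lit 0x89) (nat_lit 0) (p (nat_lit 0x41) (nat_lit 0) (p (nat_lit 0x8090887069a) (nat_lit 0) (p (nat_lit 0x7870806861a) (nat_lit 0) (p (nat_lit 0x800070786058a)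 (nat_lit 0) (p (nat_lit 0x787058502) (nat_lit 0) (p (nat_lit 0x586850482) (nat_lit 0) (p (nat_lit 0x160014) (nat_lit 0) (p (nat_lit 0x16000c) (nat_lit 0) (p (nat_lit 0x68612) (nat_lit 0) (p (nat_lit 0x50592) (nat_lit 0) (p (nat_lit 0x40512) (nat_lit 0) (p (nat_lit 0x50312) (nat_lit 0) (p (nat_lit 0x38292) (nat_lit 0) (p (nat_lit 0x28212) (nat_lit 0) (p (nat_lit 0x38112) (nat_lit 0) (p (nat_lit 0x20092) (nat_lit 0) (p (nat_lit 0x10012) (nat_lit 0) pn)))))))))))))))))))))))))))))))))))) :=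
  Cl.node (nat_lit 0x80004) (nat_lit 2) (by decide +kernel) (ClAll.succ (ClAll.succ ClAll.zero s42) s43)

def n8 : Cl (O (nat_lit 1)) (R (nat_lit 14353))
    (p (nat_lit 0x11c014) (nat_lit 0) (p (nat_lit 0x11c00c) (nat_lit 0) (p (nat_lit 0xc0004) (nat_lit 1) (p (nat_lit 0x109) (nat_lit 0) (p (nat_lit 0xc9) (nat_lit 0) (p (nat_lit 0x134014) (nat_lit 0) (p (nat_lit 0x13400c) (nat_lit 0) (p (nat_lit 0x80004) (nat_lit 1) (p (nat_lit 0xc1) (nat_lit 0) (p (nat_lit 0x100004) (nat_lit 0) (p (nat_lit 0x200004) (nat_lit 0) (p (nat_lit 0x380c2) (nat_lit 1) (p (nat_lit 0x444aa) (nat_lit 7) (p (nat_lit 0xd1) (nat_lit 1) (p (nat_lit 0x109) (nat_lit 1) (p (nat_lit 0x101) (nat_lit 0) (p (nat_lit 0x119) (nat_lit 0) (p (nat_lit 0xc9) (nat_lit 0) (p (nat_lit 0x89) (nat_lit 1) (p (nat_lit 0x41) (nat_lit 0) (p (nat_lit 0x8090887069a) (nat_lit 0) (p (nat_lit 0x7870806861a) (nat_lit 0) (p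 (nat_lit 0x800070786058a) (nat_lit 0) (p (nat_lit 0x787058502) (nat_lit 0) (p (nat_lit 0x586850482) (nat_lit 0) (p (nat_lit 0x160014) (nat_lit 0) (p (nat_lit 0x16000c) (nat_lit 0) (p (nat_lit 0x68612) (nat_lit 0) (p (nat_lit 0x50592) (nat_lit 0) (p (nat_lit 0x40512) (nat_lit 0) (p (nat_lit 0x50312) (nat_lit 0) (p (nat_lit 0x38292) (nat_lit 0) (p (nat_lit 0x28212) (nat_lit 0) (p (nat_lit 0x38112) (nat_lit 0) (p (nat_lit 0x20092) (nat_lit 0) (p (nat_lit 0x10012) (nat_lit 0) pn)))))))))))))))))))))))))))))))))))) :=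
  Cl.node (nat_lit 0x111) (nat_lit 2) (by decide +kernel) (ClAll.succ (ClAll.succ ClAll.zero s501) n4)

def n9 : Cl (O (nat_lit 1)) (R (nat_lit 14353))
    (p (nat_lit 0x109) (nat_lit 1) (p (nat_lit 0x41) (nat_lit 0) (p (nat_lit 0x41) (nat_lit 0) (p (nat_lit 0xc9) (nat_lit 0) (p (nat_lit 0x89) (nat_lit 1) (p (nat_lit 0xc9) (nat_lit 1) (p (nat_lit 0xc1) (nat_lit 0) (p (nat_lit 0x81) (nat_lit 1) (p (nat_lit 0xb000c) (nat_lit 0) (p (nat_lit 0xb0014) (nat_lit 0) (p (nat_lit 0x380c2) (nat_lit 0) (p (nat_lit 0x3cc2a) (nat_lit 11) (p (nat_lit 0x111) (nat_lit 1) (p (nat_lit 0x89) (nat_lit 0) (p (nat_lit 0x109) (nat_lit 1) (p (nat_lit 0x101) (nat_lit 0) (p (nat_lit 0x119) (nat_lit 0) (p (nat_lit 0xd1) (nat_lit 0) (p (nat_lit 0x81) (nat_lit 0) (p (nat_lit 0x41) (nat_lit 1) (p (nat_lit 0x8090887069a) (nat_lit 0) (p (nat_lit 0x7870806861a) (nat_lit 0) (p (nat_lit 0x800070786058a)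 (nat_lit 0) (p (nat_lit 0x787058502) (nat_lit 0) (p (nat_lit 0x586850482) (nat_lit 0) (p (nat_lit 0x160014) (nat_lit 0) (p (nat_lit 0x16000c) (nat_lit 0) (p (nat_lit 0x68612) (nat_lit 0) (p (nat_lit 0x50592) (nat_lit 0) (p (nat_lit 0x40512) (nat_lit 0) (p (nat_lit 0x50312) (nat_lit 0) (p (nat_lit 0x38292) (nat_lit 0) (p (nat_lit 0x28212) (nat_lit 0) (p (nat_lit 0x38112) (nat_lit 0) (p (nat_lit 0x20092) (nat_lit 0) (p (nat_lit 0x10012) (nat_lit 0) pn)))))))))))))))))))))))))))))))))))) :=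
  Cl.node (nat_lit 0xc9) (nat_lit 2) (by decide +kernel) (ClAll.succ (ClAll.succ ClAll.zero s737) s738)

def n10 : Cl (O (nat_lit 1)) (R (nat_lit 14353))
    (p (nat_lit 0xc9) (nat_lit 0) (p (nat_lit 0x41) (nat_lit 0) (p (nat_lit 0x109) (nat_lit 1) (p (nat_lit 0x109) (nat_lit 1) (p (nat_lit 0xc9) (nat_lit 0) (p (nat_lit 0x89) (nat_lit 1) (p (nat_lit 0xc9) (nat_lit 1) (p (nat_lit 0x119) (nat_lit 1) (p (nat_lit 0x111) (nat_lit 0) (p (nat_lit 0xb000c) (nat_lit 0) (p (nat_lit 0xb0014) (nat_lit 0) (p (nat_lit 0x380c2) (nat_lit 0) (p (nat_lit 0x3cc2a) (nat_lit 11) (p (nat_lit 0x89) (nat_lit 0) (p (nat_lit 0xc1) (nat_lit 0) (p (nat_lit 0x101) (nat_lit 1) (p (nat_lit 0x119) (nat_lit 0) (p (nat_lit 0xd1) (nat_lit 0) (p (nat_lit 0x81) (nat_lit 0) (p (nat_lit 0x41) (nat_lit 1) (p (nat_lit 0x8090887069a) (nat_lit 0) (p (nat_lit 0x7870806861a) (nat_lit 0) (p (nat_lit 0x800070786058a)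 (nat_lit 0) (p (nat_lit 0x787058502) (nat_lit 0) (p (nat_lit 0x586850482) (nat_lit 0) (p (nat_lit 0x160014) (nat_lit 0) (p (nat_lit 0x16000c) (nat_lit 0) (p (nat_lit 0x68612) (nat_lit 0) (p (nat_lit 0x50592) (nat_lit 0) (p (nat_lit 0x40512) (nat_lit 0) (p (nat_lit 0x50312) (nat_lit 0) (p (nat_lit 0x38292) (nat_lit 0) (p (nat_lit 0x28212) (nat_lit 0) (p (nat_lit 0x38112) (nat_lit 0) (p (nat_lit 0x20092) (nat_lit 0) (p (nat_lit 0x10012) (nat_lit 0) pn)))))))))))))))))))))))))))))))))))) :=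
  Cl.node (nat_lit 0xd1) (nat_lit 2) (by decide +kernel) (ClAll.succ (ClAll.succ ClAll.zero s792) s793)

def n11 : Cl (O (nat_lit 1)) (R (nat_lit 14353))
    (p (nat_lit 0xb000c) (nat_lit 0) (p (nat_lit 0x81) (nat_lit 0) (p (nat_lit 0xc1) (nat_lit 1) (p (nat_lit 0x100004) (nat_lit 0) (p (nat_lit 0xb0014) (nat_lit 0) (p (nat_lit 0x380c2) (nat_lit 1) (p (nat_lit 0x444aa) (nat_lit 7) (p (nat_lit 0x200004) (nat_lit 0) (p (nat_lit 0xc1) (nat_lit 1) (p (nat_lit 0x380c2) (nat_lit 0) (p (nat_lit 0x4c42a) (nat_lit 2) (p (nat_lit 0x111) (nat_lit 0) (p (nat_lit 0xc9) (nat_lit 0) (p (nat_lit 0x81) (nat_lit 0) (p (nat_lit 0x101) (nat_lit 1) (p (nat_lit 0x119) (nat_lit 0) (p (nat_lit 0xd1) (nat_lit 0) (p (nat_lit 0x89) (nat_lit 0) (p (nat_lit 0x41) (nat_lit 0) (p (nat_lit 0x8090887069a) (nat_lit 0) (p (nat_lit 0x7870806861a) (nat_lit 0) (p (nat_lit 0x800070786058a) (nat_lit 0) (p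 (nat_lit 0x787058502) (nat_lit 0) (p (nat_lit 0x586850482) (nat_lit 0) (p (nat_lit 0x160014) (nat_lit 0) (p (nat_lit 0x16000c) (nat_lit 0) (p (nat_lit 0x68612) (nat_lit 0) (p (nat_lit 0x50592) (nat_lit 0) (p (nat_lit 0x40512) (nat_lit 0) (p (nat_lit 0x50312) (nat_lit 0) (p (nat_lit 0x38292) (nat_lit 0) (p (nat_lit 0x28212) (nat_lit 0) (p (nat_lit 0x38112) (nat_lit 0) (p (nat_lit 0x20092) (nat_lit 0) (p (nat_lit 0x10012) (nat_lit 0) pn))))))))))))))))))))))))))))))))))) :=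
  Cl.node (nat_lit 0x5800c) (nat_lit 2) (by decide +kernel) (ClAll.succ (ClAll.succ ClAll.zero s34) n5)

def n12 : Cl (O (nat_lit 1)) (R (nat_lit 14353))
    (p (nat_lit 0x41) (nat_lit 0) (p (nat_lit 0x81) (nat_lit 1) (p (nat_lit 0xc1) (nat_lit 1) (p (nat_lit 0x100004) (nat_lit 0) (p (nat_lit 0xb0014) (nat_lit 0) (p (nat_lit 0x380c2) (nat_lit 1) (p (nat_lit 0x444aa) (nat_lit 7) (p (nat_lit 0x200004) (nat_lit 0) (p (nat_lit 0xc1) (nat_lit 1) (p (nat_lit 0x380c2) (nat_lit 0) (p (nat_lit 0x4c42a) (nat_lit 2) (p (nat_lit 0x111) (nat_lit 0) (p (nat_lit 0xc9) (nat_lit 0) (p (nat_lit 0x81) (nat_lit 0) (p (nat_lit 0x101) (nat_lit 1) (p (nat_lit 0x119) (nat_lit 0) (p (nat_lit 0xd1) (nat_lit 0) (p (nat_lit 0x89) (nat_lit 0) (p (nat_lit 0x41) (nat_lit 0) (p (nat_lit 0x8090887069a) (nat_lit 0) (p (nat_lit 0x7870806861a) (nat_lit 0) (p (nat_lit 0x800070786058a) (nat_lit 0) (p (nat_lit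 0x787058502) (nat_lit 0) (p (nat_lit 0x586850482) (nat_lit 0) (p (nat_lit 0x160014) (nat_lit 0) (p (nat_lit 0x16000c) (nat_lit 0) (p (nat_lit 0x68612) (nat_lit 0) (p (nat_lit 0x50592) (nat_lit 0) (p (nat_lit 0x40512) (nat_lit 0) (p (nat_lit 0x50312) (nat_lit 0) (p (nat_lit 0x38292) (nat_lit 0) (p (nat_lit 0x28212) (nat_lit 0) (p (nat_lit 0x38112) (nat_lit 0) (p (nat_lit 0x20092) (nat_lit 0) (p (nat_lit 0x10012) (nat_lit 0) pn))))))))))))))))))))))))))))))))))) :=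
  Cl.node (nat_lit 0xb000c) (nat_lit 2) (by decide +kernel) (ClAll.succ (ClAll.succ ClAll.zero n6) s41)

def n13 : Cl (O (nat_lit 1)) (R (nat_lit 14353))
    (p (nat_lit 0x41) (nat_lit 1) (p (nat_lit 0x81) (nat_lit 1) (p (nat_lit 0xc1) (nat_lit 1) (p (nat_lit 0x100004) (nat_lit 0) (p (nat_lit 0xb0014) (nat_lit 0) (p (nat_lit 0x380c2) (nat_lit 1) (p (nat_lit 0x444aa) (nat_lit 7) (p (nat_lit 0x200004) (nat_lit 0) (p (nat_lit 0xc1) (nat_lit 1) (p (nat_lit 0x380c2) (nat_lit 0) (p (nat_lit 0x4c42a) (nat_lit 2) (p (nat_lit 0x111) (nat_lit 0) (p (nat_lit 0xc9) (nat_lit 0) (p (nat_lit 0x81) (nat_lit 0) (p (nat_lit 0x101) (nat_lit 1) (p (nat_lit 0x119) (nat_lit 0) (p (nat_lit 0xd1) (nat_lit 0) (p (nat_lit 0x89) (nat_lit 0) (p (nat_lit 0x41) (nat_lit 0) (p (nat_lit 0x8090887069a) (nat_lit 0) (p (nat_lit 0x7870806861a) (nat_lit 0) (p (nat_lit 0x800070786058a) (nat_lit 0) (p (nat_lit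 0x787058502) (nat_lit 0) (p (nat_lit 0x586850482) (nat_lit 0) (p (nat_lit 0x160014) (nat_lit 0) (p (nat_lit 0x16000c) (nat_lit 0) (p (nat_lit 0x68612) (nat_lit 0) (p (nat_lit 0x50592) (nat_lit 0) (p (nat_lit 0x40512) (nat_lit 0) (p (nat_lit 0x50312) (nat_lit 0) (p (nat_lit 0x38292) (nat_lit 0) (p (nat_lit 0x28212) (nat_lit 0) (p (nat_lit 0x38112) (nat_lit 0) (p (nat_lit 0x20092) (nat_lit 0) (p (nat_lit 0x10012) (nat_lit 0) pn))))))))))))))))))))))))))))))))))) :=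
  Cl.node (nat_lit 0xb000c) (nat_lit 2) (by decide +kernel) (ClAll.succ (ClAll.succ ClAll.zero n7) s44)

def n14 : Cl (O (nat_lit 1)) (R (nat_lit 14353))
    (p (nat_lit 0x11c00c) (nat_lit 0) (p (nat_lit 0xc0004) (nat_lit 1) (p (nat_lit 0x109) (nat_lit 0) (p (nat_lit 0xc9) (nat_lit 0) (p (nat_lit 0x134014) (nat_lit 0) (p (nat_lit 0x13400c) (nat_lit 0) (p (nat_lit 0x80004) (nat_lit 1) (p (nat_lit 0xc1) (nat_lit 0) (p (nat_lit 0x100004) (nat_lit 0) (p (nat_lit 0x200004) (nat_lit 0) (p (nat_lit 0x380c2) (nat_lit 1) (p (nat_lit 0x444aa) (nat_lit 7) (p (nat_lit 0xd1) (nat_lit 1) (p (nat_lit 0x109) (nat_lit 1) (p (nat_lit 0x101) (nat_lit 0) (p (nat_lit 0x119) (nat_lit 0) (p (nat_lit 0xc9) (nat_lit 0) (p (nat_lit 0x89) (nat_lit 1) (p (nat_lit 0x41) (nat_lit 0) (p (nat_lit 0x8090887069a) (nat_lit 0) (p (nat_lit 0x7870806861a) (nat_lit 0) (p (nat_lit 0x800070786058a) (nat_lit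 0) (p (nat_lit 0x787058502) (nat_lit 0) (p (nat_lit 0x586850482) (nat_lit 0) (p (nat_lit 0x160014) (nat_lit 0) (p (nat_lit 0x16000c) (nat_lit 0) (p (nat_lit 0x68612) (nat_lit 0) (p (nat_lit 0x50592) (nat_lit 0) (p (nat_lit 0x40512) (nat_lit 0) (p (nat_lit 0x50312) (nat_lit 0) (p (nat_lit 0x38292) (nat_lit 0) (p (nat_lit 0x28212) (nat_lit 0) (p (nat_lit 0x38112) (nat_lit 0) (p (nat_lit 0x20092) (nat_lit 0) (p (nat_lit 0x10012) (nat_lit 0) pn))))))))))))))))))))))))))))))))))) :=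
  Cl.node (nat_lit 0x11c014) (nat_lit 2) (by decide +kernel) (ClAll.succ (ClAll.succ ClAll.zero n8) s514)

def n15 : Cl (O (nat_lit 1)) (R (nat_lit 14353))
    (p (nat_lit 0x41) (nat_lit 0) (p (nat_lit 0x41) (nat_lit 0) (p (nat_lit 0xc9) (nat_lit 0) (p (nat_lit 0x89) (nat_lit 1) (p (nat_lit 0xc9) (nat_lit 1) (p (nat_lit 0xc1) (nat_lit 0) (p (nat_lit 0x81) (nat_lit 1) (p (nat_lit 0xb000c) (nat_lit 0) (p (nat_lit 0xb0014) (nat_lit 0) (p (nat_lit 0x380c2) (nat_lit 0) (p (nat_lit 0x3cc2a) (nat_lit 11) (p (nat_lit 0x111) (nat_lit 1) (p (nat_lit 0x89) (nat_lit 0) (p (nat_lit 0x109) (nat_lit 1) (p (nat_lit 0x101) (nat_lit 0) (p (nat_lit 0x119) (nat_lit 0) (p (nat_lit 0xd1) (nat_lit 0) (p (nat_lit 0x81) (nat_lit 0) (p (nat_lit 0x41) (nat_lit 1) (p (nat_lit 0x8090887069a) (nat_lit 0) (p (nat_lit 0x7870806861a) (nat_lit 0) (p (nat_lit 0x800070786058a) (nat_lit 0) (p (nat_lit 0x787058502)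 (nat_lit 0) (p (nat_lit 0x586850482) (nat_lit 0) (p (nat_lit 0x160014) (nat_lit 0) (p (nat_lit 0x16000c) (nat_lit 0) (p (nat_lit 0x68612) (nat_lit 0) (p (nat_lit 0x50592) (nat_lit 0) (p (nat_lit 0x40512) (nat_lit 0) (p (nat_lit 0x50312) (nat_lit 0) (p (nat_lit 0x38292) (nat_lit 0) (p (nat_lit 0x28212) (nat_lit 0) (p (nat_lit 0x38112) (nat_lit 0) (p (nat_lit 0x20092) (nat_lit 0) (p (nat_lit 0x10012) (nat_lit 0) pn))))))))))))))))))))))))))))))))))) :=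
  Cl.node (nat_lit 0x109) (nat_lit 2) (by decide +kernel) (ClAll.succ (ClAll.succ ClAll.zero s736) n9)

def n16 : Cl (O (nat_lit 1)) (R (nat_lit 14353))
    (p (nat_lit 0x41) (nat_lit 0) (p (nat_lit 0x109) (nat_lit 1) (p (nat_lit 0x109) (nat_lit 1) (p (nat_lit 0xc9) (nat_lit 0) (p (nat_lit 0x89) (nat_lit 1) (p (nat_lit 0xc9) (nat_lit 1) (p (nat_lit 0x119) (nat_lit 1) (p (nat_lit 0x111) (nat_lit 0) (p (nat_lit 0xb000c) (nat_lit 0) (p (nat_lit 0xb0014) (nat_lit 0) (p (nat_lit 0x380c2) (nat_lit 0) (p (nat_lit 0x3cc2a) (nat_lit 11) (p (nat_lit 0x89) (nat_lit 0) (p (nat_lit 0xc1) (nat_lit 0) (p (nat_lit 0x101) (nat_lit 1) (p (nat_lit 0x119) (nat_lit 0) (p (nat_lit 0xd1) (nat_lit 0) (p (nat_lit 0x81) (nat_lit 0) (p (nat_lit 0x41) (nat_lit 1) (p (nat_lit 0x8090887069a) (nat_lit 0) (p (nat_lit 0x7870806861a) (nat_lit 0) (p (nat_lit 0x800070786058a) (nat_lit 0) (p (nat_lit 0x787058502)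 (nat_lit 0) (p (nat_lit 0x586850482) (nat_lit 0) (p (nat_lit 0x160014) (nat_lit 0) (p (nat_lit 0x16000c) (nat_lit 0) (p (nat_lit 0x68612) (nat_lit 0) (p (nat_lit 0x50592) (nat_lit 0) (p (nat_lit 0x40512) (nat_lit 0) (p (nat_lit 0x50312) (nat_lit 0) (p (nat_lit 0x38292) (nat_lit 0) (p (nat_lit 0x28212) (nat_lit 0) (p (nat_lit 0x38112) (nat_lit 0) (p (nat_lit 0x20092) (nat_lit 0) (p (nat_lit 0x10012) (nat_lit 0) pn))))))))))))))))))))))))))))))))))) :=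
  Cl.node (nat_lit 0xc9) (nat_lit 2) (by decide +kernel) (ClAll.succ (ClAll.succ ClAll.zero n10) s794)

def n17 : Cl (O (nat_lit 1)) (R (nat_lit 14353))
    (p (nat_lit 0x81) (nat_lit 0) (p (nat_lit 0xc1) (nat_lit 1) (p (nat_lit 0x100004) (nat_lit 0) (p (nat_lit 0xb0014) (nat_lit 0) (p (nat_lit 0x380c2) (nat_lit 1) (p (nat_lit 0x444aa) (nat_lit 7) (p (nat_lit 0x200004) (nat_lit 0) (p (nat_lit 0xc1) (nat_lit 1) (p (nat_lit 0x380c2) (nat_lit 0) (p (nat_lit 0x4c42a) (nat_lit 2) (p (nat_lit 0x111) (nat_lit 0) (p (nat_lit 0xc9) (nat_lit 0) (p (nat_lit 0x81) (nat_lit 0) (p (nat_lit 0x101) (nat_lit 1) (p (nat_lit 0x119) (nat_lit 0) (p (nat_lit 0xd1) (nat_lit 0) (p (nat_lit 0x89) (nat_lit 0) (p (nat_lit 0x41) (nat_lit 0) (p (nat_lit 0x8090887069a) (nat_lit 0) (p (nat_lit 0x7870806861a) (nat_lit 0) (p (nat_lit 0x800070786058a) (nat_lit 0) (p (nat_lit 0x787058502) (nat_lit 0)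 (p (nat_lit 0x586850482) (nat_lit 0) (p (nat_lit 0x160014) (nat_lit 0) (p (nat_lit 0x16000c) (nat_lit 0) (p (nat_lit 0x68612) (nat_lit 0) (p (nat_lit 0x50592) (nat_lit 0) (p (nat_lit 0x40512) (nat_lit 0) (p (nat_lit 0x50312) (nat_lit 0) (p (nat_lit 0x38292) (nat_lit 0) (p (nat_lit 0x28212) (nat_lit 0) (p (nat_lit 0x38112) (nat_lit 0) (p (nat_lit 0x20092) (nat_lit 0) (p (nat_lit 0x10012) (nat_lit 0) pn)))))))))))))))))))))))))))))))))) :=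
  Cl.node (nat_lit 0xb000c) (nat_lit 2) (by decide +kernel) (ClAll.succ (ClAll.succ ClAll.zero n11) s38)

def n18 : Cl (O (nat_lit 1)) (R (nat_lit 14353))
    (p (nat_lit 0x81) (nat_lit 1) (p (nat_lit 0xc1) (nat_lit 1) (p (nat_lit 0x100004) (nat_lit 0) (p (nat_lit 0xb0014) (nat_lit 0) (p (nat_lit 0x380c2) (nat_lit 1) (p (nat_lit 0x444aa) (nat_lit 7) (p (nat_lit 0x200004) (nat_lit 0) (p (nat_lit 0xc1) (nat_lit 1) (p (nat_lit 0x380c2) (nat_lit 0) (p (nat_lit 0x4c42a) (nat_lit 2) (p (nat_lit 0x111) (nat_lit 0) (p (nat_lit 0xc9) (nat_lit 0) (p (nat_lit 0x81) (nat_lit 0) (p (nat_lit 0x101) (nat_lit 1) (p (nat_lit 0x119) (nat_lit 0) (p (nat_lit 0xd1) (nat_lit 0) (p (nat_lit 0x89) (nat_lit 0) (p (nat_lit 0x41) (nat_lit 0) (p (nat_lit 0x8090887069a) (nat_lit 0) (p (nat_lit 0x7870806861a) (nat_lit 0) (p (nat_lit 0x800070786058a) (nat_lit 0) (p (nat_lit 0x787058502) (nat_lit 0)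 (p (nat_lit 0x586850482) (nat_lit 0) (p (nat_lit 0x160014) (nat_lit 0) (p (nat_lit 0x16000c) (nat_lit 0) (p (nat_lit 0x68612) (nat_lit 0) (p (nat_lit 0x50592) (nat_lit 0) (p (nat_lit 0x40512) (nat_lit 0) (p (nat_lit 0x50312) (nat_lit 0) (p (nat_lit 0x38292) (nat_lit 0) (p (nat_lit 0x28212) (nat_lit 0) (p (nat_lit 0x38112) (nat_lit 0) (p (nat_lit 0x20092) (nat_lit 0) (p (nat_lit 0x10012) (nat_lit 0) pn)))))))))))))))))))))))))))))))))) :=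
  Cl.node (nat_lit 0x41) (nat_lit 2) (by decide +kernel) (ClAll.succ (ClAll.succ ClAll.zero n12) n13)

def n19 : Cl (O (nat_lit 1)) (R (nat_lit 14353))
    (p (nat_lit 0xb000c) (nat_lit 0) (p (nat_lit 0xc1) (nat_lit 0) (p (nat_lit 0x380c2) (nat_lit 0) (p (nat_lit 0x4c42a) (nat_lit 2) (p (nat_lit 0xc9) (nat_lit 0) (p (nat_lit 0x89) (nat_lit 1) (p (nat_lit 0x100004) (nat_lit 0) (p (nat_lit 0x200004) (nat_lit 0) (p (nat_lit 0x380c2) (nat_lit 0) (p (nat_lit 0x444aa) (nat_lit 7) (p (nat_lit 0x111) (nat_lit 0) (p (nat_lit 0xc9) (nat_lit 1) (p (nat_lit 0x81) (nat_lit 0) (p (nat_lit 0x101) (nat_lit 1) (p (nat_lit 0x119) (nat_lit 0) (p (nat_lit 0xd1) (nat_lit 0) (p (nat_lit 0x89) (nat_lit 0) (p (nat_lit 0x41) (nat_lit 0) (p (nat_lit 0x8090887069a) (nat_lit 0) (p (nat_lit 0x7870806861a) (nat_lit 0) (p (nat_lit 0x800070786058a) (nat_lit 0) (p (nat_lit 0x787058502) (nat_lit 0) (p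 (nat_lit 0x586850482) (nat_lit 0) (p (nat_lit 0x160014) (nat_lit 0) (p (nat_lit 0x16000c) (nat_lit 0) (p (nat_lit 0x68612) (nat_lit 0) (p (nat_lit 0x50592) (nat_lit 0) (p (nat_lit 0x40512) (nat_lit 0) (p (nat_lit 0x50312) (nat_lit 0) (p (nat_lit 0x38292) (nat_lit 0) (p (nat_lit 0x28212) (nat_lit 0) (p (nat_lit 0x38112) (nat_lit 0) (p (nat_lit 0x20092) (nat_lit 0) (p (nat_lit 0x10012) (nat_lit 0) pn)))))))))))))))))))))))))))))))))) :=
  Cl.node (nat_lit 0xb0014) (nat_lit 2) (by decide +kernel) (ClAll.succ (ClAll.succ ClAll.zero s84) s85)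

def n20 : Cl (O (nat_lit 1)) (R (nat_lit 14353))
    (p (nat_lit 0xc0004) (nat_lit 0) (p (nat_lit 0x109) (nat_lit 0) (p (nat_lit 0xc9) (nat_lit 0) (p (nat_lit 0x134014) (nat_lit 0) (p (nat_lit 0x13400c) (nat_lit 0) (p (nat_lit 0x80004) (nat_lit 1) (p (nat_lit 0xc1) (nat_lit 0) (p (nat_lit 0x100004) (nat_lit 0) (p (nat_lit 0x200004) (nat_lit 0) (p (nat_lit 0x380c2) (nat_lit 1) (p (nat_lit 0x444aa) (nat_lit 7) (p (nat_lit 0xd1) (nat_lit 1) (p (nat_lit 0x109) (nat_lit 1) (p (nat_lit 0x101) (nat_lit 0) (p (nat_lit 0x119) (nat_lit 0) (p (nat_lit 0xc9) (nat_lit 0) (p (nat_lit 0x89) (nat_lit 1) (p (nat_lit 0x41) (nat_lit 0) (p (nat_lit 0x8090887069a) (nat_lit 0) (p (nat_lit 0x7870806861a) (nat_lit 0) (p (nat_lit 0x800070786058a) (nat_lit 0) (p (nat_lit 0x787058502) (nat_lit 0) (p (nat_lit 0x586850482) (nat_lit 0) (p (nat_lit 0x160014) (nat_lit 0) (p (nat_lit 0x16000c) (nat_lit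 0) (p (nat_lit 0x68612) (nat_lit 0) (p (nat_lit 0x50592) (nat_lit 0) (p (nat_lit 0x40512) (nat_lit 0) (p (nat_lit 0x50312) (nat_lit 0) (p (nat_lit 0x38292) (nat_lit 0) (p (nat_lit 0x28212) (nat_lit 0) (p (nat_lit 0x38112) (nat_lit 0) (p (nat_lit 0x20092) (nat_lit 0) (p (nat_lit 0x10012) (nat_lit 0) pn)))))))))))))))))))))))))))))))))) :=
  Cl.node (nat_lit 0x9c00c) (nat_lit 2) (by decide +kernel) (ClAll.succ (ClAll.succ ClAll.zero s499) s500)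

def n21 : Cl (O (nat_lit 1)) (R (nat_lit 14353))
    (p (nat_lit 0xc0004) (nat_lit 1) (p (nat_lit 0x109) (nat_lit 0) (p (nat_lit 0xc9) (nat_lit 0) (p (nat_lit 0x134014) (nat_lit 0) (p (nat_lit 0x13400c) (nat_lit 0) (p (nat_lit 0x80004) (nat_lit 1) (p (nat_lit 0xc1) (nat_lit 0) (p (nat_lit 0x100004) (nat_lit 0) (p (nat_lit 0x200004) (nat_lit 0) (p (nat_lit 0x380c2) (nat_lit 1) (p (nat_lit 0x444aa) (nat_lit 7) (p (nat_lit 0xd1) (nat_lit 1) (p (nat_lit 0x109) (nat_lit 1) (p (nat_lit 0x101) (nat_lit 0) (p (nat_lit 0x119) (nat_lit 0) (p (nat_lit 0xc9) (nat_lit 0) (p (nat_lit 0x89) (nat_lit 1) (p (nat_lit 0x41) (nat_lit 0) (p (nat_lit 0x8090887069a) (nat_lit 0) (p (nat_lit 0x7870806861a) (nat_lit 0) (p (nat_lit 0x800070786058a) (nat_lit 0) (p (nat_lit 0x787058502) (nat_lit 0) (p (nat_lit 0x586850482) (nat_lit 0) (p (nat_lit 0x160014) (nat_lit 0) (p (nat_lit 0x16000c) (nat_lit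 0) (p (nat_lit 0x68612) (nat_lit 0) (p (nat_lit 0x50592) (nat_lit 0) (p (nat_lit 0x40512) (nat_lit 0) (p (nat_lit 0x50312) (nat_lit 0) (p (nat_lit 0x38292) (nat_lit 0) (p (nat_lit 0x28212) (nat_lit 0) (p (nat_lit 0x38112) (nat_lit 0) (p (nat_lit 0x20092) (nat_lit 0) (p (nat_lit 0x10012) (nat_lit 0) pn)))))))))))))))))))))))))))))))))) :=
  Cl.node (nat_lit 0x11c00c) (nat_lit 2) (by decide +kernel) (ClAll.succ (ClAll.succ ClAll.zero n14) s515)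

def n22 : Cl (O (nat_lit 1)) (R (nat_lit 14353))
    (p (nat_lit 0x41) (nat_lit 0) (p (nat_lit 0xc9) (nat_lit 0) (p (nat_lit 0x89) (nat_lit 1) (p (nat_lit 0xc9) (nat_lit 1) (p (nat_lit 0xc1) (nat_lit 0) (p (nat_lit 0x81) (nat_lit 1) (p (nat_lit 0xb000c) (nat_lit 0) (p (nat_lit 0xb0014) (nat_lit 0) (p (nat_lit 0x380c2) (nat_lit 0) (p (nat_lit 0x3cc2a) (nat_lit 11) (p (nat_lit 0x111) (nat_lit 1) (p (nat_lit 0x89) (nat_lit 0) (p (nat_lit 0x109) (nat_lit 1) (p (nat_lit 0x101) (nat_lit 0) (p (nat_lit 0x119) (nat_lit 0) (p (nat_lit 0xd1) (nat_lit 0) (p (nat_lit 0x81) (nat_lit 0) (p (nat_lit 0x41) (nat_lit 1) (p (nat_lit 0x8090887069a) (nat_lit 0) (p (nat_lit 0x7870806861a) (nat_lit 0) (p (nat_lit 0x800070786058a) (nat_lit 0) (p (nat_lit 0x787058502) (nat_lit 0) (p (nat_lit 0x586850482) (nat_lit 0) (p (nat_lit 0x160014) (nat_lit 0) (p (nat_lit 0x16000c) (nat_lit 0) (p (nat_lit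 0x68612) (nat_lit 0) (p (nat_lit 0x50592) (nat_lit 0) (p (nat_lit 0x40512) (nat_lit 0) (p (nat_lit 0x50312) (nat_lit 0) (p (nat_lit 0x38292) (nat_lit 0) (p (nat_lit 0x28212) (nat_lit 0) (p (nat_lit 0x38112) (nat_lit 0) (p (nat_lit 0x20092) (nat_lit 0) (p (nat_lit 0x10012) (nat_lit 0) pn)))))))))))))))))))))))))))))))))) :=
  Cl.node (nat_lit 0x41) (nat_lit 2) (by decide +kernel) (ClAll.succ (ClAll.succ ClAll.zero n15) s739)

def n23 : Cl (O (nat_lit 1)) (R (nat_lit 14353))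
    (p (nat_lit 0x109) (nat_lit 1) (p (nat_lit 0x109) (nat_lit 1) (p (nat_lit 0xc9) (nat_lit 0) (p (nat_lit 0x89) (nat_lit 1) (p (nat_lit 0xc9) (nat_lit 1) (p (nat_lit 0x119) (nat_lit 1) (p (nat_lit 0x111) (nat_lit 0) (p (nat_lit 0xb000c) (nat_lit 0) (p (nat_lit 0xb0014) (nat_lit 0) (p (nat_lit 0x380c2) (nat_lit 0) (p (nat_lit 0x3cc2a) (nat_lit 11) (p (nat_lit 0x89) (nat_lit 0) (p (nat_lit 0xc1) (nat_lit 0) (p (nat_lit 0x101) (nat_lit 1) (p (nat_lit 0x119) (nat_lit 0) (p (nat_lit 0xd1) (nat_lit 0) (p (nat_lit 0x81) (nat_lit 0) (p (nat_lit 0x41) (nat_lit 1) (p (nat_lit 0x8090887069a) (nat_lit 0) (p (nat_lit 0x7870806861a) (nat_lit 0) (p (nat_lit 0x800070786058a) (nat_lit 0) (p (nat_lit 0x787058502) (nat_lit 0) (p (nat_lit 0x586850482) (nat_lit 0) (p (nat_lit 0x160014) (nat_lit 0) (p (nat_lit 0x16000c) (nat_lit 0) (p (nat_lit 0x68612) (nat_lit 0) (p (nat_lit 0x50592) (nat_lit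 0) (p (nat_lit 0x40512) (nat_lit 0) (p (nat_lit 0x50312) (nat_lit 0) (p (nat_lit 0x38292) (nat_lit 0) (p (nat_lit 0x28212) (nat_lit 0) (p (nat_lit 0x38112) (nat_lit 0) (p (nat_lit 0x20092) (nat_lit 0) (p (nat_lit 0x10012) (nat_lit 0) pn)))))))))))))))))))))))))))))))))) :=
  Cl.node (nat_lit 0x41) (nat_lit 2) (by decide +kernel) (ClAll.succ (ClAll.succ ClAll.zero n16) s795)

def n24 : Cl (O (nat_lit 1)) (R (nat_lit 14353))
    (p (nat_lit 0xc1) (nat_lit 1) (p (nat_lit 0x100004) (nat_lit 0) (p (nat_lit 0xb0014) (nat_lit 0) (p (nat_lit 0x380c2) (nat_lit 1) (p (nat_lit 0x444aa) (nat_lit 7) (p (nat_lit 0x200004) (nat_lit 0) (p (nat_lit 0xc1) (nat_lit 1) (p (nat_lit 0x380c2) (nat_lit 0) (p (nat_lit 0x4c42a) (nat_lit 2) (p (nat_lit 0x111) (nat_lit 0) (p (nat_lit 0xc9) (nat_lit 0) (p (nat_lit 0x81) (nat_lit 0) (p (nat_lit 0x101) (nat_lit 1) (p (nat_lit 0x119) (nat_lit 0) (p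 (nat_lit 0xd1) (nat_lit 0) (p (nat_lit 0x89) (nat_lit 0) (p (nat_lit 0x41) (nat_lit 0) (p (nat_lit 0x8090887069a) (nat_lit 0) (p (nat_lit 0x7870806861a) (nat_lit 0) (p (nat_lit 0x800070786058a) (nat_lit 0) (p (nat_lit 0x787058502) (nat_lit 0) (p (nat_lit 0x586850482) (nat_lit 0) (p (nat_lit 0x160014) (nat_lit 0) (p (nat_lit 0x16000c) (nat_lit 0) (p (nat_lit 0x68612) (nat_lit 0) (p (nat_lit 0x50592) (nat_lit 0) (p (nat_lit 0x40512) (nat_lit 0) (p (nat_lit 0x50312) (nat_lit 0) (p (nat_lit 0x38292) (nat_lit 0) (p (nat_lit 0x28212) (nat_lit 0) (p (nat_lit 0x38112) (nat_lit 0) (p (nat_lit 0x20092) (nat_lit 0) (p (nat_lit 0x10012) (nat_lit 0) pn))))))))))))))))))))))))))))))))) :=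
  Cl.node (nat_lit 0x81) (nat_lit 2) (by decide +kernel) (ClAll.succ (ClAll.succ ClAll.zero n17) n18)

def n25 : Cl (O (nat_lit 1)) (R (nat_lit 14353))
    (p (nat_lit 0xc1) (nat_lit 0) (p (nat_lit 0x380c2) (nat_lit 0) (p (nat_lit 0x4c42a) (nat_lit 2) (p (nat_lit 0xc9) (nat_lit 0) (p (nat_lit 0x89) (nat_lit 1) (p (nat_lit 0x100004) (nat_lit 0) (p (nat_lit 0x200004) (nat_lit 0) (p (nat_lit 0x380c2) (nat_lit 0) (p (nat_lit 0x444aa) (nat_lit 7) (p (nat_lit 0x111) (nat_lit 0) (p (nat_lit 0xc9) (nat_lit 1) (p (nat_lit 0x81) (nat_lit 0) (p (nat_lit 0x101) (nat_lit 1) (p (nat_lit 0x119) (nat_lit 0) (p (nat_lit 0xd1) (nat_lit 0) (p (nat_lit 0x89) (nat_lit 0) (p (nat_lit 0x41) (nat_lit 0) (p (nat_lit 0x8090887069a) (nat_lit 0) (p (nat_lit 0x7870806861a) (nat_lit 0) (p (nat_lit 0x800070786058a) (nat_lit 0) (p (nat_lit 0x787058502) (nat_lit 0) (p (nat_lit 0x586850482) (nat_lit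 0) (p (nat_lit 0x160014) (nat_lit 0) (p (nat_lit 0x16000c) (nat_lit 0) (p (nat_lit 0x68612) (nat_lit 0) (p (nat_lit 0x50592) (nat_lit 0) (p (nat_lit 0x40512) (nat_lit 0) (p (nat_lit 0x50312) (nat_lit 0) (p (nat_lit 0x38292) (nat_lit 0) (p (nat_lit 0x28212) (nat_lit 0) (p (nat_lit 0x38112) (nat_lit 0) (p (nat_lit 0x20092) (nat_lit 0) (p (nat_lit 0x10012) (nat_lit 0) pn))))))))))))))))))))))))))))))))) :=
  Cl.node (nat_lit 0xb000c) (nat_lit 2) (by decide +kernel) (ClAll.succ (ClAll.succ ClAll.zero n19) s86)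

def n26 : Cl (O (nat_lit 1)) (R (nat_lit 14353))
    (p (nat_lit 0xb8c8c0a8a1a) (nat_lit 0) (p (nat_lit 0xb0a8b8a099a) (nat_lit 0) (p (nat_lit 0x2680d0a8b09890a) (nat_lit 0) (p (nat_lit 0xb0014) (nat_lit 0) (p (nat_lit 0xb000c) (nat_lit 1) (p (nat_lit 0x100004) (nat_lit 0) (p (nat_lit 0x200004) (nat_lit 0) (p (nat_lit 0x380c2) (nat_lit 1) (p (nat_lit 0x444aa) (nat_lit 7) (p (nat_lit 0xd1) (nat_lit 1) (p (nat_lit 0x111) (nat_lit 1) (p (nat_lit 0x109) (nat_lit 0) (p (nat_lit 0x101) (nat_lit 0) (p (nat_lit 0x119) (nat_lit 0) (p (nat_lit 0xc9) (nat_lit 0) (p (nat_lit 0x89) (nat_lit 1) (p (nat_lit 0x41) (nat_lit 0) (p (nat_lit 0x8090887069a) (nat_lit 0) (p (nat_lit 0x7870806861a) (nat_lit 0) (p (nat_lit 0x800070786058a) (nat_lit 0) (p (nat_lit 0x787058502) (nat_lit 0) (p (nat_lit 0x586850482) (nat_lit 0) (p (nat_lit 0x160014) (nat_lit 0) (p (nat_lit 0x16000c) (nat_lit 0)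 (p (nat_lit 0x68612) (nat_lit 0) (p (nat_lit 0x50592) (nat_lit 0) (p (nat_lit 0x40512) (nat_lit 0) (p (nat_lit 0x50312) (nat_lit 0) (p (nat_lit 0x38292) (nat_lit 0) (p (nat_lit 0x28212) (nat_lit 0) (p (nat_lit 0x38112) (nat_lit 0) (p (nat_lit 0x20092) (nat_lit 0) (p (nat_lit 0x10012) (nat_lit 0) pn))))))))))))))))))))))))))))))))) :=
  Cl.node (nat_lit 0xc1) (nat_lit 2) (by decide +kernel) (ClAll.succ (ClAll.succ ClAll.zero s437) s438)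

def n27 : Cl (O (nat_lit 1)) (R (nat_lit 14353))
    (p (nat_lit 0x109) (nat_lit 0) (p (nat_lit 0xc9) (nat_lit 0) (p (nat_lit 0x134014) (nat_lit 0) (p (nat_lit 0x13400c) (nat_lit 0) (p (nat_lit 0x80004) (nat_lit 1) (p (nat_lit 0xc1) (nat_lit 0) (p (nat_lit 0x100004) (nat_lit 0) (p (nat_lit 0x200004) (nat_lit 0) (p (nat_lit 0x380c2) (nat_lit 1) (p (nat_lit 0x444aa) (nat_lit 7) (p (nat_lit 0xd1) (nat_lit 1) (p (nat_lit 0x109) (nat_lit 1) (p (nat_lit 0x101) (nat_lit 0) (p (nat_lit 0x119) (nat_lit 0) (p (nat_lit 0xc9) (nat_lit 0) (p (nat_lit 0x89) (nat_lit 1) (p (nat_lit 0x41) (nat_lit 0) (p (nat_lit 0x8090887069a) (nat_lit 0) (p (nat_lit 0x7870806861a) (nat_lit 0) (p (nat_lit 0x800070786058a) (nat_lit 0) (p (nat_lit 0x787058502) (nat_lit 0) (p (nat_lit 0x586850482) (nat_lit 0) (p (nat_lit 0x160014) (nat_lit 0) (p (nat_lit 0x16000c) (nat_lit 0) (p (nat_lit 0x68612) (nat_lit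 0) (p (nat_lit 0x50592) (nat_lit 0) (p (nat_lit 0x40512) (nat_lit 0) (p (nat_lit 0x50312) (nat_lit 0) (p (nat_lit 0x38292) (nat_lit 0) (p (nat_lit 0x28212) (nat_lit 0) (p (nat_lit 0x38112) (nat_lit 0) (p (nat_lit 0x20092) (nat_lit 0) (p (nat_lit 0x10012) (nat_lit 0) pn))))))))))))))))))))))))))))))))) :=
  Cl.node (nat_lit 0xc0004) (nat_lit 2) (by decide +kernel) (ClAll.succ (ClAll.succ ClAll.zero n20) n21)

def n28 : Cl (O (nat_lit 1)) (R (nat_lit 14353))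
    (p (nat_lit 0x109) (nat_lit 1) (p (nat_lit 0xc9) (nat_lit 0) (p (nat_lit 0x134014) (nat_lit 0) (p (nat_lit 0x13400c) (nat_lit 0) (p (nat_lit 0x80004) (nat_lit 1) (p (nat_lit 0xc1) (nat_lit 0) (p (nat_lit 0x100004) (nat_lit 0) (p (nat_lit 0x200004) (nat_lit 0) (p (nat_lit 0x380c2) (nat_lit 1) (p (nat_lit 0x444aa) (nat_lit 7) (p (nat_lit 0xd1) (nat_lit 1) (p (nat_lit 0x109) (nat_lit 1) (p (nat_lit 0x101) (nat_lit 0) (p (nat_lit 0x119) (nat_lit 0) (p (nat_lit 0xc9) (nat_lit 0) (p (nat_lit 0x89) (nat_lit 1) (p (nat_lit 0x41) (nat_lit 0) (p (nat_lit 0x8090887069a) (nat_lit 0) (p (nat_lit 0x7870806861a) (nat_lit 0) (p (nat_lit 0x800070786058a) (nat_lit 0) (p (nat_lit 0x787058502) (nat_lit 0) (p (nat_lit 0x586850482) (nat_lit 0) (p (nat_lit 0x160014) (nat_lit 0) (p (nat_lit 0x16000c) (nat_lit 0) (p (nat_lit 0x68612) (nat_lit 0) (p (nat_lit 0x50592) (nat_lit 0) (p (nat_lit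 0x40512) (nat_lit 0) (p (nat_lit 0x50312) (nat_lit 0) (p (nat_lit 0x38292) (nat_lit 0) (p (nat_lit 0x28212) (nat_lit 0) (p (nat_lit 0x38112) (nat_lit 0) (p (nat_lit 0x20092) (nat_lit 0) (p (nat_lit 0x10012) (nat_lit 0) pn))))))))))))))))))))))))))))))))) :=
  Cl.node (nat_lit 0x3cc2a) (nat_lit 12) (by decide +kernel) (ClAll.succ (ClAll.succ (ClAll.succ (ClAll.succ (ClAll.succ (ClAll.succ (ClAll.succ (ClAll.succ (ClAll.succ (ClAll.succ (ClAll.succ (ClAll.succ ClAll.zero s516) s517) s518) s519) s520) s521) s522) s523) s524) s525) s526) s527)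

def n29 : Cl (O (nat_lit 1)) (R (nat_lit 14353))
    (p (nat_lit 0xc9) (nat_lit 1) (p (nat_lit 0x109) (nat_lit 1) (p (nat_lit 0x89) (nat_lit 1) (p (nat_lit 0x41) (nat_lit 0) (p (nat_lit 0x109) (nat_lit 1) (p (nat_lit 0xb000c) (nat_lit 0) (p (nat_lit 0xc9) (nat_lit 1) (p (nat_lit 0x380c2) (nat_lit 0) (p (nat_lit 0x4c42a) (nat_lit 8) (p (nat_lit 0x111) (nat_lit 0) (p (nat_lit 0x89) (nat_lit 0) (p (nat_lit 0x109) (nat_lit 1) (p (nat_lit 0x101) (nat_lit 0) (p (nat_lit 0x119) (nat_lit 0) (p (nat_lit 0xd1) (nat_lit 0) (p (nat_lit 0x81) (nat_lit 0) (p (nat_lit 0x41) (nat_lit 1) (p (nat_lit 0x8090887069a) (nat_lit 0) (p (nat_lit 0x7870806861a) (nat_lit 0) (p (nat_lit 0x800070786058a) (nat_lit 0) (p (nat_lit 0x787058502) (nat_lit 0) (p (nat_lit 0x586850482) (nat_lit 0) (p (nat_lit 0x160014) (nat_lit 0) (p (nat_lit 0x16000c) (nat_lit 0) (p (nat_lit 0x68612) (nat_lit 0) (p (nat_lit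 0x50592) (nat_lit 0) (p (nat_lit 0x40512) (nat_lit 0) (p (nat_lit 0x50312) (nat_lit 0) (p (nat_lit 0x38292) (nat_lit 0) (p (nat_lit 0x28212) (nat_lit 0) (p (nat_lit 0x38112) (nat_lit 0) (p (nat_lit 0x20092) (nat_lit 0) (p (nat_lit 0x10012) (nat_lit 0) pn))))))))))))))))))))))))))))))))) :=
  Cl.node (nat_lit 0x41) (nat_lit 2) (by decide +kernel) (ClAll.succ (ClAll.succ ClAll.zero s711) s712)

def n30 : Cl (O (nat_lit 1)) (R (nat_lit 14353))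
    (p (nat_lit 0xc9) (nat_lit 0) (p (nat_lit 0x89) (nat_lit 1) (p (nat_lit 0xc9) (nat_lit 1) (p (nat_lit 0xc1) (nat_lit 0) (p (nat_lit 0x81) (nat_lit 1) (p (nat_lit 0xb000c) (nat_lit 0) (p (nat_lit 0xb0014) (nat_lit 0) (p (nat_lit 0x380c2) (nat_lit 0) (p (nat_lit 0x3cc2a) (nat_lit 11) (p (nat_lit 0x111) (nat_lit 1) (p (nat_lit 0x89) (nat_lit 0) (p (nat_lit 0x109) (nat_lit 1) (p (nat_lit 0x101) (nat_lit 0) (p (nat_lit 0x119) (nat_lit 0) (p (nat_lit 0xd1) (nat_lit 0) (p (nat_lit 0x81) (nat_lit 0) (p (nat_lit 0x41) (nat_lit 1) (p (nat_lit 0x8090887069a) (nat_lit 0) (p (nat_lit 0x7870806861a) (nat_lit 0) (p (nat_lit 0x800070786058a) (nat_lit 0) (p (nat_lit 0x787058502) (nat_lit 0) (p (nat_lit 0x586850482) (nat_lit 0) (p (nat_lit 0x160014) (nat_lit 0) (p (nat_lit 0x16000c) (nat_lit 0) (p (nat_lit 0x68612) (nat_lit 0) (p (nat_lit 0x50592) (nat_lit 0) (p (nat_lit 0x40512)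 (nat_lit 0) (p (nat_lit 0x50312) (nat_lit 0) (p (nat_lit 0x38292) (nat_lit 0) (p (nat_lit 0x28212) (nat_lit 0) (p (nat_lit 0x38112) (nat_lit 0) (p (nat_lit 0x20092) (nat_lit 0) (p (nat_lit 0x10012) (nat_lit 0) pn))))))))))))))))))))))))))))))))) :=
  Cl.node (nat_lit 0x41) (nat_lit 2) (by decide +kernel) (ClAll.succ (ClAll.succ ClAll.zero n22) s740)

def n31 : Cl (O (nat_lit 1)) (R (nat_lit 14353))
    (p (nat_lit 0x81) (nat_lit 0) (p (nat_lit 0xd1) (nat_lit 1) (p (nat_lit 0x111) (nat_lit 1) (p (nat_lit 0x81) (nat_lit 0) (p (nat_lit 0xb000c) (nat_lit 0) (p (nat_lit 0xd1) (nat_lit 1) (p (nat_lit 0x111) (nat_lit 1) (p (nat_lit 0x380c2) (nat_lit 0) (p (nat_lit 0x4c42a) (nat_lit 8) (p (nat_lit 0xc9) (nat_lit 0) (p (nat_lit 0x89) (nat_lit 1) (p (nat_lit 0x109) (nat_lit 1) (p (nat_lit 0x101) (nat_lit 0) (p (nat_lit 0x119) (nat_lit 0) (p (nat_lit 0xd1) (nat_lit 0) (p (nat_lit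 0x81) (nat_lit 0) (p (nat_lit 0x41) (nat_lit 1) (p (nat_lit 0x8090887069a) (nat_lit 0) (p (nat_lit 0x7870806861a) (nat_lit 0) (p (nat_lit 0x800070786058a) (nat_lit 0) (p (nat_lit 0x787058502) (nat_lit 0) (p (nat_lit 0x586850482) (nat_lit 0) (p (nat_lit 0x160014) (nat_lit 0) (p (nat_lit 0x16000c) (nat_lit 0) (p (nat_lit 0x68612) (nat_lit 0) (p (nat_lit 0x50592) (nat_lit 0) (p (nat_lit 0x40512) (nat_lit 0) (p (nat_lit 0x50312) (nat_lit 0) (p (nat_lit 0x38292) (nat_lit 0) (p (nat_lit 0x28212) (nat_lit 0) (p (nat_lit 0x38112) (nat_lit 0) (p (nat_lit 0x20092) (nat_lit 0) (p (nat_lit 0x10012) (nat_lit 0) pn))))))))))))))))))))))))))))))))) :=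
  Cl.node (nat_lit 0x89) (nat_lit 2) (by decide +kernel) (ClAll.succ (ClAll.succ ClAll.zero s761) s762)

def n32 : Cl (O (nat_lit 1)) (R (nat_lit 14353))
    (p (nat_lit 0x109) (nat_lit 1) (p (nat_lit 0xc9) (nat_lit 0) (p (nat_lit 0x89) (nat_lit 1) (p (nat_lit 0xc9) (nat_lit 1) (p (nat_lit 0x119) (nat_lit 1) (p (nat_lit 0x111) (nat_lit 0) (p (nat_lit 0xb000c) (nat_lit 0) (p (nat_lit 0xb0014) (nat_lit 0) (p (nat_lit 0x380c2) (nat_lit 0) (p (nat_lit 0x3cc2a) (nat_lit 11) (p (nat_lit 0x89) (nat_lit 0) (p (nat_lit 0xc1) (nat_lit 0) (p (nat_lit 0x101) (nat_lit 1) (p (nat_lit 0x119) (nat_lit 0) (p (nat_lit 0xd1) (nat_lit 0) (p (nat_lit 0x81) (nat_lit 0) (p (nat_lit 0x41) (nat_lit 1) (p (nat_lit 0x8090887069a) (nat_lit 0) (p (nat_lit 0x7870806861a) (nat_lit 0) (p (nat_lit 0x800070786058a) (nat_lit 0) (p (nat_lit 0x787058502) (nat_lit 0) (p (nat_lit 0x586850482) (nat_lit 0)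 (p (nat_lit 0x160014) (nat_lit 0) (p (nat_lit 0x16000c) (nat_lit 0) (p (nat_lit 0x68612) (nat_lit 0) (p (nat_lit 0x50592) (nat_lit 0) (p (nat_lit 0x40512) (nat_lit 0) (p (nat_lit 0x50312) (nat_lit 0) (p (nat_lit 0x38292) (nat_lit 0) (p (nat_lit 0x28212) (nat_lit 0) (p (nat_lit 0x38112) (nat_lit 0) (p (nat_lit 0x20092) (nat_lit 0) (p (nat_lit 0x10012) (nat_lit 0) pn))))))))))))))))))))))))))))))))) :=
  Cl.node (nat_lit 0x109) (nat_lit 2) (by decide +kernel) (ClAll.succ (ClAll.succ ClAll.zero s791) n23)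

def n33 : Cl (O (nat_lit 1)) (R (nat_lit 14353))
    (p (nat_lit 0x111) (nat_lit 0) (p (nat_lit 0x380c2) (nat_lit 0) (p (nat_lit 0x3cc2a) (nat_lit 11) (p (nat_lit 0xc1) (nat_lit 0) (p (nat_lit 0xb000c) (nat_lit 0) (p (nat_lit 0x100004) (nat_lit 0) (p (nat_lit 0xb0014) (nat_lit 0) (p (nat_lit 0x200004) (nat_lit 0) (p (nat_lit 0x380c2) (nat_lit 0) (p (nat_lit 0x3c4aa) (nat_lit 7) (p (nat_lit 0xd1) (nat_lit 1) (p (nat_lit 0xc9) (nat_lit 0) (p (nat_lit 0x101) (nat_lit 1) (p (nat_lit 0x119) (nat_lit 0) (p (nat_lit 0xc1) (nat_lit 0) (p (nat_lit 0x81) (nat_lit 1) (p (nat_lit 0x41) (nat_lit 1) (p (nat_lit 0x8090887069a) (nat_lit 0) (p (nat_lit 0x7870806861a) (nat_lit 0) (p (nat_lit 0x800070786058a) (nat_lit 0) (p (nat_lit 0x787058502) (nat_lit 0) (p (nat_lit 0x586850482) (nat_lit 0) (p (nat_lit 0x160014) (nat_lit 0) (p (nat_lit 0x16000c) (nat_lit 0) (p (nat_lit 0x68612) (nat_lit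 0) (p (nat_lit 0x50592) (nat_lit 0) (p (nat_lit 0x40512) (nat_lit 0) (p (nat_lit 0x50312) (nat_lit 0) (p (nat_lit 0x38292) (nat_lit 0) (p (nat_lit 0x28212) (nat_lit 0) (p (nat_lit 0x38112) (nat_lit 0) (p (nat_lit 0x20092) (nat_lit 0) (p (nat_lit 0x10012) (nat_lit 0) pn))))))))))))))))))))))))))))))))) :=
  Cl.node (nat_lit 0x111) (nat_lit 2) (by decide +kernel) (ClAll.succ (ClAll.succ ClAll.zero s1165) s1166)

def n34 : Cl (O (nat_lit 1)) (R (nat_lit 14353))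
    (p (nat_lit 0x100004) (nat_lit 0) (p (nat_lit 0xb0014) (nat_lit 0) (p (nat_lit 0x380c2) (nat_lit 1) (p (nat_lit 0x444aa) (nat_lit 7) (p (nat_lit 0x200004) (nat_lit 0) (p (nat_lit 0xc1) (nat_lit 1) (p (nat_lit 0x380c2) (nat_lit 0) (p (nat_lit 0x4c42a) (nat_lit 2) (p (nat_lit 0x111) (nat_lit 0) (p (nat_lit 0xc9) (nat_lit 0) (p (nat_lit 0x81) (nat_lit 0) (p (nat_lit 0x101) (nat_lit 1) (p (nat_lit 0x119) (nat_lit 0) (p (nat_lit 0xd1) (nat_lit 0) (p (nat_lit 0x89) (nat_lit 0) (p (nat_lit 0x41) (nat_lit 0) (p (nat_lit 0x8090887069a) (nat_lit 0) (p (nat_lit 0x7870806861a) (nat_lit 0) (p (nat_lit 0x800070786058a) (nat_lit 0) (p (nat_lit 0x787058502) (nat_lit 0) (p (nat_lit 0x586850482) (nat_lit 0) (p (nat_lit 0x160014) (nat_lit 0) (p (nat_lit 0x16000c) (nat_lit 0) (p (nat_lit 0x68612) (nat_lit 0) (p (nat_lit 0x50592) (nat_lit 0) (p (nat_lit 0x40512) (nat_lit 0) (p (nat_lit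 0x50312) (nat_lit 0) (p (nat_lit 0x38292) (nat_lit 0) (p (nat_lit 0x28212) (nat_lit 0) (p (nat_lit 0x38112) (nat_lit 0) (p (nat_lit 0x20092) (nat_lit 0) (p (nat_lit 0x10012) (nat_lit 0) pn)))))))))))))))))))))))))))))))) :=
  Cl.node (nat_lit 0xc1) (nat_lit 2) (by decide +kernel) (ClAll.succ (ClAll.succ ClAll.zero s33) n24)

def n35 : Cl (O (nat_lit 1)) (R (nat_lit 14353))
    (p (nat_lit 0x380c2) (nat_lit 0) (p (nat_lit 0x4c42a) (nat_lit 2) (p (nat_lit 0xc9) (nat_lit 0) (p (nat_lit 0x89) (nat_lit 1) (p (nat_lit 0x100004) (nat_lit 0) (p (nat_lit 0x200004) (nat_lit 0) (p (nat_lit 0x380c2) (nat_lit 0) (p (nat_lit 0x444aa) (nat_lit 7) (p (nat_lit 0x111) (nat_lit 0) (p (nat_lit 0xc9) (nat_lit 1) (p (nat_lit 0x81) (nat_lit 0) (p (nat_lit 0x101) (nat_lit 1) (p (nat_lit 0x119) (nat_lit 0) (p (nat_lit 0xd1) (nat_lit 0) (p (nat_lit 0x89) (nat_lit 0) (p (nat_lit 0x41) (nat_lit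 0) (p (nat_lit 0x8090887069a) (nat_lit 0) (p (nat_lit 0x7870806861a) (nat_lit 0) (p (nat_lit 0x800070786058a) (nat_lit 0) (p (nat_lit 0x787058502) (nat_lit 0) (p (nat_lit 0x586850482) (nat_lit 0) (p (nat_lit 0x160014) (nat_lit 0) (p (nat_lit 0x16000c) (nat_lit 0) (p (nat_lit 0x68612) (nat_lit 0) (p (nat_lit 0x50592) (nat_lit 0) (p (nat_lit 0x40512) (nat_lit 0) (p (nat_lit 0x50312) (nat_lit 0) (p (nat_lit 0x38292) (nat_lit 0) (p (nat_lit 0x28212) (nat_lit 0) (p (nat_lit 0x38112) (nat_lit 0) (p (nat_lit 0x20092) (nat_lit 0) (p (nat_lit 0x10012) (nat_lit 0) pn)))))))))))))))))))))))))))))))) :=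
  Cl.node (nat_lit 0xc1) (nat_lit 2) (by decide +kernel) (ClAll.succ (ClAll.succ ClAll.zero n25) s87)

def n36 : Cl (O (nat_lit 1)) (R (nat_lit 14353))
    (p (nat_lit 0x100004) (nat_lit 0) (p (nat_lit 0xb0014) (nat_lit 0) (p (nat_lit 0x380c2) (nat_lit 1) (p (nat_lit 0x444aa) (nat_lit 7) (p (nat_lit 0xd1) (nat_lit 1) (p (nat_lit 0x200004) (nat_lit 0) (p (nat_lit 0x380c2) (nat_lit 0) (p (nat_lit 0x4c42a) (nat_lit 2) (p (nat_lit 0xc9) (nat_lit 0) (p (nat_lit 0xc1) (nat_lit 0) (p (nat_lit 0x81) (nat_lit 1) (p (nat_lit 0x101) (nat_lit 1) (p (nat_lit 0x119) (nat_lit 0) (p (nat_lit 0xd1) (nat_lit 0) (p (nat_lit 0x89) (nat_lit 0) (p (nat_lit 0x41) (nat_lit 0) (p (nat_lit 0x8090887069a) (nat_lit 0) (p (nat_lit 0x7870806861a) (nat_lit 0) (p (nat_lit 0x800070786058a) (nat_lit 0) (p (nat_lit 0x787058502) (nat_lit 0) (p (nat_lit 0x586850482) (nat_lit 0) (p (nat_lit 0x160014) (nat_lit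 0) (p (nat_lit 0x16000c) (nat_lit 0) (p (nat_lit 0x68612) (nat_lit 0) (p (nat_lit 0x50592) (nat_lit 0) (p (nat_lit 0x40512) (nat_lit 0) (p (nat_lit 0x50312) (nat_lit 0) (p (nat_lit 0x38292) (nat_lit 0) (p (nat_lit 0x28212) (nat_lit 0) (p (nat_lit 0x38112) (nat_lit 0) (p (nat_lit 0x20092) (nat_lit 0) (p (nat_lit 0x10012) (nat_lit 0) pn)))))))))))))))))))))))))))))))) :=
  Cl.node (nat_lit 0x111) (nat_lit 2) (by decide +kernel) (ClAll.succ (ClAll.succ ClAll.zero s137) s138)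

def n37 : Cl (O (nat_lit 1)) (R (nat_lit 14353))
    (p (nat_lit 0xd1) (nat_lit 1) (p (nat_lit 0x111) (nat_lit 1) (p (nat_lit 0x89) (nat_lit 0) (p (nat_lit 0x111) (nat_lit 1) (p (nat_lit 0xb000c) (nat_lit 0) (p (nat_lit 0xd1) (nat_lit 1) (p (nat_lit 0x380c2) (nat_lit 0) (p (nat_lit 0x4c42a) (nat_lit 8) (p (nat_lit 0xc9) (nat_lit 0) (p (nat_lit 0xc1) (nat_lit 0) (p (nat_lit 0x81) (nat_lit 1) (p (nat_lit 0x101) (nat_lit 1) (p (nat_lit 0x119) (nat_lit 0) (p (nat_lit 0xd1) (nat_lit 0) (p (nat_lit 0x89) (nat_lit 0) (p (nat_lit 0x41) (nat_lit 0) (p (nat_lit 0x8090887069a) (nat_lit 0) (p (nat_lit 0x7870806861a) (nat_lit 0) (p (nat_lit 0x800070786058a) (nat_lit 0) (p (nat_lit 0x787058502) (nat_lit 0) (p (nat_lit 0x586850482) (nat_lit 0) (p (nat_lit 0x160014) (nat_lit 0) (p (nat_lit 0x16000c) (nat_lit 0) (p (nat_lit 0x68612) (nat_lit 0) (p (nat_lit 0x50592) (nat_lit 0) (p (nat_lit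 0x40512) (nat_lit 0) (p (nat_lit 0x50312) (nat_lit 0) (p (nat_lit 0x38292) (nat_lit 0) (p (nat_lit 0x28212) (nat_lit 0) (p (nat_lit 0x38112) (nat_lit 0) (p (nat_lit 0x20092) (nat_lit 0) (p (nat_lit 0x10012) (nat_lit 0) pn)))))))))))))))))))))))))))))))) :=
  Cl.node (nat_lit 0x81) (nat_lit 2) (by decide +kernel) (ClAll.succ (ClAll.succ ClAll.zero s156) s157)

def n38 : Cl (O (nat_lit 1)) (R (nat_lit 14353))
    (p (nat_lit 0xb0a8b8a099a) (nat_lit 0) (p (nat_lit 0x2680d0a8b09890a) (nat_lit 0) (p (nat_lit 0xb0014) (nat_lit 0) (p (nat_lit 0xb000c) (nat_lit 1) (p (nat_lit 0x100004) (nat_lit 0) (p (nat_lit 0x200004) (nat_lit 0) (p (nat_lit 0x380c2) (nat_lit 1) (p (nat_lit 0x444aa) (nat_lit 7) (p (nat_lit 0xd1) (nat_lit 1) (p (nat_lit 0x111) (nat_lit 1) (p (nat_lit 0x109) (nat_lit 0) (p (nat_lit 0x101) (nat_lit 0) (p (nat_lit 0x119) (nat_lit 0) (p (nat_lit 0xc9) (nat_lit 0)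 (p (nat_lit 0x89) (nat_lit 1) (p (nat_lit 0x41) (nat_lit 0) (p (nat_lit 0x8090887069a) (nat_lit 0) (p (nat_lit 0x7870806861a) (nat_lit 0) (p (nat_lit 0x800070786058a) (nat_lit 0) (p (nat_lit 0x787058502) (nat_lit 0) (p (nat_lit 0x586850482) (nat_lit 0) (p (nat_lit 0x160014) (nat_lit 0) (p (nat_lit 0x16000c) (nat_lit 0) (p (nat_lit 0x68612) (nat_lit 0) (p (nat_lit 0x50592) (nat_lit 0) (p (nat_lit 0x40512) (nat_lit 0) (p (nat_lit 0x50312) (nat_lit 0) (p (nat_lit 0x38292) (nat_lit 0) (p (nat_lit 0x28212) (nat_lit 0) (p (nat_lit 0x38112) (nat_lit 0) (p (nat_lit 0x20092) (nat_lit 0) (p (nat_lit 0x10012) (nat_lit 0) pn)))))))))))))))))))))))))))))))) :=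
  Cl.node (nat_lit 0xb8c8c0a8a1a) (nat_lit 1) (by decide +kernel) (ClAll.succ ClAll.zero n26)

def n39 : Cl (O (nat_lit 1)) (R (nat_lit 14353))
    (p (nat_lit 0xc9) (nat_lit 0) (p (nat_lit 0x134014) (nat_lit 0) (p (nat_lit 0x13400c) (nat_lit 0) (p (nat_lit 0x80004) (nat_lit 1) (p (nat_lit 0xc1) (nat_lit 0) (p (nat_lit 0x100004) (nat_lit 0) (p (nat_lit 0x200004) (nat_lit 0) (p (nat_lit 0x380c2) (nat_lit 1) (p (nat_lit 0x444aa) (nat_lit 7) (p (nat_lit 0xd1) (nat_lit 1) (p (nat_lit 0x109) (nat_lit 1) (p (nat_lit 0x101) (nat_lit 0) (p (nat_lit 0x119) (nat_lit 0) (p (nat_lit 0xc9) (nat_lit 0) (p (nat_lit 0x89) (nat_lit 1) (p (nat_lit 0x41) (nat_lit 0) (p (nat_lit 0x8090887069a) (nat_lit 0) (p (nat_lit 0x7870806861a) (nat_lit 0) (p (nat_lit 0x800070786058a) (nat_lit 0) (p (nat_lit 0x787058502) (nat_lit 0) (p (nat_lit 0x586850482) (nat_lit 0) (p (nat_lit 0x160014) (nat_lit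 0) (p (nat_lit 0x16000c) (nat_lit 0) (p (nat_lit 0x68612) (nat_lit 0) (p (nat_lit 0x50592) (nat_lit 0) (p (nat_lit 0x40512) (nat_lit 0) (p (nat_lit 0x50312) (nat_lit 0) (p (nat_lit 0x38292) (nat_lit 0) (p (nat_lit 0x28212) (nat_lit 0) (p (nat_lit 0x38112) (nat_lit 0) (p (nat_lit 0x20092) (nat_lit 0) (p (nat_lit 0x10012) (nat_lit 0) pn)))))))))))))))))))))))))))))))) :=
  Cl.node (nat_lit 0x109) (nat_lit 2) (by decide +kernel) (ClAll.succ (ClAll.succ ClAll.zero n27) n28)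

def n40 : Cl (O (nat_lit 1)) (R (nat_lit 14353))
    (p (nat_lit 0x109) (nat_lit 1) (p (nat_lit 0x89) (nat_lit 1) (p (nat_lit 0x41) (nat_lit 0) (p (nat_lit 0x109) (nat_lit 1) (p (nat_lit 0xb000c) (nat_lit 0) (p (nat_lit 0xc9) (nat_lit 1) (p (nat_lit 0x380c2) (nat_lit 0) (p (nat_lit 0x4c42a) (nat_lit 8) (p (nat_lit 0x111) (nat_lit 0) (p (nat_lit 0x89) (nat_lit 0) (p (nat_lit 0x109) (nat_lit 1) (p (nat_lit 0x101) (nat_lit 0) (p (nat_lit 0x119) (nat_lit 0) (p (nat_lit 0xd1) (nat_lit 0) (p (nat_lit 0x81) (nat_lit 0) (p (nat_lit 0x41) (nat_lit 1) (p (nat_lit 0x8090887069a) (nat_lit 0) (p (nat_lit 0x7870806861a) (nat_lit 0) (p (nat_lit 0x800070786058a) (nat_lit 0) (p (nat_lit 0x787058502) (nat_lit 0) (p (nat_lit 0x586850482) (nat_lit 0) (p (nat_lit 0x160014) (nat_lit 0) (p (nat_lit 0x16000c) (nat_lit 0) (p (nat_lit 0x68612) (nat_lit 0) (p (nat_lit 0x50592) (nat_lit 0) (p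 (nat_lit 0x40512) (nat_lit 0) (p (nat_lit 0x50312) (nat_lit 0) (p (nat_lit 0x38292) (nat_lit 0) (p (nat_lit 0x28212) (nat_lit 0) (p (nat_lit 0x38112) (nat_lit 0) (p (nat_lit 0x20092) (nat_lit 0) (p (nat_lit 0x10012) (nat_lit 0) pn)))))))))))))))))))))))))))))))) :=
  Cl.node (nat_lit 0xc9) (nat_lit 2) (by decide +kernel) (ClAll.succ (ClAll.succ ClAll.zero s710) n29)

def n41 : Cl (O (nat_lit 1)) (R (nat_lit 14353))
    (p (nat_lit 0x89) (nat_lit 1) (p (nat_lit 0xc9) (nat_lit 1) (p (nat_lit 0xc1) (nat_lit 0) (p (nat_lit 0x81) (nat_lit 1) (p (nat_lit 0xb000c) (nat_lit 0) (p (nat_lit 0xb0014) (nat_lit 0) (p (nat_lit 0x380c2) (nat_lit 0) (p (nat_lit 0x3cc2a) (nat_lit 11) (p (nat_lit 0x111) (nat_lit 1) (p (nat_lit 0x89) (nat_lit 0) (p (nat_lit 0x109) (nat_lit 1) (p (nat_lit 0x101) (nat_lit 0) (p (nat_lit 0x119) (nat_lit 0) (p (nat_lit 0xd1) (nat_lit 0) (p (nat_lit 0x81) (nat_lit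 0) (p (nat_lit 0x41) (nat_lit 1) (p (nat_lit 0x8090887069a) (nat_lit 0) (p (nat_lit 0x7870806861a) (nat_lit 0) (p (nat_lit 0x800070786058a) (nat_lit 0) (p (nat_lit 0x787058502) (nat_lit 0) (p (nat_lit 0x586850482) (nat_lit 0) (p (nat_lit 0x160014) (nat_lit 0) (p (nat_lit 0x16000c) (nat_lit 0) (p (nat_lit 0x68612) (nat_lit 0) (p (nat_lit 0x50592) (nat_lit 0) (p (nat_lit 0x40512) (nat_lit 0) (p (nat_lit 0x50312) (nat_lit 0) (p (nat_lit 0x38292) (nat_lit 0) (p (nat_lit 0x28212) (nat_lit 0) (p (nat_lit 0x38112) (nat_lit 0) (p (nat_lit 0x20092) (nat_lit 0) (p (nat_lit 0x10012) (nat_lit 0) pn)))))))))))))))))))))))))))))))) :=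
  Cl.node (nat_lit 0xc9) (nat_lit 2) (by decide +kernel) (ClAll.succ (ClAll.succ ClAll.zero n30) s741)

def n42 : Cl (O (nat_lit 1)) (R (nat_lit 14353))
    (p (nat_lit 0xd1) (nat_lit 1) (p (nat_lit 0x111) (nat_lit 1) (p (nat_lit 0x81) (nat_lit 0) (p (nat_lit 0xb000c) (nat_lit 0) (p (nat_lit 0xd1) (nat_lit 1) (p (nat_lit 0x111) (nat_lit 1) (p (nat_lit 0x380c2) (nat_lit 0) (p (nat_lit 0x4c42a) (nat_lit 8) (p (nat_lit 0xc9) (nat_lit 0) (p (nat_lit 0x89) (nat_lit 1) (p (nat_lit 0x109) (nat_lit 1) (p (nat_lit 0x101) (nat_lit 0) (p (nat_lit 0x119) (nat_lit 0) (p (nat_lit 0xd1) (nat_lit 0) (p (nat_lit 0x81) (nat_lit 0) (p (nat_lit 0x41) (nat_lit 1) (p (nat_lit 0x8090887069a) (nat_lit 0) (p (nat_lit 0x7870806861a) (nat_lit 0) (p (nat_lit 0x800070786058a) (nat_lit 0) (p (nat_lit 0x787058502) (nat_lit 0) (p (nat_lit 0x586850482) (nat_lit 0) (p (nat_lit 0x160014) (nat_lit 0) (p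 (nat_lit 0x16000c) (nat_lit 0) (p (nat_lit 0x68612) (nat_lit 0) (p (nat_lit 0x50592) (nat_lit 0) (p (nat_lit 0x40512) (nat_lit 0) (p (nat_lit 0x50312) (nat_lit 0) (p (nat_lit 0x38292) (nat_lit 0) (p (nat_lit 0x28212) (nat_lit 0) (p (nat_lit 0x38112) (nat_lit 0) (p (nat_lit 0x20092) (nat_lit 0) (p (nat_lit 0x10012) (nat_lit 0) pn)))))))))))))))))))))))))))))))) :=
  Cl.node (nat_lit 0x81) (nat_lit 2) (by decide +kernel) (ClAll.succ (ClAll.succ ClAll.zero n31) s763)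

def n43 : Cl (O (nat_lit 1)) (R (nat_lit 14353))
    (p (nat_lit 0xc9) (nat_lit 0) (p (nat_lit 0x89) (nat_lit 1) (p (nat_lit 0xc9) (nat_lit 1) (p (nat_lit 0x119) (nat_lit 1) (p (nat_lit 0x111) (nat_lit 0) (p (nat_lit 0xb000c) (nat_lit 0) (p (nat_lit 0xb0014) (nat_lit 0) (p (nat_lit 0x380c2) (nat_lit 0) (p (nat_lit 0x3cc2a) (nat_lit 11) (p (nat_lit 0x89) (nat_lit 0) (p (nat_lit 0xc1) (nat_lit 0) (p (nat_lit 0x101) (nat_lit 1) (p (nat_lit 0x119) (nat_lit 0) (p (nat_lit 0xd1) (nat_lit 0) (p (nat_lit 0x81) (nat_lit 0) (p (nat_lit 0x41) (nat_lit 1) (p (nat_lit 0x8090887069a) (nat_lit 0) (p (nat_lit 0x7870806861a) (nat_lit 0) (p (nat_lit 0x800070786058a) (nat_lit 0) (p (nat_lit 0x787058502) (nat_lit 0) (p (nat_lit 0x586850482) (nat_lit 0) (p (nat_lit 0x160014) (nat_lit 0) (p (nat_lit 0x16000c) (nat_lit 0) (p (nat_lit 0x68612) (nat_lit 0) (p (nat_lit 0x50592) (nat_lit 0) (p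 (nat_lit 0x40512) (nat_lit 0) (p (nat_lit 0x50312) (nat_lit 0) (p (nat_lit 0x38292) (nat_lit 0) (p (nat_lit 0x28212) (nat_lit 0) (p (nat_lit 0x38112) (nat_lit 0) (p (nat_lit 0x20092) (nat_lit 0) (p (nat_lit 0x10012) (nat_lit 0) pn)))))))))))))))))))))))))))))))) :=
  Cl.node (nat_lit 0x109) (nat_lit 2) (by decide +kernel) (ClAll.succ (ClAll.succ ClAll.zero s790) n32)

def n44 : Cl (O (nat_lit 1)) (R (nat_lit 14353))
    (p (nat_lit 0x89) (nat_lit 0) (p (nat_lit 0x111) (nat_lit 1) (p (nat_lit 0xd1) (nat_lit 1) (p (nat_lit 0x111) (nat_lit 1) (p (nat_lit 0xb000c) (nat_lit 0) (p (nat_lit 0xd1) (nat_lit 1) (p (nat_lit 0x380c2) (nat_lit 0) (p (nat_lit 0x4c42a) (nat_lit 8) (p (nat_lit 0xc9) (nat_lit 0) (p (nat_lit 0x89) (nat_lit 1) (p (nat_lit 0xc1) (nat_lit 0) (p (nat_lit 0x101) (nat_lit 1) (p (nat_lit 0x119) (nat_lit 0) (p (nat_lit 0xd1) (nat_lit 0) (p (nat_lit 0x81) (nat_lit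 0) (p (nat_lit 0x41) (nat_lit 1) (p (nat_lit 0x8090887069a) (nat_lit 0) (p (nat_lit 0x7870806861a) (nat_lit 0) (p (nat_lit 0x800070786058a) (nat_lit 0) (p (nat_lit 0x787058502) (nat_lit 0) (p (nat_lit 0x586850482) (nat_lit 0) (p (nat_lit 0x160014) (nat_lit 0) (p (nat_lit 0x16000c) (nat_lit 0) (p (nat_lit 0x68612) (nat_lit 0) (p (nat_lit 0x50592) (nat_lit 0) (p (nat_lit 0x40512) (nat_lit 0) (p (nat_lit 0x50312) (nat_lit 0) (p (nat_lit 0x38292) (nat_lit 0) (p (nat_lit 0x28212) (nat_lit 0) (p (nat_lit 0x38112) (nat_lit 0) (p (nat_lit 0x20092) (nat_lit 0) (p (nat_lit 0x10012) (nat_lit 0) pn)))))))))))))))))))))))))))))))) :=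
  Cl.node (nat_lit 0x81) (nat_lit 2) (by decide +kernel) (ClAll.succ (ClAll.succ ClAll.zero s816) s817)

def n45 : Cl (O (nat_lit 1)) (R (nat_lit 14353))
    (p (nat_lit 0x380c2) (nat_lit 0) (p (nat_lit 0x3cc2a) (nat_lit 11) (p (nat_lit 0xc1) (nat_lit 0) (p (nat_lit 0xb000c) (nat_lit 0) (p (nat_lit 0x100004) (nat_lit 0) (p (nat_lit 0xb0014) (nat_lit 0) (p (nat_lit 0x200004) (nat_lit 0) (p (nat_lit 0x380c2) (nat_lit 0) (p (nat_lit 0x3c4aa) (nat_lit 7) (p (nat_lit 0xd1) (nat_lit 1) (p (nat_lit 0xc9) (nat_lit 0) (p (nat_lit 0x101) (nat_lit 1) (p (nat_lit 0x119) (nat_lit 0) (p (nat_lit 0xc1) (nat_lit 0) (p (nat_lit 0x81) (nat_lit 1) (p (nat_lit 0x41) (nat_lit 1) (p (nat_lit 0x8090887069a) (nat_lit 0) (p (nat_lit 0x7870806861a) (nat_lit 0) (p (nat_lit 0x800070786058a) (nat_lit 0) (p (nat_lit 0x787058502) (nat_lit 0) (p (nat_lit 0x586850482) (nat_lit 0) (p (nat_lit 0x160014)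 (nat_lit 0) (p (nat_lit 0x16000c) (nat_lit 0) (p (nat_lit 0x68612) (nat_lit 0) (p (nat_lit 0x50592) (nat_lit 0) (p (nat_lit 0x40512) (nat_lit 0) (p (nat_lit 0x50312) (nat_lit 0) (p (nat_lit 0x38292) (nat_lit 0) (p (nat_lit 0x28212) (nat_lit 0) (p (nat_lit 0x38112) (nat_lit 0) (p (nat_lit 0x20092) (nat_lit 0) (p (nat_lit 0x10012) (nat_lit 0) pn)))))))))))))))))))))))))))))))) :=
  Cl.node (nat_lit 0x111) (nat_lit 2) (by decide +kernel) (ClAll.succ (ClAll.succ ClAll.zero n33) s1167)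

def n46 : Cl (O (nat_lit 1)) (R (nat_lit 14353))
    (p (nat_lit 0xb0014) (nat_lit 0) (p (nat_lit 0x380c2) (nat_lit 1) (p (nat_lit 0x444aa) (nat_lit 7) (p (nat_lit 0x200004) (nat_lit 0) (p (nat_lit 0xc1) (nat_lit 1) (p (nat_lit 0x380c2) (nat_lit 0) (p (nat_lit 0x4c42a) (nat_lit 2) (p (nat_lit 0x111) (nat_lit 0) (p (nat_lit 0xc9) (nat_lit 0) (p (nat_lit 0x81) (nat_lit 0) (p (nat_lit 0x101) (nat_lit 1) (p (nat_lit 0x119) (nat_lit 0) (p (nat_lit 0xd1) (nat_lit 0) (p (nat_lit 0x89) (nat_lit 0) (p (nat_lit 0x41) (nat_lit 0) (p (nat_lit 0x8090887069a) (nat_lit 0) (p (nat_lit 0x7870806861a) (nat_lit 0) (p (nat_lit 0x800070786058a) (nat_lit 0) (p (nat_lit 0x787058502) (nat_lit 0) (p (nat_lit 0x586850482) (nat_lit 0) (p (nat_lit 0x160014) (nat_lit 0) (p (nat_lit 0x16000c) (nat_lit 0) (p (nat_lit 0x68612) (nat_lit 0) (p (nat_lit 0x50592) (nat_lit 0) (p (nat_lit 0x40512) (nat_lit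 0) (p (nat_lit 0x50312) (nat_lit 0) (p (nat_lit 0x38292) (nat_lit 0) (p (nat_lit 0x28212) (nat_lit 0) (p (nat_lit 0x38112) (nat_lit 0) (p (nat_lit 0x20092) (nat_lit 0) (p (nat_lit 0x10012) (nat_lit 0) pn))))))))))))))))))))))))))))))) :=
  Cl.node (nat_lit 0x100004) (nat_lit 2) (by decide +kernel) (ClAll.succ (ClAll.succ ClAll.zero n34) s45)

def n47 : Cl (O (nat_lit 1)) (R (nat_lit 14353))
    (p (nat_lit 0x4c42a) (nat_lit 2) (p (nat_lit 0xc9) (nat_lit 0) (p (nat_lit 0x89) (nat_lit 1) (p (nat_lit 0x100004) (nat_lit 0) (p (nat_lit 0x200004) (nat_lit 0) (p (nat_lit 0x380c2) (nat_lit 0) (p (nat_lit 0x444aa) (nat_lit 7) (p (nat_lit 0x111) (nat_lit 0) (p (nat_lit 0xc9) (nat_lit 1) (p (nat_lit 0x81) (nat_lit 0) (p (nat_lit 0x101) (nat_lit 1) (p (nat_lit 0x119) (nat_lit 0) (p (nat_lit 0xd1) (nat_lit 0) (p (nat_lit 0x89) (nat_lit 0) (p (nat_lit 0x41) (nat_lit 0) (p (nat_lit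 0x8090887069a) (nat_lit 0) (p (nat_lit 0x7870806861a) (nat_lit 0) (p (nat_lit 0x800070786058a) (nat_lit 0) (p (nat_lit 0x787058502) (nat_lit 0) (p (nat_lit 0x586850482) (nat_lit 0) (p (nat_lit 0x160014) (nat_lit 0) (p (nat_lit 0x16000c) (nat_lit 0) (p (nat_lit 0x68612) (nat_lit 0) (p (nat_lit 0x50592) (nat_lit 0) (p (nat_lit 0x40512) (nat_lit 0) (p (nat_lit 0x50312) (nat_lit 0) (p (nat_lit 0x38292) (nat_lit 0) (p (nat_lit 0x28212) (nat_lit 0) (p (nat_lit 0x38112) (nat_lit 0) (p (nat_lit 0x20092) (nat_lit 0) (p (nat_lit 0x10012) (nat_lit 0) pn))))))))))))))))))))))))))))))) :=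
  Cl.node (nat_lit 0x380c2) (nat_lit 1) (by decide +kernel) (ClAll.succ ClAll.zero n35)

def n48 : Cl (O (nat_lit 1)) (R (nat_lit 14353))
    (p (nat_lit 0x111) (nat_lit 0) (p (nat_lit 0xb000c) (nat_lit 0) (p (nat_lit 0x89) (nat_lit 0) (p (nat_lit 0x100004) (nat_lit 0) (p (nat_lit 0x200004) (nat_lit 0) (p (nat_lit 0x380c2) (nat_lit 1) (p (nat_lit 0x444aa) (nat_lit 7) (p (nat_lit 0x111) (nat_lit 0) (p (nat_lit 0xc9) (nat_lit 1) (p (nat_lit 0x81) (nat_lit 0) (p (nat_lit 0x101) (nat_lit 1) (p (nat_lit 0x119) (nat_lit 0) (p (nat_lit 0xd1) (nat_lit 0) (p (nat_lit 0x89) (nat_lit 0) (p (nat_lit 0x41) (nat_lit 0) (p (nat_lit 0x8090887069a) (nat_lit 0) (p (nat_lit 0x7870806861a) (nat_lit 0) (p (nat_lit 0x800070786058a) (nat_lit 0) (p (nat_lit 0x787058502) (nat_lit 0) (p (nat_lit 0x586850482) (nat_lit 0) (p (nat_lit 0x160014) (nat_lit 0) (p (nat_lit 0x16000c) (nat_lit 0) (p (nat_lit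 0x68612) (nat_lit 0) (p (nat_lit 0x50592) (nat_lit 0) (p (nat_lit 0x40512) (nat_lit 0) (p (nat_lit 0x50312) (nat_lit 0) (p (nat_lit 0x38292) (nat_lit 0) (p (nat_lit 0x28212) (nat_lit 0) (p (nat_lit 0x38112) (nat_lit 0) (p (nat_lit 0x20092) (nat_lit 0) (p (nat_lit 0x10012) (nat_lit 0) pn))))))))))))))))))))))))))))))) :=
  Cl.node (nat_lit 0x119) (nat_lit 2) (by decide +kernel) (ClAll.succ (ClAll.succ ClAll.zero s100) s101)

def n49 : Cl (O (nat_lit 1)) (R (nat_lit 14353))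
    (p (nat_lit 0xb0014) (nat_lit 0) (p (nat_lit 0x380c2) (nat_lit 1) (p (nat_lit 0x444aa) (nat_lit 7) (p (nat_lit 0xd1) (nat_lit 1) (p (nat_lit 0x200004) (nat_lit 0) (p (nat_lit 0x380c2) (nat_lit 0) (p (nat_lit 0x4c42a) (nat_lit 2) (p (nat_lit 0xc9) (nat_lit 0) (p (nat_lit 0xc1) (nat_lit 0) (p (nat_lit 0x81) (nat_lit 1) (p (nat_lit 0x101) (nat_lit 1) (p (nat_lit 0x119) (nat_lit 0) (p (nat_lit 0xd1) (nat_lit 0) (p (nat_lit 0x89) (nat_lit 0) (p (nat_lit 0x41) (nat_lit 0) (p (nat_lit 0x8090887069a) (nat_lit 0) (p (nat_lit 0x7870806861a) (nat_lit 0) (p (nat_lit 0x800070786058a) (nat_lit 0) (p (nat_lit 0x787058502) (nat_lit 0) (p (nat_lit 0x586850482) (nat_lit 0) (p (nat_lit 0x160014) (nat_lit 0) (p (nat_lit 0x16000c) (nat_lit 0) (p (nat_lit 0x68612) (nat_lit 0) (p (nat_lit 0x50592) (nat_lit 0) (p (nat_lit 0x40512) (nat_lit 0) (p (nat_lit 0x50312) (nat_lit 0) (p (nat_lit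 0x38292) (nat_lit 0) (p (nat_lit 0x28212) (nat_lit 0) (p (nat_lit 0x38112) (nat_lit 0) (p (nat_lit 0x20092) (nat_lit 0) (p (nat_lit 0x10012) (nat_lit 0) pn))))))))))))))))))))))))))))))) :=
  Cl.node (nat_lit 0x100004) (nat_lit 2) (by decide +kernel) (ClAll.succ (ClAll.succ ClAll.zero n36) s139)

def n50 : Cl (O (nat_lit 1)) (R (nat_lit 14353))
    (p (nat_lit 0x111) (nat_lit 1) (p (nat_lit 0x89) (nat_lit 0) (p (nat_lit 0x111) (nat_lit 1) (p (nat_lit 0xb000c) (nat_lit 0) (p (nat_lit 0xd1) (nat_lit 1) (p (nat_lit 0x380c2) (nat_lit 0) (p (nat_lit 0x4c42a) (nat_lit 8) (p (nat_lit 0xc9) (nat_lit 0) (p (nat_lit 0xc1) (nat_lit 0) (p (nat_lit 0x81) (nat_lit 1) (p (nat_lit 0x101) (nat_lit 1) (p (nat_lit 0x119) (nat_lit 0) (p (nat_lit 0xd1) (nat_lit 0) (p (nat_lit 0x89) (nat_lit 0) (p (nat_lit 0x41) (nat_lit 0) (p (nat_lit 0x8090887069a) (nat_lit 0) (p (nat_lit 0x7870806861a)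 (nat_lit 0) (p (nat_lit 0x800070786058a) (nat_lit 0) (p (nat_lit 0x787058502) (nat_lit 0) (p (nat_lit 0x586850482) (nat_lit 0) (p (nat_lit 0x160014) (nat_lit 0) (p (nat_lit 0x16000c) (nat_lit 0) (p (nat_lit 0x68612) (nat_lit 0) (p (nat_lit 0x50592) (nat_lit 0) (p (nat_lit 0x40512) (nat_lit 0) (p (nat_lit 0x50312) (nat_lit 0) (p (nat_lit 0x38292) (nat_lit 0) (p (nat_lit 0x28212) (nat_lit 0) (p (nat_lit 0x38112) (nat_lit 0) (p (nat_lit 0x20092) (nat_lit 0) (p (nat_lit 0x10012) (nat_lit 0) pn))))))))))))))))))))))))))))))) :=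
  Cl.node (nat_lit 0xd1) (nat_lit 2) (by decide +kernel) (ClAll.succ (ClAll.succ ClAll.zero s155) n37)

def n51 : Cl (O (nat_lit 1)) (R (nat_lit 14353))
    (p (nat_lit 0x2680d0a8b09890a) (nat_lit 0) (p (nat_lit 0xb0014) (nat_lit 0) (p (nat_lit 0xb000c) (nat_lit 1) (p (nat_lit 0x100004) (nat_lit 0) (p (nat_lit 0x200004) (nat_lit 0) (p (nat_lit 0x380c2) (nat_lit 1) (p (nat_lit 0x444aa) (nat_lit 7) (p (nat_lit 0xd1) (nat_lit 1) (p (nat_lit 0x111) (nat_lit 1) (p (nat_lit 0x109) (nat_lit 0) (p (nat_lit 0x101) (nat_lit 0) (p (nat_lit 0x119) (nat_lit 0) (p (nat_lit 0xc9) (nat_lit 0) (p (nat_lit 0x89) (nat_lit 1) (p (nat_lit 0x41) (nat_lit 0) (p (nat_lit 0x8090887069a) (nat_lit 0) (p (nat_lit 0x7870806861a) (nat_lit 0) (p (nat_lit 0x800070786058a) (nat_lit 0) (p (nat_lit 0x787058502) (nat_lit 0) (p (nat_lit 0x586850482) (nat_lit 0) (p (nat_lit 0x160014) (nat_lit 0) (p (nat_lit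 0x16000c) (nat_lit 0) (p (nat_lit 0x68612) (nat_lit 0) (p (nat_lit 0x50592) (nat_lit 0) (p (nat_lit 0x40512) (nat_lit 0) (p (nat_lit 0x50312) (nat_lit 0) (p (nat_lit 0x38292) (nat_lit 0) (p (nat_lit 0x28212) (nat_lit 0) (p (nat_lit 0x38112) (nat_lit 0) (p (nat_lit 0x20092) (nat_lit 0) (p (nat_lit 0x10012) (nat_lit 0) pn))))))))))))))))))))))))))))))) :=
  Cl.node (nat_lit 0xb0a8b8a099a) (nat_lit 1) (by decide +kernel) (ClAll.succ ClAll.zero n38)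

def n52 : Cl (O (nat_lit 1)) (R (nat_lit 14353))
    (p (nat_lit 0x134014) (nat_lit 0) (p (nat_lit 0x13400c) (nat_lit 0) (p (nat_lit 0x80004) (nat_lit 1) (p (nat_lit 0xc1) (nat_lit 0) (p (nat_lit 0x100004) (nat_lit 0) (p (nat_lit 0x200004) (nat_lit 0) (p (nat_lit 0x380c2) (nat_lit 1) (p (nat_lit 0x444aa) (nat_lit 7) (p (nat_lit 0xd1) (nat_lit 1) (p (nat_lit 0x109) (nat_lit 1) (p (nat_lit 0x101) (nat_lit 0) (p (nat_lit 0x119) (nat_lit 0) (p (nat_lit 0xc9) (nat_lit 0) (p (nat_lit 0x89) (nat_lit 1) (p (nat_lit 0x41) (nat_lit 0) (p (nat_lit 0x8090887069a) (nat_lit 0) (p (nat_lit 0x7870806861a) (nat_lit 0) (p (nat_lit 0x800070786058a) (nat_lit 0) (p (nat_lit 0x787058502) (nat_lit 0) (p (nat_lit 0x586850482) (nat_lit 0) (p (nat_lit 0x160014) (nat_lit 0) (p (nat_lit 0x16000c) (nat_lit 0) (p (nat_lit 0x68612) (nat_lit 0) (p (nat_lit 0x50592) (nat_lit 0) (p (nat_lit 0x40512)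 (nat_lit 0) (p (nat_lit 0x50312) (nat_lit 0) (p (nat_lit 0x38292) (nat_lit 0) (p (nat_lit 0x28212) (nat_lit 0) (p (nat_lit 0x38112) (nat_lit 0) (p (nat_lit 0x20092) (nat_lit 0) (p (nat_lit 0x10012) (nat_lit 0) pn))))))))))))))))))))))))))))))) :=
  Cl.node (nat_lit 0xc9) (nat_lit 2) (by decide +kernel) (ClAll.succ (ClAll.succ ClAll.zero n39) s528)

def n53 : Cl (O (nat_lit 1)) (R (nat_lit 14353))
    (p (nat_lit 0x89) (nat_lit 1) (p (nat_lit 0x41) (nat_lit 0) (p (nat_lit 0x109) (nat_lit 1) (p (nat_lit 0xb000c) (nat_lit 0) (p (nat_lit 0xc9) (nat_lit 1) (p (nat_lit 0x380c2) (nat_lit 0) (p (nat_lit 0x4c42a) (nat_lit 8) (p (nat_lit 0x111) (nat_lit 0) (p (nat_lit 0x89) (nat_lit 0) (p (nat_lit 0x109) (nat_lit 1) (p (nat_lit 0x101) (nat_lit 0) (p (nat_lit 0x119) (nat_lit 0) (p (nat_lit 0xd1) (nat_lit 0) (p (nat_lit 0x81) (nat_lit 0) (p (nat_lit 0x41) (nat_lit 1) (p (nat_lit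 0x8090887069a) (nat_lit 0) (p (nat_lit 0x7870806861a) (nat_lit 0) (p (nat_lit 0x800070786058a) (nat_lit 0) (p (nat_lit 0x787058502) (nat_lit 0) (p (nat_lit 0x586850482) (nat_lit 0) (p (nat_lit 0x160014) (nat_lit 0) (p (nat_lit 0x16000c) (nat_lit 0) (p (nat_lit 0x68612) (nat_lit 0) (p (nat_lit 0x50592) (nat_lit 0) (p (nat_lit 0x40512) (nat_lit 0) (p (nat_lit 0x50312) (nat_lit 0) (p (nat_lit 0x38292) (nat_lit 0) (p (nat_lit 0x28212) (nat_lit 0) (p (nat_lit 0x38112) (nat_lit 0) (p (nat_lit 0x20092) (nat_lit 0) (p (nat_lit 0x10012) (nat_lit 0) pn))))))))))))))))))))))))))))))) :=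
  Cl.node (nat_lit 0x109) (nat_lit 2) (by decide +kernel) (ClAll.succ (ClAll.succ ClAll.zero s709) n40)

def n54 : Cl (O (nat_lit 1)) (R (nat_lit 14353))
    (p (nat_lit 0xc9) (nat_lit 1) (p (nat_lit 0xc9) (nat_lit 1) (p (nat_lit 0x81) (nat_lit 0) (p (nat_lit 0xb000c) (nat_lit 0) (p (nat_lit 0xb0014) (nat_lit 0) (p (nat_lit 0x380c2) (nat_lit 0) (p (nat_lit 0x3cc2a) (nat_lit 11) (p (nat_lit 0x111) (nat_lit 1) (p (nat_lit 0x89) (nat_lit 0) (p (nat_lit 0x109) (nat_lit 1) (p (nat_lit 0x101) (nat_lit 0) (p (nat_lit 0x119) (nat_lit 0) (p (nat_lit 0xd1) (nat_lit 0) (p (nat_lit 0x81) (nat_lit 0) (p (nat_lit 0x41) (nat_lit 1) (p (nat_lit 0x8090887069a) (nat_lit 0) (p (nat_lit 0x7870806861a) (nat_lit 0) (p (nat_lit 0x800070786058a) (nat_lit 0) (p (nat_lit 0x787058502) (nat_lit 0) (p (nat_lit 0x586850482) (nat_lit 0) (p (nat_lit 0x160014) (nat_lit 0) (p (nat_lit 0x16000c) (nat_lit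 0) (p (nat_lit 0x68612) (nat_lit 0) (p (nat_lit 0x50592) (nat_lit 0) (p (nat_lit 0x40512) (nat_lit 0) (p (nat_lit 0x50312) (nat_lit 0) (p (nat_lit 0x38292) (nat_lit 0) (p (nat_lit 0x28212) (nat_lit 0) (p (nat_lit 0x38112) (nat_lit 0) (p (nat_lit 0x20092) (nat_lit 0) (p (nat_lit 0x10012) (nat_lit 0) pn))))))))))))))))))))))))))))))) :=
  Cl.node (nat_lit 0xc1) (nat_lit 2) (by decide +kernel) (ClAll.succ (ClAll.succ ClAll.zero s732) s733)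

def n55 : Cl (O (nat_lit 1)) (R (nat_lit 14353))
    (p (nat_lit 0xc9) (nat_lit 1) (p (nat_lit 0xc1) (nat_lit 0) (p (nat_lit 0x81) (nat_lit 1) (p (nat_lit 0xb000c) (nat_lit 0) (p (nat_lit 0xb0014) (nat_lit 0) (p (nat_lit 0x380c2) (nat_lit 0) (p (nat_lit 0x3cc2a) (nat_lit 11) (p (nat_lit 0x111) (nat_lit 1) (p (nat_lit 0x89) (nat_lit 0) (p (nat_lit 0x109) (nat_lit 1) (p (nat_lit 0x101) (nat_lit 0) (p (nat_lit 0x119) (nat_lit 0) (p (nat_lit 0xd1) (nat_lit 0) (p (nat_lit 0x81) (nat_lit 0) (p (nat_lit 0x41) (nat_lit 1) (p (nat_lit 0x8090887069a) (nat_lit 0) (p (nat_lit 0x7870806861a) (nat_lit 0) (p (nat_lit 0x800070786058a) (nat_lit 0) (p (nat_lit 0x787058502) (nat_lit 0) (p (nat_lit 0x586850482) (nat_lit 0) (p (nat_lit 0x160014) (nat_lit 0) (p (nat_lit 0x16000c) (nat_lit 0) (p (nat_lit 0x68612) (nat_lit 0) (p (nat_lit 0x50592) (nat_lit 0) (p (nat_lit 0x40512) (nat_lit 0)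 (p (nat_lit 0x50312) (nat_lit 0) (p (nat_lit 0x38292) (nat_lit 0) (p (nat_lit 0x28212) (nat_lit 0) (p (nat_lit 0x38112) (nat_lit 0) (p (nat_lit 0x20092) (nat_lit 0) (p (nat_lit 0x10012) (nat_lit 0) pn))))))))))))))))))))))))))))))) :=
  Cl.node (nat_lit 0x89) (nat_lit 2) (by decide +kernel) (ClAll.succ (ClAll.succ ClAll.zero s735) n41)

def n56 : Cl (O (nat_lit 1)) (R (nat_lit 14353))
    (p (nat_lit 0x111) (nat_lit 1) (p (nat_lit 0x81) (nat_lit 0) (p (nat_lit 0xb000c) (nat_lit 0) (p (nat_lit 0xd1) (nat_lit 1) (p (nat_lit 0x111) (nat_lit 1) (p (nat_lit 0x380c2) (nat_lit 0) (p (nat_lit 0x4c42a) (nat_lit 8) (p (nat_lit 0xc9) (nat_lit 0) (p (nat_lit 0x89) (nat_lit 1) (p (nat_lit 0x109) (nat_lit 1) (p (nat_lit 0x101) (nat_lit 0) (p (nat_lit 0x119) (nat_lit 0) (p (nat_lit 0xd1) (nat_lit 0) (p (nat_lit 0x81) (nat_lit 0) (p (nat_lit 0x41) (nat_lit 1) (p (nat_lit 0x8090887069a)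 (nat_lit 0) (p (nat_lit 0x7870806861a) (nat_lit 0) (p (nat_lit 0x800070786058a) (nat_lit 0) (p (nat_lit 0x787058502) (nat_lit 0) (p (nat_lit 0x586850482) (nat_lit 0) (p (nat_lit 0x160014) (nat_lit 0) (p (nat_lit 0x16000c) (nat_lit 0) (p (nat_lit 0x68612) (nat_lit 0) (p (nat_lit 0x50592) (nat_lit 0) (p (nat_lit 0x40512) (nat_lit 0) (p (nat_lit 0x50312) (nat_lit 0) (p (nat_lit 0x38292) (nat_lit 0) (p (nat_lit 0x28212) (nat_lit 0) (p (nat_lit 0x38112) (nat_lit 0) (p (nat_lit 0x20092) (nat_lit 0) (p (nat_lit 0x10012) (nat_lit 0) pn))))))))))))))))))))))))))))))) :=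
  Cl.node (nat_lit 0xd1) (nat_lit 2) (by decide +kernel) (ClAll.succ (ClAll.succ ClAll.zero s760) n42)

def n57 : Cl (O (nat_lit 1)) (R (nat_lit 14353))
    (p (nat_lit 0x89) (nat_lit 1) (p (nat_lit 0xc9) (nat_lit 1) (p (nat_lit 0x119) (nat_lit 1) (p (nat_lit 0x111) (nat_lit 0) (p (nat_lit 0xb000c) (nat_lit 0) (p (nat_lit 0xb0014) (nat_lit 0) (p (nat_lit 0x380c2) (nat_lit 0) (p (nat_lit 0x3cc2a) (nat_lit 11) (p (nat_lit 0x89) (nat_lit 0) (p (nat_lit 0xc1) (nat_lit 0) (p (nat_lit 0x101) (nat_lit 1) (p (nat_lit 0x119) (nat_lit 0) (p (nat_lit 0xd1) (nat_lit 0) (p (nat_lit 0x81) (nat_lit 0) (p (nat_lit 0x41) (nat_lit 1) (p (nat_lit 0x8090887069a) (nat_lit 0) (p (nat_lit 0x7870806861a) (nat_lit 0) (p (nat_lit 0x800070786058a) (nat_lit 0) (p (nat_lit 0x787058502) (nat_lit 0) (p (nat_lit 0x586850482) (nat_lit 0) (p (nat_lit 0x160014) (nat_lit 0) (p (nat_lit 0x16000c) (nat_lit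 0) (p (nat_lit 0x68612) (nat_lit 0) (p (nat_lit 0x50592) (nat_lit 0) (p (nat_lit 0x40512) (nat_lit 0) (p (nat_lit 0x50312) (nat_lit 0) (p (nat_lit 0x38292) (nat_lit 0) (p (nat_lit 0x28212) (nat_lit 0) (p (nat_lit 0x38112) (nat_lit 0) (p (nat_lit 0x20092) (nat_lit 0) (p (nat_lit 0x10012) (nat_lit 0) pn))))))))))))))))))))))))))))))) :=
  Cl.node (nat_lit 0xc9) (nat_lit 2) (by decide +kernel) (ClAll.succ (ClAll.succ ClAll.zero n43) s796)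

def n58 : Cl (O (nat_lit 1)) (R (nat_lit 14353))
    (p (nat_lit 0x111) (nat_lit 1) (p (nat_lit 0xd1) (nat_lit 1) (p (nat_lit 0x111) (nat_lit 1) (p (nat_lit 0xb000c) (nat_lit 0) (p (nat_lit 0xd1) (nat_lit 1) (p (nat_lit 0x380c2) (nat_lit 0) (p (nat_lit 0x4c42a) (nat_lit 8) (p (nat_lit 0xc9) (nat_lit 0) (p (nat_lit 0x89) (nat_lit 1) (p (nat_lit 0xc1) (nat_lit 0) (p (nat_lit 0x101) (nat_lit 1) (p (nat_lit 0x119) (nat_lit 0) (p (nat_lit 0xd1) (nat_lit 0) (p (nat_lit 0x81) (nat_lit 0) (p (nat_lit 0x41) (nat_lit 1) (p (nat_lit 0x8090887069a) (nat_lit 0) (p (nat_lit 0x7870806861a) (nat_lit 0) (p (nat_lit 0x800070786058a) (nat_lit 0) (p (nat_lit 0x787058502) (nat_lit 0) (p (nat_lit 0x586850482) (nat_lit 0) (p (nat_lit 0x160014) (nat_lit 0) (p (nat_lit 0x16000c) (nat_lit 0) (p (nat_lit 0x68612) (nat_lit 0) (p (nat_lit 0x50592) (nat_lit 0) (p (nat_lit 0x40512) (nat_lit 0) (p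 (nat_lit 0x50312) (nat_lit 0) (p (nat_lit 0x38292) (nat_lit 0) (p (nat_lit 0x28212) (nat_lit 0) (p (nat_lit 0x38112) (nat_lit 0) (p (nat_lit 0x20092) (nat_lit 0) (p (nat_lit 0x10012) (nat_lit 0) pn))))))))))))))))))))))))))))))) :=
  Cl.node (nat_lit 0x89) (nat_lit 2) (by decide +kernel) (ClAll.succ (ClAll.succ ClAll.zero n44) s818)

def n59 : Cl (O (nat_lit 1)) (R (nat_lit 14353))
    (p (nat_lit 0xb0014) (nat_lit 0) (p (nat_lit 0xc9) (nat_lit 0) (p (nat_lit 0xb000c) (nat_lit 0) (p (nat_lit 0x100004) (nat_lit 0) (p (nat_lit 0x200004) (nat_lit 0) (p (nat_lit 0x380c2) (nat_lit 0) (p (nat_lit 0x3c4aa) (nat_lit 7) (p (nat_lit 0xd1) (nat_lit 1) (p (nat_lit 0x111) (nat_lit 1) (p (nat_lit 0x109) (nat_lit 0) (p (nat_lit 0x101) (nat_lit 0) (p (nat_lit 0x119) (nat_lit 0) (p (nat_lit 0xc1) (nat_lit 0) (p (nat_lit 0x81) (nat_lit 1) (p (nat_lit 0x41) (nat_lit 1) (p (nat_lit 0x8090887069a)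 (nat_lit 0) (p (nat_lit 0x7870806861a) (nat_lit 0) (p (nat_lit 0x800070786058a) (nat_lit 0) (p (nat_lit 0x787058502) (nat_lit 0) (p (nat_lit 0x586850482) (nat_lit 0) (p (nat_lit 0x160014) (nat_lit 0) (p (nat_lit 0x16000c) (nat_lit 0) (p (nat_lit 0x68612) (nat_lit 0) (p (nat_lit 0x50592) (nat_lit 0) (p (nat_lit 0x40512) (nat_lit 0) (p (nat_lit 0x50312) (nat_lit 0) (p (nat_lit 0x38292) (nat_lit 0) (p (nat_lit 0x28212) (nat_lit 0) (p (nat_lit 0x38112) (nat_lit 0) (p (nat_lit 0x20092) (nat_lit 0) (p (nat_lit 0x10012) (nat_lit 0) pn))))))))))))))))))))))))))))))) :=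
  Cl.node (nat_lit 0x80004) (nat_lit 2) (by decide +kernel) (ClAll.succ (ClAll.succ ClAll.zero s1087) s1088)

def n60 : Cl (O (nat_lit 1)) (R (nat_lit 14353))
    (p (nat_lit 0x101) (nat_lit 1) (p (nat_lit 0xc9) (nat_lit 1) (p (nat_lit 0xb000c) (nat_lit 0) (p (nat_lit 0x100004) (nat_lit 0) (p (nat_lit 0x200004) (nat_lit 0) (p (nat_lit 0x380c2) (nat_lit 1) (p (nat_lit 0x3c4aa) (nat_lit 7) (p (nat_lit 0xd1) (nat_lit 1) (p (nat_lit 0x111) (nat_lit 1) (p (nat_lit 0x109) (nat_lit 0) (p (nat_lit 0x101) (nat_lit 0) (p (nat_lit 0x119) (nat_lit 0) (p (nat_lit 0xc1) (nat_lit 0) (p (nat_lit 0x81) (nat_lit 1) (p (nat_lit 0x41) (nat_lit 1) (p (nat_lit 0x8090887069a) (nat_lit 0) (p (nat_lit 0x7870806861a) (nat_lit 0) (p (nat_lit 0x800070786058a) (nat_lit 0) (p (nat_lit 0x787058502) (nat_lit 0) (p (nat_lit 0x586850482) (nat_lit 0) (p (nat_lit 0x160014) (nat_lit 0) (p (nat_lit 0x16000c)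 (nat_lit 0) (p (nat_lit 0x68612) (nat_lit 0) (p (nat_lit 0x50592) (nat_lit 0) (p (nat_lit 0x40512) (nat_lit 0) (p (nat_lit 0x50312) (nat_lit 0) (p (nat_lit 0x38292) (nat_lit 0) (p (nat_lit 0x28212) (nat_lit 0) (p (nat_lit 0x38112) (nat_lit 0) (p (nat_lit 0x20092) (nat_lit 0) (p (nat_lit 0x10012) (nat_lit 0) pn))))))))))))))))))))))))))))))) :=
  Cl.node (nat_lit 0xb0014) (nat_lit 2) (by decide +kernel) (ClAll.succ (ClAll.succ ClAll.zero s1098) s1099)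

def n61 : Cl (O (nat_lit 1)) (R (nat_lit 14353))
    (p (nat_lit 0xb000c) (nat_lit 0) (p (nat_lit 0xc1) (nat_lit 1) (p (nat_lit 0x119) (nat_lit 1) (p (nat_lit 0x100004) (nat_lit 0) (p (nat_lit 0x200004) (nat_lit 0) (p (nat_lit 0x380c2) (nat_lit 1) (p (nat_lit 0x3c4aa) (nat_lit 7) (p (nat_lit 0xd1) (nat_lit 1) (p (nat_lit 0xc9) (nat_lit 0) (p (nat_lit 0x109) (nat_lit 1) (p (nat_lit 0x101) (nat_lit 0) (p (nat_lit 0x119) (nat_lit 0) (p (nat_lit 0xc1) (nat_lit 0) (p (nat_lit 0x81) (nat_lit 1) (p (nat_lit 0x41) (nat_lit 1) (p (nat_lit 0x8090887069a) (nat_lit 0) (p (nat_lit 0x7870806861a) (nat_lit 0) (p (nat_lit 0x800070786058a) (nat_lit 0) (p (nat_lit 0x787058502) (nat_lit 0) (p (nat_lit 0x586850482) (nat_lit 0) (p (nat_lit 0x160014) (nat_lit 0) (p (nat_lit 0x16000c) (nat_lit 0) (p (nat_lit 0x68612) (nat_lit 0) (p (nat_lit 0x50592) (nat_lit 0) (p (nat_lit 0x40512) (nat_lit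 0) (p (nat_lit 0x50312) (nat_lit 0) (p (nat_lit 0x38292) (nat_lit 0) (p (nat_lit 0x28212) (nat_lit 0) (p (nat_lit 0x38112) (nat_lit 0) (p (nat_lit 0x20092) (nat_lit 0) (p (nat_lit 0x10012) (nat_lit 0) pn))))))))))))))))))))))))))))))) :=
  Cl.node (nat_lit 0x5800c) (nat_lit 2) (by decide +kernel) (ClAll.succ (ClAll.succ ClAll.zero s1120) s1121)

def n62 : Cl (O (nat_lit 1)) (R (nat_lit 14353))
    (p (nat_lit 0x3cc2a) (nat_lit 11) (p (nat_lit 0xc1) (nat_lit 0) (p (nat_lit 0xb000c) (nat_lit 0) (p (nat_lit 0x100004) (nat_lit 0) (p (nat_lit 0xb0014) (nat_lit 0) (p (nat_lit 0x200004) (nat_lit 0) (p (nat_lit 0x380c2) (nat_lit 0) (p (nat_lit 0x3c4aa) (nat_lit 7) (p (nat_lit 0xd1) (nat_lit 1) (p (nat_lit 0xc9) (nat_lit 0) (p (nat_lit 0x101) (nat_lit 1) (p (nat_lit 0x119) (nat_lit 0) (p (nat_lit 0xc1) (nat_lit 0) (p (nat_lit 0x81) (nat_lit 1) (p (nat_lit 0x41) (nat_lit 1) (p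 (nat_lit 0x8090887069a) (nat_lit 0) (p (nat_lit 0x7870806861a) (nat_lit 0) (p (nat_lit 0x800070786058a) (nat_lit 0) (p (nat_lit 0x787058502) (nat_lit 0) (p (nat_lit 0x586850482) (nat_lit 0) (p (nat_lit 0x160014) (nat_lit 0) (p (nat_lit 0x16000c) (nat_lit 0) (p (nat_lit 0x68612) (nat_lit 0) (p (nat_lit 0x50592) (nat_lit 0) (p (nat_lit 0x40512) (nat_lit 0) (p (nat_lit 0x50312) (nat_lit 0) (p (nat_lit 0x38292) (nat_lit 0) (p (nat_lit 0x28212) (nat_lit 0) (p (nat_lit 0x38112) (nat_lit 0) (p (nat_lit 0x20092) (nat_lit 0) (p (nat_lit 0x10012) (nat_lit 0) pn))))))))))))))))))))))))))))))) :=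
  Cl.node (nat_lit 0x380c2) (nat_lit 2) (by decide +kernel) (ClAll.succ (ClAll.succ ClAll.zero n45) s1168)

def n63 : Cl (O (nat_lit 1)) (R (nat_lit 14353))
    (p (nat_lit 0x380c2) (nat_lit 1) (p (nat_lit 0x444aa) (nat_lit 7) (p (nat_lit 0x200004) (nat_lit 0) (p (nat_lit 0xc1) (nat_lit 1) (p (nat_lit 0x380c2) (nat_lit 0) (p (nat_lit 0x4c42a) (nat_lit 2) (p (nat_lit 0x111) (nat_lit 0) (p (nat_lit 0xc9) (nat_lit 0) (p (nat_lit 0x81) (nat_lit 0) (p (nat_lit 0x101) (nat_lit 1) (p (nat_lit 0x119) (nat_lit 0) (p (nat_lit 0xd1) (nat_lit 0) (p (nat_lit 0x89) (nat_lit 0) (p (nat_lit 0x41) (nat_lit 0) (p (nat_lit 0x8090887069a) (nat_lit 0) (p (nat_lit 0x7870806861a) (nat_lit 0) (p (nat_lit 0x800070786058a) (nat_lit 0) (p (nat_lit 0x787058502) (nat_lit 0) (p (nat_lit 0x586850482) (nat_lit 0) (p (nat_lit 0x160014) (nat_lit 0) (p (nat_lit 0x16000c) (nat_lit 0) (p (nat_lit 0x68612)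 (nat_lit 0) (p (nat_lit 0x50592) (nat_lit 0) (p (nat_lit 0x40512) (nat_lit 0) (p (nat_lit 0x50312) (nat_lit 0) (p (nat_lit 0x38292) (nat_lit 0) (p (nat_lit 0x28212) (nat_lit 0) (p (nat_lit 0x38112) (nat_lit 0) (p (nat_lit 0x20092) (nat_lit 0) (p (nat_lit 0x10012) (nat_lit 0) pn)))))))))))))))))))))))))))))) :=
  Cl.node (nat_lit 0xb0014) (nat_lit 2) (by decide +kernel) (ClAll.succ (ClAll.succ ClAll.zero n46) s46)

def n64 : Cl (O (nat_lit 1)) (R (nat_lit 14353))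
    (p (nat_lit 0xc9) (nat_lit 0) (p (nat_lit 0x89) (nat_lit 1) (p (nat_lit 0x100004) (nat_lit 0) (p (nat_lit 0x200004) (nat_lit 0) (p (nat_lit 0x380c2) (nat_lit 0) (p (nat_lit 0x444aa) (nat_lit 7) (p (nat_lit 0x111) (nat_lit 0) (p (nat_lit 0xc9) (nat_lit 1) (p (nat_lit 0x81) (nat_lit 0) (p (nat_lit 0x101) (nat_lit 1) (p (nat_lit 0x119) (nat_lit 0) (p (nat_lit 0xd1) (nat_lit 0) (p (nat_lit 0x89) (nat_lit 0) (p (nat_lit 0x41) (nat_lit 0) (p (nat_lit 0x8090887069a) (nat_lit 0) (p (nat_lit 0x7870806861a) (nat_lit 0) (p (nat_lit 0x800070786058a) (nat_lit 0) (p (nat_lit 0x787058502) (nat_lit 0) (p (nat_lit 0x586850482) (nat_lit 0) (p (nat_lit 0x160014) (nat_lit 0) (p (nat_lit 0x16000c) (nat_lit 0) (p (nat_lit 0x68612) (nat_lit 0) (p (nat_lit 0x50592) (nat_lit 0) (p (nat_lit 0x40512) (nat_lit 0) (p (nat_lit 0x50312) (nat_lit 0) (p (nat_lit 0x38292) (nat_lit 0) (p (nat_lit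 0x28212) (nat_lit 0) (p (nat_lit 0x38112) (nat_lit 0) (p (nat_lit 0x20092) (nat_lit 0) (p (nat_lit 0x10012) (nat_lit 0) pn)))))))))))))))))))))))))))))) :=
  Cl.node (nat_lit 0x4c42a) (nat_lit 12) (by decide +kernel) (ClAll.succ (ClAll.succ (ClAll.succ (ClAll.succ (ClAll.succ (ClAll.succ (ClAll.succ (ClAll.succ (ClAll.succ (ClAll.succ (ClAll.succ (ClAll.succ ClAll.zero s82) s83) n47) s88) s89) s90) s91) s92) s93) s94) s95) s96)

def n65 : Cl (O (nat_lit 1)) (R (nat_lit 14353))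
    (p (nat_lit 0xb000c) (nat_lit 0) (p (nat_lit 0x89) (nat_lit 0) (p (nat_lit 0x100004) (nat_lit 0) (p (nat_lit 0x200004) (nat_lit 0) (p (nat_lit 0x380c2) (nat_lit 1) (p (nat_lit 0x444aa) (nat_lit 7) (p (nat_lit 0x111) (nat_lit 0) (p (nat_lit 0xc9) (nat_lit 1) (p (nat_lit 0x81) (nat_lit 0) (p (nat_lit 0x101) (nat_lit 1) (p (nat_lit 0x119) (nat_lit 0) (p (nat_lit 0xd1) (nat_lit 0) (p (nat_lit 0x89) (nat_lit 0) (p (nat_lit 0x41) (nat_lit 0) (p (nat_lit 0x8090887069a) (nat_lit 0) (p (nat_lit 0x7870806861a) (nat_lit 0) (p (nat_lit 0x800070786058a) (nat_lit 0) (p (nat_lit 0x787058502) (nat_lit 0) (p (nat_lit 0x586850482) (nat_lit 0) (p (nat_lit 0x160014) (nat_lit 0) (p (nat_lit 0x16000c) (nat_lit 0) (p (nat_lit 0x68612) (nat_lit 0) (p (nat_lit 0x50592) (nat_lit 0) (p (nat_lit 0x40512) (nat_lit 0) (p (nat_lit 0x50312) (nat_lit 0) (p (nat_lit 0x38292) (nat_lit 0) (p (nat_lit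 0x28212) (nat_lit 0) (p (nat_lit 0x38112) (nat_lit 0) (p (nat_lit 0x20092) (nat_lit 0) (p (nat_lit 0x10012) (nat_lit 0) pn)))))))))))))))))))))))))))))) :=
  Cl.node (nat_lit 0x111) (nat_lit 2) (by decide +kernel) (ClAll.succ (ClAll.succ ClAll.zero n48) s102)

def n66 : Cl (O (nat_lit 1)) (R (nat_lit 14353))
    (p (nat_lit 0xc9) (nat_lit 0) (p (nat_lit 0x89) (nat_lit 1) (p (nat_lit 0x100004) (nat_lit 0) (p (nat_lit 0x200004) (nat_lit 0) (p (nat_lit 0x380c2) (nat_lit 1) (p (nat_lit 0x444aa) (nat_lit 7) (p (nat_lit 0x111) (nat_lit 0) (p (nat_lit 0xc9) (nat_lit 1) (p (nat_lit 0x81) (nat_lit 0) (p (nat_lit 0x101) (nat_lit 1) (p (nat_lit 0x119) (nat_lit 0) (p (nat_lit 0xd1) (nat_lit 0) (p (nat_lit 0x89) (nat_lit 0) (p (nat_lit 0x41) (nat_lit 0) (p (nat_lit 0x8090887069a) (nat_lit 0) (p (nat_lit 0x7870806861a) (nat_lit 0) (p (nat_lit 0x800070786058a) (nat_lit 0) (p (nat_lit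 0x787058502) (nat_lit 0) (p (nat_lit 0x586850482) (nat_lit 0) (p (nat_lit 0x160014) (nat_lit 0) (p (nat_lit 0x16000c) (nat_lit 0) (p (nat_lit 0x68612) (nat_lit 0) (p (nat_lit 0x50592) (nat_lit 0) (p (nat_lit 0x40512) (nat_lit 0) (p (nat_lit 0x50312) (nat_lit 0) (p (nat_lit 0x38292) (nat_lit 0) (p (nat_lit 0x28212) (nat_lit 0) (p (nat_lit 0x38112) (nat_lit 0) (p (nat_lit 0x20092) (nat_lit 0) (p (nat_lit 0x10012) (nat_lit 0) pn)))))))))))))))))))))))))))))) :=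
  Cl.node (nat_lit 0x4c42a) (nat_lit 12) (by decide +kernel) (ClAll.succ (ClAll.succ (ClAll.succ (ClAll.succ (ClAll.succ (ClAll.succ (ClAll.succ (ClAll.succ (ClAll.succ (ClAll.succ (ClAll.succ (ClAll.succ ClAll.zero s104) s105) s106) s107) s108) s109) s110) s111) s112) s113) s114) s115)

def n67 : Cl (O (nat_lit 1)) (R (nat_lit 14353))
    (p (nat_lit 0x380c2) (nat_lit 1) (p (nat_lit 0x444aa) (nat_lit 7) (p (nat_lit 0xd1) (nat_lit 1) (p (nat_lit 0x200004) (nat_lit 0) (p (nat_lit 0x380c2) (nat_lit 0) (p (nat_lit 0x4c42a) (nat_lit 2) (p (nat_lit 0xc9) (nat_lit 0) (p (nat_lit 0xc1) (nat_lit 0) (p (nat_lit 0x81) (nat_lit 1) (p (nat_lit 0x101) (nat_lit 1) (p (nat_lit 0x119) (nat_lit 0) (p (nat_lit 0xd1) (nat_lit 0) (p (nat_lit 0x89) (nat_lit 0) (p (nat_lit 0x41) (nat_lit 0) (p (nat_lit 0x8090887069a) (nat_lit 0) (p (nat_lit 0x7870806861a) (nat_lit 0) (p (nat_lit 0x800070786058a)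 (nat_lit 0) (p (nat_lit 0x787058502) (nat_lit 0) (p (nat_lit 0x586850482) (nat_lit 0) (p (nat_lit 0x160014) (nat_lit 0) (p (nat_lit 0x16000c) (nat_lit 0) (p (nat_lit 0x68612) (nat_lit 0) (p (nat_lit 0x50592) (nat_lit 0) (p (nat_lit 0x40512) (nat_lit 0) (p (nat_lit 0x50312) (nat_lit 0) (p (nat_lit 0x38292) (nat_lit 0) (p (nat_lit 0x28212) (nat_lit 0) (p (nat_lit 0x38112) (nat_lit 0) (p (nat_lit 0x20092) (nat_lit 0) (p (nat_lit 0x10012) (nat_lit 0) pn)))))))))))))))))))))))))))))) :=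
  Cl.node (nat_lit 0xb0014) (nat_lit 2) (by decide +kernel) (ClAll.succ (ClAll.succ ClAll.zero n49) s140)

def n68 : Cl (O (nat_lit 1)) (R (nat_lit 14353))
    (p (nat_lit 0x89) (nat_lit 0) (p (nat_lit 0x111) (nat_lit 1) (p (nat_lit 0xb000c) (nat_lit 0) (p (nat_lit 0xd1) (nat_lit 1) (p (nat_lit 0x380c2) (nat_lit 0) (p (nat_lit 0x4c42a) (nat_lit 8) (p (nat_lit 0xc9) (nat_lit 0) (p (nat_lit 0xc1) (nat_lit 0) (p (nat_lit 0x81) (nat_lit 1) (p (nat_lit 0x101) (nat_lit 1) (p (nat_lit 0x119) (nat_lit 0) (p (nat_lit 0xd1) (nat_lit 0) (p (nat_lit 0x89) (nat_lit 0) (p (nat_lit 0x41) (nat_lit 0) (p (nat_lit 0x8090887069a) (nat_lit 0) (p (nat_lit 0x7870806861a) (nat_lit 0) (p (nat_lit 0x800070786058a) (nat_lit 0) (p (nat_lit 0x787058502) (nat_lit 0) (p (nat_lit 0x586850482) (nat_lit 0) (p (nat_lit 0x160014) (nat_lit 0) (p (nat_lit 0x16000c) (nat_lit 0) (p (nat_lit 0x68612) (nat_lit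 0) (p (nat_lit 0x50592) (nat_lit 0) (p (nat_lit 0x40512) (nat_lit 0) (p (nat_lit 0x50312) (nat_lit 0) (p (nat_lit 0x38292) (nat_lit 0) (p (nat_lit 0x28212) (nat_lit 0) (p (nat_lit 0x38112) (nat_lit 0) (p (nat_lit 0x20092) (nat_lit 0) (p (nat_lit 0x10012) (nat_lit 0) pn)))))))))))))))))))))))))))))) :=
  Cl.node (nat_lit 0x111) (nat_lit 2) (by decide +kernel) (ClAll.succ (ClAll.succ ClAll.zero s154) n50)

def n69 : Cl (O (nat_lit 1)) (R (nat_lit 14353))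
    (p (nat_lit 0x108014) (nat_lit 0) (p (nat_lit 0x10800c) (nat_lit 0) (p (nat_lit 0x100004) (nat_lit 1) (p (nat_lit 0x200004) (nat_lit 0) (p (nat_lit 0x380c2) (nat_lit 0) (p (nat_lit 0x44c2a) (nat_lit 0) (p (nat_lit 0x109) (nat_lit 0) (p (nat_lit 0x101) (nat_lit 0) (p (nat_lit 0x81) (nat_lit 1) (p (nat_lit 0xc1) (nat_lit 1) (p (nat_lit 0x119) (nat_lit 1) (p (nat_lit 0xd1) (nat_lit 0) (p (nat_lit 0x89) (nat_lit 0) (p (nat_lit 0x41) (nat_lit 0) (p (nat_lit 0x8090887069a) (nat_lit 0) (p (nat_lit 0x7870806861a) (nat_lit 0) (p (nat_lit 0x800070786058a) (nat_lit 0) (p (nat_lit 0x787058502) (nat_lit 0) (p (nat_lit 0x586850482) (nat_lit 0) (p (nat_lit 0x160014) (nat_lit 0) (p (nat_lit 0x16000c) (nat_lit 0) (p (nat_lit 0x68612) (nat_lit 0) (p (nat_lit 0x50592) (nat_lit 0) (p (nat_lit 0x40512) (nat_lit 0) (p (nat_lit 0x50312) (nat_lit 0) (p (nat_lit 0x38292) (nat_lit 0) (p (nat_lit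 0x28212) (nat_lit 0) (p (nat_lit 0x38112) (nat_lit 0) (p (nat_lit 0x20092) (nat_lit 0) (p (nat_lit 0x10012) (nat_lit 0) pn)))))))))))))))))))))))))))))) :=
  Cl.node (nat_lit 0x4c42a) (nat_lit 12) (by decide +kernel) (ClAll.succ (ClAll.succ (ClAll.succ (ClAll.succ (ClAll.succ (ClAll.succ (ClAll.succ (ClAll.succ (ClAll.succ (ClAll.succ (ClAll.succ (ClAll.succ ClAll.zero s245) s246) s247) s248) s249) s250) s251) s252) s253) s254) s255) s256)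

def n70 : Cl (O (nat_lit 1)) (R (nat_lit 14353))
    (p (nat_lit 0x3cc2a) (nat_lit 11) (p (nat_lit 0x119) (nat_lit 0) (p (nat_lit 0x100004) (nat_lit 0) (p (nat_lit 0x200004) (nat_lit 0) (p (nat_lit 0x380c2) (nat_lit 1) (p (nat_lit 0x444aa) (nat_lit 7) (p (nat_lit 0x109) (nat_lit 1) (p (nat_lit 0x101) (nat_lit 0) (p (nat_lit 0x81) (nat_lit 1) (p (nat_lit 0xc1) (nat_lit 1) (p (nat_lit 0x119) (nat_lit 1) (p (nat_lit 0xd1) (nat_lit 0) (p (nat_lit 0x89) (nat_lit 0) (p (nat_lit 0x41) (nat_lit 0) (p (nat_lit 0x8090887069a) (nat_lit 0) (p (nat_lit 0x7870806861a) (nat_lit 0) (p (nat_lit 0x800070786058a) (nat_lit 0) (p (nat_lit 0x787058502) (nat_lit 0) (p (nat_lit 0x586850482) (nat_lit 0) (p (nat_lit 0x160014) (nat_lit 0) (p (nat_lit 0x16000c) (nat_lit 0) (p (nat_lit 0x68612) (nat_lit 0) (p (nat_lit 0x50592) (nat_lit 0) (p (nat_lit 0x40512) (nat_lit 0) (p (nat_lit 0x50312) (nat_lit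 0) (p (nat_lit 0x38292) (nat_lit 0) (p (nat_lit 0x28212) (nat_lit 0) (p (nat_lit 0x38112) (nat_lit 0) (p (nat_lit 0x20092) (nat_lit 0) (p (nat_lit 0x10012) (nat_lit 0) pn)))))))))))))))))))))))))))))) :=
  Cl.node (nat_lit 0x380c2) (nat_lit 2) (by decide +kernel) (ClAll.succ (ClAll.succ ClAll.zero s295) s296)

def n71 : Cl (O (nat_lit 1)) (R (nat_lit 14353))
    (p (nat_lit 0xb000c) (nat_lit 1) (p (nat_lit 0xb0014) (nat_lit 0) (p (nat_lit 0x100004) (nat_lit 0) (p (nat_lit 0x380c2) (nat_lit 0) (p (nat_lit 0x4c42a) (nat_lit 2) (p (nat_lit 0x109) (nat_lit 0) (p (nat_lit 0x200004) (nat_lit 0) (p (nat_lit 0x119) (nat_lit 0) (p (nat_lit 0x81) (nat_lit 0) (p (nat_lit 0x101) (nat_lit 1) (p (nat_lit 0x111) (nat_lit 0) (p (nat_lit 0xd1) (nat_lit 1) (p (nat_lit 0x89) (nat_lit 0) (p (nat_lit 0x41) (nat_lit 0) (p (nat_lit 0x8090887069a) (nat_lit 0) (p (nat_lit 0x7870806861a) (nat_lit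 0) (p (nat_lit 0x800070786058a) (nat_lit 0) (p (nat_lit 0x787058502) (nat_lit 0) (p (nat_lit 0x586850482) (nat_lit 0) (p (nat_lit 0x160014) (nat_lit 0) (p (nat_lit 0x16000c) (nat_lit 0) (p (nat_lit 0x68612) (nat_lit 0) (p (nat_lit 0x50592) (nat_lit 0) (p (nat_lit 0x40512) (nat_lit 0) (p (nat_lit 0x50312) (nat_lit 0) (p (nat_lit 0x38292) (nat_lit 0) (p (nat_lit 0x28212) (nat_lit 0) (p (nat_lit 0x38112) (nat_lit 0) (p (nat_lit 0x20092) (nat_lit 0) (p (nat_lit 0x10012) (nat_lit 0) pn)))))))))))))))))))))))))))))) :=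
  Cl.node (nat_lit 0x80004) (nat_lit 2) (by decide +kernel) (ClAll.succ (ClAll.succ ClAll.zero s338) s339)

def n72 : Cl (O (nat_lit 1)) (R (nat_lit 14353))
    (p (nat_lit 0xb0014) (nat_lit 0) (p (nat_lit 0xb000c) (nat_lit 1) (p (nat_lit 0x100004) (nat_lit 0) (p (nat_lit 0x200004) (nat_lit 0) (p (nat_lit 0x380c2) (nat_lit 1) (p (nat_lit 0x444aa) (nat_lit 7) (p (nat_lit 0xd1) (nat_lit 1) (p (nat_lit 0x111) (nat_lit 1) (p (nat_lit 0x109) (nat_lit 0) (p (nat_lit 0x101) (nat_lit 0) (p (nat_lit 0x119) (nat_lit 0) (p (nat_lit 0xc9) (nat_lit 0) (p (nat_lit 0x89) (nat_lit 1) (p (nat_lit 0x41) (nat_lit 0) (p (nat_lit 0x8090887069a) (nat_lit 0) (p (nat_lit 0x7870806861a) (nat_lit 0) (p (nat_lit 0x800070786058a) (nat_lit 0) (p (nat_lit 0x787058502) (nat_lit 0) (p (nat_lit 0x586850482) (nat_lit 0) (p (nat_lit 0x160014) (nat_lit 0) (p (nat_lit 0x16000c) (nat_lit 0) (p (nat_lit 0x68612)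 (nat_lit 0) (p (nat_lit 0x50592) (nat_lit 0) (p (nat_lit 0x40512) (nat_lit 0) (p (nat_lit 0x50312) (nat_lit 0) (p (nat_lit 0x38292) (nat_lit 0) (p (nat_lit 0x28212) (nat_lit 0) (p (nat_lit 0x38112) (nat_lit 0) (p (nat_lit 0x20092) (nat_lit 0) (p (nat_lit 0x10012) (nat_lit 0) pn)))))))))))))))))))))))))))))) :=
  Cl.node (nat_lit 0x2680d0a8b09890a) (nat_lit 1) (by decide +kernel) (ClAll.succ ClAll.zero n51)

def n73 : Cl (O (nat_lit 1)) (R (nat_lit 14353))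
    (p (nat_lit 0xc9) (nat_lit 0) (p (nat_lit 0xc1) (nat_lit 0) (p (nat_lit 0xb000c) (nat_lit 0) (p (nat_lit 0x100004) (nat_lit 0) (p (nat_lit 0x200004) (nat_lit 0) (p (nat_lit 0x380c2) (nat_lit 0) (p (nat_lit 0x444aa) (nat_lit 7) (p (nat_lit 0xd1) (nat_lit 1) (p (nat_lit 0x109) (nat_lit 1) (p (nat_lit 0x101) (nat_lit 0) (p (nat_lit 0x119) (nat_lit 0) (p (nat_lit 0xc9) (nat_lit 0) (p (nat_lit 0x89) (nat_lit 1) (p (nat_lit 0x41) (nat_lit 0) (p (nat_lit 0x8090887069a) (nat_lit 0) (p (nat_lit 0x7870806861a) (nat_lit 0) (p (nat_lit 0x800070786058a) (nat_lit 0) (p (nat_lit 0x787058502) (nat_lit 0) (p (nat_lit 0x586850482) (nat_lit 0) (p (nat_lit 0x160014) (nat_lit 0) (p (nat_lit 0x16000c) (nat_lit 0) (p (nat_lit 0x68612) (nat_lit 0) (p (nat_lit 0x50592) (nat_lit 0) (p (nat_lit 0x40512) (nat_lit 0) (p (nat_lit 0x50312) (nat_lit 0) (p (nat_lit 0x38292) (nat_lit 0) (p (nat_lit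 0x28212) (nat_lit 0) (p (nat_lit 0x38112) (nat_lit 0) (p (nat_lit 0x20092) (nat_lit 0) (p (nat_lit 0x10012) (nat_lit 0) pn)))))))))))))))))))))))))))))) :=
  Cl.node (nat_lit 0x3cc2a) (nat_lit 12) (by decide +kernel) (ClAll.succ (ClAll.succ (ClAll.succ (ClAll.succ (ClAll.succ (ClAll.succ (ClAll.succ (ClAll.succ (ClAll.succ (ClAll.succ (ClAll.succ (ClAll.succ ClAll.zero s469) s470) s471) s472) s473) s474) s475) s476) s477) s478) s479) s480)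

def n74 : Cl (O (nat_lit 1)) (R (nat_lit 14353))
    (p (nat_lit 0xc9) (nat_lit 0) (p (nat_lit 0x80004) (nat_lit 0) (p (nat_lit 0xc1) (nat_lit 0) (p (nat_lit 0x100004) (nat_lit 0) (p (nat_lit 0x200004) (nat_lit 0) (p (nat_lit 0x380c2) (nat_lit 1) (p (nat_lit 0x444aa) (nat_lit 7) (p (nat_lit 0xd1) (nat_lit 1) (p (nat_lit 0x109) (nat_lit 1) (p (nat_lit 0x101) (nat_lit 0) (p (nat_lit 0x119) (nat_lit 0) (p (nat_lit 0xc9) (nat_lit 0) (p (nat_lit 0x89) (nat_lit 1) (p (nat_lit 0x41) (nat_lit 0) (p (nat_lit 0x8090887069a) (nat_lit 0) (p (nat_lit 0x7870806861a) (nat_lit 0) (p (nat_lit 0x800070786058a) (nat_lit 0) (p (nat_lit 0x787058502) (nat_lit 0) (p (nat_lit 0x586850482) (nat_lit 0) (p (nat_lit 0x160014) (nat_lit 0) (p (nat_lit 0x16000c) (nat_lit 0) (p (nat_lit 0x68612) (nat_lit 0) (p (nat_lit 0x50592) (nat_lit 0) (p (nat_lit 0x40512) (nat_lit 0) (p (nat_lit 0x50312) (nat_lit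 0) (p (nat_lit 0x38292) (nat_lit 0) (p (nat_lit 0x28212) (nat_lit 0) (p (nat_lit 0x38112) (nat_lit 0) (p (nat_lit 0x20092) (nat_lit 0) (p (nat_lit 0x10012) (nat_lit 0) pn)))))))))))))))))))))))))))))) :=
  Cl.node (nat_lit 0x3cc2a) (nat_lit 12) (by decide +kernel) (ClAll.succ (ClAll.succ (ClAll.succ (ClAll.succ (ClAll.succ (ClAll.succ (ClAll.succ (ClAll.succ (ClAll.succ (ClAll.succ (ClAll.succ (ClAll.succ ClAll.zero s486) s487) s488) s489) s490) s491) s492) s493) s494) s495) s496) s497)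

def n75 : Cl (O (nat_lit 1)) (R (nat_lit 14353))
    (p (nat_lit 0x13400c) (nat_lit 0) (p (nat_lit 0x80004) (nat_lit 1) (p (nat_lit 0xc1) (nat_lit 0) (p (nat_lit 0x100004) (nat_lit 0) (p (nat_lit 0x200004) (nat_lit 0) (p (nat_lit 0x380c2) (nat_lit 1) (p (nat_lit 0x444aa) (nat_lit 7) (p (nat_lit 0xd1) (nat_lit 1) (p (nat_lit 0x109) (nat_lit 1) (p (nat_lit 0x101) (nat_lit 0) (p (nat_lit 0x119) (nat_lit 0) (p (nat_lit 0xc9) (nat_lit 0) (p (nat_lit 0x89) (nat_lit 1) (p (nat_lit 0x41) (nat_lit 0) (p (nat_lit 0x8090887069a) (nat_lit 0) (p (nat_lit 0x7870806861a) (nat_lit 0) (p (nat_lit 0x800070786058a) (nat_lit 0) (p (nat_lit 0x787058502) (nat_lit 0) (p (nat_lit 0x586850482) (nat_lit 0) (p (nat_lit 0x160014) (nat_lit 0) (p (nat_lit 0x16000c) (nat_lit 0) (p (nat_lit 0x68612) (nat_lit 0) (p (nat_lit 0x50592) (nat_lit 0) (p (nat_lit 0x40512) (nat_lit 0) (p (nat_lit 0x50312)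 (nat_lit 0) (p (nat_lit 0x38292) (nat_lit 0) (p (nat_lit 0x28212) (nat_lit 0) (p (nat_lit 0x38112) (nat_lit 0) (p (nat_lit 0x20092) (nat_lit 0) (p (nat_lit 0x10012) (nat_lit 0) pn)))))))))))))))))))))))))))))) :=
  Cl.node (nat_lit 0x134014) (nat_lit 2) (by decide +kernel) (ClAll.succ (ClAll.succ ClAll.zero n52) s529)

def n76 : Cl (O (nat_lit 1)) (R (nat_lit 14353))
    (p (nat_lit 0x100004) (nat_lit 0) (p (nat_lit 0x81) (nat_lit 1) (p (nat_lit 0x41) (nat_lit 1) (p (nat_lit 0xb0014) (nat_lit 0) (p (nat_lit 0x200004) (nat_lit 0) (p (nat_lit 0x380c2) (nat_lit 0) (p (nat_lit 0x44c2a) (nat_lit 0) (p (nat_lit 0x111) (nat_lit 0) (p (nat_lit 0x101) (nat_lit 0) (p (nat_lit 0xc1) (nat_lit 1) (p (nat_lit 0x119) (nat_lit 1) (p (nat_lit 0xc9) (nat_lit 0) (p (nat_lit 0x89) (nat_lit 1) (p (nat_lit 0x41) (nat_lit 0) (p (nat_lit 0x8090887069a) (nat_lit 0) (p (nat_lit 0x7870806861a)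 (nat_lit 0) (p (nat_lit 0x800070786058a) (nat_lit 0) (p (nat_lit 0x787058502) (nat_lit 0) (p (nat_lit 0x586850482) (nat_lit 0) (p (nat_lit 0x160014) (nat_lit 0) (p (nat_lit 0x16000c) (nat_lit 0) (p (nat_lit 0x68612) (nat_lit 0) (p (nat_lit 0x50592) (nat_lit 0) (p (nat_lit 0x40512) (nat_lit 0) (p (nat_lit 0x50312) (nat_lit 0) (p (nat_lit 0x38292) (nat_lit 0) (p (nat_lit 0x28212) (nat_lit 0) (p (nat_lit 0x38112) (nat_lit 0) (p (nat_lit 0x20092) (nat_lit 0) (p (nat_lit 0x10012) (nat_lit 0) pn)))))))))))))))))))))))))))))) :=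
  Cl.node (nat_lit 0x4c42a) (nat_lit 12) (by decide +kernel) (ClAll.succ (ClAll.succ (ClAll.succ (ClAll.succ (ClAll.succ (ClAll.succ (ClAll.succ (ClAll.succ (ClAll.succ (ClAll.succ (ClAll.succ (ClAll.succ ClAll.zero s609) s610) s611) s612) s613) s614) s615) s616) s617) s618) s619) s620)

def n77 : Cl (O (nat_lit 1)) (R (nat_lit 14353))
    (p (nat_lit 0x41) (nat_lit 0) (p (nat_lit 0x109) (nat_lit 1) (p (nat_lit 0xb000c) (nat_lit 0) (p (nat_lit 0xc9) (nat_lit 1) (p (nat_lit 0x380c2) (nat_lit 0) (p (nat_lit 0x4c42a) (nat_lit 8) (p (nat_lit 0x111) (nat_lit 0) (p (nat_lit 0x89) (nat_lit 0) (p (nat_lit 0x109) (nat_lit 1) (p (nat_lit 0x101) (nat_lit 0) (p (nat_lit 0x119) (nat_lit 0) (p (nat_lit 0xd1) (nat_lit 0) (p (nat_lit 0x81) (nat_lit 0) (p (nat_lit 0x41) (nat_lit 1) (p (nat_lit 0x8090887069a) (nat_lit 0) (p (nat_lit 0x7870806861a) (nat_lit 0) (p (nat_lit 0x800070786058a)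 (nat_lit 0) (p (nat_lit 0x787058502) (nat_lit 0) (p (nat_lit 0x586850482) (nat_lit 0) (p (nat_lit 0x160014) (nat_lit 0) (p (nat_lit 0x16000c) (nat_lit 0) (p (nat_lit 0x68612) (nat_lit 0) (p (nat_lit 0x50592) (nat_lit 0) (p (nat_lit 0x40512) (nat_lit 0) (p (nat_lit 0x50312) (nat_lit 0) (p (nat_lit 0x38292) (nat_lit 0) (p (nat_lit 0x28212) (nat_lit 0) (p (nat_lit 0x38112) (nat_lit 0) (p (nat_lit 0x20092) (nat_lit 0) (p (nat_lit 0x10012) (nat_lit 0) pn)))))))))))))))))))))))))))))) :=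
  Cl.node (nat_lit 0x89) (nat_lit 2) (by decide +kernel) (ClAll.succ (ClAll.succ ClAll.zero s708) n53)

def n78 : Cl (O (nat_lit 1)) (R (nat_lit 14353))
    (p (nat_lit 0xc9) (nat_lit 1) (p (nat_lit 0x81) (nat_lit 0) (p (nat_lit 0xb000c) (nat_lit 0) (p (nat_lit 0xb0014) (nat_lit 0) (p (nat_lit 0x380c2) (nat_lit 0) (p (nat_lit 0x3cc2a) (nat_lit 11) (p (nat_lit 0x111) (nat_lit 1) (p (nat_lit 0x89) (nat_lit 0) (p (nat_lit 0x109) (nat_lit 1) (p (nat_lit 0x101) (nat_lit 0) (p (nat_lit 0x119) (nat_lit 0) (p (nat_lit 0xd1) (nat_lit 0) (p (nat_lit 0x81) (nat_lit 0) (p (nat_lit 0x41) (nat_lit 1) (p (nat_lit 0x8090887069a) (nat_lit 0) (p (nat_lit 0x7870806861a) (nat_lit 0) (p (nat_lit 0x800070786058a) (nat_lit 0) (p (nat_lit 0x787058502) (nat_lit 0) (p (nat_lit 0x586850482) (nat_lit 0) (p (nat_lit 0x160014) (nat_lit 0) (p (nat_lit 0x16000c) (nat_lit 0) (p (nat_lit 0x68612) (nat_lit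 0) (p (nat_lit 0x50592) (nat_lit 0) (p (nat_lit 0x40512) (nat_lit 0) (p (nat_lit 0x50312) (nat_lit 0) (p (nat_lit 0x38292) (nat_lit 0) (p (nat_lit 0x28212) (nat_lit 0) (p (nat_lit 0x38112) (nat_lit 0) (p (nat_lit 0x20092) (nat_lit 0) (p (nat_lit 0x10012) (nat_lit 0) pn)))))))))))))))))))))))))))))) :=
  Cl.node (nat_lit 0xc9) (nat_lit 2) (by decide +kernel) (ClAll.succ (ClAll.succ ClAll.zero s731) n54)

def n79 : Cl (O (nat_lit 1)) (R (nat_lit 14353))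
    (p (nat_lit 0xc1) (nat_lit 0) (p (nat_lit 0x81) (nat_lit 1) (p (nat_lit 0xb000c) (nat_lit 0) (p (nat_lit 0xb0014) (nat_lit 0) (p (nat_lit 0x380c2) (nat_lit 0) (p (nat_lit 0x3cc2a) (nat_lit 11) (p (nat_lit 0x111) (nat_lit 1) (p (nat_lit 0x89) (nat_lit 0) (p (nat_lit 0x109) (nat_lit 1) (p (nat_lit 0x101) (nat_lit 0) (p (nat_lit 0x119) (nat_lit 0) (p (nat_lit 0xd1) (nat_lit 0) (p (nat_lit 0x81) (nat_lit 0) (p (nat_lit 0x41) (nat_lit 1) (p (nat_lit 0x8090887069a) (nat_lit 0) (p (nat_lit 0x7870806861a) (nat_lit 0) (p (nat_lit 0x800070786058a) (nat_lit 0) (p (nat_lit 0x787058502) (nat_lit 0) (p (nat_lit 0x586850482) (nat_lit 0) (p (nat_lit 0x160014) (nat_lit 0) (p (nat_lit 0x16000c) (nat_lit 0) (p (nat_lit 0x68612) (nat_lit 0) (p (nat_lit 0x50592) (nat_lit 0) (p (nat_lit 0x40512) (nat_lit 0) (p (nat_lit 0x50312) (nat_lit 0) (p (nat_lit 0x38292) (nat_lit 0) (p (nat_lit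 0x28212) (nat_lit 0) (p (nat_lit 0x38112) (nat_lit 0) (p (nat_lit 0x20092) (nat_lit 0) (p (nat_lit 0x10012) (nat_lit 0) pn)))))))))))))))))))))))))))))) :=
  Cl.node (nat_lit 0xc9) (nat_lit 2) (by decide +kernel) (ClAll.succ (ClAll.succ ClAll.zero s734) n55)

def n80 : Cl (O (nat_lit 1)) (R (nat_lit 14353))
    (p (nat_lit 0x81) (nat_lit 0) (p (nat_lit 0xb000c) (nat_lit 0) (p (nat_lit 0xd1) (nat_lit 1) (p (nat_lit 0x111) (nat_lit 1) (p (nat_lit 0x380c2) (nat_lit 0) (p (nat_lit 0x4c42a) (nat_lit 8) (p (nat_lit 0xc9) (nat_lit 0) (p (nat_lit 0x89) (nat_lit 1) (p (nat_lit 0x109) (nat_lit 1) (p (nat_lit 0x101) (nat_lit 0) (p (nat_lit 0x119) (nat_lit 0) (p (nat_lit 0xd1) (nat_lit 0) (p (nat_lit 0x81) (nat_lit 0) (p (nat_lit 0x41) (nat_lit 1) (p (nat_lit 0x8090887069a) (nat_lit 0) (p (nat_lit 0x7870806861a) (nat_lit 0) (p (nat_lit 0x800070786058a) (nat_lit 0) (p (nat_lit 0x787058502)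 (nat_lit 0) (p (nat_lit 0x586850482) (nat_lit 0) (p (nat_lit 0x160014) (nat_lit 0) (p (nat_lit 0x16000c) (nat_lit 0) (p (nat_lit 0x68612) (nat_lit 0) (p (nat_lit 0x50592) (nat_lit 0) (p (nat_lit 0x40512) (nat_lit 0) (p (nat_lit 0x50312) (nat_lit 0) (p (nat_lit 0x38292) (nat_lit 0) (p (nat_lit 0x28212) (nat_lit 0) (p (nat_lit 0x38112) (nat_lit 0) (p (nat_lit 0x20092) (nat_lit 0) (p (nat_lit 0x10012) (nat_lit 0) pn)))))))))))))))))))))))))))))) :=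
  Cl.node (nat_lit 0x111) (nat_lit 2) (by decide +kernel) (ClAll.succ (ClAll.succ ClAll.zero s759) n56)

def n81 : Cl (O (nat_lit 1)) (R (nat_lit 14353))
    (p (nat_lit 0x81) (nat_lit 0) (p (nat_lit 0xd1) (nat_lit 1) (p (nat_lit 0x111) (nat_lit 1) (p (nat_lit 0xb000c) (nat_lit 0) (p (nat_lit 0x380c2) (nat_lit 1) (p (nat_lit 0x4c42a) (nat_lit 8) (p (nat_lit 0xc9) (nat_lit 0) (p (nat_lit 0x89) (nat_lit 1) (p (nat_lit 0x109) (nat_lit 1) (p (nat_lit 0x101) (nat_lit 0) (p (nat_lit 0x119) (nat_lit 0) (p (nat_lit 0xd1) (nat_lit 0) (p (nat_lit 0x81) (nat_lit 0) (p (nat_lit 0x41) (nat_lit 1) (p (nat_lit 0x8090887069a) (nat_lit 0) (p (nat_lit 0x7870806861a) (nat_lit 0) (p (nat_lit 0x800070786058a) (nat_lit 0) (p (nat_lit 0x787058502) (nat_lit 0) (p (nat_lit 0x586850482) (nat_lit 0) (p (nat_lit 0x160014) (nat_lit 0) (p (nat_lit 0x16000c) (nat_lit 0) (p (nat_lit 0x68612) (nat_lit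 0) (p (nat_lit 0x50592) (nat_lit 0) (p (nat_lit 0x40512) (nat_lit 0) (p (nat_lit 0x50312) (nat_lit 0) (p (nat_lit 0x38292) (nat_lit 0) (p (nat_lit 0x28212) (nat_lit 0) (p (nat_lit 0x38112) (nat_lit 0) (p (nat_lit 0x20092) (nat_lit 0) (p (nat_lit 0x10012) (nat_lit 0) pn)))))))))))))))))))))))))))))) :=
  Cl.node (nat_lit 0xb0014) (nat_lit 2) (by decide +kernel) (ClAll.succ (ClAll.succ ClAll.zero s768) s769)

def n82 : Cl (O (nat_lit 1)) (R (nat_lit 14353))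
    (p (nat_lit 0xc9) (nat_lit 1) (p (nat_lit 0x119) (nat_lit 1) (p (nat_lit 0x111) (nat_lit 0) (p (nat_lit 0xb000c) (nat_lit 0) (p (nat_lit 0xb0014) (nat_lit 0) (p (nat_lit 0x380c2) (nat_lit 0) (p (nat_lit 0x3cc2a) (nat_lit 11) (p (nat_lit 0x89) (nat_lit 0) (p (nat_lit 0xc1) (nat_lit 0) (p (nat_lit 0x101) (nat_lit 1) (p (nat_lit 0x119) (nat_lit 0) (p (nat_lit 0xd1) (nat_lit 0) (p (nat_lit 0x81) (nat_lit 0) (p (nat_lit 0x41) (nat_lit 1) (p (nat_lit 0x8090887069a) (nat_lit 0) (p (nat_lit 0x7870806861a) (nat_lit 0) (p (nat_lit 0x800070786058a) (nat_lit 0) (p (nat_lit 0x787058502) (nat_lit 0) (p (nat_lit 0x586850482) (nat_lit 0) (p (nat_lit 0x160014) (nat_lit 0) (p (nat_lit 0x16000c) (nat_lit 0) (p (nat_lit 0x68612) (nat_lit 0) (p (nat_lit 0x50592) (nat_lit 0) (p (nat_lit 0x40512) (nat_lit 0) (p (nat_lit 0x50312) (nat_lit 0) (p (nat_lit 0x38292) (nat_lit 0) (p (nat_lit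 0x28212) (nat_lit 0) (p (nat_lit 0x38112) (nat_lit 0) (p (nat_lit 0x20092) (nat_lit 0) (p (nat_lit 0x10012) (nat_lit 0) pn)))))))))))))))))))))))))))))) :=
  Cl.node (nat_lit 0x89) (nat_lit 2) (by decide +kernel) (ClAll.succ (ClAll.succ ClAll.zero s789) n57)

def n83 : Cl (O (nat_lit 1)) (R (nat_lit 14353))
    (p (nat_lit 0xd1) (nat_lit 1) (p (nat_lit 0x111) (nat_lit 1) (p (nat_lit 0xb000c) (nat_lit 0) (p (nat_lit 0xd1) (nat_lit 1) (p (nat_lit 0x380c2) (nat_lit 0) (p (nat_lit 0x4c42a) (nat_lit 8) (p (nat_lit 0xc9) (nat_lit 0) (p (nat_lit 0x89) (nat_lit 1) (p (nat_lit 0xc1) (nat_lit 0) (p (nat_lit 0x101) (nat_lit 1) (p (nat_lit 0x119) (nat_lit 0) (p (nat_lit 0xd1) (nat_lit 0) (p (nat_lit 0x81) (nat_lit 0) (p (nat_lit 0x41) (nat_lit 1) (p (nat_lit 0x8090887069a) (nat_lit 0) (p (nat_lit 0x7870806861a) (nat_lit 0) (p (nat_lit 0x800070786058a) (nat_lit 0) (p (nat_lit 0x787058502)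 (nat_lit 0) (p (nat_lit 0x586850482) (nat_lit 0) (p (nat_lit 0x160014) (nat_lit 0) (p (nat_lit 0x16000c) (nat_lit 0) (p (nat_lit 0x68612) (nat_lit 0) (p (nat_lit 0x50592) (nat_lit 0) (p (nat_lit 0x40512) (nat_lit 0) (p (nat_lit 0x50312) (nat_lit 0) (p (nat_lit 0x38292) (nat_lit 0) (p (nat_lit 0x28212) (nat_lit 0) (p (nat_lit 0x38112) (nat_lit 0) (p (nat_lit 0x20092) (nat_lit 0) (p (nat_lit 0x10012) (nat_lit 0) pn)))))))))))))))))))))))))))))) :=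
  Cl.node (nat_lit 0x111) (nat_lit 2) (by decide +kernel) (ClAll.succ (ClAll.succ ClAll.zero s815) n58)

def n84 : Cl (O (nat_lit 1)) (R (nat_lit 14353))
    (p (nat_lit 0xc9) (nat_lit 1) (p (nat_lit 0x41) (nat_lit 0) (p (nat_lit 0xb0014) (nat_lit 0) (p (nat_lit 0x200004) (nat_lit 0) (p (nat_lit 0x380c2) (nat_lit 0) (p (nat_lit 0x44c2a) (nat_lit 0) (p (nat_lit 0x109) (nat_lit 0) (p (nat_lit 0x89) (nat_lit 1) (p (nat_lit 0xc9) (nat_lit 1) (p (nat_lit 0xc1) (nat_lit 0) (p (nat_lit 0x119) (nat_lit 1) (p (nat_lit 0xd1) (nat_lit 0) (p (nat_lit 0x81) (nat_lit 0) (p (nat_lit 0x41) (nat_lit 1) (p (nat_lit 0x8090887069a) (nat_lit 0) (p (nat_lit 0x7870806861a) (nat_lit 0) (p (nat_lit 0x800070786058a) (nat_lit 0) (p (nat_lit 0x787058502) (nat_lit 0) (p (nat_lit 0x586850482) (nat_lit 0) (p (nat_lit 0x160014) (nat_lit 0) (p (nat_lit 0x16000c) (nat_lit 0) (p (nat_lit 0x68612) (nat_lit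 0) (p (nat_lit 0x50592) (nat_lit 0) (p (nat_lit 0x40512) (nat_lit 0) (p (nat_lit 0x50312) (nat_lit 0) (p (nat_lit 0x38292) (nat_lit 0) (p (nat_lit 0x28212) (nat_lit 0) (p (nat_lit 0x38112) (nat_lit 0) (p (nat_lit 0x20092) (nat_lit 0) (p (nat_lit 0x10012) (nat_lit 0) pn)))))))))))))))))))))))))))))) :=
  Cl.node (nat_lit 0x89) (nat_lit 2) (by decide +kernel) (ClAll.succ (ClAll.succ ClAll.zero s865) s866)

def n85 : Cl (O (nat_lit 1)) (R (nat_lit 14353))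
    (p (nat_lit 0xc9) (nat_lit 0) (p (nat_lit 0xb000c) (nat_lit 0) (p (nat_lit 0x100004) (nat_lit 0) (p (nat_lit 0x200004) (nat_lit 0) (p (nat_lit 0x380c2) (nat_lit 0) (p (nat_lit 0x3c4aa) (nat_lit 7) (p (nat_lit 0xd1) (nat_lit 1) (p (nat_lit 0x111) (nat_lit 1) (p (nat_lit 0x109) (nat_lit 0) (p (nat_lit 0x101) (nat_lit 0) (p (nat_lit 0x119) (nat_lit 0) (p (nat_lit 0xc1) (nat_lit 0) (p (nat_lit 0x81) (nat_lit 1) (p (nat_lit 0x41) (nat_lit 1) (p (nat_lit 0x8090887069a) (nat_lit 0) (p (nat_lit 0x7870806861a) (nat_lit 0) (p (nat_lit 0x800070786058a) (nat_lit 0) (p (nat_lit 0x787058502) (nat_lit 0) (p (nat_lit 0x586850482) (nat_lit 0) (p (nat_lit 0x160014) (nat_lit 0) (p (nat_lit 0x16000c) (nat_lit 0) (p (nat_lit 0x68612) (nat_lit 0) (p (nat_lit 0x50592) (nat_lit 0) (p (nat_lit 0x40512) (nat_lit 0) (p (nat_lit 0x50312) (nat_lit 0) (p (nat_lit 0x38292) (nat_lit 0) (p (nat_lit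 0x28212) (nat_lit 0) (p (nat_lit 0x38112) (nat_lit 0) (p (nat_lit 0x20092) (nat_lit 0) (p (nat_lit 0x10012) (nat_lit 0) pn)))))))))))))))))))))))))))))) :=
  Cl.node (nat_lit 0xb0014) (nat_lit 2) (by decide +kernel) (ClAll.succ (ClAll.succ ClAll.zero n59) s1089)

def n86 : Cl (O (nat_lit 1)) (R (nat_lit 14353))
    (p (nat_lit 0xc9) (nat_lit 1) (p (nat_lit 0xb000c) (nat_lit 0) (p (nat_lit 0x100004) (nat_lit 0) (p (nat_lit 0x200004) (nat_lit 0) (p (nat_lit 0x380c2) (nat_lit 0) (p (nat_lit 0x3c4aa) (nat_lit 7) (p (nat_lit 0xd1) (nat_lit 1) (p (nat_lit 0x111) (nat_lit 1) (p (nat_lit 0x109) (nat_lit 0) (p (nat_lit 0x101) (nat_lit 0) (p (nat_lit 0x119) (nat_lit 0) (p (nat_lit 0xc1) (nat_lit 0) (p (nat_lit 0x81) (nat_lit 1) (p (nat_lit 0x41) (nat_lit 1) (p (nat_lit 0x8090887069a) (nat_lit 0) (p (nat_lit 0x7870806861a) (nat_lit 0) (p (nat_lit 0x800070786058a) (nat_lit 0) (p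 (nat_lit 0x787058502) (nat_lit 0) (p (nat_lit 0x586850482) (nat_lit 0) (p (nat_lit 0x160014) (nat_lit 0) (p (nat_lit 0x16000c) (nat_lit 0) (p (nat_lit 0x68612) (nat_lit 0) (p (nat_lit 0x50592) (nat_lit 0) (p (nat_lit 0x40512) (nat_lit 0) (p (nat_lit 0x50312) (nat_lit 0) (p (nat_lit 0x38292) (nat_lit 0) (p (nat_lit 0x28212) (nat_lit 0) (p (nat_lit 0x38112) (nat_lit 0) (p (nat_lit 0x20092) (nat_lit 0) (p (nat_lit 0x10012) (nat_lit 0) pn)))))))))))))))))))))))))))))) :=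
  Cl.node (nat_lit 0xb0014) (nat_lit 2) (by decide +kernel) (ClAll.succ (ClAll.succ ClAll.zero s1090) s1091)

def n87 : Cl (O (nat_lit 1)) (R (nat_lit 14353))
    (p (nat_lit 0xc9) (nat_lit 0) (p (nat_lit 0xb000c) (nat_lit 0) (p (nat_lit 0x100004) (nat_lit 0) (p (nat_lit 0x200004) (nat_lit 0) (p (nat_lit 0x380c2) (nat_lit 1) (p (nat_lit 0x3c4aa) (nat_lit 7) (p (nat_lit 0xd1) (nat_lit 1) (p (nat_lit 0x111) (nat_lit 1) (p (nat_lit 0x109) (nat_lit 0) (p (nat_lit 0x101) (nat_lit 0) (p (nat_lit 0x119) (nat_lit 0) (p (nat_lit 0xc1) (nat_lit 0) (p (nat_lit 0x81) (nat_lit 1) (p (nat_lit 0x41) (nat_lit 1) (p (nat_lit 0x8090887069a) (nat_lit 0) (p (nat_lit 0x7870806861a) (nat_lit 0) (p (nat_lit 0x800070786058a) (nat_lit 0) (p (nat_lit 0x787058502) (nat_lit 0) (p (nat_lit 0x586850482) (nat_lit 0) (p (nat_lit 0x160014) (nat_lit 0) (p (nat_lit 0x16000c) (nat_lit 0) (p (nat_lit 0x68612)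 (nat_lit 0) (p (nat_lit 0x50592) (nat_lit 0) (p (nat_lit 0x40512) (nat_lit 0) (p (nat_lit 0x50312) (nat_lit 0) (p (nat_lit 0x38292) (nat_lit 0) (p (nat_lit 0x28212) (nat_lit 0) (p (nat_lit 0x38112) (nat_lit 0) (p (nat_lit 0x20092) (nat_lit 0) (p (nat_lit 0x10012) (nat_lit 0) pn)))))))))))))))))))))))))))))) :=
  Cl.node (nat_lit 0xc1) (nat_lit 2) (by decide +kernel) (ClAll.succ (ClAll.succ ClAll.zero s1095) s1096)

def n88 : Cl (O (nat_lit 1)) (R (nat_lit 14353))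
    (p (nat_lit 0xc9) (nat_lit 1) (p (nat_lit 0xb000c) (nat_lit 0) (p (nat_lit 0x100004) (nat_lit 0) (p (nat_lit 0x200004) (nat_lit 0) (p (nat_lit 0x380c2) (nat_lit 1) (p (nat_lit 0x3c4aa) (nat_lit 7) (p (nat_lit 0xd1) (nat_lit 1) (p (nat_lit 0x111) (nat_lit 1) (p (nat_lit 0x109) (nat_lit 0) (p (nat_lit 0x101) (nat_lit 0) (p (nat_lit 0x119) (nat_lit 0) (p (nat_lit 0xc1) (nat_lit 0) (p (nat_lit 0x81) (nat_lit 1) (p (nat_lit 0x41) (nat_lit 1) (p (nat_lit 0x8090887069a) (nat_lit 0) (p (nat_lit 0x7870806861a) (nat_lit 0) (p (nat_lit 0x800070786058a) (nat_lit 0) (p (nat_lit 0x787058502) (nat_lit 0) (p (nat_lit 0x586850482) (nat_lit 0) (p (nat_lit 0x160014) (nat_lit 0) (p (nat_lit 0x16000c) (nat_lit 0) (p (nat_lit 0x68612) (nat_lit 0) (p (nat_lit 0x50592) (nat_lit 0) (p (nat_lit 0x40512) (nat_lit 0) (p (nat_lit 0x50312) (nat_lit 0) (p (nat_lit 0x38292) (nat_lit 0) (p (nat_lit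 0x28212) (nat_lit 0) (p (nat_lit 0x38112) (nat_lit 0) (p (nat_lit 0x20092) (nat_lit 0) (p (nat_lit 0x10012) (nat_lit 0) pn)))))))))))))))))))))))))))))) :=
  Cl.node (nat_lit 0x101) (nat_lit 2) (by decide +kernel) (ClAll.succ (ClAll.succ ClAll.zero s1097) n60)

def n89 : Cl (O (nat_lit 1)) (R (nat_lit 14353))
    (p (nat_lit 0xc1) (nat_lit 1) (p (nat_lit 0x119) (nat_lit 1) (p (nat_lit 0x100004) (nat_lit 0) (p (nat_lit 0x200004) (nat_lit 0) (p (nat_lit 0x380c2) (nat_lit 1) (p (nat_lit 0x3c4aa) (nat_lit 7) (p (nat_lit 0xd1) (nat_lit 1) (p (nat_lit 0xc9) (nat_lit 0) (p (nat_lit 0x109) (nat_lit 1) (p (nat_lit 0x101) (nat_lit 0) (p (nat_lit 0x119) (nat_lit 0) (p (nat_lit 0xc1) (nat_lit 0) (p (nat_lit 0x81) (nat_lit 1) (p (nat_lit 0x41) (nat_lit 1) (p (nat_lit 0x8090887069a) (nat_lit 0) (p (nat_lit 0x7870806861a) (nat_lit 0) (p (nat_lit 0x800070786058a) (nat_lit 0) (p (nat_lit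 0x787058502) (nat_lit 0) (p (nat_lit 0x586850482) (nat_lit 0) (p (nat_lit 0x160014) (nat_lit 0) (p (nat_lit 0x16000c) (nat_lit 0) (p (nat_lit 0x68612) (nat_lit 0) (p (nat_lit 0x50592) (nat_lit 0) (p (nat_lit 0x40512) (nat_lit 0) (p (nat_lit 0x50312) (nat_lit 0) (p (nat_lit 0x38292) (nat_lit 0) (p (nat_lit 0x28212) (nat_lit 0) (p (nat_lit 0x38112) (nat_lit 0) (p (nat_lit 0x20092) (nat_lit 0) (p (nat_lit 0x10012) (nat_lit 0) pn)))))))))))))))))))))))))))))) :=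
  Cl.node (nat_lit 0xb000c) (nat_lit 2) (by decide +kernel) (ClAll.succ (ClAll.succ ClAll.zero n61) s1122)

def n90 : Cl (O (nat_lit 1)) (R (nat_lit 14353))
    (p (nat_lit 0xc1) (nat_lit 0) (p (nat_lit 0xb000c) (nat_lit 0) (p (nat_lit 0x100004) (nat_lit 0) (p (nat_lit 0xb0014) (nat_lit 0) (p (nat_lit 0x200004) (nat_lit 0) (p (nat_lit 0x380c2) (nat_lit 0) (p (nat_lit 0x3c4aa) (nat_lit 7) (p (nat_lit 0xd1) (nat_lit 1) (p (nat_lit 0xc9) (nat_lit 0) (p (nat_lit 0x101) (nat_lit 1) (p (nat_lit 0x119) (nat_lit 0) (p (nat_lit 0xc1) (nat_lit 0) (p (nat_lit 0x81) (nat_lit 1) (p (nat_lit 0x41) (nat_lit 1) (p (nat_lit 0x8090887069a) (nat_lit 0) (p (nat_lit 0x7870806861a) (nat_lit 0) (p (nat_lit 0x800070786058a) (nat_lit 0) (p (nat_lit 0x787058502) (nat_lit 0) (p (nat_lit 0x586850482) (nat_lit 0) (p (nat_lit 0x160014) (nat_lit 0) (p (nat_lit 0x16000c) (nat_lit 0) (p (nat_lit 0x68612)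 (nat_lit 0) (p (nat_lit 0x50592) (nat_lit 0) (p (nat_lit 0x40512) (nat_lit 0) (p (nat_lit 0x50312) (nat_lit 0) (p (nat_lit 0x38292) (nat_lit 0) (p (nat_lit 0x28212) (nat_lit 0) (p (nat_lit 0x38112) (nat_lit 0) (p (nat_lit 0x20092) (nat_lit 0) (p (nat_lit 0x10012) (nat_lit 0) pn)))))))))))))))))))))))))))))) :=
  Cl.node (nat_lit 0x3cc2a) (nat_lit 12) (by decide +kernel) (ClAll.succ (ClAll.succ (ClAll.succ (ClAll.succ (ClAll.succ (ClAll.succ (ClAll.succ (ClAll.succ (ClAll.succ (ClAll.succ (ClAll.succ (ClAll.succ ClAll.zero s1154) s1155) s1156) s1157) s1158) s1159) s1160) s1161) s1162) s1163) s1164) n62)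

def n91 : Cl (O (nat_lit 1)) (R (nat_lit 14353))
    (p (nat_lit 0xb000c) (nat_lit 0) (p (nat_lit 0x100004) (nat_lit 0) (p (nat_lit 0x200004) (nat_lit 0) (p (nat_lit 0x380c2) (nat_lit 1) (p (nat_lit 0x444aa) (nat_lit 7) (p (nat_lit 0x81) (nat_lit 1) (p (nat_lit 0xc9) (nat_lit 1) (p (nat_lit 0x109) (nat_lit 1) (p (nat_lit 0x101) (nat_lit 0) (p (nat_lit 0x119) (nat_lit 0) (p (nat_lit 0xd1) (nat_lit 0) (p (nat_lit 0x89) (nat_lit 0) (p (nat_lit 0x41) (nat_lit 0) (p (nat_lit 0x8090887069a) (nat_lit 0) (p (nat_lit 0x7870806861a) (nat_lit 0) (p (nat_lit 0x800070786058a) (nat_lit 0) (p (nat_lit 0x787058502) (nat_lit 0) (p (nat_lit 0x586850482) (nat_lit 0) (p (nat_lit 0x160014) (nat_lit 0) (p (nat_lit 0x16000c) (nat_lit 0) (p (nat_lit 0x68612) (nat_lit 0) (p (nat_lit 0x50592) (nat_lit 0) (p (nat_lit 0x40512) (nat_lit 0) (p (nat_lit 0x50312) (nat_lit 0) (p (nat_lit 0x38292) (nat_lit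 0) (p (nat_lit 0x28212) (nat_lit 0) (p (nat_lit 0x38112) (nat_lit 0) (p (nat_lit 0x20092) (nat_lit 0) (p (nat_lit 0x10012) (nat_lit 0) pn))))))))))))))))))))))))))))) :=
  Cl.node (nat_lit 0x81) (nat_lit 2) (by decide +kernel) (ClAll.succ (ClAll.succ ClAll.zero s13) s14)

def n92 : Cl (O (nat_lit 1)) (R (nat_lit 14353))
    (p (nat_lit 0x444aa) (nat_lit 7) (p (nat_lit 0x200004) (nat_lit 0) (p (nat_lit 0xc1) (nat_lit 1) (p (nat_lit 0x380c2) (nat_lit 0) (p (nat_lit 0x4c42a) (nat_lit 2) (p (nat_lit 0x111) (nat_lit 0) (p (nat_lit 0xc9) (nat_lit 0) (p (nat_lit 0x81) (nat_lit 0) (p (nat_lit 0x101) (nat_lit 1) (p (nat_lit 0x119) (nat_lit 0) (p (nat_lit 0xd1) (nat_lit 0) (p (nat_lit 0x89) (nat_lit 0) (p (nat_lit 0x41) (nat_lit 0) (p (nat_lit 0x8090887069a) (nat_lit 0) (p (nat_lit 0x7870806861a) (nat_lit 0) (p (nat_lit 0x800070786058a) (nat_lit 0) (p (nat_lit 0x787058502) (nat_lit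 0) (p (nat_lit 0x586850482) (nat_lit 0) (p (nat_lit 0x160014) (nat_lit 0) (p (nat_lit 0x16000c) (nat_lit 0) (p (nat_lit 0x68612) (nat_lit 0) (p (nat_lit 0x50592) (nat_lit 0) (p (nat_lit 0x40512) (nat_lit 0) (p (nat_lit 0x50312) (nat_lit 0) (p (nat_lit 0x38292) (nat_lit 0) (p (nat_lit 0x28212) (nat_lit 0) (p (nat_lit 0x38112) (nat_lit 0) (p (nat_lit 0x20092) (nat_lit 0) (p (nat_lit 0x10012) (nat_lit 0) pn))))))))))))))))))))))))))))) :=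
  Cl.node (nat_lit 0x380c2) (nat_lit 2) (by decide +kernel) (ClAll.succ (ClAll.succ ClAll.zero s32) n63)

def n93 : Cl (O (nat_lit 1)) (R (nat_lit 14353))
    (p (nat_lit 0x89) (nat_lit 1) (p (nat_lit 0x100004) (nat_lit 0) (p (nat_lit 0x200004) (nat_lit 0) (p (nat_lit 0x380c2) (nat_lit 0) (p (nat_lit 0x444aa) (nat_lit 7) (p (nat_lit 0x111) (nat_lit 0) (p (nat_lit 0xc9) (nat_lit 1) (p (nat_lit 0x81) (nat_lit 0) (p (nat_lit 0x101) (nat_lit 1) (p (nat_lit 0x119) (nat_lit 0) (p (nat_lit 0xd1) (nat_lit 0) (p (nat_lit 0x89) (nat_lit 0) (p (nat_lit 0x41) (nat_lit 0) (p (nat_lit 0x8090887069a) (nat_lit 0) (p (nat_lit 0x7870806861a) (nat_lit 0) (p (nat_lit 0x800070786058a) (nat_lit 0) (p (nat_lit 0x787058502) (nat_lit 0) (p (nat_lit 0x586850482) (nat_lit 0) (p (nat_lit 0x160014) (nat_lit 0) (p (nat_lit 0x16000c) (nat_lit 0) (p (nat_lit 0x68612) (nat_lit 0) (p (nat_lit 0x50592)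 (nat_lit 0) (p (nat_lit 0x40512) (nat_lit 0) (p (nat_lit 0x50312) (nat_lit 0) (p (nat_lit 0x38292) (nat_lit 0) (p (nat_lit 0x28212) (nat_lit 0) (p (nat_lit 0x38112) (nat_lit 0) (p (nat_lit 0x20092) (nat_lit 0) (p (nat_lit 0x10012) (nat_lit 0) pn))))))))))))))))))))))))))))) :=
  Cl.node (nat_lit 0xc9) (nat_lit 2) (by decide +kernel) (ClAll.succ (ClAll.succ ClAll.zero n64) s97)

def n94 : Cl (O (nat_lit 1)) (R (nat_lit 14353))
    (p (nat_lit 0x89) (nat_lit 0) (p (nat_lit 0x100004) (nat_lit 0) (p (nat_lit 0x200004) (nat_lit 0) (p (nat_lit 0x380c2) (nat_lit 1) (p (nat_lit 0x444aa) (nat_lit 7) (p (nat_lit 0x111) (nat_lit 0) (p (nat_lit 0xc9) (nat_lit 1) (p (nat_lit 0x81) (nat_lit 0) (p (nat_lit 0x101) (nat_lit 1) (p (nat_lit 0x119) (nat_lit 0) (p (nat_lit 0xd1) (nat_lit 0) (p (nat_lit 0x89) (nat_lit 0) (p (nat_lit 0x41) (nat_lit 0) (p (nat_lit 0x8090887069a) (nat_lit 0)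 (p (nat_lit 0x7870806861a) (nat_lit 0) (p (nat_lit 0x800070786058a) (nat_lit 0) (p (nat_lit 0x787058502) (nat_lit 0) (p (nat_lit 0x586850482) (nat_lit 0) (p (nat_lit 0x160014) (nat_lit 0) (p (nat_lit 0x16000c) (nat_lit 0) (p (nat_lit 0x68612) (nat_lit 0) (p (nat_lit 0x50592) (nat_lit 0) (p (nat_lit 0x40512) (nat_lit 0) (p (nat_lit 0x50312) (nat_lit 0) (p (nat_lit 0x38292) (nat_lit 0) (p (nat_lit 0x28212) (nat_lit 0) (p (nat_lit 0x38112) (nat_lit 0) (p (nat_lit 0x20092) (nat_lit 0) (p (nat_lit 0x10012) (nat_lit 0) pn))))))))))))))))))))))))))))) :=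
  Cl.node (nat_lit 0xb000c) (nat_lit 2) (by decide +kernel) (ClAll.succ (ClAll.succ ClAll.zero n65) s103)

def n95 : Cl (O (nat_lit 1)) (R (nat_lit 14353))
    (p (nat_lit 0x89) (nat_lit 1) (p (nat_lit 0x100004) (nat_lit 0) (p (nat_lit 0x200004) (nat_lit 0) (p (nat_lit 0x380c2) (nat_lit 1) (p (nat_lit 0x444aa) (nat_lit 7) (p (nat_lit 0x111) (nat_lit 0) (p (nat_lit 0xc9) (nat_lit 1) (p (nat_lit 0x81) (nat_lit 0) (p (nat_lit 0x101) (nat_lit 1) (p (nat_lit 0x119) (nat_lit 0) (p (nat_lit 0xd1) (nat_lit 0) (p (nat_lit 0x89) (nat_lit 0) (p (nat_lit 0x41) (nat_lit 0) (p (nat_lit 0x8090887069a) (nat_lit 0) (p (nat_lit 0x7870806861a) (nat_lit 0) (p (nat_lit 0x800070786058a) (nat_lit 0) (p (nat_lit 0x787058502) (nat_lit 0) (p (nat_lit 0x586850482) (nat_lit 0) (p (nat_lit 0x160014) (nat_lit 0) (p (nat_lit 0x16000c) (nat_lit 0) (p (nat_lit 0x68612) (nat_lit 0) (p (nat_lit 0x50592)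 (nat_lit 0) (p (nat_lit 0x40512) (nat_lit 0) (p (nat_lit 0x50312) (nat_lit 0) (p (nat_lit 0x38292) (nat_lit 0) (p (nat_lit 0x28212) (nat_lit 0) (p (nat_lit 0x38112) (nat_lit 0) (p (nat_lit 0x20092) (nat_lit 0) (p (nat_lit 0x10012) (nat_lit 0) pn))))))))))))))))))))))))))))) :=
  Cl.node (nat_lit 0xc9) (nat_lit 2) (by decide +kernel) (ClAll.succ (ClAll.succ ClAll.zero n66) s116)

def n96 : Cl (O (nat_lit 1)) (R (nat_lit 14353))
    (p (nat_lit 0x444aa) (nat_lit 7) (p (nat_lit 0xd1) (nat_lit 1) (p (nat_lit 0x200004) (nat_lit 0) (p (nat_lit 0x380c2) (nat_lit 0) (p (nat_lit 0x4c42a) (nat_lit 2) (p (nat_lit 0xc9) (nat_lit 0) (p (nat_lit 0xc1) (nat_lit 0) (p (nat_lit 0x81) (nat_lit 1) (p (nat_lit 0x101) (nat_lit 1) (p (nat_lit 0x119) (nat_lit 0) (p (nat_lit 0xd1) (nat_lit 0) (p (nat_lit 0x89) (nat_lit 0) (p (nat_lit 0x41) (nat_lit 0) (p (nat_lit 0x8090887069a) (nat_lit 0)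 (p (nat_lit 0x7870806861a) (nat_lit 0) (p (nat_lit 0x800070786058a) (nat_lit 0) (p (nat_lit 0x787058502) (nat_lit 0) (p (nat_lit 0x586850482) (nat_lit 0) (p (nat_lit 0x160014) (nat_lit 0) (p (nat_lit 0x16000c) (nat_lit 0) (p (nat_lit 0x68612) (nat_lit 0) (p (nat_lit 0x50592) (nat_lit 0) (p (nat_lit 0x40512) (nat_lit 0) (p (nat_lit 0x50312) (nat_lit 0) (p (nat_lit 0x38292) (nat_lit 0) (p (nat_lit 0x28212) (nat_lit 0) (p (nat_lit 0x38112) (nat_lit 0) (p (nat_lit 0x20092) (nat_lit 0) (p (nat_lit 0x10012) (nat_lit 0) pn))))))))))))))))))))))))))))) :=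
  Cl.node (nat_lit 0x380c2) (nat_lit 2) (by decide +kernel) (ClAll.succ (ClAll.succ ClAll.zero s136) n67)

def n97 : Cl (O (nat_lit 1)) (R (nat_lit 14353))
    (p (nat_lit 0x111) (nat_lit 1) (p (nat_lit 0xb000c) (nat_lit 0) (p (nat_lit 0xd1) (nat_lit 1) (p (nat_lit 0x380c2) (nat_lit 0) (p (nat_lit 0x4c42a) (nat_lit 8) (p (nat_lit 0xc9) (nat_lit 0) (p (nat_lit 0xc1) (nat_lit 0) (p (nat_lit 0x81) (nat_lit 1) (p (nat_lit 0x101) (nat_lit 1) (p (nat_lit 0x119) (nat_lit 0) (p (nat_lit 0xd1) (nat_lit 0) (p (nat_lit 0x89) (nat_lit 0) (p (nat_lit 0x41) (nat_lit 0) (p (nat_lit 0x8090887069a) (nat_lit 0) (p (nat_lit 0x7870806861a) (nat_lit 0) (p (nat_lit 0x800070786058a) (nat_lit 0) (p (nat_lit 0x787058502) (nat_lit 0) (p (nat_lit 0x586850482) (nat_lit 0) (p (nat_lit 0x160014) (nat_lit 0) (p (nat_lit 0x16000c) (nat_lit 0) (p (nat_lit 0x68612) (nat_lit 0) (p (nat_lit 0x50592) (nat_lit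 0) (p (nat_lit 0x40512) (nat_lit 0) (p (nat_lit 0x50312) (nat_lit 0) (p (nat_lit 0x38292) (nat_lit 0) (p (nat_lit 0x28212) (nat_lit 0) (p (nat_lit 0x38112) (nat_lit 0) (p (nat_lit 0x20092) (nat_lit 0) (p (nat_lit 0x10012) (nat_lit 0) pn))))))))))))))))))))))))))))) :=
  Cl.node (nat_lit 0x89) (nat_lit 2) (by decide +kernel) (ClAll.succ (ClAll.succ ClAll.zero n68) s158)

def n98 : Cl (O (nat_lit 1)) (R (nat_lit 14353))
    (p (nat_lit 0x10800c) (nat_lit 0) (p (nat_lit 0x100004) (nat_lit 1) (p (nat_lit 0x200004) (nat_lit 0) (p (nat_lit 0x380c2) (nat_lit 0) (p (nat_lit 0x44c2a) (nat_lit 0) (p (nat_lit 0x109) (nat_lit 0) (p (nat_lit 0x101) (nat_lit 0) (p (nat_lit 0x81) (nat_lit 1) (p (nat_lit 0xc1) (nat_lit 1) (p (nat_lit 0x119) (nat_lit 1) (p (nat_lit 0xd1) (nat_lit 0) (p (nat_lit 0x89) (nat_lit 0) (p (nat_lit 0x41) (nat_lit 0) (p (nat_lit 0x8090887069a) (nat_lit 0) (p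 (nat_lit 0x7870806861a) (nat_lit 0) (p (nat_lit 0x800070786058a) (nat_lit 0) (p (nat_lit 0x787058502) (nat_lit 0) (p (nat_lit 0x586850482) (nat_lit 0) (p (nat_lit 0x160014) (nat_lit 0) (p (nat_lit 0x16000c) (nat_lit 0) (p (nat_lit 0x68612) (nat_lit 0) (p (nat_lit 0x50592) (nat_lit 0) (p (nat_lit 0x40512) (nat_lit 0) (p (nat_lit 0x50312) (nat_lit 0) (p (nat_lit 0x38292) (nat_lit 0) (p (nat_lit 0x28212) (nat_lit 0) (p (nat_lit 0x38112) (nat_lit 0) (p (nat_lit 0x20092) (nat_lit 0) (p (nat_lit 0x10012) (nat_lit 0) pn))))))))))))))))))))))))))))) :=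
  Cl.node (nat_lit 0x108014) (nat_lit 2) (by decide +kernel) (ClAll.succ (ClAll.succ ClAll.zero n69) s257)

def n99 : Cl (O (nat_lit 1)) (R (nat_lit 14353))
    (p (nat_lit 0x119) (nat_lit 0) (p (nat_lit 0x100004) (nat_lit 0) (p (nat_lit 0x200004) (nat_lit 0) (p (nat_lit 0x380c2) (nat_lit 1) (p (nat_lit 0x444aa) (nat_lit 7) (p (nat_lit 0x109) (nat_lit 1) (p (nat_lit 0x101) (nat_lit 0) (p (nat_lit 0x81) (nat_lit 1) (p (nat_lit 0xc1) (nat_lit 1) (p (nat_lit 0x119) (nat_lit 1) (p (nat_lit 0xd1) (nat_lit 0) (p (nat_lit 0x89) (nat_lit 0) (p (nat_lit 0x41) (nat_lit 0) (p (nat_lit 0x8090887069a) (nat_lit 0) (p (nat_lit 0x7870806861a) (nat_lit 0) (p (nat_lit 0x800070786058a) (nat_lit 0) (p (nat_lit 0x787058502) (nat_lit 0) (p (nat_lit 0x586850482) (nat_lit 0) (p (nat_lit 0x160014) (nat_lit 0) (p (nat_lit 0x16000c) (nat_lit 0) (p (nat_lit 0x68612) (nat_lit 0) (p (nat_lit 0x50592)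 (nat_lit 0) (p (nat_lit 0x40512) (nat_lit 0) (p (nat_lit 0x50312) (nat_lit 0) (p (nat_lit 0x38292) (nat_lit 0) (p (nat_lit 0x28212) (nat_lit 0) (p (nat_lit 0x38112) (nat_lit 0) (p (nat_lit 0x20092) (nat_lit 0) (p (nat_lit 0x10012) (nat_lit 0) pn))))))))))))))))))))))))))))) :=
  Cl.node (nat_lit 0x3cc2a) (nat_lit 12) (by decide +kernel) (ClAll.succ (ClAll.succ (ClAll.succ (ClAll.succ (ClAll.succ (ClAll.succ (ClAll.succ (ClAll.succ (ClAll.succ (ClAll.succ (ClAll.succ (ClAll.succ ClAll.zero s284) s285) s286) s287) s288) s289) s290) s291) s292) s293) s294) n70)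

def n100 : Cl (O (nat_lit 1)) (R (nat_lit 14353))
    (p (nat_lit 0xb0014) (nat_lit 0) (p (nat_lit 0x100004) (nat_lit 0) (p (nat_lit 0x380c2) (nat_lit 0) (p (nat_lit 0x4c42a) (nat_lit 2) (p (nat_lit 0x109) (nat_lit 0) (p (nat_lit 0x200004) (nat_lit 0) (p (nat_lit 0x119) (nat_lit 0) (p (nat_lit 0x81) (nat_lit 0) (p (nat_lit 0x101) (nat_lit 1) (p (nat_lit 0x111) (nat_lit 0) (p (nat_lit 0xd1) (nat_lit 1) (p (nat_lit 0x89) (nat_lit 0) (p (nat_lit 0x41) (nat_lit 0) (p (nat_lit 0x8090887069a) (nat_lit 0) (p (nat_lit 0x7870806861a) (nat_lit 0) (p (nat_lit 0x800070786058a) (nat_lit 0) (p (nat_lit 0x787058502) (nat_lit 0) (p (nat_lit 0x586850482) (nat_lit 0) (p (nat_lit 0x160014) (nat_lit 0) (p (nat_lit 0x16000c) (nat_lit 0) (p (nat_lit 0x68612) (nat_lit 0) (p (nat_lit 0x50592) (nat_lit 0) (p (nat_lit 0x40512) (nat_lit 0) (p (nat_lit 0x50312) (nat_lit 0) (p (nat_lit 0x38292)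 (nat_lit 0) (p (nat_lit 0x28212) (nat_lit 0) (p (nat_lit 0x38112) (nat_lit 0) (p (nat_lit 0x20092) (nat_lit 0) (p (nat_lit 0x10012) (nat_lit 0) pn))))))))))))))))))))))))))))) :=
  Cl.node (nat_lit 0xb000c) (nat_lit 2) (by decide +kernel) (ClAll.succ (ClAll.succ ClAll.zero s337) n71)

def n101 : Cl (O (nat_lit 1)) (R (nat_lit 14353))
    (p (nat_lit 0xb000c) (nat_lit 0) (p (nat_lit 0x100004) (nat_lit 0) (p (nat_lit 0x200004) (nat_lit 0) (p (nat_lit 0x380c2) (nat_lit 0) (p (nat_lit 0x444aa) (nat_lit 7) (p (nat_lit 0xd1) (nat_lit 1) (p (nat_lit 0x111) (nat_lit 1) (p (nat_lit 0x109) (nat_lit 0) (p (nat_lit 0x101) (nat_lit 0) (p (nat_lit 0x119) (nat_lit 0) (p (nat_lit 0xc9) (nat_lit 0) (p (nat_lit 0x89) (nat_lit 1) (p (nat_lit 0x41) (nat_lit 0) (p (nat_lit 0x8090887069a) (nat_lit 0) (p (nat_lit 0x7870806861a) (nat_lit 0) (p (nat_lit 0x800070786058a) (nat_lit 0) (p (nat_lit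 0x787058502) (nat_lit 0) (p (nat_lit 0x586850482) (nat_lit 0) (p (nat_lit 0x160014) (nat_lit 0) (p (nat_lit 0x16000c) (nat_lit 0) (p (nat_lit 0x68612) (nat_lit 0) (p (nat_lit 0x50592) (nat_lit 0) (p (nat_lit 0x40512) (nat_lit 0) (p (nat_lit 0x50312) (nat_lit 0) (p (nat_lit 0x38292) (nat_lit 0) (p (nat_lit 0x28212) (nat_lit 0) (p (nat_lit 0x38112) (nat_lit 0) (p (nat_lit 0x20092) (nat_lit 0) (p (nat_lit 0x10012) (nat_lit 0) pn))))))))))))))))))))))))))))) :=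
  Cl.node (nat_lit 0xc1) (nat_lit 2) (by decide +kernel) (ClAll.succ (ClAll.succ ClAll.zero s430) s431)

def n102 : Cl (O (nat_lit 1)) (R (nat_lit 14353))
    (p (nat_lit 0xb000c) (nat_lit 0) (p (nat_lit 0x100004) (nat_lit 0) (p (nat_lit 0x200004) (nat_lit 0) (p (nat_lit 0x380c2) (nat_lit 1) (p (nat_lit 0x444aa) (nat_lit 7) (p (nat_lit 0xd1) (nat_lit 1) (p (nat_lit 0x111) (nat_lit 1) (p (nat_lit 0x109) (nat_lit 0) (p (nat_lit 0x101) (nat_lit 0) (p (nat_lit 0x119) (nat_lit 0) (p (nat_lit 0xc9) (nat_lit 0) (p (nat_lit 0x89) (nat_lit 1) (p (nat_lit 0x41) (nat_lit 0) (p (nat_lit 0x8090887069a) (nat_lit 0) (p (nat_lit 0x7870806861a) (nat_lit 0) (p (nat_lit 0x800070786058a) (nat_lit 0) (p (nat_lit 0x787058502) (nat_lit 0) (p (nat_lit 0x586850482) (nat_lit 0) (p (nat_lit 0x160014) (nat_lit 0) (p (nat_lit 0x16000c) (nat_lit 0) (p (nat_lit 0x68612) (nat_lit 0) (p (nat_lit 0x50592)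 (nat_lit 0) (p (nat_lit 0x40512) (nat_lit 0) (p (nat_lit 0x50312) (nat_lit 0) (p (nat_lit 0x38292) (nat_lit 0) (p (nat_lit 0x28212) (nat_lit 0) (p (nat_lit 0x38112) (nat_lit 0) (p (nat_lit 0x20092) (nat_lit 0) (p (nat_lit 0x10012) (nat_lit 0) pn))))))))))))))))))))))))))))) :=
  Cl.node (nat_lit 0xc1) (nat_lit 2) (by decide +kernel) (ClAll.succ (ClAll.succ ClAll.zero s435) s436)

def n103 : Cl (O (nat_lit 1)) (R (nat_lit 14353))
    (p (nat_lit 0xb000c) (nat_lit 1) (p (nat_lit 0x100004) (nat_lit 0) (p (nat_lit 0x200004) (nat_lit 0) (p (nat_lit 0x380c2) (nat_lit 1) (p (nat_lit 0x444aa) (nat_lit 7) (p (nat_lit 0xd1) (nat_lit 1) (p (nat_lit 0x111) (nat_lit 1) (p (nat_lit 0x109) (nat_lit 0) (p (nat_lit 0x101) (nat_lit 0) (p (nat_lit 0x119) (nat_lit 0) (p (nat_lit 0xc9) (nat_lit 0) (p (nat_lit 0x89) (nat_lit 1) (p (nat_lit 0x41) (nat_lit 0) (p (nat_lit 0x8090887069a) (nat_lit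 0) (p (nat_lit 0x7870806861a) (nat_lit 0) (p (nat_lit 0x800070786058a) (nat_lit 0) (p (nat_lit 0x787058502) (nat_lit 0) (p (nat_lit 0x586850482) (nat_lit 0) (p (nat_lit 0x160014) (nat_lit 0) (p (nat_lit 0x16000c) (nat_lit 0) (p (nat_lit 0x68612) (nat_lit 0) (p (nat_lit 0x50592) (nat_lit 0) (p (nat_lit 0x40512) (nat_lit 0) (p (nat_lit 0x50312) (nat_lit 0) (p (nat_lit 0x38292) (nat_lit 0) (p (nat_lit 0x28212) (nat_lit 0) (p (nat_lit 0x38112) (nat_lit 0) (p (nat_lit 0x20092) (nat_lit 0) (p (nat_lit 0x10012) (nat_lit 0) pn))))))))))))))))))))))))))))) :=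
  Cl.node (nat_lit 0xb0014) (nat_lit 2) (by decide +kernel) (ClAll.succ (ClAll.succ ClAll.zero n72) s439)

def n104 : Cl (O (nat_lit 1)) (R (nat_lit 14353))
    (p (nat_lit 0xc1) (nat_lit 0) (p (nat_lit 0xb000c) (nat_lit 0) (p (nat_lit 0x100004) (nat_lit 0) (p (nat_lit 0x200004) (nat_lit 0) (p (nat_lit 0x380c2) (nat_lit 0) (p (nat_lit 0x444aa) (nat_lit 7) (p (nat_lit 0xd1) (nat_lit 1) (p (nat_lit 0x109) (nat_lit 1) (p (nat_lit 0x101) (nat_lit 0) (p (nat_lit 0x119) (nat_lit 0) (p (nat_lit 0xc9) (nat_lit 0) (p (nat_lit 0x89) (nat_lit 1) (p (nat_lit 0x41) (nat_lit 0) (p (nat_lit 0x8090887069a) (nat_lit 0) (p (nat_lit 0x7870806861a) (nat_lit 0) (p (nat_lit 0x800070786058a) (nat_lit 0) (p (nat_lit 0x787058502) (nat_lit 0) (p (nat_lit 0x586850482) (nat_lit 0) (p (nat_lit 0x160014) (nat_lit 0) (p (nat_lit 0x16000c) (nat_lit 0) (p (nat_lit 0x68612) (nat_lit 0) (p (nat_lit 0x50592)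 (nat_lit 0) (p (nat_lit 0x40512) (nat_lit 0) (p (nat_lit 0x50312) (nat_lit 0) (p (nat_lit 0x38292) (nat_lit 0) (p (nat_lit 0x28212) (nat_lit 0) (p (nat_lit 0x38112) (nat_lit 0) (p (nat_lit 0x20092) (nat_lit 0) (p (nat_lit 0x10012) (nat_lit 0) pn))))))))))))))))))))))))))))) :=
  Cl.node (nat_lit 0xc9) (nat_lit 2) (by decide +kernel) (ClAll.succ (ClAll.succ ClAll.zero n73) s481)

def n105 : Cl (O (nat_lit 1)) (R (nat_lit 14353))
    (p (nat_lit 0x80004) (nat_lit 0) (p (nat_lit 0xc1) (nat_lit 0) (p (nat_lit 0x100004) (nat_lit 0) (p (nat_lit 0x200004) (nat_lit 0) (p (nat_lit 0x380c2) (nat_lit 1) (p (nat_lit 0x444aa) (nat_lit 7) (p (nat_lit 0xd1) (nat_lit 1) (p (nat_lit 0x109) (nat_lit 1) (p (nat_lit 0x101) (nat_lit 0) (p (nat_lit 0x119) (nat_lit 0) (p (nat_lit 0xc9) (nat_lit 0) (p (nat_lit 0x89) (nat_lit 1) (p (nat_lit 0x41) (nat_lit 0) (p (nat_lit 0x8090887069a) (nat_lit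 0) (p (nat_lit 0x7870806861a) (nat_lit 0) (p (nat_lit 0x800070786058a) (nat_lit 0) (p (nat_lit 0x787058502) (nat_lit 0) (p (nat_lit 0x586850482) (nat_lit 0) (p (nat_lit 0x160014) (nat_lit 0) (p (nat_lit 0x16000c) (nat_lit 0) (p (nat_lit 0x68612) (nat_lit 0) (p (nat_lit 0x50592) (nat_lit 0) (p (nat_lit 0x40512) (nat_lit 0) (p (nat_lit 0x50312) (nat_lit 0) (p (nat_lit 0x38292) (nat_lit 0) (p (nat_lit 0x28212) (nat_lit 0) (p (nat_lit 0x38112) (nat_lit 0) (p (nat_lit 0x20092) (nat_lit 0) (p (nat_lit 0x10012) (nat_lit 0) pn))))))))))))))))))))))))))))) :=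
  Cl.node (nat_lit 0xc9) (nat_lit 2) (by decide +kernel) (ClAll.succ (ClAll.succ ClAll.zero n74) s498)

def n106 : Cl (O (nat_lit 1)) (R (nat_lit 14353))
    (p (nat_lit 0x80004) (nat_lit 1) (p (nat_lit 0xc1) (nat_lit 0) (p (nat_lit 0x100004) (nat_lit 0) (p (nat_lit 0x200004) (nat_lit 0) (p (nat_lit 0x380c2) (nat_lit 1) (p (nat_lit 0x444aa) (nat_lit 7) (p (nat_lit 0xd1) (nat_lit 1) (p (nat_lit 0x109) (nat_lit 1) (p (nat_lit 0x101) (nat_lit 0) (p (nat_lit 0x119) (nat_lit 0) (p (nat_lit 0xc9) (nat_lit 0) (p (nat_lit 0x89) (nat_lit 1) (p (nat_lit 0x41) (nat_lit 0) (p (nat_lit 0x8090887069a) (nat_lit 0) (p (nat_lit 0x7870806861a) (nat_lit 0) (p (nat_lit 0x800070786058a) (nat_lit 0) (p (nat_lit 0x787058502) (nat_lit 0) (p (nat_lit 0x586850482) (nat_lit 0) (p (nat_lit 0x160014) (nat_lit 0) (p (nat_lit 0x16000c) (nat_lit 0) (p (nat_lit 0x68612) (nat_lit 0) (p (nat_lit 0x50592)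 (nat_lit 0) (p (nat_lit 0x40512) (nat_lit 0) (p (nat_lit 0x50312) (nat_lit 0) (p (nat_lit 0x38292) (nat_lit 0) (p (nat_lit 0x28212) (nat_lit 0) (p (nat_lit 0x38112) (nat_lit 0) (p (nat_lit 0x20092) (nat_lit 0) (p (nat_lit 0x10012) (nat_lit 0) pn))))))))))))))))))))))))))))) :=
  Cl.node (nat_lit 0x13400c) (nat_lit 2) (by decide +kernel) (ClAll.succ (ClAll.succ ClAll.zero n75) s530)

def n107 : Cl (O (nat_lit 1)) (R (nat_lit 14353))
    (p (nat_lit 0x119) (nat_lit 1) (p (nat_lit 0x100004) (nat_lit 0) (p (nat_lit 0xc9) (nat_lit 0) (p (nat_lit 0x200004) (nat_lit 0) (p (nat_lit 0x380c2) (nat_lit 1) (p (nat_lit 0x444aa) (nat_lit 7) (p (nat_lit 0xd1) (nat_lit 1) (p (nat_lit 0xc1) (nat_lit 0) (p (nat_lit 0x101) (nat_lit 1) (p (nat_lit 0x119) (nat_lit 0) (p (nat_lit 0xc9) (nat_lit 0) (p (nat_lit 0x89) (nat_lit 1) (p (nat_lit 0x41) (nat_lit 0) (p (nat_lit 0x8090887069a) (nat_lit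 0) (p (nat_lit 0x7870806861a) (nat_lit 0) (p (nat_lit 0x800070786058a) (nat_lit 0) (p (nat_lit 0x787058502) (nat_lit 0) (p (nat_lit 0x586850482) (nat_lit 0) (p (nat_lit 0x160014) (nat_lit 0) (p (nat_lit 0x16000c) (nat_lit 0) (p (nat_lit 0x68612) (nat_lit 0) (p (nat_lit 0x50592) (nat_lit 0) (p (nat_lit 0x40512) (nat_lit 0) (p (nat_lit 0x50312) (nat_lit 0) (p (nat_lit 0x38292) (nat_lit 0) (p (nat_lit 0x28212) (nat_lit 0) (p (nat_lit 0x38112) (nat_lit 0) (p (nat_lit 0x20092) (nat_lit 0) (p (nat_lit 0x10012) (nat_lit 0) pn))))))))))))))))))))))))))))) :=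
  Cl.node (nat_lit 0x3cc2a) (nat_lit 12) (by decide +kernel) (ClAll.succ (ClAll.succ (ClAll.succ (ClAll.succ (ClAll.succ (ClAll.succ (ClAll.succ (ClAll.succ (ClAll.succ (ClAll.succ (ClAll.succ (ClAll.succ ClAll.zero s565) s566) s567) s568) s569) s570) s571) s572) s573) s574) s575) s576)

def n108 : Cl (O (nat_lit 1)) (R (nat_lit 14353))
    (p (nat_lit 0x108014) (nat_lit 0) (p (nat_lit 0x10800c) (nat_lit 0) (p (nat_lit 0x100004) (nat_lit 1) (p (nat_lit 0x200004) (nat_lit 0) (p (nat_lit 0x380c2) (nat_lit 1) (p (nat_lit 0x444aa) (nat_lit 7) (p (nat_lit 0x111) (nat_lit 1) (p (nat_lit 0xd1) (nat_lit 1) (p (nat_lit 0xc1) (nat_lit 0) (p (nat_lit 0x119) (nat_lit 1) (p (nat_lit 0xc9) (nat_lit 0) (p (nat_lit 0x89) (nat_lit 1) (p (nat_lit 0x41) (nat_lit 0) (p (nat_lit 0x8090887069a) (nat_lit 0) (p (nat_lit 0x7870806861a) (nat_lit 0) (p (nat_lit 0x800070786058a) (nat_lit 0) (p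 (nat_lit 0x787058502) (nat_lit 0) (p (nat_lit 0x586850482) (nat_lit 0) (p (nat_lit 0x160014) (nat_lit 0) (p (nat_lit 0x16000c) (nat_lit 0) (p (nat_lit 0x68612) (nat_lit 0) (p (nat_lit 0x50592) (nat_lit 0) (p (nat_lit 0x40512) (nat_lit 0) (p (nat_lit 0x50312) (nat_lit 0) (p (nat_lit 0x38292) (nat_lit 0) (p (nat_lit 0x28212) (nat_lit 0) (p (nat_lit 0x38112) (nat_lit 0) (p (nat_lit 0x20092) (nat_lit 0) (p (nat_lit 0x10012) (nat_lit 0) pn))))))))))))))))))))))))))))) :=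
  Cl.node (nat_lit 0x101) (nat_lit 2) (by decide +kernel) (ClAll.succ (ClAll.succ ClAll.zero s598) s599)

def n109 : Cl (O (nat_lit 1)) (R (nat_lit 14353))
    (p (nat_lit 0x81) (nat_lit 1) (p (nat_lit 0x41) (nat_lit 1) (p (nat_lit 0xb0014) (nat_lit 0) (p (nat_lit 0x200004) (nat_lit 0) (p (nat_lit 0x380c2) (nat_lit 0) (p (nat_lit 0x44c2a) (nat_lit 0) (p (nat_lit 0x111) (nat_lit 0) (p (nat_lit 0x101) (nat_lit 0) (p (nat_lit 0xc1) (nat_lit 1) (p (nat_lit 0x119) (nat_lit 1) (p (nat_lit 0xc9) (nat_lit 0) (p (nat_lit 0x89) (nat_lit 1) (p (nat_lit 0x41) (nat_lit 0) (p (nat_lit 0x8090887069a) (nat_lit 0) (p (nat_lit 0x7870806861a) (nat_lit 0) (p (nat_lit 0x800070786058a) (nat_lit 0) (p (nat_lit 0x787058502) (nat_lit 0) (p (nat_lit 0x586850482) (nat_lit 0) (p (nat_lit 0x160014) (nat_lit 0) (p (nat_lit 0x16000c) (nat_lit 0) (p (nat_lit 0x68612) (nat_lit 0) (p (nat_lit 0x50592)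 (nat_lit 0) (p (nat_lit 0x40512) (nat_lit 0) (p (nat_lit 0x50312) (nat_lit 0) (p (nat_lit 0x38292) (nat_lit 0) (p (nat_lit 0x28212) (nat_lit 0) (p (nat_lit 0x38112) (nat_lit 0) (p (nat_lit 0x20092) (nat_lit 0) (p (nat_lit 0x10012) (nat_lit 0) pn))))))))))))))))))))))))))))) :=
  Cl.node (nat_lit 0x100004) (nat_lit 2) (by decide +kernel) (ClAll.succ (ClAll.succ ClAll.zero n76) s621)

def n110 : Cl (O (nat_lit 1)) (R (nat_lit 14353))
    (p (nat_lit 0x119) (nat_lit 0) (p (nat_lit 0x100004) (nat_lit 0) (p (nat_lit 0x109) (nat_lit 0) (p (nat_lit 0x200004) (nat_lit 0) (p (nat_lit 0x380c2) (nat_lit 1) (p (nat_lit 0x444aa) (nat_lit 7) (p (nat_lit 0x111) (nat_lit 1) (p (nat_lit 0x101) (nat_lit 0) (p (nat_lit 0xc1) (nat_lit 1) (p (nat_lit 0x119) (nat_lit 1) (p (nat_lit 0xc9) (nat_lit 0) (p (nat_lit 0x89) (nat_lit 1) (p (nat_lit 0x41) (nat_lit 0) (p (nat_lit 0x8090887069a) (nat_lit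 0) (p (nat_lit 0x7870806861a) (nat_lit 0) (p (nat_lit 0x800070786058a) (nat_lit 0) (p (nat_lit 0x787058502) (nat_lit 0) (p (nat_lit 0x586850482) (nat_lit 0) (p (nat_lit 0x160014) (nat_lit 0) (p (nat_lit 0x16000c) (nat_lit 0) (p (nat_lit 0x68612) (nat_lit 0) (p (nat_lit 0x50592) (nat_lit 0) (p (nat_lit 0x40512) (nat_lit 0) (p (nat_lit 0x50312) (nat_lit 0) (p (nat_lit 0x38292) (nat_lit 0) (p (nat_lit 0x28212) (nat_lit 0) (p (nat_lit 0x38112) (nat_lit 0) (p (nat_lit 0x20092) (nat_lit 0) (p (nat_lit 0x10012) (nat_lit 0) pn))))))))))))))))))))))))))))) :=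
  Cl.node (nat_lit 0x3cc2a) (nat_lit 12) (by decide +kernel) (ClAll.succ (ClAll.succ (ClAll.succ (ClAll.succ (ClAll.succ (ClAll.succ (ClAll.succ (ClAll.succ (ClAll.succ (ClAll.succ (ClAll.succ (ClAll.succ ClAll.zero s647) s648) s649) s650) s651) s652) s653) s654) s655) s656) s657) s658)

def n111 : Cl (O (nat_lit 1)) (R (nat_lit 14353))
    (p (nat_lit 0x109) (nat_lit 1) (p (nat_lit 0xb000c) (nat_lit 0) (p (nat_lit 0xc9) (nat_lit 1) (p (nat_lit 0x380c2) (nat_lit 0) (p (nat_lit 0x4c42a) (nat_lit 8) (p (nat_lit 0x111) (nat_lit 0) (p (nat_lit 0x89) (nat_lit 0) (p (nat_lit 0x109) (nat_lit 1) (p (nat_lit 0x101) (nat_lit 0) (p (nat_lit 0x119) (nat_lit 0) (p (nat_lit 0xd1) (nat_lit 0) (p (nat_lit 0x81) (nat_lit 0) (p (nat_lit 0x41) (nat_lit 1) (p (nat_lit 0x8090887069a) (nat_lit 0) (p (nat_lit 0x7870806861a) (nat_lit 0) (p (nat_lit 0x800070786058a) (nat_lit 0) (p (nat_lit 0x787058502)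 (nat_lit 0) (p (nat_lit 0x586850482) (nat_lit 0) (p (nat_lit 0x160014) (nat_lit 0) (p (nat_lit 0x16000c) (nat_lit 0) (p (nat_lit 0x68612) (nat_lit 0) (p (nat_lit 0x50592) (nat_lit 0) (p (nat_lit 0x40512) (nat_lit 0) (p (nat_lit 0x50312) (nat_lit 0) (p (nat_lit 0x38292) (nat_lit 0) (p (nat_lit 0x28212) (nat_lit 0) (p (nat_lit 0x38112) (nat_lit 0) (p (nat_lit 0x20092) (nat_lit 0) (p (nat_lit 0x10012) (nat_lit 0) pn))))))))))))))))))))))))))))) :=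
  Cl.node (nat_lit 0x41) (nat_lit 2) (by decide +kernel) (ClAll.succ (ClAll.succ ClAll.zero n77) s713)

def n112 : Cl (O (nat_lit 1)) (R (nat_lit 14353))
    (p (nat_lit 0x81) (nat_lit 0) (p (nat_lit 0xb000c) (nat_lit 0) (p (nat_lit 0xb0014) (nat_lit 0) (p (nat_lit 0x380c2) (nat_lit 0) (p (nat_lit 0x3cc2a) (nat_lit 11) (p (nat_lit 0x111) (nat_lit 1) (p (nat_lit 0x89) (nat_lit 0) (p (nat_lit 0x109) (nat_lit 1) (p (nat_lit 0x101) (nat_lit 0) (p (nat_lit 0x119) (nat_lit 0) (p (nat_lit 0xd1) (nat_lit 0) (p (nat_lit 0x81) (nat_lit 0) (p (nat_lit 0x41) (nat_lit 1) (p (nat_lit 0x8090887069a) (nat_lit 0) (p (nat_lit 0x7870806861a) (nat_lit 0) (p (nat_lit 0x800070786058a) (nat_lit 0) (p (nat_lit 0x787058502) (nat_lit 0) (p (nat_lit 0x586850482) (nat_lit 0) (p (nat_lit 0x160014) (nat_lit 0) (p (nat_lit 0x16000c) (nat_lit 0) (p (nat_lit 0x68612) (nat_lit 0) (p (nat_lit 0x50592)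 (nat_lit 0) (p (nat_lit 0x40512) (nat_lit 0) (p (nat_lit 0x50312) (nat_lit 0) (p (nat_lit 0x38292) (nat_lit 0) (p (nat_lit 0x28212) (nat_lit 0) (p (nat_lit 0x38112) (nat_lit 0) (p (nat_lit 0x20092) (nat_lit 0) (p (nat_lit 0x10012) (nat_lit 0) pn))))))))))))))))))))))))))))) :=
  Cl.node (nat_lit 0xc9) (nat_lit 2) (by decide +kernel) (ClAll.succ (ClAll.succ ClAll.zero s730) n78)

def n113 : Cl (O (nat_lit 1)) (R (nat_lit 14353))
    (p (nat_lit 0x81) (nat_lit 1) (p (nat_lit 0xb000c) (nat_lit 0) (p (nat_lit 0xb0014) (nat_lit 0) (p (nat_lit 0x380c2) (nat_lit 0) (p (nat_lit 0x3cc2a) (nat_lit 11) (p (nat_lit 0x111) (nat_lit 1) (p (nat_lit 0x89) (nat_lit 0) (p (nat_lit 0x109) (nat_lit 1) (p (nat_lit 0x101) (nat_lit 0) (p (nat_lit 0x119) (nat_lit 0) (p (nat_lit 0xd1) (nat_lit 0) (p (nat_lit 0x81) (nat_lit 0) (p (nat_lit 0x41) (nat_lit 1) (p (nat_lit 0x8090887069a) (nat_lit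 0) (p (nat_lit 0x7870806861a) (nat_lit 0) (p (nat_lit 0x800070786058a) (nat_lit 0) (p (nat_lit 0x787058502) (nat_lit 0) (p (nat_lit 0x586850482) (nat_lit 0) (p (nat_lit 0x160014) (nat_lit 0) (p (nat_lit 0x16000c) (nat_lit 0) (p (nat_lit 0x68612) (nat_lit 0) (p (nat_lit 0x50592) (nat_lit 0) (p (nat_lit 0x40512) (nat_lit 0) (p (nat_lit 0x50312) (nat_lit 0) (p (nat_lit 0x38292) (nat_lit 0) (p (nat_lit 0x28212) (nat_lit 0) (p (nat_lit 0x38112) (nat_lit 0) (p (nat_lit 0x20092) (nat_lit 0) (p (nat_lit 0x10012) (nat_lit 0) pn))))))))))))))))))))))))))))) :=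
  Cl.node (nat_lit 0xc1) (nat_lit 2) (by decide +kernel) (ClAll.succ (ClAll.succ ClAll.zero n79) s742)

def n114 : Cl (O (nat_lit 1)) (R (nat_lit 14353))
    (p (nat_lit 0xb000c) (nat_lit 0) (p (nat_lit 0xd1) (nat_lit 1) (p (nat_lit 0x111) (nat_lit 1) (p (nat_lit 0x380c2) (nat_lit 0) (p (nat_lit 0x4c42a) (nat_lit 8) (p (nat_lit 0xc9) (nat_lit 0) (p (nat_lit 0x89) (nat_lit 1) (p (nat_lit 0x109) (nat_lit 1) (p (nat_lit 0x101) (nat_lit 0) (p (nat_lit 0x119) (nat_lit 0) (p (nat_lit 0xd1) (nat_lit 0) (p (nat_lit 0x81) (nat_lit 0) (p (nat_lit 0x41) (nat_lit 1) (p (nat_lit 0x8090887069a) (nat_lit 0) (p (nat_lit 0x7870806861a) (nat_lit 0) (p (nat_lit 0x800070786058a) (nat_lit 0) (p (nat_lit 0x787058502) (nat_lit 0) (p (nat_lit 0x586850482) (nat_lit 0) (p (nat_lit 0x160014) (nat_lit 0) (p (nat_lit 0x16000c) (nat_lit 0) (p (nat_lit 0x68612) (nat_lit 0) (p (nat_lit 0x50592) (nat_lit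 0) (p (nat_lit 0x40512) (nat_lit 0) (p (nat_lit 0x50312) (nat_lit 0) (p (nat_lit 0x38292) (nat_lit 0) (p (nat_lit 0x28212) (nat_lit 0) (p (nat_lit 0x38112) (nat_lit 0) (p (nat_lit 0x20092) (nat_lit 0) (p (nat_lit 0x10012) (nat_lit 0) pn))))))))))))))))))))))))))))) :=
  Cl.node (nat_lit 0x81) (nat_lit 2) (by decide +kernel) (ClAll.succ (ClAll.succ ClAll.zero n80) s764)

def n115 : Cl (O (nat_lit 1)) (R (nat_lit 14353))
    (p (nat_lit 0xd1) (nat_lit 1) (p (nat_lit 0x111) (nat_lit 1) (p (nat_lit 0xb000c) (nat_lit 0) (p (nat_lit 0x380c2) (nat_lit 1) (p (nat_lit 0x4c42a) (nat_lit 8) (p (nat_lit 0xc9) (nat_lit 0) (p (nat_lit 0x89) (nat_lit 1) (p (nat_lit 0x109) (nat_lit 1) (p (nat_lit 0x101) (nat_lit 0) (p (nat_lit 0x119) (nat_lit 0) (p (nat_lit 0xd1) (nat_lit 0) (p (nat_lit 0x81) (nat_lit 0) (p (nat_lit 0x41) (nat_lit 1) (p (nat_lit 0x8090887069a) (nat_lit 0) (p (nat_lit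 0x7870806861a) (nat_lit 0) (p (nat_lit 0x800070786058a) (nat_lit 0) (p (nat_lit 0x787058502) (nat_lit 0) (p (nat_lit 0x586850482) (nat_lit 0) (p (nat_lit 0x160014) (nat_lit 0) (p (nat_lit 0x16000c) (nat_lit 0) (p (nat_lit 0x68612) (nat_lit 0) (p (nat_lit 0x50592) (nat_lit 0) (p (nat_lit 0x40512) (nat_lit 0) (p (nat_lit 0x50312) (nat_lit 0) (p (nat_lit 0x38292) (nat_lit 0) (p (nat_lit 0x28212) (nat_lit 0) (p (nat_lit 0x38112) (nat_lit 0) (p (nat_lit 0x20092) (nat_lit 0) (p (nat_lit 0x10012) (nat_lit 0) pn))))))))))))))))))))))))))))) :=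
  Cl.node (nat_lit 0x81) (nat_lit 2) (by decide +kernel) (ClAll.succ (ClAll.succ ClAll.zero n81) s770)

def n116 : Cl (O (nat_lit 1)) (R (nat_lit 14353))
    (p (nat_lit 0x119) (nat_lit 1) (p (nat_lit 0x111) (nat_lit 0) (p (nat_lit 0xb000c) (nat_lit 0) (p (nat_lit 0xb0014) (nat_lit 0) (p (nat_lit 0x380c2) (nat_lit 0) (p (nat_lit 0x3cc2a) (nat_lit 11) (p (nat_lit 0x89) (nat_lit 0) (p (nat_lit 0xc1) (nat_lit 0) (p (nat_lit 0x101) (nat_lit 1) (p (nat_lit 0x119) (nat_lit 0) (p (nat_lit 0xd1) (nat_lit 0) (p (nat_lit 0x81) (nat_lit 0) (p (nat_lit 0x41) (nat_lit 1) (p (nat_lit 0x8090887069a) (nat_lit 0) (p (nat_lit 0x7870806861a) (nat_lit 0) (p (nat_lit 0x800070786058a) (nat_lit 0) (p (nat_lit 0x787058502) (nat_lit 0) (p (nat_lit 0x586850482) (nat_lit 0) (p (nat_lit 0x160014) (nat_lit 0) (p (nat_lit 0x16000c) (nat_lit 0) (p (nat_lit 0x68612) (nat_lit 0) (p (nat_lit 0x50592)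 (nat_lit 0) (p (nat_lit 0x40512) (nat_lit 0) (p (nat_lit 0x50312) (nat_lit 0) (p (nat_lit 0x38292) (nat_lit 0) (p (nat_lit 0x28212) (nat_lit 0) (p (nat_lit 0x38112) (nat_lit 0) (p (nat_lit 0x20092) (nat_lit 0) (p (nat_lit 0x10012) (nat_lit 0) pn))))))))))))))))))))))))))))) :=
  Cl.node (nat_lit 0xc9) (nat_lit 2) (by decide +kernel) (ClAll.succ (ClAll.succ ClAll.zero s788) n82)

def n117 : Cl (O (nat_lit 1)) (R (nat_lit 14353))
    (p (nat_lit 0x111) (nat_lit 1) (p (nat_lit 0xb000c) (nat_lit 0) (p (nat_lit 0xd1) (nat_lit 1) (p (nat_lit 0x380c2) (nat_lit 0) (p (nat_lit 0x4c42a) (nat_lit 8) (p (nat_lit 0xc9) (nat_lit 0) (p (nat_lit 0x89) (nat_lit 1) (p (nat_lit 0xc1) (nat_lit 0) (p (nat_lit 0x101) (nat_lit 1) (p (nat_lit 0x119) (nat_lit 0) (p (nat_lit 0xd1) (nat_lit 0) (p (nat_lit 0x81) (nat_lit 0) (p (nat_lit 0x41) (nat_lit 1) (p (nat_lit 0x8090887069a) (nat_lit 0) (p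 (nat_lit 0x7870806861a) (nat_lit 0) (p (nat_lit 0x800070786058a) (nat_lit 0) (p (nat_lit 0x787058502) (nat_lit 0) (p (nat_lit 0x586850482) (nat_lit 0) (p (nat_lit 0x160014) (nat_lit 0) (p (nat_lit 0x16000c) (nat_lit 0) (p (nat_lit 0x68612) (nat_lit 0) (p (nat_lit 0x50592) (nat_lit 0) (p (nat_lit 0x40512) (nat_lit 0) (p (nat_lit 0x50312) (nat_lit 0) (p (nat_lit 0x38292) (nat_lit 0) (p (nat_lit 0x28212) (nat_lit 0) (p (nat_lit 0x38112) (nat_lit 0) (p (nat_lit 0x20092) (nat_lit 0) (p (nat_lit 0x10012) (nat_lit 0) pn))))))))))))))))))))))))))))) :=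
  Cl.node (nat_lit 0xd1) (nat_lit 2) (by decide +kernel) (ClAll.succ (ClAll.succ ClAll.zero s814) n83)

def n118 : Cl (O (nat_lit 1)) (R (nat_lit 14353))
    (p (nat_lit 0x41) (nat_lit 0) (p (nat_lit 0xb0014) (nat_lit 0) (p (nat_lit 0x200004) (nat_lit 0) (p (nat_lit 0x380c2) (nat_lit 0) (p (nat_lit 0x44c2a) (nat_lit 0) (p (nat_lit 0x109) (nat_lit 0) (p (nat_lit 0x89) (nat_lit 1) (p (nat_lit 0xc9) (nat_lit 1) (p (nat_lit 0xc1) (nat_lit 0) (p (nat_lit 0x119) (nat_lit 1) (p (nat_lit 0xd1) (nat_lit 0) (p (nat_lit 0x81) (nat_lit 0) (p (nat_lit 0x41) (nat_lit 1) (p (nat_lit 0x8090887069a) (nat_lit 0) (p (nat_lit 0x7870806861a) (nat_lit 0) (p (nat_lit 0x800070786058a) (nat_lit 0) (p (nat_lit 0x787058502) (nat_lit 0) (p (nat_lit 0x586850482) (nat_lit 0) (p (nat_lit 0x160014) (nat_lit 0) (p (nat_lit 0x16000c) (nat_lit 0) (p (nat_lit 0x68612) (nat_lit 0) (p (nat_lit 0x50592) (nat_lit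 0) (p (nat_lit 0x40512) (nat_lit 0) (p (nat_lit 0x50312) (nat_lit 0) (p (nat_lit 0x38292) (nat_lit 0) (p (nat_lit 0x28212) (nat_lit 0) (p (nat_lit 0x38112) (nat_lit 0) (p (nat_lit 0x20092) (nat_lit 0) (p (nat_lit 0x10012) (nat_lit 0) pn))))))))))))))))))))))))))))) :=
  Cl.node (nat_lit 0xc9) (nat_lit 2) (by decide +kernel) (ClAll.succ (ClAll.succ ClAll.zero s864) n84)

def n119 : Cl (O (nat_lit 1)) (R (nat_lit 14353))
    (p (nat_lit 0xb000c) (nat_lit 0) (p (nat_lit 0x100004) (nat_lit 0) (p (nat_lit 0x200004) (nat_lit 0) (p (nat_lit 0x380c2) (nat_lit 0) (p (nat_lit 0x3c4aa) (nat_lit 7) (p (nat_lit 0xd1) (nat_lit 1) (p (nat_lit 0x111) (nat_lit 1) (p (nat_lit 0x109) (nat_lit 0) (p (nat_lit 0x101) (nat_lit 0) (p (nat_lit 0x119) (nat_lit 0) (p (nat_lit 0xc1) (nat_lit 0) (p (nat_lit 0x81) (nat_lit 1) (p (nat_lit 0x41) (nat_lit 1) (p (nat_lit 0x8090887069a) (nat_lit 0) (p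 (nat_lit 0x7870806861a) (nat_lit 0) (p (nat_lit 0x800070786058a) (nat_lit 0) (p (nat_lit 0x787058502) (nat_lit 0) (p (nat_lit 0x586850482) (nat_lit 0) (p (nat_lit 0x160014) (nat_lit 0) (p (nat_lit 0x16000c) (nat_lit 0) (p (nat_lit 0x68612) (nat_lit 0) (p (nat_lit 0x50592) (nat_lit 0) (p (nat_lit 0x40512) (nat_lit 0) (p (nat_lit 0x50312) (nat_lit 0) (p (nat_lit 0x38292) (nat_lit 0) (p (nat_lit 0x28212) (nat_lit 0) (p (nat_lit 0x38112) (nat_lit 0) (p (nat_lit 0x20092) (nat_lit 0) (p (nat_lit 0x10012) (nat_lit 0) pn))))))))))))))))))))))))))))) :=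
  Cl.node (nat_lit 0xc9) (nat_lit 2) (by decide +kernel) (ClAll.succ (ClAll.succ ClAll.zero n85) n86)

def n120 : Cl (O (nat_lit 1)) (R (nat_lit 14353))
    (p (nat_lit 0xb000c) (nat_lit 0) (p (nat_lit 0x100004) (nat_lit 0) (p (nat_lit 0x200004) (nat_lit 0) (p (nat_lit 0x380c2) (nat_lit 1) (p (nat_lit 0x3c4aa) (nat_lit 7) (p (nat_lit 0xd1) (nat_lit 1) (p (nat_lit 0x111) (nat_lit 1) (p (nat_lit 0x109) (nat_lit 0) (p (nat_lit 0x101) (nat_lit 0) (p (nat_lit 0x119) (nat_lit 0) (p (nat_lit 0xc1) (nat_lit 0) (p (nat_lit 0x81) (nat_lit 1) (p (nat_lit 0x41) (nat_lit 1) (p (nat_lit 0x8090887069a) (nat_lit 0) (p (nat_lit 0x7870806861a) (nat_lit 0) (p (nat_lit 0x800070786058a) (nat_lit 0) (p (nat_lit 0x787058502) (nat_lit 0) (p (nat_lit 0x586850482) (nat_lit 0) (p (nat_lit 0x160014) (nat_lit 0) (p (nat_lit 0x16000c) (nat_lit 0) (p (nat_lit 0x68612) (nat_lit 0) (p (nat_lit 0x50592)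 (nat_lit 0) (p (nat_lit 0x40512) (nat_lit 0) (p (nat_lit 0x50312) (nat_lit 0) (p (nat_lit 0x38292) (nat_lit 0) (p (nat_lit 0x28212) (nat_lit 0) (p (nat_lit 0x38112) (nat_lit 0) (p (nat_lit 0x20092) (nat_lit 0) (p (nat_lit 0x10012) (nat_lit 0) pn))))))))))))))))))))))))))))) :=
  Cl.node (nat_lit 0xc9) (nat_lit 2) (by decide +kernel) (ClAll.succ (ClAll.succ ClAll.zero n87) n88)

def n121 : Cl (O (nat_lit 1)) (R (nat_lit 14353))
    (p (nat_lit 0x119) (nat_lit 1) (p (nat_lit 0x100004) (nat_lit 0) (p (nat_lit 0x200004) (nat_lit 0) (p (nat_lit 0x380c2) (nat_lit 1) (p (nat_lit 0x3c4aa) (nat_lit 7) (p (nat_lit 0xd1) (nat_lit 1) (p (nat_lit 0xc9) (nat_lit 0) (p (nat_lit 0x109) (nat_lit 1) (p (nat_lit 0x101) (nat_lit 0) (p (nat_lit 0x119) (nat_lit 0) (p (nat_lit 0xc1) (nat_lit 0) (p (nat_lit 0x81) (nat_lit 1) (p (nat_lit 0x41) (nat_lit 1) (p (nat_lit 0x8090887069a) (nat_lit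 0) (p (nat_lit 0x7870806861a) (nat_lit 0) (p (nat_lit 0x800070786058a) (nat_lit 0) (p (nat_lit 0x787058502) (nat_lit 0) (p (nat_lit 0x586850482) (nat_lit 0) (p (nat_lit 0x160014) (nat_lit 0) (p (nat_lit 0x16000c) (nat_lit 0) (p (nat_lit 0x68612) (nat_lit 0) (p (nat_lit 0x50592) (nat_lit 0) (p (nat_lit 0x40512) (nat_lit 0) (p (nat_lit 0x50312) (nat_lit 0) (p (nat_lit 0x38292) (nat_lit 0) (p (nat_lit 0x28212) (nat_lit 0) (p (nat_lit 0x38112) (nat_lit 0) (p (nat_lit 0x20092) (nat_lit 0) (p (nat_lit 0x10012) (nat_lit 0) pn))))))))))))))))))))))))))))) :=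
  Cl.node (nat_lit 0xc1) (nat_lit 2) (by decide +kernel) (ClAll.succ (ClAll.succ ClAll.zero s1119) n89)

def n122 : Cl (O (nat_lit 1)) (R (nat_lit 14353))
    (p (nat_lit 0xb000c) (nat_lit 0) (p (nat_lit 0x100004) (nat_lit 0) (p (nat_lit 0xb0014) (nat_lit 0) (p (nat_lit 0x200004) (nat_lit 0) (p (nat_lit 0x380c2) (nat_lit 0) (p (nat_lit 0x3c4aa) (nat_lit 7) (p (nat_lit 0xd1) (nat_lit 1) (p (nat_lit 0xc9) (nat_lit 0) (p (nat_lit 0x101) (nat_lit 1) (p (nat_lit 0x119) (nat_lit 0) (p (nat_lit 0xc1) (nat_lit 0) (p (nat_lit 0x81) (nat_lit 1) (p (nat_lit 0x41) (nat_lit 1) (p (nat_lit 0x8090887069a) (nat_lit 0) (p (nat_lit 0x7870806861a) (nat_lit 0) (p (nat_lit 0x800070786058a) (nat_lit 0) (p (nat_lit 0x787058502) (nat_lit 0) (p (nat_lit 0x586850482) (nat_lit 0) (p (nat_lit 0x160014) (nat_lit 0) (p (nat_lit 0x16000c) (nat_lit 0) (p (nat_lit 0x68612) (nat_lit 0) (p (nat_lit 0x50592)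 (nat_lit 0) (p (nat_lit 0x40512) (nat_lit 0) (p (nat_lit 0x50312) (nat_lit 0) (p (nat_lit 0x38292) (nat_lit 0) (p (nat_lit 0x28212) (nat_lit 0) (p (nat_lit 0x38112) (nat_lit 0) (p (nat_lit 0x20092) (nat_lit 0) (p (nat_lit 0x10012) (nat_lit 0) pn))))))))))))))))))))))))))))) :=
  Cl.node (nat_lit 0xc1) (nat_lit 2) (by decide +kernel) (ClAll.succ (ClAll.succ ClAll.zero n90) s1169)

def n123 : Cl (O (nat_lit 1)) (R (nat_lit 14353))
    (p (nat_lit 0xc1) (nat_lit 0) (p (nat_lit 0xb000c) (nat_lit 0) (p (nat_lit 0x100004) (nat_lit 0) (p (nat_lit 0x200004) (nat_lit 0) (p (nat_lit 0x380c2) (nat_lit 1) (p (nat_lit 0x3c4aa) (nat_lit 7) (p (nat_lit 0xd1) (nat_lit 1) (p (nat_lit 0xc9) (nat_lit 0) (p (nat_lit 0x101) (nat_lit 1) (p (nat_lit 0x119) (nat_lit 0) (p (nat_lit 0xc1) (nat_lit 0) (p (nat_lit 0x81) (nat_lit 1) (p (nat_lit 0x41) (nat_lit 1) (p (nat_lit 0x8090887069a) (nat_lit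 0) (p (nat_lit 0x7870806861a) (nat_lit 0) (p (nat_lit 0x800070786058a) (nat_lit 0) (p (nat_lit 0x787058502) (nat_lit 0) (p (nat_lit 0x586850482) (nat_lit 0) (p (nat_lit 0x160014) (nat_lit 0) (p (nat_lit 0x16000c) (nat_lit 0) (p (nat_lit 0x68612) (nat_lit 0) (p (nat_lit 0x50592) (nat_lit 0) (p (nat_lit 0x40512) (nat_lit 0) (p (nat_lit 0x50312) (nat_lit 0) (p (nat_lit 0x38292) (nat_lit 0) (p (nat_lit 0x28212) (nat_lit 0) (p (nat_lit 0x38112) (nat_lit 0) (p (nat_lit 0x20092) (nat_lit 0) (p (nat_lit 0x10012) (nat_lit 0) pn))))))))))))))))))))))))))))) :=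
  Cl.node (nat_lit 0x3cc2a) (nat_lit 12) (by decide +kernel) (ClAll.succ (ClAll.succ (ClAll.succ (ClAll.succ (ClAll.succ (ClAll.succ (ClAll.succ (ClAll.succ (ClAll.succ (ClAll.succ (ClAll.succ (ClAll.succ ClAll.zero s1174) s1175) s1176) s1177) s1178) s1179) s1180) s1181) s1182) s1183) s1184) s1185)

def n124 : Cl (O (nat_lit 1)) (R (nat_lit 14353))
    (p (nat_lit 0x101) (nat_lit 0) (p (nat_lit 0xb000c) (nat_lit 0) (p (nat_lit 0x100004) (nat_lit 0) (p (nat_lit 0x200004) (nat_lit 0) (p (nat_lit 0x380c2) (nat_lit 1) (p (nat_lit 0x3c4aa) (nat_lit 7) (p (nat_lit 0x111) (nat_lit 1) (p (nat_lit 0x109) (nat_lit 0) (p (nat_lit 0xc9) (nat_lit 1) (p (nat_lit 0x119) (nat_lit 1) (p (nat_lit 0xc1) (nat_lit 0) (p (nat_lit 0x81) (nat_lit 1) (p (nat_lit 0x41) (nat_lit 1) (p (nat_lit 0x8090887069a) (nat_lit 0) (p (nat_lit 0x7870806861a) (nat_lit 0) (p (nat_lit 0x800070786058a) (nat_lit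 0) (p (nat_lit 0x787058502) (nat_lit 0) (p (nat_lit 0x586850482) (nat_lit 0) (p (nat_lit 0x160014) (nat_lit 0) (p (nat_lit 0x16000c) (nat_lit 0) (p (nat_lit 0x68612) (nat_lit 0) (p (nat_lit 0x50592) (nat_lit 0) (p (nat_lit 0x40512) (nat_lit 0) (p (nat_lit 0x50312) (nat_lit 0) (p (nat_lit 0x38292) (nat_lit 0) (p (nat_lit 0x28212) (nat_lit 0) (p (nat_lit 0x38112) (nat_lit 0) (p (nat_lit 0x20092) (nat_lit 0) (p (nat_lit 0x10012) (nat_lit 0) pn))))))))))))))))))))))))))))) :=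
  Cl.node (nat_lit 0x119) (nat_lit 2) (by decide +kernel) (ClAll.succ (ClAll.succ ClAll.zero s1237) s1238)

def n125 : Cl (O (nat_lit 1)) (R (nat_lit 14353))
    (p (nat_lit 0x100004) (nat_lit 0) (p (nat_lit 0x200004) (nat_lit 0) (p (nat_lit 0x380c2) (nat_lit 1) (p (nat_lit 0x444aa) (nat_lit 7) (p (nat_lit 0x81) (nat_lit 1) (p (nat_lit 0xc9) (nat_lit 1) (p (nat_lit 0x109) (nat_lit 1) (p (nat_lit 0x101) (nat_lit 0) (p (nat_lit 0x119) (nat_lit 0) (p (nat_lit 0xd1) (nat_lit 0) (p (nat_lit 0x89) (nat_lit 0) (p (nat_lit 0x41) (nat_lit 0) (p (nat_lit 0x8090887069a) (nat_lit 0) (p (nat_lit 0x7870806861a) (nat_lit 0) (p (nat_lit 0x800070786058a) (nat_lit 0) (p (nat_lit 0x787058502) (nat_lit 0) (p (nat_lit 0x586850482) (nat_lit 0) (p (nat_lit 0x160014) (nat_lit 0) (p (nat_lit 0x16000c) (nat_lit 0) (p (nat_lit 0x68612) (nat_lit 0) (p (nat_lit 0x50592) (nat_lit 0) (p (nat_lit 0x40512)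 (nat_lit 0) (p (nat_lit 0x50312) (nat_lit 0) (p (nat_lit 0x38292) (nat_lit 0) (p (nat_lit 0x28212) (nat_lit 0) (p (nat_lit 0x38112) (nat_lit 0) (p (nat_lit 0x20092) (nat_lit 0) (p (nat_lit 0x10012) (nat_lit 0) pn)))))))))))))))))))))))))))) :=
  Cl.node (nat_lit 0xb000c) (nat_lit 2) (by decide +kernel) (ClAll.succ (ClAll.succ ClAll.zero n91) s15)

def n126 : Cl (O (nat_lit 1)) (R (nat_lit 14353))
    (p (nat_lit 0x200004) (nat_lit 0) (p (nat_lit 0xc1) (nat_lit 1) (p (nat_lit 0x380c2) (nat_lit 0) (p (nat_lit 0x4c42a) (nat_lit 2) (p (nat_lit 0x111) (nat_lit 0) (p (nat_lit 0xc9) (nat_lit 0) (p (nat_lit 0x81) (nat_lit 0) (p (nat_lit 0x101) (nat_lit 1) (p (nat_lit 0x119) (nat_lit 0) (p (nat_lit 0xd1) (nat_lit 0) (p (nat_lit 0x89) (nat_lit 0) (p (nat_lit 0x41) (nat_lit 0) (p (nat_lit 0x8090887069a) (nat_lit 0) (p (nat_lit 0x7870806861a) (nat_lit 0) (p (nat_lit 0x800070786058a)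 (nat_lit 0) (p (nat_lit 0x787058502) (nat_lit 0) (p (nat_lit 0x586850482) (nat_lit 0) (p (nat_lit 0x160014) (nat_lit 0) (p (nat_lit 0x16000c) (nat_lit 0) (p (nat_lit 0x68612) (nat_lit 0) (p (nat_lit 0x50592) (nat_lit 0) (p (nat_lit 0x40512) (nat_lit 0) (p (nat_lit 0x50312) (nat_lit 0) (p (nat_lit 0x38292) (nat_lit 0) (p (nat_lit 0x28212) (nat_lit 0) (p (nat_lit 0x38112) (nat_lit 0) (p (nat_lit 0x20092) (nat_lit 0) (p (nat_lit 0x10012) (nat_lit 0) pn)))))))))))))))))))))))))))) :=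
  Cl.node (nat_lit 0x444aa) (nat_lit 12) (by decide +kernel) (ClAll.succ (ClAll.succ (ClAll.succ (ClAll.succ (ClAll.succ (ClAll.succ (ClAll.succ (ClAll.succ (ClAll.succ (ClAll.succ (ClAll.succ (ClAll.succ ClAll.zero s25) s26) s27) s28) s29) s30) s31) n92) s47) s48) s49) s50)

def n127 : Cl (O (nat_lit 1)) (R (nat_lit 14353))
    (p (nat_lit 0x100004) (nat_lit 0) (p (nat_lit 0x200004) (nat_lit 0) (p (nat_lit 0x380c2) (nat_lit 0) (p (nat_lit 0x444aa) (nat_lit 7) (p (nat_lit 0x111) (nat_lit 0) (p (nat_lit 0xc9) (nat_lit 1) (p (nat_lit 0x81) (nat_lit 0) (p (nat_lit 0x101) (nat_lit 1) (p (nat_lit 0x119) (nat_lit 0) (p (nat_lit 0xd1) (nat_lit 0) (p (nat_lit 0x89) (nat_lit 0) (p (nat_lit 0x41) (nat_lit 0) (p (nat_lit 0x8090887069a) (nat_lit 0) (p (nat_lit 0x7870806861a) (nat_lit 0) (p (nat_lit 0x800070786058a) (nat_lit 0) (p (nat_lit 0x787058502) (nat_lit 0) (p (nat_lit 0x586850482)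 (nat_lit 0) (p (nat_lit 0x160014) (nat_lit 0) (p (nat_lit 0x16000c) (nat_lit 0) (p (nat_lit 0x68612) (nat_lit 0) (p (nat_lit 0x50592) (nat_lit 0) (p (nat_lit 0x40512) (nat_lit 0) (p (nat_lit 0x50312) (nat_lit 0) (p (nat_lit 0x38292) (nat_lit 0) (p (nat_lit 0x28212) (nat_lit 0) (p (nat_lit 0x38112) (nat_lit 0) (p (nat_lit 0x20092) (nat_lit 0) (p (nat_lit 0x10012) (nat_lit 0) pn)))))))))))))))))))))))))))) :=
  Cl.node (nat_lit 0x89) (nat_lit 2) (by decide +kernel) (ClAll.succ (ClAll.succ ClAll.zero s81) n93)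

def n128 : Cl (O (nat_lit 1)) (R (nat_lit 14353))
    (p (nat_lit 0x100004) (nat_lit 0) (p (nat_lit 0x200004) (nat_lit 0) (p (nat_lit 0x380c2) (nat_lit 1) (p (nat_lit 0x444aa) (nat_lit 7) (p (nat_lit 0x111) (nat_lit 0) (p (nat_lit 0xc9) (nat_lit 1) (p (nat_lit 0x81) (nat_lit 0) (p (nat_lit 0x101) (nat_lit 1) (p (nat_lit 0x119) (nat_lit 0) (p (nat_lit 0xd1) (nat_lit 0) (p (nat_lit 0x89) (nat_lit 0) (p (nat_lit 0x41) (nat_lit 0) (p (nat_lit 0x8090887069a) (nat_lit 0) (p (nat_lit 0x7870806861a) (nat_lit 0) (p (nat_lit 0x800070786058a) (nat_lit 0) (p (nat_lit 0x787058502) (nat_lit 0) (p (nat_lit 0x586850482) (nat_lit 0) (p (nat_lit 0x160014) (nat_lit 0) (p (nat_lit 0x16000c) (nat_lit 0) (p (nat_lit 0x68612) (nat_lit 0) (p (nat_lit 0x50592) (nat_lit 0) (p (nat_lit 0x40512) (nat_lit 0) (p (nat_lit 0x50312) (nat_lit 0) (p (nat_lit 0x38292) (nat_lit 0) (p (nat_lit 0x28212)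 (nat_lit 0) (p (nat_lit 0x38112) (nat_lit 0) (p (nat_lit 0x20092) (nat_lit 0) (p (nat_lit 0x10012) (nat_lit 0) pn)))))))))))))))))))))))))))) :=
  Cl.node (nat_lit 0x89) (nat_lit 2) (by decide +kernel) (ClAll.succ (ClAll.succ ClAll.zero n94) n95)

def n129 : Cl (O (nat_lit 1)) (R (nat_lit 14353))
    (p (nat_lit 0xd1) (nat_lit 1) (p (nat_lit 0x200004) (nat_lit 0) (p (nat_lit 0x380c2) (nat_lit 0) (p (nat_lit 0x4c42a) (nat_lit 2) (p (nat_lit 0xc9) (nat_lit 0) (p (nat_lit 0xc1) (nat_lit 0) (p (nat_lit 0x81) (nat_lit 1) (p (nat_lit 0x101) (nat_lit 1) (p (nat_lit 0x119) (nat_lit 0) (p (nat_lit 0xd1) (nat_lit 0) (p (nat_lit 0x89) (nat_lit 0) (p (nat_lit 0x41) (nat_lit 0) (p (nat_lit 0x8090887069a) (nat_lit 0) (p (nat_lit 0x7870806861a) (nat_lit 0) (p (nat_lit 0x800070786058a) (nat_lit 0) (p (nat_lit 0x787058502) (nat_lit 0) (p (nat_lit 0x586850482) (nat_lit 0) (p (nat_lit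 0x160014) (nat_lit 0) (p (nat_lit 0x16000c) (nat_lit 0) (p (nat_lit 0x68612) (nat_lit 0) (p (nat_lit 0x50592) (nat_lit 0) (p (nat_lit 0x40512) (nat_lit 0) (p (nat_lit 0x50312) (nat_lit 0) (p (nat_lit 0x38292) (nat_lit 0) (p (nat_lit 0x28212) (nat_lit 0) (p (nat_lit 0x38112) (nat_lit 0) (p (nat_lit 0x20092) (nat_lit 0) (p (nat_lit 0x10012) (nat_lit 0) pn)))))))))))))))))))))))))))) :=
  Cl.node (nat_lit 0x444aa) (nat_lit 12) (by decide +kernel) (ClAll.succ (ClAll.succ (ClAll.succ (ClAll.succ (ClAll.succ (ClAll.succ (ClAll.succ (ClAll.succ (ClAll.succ (ClAll.succ (ClAll.succ (ClAll.succ ClAll.zero s129) s130) s131) s132) s133) s134) s135) n96) s141) s142) s143) s144)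

def n130 : Cl (O (nat_lit 1)) (R (nat_lit 14353))
    (p (nat_lit 0xb000c) (nat_lit 0) (p (nat_lit 0xd1) (nat_lit 1) (p (nat_lit 0x380c2) (nat_lit 0) (p (nat_lit 0x4c42a) (nat_lit 8) (p (nat_lit 0xc9) (nat_lit 0) (p (nat_lit 0xc1) (nat_lit 0) (p (nat_lit 0x81) (nat_lit 1) (p (nat_lit 0x101) (nat_lit 1) (p (nat_lit 0x119) (nat_lit 0) (p (nat_lit 0xd1) (nat_lit 0) (p (nat_lit 0x89) (nat_lit 0) (p (nat_lit 0x41) (nat_lit 0) (p (nat_lit 0x8090887069a) (nat_lit 0) (p (nat_lit 0x7870806861a) (nat_lit 0) (p (nat_lit 0x800070786058a) (nat_lit 0) (p (nat_lit 0x787058502) (nat_lit 0) (p (nat_lit 0x586850482) (nat_lit 0) (p (nat_lit 0x160014) (nat_lit 0) (p (nat_lit 0x16000c) (nat_lit 0) (p (nat_lit 0x68612) (nat_lit 0) (p (nat_lit 0x50592) (nat_lit 0) (p (nat_lit 0x40512) (nat_lit 0) (p (nat_lit 0x50312) (nat_lit 0) (p (nat_lit 0x38292) (nat_lit 0) (p (nat_lit 0x28212) (nat_lit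 0) (p (nat_lit 0x38112) (nat_lit 0) (p (nat_lit 0x20092) (nat_lit 0) (p (nat_lit 0x10012) (nat_lit 0) pn)))))))))))))))))))))))))))) :=
  Cl.node (nat_lit 0x111) (nat_lit 2) (by decide +kernel) (ClAll.succ (ClAll.succ ClAll.zero s153) n97)

def n131 : Cl (O (nat_lit 1)) (R (nat_lit 14353))
    (p (nat_lit 0x100004) (nat_lit 0) (p (nat_lit 0x200004) (nat_lit 0) (p (nat_lit 0x380c2) (nat_lit 1) (p (nat_lit 0x444aa) (nat_lit 7) (p (nat_lit 0xc9) (nat_lit 1) (p (nat_lit 0xc1) (nat_lit 0) (p (nat_lit 0x81) (nat_lit 1) (p (nat_lit 0x101) (nat_lit 1) (p (nat_lit 0x119) (nat_lit 0) (p (nat_lit 0xd1) (nat_lit 0) (p (nat_lit 0x89) (nat_lit 0) (p (nat_lit 0x41) (nat_lit 0) (p (nat_lit 0x8090887069a) (nat_lit 0) (p (nat_lit 0x7870806861a) (nat_lit 0) (p (nat_lit 0x800070786058a) (nat_lit 0) (p (nat_lit 0x787058502) (nat_lit 0) (p (nat_lit 0x586850482) (nat_lit 0) (p (nat_lit 0x160014)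 (nat_lit 0) (p (nat_lit 0x16000c) (nat_lit 0) (p (nat_lit 0x68612) (nat_lit 0) (p (nat_lit 0x50592) (nat_lit 0) (p (nat_lit 0x40512) (nat_lit 0) (p (nat_lit 0x50312) (nat_lit 0) (p (nat_lit 0x38292) (nat_lit 0) (p (nat_lit 0x28212) (nat_lit 0) (p (nat_lit 0x38112) (nat_lit 0) (p (nat_lit 0x20092) (nat_lit 0) (p (nat_lit 0x10012) (nat_lit 0) pn)))))))))))))))))))))))))))) :=
  Cl.node (nat_lit 0x119) (nat_lit 2) (by decide +kernel) (ClAll.succ (ClAll.succ ClAll.zero s172) s173)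

def n132 : Cl (O (nat_lit 1)) (R (nat_lit 14353))
    (p (nat_lit 0x100004) (nat_lit 0) (p (nat_lit 0x200004) (nat_lit 0) (p (nat_lit 0x380c2) (nat_lit 0) (p (nat_lit 0x44c2a) (nat_lit 0) (p (nat_lit 0x109) (nat_lit 0) (p (nat_lit 0x101) (nat_lit 0) (p (nat_lit 0x81) (nat_lit 1) (p (nat_lit 0xc1) (nat_lit 1) (p (nat_lit 0x119) (nat_lit 1) (p (nat_lit 0xd1) (nat_lit 0) (p (nat_lit 0x89) (nat_lit 0) (p (nat_lit 0x41) (nat_lit 0) (p (nat_lit 0x8090887069a) (nat_lit 0) (p (nat_lit 0x7870806861a) (nat_lit 0) (p (nat_lit 0x800070786058a) (nat_lit 0) (p (nat_lit 0x787058502) (nat_lit 0) (p (nat_lit 0x586850482) (nat_lit 0) (p (nat_lit 0x160014) (nat_lit 0) (p (nat_lit 0x16000c) (nat_lit 0) (p (nat_lit 0x68612) (nat_lit 0) (p (nat_lit 0x50592) (nat_lit 0) (p (nat_lit 0x40512) (nat_lit 0) (p (nat_lit 0x50312) (nat_lit 0) (p (nat_lit 0x38292) (nat_lit 0) (p (nat_lit 0x28212)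 (nat_lit 0) (p (nat_lit 0x38112) (nat_lit 0) (p (nat_lit 0x20092) (nat_lit 0) (p (nat_lit 0x10012) (nat_lit 0) pn)))))))))))))))))))))))))))) :=
  Cl.node (nat_lit 0x101) (nat_lit 2) (by decide +kernel) (ClAll.succ (ClAll.succ ClAll.zero s243) s244)

def n133 : Cl (O (nat_lit 1)) (R (nat_lit 14353))
    (p (nat_lit 0x100004) (nat_lit 1) (p (nat_lit 0x200004) (nat_lit 0) (p (nat_lit 0x380c2) (nat_lit 0) (p (nat_lit 0x44c2a) (nat_lit 0) (p (nat_lit 0x109) (nat_lit 0) (p (nat_lit 0x101) (nat_lit 0) (p (nat_lit 0x81) (nat_lit 1) (p (nat_lit 0xc1) (nat_lit 1) (p (nat_lit 0x119) (nat_lit 1) (p (nat_lit 0xd1) (nat_lit 0) (p (nat_lit 0x89) (nat_lit 0) (p (nat_lit 0x41) (nat_lit 0) (p (nat_lit 0x8090887069a) (nat_lit 0) (p (nat_lit 0x7870806861a) (nat_lit 0) (p (nat_lit 0x800070786058a) (nat_lit 0) (p (nat_lit 0x787058502) (nat_lit 0) (p (nat_lit 0x586850482) (nat_lit 0) (p (nat_lit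 0x160014) (nat_lit 0) (p (nat_lit 0x16000c) (nat_lit 0) (p (nat_lit 0x68612) (nat_lit 0) (p (nat_lit 0x50592) (nat_lit 0) (p (nat_lit 0x40512) (nat_lit 0) (p (nat_lit 0x50312) (nat_lit 0) (p (nat_lit 0x38292) (nat_lit 0) (p (nat_lit 0x28212) (nat_lit 0) (p (nat_lit 0x38112) (nat_lit 0) (p (nat_lit 0x20092) (nat_lit 0) (p (nat_lit 0x10012) (nat_lit 0) pn)))))))))))))))))))))))))))) :=
  Cl.node (nat_lit 0x10800c) (nat_lit 2) (by decide +kernel) (ClAll.succ (ClAll.succ ClAll.zero n98) s258)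

def n134 : Cl (O (nat_lit 1)) (R (nat_lit 14353))
    (p (nat_lit 0x100004) (nat_lit 0) (p (nat_lit 0x200004) (nat_lit 0) (p (nat_lit 0x380c2) (nat_lit 1) (p (nat_lit 0x44c2a) (nat_lit 0) (p (nat_lit 0x109) (nat_lit 0) (p (nat_lit 0x101) (nat_lit 0) (p (nat_lit 0x81) (nat_lit 1) (p (nat_lit 0xc1) (nat_lit 1) (p (nat_lit 0x119) (nat_lit 1) (p (nat_lit 0xd1) (nat_lit 0) (p (nat_lit 0x89) (nat_lit 0) (p (nat_lit 0x41) (nat_lit 0) (p (nat_lit 0x8090887069a) (nat_lit 0) (p (nat_lit 0x7870806861a) (nat_lit 0) (p (nat_lit 0x800070786058a) (nat_lit 0) (p (nat_lit 0x787058502) (nat_lit 0) (p (nat_lit 0x586850482) (nat_lit 0) (p (nat_lit 0x160014) (nat_lit 0) (p (nat_lit 0x16000c) (nat_lit 0) (p (nat_lit 0x68612) (nat_lit 0) (p (nat_lit 0x50592) (nat_lit 0) (p (nat_lit 0x40512) (nat_lit 0) (p (nat_lit 0x50312) (nat_lit 0) (p (nat_lit 0x38292) (nat_lit 0) (p (nat_lit 0x28212)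 (nat_lit 0) (p (nat_lit 0x38112) (nat_lit 0) (p (nat_lit 0x20092) (nat_lit 0) (p (nat_lit 0x10012) (nat_lit 0) pn)))))))))))))))))))))))))))) :=
  Cl.node (nat_lit 0x101) (nat_lit 2) (by decide +kernel) (ClAll.succ (ClAll.succ ClAll.zero s260) s261)

def n135 : Cl (O (nat_lit 1)) (R (nat_lit 14353))
    (p (nat_lit 0x100004) (nat_lit 0) (p (nat_lit 0x200004) (nat_lit 0) (p (nat_lit 0x380c2) (nat_lit 1) (p (nat_lit 0x444aa) (nat_lit 7) (p (nat_lit 0x109) (nat_lit 1) (p (nat_lit 0x101) (nat_lit 0) (p (nat_lit 0x81) (nat_lit 1) (p (nat_lit 0xc1) (nat_lit 1) (p (nat_lit 0x119) (nat_lit 1) (p (nat_lit 0xd1) (nat_lit 0) (p (nat_lit 0x89) (nat_lit 0) (p (nat_lit 0x41) (nat_lit 0) (p (nat_lit 0x8090887069a) (nat_lit 0) (p (nat_lit 0x7870806861a) (nat_lit 0) (p (nat_lit 0x800070786058a) (nat_lit 0) (p (nat_lit 0x787058502) (nat_lit 0) (p (nat_lit 0x586850482) (nat_lit 0) (p (nat_lit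 0x160014) (nat_lit 0) (p (nat_lit 0x16000c) (nat_lit 0) (p (nat_lit 0x68612) (nat_lit 0) (p (nat_lit 0x50592) (nat_lit 0) (p (nat_lit 0x40512) (nat_lit 0) (p (nat_lit 0x50312) (nat_lit 0) (p (nat_lit 0x38292) (nat_lit 0) (p (nat_lit 0x28212) (nat_lit 0) (p (nat_lit 0x38112) (nat_lit 0) (p (nat_lit 0x20092) (nat_lit 0) (p (nat_lit 0x10012) (nat_lit 0) pn)))))))))))))))))))))))))))) :=
  Cl.node (nat_lit 0x119) (nat_lit 2) (by decide +kernel) (ClAll.succ (ClAll.succ ClAll.zero n99) s297)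

def n136 : Cl (O (nat_lit 1)) (R (nat_lit 14353))
    (p (nat_lit 0x100004) (nat_lit 0) (p (nat_lit 0x380c2) (nat_lit 0) (p (nat_lit 0x4c42a) (nat_lit 2) (p (nat_lit 0x109) (nat_lit 0) (p (nat_lit 0x200004) (nat_lit 0) (p (nat_lit 0x119) (nat_lit 0) (p (nat_lit 0x81) (nat_lit 0) (p (nat_lit 0x101) (nat_lit 1) (p (nat_lit 0x111) (nat_lit 0) (p (nat_lit 0xd1) (nat_lit 1) (p (nat_lit 0x89) (nat_lit 0) (p (nat_lit 0x41) (nat_lit 0) (p (nat_lit 0x8090887069a) (nat_lit 0) (p (nat_lit 0x7870806861a) (nat_lit 0) (p (nat_lit 0x800070786058a) (nat_lit 0) (p (nat_lit 0x787058502) (nat_lit 0) (p (nat_lit 0x586850482) (nat_lit 0) (p (nat_lit 0x160014) (nat_lit 0) (p (nat_lit 0x16000c) (nat_lit 0) (p (nat_lit 0x68612) (nat_lit 0) (p (nat_lit 0x50592) (nat_lit 0) (p (nat_lit 0x40512) (nat_lit 0) (p (nat_lit 0x50312) (nat_lit 0) (p (nat_lit 0x38292) (nat_lit 0) (p (nat_lit 0x28212)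 (nat_lit 0) (p (nat_lit 0x38112) (nat_lit 0) (p (nat_lit 0x20092) (nat_lit 0) (p (nat_lit 0x10012) (nat_lit 0) pn)))))))))))))))))))))))))))) :=
  Cl.node (nat_lit 0xb0014) (nat_lit 2) (by decide +kernel) (ClAll.succ (ClAll.succ ClAll.zero n100) s340)

def n137 : Cl (O (nat_lit 1)) (R (nat_lit 14353))
    (p (nat_lit 0xc9) (nat_lit 0) (p (nat_lit 0x200004) (nat_lit 0) (p (nat_lit 0x380c2) (nat_lit 1) (p (nat_lit 0x444aa) (nat_lit 7) (p (nat_lit 0x119) (nat_lit 0) (p (nat_lit 0xc1) (nat_lit 0) (p (nat_lit 0x81) (nat_lit 1) (p (nat_lit 0x101) (nat_lit 1) (p (nat_lit 0x111) (nat_lit 0) (p (nat_lit 0xd1) (nat_lit 1) (p (nat_lit 0x89) (nat_lit 0) (p (nat_lit 0x41) (nat_lit 0) (p (nat_lit 0x8090887069a) (nat_lit 0) (p (nat_lit 0x7870806861a) (nat_lit 0) (p (nat_lit 0x800070786058a) (nat_lit 0) (p (nat_lit 0x787058502) (nat_lit 0) (p (nat_lit 0x586850482) (nat_lit 0) (p (nat_lit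 0x160014) (nat_lit 0) (p (nat_lit 0x16000c) (nat_lit 0) (p (nat_lit 0x68612) (nat_lit 0) (p (nat_lit 0x50592) (nat_lit 0) (p (nat_lit 0x40512) (nat_lit 0) (p (nat_lit 0x50312) (nat_lit 0) (p (nat_lit 0x38292) (nat_lit 0) (p (nat_lit 0x28212) (nat_lit 0) (p (nat_lit 0x38112) (nat_lit 0) (p (nat_lit 0x20092) (nat_lit 0) (p (nat_lit 0x10012) (nat_lit 0) pn)))))))))))))))))))))))))))) :=
  Cl.node (nat_lit 0x119) (nat_lit 2) (by decide +kernel) (ClAll.succ (ClAll.succ ClAll.zero s373) s374)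

def n138 : Cl (O (nat_lit 1)) (R (nat_lit 14353))
    (p (nat_lit 0x100004) (nat_lit 0) (p (nat_lit 0x200004) (nat_lit 0) (p (nat_lit 0x380c2) (nat_lit 0) (p (nat_lit 0x444aa) (nat_lit 7) (p (nat_lit 0xd1) (nat_lit 1) (p (nat_lit 0x111) (nat_lit 1) (p (nat_lit 0x109) (nat_lit 0) (p (nat_lit 0x101) (nat_lit 0) (p (nat_lit 0x119) (nat_lit 0) (p (nat_lit 0xc9) (nat_lit 0) (p (nat_lit 0x89) (nat_lit 1) (p (nat_lit 0x41) (nat_lit 0) (p (nat_lit 0x8090887069a) (nat_lit 0) (p (nat_lit 0x7870806861a) (nat_lit 0) (p (nat_lit 0x800070786058a) (nat_lit 0) (p (nat_lit 0x787058502) (nat_lit 0) (p (nat_lit 0x586850482) (nat_lit 0) (p (nat_lit 0x160014) (nat_lit 0) (p (nat_lit 0x16000c) (nat_lit 0) (p (nat_lit 0x68612) (nat_lit 0) (p (nat_lit 0x50592) (nat_lit 0) (p (nat_lit 0x40512) (nat_lit 0) (p (nat_lit 0x50312) (nat_lit 0) (p (nat_lit 0x38292) (nat_lit 0) (p (nat_lit 0x28212)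 (nat_lit 0) (p (nat_lit 0x38112) (nat_lit 0) (p (nat_lit 0x20092) (nat_lit 0) (p (nat_lit 0x10012) (nat_lit 0) pn)))))))))))))))))))))))))))) :=
  Cl.node (nat_lit 0xb000c) (nat_lit 2) (by decide +kernel) (ClAll.succ (ClAll.succ ClAll.zero n101) s432)

def n139 : Cl (O (nat_lit 1)) (R (nat_lit 14353))
    (p (nat_lit 0x100004) (nat_lit 0) (p (nat_lit 0x200004) (nat_lit 0) (p (nat_lit 0x380c2) (nat_lit 1) (p (nat_lit 0x444aa) (nat_lit 7) (p (nat_lit 0xd1) (nat_lit 1) (p (nat_lit 0x111) (nat_lit 1) (p (nat_lit 0x109) (nat_lit 0) (p (nat_lit 0x101) (nat_lit 0) (p (nat_lit 0x119) (nat_lit 0) (p (nat_lit 0xc9) (nat_lit 0) (p (nat_lit 0x89) (nat_lit 1) (p (nat_lit 0x41) (nat_lit 0) (p (nat_lit 0x8090887069a) (nat_lit 0) (p (nat_lit 0x7870806861a) (nat_lit 0) (p (nat_lit 0x800070786058a) (nat_lit 0) (p (nat_lit 0x787058502) (nat_lit 0) (p (nat_lit 0x586850482) (nat_lit 0) (p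 (nat_lit 0x160014) (nat_lit 0) (p (nat_lit 0x16000c) (nat_lit 0) (p (nat_lit 0x68612) (nat_lit 0) (p (nat_lit 0x50592) (nat_lit 0) (p (nat_lit 0x40512) (nat_lit 0) (p (nat_lit 0x50312) (nat_lit 0) (p (nat_lit 0x38292) (nat_lit 0) (p (nat_lit 0x28212) (nat_lit 0) (p (nat_lit 0x38112) (nat_lit 0) (p (nat_lit 0x20092) (nat_lit 0) (p (nat_lit 0x10012) (nat_lit 0) pn)))))))))))))))))))))))))))) :=
  Cl.node (nat_lit 0xb000c) (nat_lit 2) (by decide +kernel) (ClAll.succ (ClAll.succ ClAll.zero n102) n103)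

def n140 : Cl (O (nat_lit 1)) (R (nat_lit 14353))
    (p (nat_lit 0xb000c) (nat_lit 0) (p (nat_lit 0x100004) (nat_lit 0) (p (nat_lit 0x200004) (nat_lit 0) (p (nat_lit 0x380c2) (nat_lit 0) (p (nat_lit 0x444aa) (nat_lit 7) (p (nat_lit 0xd1) (nat_lit 1) (p (nat_lit 0x109) (nat_lit 1) (p (nat_lit 0x101) (nat_lit 0) (p (nat_lit 0x119) (nat_lit 0) (p (nat_lit 0xc9) (nat_lit 0) (p (nat_lit 0x89) (nat_lit 1) (p (nat_lit 0x41) (nat_lit 0) (p (nat_lit 0x8090887069a) (nat_lit 0) (p (nat_lit 0x7870806861a) (nat_lit 0) (p (nat_lit 0x800070786058a) (nat_lit 0) (p (nat_lit 0x787058502) (nat_lit 0) (p (nat_lit 0x586850482) (nat_lit 0) (p (nat_lit 0x160014) (nat_lit 0) (p (nat_lit 0x16000c) (nat_lit 0) (p (nat_lit 0x68612) (nat_lit 0) (p (nat_lit 0x50592) (nat_lit 0) (p (nat_lit 0x40512) (nat_lit 0) (p (nat_lit 0x50312) (nat_lit 0) (p (nat_lit 0x38292) (nat_lit 0) (p (nat_lit 0x28212)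 (nat_lit 0) (p (nat_lit 0x38112) (nat_lit 0) (p (nat_lit 0x20092) (nat_lit 0) (p (nat_lit 0x10012) (nat_lit 0) pn)))))))))))))))))))))))))))) :=
  Cl.node (nat_lit 0xc1) (nat_lit 2) (by decide +kernel) (ClAll.succ (ClAll.succ ClAll.zero n104) s482)

def n141 : Cl (O (nat_lit 1)) (R (nat_lit 14353))
    (p (nat_lit 0xc1) (nat_lit 0) (p (nat_lit 0x100004) (nat_lit 0) (p (nat_lit 0x200004) (nat_lit 0) (p (nat_lit 0x380c2) (nat_lit 1) (p (nat_lit 0x444aa) (nat_lit 7) (p (nat_lit 0xd1) (nat_lit 1) (p (nat_lit 0x109) (nat_lit 1) (p (nat_lit 0x101) (nat_lit 0) (p (nat_lit 0x119) (nat_lit 0) (p (nat_lit 0xc9) (nat_lit 0) (p (nat_lit 0x89) (nat_lit 1) (p (nat_lit 0x41) (nat_lit 0) (p (nat_lit 0x8090887069a) (nat_lit 0) (p (nat_lit 0x7870806861a) (nat_lit 0) (p (nat_lit 0x800070786058a) (nat_lit 0) (p (nat_lit 0x787058502) (nat_lit 0) (p (nat_lit 0x586850482) (nat_lit 0) (p (nat_lit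 0x160014) (nat_lit 0) (p (nat_lit 0x16000c) (nat_lit 0) (p (nat_lit 0x68612) (nat_lit 0) (p (nat_lit 0x50592) (nat_lit 0) (p (nat_lit 0x40512) (nat_lit 0) (p (nat_lit 0x50312) (nat_lit 0) (p (nat_lit 0x38292) (nat_lit 0) (p (nat_lit 0x28212) (nat_lit 0) (p (nat_lit 0x38112) (nat_lit 0) (p (nat_lit 0x20092) (nat_lit 0) (p (nat_lit 0x10012) (nat_lit 0) pn)))))))))))))))))))))))))))) :=
  Cl.node (nat_lit 0x80004) (nat_lit 2) (by decide +kernel) (ClAll.succ (ClAll.succ ClAll.zero n105) n106)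

def n142 : Cl (O (nat_lit 1)) (R (nat_lit 14353))
    (p (nat_lit 0x100004) (nat_lit 0) (p (nat_lit 0xc9) (nat_lit 0) (p (nat_lit 0x200004) (nat_lit 0) (p (nat_lit 0x380c2) (nat_lit 1) (p (nat_lit 0x444aa) (nat_lit 7) (p (nat_lit 0xd1) (nat_lit 1) (p (nat_lit 0xc1) (nat_lit 0) (p (nat_lit 0x101) (nat_lit 1) (p (nat_lit 0x119) (nat_lit 0) (p (nat_lit 0xc9) (nat_lit 0) (p (nat_lit 0x89) (nat_lit 1) (p (nat_lit 0x41) (nat_lit 0) (p (nat_lit 0x8090887069a) (nat_lit 0) (p (nat_lit 0x7870806861a) (nat_lit 0) (p (nat_lit 0x800070786058a) (nat_lit 0) (p (nat_lit 0x787058502) (nat_lit 0) (p (nat_lit 0x586850482) (nat_lit 0) (p (nat_lit 0x160014) (nat_lit 0) (p (nat_lit 0x16000c) (nat_lit 0) (p (nat_lit 0x68612) (nat_lit 0) (p (nat_lit 0x50592) (nat_lit 0) (p (nat_lit 0x40512) (nat_lit 0) (p (nat_lit 0x50312) (nat_lit 0) (p (nat_lit 0x38292) (nat_lit 0) (p (nat_lit 0x28212) (nat_lit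 0) (p (nat_lit 0x38112) (nat_lit 0) (p (nat_lit 0x20092) (nat_lit 0) (p (nat_lit 0x10012) (nat_lit 0) pn)))))))))))))))))))))))))))) :=
  Cl.node (nat_lit 0x119) (nat_lit 2) (by decide +kernel) (ClAll.succ (ClAll.succ ClAll.zero s564) n107)

def n143 : Cl (O (nat_lit 1)) (R (nat_lit 14353))
    (p (nat_lit 0x10800c) (nat_lit 0) (p (nat_lit 0x100004) (nat_lit 1) (p (nat_lit 0x200004) (nat_lit 0) (p (nat_lit 0x380c2) (nat_lit 1) (p (nat_lit 0x444aa) (nat_lit 7) (p (nat_lit 0x111) (nat_lit 1) (p (nat_lit 0xd1) (nat_lit 1) (p (nat_lit 0xc1) (nat_lit 0) (p (nat_lit 0x119) (nat_lit 1) (p (nat_lit 0xc9) (nat_lit 0) (p (nat_lit 0x89) (nat_lit 1) (p (nat_lit 0x41) (nat_lit 0) (p (nat_lit 0x8090887069a) (nat_lit 0) (p (nat_lit 0x7870806861a) (nat_lit 0) (p (nat_lit 0x800070786058a) (nat_lit 0) (p (nat_lit 0x787058502) (nat_lit 0) (p (nat_lit 0x586850482) (nat_lit 0) (p (nat_lit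 0x160014) (nat_lit 0) (p (nat_lit 0x16000c) (nat_lit 0) (p (nat_lit 0x68612) (nat_lit 0) (p (nat_lit 0x50592) (nat_lit 0) (p (nat_lit 0x40512) (nat_lit 0) (p (nat_lit 0x50312) (nat_lit 0) (p (nat_lit 0x38292) (nat_lit 0) (p (nat_lit 0x28212) (nat_lit 0) (p (nat_lit 0x38112) (nat_lit 0) (p (nat_lit 0x20092) (nat_lit 0) (p (nat_lit 0x10012) (nat_lit 0) pn)))))))))))))))))))))))))))) :=
  Cl.node (nat_lit 0x108014) (nat_lit 2) (by decide +kernel) (ClAll.succ (ClAll.succ ClAll.zero n108) s600)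

def n144 : Cl (O (nat_lit 1)) (R (nat_lit 14353))
    (p (nat_lit 0x41) (nat_lit 1) (p (nat_lit 0xb0014) (nat_lit 0) (p (nat_lit 0x200004) (nat_lit 0) (p (nat_lit 0x380c2) (nat_lit 0) (p (nat_lit 0x44c2a) (nat_lit 0) (p (nat_lit 0x111) (nat_lit 0) (p (nat_lit 0x101) (nat_lit 0) (p (nat_lit 0xc1) (nat_lit 1) (p (nat_lit 0x119) (nat_lit 1) (p (nat_lit 0xc9) (nat_lit 0) (p (nat_lit 0x89) (nat_lit 1) (p (nat_lit 0x41) (nat_lit 0) (p (nat_lit 0x8090887069a) (nat_lit 0) (p (nat_lit 0x7870806861a) (nat_lit 0) (p (nat_lit 0x800070786058a) (nat_lit 0) (p (nat_lit 0x787058502) (nat_lit 0) (p (nat_lit 0x586850482) (nat_lit 0) (p (nat_lit 0x160014) (nat_lit 0) (p (nat_lit 0x16000c) (nat_lit 0) (p (nat_lit 0x68612) (nat_lit 0) (p (nat_lit 0x50592) (nat_lit 0) (p (nat_lit 0x40512) (nat_lit 0) (p (nat_lit 0x50312) (nat_lit 0) (p (nat_lit 0x38292) (nat_lit 0) (p (nat_lit 0x28212) (nat_lit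 0) (p (nat_lit 0x38112) (nat_lit 0) (p (nat_lit 0x20092) (nat_lit 0) (p (nat_lit 0x10012) (nat_lit 0) pn)))))))))))))))))))))))))))) :=
  Cl.node (nat_lit 0x81) (nat_lit 2) (by decide +kernel) (ClAll.succ (ClAll.succ ClAll.zero s608) n109)

def n145 : Cl (O (nat_lit 1)) (R (nat_lit 14353))
    (p (nat_lit 0x100004) (nat_lit 0) (p (nat_lit 0x109) (nat_lit 0) (p (nat_lit 0x200004) (nat_lit 0) (p (nat_lit 0x380c2) (nat_lit 1) (p (nat_lit 0x444aa) (nat_lit 7) (p (nat_lit 0x111) (nat_lit 1) (p (nat_lit 0x101) (nat_lit 0) (p (nat_lit 0xc1) (nat_lit 1) (p (nat_lit 0x119) (nat_lit 1) (p (nat_lit 0xc9) (nat_lit 0) (p (nat_lit 0x89) (nat_lit 1) (p (nat_lit 0x41) (nat_lit 0) (p (nat_lit 0x8090887069a) (nat_lit 0) (p (nat_lit 0x7870806861a) (nat_lit 0) (p (nat_lit 0x800070786058a) (nat_lit 0) (p (nat_lit 0x787058502) (nat_lit 0) (p (nat_lit 0x586850482) (nat_lit 0) (p (nat_lit 0x160014)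 (nat_lit 0) (p (nat_lit 0x16000c) (nat_lit 0) (p (nat_lit 0x68612) (nat_lit 0) (p (nat_lit 0x50592) (nat_lit 0) (p (nat_lit 0x40512) (nat_lit 0) (p (nat_lit 0x50312) (nat_lit 0) (p (nat_lit 0x38292) (nat_lit 0) (p (nat_lit 0x28212) (nat_lit 0) (p (nat_lit 0x38112) (nat_lit 0) (p (nat_lit 0x20092) (nat_lit 0) (p (nat_lit 0x10012) (nat_lit 0) pn)))))))))))))))))))))))))))) :=
  Cl.node (nat_lit 0x119) (nat_lit 2) (by decide +kernel) (ClAll.succ (ClAll.succ ClAll.zero n110) s659)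

def n146 : Cl (O (nat_lit 1)) (R (nat_lit 14353))
    (p (nat_lit 0x200004) (nat_lit 0) (p (nat_lit 0xc9) (nat_lit 1) (p (nat_lit 0x380c2) (nat_lit 0) (p (nat_lit 0x4c42a) (nat_lit 2) (p (nat_lit 0x111) (nat_lit 0) (p (nat_lit 0x89) (nat_lit 0) (p (nat_lit 0x109) (nat_lit 1) (p (nat_lit 0x101) (nat_lit 0) (p (nat_lit 0x119) (nat_lit 0) (p (nat_lit 0xd1) (nat_lit 0) (p (nat_lit 0x81) (nat_lit 0) (p (nat_lit 0x41) (nat_lit 1) (p (nat_lit 0x8090887069a) (nat_lit 0) (p (nat_lit 0x7870806861a) (nat_lit 0) (p (nat_lit 0x800070786058a) (nat_lit 0) (p (nat_lit 0x787058502) (nat_lit 0) (p (nat_lit 0x586850482) (nat_lit 0) (p (nat_lit 0x160014) (nat_lit 0) (p (nat_lit 0x16000c) (nat_lit 0) (p (nat_lit 0x68612) (nat_lit 0) (p (nat_lit 0x50592) (nat_lit 0) (p (nat_lit 0x40512) (nat_lit 0) (p (nat_lit 0x50312) (nat_lit 0) (p (nat_lit 0x38292) (nat_lit 0) (p (nat_lit 0x28212) (nat_lit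 0) (p (nat_lit 0x38112) (nat_lit 0) (p (nat_lit 0x20092) (nat_lit 0) (p (nat_lit 0x10012) (nat_lit 0) pn)))))))))))))))))))))))))))) :=
  Cl.node (nat_lit 0x3c4aa) (nat_lit 12) (by decide +kernel) (ClAll.succ (ClAll.succ (ClAll.succ (ClAll.succ (ClAll.succ (ClAll.succ (ClAll.succ (ClAll.succ (ClAll.succ (ClAll.succ (ClAll.succ (ClAll.succ ClAll.zero s688) s689) s690) s691) s692) s693) s694) s695) s696) s697) s698) s699)

def n147 : Cl (O (nat_lit 1)) (R (nat_lit 14353))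
    (p (nat_lit 0xb000c) (nat_lit 0) (p (nat_lit 0xc9) (nat_lit 1) (p (nat_lit 0x380c2) (nat_lit 0) (p (nat_lit 0x4c42a) (nat_lit 8) (p (nat_lit 0x111) (nat_lit 0) (p (nat_lit 0x89) (nat_lit 0) (p (nat_lit 0x109) (nat_lit 1) (p (nat_lit 0x101) (nat_lit 0) (p (nat_lit 0x119) (nat_lit 0) (p (nat_lit 0xd1) (nat_lit 0) (p (nat_lit 0x81) (nat_lit 0) (p (nat_lit 0x41) (nat_lit 1) (p (nat_lit 0x8090887069a) (nat_lit 0) (p (nat_lit 0x7870806861a) (nat_lit 0) (p (nat_lit 0x800070786058a) (nat_lit 0) (p (nat_lit 0x787058502) (nat_lit 0) (p (nat_lit 0x586850482) (nat_lit 0) (p (nat_lit 0x160014) (nat_lit 0) (p (nat_lit 0x16000c) (nat_lit 0) (p (nat_lit 0x68612) (nat_lit 0) (p (nat_lit 0x50592) (nat_lit 0) (p (nat_lit 0x40512) (nat_lit 0) (p (nat_lit 0x50312) (nat_lit 0) (p (nat_lit 0x38292) (nat_lit 0) (p (nat_lit 0x28212) (nat_lit 0) (p (nat_lit 0x38112) (nat_lit 0) (p (nat_lit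 0x20092) (nat_lit 0) (p (nat_lit 0x10012) (nat_lit 0) pn)))))))))))))))))))))))))))) :=
  Cl.node (nat_lit 0x109) (nat_lit 2) (by decide +kernel) (ClAll.succ (ClAll.succ ClAll.zero s707) n111)

def n148 : Cl (O (nat_lit 1)) (R (nat_lit 14353))
    (p (nat_lit 0xb000c) (nat_lit 0) (p (nat_lit 0xb0014) (nat_lit 0) (p (nat_lit 0x380c2) (nat_lit 0) (p (nat_lit 0x3cc2a) (nat_lit 11) (p (nat_lit 0x111) (nat_lit 1) (p (nat_lit 0x89) (nat_lit 0) (p (nat_lit 0x109) (nat_lit 1) (p (nat_lit 0x101) (nat_lit 0) (p (nat_lit 0x119) (nat_lit 0) (p (nat_lit 0xd1) (nat_lit 0) (p (nat_lit 0x81) (nat_lit 0) (p (nat_lit 0x41) (nat_lit 1) (p (nat_lit 0x8090887069a) (nat_lit 0) (p (nat_lit 0x7870806861a) (nat_lit 0) (p (nat_lit 0x800070786058a) (nat_lit 0) (p (nat_lit 0x787058502) (nat_lit 0) (p (nat_lit 0x586850482) (nat_lit 0) (p (nat_lit 0x160014) (nat_lit 0) (p (nat_lit 0x16000c) (nat_lit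 0) (p (nat_lit 0x68612) (nat_lit 0) (p (nat_lit 0x50592) (nat_lit 0) (p (nat_lit 0x40512) (nat_lit 0) (p (nat_lit 0x50312) (nat_lit 0) (p (nat_lit 0x38292) (nat_lit 0) (p (nat_lit 0x28212) (nat_lit 0) (p (nat_lit 0x38112) (nat_lit 0) (p (nat_lit 0x20092) (nat_lit 0) (p (nat_lit 0x10012) (nat_lit 0) pn)))))))))))))))))))))))))))) :=
  Cl.node (nat_lit 0x81) (nat_lit 2) (by decide +kernel) (ClAll.succ (ClAll.succ ClAll.zero n112) n113)

def n149 : Cl (O (nat_lit 1)) (R (nat_lit 14353))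
    (p (nat_lit 0xd1) (nat_lit 1) (p (nat_lit 0x111) (nat_lit 1) (p (nat_lit 0x380c2) (nat_lit 0) (p (nat_lit 0x4c42a) (nat_lit 2) (p (nat_lit 0xc9) (nat_lit 0) (p (nat_lit 0x89) (nat_lit 1) (p (nat_lit 0x109) (nat_lit 1) (p (nat_lit 0x101) (nat_lit 0) (p (nat_lit 0x119) (nat_lit 0) (p (nat_lit 0xd1) (nat_lit 0) (p (nat_lit 0x81) (nat_lit 0) (p (nat_lit 0x41) (nat_lit 1) (p (nat_lit 0x8090887069a) (nat_lit 0) (p (nat_lit 0x7870806861a) (nat_lit 0) (p (nat_lit 0x800070786058a) (nat_lit 0) (p (nat_lit 0x787058502) (nat_lit 0) (p (nat_lit 0x586850482) (nat_lit 0) (p (nat_lit 0x160014) (nat_lit 0) (p (nat_lit 0x16000c) (nat_lit 0) (p (nat_lit 0x68612) (nat_lit 0) (p (nat_lit 0x50592) (nat_lit 0) (p (nat_lit 0x40512) (nat_lit 0) (p (nat_lit 0x50312) (nat_lit 0) (p (nat_lit 0x38292) (nat_lit 0) (p (nat_lit 0x28212) (nat_lit 0) (p (nat_lit 0x38112) (nat_lit 0) (p (nat_lit 0x20092)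 (nat_lit 0) (p (nat_lit 0x10012) (nat_lit 0) pn)))))))))))))))))))))))))))) :=
  Cl.node (nat_lit 0x200004) (nat_lit 2) (by decide +kernel) (ClAll.succ (ClAll.succ ClAll.zero s750) s751)

def n150 : Cl (O (nat_lit 1)) (R (nat_lit 14353))
    (p (nat_lit 0xd1) (nat_lit 1) (p (nat_lit 0x111) (nat_lit 1) (p (nat_lit 0x380c2) (nat_lit 0) (p (nat_lit 0x4c42a) (nat_lit 8) (p (nat_lit 0xc9) (nat_lit 0) (p (nat_lit 0x89) (nat_lit 1) (p (nat_lit 0x109) (nat_lit 1) (p (nat_lit 0x101) (nat_lit 0) (p (nat_lit 0x119) (nat_lit 0) (p (nat_lit 0xd1) (nat_lit 0) (p (nat_lit 0x81) (nat_lit 0) (p (nat_lit 0x41) (nat_lit 1) (p (nat_lit 0x8090887069a) (nat_lit 0) (p (nat_lit 0x7870806861a) (nat_lit 0) (p (nat_lit 0x800070786058a) (nat_lit 0) (p (nat_lit 0x787058502) (nat_lit 0) (p (nat_lit 0x586850482) (nat_lit 0) (p (nat_lit 0x160014) (nat_lit 0) (p (nat_lit 0x16000c) (nat_lit 0) (p (nat_lit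 0x68612) (nat_lit 0) (p (nat_lit 0x50592) (nat_lit 0) (p (nat_lit 0x40512) (nat_lit 0) (p (nat_lit 0x50312) (nat_lit 0) (p (nat_lit 0x38292) (nat_lit 0) (p (nat_lit 0x28212) (nat_lit 0) (p (nat_lit 0x38112) (nat_lit 0) (p (nat_lit 0x20092) (nat_lit 0) (p (nat_lit 0x10012) (nat_lit 0) pn)))))))))))))))))))))))))))) :=
  Cl.node (nat_lit 0xb000c) (nat_lit 2) (by decide +kernel) (ClAll.succ (ClAll.succ ClAll.zero n114) s765)

def n151 : Cl (O (nat_lit 1)) (R (nat_lit 14353))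
    (p (nat_lit 0x111) (nat_lit 1) (p (nat_lit 0xb000c) (nat_lit 0) (p (nat_lit 0x380c2) (nat_lit 1) (p (nat_lit 0x4c42a) (nat_lit 8) (p (nat_lit 0xc9) (nat_lit 0) (p (nat_lit 0x89) (nat_lit 1) (p (nat_lit 0x109) (nat_lit 1) (p (nat_lit 0x101) (nat_lit 0) (p (nat_lit 0x119) (nat_lit 0) (p (nat_lit 0xd1) (nat_lit 0) (p (nat_lit 0x81) (nat_lit 0) (p (nat_lit 0x41) (nat_lit 1) (p (nat_lit 0x8090887069a) (nat_lit 0) (p (nat_lit 0x7870806861a) (nat_lit 0) (p (nat_lit 0x800070786058a) (nat_lit 0) (p (nat_lit 0x787058502) (nat_lit 0) (p (nat_lit 0x586850482) (nat_lit 0) (p (nat_lit 0x160014) (nat_lit 0) (p (nat_lit 0x16000c) (nat_lit 0) (p (nat_lit 0x68612) (nat_lit 0) (p (nat_lit 0x50592) (nat_lit 0) (p (nat_lit 0x40512) (nat_lit 0) (p (nat_lit 0x50312) (nat_lit 0) (p (nat_lit 0x38292) (nat_lit 0) (p (nat_lit 0x28212) (nat_lit 0) (p (nat_lit 0x38112) (nat_lit 0) (p (nat_lit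 0x20092) (nat_lit 0) (p (nat_lit 0x10012) (nat_lit 0) pn)))))))))))))))))))))))))))) :=
  Cl.node (nat_lit 0xd1) (nat_lit 2) (by decide +kernel) (ClAll.succ (ClAll.succ ClAll.zero s767) n115)

def n152 : Cl (O (nat_lit 1)) (R (nat_lit 14353))
    (p (nat_lit 0x111) (nat_lit 0) (p (nat_lit 0xb000c) (nat_lit 0) (p (nat_lit 0xb0014) (nat_lit 0) (p (nat_lit 0x380c2) (nat_lit 0) (p (nat_lit 0x3cc2a) (nat_lit 11) (p (nat_lit 0x89) (nat_lit 0) (p (nat_lit 0xc1) (nat_lit 0) (p (nat_lit 0x101) (nat_lit 1) (p (nat_lit 0x119) (nat_lit 0) (p (nat_lit 0xd1) (nat_lit 0) (p (nat_lit 0x81) (nat_lit 0) (p (nat_lit 0x41) (nat_lit 1) (p (nat_lit 0x8090887069a) (nat_lit 0) (p (nat_lit 0x7870806861a) (nat_lit 0) (p (nat_lit 0x800070786058a) (nat_lit 0) (p (nat_lit 0x787058502) (nat_lit 0) (p (nat_lit 0x586850482) (nat_lit 0) (p (nat_lit 0x160014) (nat_lit 0) (p (nat_lit 0x16000c) (nat_lit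 0) (p (nat_lit 0x68612) (nat_lit 0) (p (nat_lit 0x50592) (nat_lit 0) (p (nat_lit 0x40512) (nat_lit 0) (p (nat_lit 0x50312) (nat_lit 0) (p (nat_lit 0x38292) (nat_lit 0) (p (nat_lit 0x28212) (nat_lit 0) (p (nat_lit 0x38112) (nat_lit 0) (p (nat_lit 0x20092) (nat_lit 0) (p (nat_lit 0x10012) (nat_lit 0) pn)))))))))))))))))))))))))))) :=
  Cl.node (nat_lit 0x119) (nat_lit 2) (by decide +kernel) (ClAll.succ (ClAll.succ ClAll.zero s787) n116)

def n153 : Cl (O (nat_lit 1)) (R (nat_lit 14353))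
    (p (nat_lit 0x111) (nat_lit 1) (p (nat_lit 0xb000c) (nat_lit 0) (p (nat_lit 0xb0014) (nat_lit 0) (p (nat_lit 0x380c2) (nat_lit 0) (p (nat_lit 0x3cc2a) (nat_lit 11) (p (nat_lit 0x89) (nat_lit 0) (p (nat_lit 0xc1) (nat_lit 0) (p (nat_lit 0x101) (nat_lit 1) (p (nat_lit 0x119) (nat_lit 0) (p (nat_lit 0xd1) (nat_lit 0) (p (nat_lit 0x81) (nat_lit 0) (p (nat_lit 0x41) (nat_lit 1) (p (nat_lit 0x8090887069a) (nat_lit 0) (p (nat_lit 0x7870806861a) (nat_lit 0) (p (nat_lit 0x800070786058a) (nat_lit 0) (p (nat_lit 0x787058502) (nat_lit 0) (p (nat_lit 0x586850482) (nat_lit 0) (p (nat_lit 0x160014) (nat_lit 0) (p (nat_lit 0x16000c) (nat_lit 0) (p (nat_lit 0x68612) (nat_lit 0) (p (nat_lit 0x50592) (nat_lit 0) (p (nat_lit 0x40512) (nat_lit 0) (p (nat_lit 0x50312) (nat_lit 0) (p (nat_lit 0x38292) (nat_lit 0) (p (nat_lit 0x28212) (nat_lit 0) (p (nat_lit 0x38112) (nat_lit 0) (p (nat_lit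 0x20092) (nat_lit 0) (p (nat_lit 0x10012) (nat_lit 0) pn)))))))))))))))))))))))))))) :=
  Cl.node (nat_lit 0xc9) (nat_lit 2) (by decide +kernel) (ClAll.succ (ClAll.succ ClAll.zero s797) s798)

def n154 : Cl (O (nat_lit 1)) (R (nat_lit 14353))
    (p (nat_lit 0xb000c) (nat_lit 0) (p (nat_lit 0xd1) (nat_lit 1) (p (nat_lit 0x380c2) (nat_lit 0) (p (nat_lit 0x4c42a) (nat_lit 8) (p (nat_lit 0xc9) (nat_lit 0) (p (nat_lit 0x89) (nat_lit 1) (p (nat_lit 0xc1) (nat_lit 0) (p (nat_lit 0x101) (nat_lit 1) (p (nat_lit 0x119) (nat_lit 0) (p (nat_lit 0xd1) (nat_lit 0) (p (nat_lit 0x81) (nat_lit 0) (p (nat_lit 0x41) (nat_lit 1) (p (nat_lit 0x8090887069a) (nat_lit 0) (p (nat_lit 0x7870806861a) (nat_lit 0) (p (nat_lit 0x800070786058a) (nat_lit 0) (p (nat_lit 0x787058502) (nat_lit 0) (p (nat_lit 0x586850482) (nat_lit 0) (p (nat_lit 0x160014) (nat_lit 0) (p (nat_lit 0x16000c) (nat_lit 0)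 (p (nat_lit 0x68612) (nat_lit 0) (p (nat_lit 0x50592) (nat_lit 0) (p (nat_lit 0x40512) (nat_lit 0) (p (nat_lit 0x50312) (nat_lit 0) (p (nat_lit 0x38292) (nat_lit 0) (p (nat_lit 0x28212) (nat_lit 0) (p (nat_lit 0x38112) (nat_lit 0) (p (nat_lit 0x20092) (nat_lit 0) (p (nat_lit 0x10012) (nat_lit 0) pn)))))))))))))))))))))))))))) :=
  Cl.node (nat_lit 0x111) (nat_lit 2) (by decide +kernel) (ClAll.succ (ClAll.succ ClAll.zero s813) n117)

def n155 : Cl (O (nat_lit 1)) (R (nat_lit 14353))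
    (p (nat_lit 0xb0014) (nat_lit 0) (p (nat_lit 0x200004) (nat_lit 0) (p (nat_lit 0x380c2) (nat_lit 0) (p (nat_lit 0x44c2a) (nat_lit 0) (p (nat_lit 0x109) (nat_lit 0) (p (nat_lit 0x89) (nat_lit 1) (p (nat_lit 0xc9) (nat_lit 1) (p (nat_lit 0xc1) (nat_lit 0) (p (nat_lit 0x119) (nat_lit 1) (p (nat_lit 0xd1) (nat_lit 0) (p (nat_lit 0x81) (nat_lit 0) (p (nat_lit 0x41) (nat_lit 1) (p (nat_lit 0x8090887069a) (nat_lit 0) (p (nat_lit 0x7870806861a) (nat_lit 0) (p (nat_lit 0x800070786058a) (nat_lit 0) (p (nat_lit 0x787058502) (nat_lit 0) (p (nat_lit 0x586850482) (nat_lit 0) (p (nat_lit 0x160014) (nat_lit 0) (p (nat_lit 0x16000c) (nat_lit 0) (p (nat_lit 0x68612) (nat_lit 0) (p (nat_lit 0x50592) (nat_lit 0) (p (nat_lit 0x40512) (nat_lit 0) (p (nat_lit 0x50312) (nat_lit 0) (p (nat_lit 0x38292) (nat_lit 0) (p (nat_lit 0x28212) (nat_lit 0) (p (nat_lit 0x38112) (nat_lit 0) (p (nat_lit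 0x20092) (nat_lit 0) (p (nat_lit 0x10012) (nat_lit 0) pn)))))))))))))))))))))))))))) :=
  Cl.node (nat_lit 0x41) (nat_lit 2) (by decide +kernel) (ClAll.succ (ClAll.succ ClAll.zero n118) s867)

def n156 : Cl (O (nat_lit 1)) (R (nat_lit 14353))
    (p (nat_lit 0x100004) (nat_lit 0) (p (nat_lit 0x200004) (nat_lit 0) (p (nat_lit 0x380c2) (nat_lit 0) (p (nat_lit 0x3c4aa) (nat_lit 10) (p (nat_lit 0x109) (nat_lit 1) (p (nat_lit 0x89) (nat_lit 1) (p (nat_lit 0xc9) (nat_lit 1) (p (nat_lit 0xc1) (nat_lit 0) (p (nat_lit 0x119) (nat_lit 1) (p (nat_lit 0xd1) (nat_lit 0) (p (nat_lit 0x81) (nat_lit 0) (p (nat_lit 0x41) (nat_lit 1) (p (nat_lit 0x8090887069a) (nat_lit 0) (p (nat_lit 0x7870806861a) (nat_lit 0) (p (nat_lit 0x800070786058a) (nat_lit 0) (p (nat_lit 0x787058502) (nat_lit 0) (p (nat_lit 0x586850482) (nat_lit 0) (p (nat_lit 0x160014) (nat_lit 0) (p (nat_lit 0x16000c) (nat_lit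 0) (p (nat_lit 0x68612) (nat_lit 0) (p (nat_lit 0x50592) (nat_lit 0) (p (nat_lit 0x40512) (nat_lit 0) (p (nat_lit 0x50312) (nat_lit 0) (p (nat_lit 0x38292) (nat_lit 0) (p (nat_lit 0x28212) (nat_lit 0) (p (nat_lit 0x38112) (nat_lit 0) (p (nat_lit 0x20092) (nat_lit 0) (p (nat_lit 0x10012) (nat_lit 0) pn)))))))))))))))))))))))))))) :=
  Cl.node (nat_lit 0xc9) (nat_lit 2) (by decide +kernel) (ClAll.succ (ClAll.succ ClAll.zero s893) s894)

def n157 : Cl (O (nat_lit 1)) (R (nat_lit 14353))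
    (p (nat_lit 0x100004) (nat_lit 0) (p (nat_lit 0x200004) (nat_lit 0) (p (nat_lit 0x380c2) (nat_lit 0) (p (nat_lit 0x3c4aa) (nat_lit 7) (p (nat_lit 0xd1) (nat_lit 1) (p (nat_lit 0x111) (nat_lit 1) (p (nat_lit 0x109) (nat_lit 0) (p (nat_lit 0x101) (nat_lit 0) (p (nat_lit 0x119) (nat_lit 0) (p (nat_lit 0xc1) (nat_lit 0) (p (nat_lit 0x81) (nat_lit 1) (p (nat_lit 0x41) (nat_lit 1) (p (nat_lit 0x8090887069a) (nat_lit 0) (p (nat_lit 0x7870806861a) (nat_lit 0) (p (nat_lit 0x800070786058a) (nat_lit 0) (p (nat_lit 0x787058502) (nat_lit 0) (p (nat_lit 0x586850482) (nat_lit 0) (p (nat_lit 0x160014) (nat_lit 0) (p (nat_lit 0x16000c) (nat_lit 0) (p (nat_lit 0x68612) (nat_lit 0) (p (nat_lit 0x50592) (nat_lit 0) (p (nat_lit 0x40512) (nat_lit 0) (p (nat_lit 0x50312) (nat_lit 0) (p (nat_lit 0x38292) (nat_lit 0) (p (nat_lit 0x28212) (nat_lit 0) (p (nat_lit 0x38112) (nat_lit 0) (p (nat_lit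 0x20092) (nat_lit 0) (p (nat_lit 0x10012) (nat_lit 0) pn)))))))))))))))))))))))))))) :=
  Cl.node (nat_lit 0xb000c) (nat_lit 2) (by decide +kernel) (ClAll.succ (ClAll.succ ClAll.zero n119) s1092)

def n158 : Cl (O (nat_lit 1)) (R (nat_lit 14353))
    (p (nat_lit 0x100004) (nat_lit 0) (p (nat_lit 0x200004) (nat_lit 0) (p (nat_lit 0x380c2) (nat_lit 1) (p (nat_lit 0x3c4aa) (nat_lit 7) (p (nat_lit 0xd1) (nat_lit 1) (p (nat_lit 0x111) (nat_lit 1) (p (nat_lit 0x109) (nat_lit 0) (p (nat_lit 0x101) (nat_lit 0) (p (nat_lit 0x119) (nat_lit 0) (p (nat_lit 0xc1) (nat_lit 0) (p (nat_lit 0x81) (nat_lit 1) (p (nat_lit 0x41) (nat_lit 1) (p (nat_lit 0x8090887069a) (nat_lit 0) (p (nat_lit 0x7870806861a) (nat_lit 0) (p (nat_lit 0x800070786058a) (nat_lit 0) (p (nat_lit 0x787058502) (nat_lit 0) (p (nat_lit 0x586850482) (nat_lit 0) (p (nat_lit 0x160014) (nat_lit 0) (p (nat_lit 0x16000c) (nat_lit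 0) (p (nat_lit 0x68612) (nat_lit 0) (p (nat_lit 0x50592) (nat_lit 0) (p (nat_lit 0x40512) (nat_lit 0) (p (nat_lit 0x50312) (nat_lit 0) (p (nat_lit 0x38292) (nat_lit 0) (p (nat_lit 0x28212) (nat_lit 0) (p (nat_lit 0x38112) (nat_lit 0) (p (nat_lit 0x20092) (nat_lit 0) (p (nat_lit 0x10012) (nat_lit 0) pn)))))))))))))))))))))))))))) :=
  Cl.node (nat_lit 0xb000c) (nat_lit 2) (by decide +kernel) (ClAll.succ (ClAll.succ ClAll.zero n120) s1100)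

def n159 : Cl (O (nat_lit 1)) (R (nat_lit 14353))
    (p (nat_lit 0x100004) (nat_lit 0) (p (nat_lit 0x200004) (nat_lit 0) (p (nat_lit 0x380c2) (nat_lit 1) (p (nat_lit 0x3c4aa) (nat_lit 7) (p (nat_lit 0xd1) (nat_lit 1) (p (nat_lit 0xc9) (nat_lit 0) (p (nat_lit 0x109) (nat_lit 1) (p (nat_lit 0x101) (nat_lit 0) (p (nat_lit 0x119) (nat_lit 0) (p (nat_lit 0xc1) (nat_lit 0) (p (nat_lit 0x81) (nat_lit 1) (p (nat_lit 0x41) (nat_lit 1) (p (nat_lit 0x8090887069a) (nat_lit 0) (p (nat_lit 0x7870806861a) (nat_lit 0) (p (nat_lit 0x800070786058a) (nat_lit 0) (p (nat_lit 0x787058502) (nat_lit 0) (p (nat_lit 0x586850482) (nat_lit 0) (p (nat_lit 0x160014) (nat_lit 0) (p (nat_lit 0x16000c) (nat_lit 0) (p (nat_lit 0x68612) (nat_lit 0) (p (nat_lit 0x50592) (nat_lit 0) (p (nat_lit 0x40512) (nat_lit 0) (p (nat_lit 0x50312) (nat_lit 0) (p (nat_lit 0x38292) (nat_lit 0) (p (nat_lit 0x28212)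 (nat_lit 0) (p (nat_lit 0x38112) (nat_lit 0) (p (nat_lit 0x20092) (nat_lit 0) (p (nat_lit 0x10012) (nat_lit 0) pn)))))))))))))))))))))))))))) :=
  Cl.node (nat_lit 0x119) (nat_lit 2) (by decide +kernel) (ClAll.succ (ClAll.succ ClAll.zero s1118) n121)

def n160 : Cl (O (nat_lit 1)) (R (nat_lit 14353))
    (p (nat_lit 0x100004) (nat_lit 0) (p (nat_lit 0xb0014) (nat_lit 0) (p (nat_lit 0x200004) (nat_lit 0) (p (nat_lit 0x380c2) (nat_lit 0) (p (nat_lit 0x3c4aa) (nat_lit 7) (p (nat_lit 0xd1) (nat_lit 1) (p (nat_lit 0xc9) (nat_lit 0) (p (nat_lit 0x101) (nat_lit 1) (p (nat_lit 0x119) (nat_lit 0) (p (nat_lit 0xc1) (nat_lit 0) (p (nat_lit 0x81) (nat_lit 1) (p (nat_lit 0x41) (nat_lit 1) (p (nat_lit 0x8090887069a) (nat_lit 0) (p (nat_lit 0x7870806861a) (nat_lit 0) (p (nat_lit 0x800070786058a) (nat_lit 0) (p (nat_lit 0x787058502) (nat_lit 0) (p (nat_lit 0x586850482) (nat_lit 0) (p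 (nat_lit 0x160014) (nat_lit 0) (p (nat_lit 0x16000c) (nat_lit 0) (p (nat_lit 0x68612) (nat_lit 0) (p (nat_lit 0x50592) (nat_lit 0) (p (nat_lit 0x40512) (nat_lit 0) (p (nat_lit 0x50312) (nat_lit 0) (p (nat_lit 0x38292) (nat_lit 0) (p (nat_lit 0x28212) (nat_lit 0) (p (nat_lit 0x38112) (nat_lit 0) (p (nat_lit 0x20092) (nat_lit 0) (p (nat_lit 0x10012) (nat_lit 0) pn)))))))))))))))))))))))))))) :=
  Cl.node (nat_lit 0xb000c) (nat_lit 2) (by decide +kernel) (ClAll.succ (ClAll.succ ClAll.zero n122) s1170)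

def n161 : Cl (O (nat_lit 1)) (R (nat_lit 14353))
    (p (nat_lit 0xb000c) (nat_lit 0) (p (nat_lit 0x100004) (nat_lit 0) (p (nat_lit 0x200004) (nat_lit 0) (p (nat_lit 0x380c2) (nat_lit 1) (p (nat_lit 0x3c4aa) (nat_lit 7) (p (nat_lit 0xd1) (nat_lit 1) (p (nat_lit 0xc9) (nat_lit 0) (p (nat_lit 0x101) (nat_lit 1) (p (nat_lit 0x119) (nat_lit 0) (p (nat_lit 0xc1) (nat_lit 0) (p (nat_lit 0x81) (nat_lit 1) (p (nat_lit 0x41) (nat_lit 1) (p (nat_lit 0x8090887069a) (nat_lit 0) (p (nat_lit 0x7870806861a) (nat_lit 0) (p (nat_lit 0x800070786058a) (nat_lit 0) (p (nat_lit 0x787058502) (nat_lit 0) (p (nat_lit 0x586850482) (nat_lit 0) (p (nat_lit 0x160014) (nat_lit 0) (p (nat_lit 0x16000c) (nat_lit 0) (p (nat_lit 0x68612) (nat_lit 0) (p (nat_lit 0x50592) (nat_lit 0) (p (nat_lit 0x40512) (nat_lit 0) (p (nat_lit 0x50312) (nat_lit 0) (p (nat_lit 0x38292) (nat_lit 0) (p (nat_lit 0x28212)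 (nat_lit 0) (p (nat_lit 0x38112) (nat_lit 0) (p (nat_lit 0x20092) (nat_lit 0) (p (nat_lit 0x10012) (nat_lit 0) pn)))))))))))))))))))))))))))) :=
  Cl.node (nat_lit 0xc1) (nat_lit 2) (by decide +kernel) (ClAll.succ (ClAll.succ ClAll.zero n123) s1186)

def n162 : Cl (O (nat_lit 1)) (R (nat_lit 14353))
    (p (nat_lit 0x101) (nat_lit 0) (p (nat_lit 0x100004) (nat_lit 0) (p (nat_lit 0x200004) (nat_lit 0) (p (nat_lit 0x380c2) (nat_lit 0) (p (nat_lit 0x3c4aa) (nat_lit 7) (p (nat_lit 0x111) (nat_lit 1) (p (nat_lit 0xd1) (nat_lit 1) (p (nat_lit 0xc9) (nat_lit 0) (p (nat_lit 0x119) (nat_lit 1) (p (nat_lit 0xc1) (nat_lit 0) (p (nat_lit 0x81) (nat_lit 1) (p (nat_lit 0x41) (nat_lit 1) (p (nat_lit 0x8090887069a) (nat_lit 0) (p (nat_lit 0x7870806861a) (nat_lit 0) (p (nat_lit 0x800070786058a) (nat_lit 0) (p (nat_lit 0x787058502) (nat_lit 0) (p (nat_lit 0x586850482) (nat_lit 0) (p (nat_lit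 0x160014) (nat_lit 0) (p (nat_lit 0x16000c) (nat_lit 0) (p (nat_lit 0x68612) (nat_lit 0) (p (nat_lit 0x50592) (nat_lit 0) (p (nat_lit 0x40512) (nat_lit 0) (p (nat_lit 0x50312) (nat_lit 0) (p (nat_lit 0x38292) (nat_lit 0) (p (nat_lit 0x28212) (nat_lit 0) (p (nat_lit 0x38112) (nat_lit 0) (p (nat_lit 0x20092) (nat_lit 0) (p (nat_lit 0x10012) (nat_lit 0) pn)))))))))))))))))))))))))))) :=
  Cl.node (nat_lit 0xb0014) (nat_lit 2) (by decide +kernel) (ClAll.succ (ClAll.succ ClAll.zero s1204) s1205)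

def n163 : Cl (O (nat_lit 1)) (R (nat_lit 14353))
    (p (nat_lit 0xb000c) (nat_lit 0) (p (nat_lit 0x100004) (nat_lit 0) (p (nat_lit 0x200004) (nat_lit 0) (p (nat_lit 0x380c2) (nat_lit 1) (p (nat_lit 0x3c4aa) (nat_lit 7) (p (nat_lit 0x111) (nat_lit 1) (p (nat_lit 0x109) (nat_lit 0) (p (nat_lit 0xc9) (nat_lit 1) (p (nat_lit 0x119) (nat_lit 1) (p (nat_lit 0xc1) (nat_lit 0) (p (nat_lit 0x81) (nat_lit 1) (p (nat_lit 0x41) (nat_lit 1) (p (nat_lit 0x8090887069a) (nat_lit 0) (p (nat_lit 0x7870806861a) (nat_lit 0) (p (nat_lit 0x800070786058a) (nat_lit 0) (p (nat_lit 0x787058502) (nat_lit 0) (p (nat_lit 0x586850482) (nat_lit 0) (p (nat_lit 0x160014) (nat_lit 0) (p (nat_lit 0x16000c) (nat_lit 0) (p (nat_lit 0x68612) (nat_lit 0) (p (nat_lit 0x50592) (nat_lit 0) (p (nat_lit 0x40512) (nat_lit 0) (p (nat_lit 0x50312) (nat_lit 0) (p (nat_lit 0x38292) (nat_lit 0) (p (nat_lit 0x28212)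 (nat_lit 0) (p (nat_lit 0x38112) (nat_lit 0) (p (nat_lit 0x20092) (nat_lit 0) (p (nat_lit 0x10012) (nat_lit 0) pn)))))))))))))))))))))))))))) :=
  Cl.node (nat_lit 0x101) (nat_lit 2) (by decide +kernel) (ClAll.succ (ClAll.succ ClAll.zero n124) s1239)

def n164 : Cl (O (nat_lit 1)) (R (nat_lit 14353))
    (p (nat_lit 0x200004) (nat_lit 0) (p (nat_lit 0x380c2) (nat_lit 0) (p (nat_lit 0x444aa) (nat_lit 7) (p (nat_lit 0x81) (nat_lit 1) (p (nat_lit 0xc9) (nat_lit 1) (p (nat_lit 0x109) (nat_lit 1) (p (nat_lit 0x101) (nat_lit 0) (p (nat_lit 0x119) (nat_lit 0) (p (nat_lit 0xd1) (nat_lit 0) (p (nat_lit 0x89) (nat_lit 0) (p (nat_lit 0x41) (nat_lit 0) (p (nat_lit 0x8090887069a) (nat_lit 0) (p (nat_lit 0x7870806861a) (nat_lit 0) (p (nat_lit 0x800070786058a) (nat_lit 0) (p (nat_lit 0x787058502) (nat_lit 0) (p (nat_lit 0x586850482) (nat_lit 0) (p (nat_lit 0x160014) (nat_lit 0) (p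 (nat_lit 0x16000c) (nat_lit 0) (p (nat_lit 0x68612) (nat_lit 0) (p (nat_lit 0x50592) (nat_lit 0) (p (nat_lit 0x40512) (nat_lit 0) (p (nat_lit 0x50312) (nat_lit 0) (p (nat_lit 0x38292) (nat_lit 0) (p (nat_lit 0x28212) (nat_lit 0) (p (nat_lit 0x38112) (nat_lit 0) (p (nat_lit 0x20092) (nat_lit 0) (p (nat_lit 0x10012) (nat_lit 0) pn))))))))))))))))))))))))))) :=
  Cl.node (nat_lit 0x100004) (nat_lit 2) (by decide +kernel) (ClAll.succ (ClAll.succ ClAll.zero s10) s11)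

def n165 : Cl (O (nat_lit 1)) (R (nat_lit 14353))
    (p (nat_lit 0x200004) (nat_lit 0) (p (nat_lit 0x380c2) (nat_lit 1) (p (nat_lit 0x444aa) (nat_lit 7) (p (nat_lit 0x81) (nat_lit 1) (p (nat_lit 0xc9) (nat_lit 1) (p (nat_lit 0x109) (nat_lit 1) (p (nat_lit 0x101) (nat_lit 0) (p (nat_lit 0x119) (nat_lit 0) (p (nat_lit 0xd1) (nat_lit 0) (p (nat_lit 0x89) (nat_lit 0) (p (nat_lit 0x41) (nat_lit 0) (p (nat_lit 0x8090887069a) (nat_lit 0) (p (nat_lit 0x7870806861a) (nat_lit 0) (p (nat_lit 0x800070786058a) (nat_lit 0) (p (nat_lit 0x787058502) (nat_lit 0) (p (nat_lit 0x586850482) (nat_lit 0) (p (nat_lit 0x160014) (nat_lit 0) (p (nat_lit 0x16000c) (nat_lit 0) (p (nat_lit 0x68612) (nat_lit 0) (p (nat_lit 0x50592) (nat_lit 0) (p (nat_lit 0x40512) (nat_lit 0) (p (nat_lit 0x50312) (nat_lit 0) (p (nat_lit 0x38292) (nat_lit 0) (p (nat_lit 0x28212) (nat_lit 0) (p (nat_lit 0x38112) (nat_lit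 0) (p (nat_lit 0x20092) (nat_lit 0) (p (nat_lit 0x10012) (nat_lit 0) pn))))))))))))))))))))))))))) :=
  Cl.node (nat_lit 0x100004) (nat_lit 2) (by decide +kernel) (ClAll.succ (ClAll.succ ClAll.zero n125) s16)

def n166 : Cl (O (nat_lit 1)) (R (nat_lit 14353))
    (p (nat_lit 0xc1) (nat_lit 1) (p (nat_lit 0x380c2) (nat_lit 0) (p (nat_lit 0x4c42a) (nat_lit 2) (p (nat_lit 0x111) (nat_lit 0) (p (nat_lit 0xc9) (nat_lit 0) (p (nat_lit 0x81) (nat_lit 0) (p (nat_lit 0x101) (nat_lit 1) (p (nat_lit 0x119) (nat_lit 0) (p (nat_lit 0xd1) (nat_lit 0) (p (nat_lit 0x89) (nat_lit 0) (p (nat_lit 0x41) (nat_lit 0) (p (nat_lit 0x8090887069a) (nat_lit 0) (p (nat_lit 0x7870806861a) (nat_lit 0) (p (nat_lit 0x800070786058a) (nat_lit 0) (p (nat_lit 0x787058502) (nat_lit 0) (p (nat_lit 0x586850482) (nat_lit 0) (p (nat_lit 0x160014) (nat_lit 0) (p (nat_lit 0x16000c) (nat_lit 0) (p (nat_lit 0x68612)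 (nat_lit 0) (p (nat_lit 0x50592) (nat_lit 0) (p (nat_lit 0x40512) (nat_lit 0) (p (nat_lit 0x50312) (nat_lit 0) (p (nat_lit 0x38292) (nat_lit 0) (p (nat_lit 0x28212) (nat_lit 0) (p (nat_lit 0x38112) (nat_lit 0) (p (nat_lit 0x20092) (nat_lit 0) (p (nat_lit 0x10012) (nat_lit 0) pn))))))))))))))))))))))))))) :=
  Cl.node (nat_lit 0x200004) (nat_lit 2) (by decide +kernel) (ClAll.succ (ClAll.succ ClAll.zero n126) s51)

def n167 : Cl (O (nat_lit 1)) (R (nat_lit 14353))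
    (p (nat_lit 0x200004) (nat_lit 0) (p (nat_lit 0x380c2) (nat_lit 0) (p (nat_lit 0x444aa) (nat_lit 7) (p (nat_lit 0x111) (nat_lit 0) (p (nat_lit 0xc9) (nat_lit 1) (p (nat_lit 0x81) (nat_lit 0) (p (nat_lit 0x101) (nat_lit 1) (p (nat_lit 0x119) (nat_lit 0) (p (nat_lit 0xd1) (nat_lit 0) (p (nat_lit 0x89) (nat_lit 0) (p (nat_lit 0x41) (nat_lit 0) (p (nat_lit 0x8090887069a) (nat_lit 0) (p (nat_lit 0x7870806861a) (nat_lit 0) (p (nat_lit 0x800070786058a) (nat_lit 0) (p (nat_lit 0x787058502) (nat_lit 0) (p (nat_lit 0x586850482) (nat_lit 0) (p (nat_lit 0x160014) (nat_lit 0) (p (nat_lit 0x16000c) (nat_lit 0) (p (nat_lit 0x68612) (nat_lit 0) (p (nat_lit 0x50592) (nat_lit 0) (p (nat_lit 0x40512) (nat_lit 0) (p (nat_lit 0x50312) (nat_lit 0) (p (nat_lit 0x38292) (nat_lit 0) (p (nat_lit 0x28212) (nat_lit 0) (p (nat_lit 0x38112) (nat_lit 0) (p (nat_lit 0x20092) (nat_lit 0) (p (nat_lit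 0x10012) (nat_lit 0) pn))))))))))))))))))))))))))) :=
  Cl.node (nat_lit 0x100004) (nat_lit 2) (by decide +kernel) (ClAll.succ (ClAll.succ ClAll.zero n127) s98)

def n168 : Cl (O (nat_lit 1)) (R (nat_lit 14353))
    (p (nat_lit 0x200004) (nat_lit 0) (p (nat_lit 0x380c2) (nat_lit 1) (p (nat_lit 0x444aa) (nat_lit 7) (p (nat_lit 0x111) (nat_lit 0) (p (nat_lit 0xc9) (nat_lit 1) (p (nat_lit 0x81) (nat_lit 0) (p (nat_lit 0x101) (nat_lit 1) (p (nat_lit 0x119) (nat_lit 0) (p (nat_lit 0xd1) (nat_lit 0) (p (nat_lit 0x89) (nat_lit 0) (p (nat_lit 0x41) (nat_lit 0) (p (nat_lit 0x8090887069a) (nat_lit 0) (p (nat_lit 0x7870806861a) (nat_lit 0) (p (nat_lit 0x800070786058a) (nat_lit 0) (p (nat_lit 0x787058502) (nat_lit 0) (p (nat_lit 0x586850482) (nat_lit 0) (p (nat_lit 0x160014) (nat_lit 0) (p (nat_lit 0x16000c) (nat_lit 0) (p (nat_lit 0x68612) (nat_lit 0) (p (nat_lit 0x50592) (nat_lit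 0) (p (nat_lit 0x40512) (nat_lit 0) (p (nat_lit 0x50312) (nat_lit 0) (p (nat_lit 0x38292) (nat_lit 0) (p (nat_lit 0x28212) (nat_lit 0) (p (nat_lit 0x38112) (nat_lit 0) (p (nat_lit 0x20092) (nat_lit 0) (p (nat_lit 0x10012) (nat_lit 0) pn))))))))))))))))))))))))))) :=
  Cl.node (nat_lit 0x100004) (nat_lit 2) (by decide +kernel) (ClAll.succ (ClAll.succ ClAll.zero n128) s117)

def n169 : Cl (O (nat_lit 1)) (R (nat_lit 14353))
    (p (nat_lit 0x200004) (nat_lit 0) (p (nat_lit 0x380c2) (nat_lit 0) (p (nat_lit 0x4c42a) (nat_lit 2) (p (nat_lit 0xc9) (nat_lit 0) (p (nat_lit 0xc1) (nat_lit 0) (p (nat_lit 0x81) (nat_lit 1) (p (nat_lit 0x101) (nat_lit 1) (p (nat_lit 0x119) (nat_lit 0) (p (nat_lit 0xd1) (nat_lit 0) (p (nat_lit 0x89) (nat_lit 0) (p (nat_lit 0x41) (nat_lit 0) (p (nat_lit 0x8090887069a) (nat_lit 0) (p (nat_lit 0x7870806861a) (nat_lit 0) (p (nat_lit 0x800070786058a)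 (nat_lit 0) (p (nat_lit 0x787058502) (nat_lit 0) (p (nat_lit 0x586850482) (nat_lit 0) (p (nat_lit 0x160014) (nat_lit 0) (p (nat_lit 0x16000c) (nat_lit 0) (p (nat_lit 0x68612) (nat_lit 0) (p (nat_lit 0x50592) (nat_lit 0) (p (nat_lit 0x40512) (nat_lit 0) (p (nat_lit 0x50312) (nat_lit 0) (p (nat_lit 0x38292) (nat_lit 0) (p (nat_lit 0x28212) (nat_lit 0) (p (nat_lit 0x38112) (nat_lit 0) (p (nat_lit 0x20092) (nat_lit 0) (p (nat_lit 0x10012) (nat_lit 0) pn))))))))))))))))))))))))))) :=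
  Cl.node (nat_lit 0xd1) (nat_lit 2) (by decide +kernel) (ClAll.succ (ClAll.succ ClAll.zero s128) n129)

def n170 : Cl (O (nat_lit 1)) (R (nat_lit 14353))
    (p (nat_lit 0xd1) (nat_lit 1) (p (nat_lit 0x380c2) (nat_lit 0) (p (nat_lit 0x4c42a) (nat_lit 8) (p (nat_lit 0xc9) (nat_lit 0) (p (nat_lit 0xc1) (nat_lit 0) (p (nat_lit 0x81) (nat_lit 1) (p (nat_lit 0x101) (nat_lit 1) (p (nat_lit 0x119) (nat_lit 0) (p (nat_lit 0xd1) (nat_lit 0) (p (nat_lit 0x89) (nat_lit 0) (p (nat_lit 0x41) (nat_lit 0) (p (nat_lit 0x8090887069a) (nat_lit 0) (p (nat_lit 0x7870806861a) (nat_lit 0) (p (nat_lit 0x800070786058a) (nat_lit 0) (p (nat_lit 0x787058502) (nat_lit 0) (p (nat_lit 0x586850482) (nat_lit 0) (p (nat_lit 0x160014) (nat_lit 0) (p (nat_lit 0x16000c) (nat_lit 0) (p (nat_lit 0x68612) (nat_lit 0) (p (nat_lit 0x50592) (nat_lit 0) (p (nat_lit 0x40512) (nat_lit 0) (p (nat_lit 0x50312) (nat_lit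 0) (p (nat_lit 0x38292) (nat_lit 0) (p (nat_lit 0x28212) (nat_lit 0) (p (nat_lit 0x38112) (nat_lit 0) (p (nat_lit 0x20092) (nat_lit 0) (p (nat_lit 0x10012) (nat_lit 0) pn))))))))))))))))))))))))))) :=
  Cl.node (nat_lit 0xb000c) (nat_lit 2) (by decide +kernel) (ClAll.succ (ClAll.succ ClAll.zero n130) s159)

def n171 : Cl (O (nat_lit 1)) (R (nat_lit 14353))
    (p (nat_lit 0x200004) (nat_lit 0) (p (nat_lit 0x380c2) (nat_lit 1) (p (nat_lit 0x444aa) (nat_lit 7) (p (nat_lit 0xc9) (nat_lit 1) (p (nat_lit 0xc1) (nat_lit 0) (p (nat_lit 0x81) (nat_lit 1) (p (nat_lit 0x101) (nat_lit 1) (p (nat_lit 0x119) (nat_lit 0) (p (nat_lit 0xd1) (nat_lit 0) (p (nat_lit 0x89) (nat_lit 0) (p (nat_lit 0x41) (nat_lit 0) (p (nat_lit 0x8090887069a) (nat_lit 0) (p (nat_lit 0x7870806861a) (nat_lit 0) (p (nat_lit 0x800070786058a) (nat_lit 0) (p (nat_lit 0x787058502) (nat_lit 0) (p (nat_lit 0x586850482)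 (nat_lit 0) (p (nat_lit 0x160014) (nat_lit 0) (p (nat_lit 0x16000c) (nat_lit 0) (p (nat_lit 0x68612) (nat_lit 0) (p (nat_lit 0x50592) (nat_lit 0) (p (nat_lit 0x40512) (nat_lit 0) (p (nat_lit 0x50312) (nat_lit 0) (p (nat_lit 0x38292) (nat_lit 0) (p (nat_lit 0x28212) (nat_lit 0) (p (nat_lit 0x38112) (nat_lit 0) (p (nat_lit 0x20092) (nat_lit 0) (p (nat_lit 0x10012) (nat_lit 0) pn))))))))))))))))))))))))))) :=
  Cl.node (nat_lit 0x100004) (nat_lit 2) (by decide +kernel) (ClAll.succ (ClAll.succ ClAll.zero n131) s174)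

def n172 : Cl (O (nat_lit 1)) (R (nat_lit 14353))
    (p (nat_lit 0x200004) (nat_lit 0) (p (nat_lit 0x380c2) (nat_lit 0) (p (nat_lit 0x44c2a) (nat_lit 0) (p (nat_lit 0x109) (nat_lit 0) (p (nat_lit 0x101) (nat_lit 0) (p (nat_lit 0x81) (nat_lit 1) (p (nat_lit 0xc1) (nat_lit 1) (p (nat_lit 0x119) (nat_lit 1) (p (nat_lit 0xd1) (nat_lit 0) (p (nat_lit 0x89) (nat_lit 0) (p (nat_lit 0x41) (nat_lit 0) (p (nat_lit 0x8090887069a) (nat_lit 0) (p (nat_lit 0x7870806861a) (nat_lit 0) (p (nat_lit 0x800070786058a) (nat_lit 0) (p (nat_lit 0x787058502) (nat_lit 0) (p (nat_lit 0x586850482) (nat_lit 0) (p (nat_lit 0x160014) (nat_lit 0) (p (nat_lit 0x16000c) (nat_lit 0) (p (nat_lit 0x68612) (nat_lit 0) (p (nat_lit 0x50592) (nat_lit 0) (p (nat_lit 0x40512) (nat_lit 0) (p (nat_lit 0x50312) (nat_lit 0) (p (nat_lit 0x38292) (nat_lit 0) (p (nat_lit 0x28212) (nat_lit 0) (p (nat_lit 0x38112) (nat_lit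 0) (p (nat_lit 0x20092) (nat_lit 0) (p (nat_lit 0x10012) (nat_lit 0) pn))))))))))))))))))))))))))) :=
  Cl.node (nat_lit 0x100004) (nat_lit 2) (by decide +kernel) (ClAll.succ (ClAll.succ ClAll.zero n132) n133)

def n173 : Cl (O (nat_lit 1)) (R (nat_lit 14353))
    (p (nat_lit 0x200004) (nat_lit 0) (p (nat_lit 0x380c2) (nat_lit 1) (p (nat_lit 0x44c2a) (nat_lit 0) (p (nat_lit 0x109) (nat_lit 0) (p (nat_lit 0x101) (nat_lit 0) (p (nat_lit 0x81) (nat_lit 1) (p (nat_lit 0xc1) (nat_lit 1) (p (nat_lit 0x119) (nat_lit 1) (p (nat_lit 0xd1) (nat_lit 0) (p (nat_lit 0x89) (nat_lit 0) (p (nat_lit 0x41) (nat_lit 0) (p (nat_lit 0x8090887069a) (nat_lit 0) (p (nat_lit 0x7870806861a) (nat_lit 0) (p (nat_lit 0x800070786058a) (nat_lit 0) (p (nat_lit 0x787058502) (nat_lit 0) (p (nat_lit 0x586850482) (nat_lit 0) (p (nat_lit 0x160014) (nat_lit 0) (p (nat_lit 0x16000c) (nat_lit 0) (p (nat_lit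 0x68612) (nat_lit 0) (p (nat_lit 0x50592) (nat_lit 0) (p (nat_lit 0x40512) (nat_lit 0) (p (nat_lit 0x50312) (nat_lit 0) (p (nat_lit 0x38292) (nat_lit 0) (p (nat_lit 0x28212) (nat_lit 0) (p (nat_lit 0x38112) (nat_lit 0) (p (nat_lit 0x20092) (nat_lit 0) (p (nat_lit 0x10012) (nat_lit 0) pn))))))))))))))))))))))))))) :=
  Cl.node (nat_lit 0x100004) (nat_lit 2) (by decide +kernel) (ClAll.succ (ClAll.succ ClAll.zero n134) s262)

def n174 : Cl (O (nat_lit 1)) (R (nat_lit 14353))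
    (p (nat_lit 0x200004) (nat_lit 0) (p (nat_lit 0x380c2) (nat_lit 1) (p (nat_lit 0x444aa) (nat_lit 7) (p (nat_lit 0x109) (nat_lit 1) (p (nat_lit 0x101) (nat_lit 0) (p (nat_lit 0x81) (nat_lit 1) (p (nat_lit 0xc1) (nat_lit 1) (p (nat_lit 0x119) (nat_lit 1) (p (nat_lit 0xd1) (nat_lit 0) (p (nat_lit 0x89) (nat_lit 0) (p (nat_lit 0x41) (nat_lit 0) (p (nat_lit 0x8090887069a) (nat_lit 0) (p (nat_lit 0x7870806861a) (nat_lit 0) (p (nat_lit 0x800070786058a) (nat_lit 0) (p (nat_lit 0x787058502) (nat_lit 0) (p (nat_lit 0x586850482) (nat_lit 0) (p (nat_lit 0x160014) (nat_lit 0) (p (nat_lit 0x16000c) (nat_lit 0) (p (nat_lit 0x68612) (nat_lit 0) (p (nat_lit 0x50592) (nat_lit 0) (p (nat_lit 0x40512) (nat_lit 0) (p (nat_lit 0x50312) (nat_lit 0) (p (nat_lit 0x38292) (nat_lit 0) (p (nat_lit 0x28212) (nat_lit 0) (p (nat_lit 0x38112) (nat_lit 0) (p (nat_lit 0x20092) (nat_lit 0) (p (nat_lit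 0x10012) (nat_lit 0) pn))))))))))))))))))))))))))) :=
  Cl.node (nat_lit 0x100004) (nat_lit 2) (by decide +kernel) (ClAll.succ (ClAll.succ ClAll.zero n135) s298)

def n175 : Cl (O (nat_lit 1)) (R (nat_lit 14353))
    (p (nat_lit 0x380c2) (nat_lit 0) (p (nat_lit 0x4c42a) (nat_lit 2) (p (nat_lit 0x109) (nat_lit 0) (p (nat_lit 0x200004) (nat_lit 0) (p (nat_lit 0x119) (nat_lit 0) (p (nat_lit 0x81) (nat_lit 0) (p (nat_lit 0x101) (nat_lit 1) (p (nat_lit 0x111) (nat_lit 0) (p (nat_lit 0xd1) (nat_lit 1) (p (nat_lit 0x89) (nat_lit 0) (p (nat_lit 0x41) (nat_lit 0) (p (nat_lit 0x8090887069a) (nat_lit 0) (p (nat_lit 0x7870806861a) (nat_lit 0) (p (nat_lit 0x800070786058a) (nat_lit 0) (p (nat_lit 0x787058502) (nat_lit 0) (p (nat_lit 0x586850482) (nat_lit 0) (p (nat_lit 0x160014) (nat_lit 0) (p (nat_lit 0x16000c) (nat_lit 0) (p (nat_lit 0x68612) (nat_lit 0) (p (nat_lit 0x50592) (nat_lit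 0) (p (nat_lit 0x40512) (nat_lit 0) (p (nat_lit 0x50312) (nat_lit 0) (p (nat_lit 0x38292) (nat_lit 0) (p (nat_lit 0x28212) (nat_lit 0) (p (nat_lit 0x38112) (nat_lit 0) (p (nat_lit 0x20092) (nat_lit 0) (p (nat_lit 0x10012) (nat_lit 0) pn))))))))))))))))))))))))))) :=
  Cl.node (nat_lit 0x100004) (nat_lit 2) (by decide +kernel) (ClAll.succ (ClAll.succ ClAll.zero n136) s341)

def n176 : Cl (O (nat_lit 1)) (R (nat_lit 14353))
    (p (nat_lit 0x200004) (nat_lit 0) (p (nat_lit 0x380c2) (nat_lit 1) (p (nat_lit 0x444aa) (nat_lit 7) (p (nat_lit 0x119) (nat_lit 0) (p (nat_lit 0xc1) (nat_lit 0) (p (nat_lit 0x81) (nat_lit 1) (p (nat_lit 0x101) (nat_lit 1) (p (nat_lit 0x111) (nat_lit 0) (p (nat_lit 0xd1) (nat_lit 1) (p (nat_lit 0x89) (nat_lit 0) (p (nat_lit 0x41) (nat_lit 0) (p (nat_lit 0x8090887069a) (nat_lit 0) (p (nat_lit 0x7870806861a) (nat_lit 0) (p (nat_lit 0x800070786058a)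 (nat_lit 0) (p (nat_lit 0x787058502) (nat_lit 0) (p (nat_lit 0x586850482) (nat_lit 0) (p (nat_lit 0x160014) (nat_lit 0) (p (nat_lit 0x16000c) (nat_lit 0) (p (nat_lit 0x68612) (nat_lit 0) (p (nat_lit 0x50592) (nat_lit 0) (p (nat_lit 0x40512) (nat_lit 0) (p (nat_lit 0x50312) (nat_lit 0) (p (nat_lit 0x38292) (nat_lit 0) (p (nat_lit 0x28212) (nat_lit 0) (p (nat_lit 0x38112) (nat_lit 0) (p (nat_lit 0x20092) (nat_lit 0) (p (nat_lit 0x10012) (nat_lit 0) pn))))))))))))))))))))))))))) :=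
  Cl.node (nat_lit 0xc9) (nat_lit 2) (by decide +kernel) (ClAll.succ (ClAll.succ ClAll.zero n137) s375)

def n177 : Cl (O (nat_lit 1)) (R (nat_lit 14353))
    (p (nat_lit 0x200004) (nat_lit 0) (p (nat_lit 0x380c2) (nat_lit 0) (p (nat_lit 0x444aa) (nat_lit 7) (p (nat_lit 0xd1) (nat_lit 1) (p (nat_lit 0x111) (nat_lit 1) (p (nat_lit 0x109) (nat_lit 0) (p (nat_lit 0x101) (nat_lit 0) (p (nat_lit 0x119) (nat_lit 0) (p (nat_lit 0xc9) (nat_lit 0) (p (nat_lit 0x89) (nat_lit 1) (p (nat_lit 0x41) (nat_lit 0) (p (nat_lit 0x8090887069a) (nat_lit 0) (p (nat_lit 0x7870806861a) (nat_lit 0) (p (nat_lit 0x800070786058a) (nat_lit 0) (p (nat_lit 0x787058502) (nat_lit 0) (p (nat_lit 0x586850482) (nat_lit 0) (p (nat_lit 0x160014) (nat_lit 0) (p (nat_lit 0x16000c) (nat_lit 0) (p (nat_lit 0x68612) (nat_lit 0) (p (nat_lit 0x50592) (nat_lit 0) (p (nat_lit 0x40512) (nat_lit 0) (p (nat_lit 0x50312)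 (nat_lit 0) (p (nat_lit 0x38292) (nat_lit 0) (p (nat_lit 0x28212) (nat_lit 0) (p (nat_lit 0x38112) (nat_lit 0) (p (nat_lit 0x20092) (nat_lit 0) (p (nat_lit 0x10012) (nat_lit 0) pn))))))))))))))))))))))))))) :=
  Cl.node (nat_lit 0x100004) (nat_lit 2) (by decide +kernel) (ClAll.succ (ClAll.succ ClAll.zero n138) s433)

def n178 : Cl (O (nat_lit 1)) (R (nat_lit 14353))
    (p (nat_lit 0x200004) (nat_lit 0) (p (nat_lit 0x380c2) (nat_lit 1) (p (nat_lit 0x444aa) (nat_lit 7) (p (nat_lit 0xd1) (nat_lit 1) (p (nat_lit 0x111) (nat_lit 1) (p (nat_lit 0x109) (nat_lit 0) (p (nat_lit 0x101) (nat_lit 0) (p (nat_lit 0x119) (nat_lit 0) (p (nat_lit 0xc9) (nat_lit 0) (p (nat_lit 0x89) (nat_lit 1) (p (nat_lit 0x41) (nat_lit 0) (p (nat_lit 0x8090887069a) (nat_lit 0) (p (nat_lit 0x7870806861a) (nat_lit 0) (p (nat_lit 0x800070786058a) (nat_lit 0) (p (nat_lit 0x787058502) (nat_lit 0) (p (nat_lit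 0x586850482) (nat_lit 0) (p (nat_lit 0x160014) (nat_lit 0) (p (nat_lit 0x16000c) (nat_lit 0) (p (nat_lit 0x68612) (nat_lit 0) (p (nat_lit 0x50592) (nat_lit 0) (p (nat_lit 0x40512) (nat_lit 0) (p (nat_lit 0x50312) (nat_lit 0) (p (nat_lit 0x38292) (nat_lit 0) (p (nat_lit 0x28212) (nat_lit 0) (p (nat_lit 0x38112) (nat_lit 0) (p (nat_lit 0x20092) (nat_lit 0) (p (nat_lit 0x10012) (nat_lit 0) pn))))))))))))))))))))))))))) :=
  Cl.node (nat_lit 0x100004) (nat_lit 2) (by decide +kernel) (ClAll.succ (ClAll.succ ClAll.zero n139) s440)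

def n179 : Cl (O (nat_lit 1)) (R (nat_lit 14353))
    (p (nat_lit 0x380c2) (nat_lit 0) (p (nat_lit 0x44c2a) (nat_lit 1) (p (nat_lit 0x41) (nat_lit 0) (p (nat_lit 0x200004) (nat_lit 0) (p (nat_lit 0xd1) (nat_lit 0) (p (nat_lit 0x109) (nat_lit 1) (p (nat_lit 0x101) (nat_lit 0) (p (nat_lit 0x119) (nat_lit 0) (p (nat_lit 0xc9) (nat_lit 0) (p (nat_lit 0x89) (nat_lit 1) (p (nat_lit 0x41) (nat_lit 0) (p (nat_lit 0x8090887069a) (nat_lit 0) (p (nat_lit 0x7870806861a) (nat_lit 0) (p (nat_lit 0x800070786058a) (nat_lit 0) (p (nat_lit 0x787058502) (nat_lit 0) (p (nat_lit 0x586850482) (nat_lit 0) (p (nat_lit 0x160014) (nat_lit 0) (p (nat_lit 0x16000c) (nat_lit 0) (p (nat_lit 0x68612) (nat_lit 0) (p (nat_lit 0x50592) (nat_lit 0) (p (nat_lit 0x40512) (nat_lit 0) (p (nat_lit 0x50312) (nat_lit 0) (p (nat_lit 0x38292) (nat_lit 0) (p (nat_lit 0x28212) (nat_lit 0) (p (nat_lit 0x38112) (nat_lit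 0) (p (nat_lit 0x20092) (nat_lit 0) (p (nat_lit 0x10012) (nat_lit 0) pn))))))))))))))))))))))))))) :=
  Cl.node (nat_lit 0xc1) (nat_lit 2) (by decide +kernel) (ClAll.succ (ClAll.succ ClAll.zero s448) s449)

def n180 : Cl (O (nat_lit 1)) (R (nat_lit 14353))
    (p (nat_lit 0x100004) (nat_lit 0) (p (nat_lit 0x200004) (nat_lit 0) (p (nat_lit 0x380c2) (nat_lit 0) (p (nat_lit 0x444aa) (nat_lit 7) (p (nat_lit 0xd1) (nat_lit 1) (p (nat_lit 0x109) (nat_lit 1) (p (nat_lit 0x101) (nat_lit 0) (p (nat_lit 0x119) (nat_lit 0) (p (nat_lit 0xc9) (nat_lit 0) (p (nat_lit 0x89) (nat_lit 1) (p (nat_lit 0x41) (nat_lit 0) (p (nat_lit 0x8090887069a) (nat_lit 0) (p (nat_lit 0x7870806861a) (nat_lit 0) (p (nat_lit 0x800070786058a) (nat_lit 0) (p (nat_lit 0x787058502) (nat_lit 0) (p (nat_lit 0x586850482) (nat_lit 0) (p (nat_lit 0x160014) (nat_lit 0) (p (nat_lit 0x16000c) (nat_lit 0) (p (nat_lit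 0x68612) (nat_lit 0) (p (nat_lit 0x50592) (nat_lit 0) (p (nat_lit 0x40512) (nat_lit 0) (p (nat_lit 0x50312) (nat_lit 0) (p (nat_lit 0x38292) (nat_lit 0) (p (nat_lit 0x28212) (nat_lit 0) (p (nat_lit 0x38112) (nat_lit 0) (p (nat_lit 0x20092) (nat_lit 0) (p (nat_lit 0x10012) (nat_lit 0) pn))))))))))))))))))))))))))) :=
  Cl.node (nat_lit 0xb000c) (nat_lit 2) (by decide +kernel) (ClAll.succ (ClAll.succ ClAll.zero n140) s483)

def n181 : Cl (O (nat_lit 1)) (R (nat_lit 14353))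
    (p (nat_lit 0x100004) (nat_lit 0) (p (nat_lit 0x200004) (nat_lit 0) (p (nat_lit 0x380c2) (nat_lit 1) (p (nat_lit 0x444aa) (nat_lit 7) (p (nat_lit 0xd1) (nat_lit 1) (p (nat_lit 0x109) (nat_lit 1) (p (nat_lit 0x101) (nat_lit 0) (p (nat_lit 0x119) (nat_lit 0) (p (nat_lit 0xc9) (nat_lit 0) (p (nat_lit 0x89) (nat_lit 1) (p (nat_lit 0x41) (nat_lit 0) (p (nat_lit 0x8090887069a) (nat_lit 0) (p (nat_lit 0x7870806861a) (nat_lit 0) (p (nat_lit 0x800070786058a) (nat_lit 0) (p (nat_lit 0x787058502) (nat_lit 0) (p (nat_lit 0x586850482) (nat_lit 0) (p (nat_lit 0x160014) (nat_lit 0) (p (nat_lit 0x16000c) (nat_lit 0) (p (nat_lit 0x68612) (nat_lit 0) (p (nat_lit 0x50592) (nat_lit 0) (p (nat_lit 0x40512) (nat_lit 0) (p (nat_lit 0x50312) (nat_lit 0) (p (nat_lit 0x38292) (nat_lit 0) (p (nat_lit 0x28212) (nat_lit 0) (p (nat_lit 0x38112) (nat_lit 0) (p (nat_lit 0x20092) (nat_lit 0) (p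 (nat_lit 0x10012) (nat_lit 0) pn))))))))))))))))))))))))))) :=
  Cl.node (nat_lit 0xc1) (nat_lit 2) (by decide +kernel) (ClAll.succ (ClAll.succ ClAll.zero n141) s531)

def n182 : Cl (O (nat_lit 1)) (R (nat_lit 14353))
    (p (nat_lit 0x380c2) (nat_lit 0) (p (nat_lit 0x44c2a) (nat_lit 0) (p (nat_lit 0x109) (nat_lit 1) (p (nat_lit 0x200004) (nat_lit 0) (p (nat_lit 0xd1) (nat_lit 0) (p (nat_lit 0xc1) (nat_lit 0) (p (nat_lit 0x101) (nat_lit 1) (p (nat_lit 0x119) (nat_lit 0) (p (nat_lit 0xc9) (nat_lit 0) (p (nat_lit 0x89) (nat_lit 1) (p (nat_lit 0x41) (nat_lit 0) (p (nat_lit 0x8090887069a) (nat_lit 0) (p (nat_lit 0x7870806861a) (nat_lit 0) (p (nat_lit 0x800070786058a) (nat_lit 0) (p (nat_lit 0x787058502) (nat_lit 0) (p (nat_lit 0x586850482) (nat_lit 0) (p (nat_lit 0x160014) (nat_lit 0) (p (nat_lit 0x16000c) (nat_lit 0) (p (nat_lit 0x68612) (nat_lit 0) (p (nat_lit 0x50592)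 (nat_lit 0) (p (nat_lit 0x40512) (nat_lit 0) (p (nat_lit 0x50312) (nat_lit 0) (p (nat_lit 0x38292) (nat_lit 0) (p (nat_lit 0x28212) (nat_lit 0) (p (nat_lit 0x38112) (nat_lit 0) (p (nat_lit 0x20092) (nat_lit 0) (p (nat_lit 0x10012) (nat_lit 0) pn))))))))))))))))))))))))))) :=
  Cl.node (nat_lit 0x100004) (nat_lit 2) (by decide +kernel) (ClAll.succ (ClAll.succ ClAll.zero s539) s540)

def n183 : Cl (O (nat_lit 1)) (R (nat_lit 14353))
    (p (nat_lit 0x380c2) (nat_lit 1) (p (nat_lit 0x44c2a) (nat_lit 0) (p (nat_lit 0x109) (nat_lit 1) (p (nat_lit 0x200004) (nat_lit 0) (p (nat_lit 0xd1) (nat_lit 0) (p (nat_lit 0xc1) (nat_lit 0) (p (nat_lit 0x101) (nat_lit 1) (p (nat_lit 0x119) (nat_lit 0) (p (nat_lit 0xc9) (nat_lit 0) (p (nat_lit 0x89) (nat_lit 1) (p (nat_lit 0x41) (nat_lit 0) (p (nat_lit 0x8090887069a) (nat_lit 0) (p (nat_lit 0x7870806861a) (nat_lit 0) (p (nat_lit 0x800070786058a)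 (nat_lit 0) (p (nat_lit 0x787058502) (nat_lit 0) (p (nat_lit 0x586850482) (nat_lit 0) (p (nat_lit 0x160014) (nat_lit 0) (p (nat_lit 0x16000c) (nat_lit 0) (p (nat_lit 0x68612) (nat_lit 0) (p (nat_lit 0x50592) (nat_lit 0) (p (nat_lit 0x40512) (nat_lit 0) (p (nat_lit 0x50312) (nat_lit 0) (p (nat_lit 0x38292) (nat_lit 0) (p (nat_lit 0x28212) (nat_lit 0) (p (nat_lit 0x38112) (nat_lit 0) (p (nat_lit 0x20092) (nat_lit 0) (p (nat_lit 0x10012) (nat_lit 0) pn))))))))))))))))))))))))))) :=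
  Cl.node (nat_lit 0x100004) (nat_lit 2) (by decide +kernel) (ClAll.succ (ClAll.succ ClAll.zero s541) s542)

def n184 : Cl (O (nat_lit 1)) (R (nat_lit 14353))
    (p (nat_lit 0x380c2) (nat_lit 0) (p (nat_lit 0x44c2a) (nat_lit 1) (p (nat_lit 0x109) (nat_lit 1) (p (nat_lit 0x200004) (nat_lit 0) (p (nat_lit 0xd1) (nat_lit 0) (p (nat_lit 0xc1) (nat_lit 0) (p (nat_lit 0x101) (nat_lit 1) (p (nat_lit 0x119) (nat_lit 0) (p (nat_lit 0xc9) (nat_lit 0) (p (nat_lit 0x89) (nat_lit 1) (p (nat_lit 0x41) (nat_lit 0) (p (nat_lit 0x8090887069a) (nat_lit 0) (p (nat_lit 0x7870806861a) (nat_lit 0) (p (nat_lit 0x800070786058a) (nat_lit 0) (p (nat_lit 0x787058502) (nat_lit 0) (p (nat_lit 0x586850482) (nat_lit 0) (p (nat_lit 0x160014) (nat_lit 0) (p (nat_lit 0x16000c) (nat_lit 0) (p (nat_lit 0x68612) (nat_lit 0) (p (nat_lit 0x50592) (nat_lit 0) (p (nat_lit 0x40512) (nat_lit 0) (p (nat_lit 0x50312)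 (nat_lit 0) (p (nat_lit 0x38292) (nat_lit 0) (p (nat_lit 0x28212) (nat_lit 0) (p (nat_lit 0x38112) (nat_lit 0) (p (nat_lit 0x20092) (nat_lit 0) (p (nat_lit 0x10012) (nat_lit 0) pn))))))))))))))))))))))))))) :=
  Cl.node (nat_lit 0x41) (nat_lit 2) (by decide +kernel) (ClAll.succ (ClAll.succ ClAll.zero s543) s544)

def n185 : Cl (O (nat_lit 1)) (R (nat_lit 14353))
    (p (nat_lit 0xc9) (nat_lit 0) (p (nat_lit 0x200004) (nat_lit 0) (p (nat_lit 0x380c2) (nat_lit 1) (p (nat_lit 0x444aa) (nat_lit 7) (p (nat_lit 0xd1) (nat_lit 1) (p (nat_lit 0xc1) (nat_lit 0) (p (nat_lit 0x101) (nat_lit 1) (p (nat_lit 0x119) (nat_lit 0) (p (nat_lit 0xc9) (nat_lit 0) (p (nat_lit 0x89) (nat_lit 1) (p (nat_lit 0x41) (nat_lit 0) (p (nat_lit 0x8090887069a) (nat_lit 0) (p (nat_lit 0x7870806861a) (nat_lit 0) (p (nat_lit 0x800070786058a) (nat_lit 0) (p (nat_lit 0x787058502) (nat_lit 0) (p (nat_lit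 0x586850482) (nat_lit 0) (p (nat_lit 0x160014) (nat_lit 0) (p (nat_lit 0x16000c) (nat_lit 0) (p (nat_lit 0x68612) (nat_lit 0) (p (nat_lit 0x50592) (nat_lit 0) (p (nat_lit 0x40512) (nat_lit 0) (p (nat_lit 0x50312) (nat_lit 0) (p (nat_lit 0x38292) (nat_lit 0) (p (nat_lit 0x28212) (nat_lit 0) (p (nat_lit 0x38112) (nat_lit 0) (p (nat_lit 0x20092) (nat_lit 0) (p (nat_lit 0x10012) (nat_lit 0) pn))))))))))))))))))))))))))) :=
  Cl.node (nat_lit 0x100004) (nat_lit 2) (by decide +kernel) (ClAll.succ (ClAll.succ ClAll.zero n142) s577)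

def n186 : Cl (O (nat_lit 1)) (R (nat_lit 14353))
    (p (nat_lit 0x100004) (nat_lit 1) (p (nat_lit 0x200004) (nat_lit 0) (p (nat_lit 0x380c2) (nat_lit 1) (p (nat_lit 0x444aa) (nat_lit 7) (p (nat_lit 0x111) (nat_lit 1) (p (nat_lit 0xd1) (nat_lit 1) (p (nat_lit 0xc1) (nat_lit 0) (p (nat_lit 0x119) (nat_lit 1) (p (nat_lit 0xc9) (nat_lit 0) (p (nat_lit 0x89) (nat_lit 1) (p (nat_lit 0x41) (nat_lit 0) (p (nat_lit 0x8090887069a) (nat_lit 0) (p (nat_lit 0x7870806861a) (nat_lit 0) (p (nat_lit 0x800070786058a) (nat_lit 0) (p (nat_lit 0x787058502) (nat_lit 0) (p (nat_lit 0x586850482) (nat_lit 0) (p (nat_lit 0x160014) (nat_lit 0) (p (nat_lit 0x16000c) (nat_lit 0) (p (nat_lit 0x68612) (nat_lit 0) (p (nat_lit 0x50592) (nat_lit 0) (p (nat_lit 0x40512) (nat_lit 0) (p (nat_lit 0x50312) (nat_lit 0) (p (nat_lit 0x38292) (nat_lit 0) (p (nat_lit 0x28212) (nat_lit 0) (p (nat_lit 0x38112)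 (nat_lit 0) (p (nat_lit 0x20092) (nat_lit 0) (p (nat_lit 0x10012) (nat_lit 0) pn))))))))))))))))))))))))))) :=
  Cl.node (nat_lit 0x10800c) (nat_lit 2) (by decide +kernel) (ClAll.succ (ClAll.succ ClAll.zero n143) s601)

def n187 : Cl (O (nat_lit 1)) (R (nat_lit 14353))
    (p (nat_lit 0xb0014) (nat_lit 0) (p (nat_lit 0x200004) (nat_lit 0) (p (nat_lit 0x380c2) (nat_lit 0) (p (nat_lit 0x44c2a) (nat_lit 0) (p (nat_lit 0x111) (nat_lit 0) (p (nat_lit 0x101) (nat_lit 0) (p (nat_lit 0xc1) (nat_lit 1) (p (nat_lit 0x119) (nat_lit 1) (p (nat_lit 0xc9) (nat_lit 0) (p (nat_lit 0x89) (nat_lit 1) (p (nat_lit 0x41) (nat_lit 0) (p (nat_lit 0x8090887069a) (nat_lit 0) (p (nat_lit 0x7870806861a) (nat_lit 0) (p (nat_lit 0x800070786058a) (nat_lit 0) (p (nat_lit 0x787058502) (nat_lit 0) (p (nat_lit 0x586850482) (nat_lit 0) (p (nat_lit 0x160014) (nat_lit 0) (p (nat_lit 0x16000c) (nat_lit 0)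 (p (nat_lit 0x68612) (nat_lit 0) (p (nat_lit 0x50592) (nat_lit 0) (p (nat_lit 0x40512) (nat_lit 0) (p (nat_lit 0x50312) (nat_lit 0) (p (nat_lit 0x38292) (nat_lit 0) (p (nat_lit 0x28212) (nat_lit 0) (p (nat_lit 0x38112) (nat_lit 0) (p (nat_lit 0x20092) (nat_lit 0) (p (nat_lit 0x10012) (nat_lit 0) pn))))))))))))))))))))))))))) :=
  Cl.node (nat_lit 0x41) (nat_lit 2) (by decide +kernel) (ClAll.succ (ClAll.succ ClAll.zero s607) n144)

def n188 : Cl (O (nat_lit 1)) (R (nat_lit 14353))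
    (p (nat_lit 0x41) (nat_lit 1) (p (nat_lit 0x200004) (nat_lit 0) (p (nat_lit 0x380c2) (nat_lit 0) (p (nat_lit 0x44c2a) (nat_lit 1) (p (nat_lit 0x111) (nat_lit 0) (p (nat_lit 0x101) (nat_lit 0) (p (nat_lit 0xc1) (nat_lit 1) (p (nat_lit 0x119) (nat_lit 1) (p (nat_lit 0xc9) (nat_lit 0) (p (nat_lit 0x89) (nat_lit 1) (p (nat_lit 0x41) (nat_lit 0) (p (nat_lit 0x8090887069a) (nat_lit 0) (p (nat_lit 0x7870806861a) (nat_lit 0) (p (nat_lit 0x800070786058a) (nat_lit 0) (p (nat_lit 0x787058502) (nat_lit 0) (p (nat_lit 0x586850482) (nat_lit 0) (p (nat_lit 0x160014) (nat_lit 0) (p (nat_lit 0x16000c) (nat_lit 0) (p (nat_lit 0x68612) (nat_lit 0) (p (nat_lit 0x50592) (nat_lit 0) (p (nat_lit 0x40512) (nat_lit 0) (p (nat_lit 0x50312) (nat_lit 0) (p (nat_lit 0x38292) (nat_lit 0) (p (nat_lit 0x28212) (nat_lit 0) (p (nat_lit 0x38112) (nat_lit 0) (p (nat_lit 0x20092) (nat_lit 0) (p (nat_lit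 0x10012) (nat_lit 0) pn))))))))))))))))))))))))))) :=
  Cl.node (nat_lit 0x81) (nat_lit 2) (by decide +kernel) (ClAll.succ (ClAll.succ ClAll.zero s626) s627)

def n189 : Cl (O (nat_lit 1)) (R (nat_lit 14353))
    (p (nat_lit 0x109) (nat_lit 0) (p (nat_lit 0x200004) (nat_lit 0) (p (nat_lit 0x380c2) (nat_lit 1) (p (nat_lit 0x444aa) (nat_lit 7) (p (nat_lit 0x111) (nat_lit 1) (p (nat_lit 0x101) (nat_lit 0) (p (nat_lit 0xc1) (nat_lit 1) (p (nat_lit 0x119) (nat_lit 1) (p (nat_lit 0xc9) (nat_lit 0) (p (nat_lit 0x89) (nat_lit 1) (p (nat_lit 0x41) (nat_lit 0) (p (nat_lit 0x8090887069a) (nat_lit 0) (p (nat_lit 0x7870806861a) (nat_lit 0) (p (nat_lit 0x800070786058a) (nat_lit 0) (p (nat_lit 0x787058502) (nat_lit 0) (p (nat_lit 0x586850482) (nat_lit 0) (p (nat_lit 0x160014) (nat_lit 0) (p (nat_lit 0x16000c) (nat_lit 0) (p (nat_lit 0x68612) (nat_lit 0) (p (nat_lit 0x50592) (nat_lit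 0) (p (nat_lit 0x40512) (nat_lit 0) (p (nat_lit 0x50312) (nat_lit 0) (p (nat_lit 0x38292) (nat_lit 0) (p (nat_lit 0x28212) (nat_lit 0) (p (nat_lit 0x38112) (nat_lit 0) (p (nat_lit 0x20092) (nat_lit 0) (p (nat_lit 0x10012) (nat_lit 0) pn))))))))))))))))))))))))))) :=
  Cl.node (nat_lit 0x100004) (nat_lit 2) (by decide +kernel) (ClAll.succ (ClAll.succ ClAll.zero n145) s660)

def n190 : Cl (O (nat_lit 1)) (R (nat_lit 14353))
    (p (nat_lit 0xc9) (nat_lit 1) (p (nat_lit 0x380c2) (nat_lit 0) (p (nat_lit 0x4c42a) (nat_lit 2) (p (nat_lit 0x111) (nat_lit 0) (p (nat_lit 0x89) (nat_lit 0) (p (nat_lit 0x109) (nat_lit 1) (p (nat_lit 0x101) (nat_lit 0) (p (nat_lit 0x119) (nat_lit 0) (p (nat_lit 0xd1) (nat_lit 0) (p (nat_lit 0x81) (nat_lit 0) (p (nat_lit 0x41) (nat_lit 1) (p (nat_lit 0x8090887069a) (nat_lit 0) (p (nat_lit 0x7870806861a) (nat_lit 0) (p (nat_lit 0x800070786058a) (nat_lit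 0) (p (nat_lit 0x787058502) (nat_lit 0) (p (nat_lit 0x586850482) (nat_lit 0) (p (nat_lit 0x160014) (nat_lit 0) (p (nat_lit 0x16000c) (nat_lit 0) (p (nat_lit 0x68612) (nat_lit 0) (p (nat_lit 0x50592) (nat_lit 0) (p (nat_lit 0x40512) (nat_lit 0) (p (nat_lit 0x50312) (nat_lit 0) (p (nat_lit 0x38292) (nat_lit 0) (p (nat_lit 0x28212) (nat_lit 0) (p (nat_lit 0x38112) (nat_lit 0) (p (nat_lit 0x20092) (nat_lit 0) (p (nat_lit 0x10012) (nat_lit 0) pn))))))))))))))))))))))))))) :=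
  Cl.node (nat_lit 0x200004) (nat_lit 2) (by decide +kernel) (ClAll.succ (ClAll.succ ClAll.zero n146) s700)

def n191 : Cl (O (nat_lit 1)) (R (nat_lit 14353))
    (p (nat_lit 0xc9) (nat_lit 1) (p (nat_lit 0x380c2) (nat_lit 0) (p (nat_lit 0x4c42a) (nat_lit 8) (p (nat_lit 0x111) (nat_lit 0) (p (nat_lit 0x89) (nat_lit 0) (p (nat_lit 0x109) (nat_lit 1) (p (nat_lit 0x101) (nat_lit 0) (p (nat_lit 0x119) (nat_lit 0) (p (nat_lit 0xd1) (nat_lit 0) (p (nat_lit 0x81) (nat_lit 0) (p (nat_lit 0x41) (nat_lit 1) (p (nat_lit 0x8090887069a) (nat_lit 0) (p (nat_lit 0x7870806861a) (nat_lit 0) (p (nat_lit 0x800070786058a) (nat_lit 0) (p (nat_lit 0x787058502) (nat_lit 0) (p (nat_lit 0x586850482) (nat_lit 0) (p (nat_lit 0x160014) (nat_lit 0) (p (nat_lit 0x16000c) (nat_lit 0) (p (nat_lit 0x68612) (nat_lit 0) (p (nat_lit 0x50592) (nat_lit 0) (p (nat_lit 0x40512) (nat_lit 0) (p (nat_lit 0x50312)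 (nat_lit 0) (p (nat_lit 0x38292) (nat_lit 0) (p (nat_lit 0x28212) (nat_lit 0) (p (nat_lit 0x38112) (nat_lit 0) (p (nat_lit 0x20092) (nat_lit 0) (p (nat_lit 0x10012) (nat_lit 0) pn))))))))))))))))))))))))))) :=
  Cl.node (nat_lit 0xb000c) (nat_lit 2) (by decide +kernel) (ClAll.succ (ClAll.succ ClAll.zero n147) s714)

def n192 : Cl (O (nat_lit 1)) (R (nat_lit 14353))
    (p (nat_lit 0xb0014) (nat_lit 0) (p (nat_lit 0x380c2) (nat_lit 0) (p (nat_lit 0x3cc2a) (nat_lit 11) (p (nat_lit 0x111) (nat_lit 1) (p (nat_lit 0x89) (nat_lit 0) (p (nat_lit 0x109) (nat_lit 1) (p (nat_lit 0x101) (nat_lit 0) (p (nat_lit 0x119) (nat_lit 0) (p (nat_lit 0xd1) (nat_lit 0) (p (nat_lit 0x81) (nat_lit 0) (p (nat_lit 0x41) (nat_lit 1) (p (nat_lit 0x8090887069a) (nat_lit 0) (p (nat_lit 0x7870806861a) (nat_lit 0) (p (nat_lit 0x800070786058a) (nat_lit 0) (p (nat_lit 0x787058502) (nat_lit 0) (p (nat_lit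 0x586850482) (nat_lit 0) (p (nat_lit 0x160014) (nat_lit 0) (p (nat_lit 0x16000c) (nat_lit 0) (p (nat_lit 0x68612) (nat_lit 0) (p (nat_lit 0x50592) (nat_lit 0) (p (nat_lit 0x40512) (nat_lit 0) (p (nat_lit 0x50312) (nat_lit 0) (p (nat_lit 0x38292) (nat_lit 0) (p (nat_lit 0x28212) (nat_lit 0) (p (nat_lit 0x38112) (nat_lit 0) (p (nat_lit 0x20092) (nat_lit 0) (p (nat_lit 0x10012) (nat_lit 0) pn))))))))))))))))))))))))))) :=
  Cl.node (nat_lit 0xb000c) (nat_lit 2) (by decide +kernel) (ClAll.succ (ClAll.succ ClAll.zero n148) s743)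

def n193 : Cl (O (nat_lit 1)) (R (nat_lit 14353))
    (p (nat_lit 0x111) (nat_lit 1) (p (nat_lit 0x380c2) (nat_lit 0) (p (nat_lit 0x4c42a) (nat_lit 2) (p (nat_lit 0xc9) (nat_lit 0) (p (nat_lit 0x89) (nat_lit 1) (p (nat_lit 0x109) (nat_lit 1) (p (nat_lit 0x101) (nat_lit 0) (p (nat_lit 0x119) (nat_lit 0) (p (nat_lit 0xd1) (nat_lit 0) (p (nat_lit 0x81) (nat_lit 0) (p (nat_lit 0x41) (nat_lit 1) (p (nat_lit 0x8090887069a) (nat_lit 0) (p (nat_lit 0x7870806861a) (nat_lit 0) (p (nat_lit 0x800070786058a) (nat_lit 0) (p (nat_lit 0x787058502) (nat_lit 0) (p (nat_lit 0x586850482) (nat_lit 0) (p (nat_lit 0x160014) (nat_lit 0) (p (nat_lit 0x16000c) (nat_lit 0) (p (nat_lit 0x68612) (nat_lit 0) (p (nat_lit 0x50592) (nat_lit 0) (p (nat_lit 0x40512) (nat_lit 0) (p (nat_lit 0x50312) (nat_lit 0) (p (nat_lit 0x38292) (nat_lit 0) (p (nat_lit 0x28212) (nat_lit 0) (p (nat_lit 0x38112) (nat_lit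 0) (p (nat_lit 0x20092) (nat_lit 0) (p (nat_lit 0x10012) (nat_lit 0) pn))))))))))))))))))))))))))) :=
  Cl.node (nat_lit 0xd1) (nat_lit 2) (by decide +kernel) (ClAll.succ (ClAll.succ ClAll.zero s749) n149)

def n194 : Cl (O (nat_lit 1)) (R (nat_lit 14353))
    (p (nat_lit 0x111) (nat_lit 1) (p (nat_lit 0x380c2) (nat_lit 0) (p (nat_lit 0x4c42a) (nat_lit 8) (p (nat_lit 0xc9) (nat_lit 0) (p (nat_lit 0x89) (nat_lit 1) (p (nat_lit 0x109) (nat_lit 1) (p (nat_lit 0x101) (nat_lit 0) (p (nat_lit 0x119) (nat_lit 0) (p (nat_lit 0xd1) (nat_lit 0) (p (nat_lit 0x81) (nat_lit 0) (p (nat_lit 0x41) (nat_lit 1) (p (nat_lit 0x8090887069a) (nat_lit 0) (p (nat_lit 0x7870806861a) (nat_lit 0) (p (nat_lit 0x800070786058a) (nat_lit 0) (p (nat_lit 0x787058502) (nat_lit 0) (p (nat_lit 0x586850482) (nat_lit 0) (p (nat_lit 0x160014) (nat_lit 0) (p (nat_lit 0x16000c) (nat_lit 0) (p (nat_lit 0x68612)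 (nat_lit 0) (p (nat_lit 0x50592) (nat_lit 0) (p (nat_lit 0x40512) (nat_lit 0) (p (nat_lit 0x50312) (nat_lit 0) (p (nat_lit 0x38292) (nat_lit 0) (p (nat_lit 0x28212) (nat_lit 0) (p (nat_lit 0x38112) (nat_lit 0) (p (nat_lit 0x20092) (nat_lit 0) (p (nat_lit 0x10012) (nat_lit 0) pn))))))))))))))))))))))))))) :=
  Cl.node (nat_lit 0xd1) (nat_lit 2) (by decide +kernel) (ClAll.succ (ClAll.succ ClAll.zero s758) n150)

def n195 : Cl (O (nat_lit 1)) (R (nat_lit 14353))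
    (p (nat_lit 0xb000c) (nat_lit 0) (p (nat_lit 0x380c2) (nat_lit 1) (p (nat_lit 0x4c42a) (nat_lit 8) (p (nat_lit 0xc9) (nat_lit 0) (p (nat_lit 0x89) (nat_lit 1) (p (nat_lit 0x109) (nat_lit 1) (p (nat_lit 0x101) (nat_lit 0) (p (nat_lit 0x119) (nat_lit 0) (p (nat_lit 0xd1) (nat_lit 0) (p (nat_lit 0x81) (nat_lit 0) (p (nat_lit 0x41) (nat_lit 1) (p (nat_lit 0x8090887069a) (nat_lit 0) (p (nat_lit 0x7870806861a) (nat_lit 0) (p (nat_lit 0x800070786058a) (nat_lit 0) (p (nat_lit 0x787058502) (nat_lit 0) (p (nat_lit 0x586850482) (nat_lit 0) (p (nat_lit 0x160014) (nat_lit 0) (p (nat_lit 0x16000c) (nat_lit 0) (p (nat_lit 0x68612) (nat_lit 0) (p (nat_lit 0x50592) (nat_lit 0) (p (nat_lit 0x40512) (nat_lit 0) (p (nat_lit 0x50312) (nat_lit 0) (p (nat_lit 0x38292) (nat_lit 0) (p (nat_lit 0x28212) (nat_lit 0) (p (nat_lit 0x38112) (nat_lit 0) (p (nat_lit 0x20092) (nat_lit 0) (p (nat_lit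 0x10012) (nat_lit 0) pn))))))))))))))))))))))))))) :=
  Cl.node (nat_lit 0x111) (nat_lit 2) (by decide +kernel) (ClAll.succ (ClAll.succ ClAll.zero s766) n151)

def n196 : Cl (O (nat_lit 1)) (R (nat_lit 14353))
    (p (nat_lit 0xb000c) (nat_lit 0) (p (nat_lit 0xb0014) (nat_lit 0) (p (nat_lit 0x380c2) (nat_lit 0) (p (nat_lit 0x3cc2a) (nat_lit 11) (p (nat_lit 0x89) (nat_lit 0) (p (nat_lit 0xc1) (nat_lit 0) (p (nat_lit 0x101) (nat_lit 1) (p (nat_lit 0x119) (nat_lit 0) (p (nat_lit 0xd1) (nat_lit 0) (p (nat_lit 0x81) (nat_lit 0) (p (nat_lit 0x41) (nat_lit 1) (p (nat_lit 0x8090887069a) (nat_lit 0) (p (nat_lit 0x7870806861a) (nat_lit 0) (p (nat_lit 0x800070786058a) (nat_lit 0) (p (nat_lit 0x787058502) (nat_lit 0) (p (nat_lit 0x586850482) (nat_lit 0) (p (nat_lit 0x160014) (nat_lit 0) (p (nat_lit 0x16000c) (nat_lit 0) (p (nat_lit 0x68612) (nat_lit 0) (p (nat_lit 0x50592) (nat_lit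 0) (p (nat_lit 0x40512) (nat_lit 0) (p (nat_lit 0x50312) (nat_lit 0) (p (nat_lit 0x38292) (nat_lit 0) (p (nat_lit 0x28212) (nat_lit 0) (p (nat_lit 0x38112) (nat_lit 0) (p (nat_lit 0x20092) (nat_lit 0) (p (nat_lit 0x10012) (nat_lit 0) pn))))))))))))))))))))))))))) :=
  Cl.node (nat_lit 0x111) (nat_lit 2) (by decide +kernel) (ClAll.succ (ClAll.succ ClAll.zero n152) n153)

def n197 : Cl (O (nat_lit 1)) (R (nat_lit 14353))
    (p (nat_lit 0x111) (nat_lit 1) (p (nat_lit 0x380c2) (nat_lit 0) (p (nat_lit 0x4c42a) (nat_lit 2) (p (nat_lit 0xc9) (nat_lit 0) (p (nat_lit 0x89) (nat_lit 1) (p (nat_lit 0xc1) (nat_lit 0) (p (nat_lit 0x101) (nat_lit 1) (p (nat_lit 0x119) (nat_lit 0) (p (nat_lit 0xd1) (nat_lit 0) (p (nat_lit 0x81) (nat_lit 0) (p (nat_lit 0x41) (nat_lit 1) (p (nat_lit 0x8090887069a) (nat_lit 0) (p (nat_lit 0x7870806861a) (nat_lit 0) (p (nat_lit 0x800070786058a) (nat_lit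 0) (p (nat_lit 0x787058502) (nat_lit 0) (p (nat_lit 0x586850482) (nat_lit 0) (p (nat_lit 0x160014) (nat_lit 0) (p (nat_lit 0x16000c) (nat_lit 0) (p (nat_lit 0x68612) (nat_lit 0) (p (nat_lit 0x50592) (nat_lit 0) (p (nat_lit 0x40512) (nat_lit 0) (p (nat_lit 0x50312) (nat_lit 0) (p (nat_lit 0x38292) (nat_lit 0) (p (nat_lit 0x28212) (nat_lit 0) (p (nat_lit 0x38112) (nat_lit 0) (p (nat_lit 0x20092) (nat_lit 0) (p (nat_lit 0x10012) (nat_lit 0) pn))))))))))))))))))))))))))) :=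
  Cl.node (nat_lit 0xb000c) (nat_lit 2) (by decide +kernel) (ClAll.succ (ClAll.succ ClAll.zero s805) s806)

def n198 : Cl (O (nat_lit 1)) (R (nat_lit 14353))
    (p (nat_lit 0xd1) (nat_lit 1) (p (nat_lit 0x380c2) (nat_lit 0) (p (nat_lit 0x4c42a) (nat_lit 8) (p (nat_lit 0xc9) (nat_lit 0) (p (nat_lit 0x89) (nat_lit 1) (p (nat_lit 0xc1) (nat_lit 0) (p (nat_lit 0x101) (nat_lit 1) (p (nat_lit 0x119) (nat_lit 0) (p (nat_lit 0xd1) (nat_lit 0) (p (nat_lit 0x81) (nat_lit 0) (p (nat_lit 0x41) (nat_lit 1) (p (nat_lit 0x8090887069a) (nat_lit 0) (p (nat_lit 0x7870806861a) (nat_lit 0) (p (nat_lit 0x800070786058a) (nat_lit 0) (p (nat_lit 0x787058502) (nat_lit 0) (p (nat_lit 0x586850482) (nat_lit 0) (p (nat_lit 0x160014) (nat_lit 0) (p (nat_lit 0x16000c) (nat_lit 0) (p (nat_lit 0x68612) (nat_lit 0) (p (nat_lit 0x50592) (nat_lit 0) (p (nat_lit 0x40512) (nat_lit 0) (p (nat_lit 0x50312)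 (nat_lit 0) (p (nat_lit 0x38292) (nat_lit 0) (p (nat_lit 0x28212) (nat_lit 0) (p (nat_lit 0x38112) (nat_lit 0) (p (nat_lit 0x20092) (nat_lit 0) (p (nat_lit 0x10012) (nat_lit 0) pn))))))))))))))))))))))))))) :=
  Cl.node (nat_lit 0xb000c) (nat_lit 2) (by decide +kernel) (ClAll.succ (ClAll.succ ClAll.zero n154) s819)

def n199 : Cl (O (nat_lit 1)) (R (nat_lit 14353))
    (p (nat_lit 0x200004) (nat_lit 0) (p (nat_lit 0x380c2) (nat_lit 0) (p (nat_lit 0x44c2a) (nat_lit 0) (p (nat_lit 0x109) (nat_lit 0) (p (nat_lit 0x89) (nat_lit 1) (p (nat_lit 0xc9) (nat_lit 1) (p (nat_lit 0xc1) (nat_lit 0) (p (nat_lit 0x119) (nat_lit 1) (p (nat_lit 0xd1) (nat_lit 0) (p (nat_lit 0x81) (nat_lit 0) (p (nat_lit 0x41) (nat_lit 1) (p (nat_lit 0x8090887069a) (nat_lit 0) (p (nat_lit 0x7870806861a) (nat_lit 0) (p (nat_lit 0x800070786058a) (nat_lit 0) (p (nat_lit 0x787058502) (nat_lit 0) (p (nat_lit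 0x586850482) (nat_lit 0) (p (nat_lit 0x160014) (nat_lit 0) (p (nat_lit 0x16000c) (nat_lit 0) (p (nat_lit 0x68612) (nat_lit 0) (p (nat_lit 0x50592) (nat_lit 0) (p (nat_lit 0x40512) (nat_lit 0) (p (nat_lit 0x50312) (nat_lit 0) (p (nat_lit 0x38292) (nat_lit 0) (p (nat_lit 0x28212) (nat_lit 0) (p (nat_lit 0x38112) (nat_lit 0) (p (nat_lit 0x20092) (nat_lit 0) (p (nat_lit 0x10012) (nat_lit 0) pn))))))))))))))))))))))))))) :=
  Cl.node (nat_lit 0xb0014) (nat_lit 2) (by decide +kernel) (ClAll.succ (ClAll.succ ClAll.zero n155) s868)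

def n200 : Cl (O (nat_lit 1)) (R (nat_lit 14353))
    (p (nat_lit 0x200004) (nat_lit 0) (p (nat_lit 0x380c2) (nat_lit 0) (p (nat_lit 0x3c4aa) (nat_lit 10) (p (nat_lit 0x109) (nat_lit 1) (p (nat_lit 0x89) (nat_lit 1) (p (nat_lit 0xc9) (nat_lit 1) (p (nat_lit 0xc1) (nat_lit 0) (p (nat_lit 0x119) (nat_lit 1) (p (nat_lit 0xd1) (nat_lit 0) (p (nat_lit 0x81) (nat_lit 0) (p (nat_lit 0x41) (nat_lit 1) (p (nat_lit 0x8090887069a) (nat_lit 0) (p (nat_lit 0x7870806861a) (nat_lit 0) (p (nat_lit 0x800070786058a) (nat_lit 0) (p (nat_lit 0x787058502) (nat_lit 0) (p (nat_lit 0x586850482) (nat_lit 0) (p (nat_lit 0x160014) (nat_lit 0) (p (nat_lit 0x16000c) (nat_lit 0) (p (nat_lit 0x68612) (nat_lit 0) (p (nat_lit 0x50592) (nat_lit 0) (p (nat_lit 0x40512) (nat_lit 0) (p (nat_lit 0x50312) (nat_lit 0) (p (nat_lit 0x38292) (nat_lit 0) (p (nat_lit 0x28212) (nat_lit 0) (p (nat_lit 0x38112) (nat_lit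 0) (p (nat_lit 0x20092) (nat_lit 0) (p (nat_lit 0x10012) (nat_lit 0) pn))))))))))))))))))))))))))) :=
  Cl.node (nat_lit 0x100004) (nat_lit 2) (by decide +kernel) (ClAll.succ (ClAll.succ ClAll.zero n156) s895)

def n201 : Cl (O (nat_lit 1)) (R (nat_lit 14353))
    (p (nat_lit 0x200004) (nat_lit 0) (p (nat_lit 0x380c2) (nat_lit 0) (p (nat_lit 0x44c2a) (nat_lit 0) (p (nat_lit 0x109) (nat_lit 0) (p (nat_lit 0x89) (nat_lit 1) (p (nat_lit 0x101) (nat_lit 0) (p (nat_lit 0xc1) (nat_lit 1) (p (nat_lit 0x119) (nat_lit 1) (p (nat_lit 0xd1) (nat_lit 0) (p (nat_lit 0x81) (nat_lit 0) (p (nat_lit 0x41) (nat_lit 1) (p (nat_lit 0x8090887069a) (nat_lit 0) (p (nat_lit 0x7870806861a) (nat_lit 0) (p (nat_lit 0x800070786058a) (nat_lit 0) (p (nat_lit 0x787058502) (nat_lit 0) (p (nat_lit 0x586850482) (nat_lit 0) (p (nat_lit 0x160014) (nat_lit 0) (p (nat_lit 0x16000c) (nat_lit 0) (p (nat_lit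 0x68612) (nat_lit 0) (p (nat_lit 0x50592) (nat_lit 0) (p (nat_lit 0x40512) (nat_lit 0) (p (nat_lit 0x50312) (nat_lit 0) (p (nat_lit 0x38292) (nat_lit 0) (p (nat_lit 0x28212) (nat_lit 0) (p (nat_lit 0x38112) (nat_lit 0) (p (nat_lit 0x20092) (nat_lit 0) (p (nat_lit 0x10012) (nat_lit 0) pn))))))))))))))))))))))))))) :=
  Cl.node (nat_lit 0x100004) (nat_lit 2) (by decide +kernel) (ClAll.succ (ClAll.succ ClAll.zero s911) s912)

def n202 : Cl (O (nat_lit 1)) (R (nat_lit 14353))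
    (p (nat_lit 0x200004) (nat_lit 0) (p (nat_lit 0x380c2) (nat_lit 0) (p (nat_lit 0x3c4aa) (nat_lit 7) (p (nat_lit 0x109) (nat_lit 1) (p (nat_lit 0x89) (nat_lit 1) (p (nat_lit 0x101) (nat_lit 0) (p (nat_lit 0xc1) (nat_lit 1) (p (nat_lit 0x119) (nat_lit 1) (p (nat_lit 0xd1) (nat_lit 0) (p (nat_lit 0x81) (nat_lit 0) (p (nat_lit 0x41) (nat_lit 1) (p (nat_lit 0x8090887069a) (nat_lit 0) (p (nat_lit 0x7870806861a) (nat_lit 0) (p (nat_lit 0x800070786058a) (nat_lit 0) (p (nat_lit 0x787058502) (nat_lit 0) (p (nat_lit 0x586850482) (nat_lit 0) (p (nat_lit 0x160014) (nat_lit 0) (p (nat_lit 0x16000c) (nat_lit 0) (p (nat_lit 0x68612) (nat_lit 0) (p (nat_lit 0x50592) (nat_lit 0) (p (nat_lit 0x40512) (nat_lit 0) (p (nat_lit 0x50312) (nat_lit 0) (p (nat_lit 0x38292) (nat_lit 0) (p (nat_lit 0x28212) (nat_lit 0) (p (nat_lit 0x38112) (nat_lit 0) (p (nat_lit 0x20092) (nat_lit 0) (p (nat_lit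 0x10012) (nat_lit 0) pn))))))))))))))))))))))))))) :=
  Cl.node (nat_lit 0x100004) (nat_lit 2) (by decide +kernel) (ClAll.succ (ClAll.succ ClAll.zero s933) s934)

def n203 : Cl (O (nat_lit 1)) (R (nat_lit 14353))
    (p (nat_lit 0x200004) (nat_lit 0) (p (nat_lit 0x380c2) (nat_lit 1) (p (nat_lit 0x3c4aa) (nat_lit 7) (p (nat_lit 0x109) (nat_lit 1) (p (nat_lit 0x89) (nat_lit 1) (p (nat_lit 0x101) (nat_lit 0) (p (nat_lit 0xc1) (nat_lit 1) (p (nat_lit 0x119) (nat_lit 1) (p (nat_lit 0xd1) (nat_lit 0) (p (nat_lit 0x81) (nat_lit 0) (p (nat_lit 0x41) (nat_lit 1) (p (nat_lit 0x8090887069a) (nat_lit 0) (p (nat_lit 0x7870806861a) (nat_lit 0) (p (nat_lit 0x800070786058a) (nat_lit 0) (p (nat_lit 0x787058502) (nat_lit 0) (p (nat_lit 0x586850482) (nat_lit 0) (p (nat_lit 0x160014) (nat_lit 0) (p (nat_lit 0x16000c) (nat_lit 0) (p (nat_lit 0x68612) (nat_lit 0) (p (nat_lit 0x50592) (nat_lit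 0) (p (nat_lit 0x40512) (nat_lit 0) (p (nat_lit 0x50312) (nat_lit 0) (p (nat_lit 0x38292) (nat_lit 0) (p (nat_lit 0x28212) (nat_lit 0) (p (nat_lit 0x38112) (nat_lit 0) (p (nat_lit 0x20092) (nat_lit 0) (p (nat_lit 0x10012) (nat_lit 0) pn))))))))))))))))))))))))))) :=
  Cl.node (nat_lit 0x100004) (nat_lit 2) (by decide +kernel) (ClAll.succ (ClAll.succ ClAll.zero s936) s937)

def n204 : Cl (O (nat_lit 1)) (R (nat_lit 14353))
    (p (nat_lit 0x200004) (nat_lit 0) (p (nat_lit 0x380c2) (nat_lit 0) (p (nat_lit 0x3c4aa) (nat_lit 10) (p (nat_lit 0x109) (nat_lit 1) (p (nat_lit 0x89) (nat_lit 1) (p (nat_lit 0x101) (nat_lit 0) (p (nat_lit 0xc1) (nat_lit 1) (p (nat_lit 0x119) (nat_lit 1) (p (nat_lit 0xd1) (nat_lit 0) (p (nat_lit 0x81) (nat_lit 0) (p (nat_lit 0x41) (nat_lit 1) (p (nat_lit 0x8090887069a) (nat_lit 0) (p (nat_lit 0x7870806861a) (nat_lit 0) (p (nat_lit 0x800070786058a)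 (nat_lit 0) (p (nat_lit 0x787058502) (nat_lit 0) (p (nat_lit 0x586850482) (nat_lit 0) (p (nat_lit 0x160014) (nat_lit 0) (p (nat_lit 0x16000c) (nat_lit 0) (p (nat_lit 0x68612) (nat_lit 0) (p (nat_lit 0x50592) (nat_lit 0) (p (nat_lit 0x40512) (nat_lit 0) (p (nat_lit 0x50312) (nat_lit 0) (p (nat_lit 0x38292) (nat_lit 0) (p (nat_lit 0x28212) (nat_lit 0) (p (nat_lit 0x38112) (nat_lit 0) (p (nat_lit 0x20092) (nat_lit 0) (p (nat_lit 0x10012) (nat_lit 0) pn))))))))))))))))))))))))))) :=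
  Cl.node (nat_lit 0x100004) (nat_lit 2) (by decide +kernel) (ClAll.succ (ClAll.succ ClAll.zero s941) s942)

def n205 : Cl (O (nat_lit 1)) (R (nat_lit 14353))
    (p (nat_lit 0x380c2) (nat_lit 0) (p (nat_lit 0x4c42a) (nat_lit 2) (p (nat_lit 0x119) (nat_lit 1) (p (nat_lit 0xc9) (nat_lit 0) (p (nat_lit 0x89) (nat_lit 1) (p (nat_lit 0x109) (nat_lit 1) (p (nat_lit 0x101) (nat_lit 0) (p (nat_lit 0x111) (nat_lit 0) (p (nat_lit 0xd1) (nat_lit 1) (p (nat_lit 0x81) (nat_lit 0) (p (nat_lit 0x41) (nat_lit 1) (p (nat_lit 0x8090887069a) (nat_lit 0) (p (nat_lit 0x7870806861a) (nat_lit 0) (p (nat_lit 0x800070786058a) (nat_lit 0) (p (nat_lit 0x787058502) (nat_lit 0) (p (nat_lit 0x586850482) (nat_lit 0) (p (nat_lit 0x160014) (nat_lit 0) (p (nat_lit 0x16000c) (nat_lit 0) (p (nat_lit 0x68612) (nat_lit 0) (p (nat_lit 0x50592) (nat_lit 0) (p (nat_lit 0x40512) (nat_lit 0) (p (nat_lit 0x50312)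 (nat_lit 0) (p (nat_lit 0x38292) (nat_lit 0) (p (nat_lit 0x28212) (nat_lit 0) (p (nat_lit 0x38112) (nat_lit 0) (p (nat_lit 0x20092) (nat_lit 0) (p (nat_lit 0x10012) (nat_lit 0) pn))))))))))))))))))))))))))) :=
  Cl.node (nat_lit 0xb000c) (nat_lit 2) (by decide +kernel) (ClAll.succ (ClAll.succ ClAll.zero s1002) s1003)

def n206 : Cl (O (nat_lit 1)) (R (nat_lit 14353))
    (p (nat_lit 0x200004) (nat_lit 0) (p (nat_lit 0x380c2) (nat_lit 0) (p (nat_lit 0x3c4aa) (nat_lit 7) (p (nat_lit 0xd1) (nat_lit 1) (p (nat_lit 0x111) (nat_lit 1) (p (nat_lit 0x109) (nat_lit 0) (p (nat_lit 0x101) (nat_lit 0) (p (nat_lit 0x119) (nat_lit 0) (p (nat_lit 0xc1) (nat_lit 0) (p (nat_lit 0x81) (nat_lit 1) (p (nat_lit 0x41) (nat_lit 1) (p (nat_lit 0x8090887069a) (nat_lit 0) (p (nat_lit 0x7870806861a) (nat_lit 0) (p (nat_lit 0x800070786058a) (nat_lit 0) (p (nat_lit 0x787058502) (nat_lit 0) (p (nat_lit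 0x586850482) (nat_lit 0) (p (nat_lit 0x160014) (nat_lit 0) (p (nat_lit 0x16000c) (nat_lit 0) (p (nat_lit 0x68612) (nat_lit 0) (p (nat_lit 0x50592) (nat_lit 0) (p (nat_lit 0x40512) (nat_lit 0) (p (nat_lit 0x50312) (nat_lit 0) (p (nat_lit 0x38292) (nat_lit 0) (p (nat_lit 0x28212) (nat_lit 0) (p (nat_lit 0x38112) (nat_lit 0) (p (nat_lit 0x20092) (nat_lit 0) (p (nat_lit 0x10012) (nat_lit 0) pn))))))))))))))))))))))))))) :=
  Cl.node (nat_lit 0x100004) (nat_lit 2) (by decide +kernel) (ClAll.succ (ClAll.succ ClAll.zero n157) s1093)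

def n207 : Cl (O (nat_lit 1)) (R (nat_lit 14353))
    (p (nat_lit 0x200004) (nat_lit 0) (p (nat_lit 0x380c2) (nat_lit 1) (p (nat_lit 0x3c4aa) (nat_lit 7) (p (nat_lit 0xd1) (nat_lit 1) (p (nat_lit 0x111) (nat_lit 1) (p (nat_lit 0x109) (nat_lit 0) (p (nat_lit 0x101) (nat_lit 0) (p (nat_lit 0x119) (nat_lit 0) (p (nat_lit 0xc1) (nat_lit 0) (p (nat_lit 0x81) (nat_lit 1) (p (nat_lit 0x41) (nat_lit 1) (p (nat_lit 0x8090887069a) (nat_lit 0) (p (nat_lit 0x7870806861a) (nat_lit 0) (p (nat_lit 0x800070786058a) (nat_lit 0) (p (nat_lit 0x787058502) (nat_lit 0) (p (nat_lit 0x586850482) (nat_lit 0) (p (nat_lit 0x160014) (nat_lit 0) (p (nat_lit 0x16000c) (nat_lit 0) (p (nat_lit 0x68612) (nat_lit 0) (p (nat_lit 0x50592) (nat_lit 0) (p (nat_lit 0x40512) (nat_lit 0) (p (nat_lit 0x50312) (nat_lit 0) (p (nat_lit 0x38292) (nat_lit 0) (p (nat_lit 0x28212) (nat_lit 0) (p (nat_lit 0x38112)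 (nat_lit 0) (p (nat_lit 0x20092) (nat_lit 0) (p (nat_lit 0x10012) (nat_lit 0) pn))))))))))))))))))))))))))) :=
  Cl.node (nat_lit 0x100004) (nat_lit 2) (by decide +kernel) (ClAll.succ (ClAll.succ ClAll.zero n158) s1101)

def n208 : Cl (O (nat_lit 1)) (R (nat_lit 14353))
    (p (nat_lit 0x200004) (nat_lit 0) (p (nat_lit 0x380c2) (nat_lit 0) (p (nat_lit 0x3c4aa) (nat_lit 7) (p (nat_lit 0xd1) (nat_lit 1) (p (nat_lit 0xc9) (nat_lit 0) (p (nat_lit 0x109) (nat_lit 1) (p (nat_lit 0x101) (nat_lit 0) (p (nat_lit 0x119) (nat_lit 0) (p (nat_lit 0xc1) (nat_lit 0) (p (nat_lit 0x81) (nat_lit 1) (p (nat_lit 0x41) (nat_lit 1) (p (nat_lit 0x8090887069a) (nat_lit 0) (p (nat_lit 0x7870806861a) (nat_lit 0) (p (nat_lit 0x800070786058a) (nat_lit 0) (p (nat_lit 0x787058502) (nat_lit 0) (p (nat_lit 0x586850482) (nat_lit 0) (p (nat_lit 0x160014) (nat_lit 0) (p (nat_lit 0x16000c) (nat_lit 0)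 (p (nat_lit 0x68612) (nat_lit 0) (p (nat_lit 0x50592) (nat_lit 0) (p (nat_lit 0x40512) (nat_lit 0) (p (nat_lit 0x50312) (nat_lit 0) (p (nat_lit 0x38292) (nat_lit 0) (p (nat_lit 0x28212) (nat_lit 0) (p (nat_lit 0x38112) (nat_lit 0) (p (nat_lit 0x20092) (nat_lit 0) (p (nat_lit 0x10012) (nat_lit 0) pn))))))))))))))))))))))))))) :=
  Cl.node (nat_lit 0x100004) (nat_lit 2) (by decide +kernel) (ClAll.succ (ClAll.succ ClAll.zero s1115) s1116)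

def n209 : Cl (O (nat_lit 1)) (R (nat_lit 14353))
    (p (nat_lit 0x200004) (nat_lit 0) (p (nat_lit 0x380c2) (nat_lit 1) (p (nat_lit 0x3c4aa) (nat_lit 7) (p (nat_lit 0xd1) (nat_lit 1) (p (nat_lit 0xc9) (nat_lit 0) (p (nat_lit 0x109) (nat_lit 1) (p (nat_lit 0x101) (nat_lit 0) (p (nat_lit 0x119) (nat_lit 0) (p (nat_lit 0xc1) (nat_lit 0) (p (nat_lit 0x81) (nat_lit 1) (p (nat_lit 0x41) (nat_lit 1) (p (nat_lit 0x8090887069a) (nat_lit 0) (p (nat_lit 0x7870806861a) (nat_lit 0) (p (nat_lit 0x800070786058a) (nat_lit 0) (p (nat_lit 0x787058502) (nat_lit 0) (p (nat_lit 0x586850482) (nat_lit 0) (p (nat_lit 0x160014) (nat_lit 0) (p (nat_lit 0x16000c) (nat_lit 0) (p (nat_lit 0x68612) (nat_lit 0) (p (nat_lit 0x50592) (nat_lit 0) (p (nat_lit 0x40512) (nat_lit 0) (p (nat_lit 0x50312) (nat_lit 0) (p (nat_lit 0x38292) (nat_lit 0) (p (nat_lit 0x28212) (nat_lit 0) (p (nat_lit 0x38112) (nat_lit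 0) (p (nat_lit 0x20092) (nat_lit 0) (p (nat_lit 0x10012) (nat_lit 0) pn))))))))))))))))))))))))))) :=
  Cl.node (nat_lit 0x100004) (nat_lit 2) (by decide +kernel) (ClAll.succ (ClAll.succ ClAll.zero n159) s1123)

def n210 : Cl (O (nat_lit 1)) (R (nat_lit 14353))
    (p (nat_lit 0xb0014) (nat_lit 0) (p (nat_lit 0x200004) (nat_lit 0) (p (nat_lit 0x380c2) (nat_lit 0) (p (nat_lit 0x3c4aa) (nat_lit 7) (p (nat_lit 0xd1) (nat_lit 1) (p (nat_lit 0xc9) (nat_lit 0) (p (nat_lit 0x101) (nat_lit 1) (p (nat_lit 0x119) (nat_lit 0) (p (nat_lit 0xc1) (nat_lit 0) (p (nat_lit 0x81) (nat_lit 1) (p (nat_lit 0x41) (nat_lit 1) (p (nat_lit 0x8090887069a) (nat_lit 0) (p (nat_lit 0x7870806861a) (nat_lit 0) (p (nat_lit 0x800070786058a) (nat_lit 0) (p (nat_lit 0x787058502) (nat_lit 0) (p (nat_lit 0x586850482) (nat_lit 0) (p (nat_lit 0x160014) (nat_lit 0) (p (nat_lit 0x16000c) (nat_lit 0) (p (nat_lit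 0x68612) (nat_lit 0) (p (nat_lit 0x50592) (nat_lit 0) (p (nat_lit 0x40512) (nat_lit 0) (p (nat_lit 0x50312) (nat_lit 0) (p (nat_lit 0x38292) (nat_lit 0) (p (nat_lit 0x28212) (nat_lit 0) (p (nat_lit 0x38112) (nat_lit 0) (p (nat_lit 0x20092) (nat_lit 0) (p (nat_lit 0x10012) (nat_lit 0) pn))))))))))))))))))))))))))) :=
  Cl.node (nat_lit 0x100004) (nat_lit 2) (by decide +kernel) (ClAll.succ (ClAll.succ ClAll.zero n160) s1171)

def n211 : Cl (O (nat_lit 1)) (R (nat_lit 14353))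
    (p (nat_lit 0x100004) (nat_lit 0) (p (nat_lit 0x200004) (nat_lit 0) (p (nat_lit 0x380c2) (nat_lit 1) (p (nat_lit 0x3c4aa) (nat_lit 7) (p (nat_lit 0xd1) (nat_lit 1) (p (nat_lit 0xc9) (nat_lit 0) (p (nat_lit 0x101) (nat_lit 1) (p (nat_lit 0x119) (nat_lit 0) (p (nat_lit 0xc1) (nat_lit 0) (p (nat_lit 0x81) (nat_lit 1) (p (nat_lit 0x41) (nat_lit 1) (p (nat_lit 0x8090887069a) (nat_lit 0) (p (nat_lit 0x7870806861a) (nat_lit 0) (p (nat_lit 0x800070786058a) (nat_lit 0) (p (nat_lit 0x787058502) (nat_lit 0) (p (nat_lit 0x586850482) (nat_lit 0) (p (nat_lit 0x160014) (nat_lit 0) (p (nat_lit 0x16000c) (nat_lit 0) (p (nat_lit 0x68612) (nat_lit 0) (p (nat_lit 0x50592) (nat_lit 0) (p (nat_lit 0x40512) (nat_lit 0) (p (nat_lit 0x50312) (nat_lit 0) (p (nat_lit 0x38292) (nat_lit 0) (p (nat_lit 0x28212) (nat_lit 0) (p (nat_lit 0x38112) (nat_lit 0) (p (nat_lit 0x20092) (nat_lit 0) (p (nat_lit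 0x10012) (nat_lit 0) pn))))))))))))))))))))))))))) :=
  Cl.node (nat_lit 0xb000c) (nat_lit 2) (by decide +kernel) (ClAll.succ (ClAll.succ ClAll.zero n161) s1187)

def n212 : Cl (O (nat_lit 1)) (R (nat_lit 14353))
    (p (nat_lit 0x100004) (nat_lit 0) (p (nat_lit 0x200004) (nat_lit 0) (p (nat_lit 0x380c2) (nat_lit 0) (p (nat_lit 0x3c4aa) (nat_lit 7) (p (nat_lit 0x111) (nat_lit 1) (p (nat_lit 0xd1) (nat_lit 1) (p (nat_lit 0xc9) (nat_lit 0) (p (nat_lit 0x119) (nat_lit 1) (p (nat_lit 0xc1) (nat_lit 0) (p (nat_lit 0x81) (nat_lit 1) (p (nat_lit 0x41) (nat_lit 1) (p (nat_lit 0x8090887069a) (nat_lit 0) (p (nat_lit 0x7870806861a) (nat_lit 0) (p (nat_lit 0x800070786058a) (nat_lit 0) (p (nat_lit 0x787058502) (nat_lit 0) (p (nat_lit 0x586850482) (nat_lit 0) (p (nat_lit 0x160014) (nat_lit 0) (p (nat_lit 0x16000c) (nat_lit 0) (p (nat_lit 0x68612) (nat_lit 0) (p (nat_lit 0x50592) (nat_lit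 0) (p (nat_lit 0x40512) (nat_lit 0) (p (nat_lit 0x50312) (nat_lit 0) (p (nat_lit 0x38292) (nat_lit 0) (p (nat_lit 0x28212) (nat_lit 0) (p (nat_lit 0x38112) (nat_lit 0) (p (nat_lit 0x20092) (nat_lit 0) (p (nat_lit 0x10012) (nat_lit 0) pn))))))))))))))))))))))))))) :=
  Cl.node (nat_lit 0x101) (nat_lit 2) (by decide +kernel) (ClAll.succ (ClAll.succ ClAll.zero n162) s1206)

def n213 : Cl (O (nat_lit 1)) (R (nat_lit 14353))
    (p (nat_lit 0x100004) (nat_lit 0) (p (nat_lit 0x200004) (nat_lit 0) (p (nat_lit 0x380c2) (nat_lit 1) (p (nat_lit 0x3c4aa) (nat_lit 7) (p (nat_lit 0x111) (nat_lit 1) (p (nat_lit 0x109) (nat_lit 0) (p (nat_lit 0xc9) (nat_lit 1) (p (nat_lit 0x119) (nat_lit 1) (p (nat_lit 0xc1) (nat_lit 0) (p (nat_lit 0x81) (nat_lit 1) (p (nat_lit 0x41) (nat_lit 1) (p (nat_lit 0x8090887069a) (nat_lit 0) (p (nat_lit 0x7870806861a) (nat_lit 0) (p (nat_lit 0x800070786058a)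 (nat_lit 0) (p (nat_lit 0x787058502) (nat_lit 0) (p (nat_lit 0x586850482) (nat_lit 0) (p (nat_lit 0x160014) (nat_lit 0) (p (nat_lit 0x16000c) (nat_lit 0) (p (nat_lit 0x68612) (nat_lit 0) (p (nat_lit 0x50592) (nat_lit 0) (p (nat_lit 0x40512) (nat_lit 0) (p (nat_lit 0x50312) (nat_lit 0) (p (nat_lit 0x38292) (nat_lit 0) (p (nat_lit 0x28212) (nat_lit 0) (p (nat_lit 0x38112) (nat_lit 0) (p (nat_lit 0x20092) (nat_lit 0) (p (nat_lit 0x10012) (nat_lit 0) pn))))))))))))))))))))))))))) :=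
  Cl.node (nat_lit 0xb000c) (nat_lit 2) (by decide +kernel) (ClAll.succ (ClAll.succ ClAll.zero n163) s1240)

def n214 : Cl (O (nat_lit 1)) (R (nat_lit 14353))
    (p (nat_lit 0x380c2) (nat_lit 0) (p (nat_lit 0x444aa) (nat_lit 7) (p (nat_lit 0x81) (nat_lit 1) (p (nat_lit 0xc9) (nat_lit 1) (p (nat_lit 0x109) (nat_lit 1) (p (nat_lit 0x101) (nat_lit 0) (p (nat_lit 0x119) (nat_lit 0) (p (nat_lit 0xd1) (nat_lit 0) (p (nat_lit 0x89) (nat_lit 0) (p (nat_lit 0x41) (nat_lit 0) (p (nat_lit 0x8090887069a) (nat_lit 0) (p (nat_lit 0x7870806861a) (nat_lit 0) (p (nat_lit 0x800070786058a) (nat_lit 0) (p (nat_lit 0x787058502) (nat_lit 0) (p (nat_lit 0x586850482) (nat_lit 0) (p (nat_lit 0x160014) (nat_lit 0) (p (nat_lit 0x16000c) (nat_lit 0) (p (nat_lit 0x68612) (nat_lit 0) (p (nat_lit 0x50592) (nat_lit 0) (p (nat_lit 0x40512) (nat_lit 0) (p (nat_lit 0x50312) (nat_lit 0) (p (nat_lit 0x38292)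 (nat_lit 0) (p (nat_lit 0x28212) (nat_lit 0) (p (nat_lit 0x38112) (nat_lit 0) (p (nat_lit 0x20092) (nat_lit 0) (p (nat_lit 0x10012) (nat_lit 0) pn)))))))))))))))))))))))))) :=
  Cl.node (nat_lit 0x200004) (nat_lit 2) (by decide +kernel) (ClAll.succ (ClAll.succ ClAll.zero n164) s12)

def n215 : Cl (O (nat_lit 1)) (R (nat_lit 14353))
    (p (nat_lit 0x380c2) (nat_lit 1) (p (nat_lit 0x444aa) (nat_lit 7) (p (nat_lit 0x81) (nat_lit 1) (p (nat_lit 0xc9) (nat_lit 1) (p (nat_lit 0x109) (nat_lit 1) (p (nat_lit 0x101) (nat_lit 0) (p (nat_lit 0x119) (nat_lit 0) (p (nat_lit 0xd1) (nat_lit 0) (p (nat_lit 0x89) (nat_lit 0) (p (nat_lit 0x41) (nat_lit 0) (p (nat_lit 0x8090887069a) (nat_lit 0) (p (nat_lit 0x7870806861a) (nat_lit 0) (p (nat_lit 0x800070786058a) (nat_lit 0) (p (nat_lit 0x787058502) (nat_lit 0) (p (nat_lit 0x586850482) (nat_lit 0) (p (nat_lit 0x160014) (nat_lit 0) (p (nat_lit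 0x16000c) (nat_lit 0) (p (nat_lit 0x68612) (nat_lit 0) (p (nat_lit 0x50592) (nat_lit 0) (p (nat_lit 0x40512) (nat_lit 0) (p (nat_lit 0x50312) (nat_lit 0) (p (nat_lit 0x38292) (nat_lit 0) (p (nat_lit 0x28212) (nat_lit 0) (p (nat_lit 0x38112) (nat_lit 0) (p (nat_lit 0x20092) (nat_lit 0) (p (nat_lit 0x10012) (nat_lit 0) pn)))))))))))))))))))))))))) :=
  Cl.node (nat_lit 0x200004) (nat_lit 2) (by decide +kernel) (ClAll.succ (ClAll.succ ClAll.zero n165) s17)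

def n216 : Cl (O (nat_lit 1)) (R (nat_lit 14353))
    (p (nat_lit 0x380c2) (nat_lit 0) (p (nat_lit 0x4c42a) (nat_lit 2) (p (nat_lit 0x111) (nat_lit 0) (p (nat_lit 0xc9) (nat_lit 0) (p (nat_lit 0x81) (nat_lit 0) (p (nat_lit 0x101) (nat_lit 1) (p (nat_lit 0x119) (nat_lit 0) (p (nat_lit 0xd1) (nat_lit 0) (p (nat_lit 0x89) (nat_lit 0) (p (nat_lit 0x41) (nat_lit 0) (p (nat_lit 0x8090887069a) (nat_lit 0) (p (nat_lit 0x7870806861a) (nat_lit 0) (p (nat_lit 0x800070786058a) (nat_lit 0) (p (nat_lit 0x787058502) (nat_lit 0) (p (nat_lit 0x586850482) (nat_lit 0) (p (nat_lit 0x160014) (nat_lit 0) (p (nat_lit 0x16000c) (nat_lit 0) (p (nat_lit 0x68612) (nat_lit 0) (p (nat_lit 0x50592) (nat_lit 0) (p (nat_lit 0x40512) (nat_lit 0) (p (nat_lit 0x50312) (nat_lit 0) (p (nat_lit 0x38292) (nat_lit 0) (p (nat_lit 0x28212) (nat_lit 0) (p (nat_lit 0x38112) (nat_lit 0) (p (nat_lit 0x20092) (nat_lit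 0) (p (nat_lit 0x10012) (nat_lit 0) pn)))))))))))))))))))))))))) :=
  Cl.node (nat_lit 0xc1) (nat_lit 2) (by decide +kernel) (ClAll.succ (ClAll.succ ClAll.zero s24) n166)

def n217 : Cl (O (nat_lit 1)) (R (nat_lit 14353))
    (p (nat_lit 0x380c2) (nat_lit 0) (p (nat_lit 0x444aa) (nat_lit 7) (p (nat_lit 0x111) (nat_lit 0) (p (nat_lit 0xc9) (nat_lit 1) (p (nat_lit 0x81) (nat_lit 0) (p (nat_lit 0x101) (nat_lit 1) (p (nat_lit 0x119) (nat_lit 0) (p (nat_lit 0xd1) (nat_lit 0) (p (nat_lit 0x89) (nat_lit 0) (p (nat_lit 0x41) (nat_lit 0) (p (nat_lit 0x8090887069a) (nat_lit 0) (p (nat_lit 0x7870806861a) (nat_lit 0) (p (nat_lit 0x800070786058a) (nat_lit 0) (p (nat_lit 0x787058502) (nat_lit 0) (p (nat_lit 0x586850482) (nat_lit 0) (p (nat_lit 0x160014) (nat_lit 0) (p (nat_lit 0x16000c) (nat_lit 0) (p (nat_lit 0x68612) (nat_lit 0) (p (nat_lit 0x50592) (nat_lit 0) (p (nat_lit 0x40512)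 (nat_lit 0) (p (nat_lit 0x50312) (nat_lit 0) (p (nat_lit 0x38292) (nat_lit 0) (p (nat_lit 0x28212) (nat_lit 0) (p (nat_lit 0x38112) (nat_lit 0) (p (nat_lit 0x20092) (nat_lit 0) (p (nat_lit 0x10012) (nat_lit 0) pn)))))))))))))))))))))))))) :=
  Cl.node (nat_lit 0x200004) (nat_lit 2) (by decide +kernel) (ClAll.succ (ClAll.succ ClAll.zero n167) s99)

def n218 : Cl (O (nat_lit 1)) (R (nat_lit 14353))
    (p (nat_lit 0x380c2) (nat_lit 1) (p (nat_lit 0x444aa) (nat_lit 7) (p (nat_lit 0x111) (nat_lit 0) (p (nat_lit 0xc9) (nat_lit 1) (p (nat_lit 0x81) (nat_lit 0) (p (nat_lit 0x101) (nat_lit 1) (p (nat_lit 0x119) (nat_lit 0) (p (nat_lit 0xd1) (nat_lit 0) (p (nat_lit 0x89) (nat_lit 0) (p (nat_lit 0x41) (nat_lit 0) (p (nat_lit 0x8090887069a) (nat_lit 0) (p (nat_lit 0x7870806861a) (nat_lit 0) (p (nat_lit 0x800070786058a) (nat_lit 0) (p (nat_lit 0x787058502) (nat_lit 0) (p (nat_lit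 0x586850482) (nat_lit 0) (p (nat_lit 0x160014) (nat_lit 0) (p (nat_lit 0x16000c) (nat_lit 0) (p (nat_lit 0x68612) (nat_lit 0) (p (nat_lit 0x50592) (nat_lit 0) (p (nat_lit 0x40512) (nat_lit 0) (p (nat_lit 0x50312) (nat_lit 0) (p (nat_lit 0x38292) (nat_lit 0) (p (nat_lit 0x28212) (nat_lit 0) (p (nat_lit 0x38112) (nat_lit 0) (p (nat_lit 0x20092) (nat_lit 0) (p (nat_lit 0x10012) (nat_lit 0) pn)))))))))))))))))))))))))) :=
  Cl.node (nat_lit 0x200004) (nat_lit 2) (by decide +kernel) (ClAll.succ (ClAll.succ ClAll.zero n168) s118)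

def n219 : Cl (O (nat_lit 1)) (R (nat_lit 14353))
    (p (nat_lit 0x380c2) (nat_lit 0) (p (nat_lit 0x444aa) (nat_lit 8) (p (nat_lit 0x111) (nat_lit 0) (p (nat_lit 0xc9) (nat_lit 1) (p (nat_lit 0x81) (nat_lit 0) (p (nat_lit 0x101) (nat_lit 1) (p (nat_lit 0x119) (nat_lit 0) (p (nat_lit 0xd1) (nat_lit 0) (p (nat_lit 0x89) (nat_lit 0) (p (nat_lit 0x41) (nat_lit 0) (p (nat_lit 0x8090887069a) (nat_lit 0) (p (nat_lit 0x7870806861a) (nat_lit 0) (p (nat_lit 0x800070786058a) (nat_lit 0) (p (nat_lit 0x787058502) (nat_lit 0) (p (nat_lit 0x586850482) (nat_lit 0) (p (nat_lit 0x160014) (nat_lit 0) (p (nat_lit 0x16000c) (nat_lit 0) (p (nat_lit 0x68612) (nat_lit 0) (p (nat_lit 0x50592) (nat_lit 0) (p (nat_lit 0x40512) (nat_lit 0) (p (nat_lit 0x50312) (nat_lit 0) (p (nat_lit 0x38292) (nat_lit 0) (p (nat_lit 0x28212) (nat_lit 0) (p (nat_lit 0x38112) (nat_lit 0) (p (nat_lit 0x20092) (nat_lit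 0) (p (nat_lit 0x10012) (nat_lit 0) pn)))))))))))))))))))))))))) :=
  Cl.node (nat_lit 0xb000c) (nat_lit 2) (by decide +kernel) (ClAll.succ (ClAll.succ ClAll.zero s119) s120)

def n220 : Cl (O (nat_lit 1)) (R (nat_lit 14353))
    (p (nat_lit 0x380c2) (nat_lit 0) (p (nat_lit 0x4c42a) (nat_lit 2) (p (nat_lit 0xc9) (nat_lit 0) (p (nat_lit 0xc1) (nat_lit 0) (p (nat_lit 0x81) (nat_lit 1) (p (nat_lit 0x101) (nat_lit 1) (p (nat_lit 0x119) (nat_lit 0) (p (nat_lit 0xd1) (nat_lit 0) (p (nat_lit 0x89) (nat_lit 0) (p (nat_lit 0x41) (nat_lit 0) (p (nat_lit 0x8090887069a) (nat_lit 0) (p (nat_lit 0x7870806861a) (nat_lit 0) (p (nat_lit 0x800070786058a) (nat_lit 0) (p (nat_lit 0x787058502) (nat_lit 0) (p (nat_lit 0x586850482) (nat_lit 0) (p (nat_lit 0x160014) (nat_lit 0) (p (nat_lit 0x16000c) (nat_lit 0) (p (nat_lit 0x68612) (nat_lit 0) (p (nat_lit 0x50592) (nat_lit 0) (p (nat_lit 0x40512)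 (nat_lit 0) (p (nat_lit 0x50312) (nat_lit 0) (p (nat_lit 0x38292) (nat_lit 0) (p (nat_lit 0x28212) (nat_lit 0) (p (nat_lit 0x38112) (nat_lit 0) (p (nat_lit 0x20092) (nat_lit 0) (p (nat_lit 0x10012) (nat_lit 0) pn)))))))))))))))))))))))))) :=
  Cl.node (nat_lit 0x200004) (nat_lit 2) (by decide +kernel) (ClAll.succ (ClAll.succ ClAll.zero n169) s145)

def n221 : Cl (O (nat_lit 1)) (R (nat_lit 14353))
    (p (nat_lit 0x380c2) (nat_lit 0) (p (nat_lit 0x4c42a) (nat_lit 8) (p (nat_lit 0xc9) (nat_lit 0) (p (nat_lit 0xc1) (nat_lit 0) (p (nat_lit 0x81) (nat_lit 1) (p (nat_lit 0x101) (nat_lit 1) (p (nat_lit 0x119) (nat_lit 0) (p (nat_lit 0xd1) (nat_lit 0) (p (nat_lit 0x89) (nat_lit 0) (p (nat_lit 0x41) (nat_lit 0) (p (nat_lit 0x8090887069a) (nat_lit 0) (p (nat_lit 0x7870806861a) (nat_lit 0) (p (nat_lit 0x800070786058a) (nat_lit 0) (p (nat_lit 0x787058502) (nat_lit 0) (p (nat_lit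 0x586850482) (nat_lit 0) (p (nat_lit 0x160014) (nat_lit 0) (p (nat_lit 0x16000c) (nat_lit 0) (p (nat_lit 0x68612) (nat_lit 0) (p (nat_lit 0x50592) (nat_lit 0) (p (nat_lit 0x40512) (nat_lit 0) (p (nat_lit 0x50312) (nat_lit 0) (p (nat_lit 0x38292) (nat_lit 0) (p (nat_lit 0x28212) (nat_lit 0) (p (nat_lit 0x38112) (nat_lit 0) (p (nat_lit 0x20092) (nat_lit 0) (p (nat_lit 0x10012) (nat_lit 0) pn)))))))))))))))))))))))))) :=
  Cl.node (nat_lit 0xd1) (nat_lit 2) (by decide +kernel) (ClAll.succ (ClAll.succ ClAll.zero s152) n170)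

def n222 : Cl (O (nat_lit 1)) (R (nat_lit 14353))
    (p (nat_lit 0x380c2) (nat_lit 1) (p (nat_lit 0x444aa) (nat_lit 7) (p (nat_lit 0xc9) (nat_lit 1) (p (nat_lit 0xc1) (nat_lit 0) (p (nat_lit 0x81) (nat_lit 1) (p (nat_lit 0x101) (nat_lit 1) (p (nat_lit 0x119) (nat_lit 0) (p (nat_lit 0xd1) (nat_lit 0) (p (nat_lit 0x89) (nat_lit 0) (p (nat_lit 0x41) (nat_lit 0) (p (nat_lit 0x8090887069a) (nat_lit 0) (p (nat_lit 0x7870806861a) (nat_lit 0) (p (nat_lit 0x800070786058a) (nat_lit 0) (p (nat_lit 0x787058502) (nat_lit 0) (p (nat_lit 0x586850482) (nat_lit 0) (p (nat_lit 0x160014) (nat_lit 0) (p (nat_lit 0x16000c) (nat_lit 0) (p (nat_lit 0x68612) (nat_lit 0) (p (nat_lit 0x50592) (nat_lit 0) (p (nat_lit 0x40512) (nat_lit 0) (p (nat_lit 0x50312) (nat_lit 0) (p (nat_lit 0x38292) (nat_lit 0) (p (nat_lit 0x28212) (nat_lit 0) (p (nat_lit 0x38112) (nat_lit 0) (p (nat_lit 0x20092) (nat_lit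 0) (p (nat_lit 0x10012) (nat_lit 0) pn)))))))))))))))))))))))))) :=
  Cl.node (nat_lit 0x200004) (nat_lit 2) (by decide +kernel) (ClAll.succ (ClAll.succ ClAll.zero n171) s175)

def n223 : Cl (O (nat_lit 1)) (R (nat_lit 14353))
    (p (nat_lit 0x200004) (nat_lit 0) (p (nat_lit 0x380c2) (nat_lit 0) (p (nat_lit 0x3cc2a) (nat_lit 10) (p (nat_lit 0x109) (nat_lit 1) (p (nat_lit 0xc9) (nat_lit 1) (p (nat_lit 0xc1) (nat_lit 0) (p (nat_lit 0x119) (nat_lit 1) (p (nat_lit 0xd1) (nat_lit 0) (p (nat_lit 0x89) (nat_lit 0) (p (nat_lit 0x41) (nat_lit 0) (p (nat_lit 0x8090887069a) (nat_lit 0) (p (nat_lit 0x7870806861a) (nat_lit 0) (p (nat_lit 0x800070786058a) (nat_lit 0) (p (nat_lit 0x787058502) (nat_lit 0) (p (nat_lit 0x586850482) (nat_lit 0) (p (nat_lit 0x160014) (nat_lit 0) (p (nat_lit 0x16000c) (nat_lit 0) (p (nat_lit 0x68612) (nat_lit 0) (p (nat_lit 0x50592) (nat_lit 0) (p (nat_lit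 0x40512) (nat_lit 0) (p (nat_lit 0x50312) (nat_lit 0) (p (nat_lit 0x38292) (nat_lit 0) (p (nat_lit 0x28212) (nat_lit 0) (p (nat_lit 0x38112) (nat_lit 0) (p (nat_lit 0x20092) (nat_lit 0) (p (nat_lit 0x10012) (nat_lit 0) pn)))))))))))))))))))))))))) :=
  Cl.node (nat_lit 0x101) (nat_lit 2) (by decide +kernel) (ClAll.succ (ClAll.succ ClAll.zero s193) s194)

def n224 : Cl (O (nat_lit 1)) (R (nat_lit 14353))
    (p (nat_lit 0x81) (nat_lit 1) (p (nat_lit 0x380c2) (nat_lit 0) (p (nat_lit 0x3cc2a) (nat_lit 11) (p (nat_lit 0x109) (nat_lit 1) (p (nat_lit 0xc9) (nat_lit 1) (p (nat_lit 0xc1) (nat_lit 0) (p (nat_lit 0x119) (nat_lit 1) (p (nat_lit 0xd1) (nat_lit 0) (p (nat_lit 0x89) (nat_lit 0) (p (nat_lit 0x41) (nat_lit 0) (p (nat_lit 0x8090887069a) (nat_lit 0) (p (nat_lit 0x7870806861a) (nat_lit 0) (p (nat_lit 0x800070786058a) (nat_lit 0) (p (nat_lit 0x787058502) (nat_lit 0) (p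 (nat_lit 0x586850482) (nat_lit 0) (p (nat_lit 0x160014) (nat_lit 0) (p (nat_lit 0x16000c) (nat_lit 0) (p (nat_lit 0x68612) (nat_lit 0) (p (nat_lit 0x50592) (nat_lit 0) (p (nat_lit 0x40512) (nat_lit 0) (p (nat_lit 0x50312) (nat_lit 0) (p (nat_lit 0x38292) (nat_lit 0) (p (nat_lit 0x28212) (nat_lit 0) (p (nat_lit 0x38112) (nat_lit 0) (p (nat_lit 0x20092) (nat_lit 0) (p (nat_lit 0x10012) (nat_lit 0) pn)))))))))))))))))))))))))) :=
  Cl.node (nat_lit 0x41) (nat_lit 2) (by decide +kernel) (ClAll.succ (ClAll.succ ClAll.zero s199) s200)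

def n225 : Cl (O (nat_lit 1)) (R (nat_lit 14353))
    (p (nat_lit 0xc9) (nat_lit 0) (p (nat_lit 0x380c2) (nat_lit 1) (p (nat_lit 0x3cc2a) (nat_lit 10) (p (nat_lit 0x109) (nat_lit 1) (p (nat_lit 0x81) (nat_lit 0) (p (nat_lit 0xc1) (nat_lit 1) (p (nat_lit 0x119) (nat_lit 1) (p (nat_lit 0xd1) (nat_lit 0) (p (nat_lit 0x89) (nat_lit 0) (p (nat_lit 0x41) (nat_lit 0) (p (nat_lit 0x8090887069a) (nat_lit 0) (p (nat_lit 0x7870806861a) (nat_lit 0) (p (nat_lit 0x800070786058a) (nat_lit 0) (p (nat_lit 0x787058502) (nat_lit 0) (p (nat_lit 0x586850482) (nat_lit 0) (p (nat_lit 0x160014) (nat_lit 0) (p (nat_lit 0x16000c) (nat_lit 0) (p (nat_lit 0x68612) (nat_lit 0) (p (nat_lit 0x50592) (nat_lit 0) (p (nat_lit 0x40512) (nat_lit 0) (p (nat_lit 0x50312) (nat_lit 0) (p (nat_lit 0x38292) (nat_lit 0) (p (nat_lit 0x28212) (nat_lit 0) (p (nat_lit 0x38112) (nat_lit 0) (p (nat_lit 0x20092) (nat_lit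 0) (p (nat_lit 0x10012) (nat_lit 0) pn)))))))))))))))))))))))))) :=
  Cl.node (nat_lit 0x44c2a) (nat_lit 12) (by decide +kernel) (ClAll.succ (ClAll.succ (ClAll.succ (ClAll.succ (ClAll.succ (ClAll.succ (ClAll.succ (ClAll.succ (ClAll.succ (ClAll.succ (ClAll.succ (ClAll.succ ClAll.zero s225) s226) s227) s228) s229) s230) s231) s232) s233) s234) s235) s236)

def n226 : Cl (O (nat_lit 1)) (R (nat_lit 14353))
    (p (nat_lit 0xd1) (nat_lit 0) (p (nat_lit 0x380c2) (nat_lit 0) (p (nat_lit 0x3cc2a) (nat_lit 11) (p (nat_lit 0x109) (nat_lit 1) (p (nat_lit 0x81) (nat_lit 0) (p (nat_lit 0xc1) (nat_lit 1) (p (nat_lit 0x119) (nat_lit 1) (p (nat_lit 0xd1) (nat_lit 0) (p (nat_lit 0x89) (nat_lit 0) (p (nat_lit 0x41) (nat_lit 0) (p (nat_lit 0x8090887069a) (nat_lit 0) (p (nat_lit 0x7870806861a) (nat_lit 0) (p (nat_lit 0x800070786058a) (nat_lit 0) (p (nat_lit 0x787058502) (nat_lit 0) (p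 (nat_lit 0x586850482) (nat_lit 0) (p (nat_lit 0x160014) (nat_lit 0) (p (nat_lit 0x16000c) (nat_lit 0) (p (nat_lit 0x68612) (nat_lit 0) (p (nat_lit 0x50592) (nat_lit 0) (p (nat_lit 0x40512) (nat_lit 0) (p (nat_lit 0x50312) (nat_lit 0) (p (nat_lit 0x38292) (nat_lit 0) (p (nat_lit 0x28212) (nat_lit 0) (p (nat_lit 0x38112) (nat_lit 0) (p (nat_lit 0x20092) (nat_lit 0) (p (nat_lit 0x10012) (nat_lit 0) pn)))))))))))))))))))))))))) :=
  Cl.node (nat_lit 0xc9) (nat_lit 2) (by decide +kernel) (ClAll.succ (ClAll.succ ClAll.zero s238) s239)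

def n227 : Cl (O (nat_lit 1)) (R (nat_lit 14353))
    (p (nat_lit 0xd1) (nat_lit 1) (p (nat_lit 0x380c2) (nat_lit 0) (p (nat_lit 0x3cc2a) (nat_lit 11) (p (nat_lit 0x109) (nat_lit 1) (p (nat_lit 0x81) (nat_lit 0) (p (nat_lit 0xc1) (nat_lit 1) (p (nat_lit 0x119) (nat_lit 1) (p (nat_lit 0xd1) (nat_lit 0) (p (nat_lit 0x89) (nat_lit 0) (p (nat_lit 0x41) (nat_lit 0) (p (nat_lit 0x8090887069a) (nat_lit 0) (p (nat_lit 0x7870806861a) (nat_lit 0) (p (nat_lit 0x800070786058a) (nat_lit 0) (p (nat_lit 0x787058502) (nat_lit 0) (p (nat_lit 0x586850482) (nat_lit 0) (p (nat_lit 0x160014) (nat_lit 0) (p (nat_lit 0x16000c) (nat_lit 0) (p (nat_lit 0x68612) (nat_lit 0) (p (nat_lit 0x50592) (nat_lit 0) (p (nat_lit 0x40512) (nat_lit 0) (p (nat_lit 0x50312) (nat_lit 0) (p (nat_lit 0x38292) (nat_lit 0) (p (nat_lit 0x28212) (nat_lit 0) (p (nat_lit 0x38112) (nat_lit 0) (p (nat_lit 0x20092) (nat_lit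 0) (p (nat_lit 0x10012) (nat_lit 0) pn)))))))))))))))))))))))))) :=
  Cl.node (nat_lit 0xb000c) (nat_lit 2) (by decide +kernel) (ClAll.succ (ClAll.succ ClAll.zero s240) s241)

def n228 : Cl (O (nat_lit 1)) (R (nat_lit 14353))
    (p (nat_lit 0x380c2) (nat_lit 0) (p (nat_lit 0x44c2a) (nat_lit 0) (p (nat_lit 0x109) (nat_lit 0) (p (nat_lit 0x101) (nat_lit 0) (p (nat_lit 0x81) (nat_lit 1) (p (nat_lit 0xc1) (nat_lit 1) (p (nat_lit 0x119) (nat_lit 1) (p (nat_lit 0xd1) (nat_lit 0) (p (nat_lit 0x89) (nat_lit 0) (p (nat_lit 0x41) (nat_lit 0) (p (nat_lit 0x8090887069a) (nat_lit 0) (p (nat_lit 0x7870806861a) (nat_lit 0) (p (nat_lit 0x800070786058a) (nat_lit 0) (p (nat_lit 0x787058502) (nat_lit 0) (p (nat_lit 0x586850482) (nat_lit 0) (p (nat_lit 0x160014) (nat_lit 0) (p (nat_lit 0x16000c) (nat_lit 0) (p (nat_lit 0x68612) (nat_lit 0) (p (nat_lit 0x50592) (nat_lit 0) (p (nat_lit 0x40512)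 (nat_lit 0) (p (nat_lit 0x50312) (nat_lit 0) (p (nat_lit 0x38292) (nat_lit 0) (p (nat_lit 0x28212) (nat_lit 0) (p (nat_lit 0x38112) (nat_lit 0) (p (nat_lit 0x20092) (nat_lit 0) (p (nat_lit 0x10012) (nat_lit 0) pn)))))))))))))))))))))))))) :=
  Cl.node (nat_lit 0x200004) (nat_lit 2) (by decide +kernel) (ClAll.succ (ClAll.succ ClAll.zero n172) s259)

def n229 : Cl (O (nat_lit 1)) (R (nat_lit 14353))
    (p (nat_lit 0x380c2) (nat_lit 1) (p (nat_lit 0x44c2a) (nat_lit 0) (p (nat_lit 0x109) (nat_lit 0) (p (nat_lit 0x101) (nat_lit 0) (p (nat_lit 0x81) (nat_lit 1) (p (nat_lit 0xc1) (nat_lit 1) (p (nat_lit 0x119) (nat_lit 1) (p (nat_lit 0xd1) (nat_lit 0) (p (nat_lit 0x89) (nat_lit 0) (p (nat_lit 0x41) (nat_lit 0) (p (nat_lit 0x8090887069a) (nat_lit 0) (p (nat_lit 0x7870806861a) (nat_lit 0) (p (nat_lit 0x800070786058a) (nat_lit 0) (p (nat_lit 0x787058502) (nat_lit 0) (p (nat_lit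 0x586850482) (nat_lit 0) (p (nat_lit 0x160014) (nat_lit 0) (p (nat_lit 0x16000c) (nat_lit 0) (p (nat_lit 0x68612) (nat_lit 0) (p (nat_lit 0x50592) (nat_lit 0) (p (nat_lit 0x40512) (nat_lit 0) (p (nat_lit 0x50312) (nat_lit 0) (p (nat_lit 0x38292) (nat_lit 0) (p (nat_lit 0x28212) (nat_lit 0) (p (nat_lit 0x38112) (nat_lit 0) (p (nat_lit 0x20092) (nat_lit 0) (p (nat_lit 0x10012) (nat_lit 0) pn)))))))))))))))))))))))))) :=
  Cl.node (nat_lit 0x200004) (nat_lit 2) (by decide +kernel) (ClAll.succ (ClAll.succ ClAll.zero n173) s263)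

def n230 : Cl (O (nat_lit 1)) (R (nat_lit 14353))
    (p (nat_lit 0x380c2) (nat_lit 0) (p (nat_lit 0x44c2a) (nat_lit 1) (p (nat_lit 0x109) (nat_lit 0) (p (nat_lit 0x101) (nat_lit 0) (p (nat_lit 0x81) (nat_lit 1) (p (nat_lit 0xc1) (nat_lit 1) (p (nat_lit 0x119) (nat_lit 1) (p (nat_lit 0xd1) (nat_lit 0) (p (nat_lit 0x89) (nat_lit 0) (p (nat_lit 0x41) (nat_lit 0) (p (nat_lit 0x8090887069a) (nat_lit 0) (p (nat_lit 0x7870806861a) (nat_lit 0) (p (nat_lit 0x800070786058a) (nat_lit 0) (p (nat_lit 0x787058502) (nat_lit 0) (p (nat_lit 0x586850482) (nat_lit 0) (p (nat_lit 0x160014) (nat_lit 0) (p (nat_lit 0x16000c) (nat_lit 0) (p (nat_lit 0x68612) (nat_lit 0) (p (nat_lit 0x50592) (nat_lit 0) (p (nat_lit 0x40512) (nat_lit 0) (p (nat_lit 0x50312) (nat_lit 0) (p (nat_lit 0x38292) (nat_lit 0) (p (nat_lit 0x28212) (nat_lit 0) (p (nat_lit 0x38112) (nat_lit 0) (p (nat_lit 0x20092) (nat_lit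 0) (p (nat_lit 0x10012) (nat_lit 0) pn)))))))))))))))))))))))))) :=
  Cl.node (nat_lit 0xb0014) (nat_lit 2) (by decide +kernel) (ClAll.succ (ClAll.succ ClAll.zero s264) s265)

def n231 : Cl (O (nat_lit 1)) (R (nat_lit 14353))
    (p (nat_lit 0x380c2) (nat_lit 1) (p (nat_lit 0x444aa) (nat_lit 7) (p (nat_lit 0x109) (nat_lit 1) (p (nat_lit 0x101) (nat_lit 0) (p (nat_lit 0x81) (nat_lit 1) (p (nat_lit 0xc1) (nat_lit 1) (p (nat_lit 0x119) (nat_lit 1) (p (nat_lit 0xd1) (nat_lit 0) (p (nat_lit 0x89) (nat_lit 0) (p (nat_lit 0x41) (nat_lit 0) (p (nat_lit 0x8090887069a) (nat_lit 0) (p (nat_lit 0x7870806861a) (nat_lit 0) (p (nat_lit 0x800070786058a) (nat_lit 0) (p (nat_lit 0x787058502) (nat_lit 0) (p (nat_lit 0x586850482) (nat_lit 0) (p (nat_lit 0x160014) (nat_lit 0) (p (nat_lit 0x16000c) (nat_lit 0) (p (nat_lit 0x68612) (nat_lit 0) (p (nat_lit 0x50592) (nat_lit 0) (p (nat_lit 0x40512)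 (nat_lit 0) (p (nat_lit 0x50312) (nat_lit 0) (p (nat_lit 0x38292) (nat_lit 0) (p (nat_lit 0x28212) (nat_lit 0) (p (nat_lit 0x38112) (nat_lit 0) (p (nat_lit 0x20092) (nat_lit 0) (p (nat_lit 0x10012) (nat_lit 0) pn)))))))))))))))))))))))))) :=
  Cl.node (nat_lit 0x200004) (nat_lit 2) (by decide +kernel) (ClAll.succ (ClAll.succ ClAll.zero n174) s299)

def n232 : Cl (O (nat_lit 1)) (R (nat_lit 14353))
    (p (nat_lit 0x380c2) (nat_lit 0) (p (nat_lit 0x444aa) (nat_lit 8) (p (nat_lit 0x109) (nat_lit 1) (p (nat_lit 0x101) (nat_lit 0) (p (nat_lit 0x81) (nat_lit 1) (p (nat_lit 0xc1) (nat_lit 1) (p (nat_lit 0x119) (nat_lit 1) (p (nat_lit 0xd1) (nat_lit 0) (p (nat_lit 0x89) (nat_lit 0) (p (nat_lit 0x41) (nat_lit 0) (p (nat_lit 0x8090887069a) (nat_lit 0) (p (nat_lit 0x7870806861a) (nat_lit 0) (p (nat_lit 0x800070786058a) (nat_lit 0) (p (nat_lit 0x787058502) (nat_lit 0) (p (nat_lit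 0x586850482) (nat_lit 0) (p (nat_lit 0x160014) (nat_lit 0) (p (nat_lit 0x16000c) (nat_lit 0) (p (nat_lit 0x68612) (nat_lit 0) (p (nat_lit 0x50592) (nat_lit 0) (p (nat_lit 0x40512) (nat_lit 0) (p (nat_lit 0x50312) (nat_lit 0) (p (nat_lit 0x38292) (nat_lit 0) (p (nat_lit 0x28212) (nat_lit 0) (p (nat_lit 0x38112) (nat_lit 0) (p (nat_lit 0x20092) (nat_lit 0) (p (nat_lit 0x10012) (nat_lit 0) pn)))))))))))))))))))))))))) :=
  Cl.node (nat_lit 0xc9) (nat_lit 2) (by decide +kernel) (ClAll.succ (ClAll.succ ClAll.zero s300) s301)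

def n233 : Cl (O (nat_lit 1)) (R (nat_lit 14353))
    (p (nat_lit 0x4c42a) (nat_lit 2) (p (nat_lit 0x109) (nat_lit 0) (p (nat_lit 0x200004) (nat_lit 0) (p (nat_lit 0x119) (nat_lit 0) (p (nat_lit 0x81) (nat_lit 0) (p (nat_lit 0x101) (nat_lit 1) (p (nat_lit 0x111) (nat_lit 0) (p (nat_lit 0xd1) (nat_lit 1) (p (nat_lit 0x89) (nat_lit 0) (p (nat_lit 0x41) (nat_lit 0) (p (nat_lit 0x8090887069a) (nat_lit 0) (p (nat_lit 0x7870806861a) (nat_lit 0) (p (nat_lit 0x800070786058a) (nat_lit 0) (p (nat_lit 0x787058502) (nat_lit 0) (p (nat_lit 0x586850482) (nat_lit 0) (p (nat_lit 0x160014) (nat_lit 0) (p (nat_lit 0x16000c) (nat_lit 0) (p (nat_lit 0x68612) (nat_lit 0) (p (nat_lit 0x50592) (nat_lit 0) (p (nat_lit 0x40512) (nat_lit 0) (p (nat_lit 0x50312) (nat_lit 0) (p (nat_lit 0x38292) (nat_lit 0) (p (nat_lit 0x28212) (nat_lit 0) (p (nat_lit 0x38112) (nat_lit 0) (p (nat_lit 0x20092)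 (nat_lit 0) (p (nat_lit 0x10012) (nat_lit 0) pn)))))))))))))))))))))))))) :=
  Cl.node (nat_lit 0x380c2) (nat_lit 1) (by decide +kernel) (ClAll.succ ClAll.zero n175)

def n234 : Cl (O (nat_lit 1)) (R (nat_lit 14353))
    (p (nat_lit 0x380c2) (nat_lit 1) (p (nat_lit 0x444aa) (nat_lit 7) (p (nat_lit 0x119) (nat_lit 0) (p (nat_lit 0xc1) (nat_lit 0) (p (nat_lit 0x81) (nat_lit 1) (p (nat_lit 0x101) (nat_lit 1) (p (nat_lit 0x111) (nat_lit 0) (p (nat_lit 0xd1) (nat_lit 1) (p (nat_lit 0x89) (nat_lit 0) (p (nat_lit 0x41) (nat_lit 0) (p (nat_lit 0x8090887069a) (nat_lit 0) (p (nat_lit 0x7870806861a) (nat_lit 0) (p (nat_lit 0x800070786058a) (nat_lit 0) (p (nat_lit 0x787058502) (nat_lit 0) (p (nat_lit 0x586850482) (nat_lit 0) (p (nat_lit 0x160014) (nat_lit 0) (p (nat_lit 0x16000c) (nat_lit 0) (p (nat_lit 0x68612) (nat_lit 0) (p (nat_lit 0x50592) (nat_lit 0) (p (nat_lit 0x40512) (nat_lit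 0) (p (nat_lit 0x50312) (nat_lit 0) (p (nat_lit 0x38292) (nat_lit 0) (p (nat_lit 0x28212) (nat_lit 0) (p (nat_lit 0x38112) (nat_lit 0) (p (nat_lit 0x20092) (nat_lit 0) (p (nat_lit 0x10012) (nat_lit 0) pn)))))))))))))))))))))))))) :=
  Cl.node (nat_lit 0x200004) (nat_lit 2) (by decide +kernel) (ClAll.succ (ClAll.succ ClAll.zero n176) s376)

def n235 : Cl (O (nat_lit 1)) (R (nat_lit 14353))
    (p (nat_lit 0x380c2) (nat_lit 0) (p (nat_lit 0x444aa) (nat_lit 7) (p (nat_lit 0xd1) (nat_lit 1) (p (nat_lit 0x111) (nat_lit 1) (p (nat_lit 0x109) (nat_lit 0) (p (nat_lit 0x101) (nat_lit 0) (p (nat_lit 0x119) (nat_lit 0) (p (nat_lit 0xc9) (nat_lit 0) (p (nat_lit 0x89) (nat_lit 1) (p (nat_lit 0x41) (nat_lit 0) (p (nat_lit 0x8090887069a) (nat_lit 0) (p (nat_lit 0x7870806861a) (nat_lit 0) (p (nat_lit 0x800070786058a) (nat_lit 0) (p (nat_lit 0x787058502) (nat_lit 0) (p (nat_lit 0x586850482)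 (nat_lit 0) (p (nat_lit 0x160014) (nat_lit 0) (p (nat_lit 0x16000c) (nat_lit 0) (p (nat_lit 0x68612) (nat_lit 0) (p (nat_lit 0x50592) (nat_lit 0) (p (nat_lit 0x40512) (nat_lit 0) (p (nat_lit 0x50312) (nat_lit 0) (p (nat_lit 0x38292) (nat_lit 0) (p (nat_lit 0x28212) (nat_lit 0) (p (nat_lit 0x38112) (nat_lit 0) (p (nat_lit 0x20092) (nat_lit 0) (p (nat_lit 0x10012) (nat_lit 0) pn)))))))))))))))))))))))))) :=
  Cl.node (nat_lit 0x200004) (nat_lit 2) (by decide +kernel) (ClAll.succ (ClAll.succ ClAll.zero n177) s434)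

def n236 : Cl (O (nat_lit 1)) (R (nat_lit 14353))
    (p (nat_lit 0x380c2) (nat_lit 1) (p (nat_lit 0x444aa) (nat_lit 7) (p (nat_lit 0xd1) (nat_lit 1) (p (nat_lit 0x111) (nat_lit 1) (p (nat_lit 0x109) (nat_lit 0) (p (nat_lit 0x101) (nat_lit 0) (p (nat_lit 0x119) (nat_lit 0) (p (nat_lit 0xc9) (nat_lit 0) (p (nat_lit 0x89) (nat_lit 1) (p (nat_lit 0x41) (nat_lit 0) (p (nat_lit 0x8090887069a) (nat_lit 0) (p (nat_lit 0x7870806861a) (nat_lit 0) (p (nat_lit 0x800070786058a) (nat_lit 0) (p (nat_lit 0x787058502) (nat_lit 0) (p (nat_lit 0x586850482) (nat_lit 0) (p (nat_lit 0x160014) (nat_lit 0) (p (nat_lit 0x16000c) (nat_lit 0) (p (nat_lit 0x68612) (nat_lit 0) (p (nat_lit 0x50592) (nat_lit 0) (p (nat_lit 0x40512) (nat_lit 0) (p (nat_lit 0x50312) (nat_lit 0) (p (nat_lit 0x38292) (nat_lit 0) (p (nat_lit 0x28212) (nat_lit 0) (p (nat_lit 0x38112) (nat_lit 0) (p (nat_lit 0x20092) (nat_lit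 0) (p (nat_lit 0x10012) (nat_lit 0) pn)))))))))))))))))))))))))) :=
  Cl.node (nat_lit 0x200004) (nat_lit 2) (by decide +kernel) (ClAll.succ (ClAll.succ ClAll.zero n178) s441)

def n237 : Cl (O (nat_lit 1)) (R (nat_lit 14353))
    (p (nat_lit 0x44c2a) (nat_lit 0) (p (nat_lit 0x41) (nat_lit 0) (p (nat_lit 0x200004) (nat_lit 0) (p (nat_lit 0xd1) (nat_lit 0) (p (nat_lit 0x109) (nat_lit 1) (p (nat_lit 0x101) (nat_lit 0) (p (nat_lit 0x119) (nat_lit 0) (p (nat_lit 0xc9) (nat_lit 0) (p (nat_lit 0x89) (nat_lit 1) (p (nat_lit 0x41) (nat_lit 0) (p (nat_lit 0x8090887069a) (nat_lit 0) (p (nat_lit 0x7870806861a) (nat_lit 0) (p (nat_lit 0x800070786058a) (nat_lit 0) (p (nat_lit 0x787058502) (nat_lit 0) (p (nat_lit 0x586850482) (nat_lit 0) (p (nat_lit 0x160014) (nat_lit 0) (p (nat_lit 0x16000c) (nat_lit 0) (p (nat_lit 0x68612) (nat_lit 0) (p (nat_lit 0x50592) (nat_lit 0) (p (nat_lit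 0x40512) (nat_lit 0) (p (nat_lit 0x50312) (nat_lit 0) (p (nat_lit 0x38292) (nat_lit 0) (p (nat_lit 0x28212) (nat_lit 0) (p (nat_lit 0x38112) (nat_lit 0) (p (nat_lit 0x20092) (nat_lit 0) (p (nat_lit 0x10012) (nat_lit 0) pn)))))))))))))))))))))))))) :=
  Cl.node (nat_lit 0x380c2) (nat_lit 2) (by decide +kernel) (ClAll.succ (ClAll.succ ClAll.zero s446) s447)

def n238 : Cl (O (nat_lit 1)) (R (nat_lit 14353))
    (p (nat_lit 0x44c2a) (nat_lit 1) (p (nat_lit 0x41) (nat_lit 0) (p (nat_lit 0x200004) (nat_lit 0) (p (nat_lit 0xd1) (nat_lit 0) (p (nat_lit 0x109) (nat_lit 1) (p (nat_lit 0x101) (nat_lit 0) (p (nat_lit 0x119) (nat_lit 0) (p (nat_lit 0xc9) (nat_lit 0) (p (nat_lit 0x89) (nat_lit 1) (p (nat_lit 0x41) (nat_lit 0) (p (nat_lit 0x8090887069a) (nat_lit 0) (p (nat_lit 0x7870806861a) (nat_lit 0) (p (nat_lit 0x800070786058a) (nat_lit 0) (p (nat_lit 0x787058502) (nat_lit 0)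 (p (nat_lit 0x586850482) (nat_lit 0) (p (nat_lit 0x160014) (nat_lit 0) (p (nat_lit 0x16000c) (nat_lit 0) (p (nat_lit 0x68612) (nat_lit 0) (p (nat_lit 0x50592) (nat_lit 0) (p (nat_lit 0x40512) (nat_lit 0) (p (nat_lit 0x50312) (nat_lit 0) (p (nat_lit 0x38292) (nat_lit 0) (p (nat_lit 0x28212) (nat_lit 0) (p (nat_lit 0x38112) (nat_lit 0) (p (nat_lit 0x20092) (nat_lit 0) (p (nat_lit 0x10012) (nat_lit 0) pn)))))))))))))))))))))))))) :=
  Cl.node (nat_lit 0x380c2) (nat_lit 1) (by decide +kernel) (ClAll.succ ClAll.zero n179)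

def n239 : Cl (O (nat_lit 1)) (R (nat_lit 14353))
    (p (nat_lit 0x200004) (nat_lit 0) (p (nat_lit 0x380c2) (nat_lit 0) (p (nat_lit 0x444aa) (nat_lit 7) (p (nat_lit 0xd1) (nat_lit 1) (p (nat_lit 0x109) (nat_lit 1) (p (nat_lit 0x101) (nat_lit 0) (p (nat_lit 0x119) (nat_lit 0) (p (nat_lit 0xc9) (nat_lit 0) (p (nat_lit 0x89) (nat_lit 1) (p (nat_lit 0x41) (nat_lit 0) (p (nat_lit 0x8090887069a) (nat_lit 0) (p (nat_lit 0x7870806861a) (nat_lit 0) (p (nat_lit 0x800070786058a) (nat_lit 0) (p (nat_lit 0x787058502) (nat_lit 0) (p (nat_lit 0x586850482) (nat_lit 0) (p (nat_lit 0x160014) (nat_lit 0) (p (nat_lit 0x16000c) (nat_lit 0) (p (nat_lit 0x68612) (nat_lit 0) (p (nat_lit 0x50592) (nat_lit 0) (p (nat_lit 0x40512) (nat_lit 0) (p (nat_lit 0x50312) (nat_lit 0) (p (nat_lit 0x38292) (nat_lit 0) (p (nat_lit 0x28212) (nat_lit 0) (p (nat_lit 0x38112) (nat_lit 0) (p (nat_lit 0x20092)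 (nat_lit 0) (p (nat_lit 0x10012) (nat_lit 0) pn)))))))))))))))))))))))))) :=
  Cl.node (nat_lit 0x100004) (nat_lit 2) (by decide +kernel) (ClAll.succ (ClAll.succ ClAll.zero n180) s484)

def n240 : Cl (O (nat_lit 1)) (R (nat_lit 14353))
    (p (nat_lit 0x200004) (nat_lit 0) (p (nat_lit 0x380c2) (nat_lit 1) (p (nat_lit 0x444aa) (nat_lit 7) (p (nat_lit 0xd1) (nat_lit 1) (p (nat_lit 0x109) (nat_lit 1) (p (nat_lit 0x101) (nat_lit 0) (p (nat_lit 0x119) (nat_lit 0) (p (nat_lit 0xc9) (nat_lit 0) (p (nat_lit 0x89) (nat_lit 1) (p (nat_lit 0x41) (nat_lit 0) (p (nat_lit 0x8090887069a) (nat_lit 0) (p (nat_lit 0x7870806861a) (nat_lit 0) (p (nat_lit 0x800070786058a) (nat_lit 0) (p (nat_lit 0x787058502) (nat_lit 0) (p (nat_lit 0x586850482) (nat_lit 0) (p (nat_lit 0x160014) (nat_lit 0) (p (nat_lit 0x16000c) (nat_lit 0) (p (nat_lit 0x68612) (nat_lit 0) (p (nat_lit 0x50592) (nat_lit 0)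 (p (nat_lit 0x40512) (nat_lit 0) (p (nat_lit 0x50312) (nat_lit 0) (p (nat_lit 0x38292) (nat_lit 0) (p (nat_lit 0x28212) (nat_lit 0) (p (nat_lit 0x38112) (nat_lit 0) (p (nat_lit 0x20092) (nat_lit 0) (p (nat_lit 0x10012) (nat_lit 0) pn)))))))))))))))))))))))))) :=
  Cl.node (nat_lit 0x100004) (nat_lit 2) (by decide +kernel) (ClAll.succ (ClAll.succ ClAll.zero n181) s532)

def n241 : Cl (O (nat_lit 1)) (R (nat_lit 14353))
    (p (nat_lit 0x44c2a) (nat_lit 0) (p (nat_lit 0x109) (nat_lit 1) (p (nat_lit 0x200004) (nat_lit 0) (p (nat_lit 0xd1) (nat_lit 0) (p (nat_lit 0xc1) (nat_lit 0) (p (nat_lit 0x101) (nat_lit 1) (p (nat_lit 0x119) (nat_lit 0) (p (nat_lit 0xc9) (nat_lit 0) (p (nat_lit 0x89) (nat_lit 1) (p (nat_lit 0x41) (nat_lit 0) (p (nat_lit 0x8090887069a) (nat_lit 0) (p (nat_lit 0x7870806861a) (nat_lit 0) (p (nat_lit 0x800070786058a) (nat_lit 0) (p (nat_lit 0x787058502)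 (nat_lit 0) (p (nat_lit 0x586850482) (nat_lit 0) (p (nat_lit 0x160014) (nat_lit 0) (p (nat_lit 0x16000c) (nat_lit 0) (p (nat_lit 0x68612) (nat_lit 0) (p (nat_lit 0x50592) (nat_lit 0) (p (nat_lit 0x40512) (nat_lit 0) (p (nat_lit 0x50312) (nat_lit 0) (p (nat_lit 0x38292) (nat_lit 0) (p (nat_lit 0x28212) (nat_lit 0) (p (nat_lit 0x38112) (nat_lit 0) (p (nat_lit 0x20092) (nat_lit 0) (p (nat_lit 0x10012) (nat_lit 0) pn)))))))))))))))))))))))))) :=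
  Cl.node (nat_lit 0x380c2) (nat_lit 2) (by decide +kernel) (ClAll.succ (ClAll.succ ClAll.zero n182) n183)

def n242 : Cl (O (nat_lit 1)) (R (nat_lit 14353))
    (p (nat_lit 0x44c2a) (nat_lit 1) (p (nat_lit 0x109) (nat_lit 1) (p (nat_lit 0x200004) (nat_lit 0) (p (nat_lit 0xd1) (nat_lit 0) (p (nat_lit 0xc1) (nat_lit 0) (p (nat_lit 0x101) (nat_lit 1) (p (nat_lit 0x119) (nat_lit 0) (p (nat_lit 0xc9) (nat_lit 0) (p (nat_lit 0x89) (nat_lit 1) (p (nat_lit 0x41) (nat_lit 0) (p (nat_lit 0x8090887069a) (nat_lit 0) (p (nat_lit 0x7870806861a) (nat_lit 0) (p (nat_lit 0x800070786058a) (nat_lit 0) (p (nat_lit 0x787058502) (nat_lit 0) (p (nat_lit 0x586850482) (nat_lit 0) (p (nat_lit 0x160014) (nat_lit 0) (p (nat_lit 0x16000c) (nat_lit 0) (p (nat_lit 0x68612) (nat_lit 0) (p (nat_lit 0x50592) (nat_lit 0) (p (nat_lit 0x40512) (nat_lit 0) (p (nat_lit 0x50312) (nat_lit 0) (p (nat_lit 0x38292)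 (nat_lit 0) (p (nat_lit 0x28212) (nat_lit 0) (p (nat_lit 0x38112) (nat_lit 0) (p (nat_lit 0x20092) (nat_lit 0) (p (nat_lit 0x10012) (nat_lit 0) pn)))))))))))))))))))))))))) :=
  Cl.node (nat_lit 0x380c2) (nat_lit 1) (by decide +kernel) (ClAll.succ ClAll.zero n184)

def n243 : Cl (O (nat_lit 1)) (R (nat_lit 14353))
    (p (nat_lit 0x200004) (nat_lit 0) (p (nat_lit 0x380c2) (nat_lit 1) (p (nat_lit 0x444aa) (nat_lit 7) (p (nat_lit 0xd1) (nat_lit 1) (p (nat_lit 0xc1) (nat_lit 0) (p (nat_lit 0x101) (nat_lit 1) (p (nat_lit 0x119) (nat_lit 0) (p (nat_lit 0xc9) (nat_lit 0) (p (nat_lit 0x89) (nat_lit 1) (p (nat_lit 0x41) (nat_lit 0) (p (nat_lit 0x8090887069a) (nat_lit 0) (p (nat_lit 0x7870806861a) (nat_lit 0) (p (nat_lit 0x800070786058a) (nat_lit 0) (p (nat_lit 0x787058502) (nat_lit 0) (p (nat_lit 0x586850482) (nat_lit 0) (p (nat_lit 0x160014) (nat_lit 0) (p (nat_lit 0x16000c)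 (nat_lit 0) (p (nat_lit 0x68612) (nat_lit 0) (p (nat_lit 0x50592) (nat_lit 0) (p (nat_lit 0x40512) (nat_lit 0) (p (nat_lit 0x50312) (nat_lit 0) (p (nat_lit 0x38292) (nat_lit 0) (p (nat_lit 0x28212) (nat_lit 0) (p (nat_lit 0x38112) (nat_lit 0) (p (nat_lit 0x20092) (nat_lit 0) (p (nat_lit 0x10012) (nat_lit 0) pn)))))))))))))))))))))))))) :=
  Cl.node (nat_lit 0xc9) (nat_lit 2) (by decide +kernel) (ClAll.succ (ClAll.succ ClAll.zero n185) s578)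

def n244 : Cl (O (nat_lit 1)) (R (nat_lit 14353))
    (p (nat_lit 0x200004) (nat_lit 0) (p (nat_lit 0x380c2) (nat_lit 0) (p (nat_lit 0x444aa) (nat_lit 7) (p (nat_lit 0x111) (nat_lit 1) (p (nat_lit 0xd1) (nat_lit 1) (p (nat_lit 0xc1) (nat_lit 0) (p (nat_lit 0x119) (nat_lit 1) (p (nat_lit 0xc9) (nat_lit 0) (p (nat_lit 0x89) (nat_lit 1) (p (nat_lit 0x41) (nat_lit 0) (p (nat_lit 0x8090887069a) (nat_lit 0) (p (nat_lit 0x7870806861a) (nat_lit 0) (p (nat_lit 0x800070786058a) (nat_lit 0) (p (nat_lit 0x787058502) (nat_lit 0) (p (nat_lit 0x586850482) (nat_lit 0) (p (nat_lit 0x160014) (nat_lit 0) (p (nat_lit 0x16000c) (nat_lit 0) (p (nat_lit 0x68612) (nat_lit 0) (p (nat_lit 0x50592) (nat_lit 0) (p (nat_lit 0x40512) (nat_lit 0) (p (nat_lit 0x50312) (nat_lit 0) (p (nat_lit 0x38292) (nat_lit 0) (p (nat_lit 0x28212) (nat_lit 0) (p (nat_lit 0x38112) (nat_lit 0) (p (nat_lit 0x20092)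 (nat_lit 0) (p (nat_lit 0x10012) (nat_lit 0) pn)))))))))))))))))))))))))) :=
  Cl.node (nat_lit 0x100004) (nat_lit 2) (by decide +kernel) (ClAll.succ (ClAll.succ ClAll.zero s594) s595)

def n245 : Cl (O (nat_lit 1)) (R (nat_lit 14353))
    (p (nat_lit 0x200004) (nat_lit 0) (p (nat_lit 0x380c2) (nat_lit 1) (p (nat_lit 0x444aa) (nat_lit 7) (p (nat_lit 0x111) (nat_lit 1) (p (nat_lit 0xd1) (nat_lit 1) (p (nat_lit 0xc1) (nat_lit 0) (p (nat_lit 0x119) (nat_lit 1) (p (nat_lit 0xc9) (nat_lit 0) (p (nat_lit 0x89) (nat_lit 1) (p (nat_lit 0x41) (nat_lit 0) (p (nat_lit 0x8090887069a) (nat_lit 0) (p (nat_lit 0x7870806861a) (nat_lit 0) (p (nat_lit 0x800070786058a) (nat_lit 0) (p (nat_lit 0x787058502) (nat_lit 0) (p (nat_lit 0x586850482) (nat_lit 0) (p (nat_lit 0x160014) (nat_lit 0) (p (nat_lit 0x16000c) (nat_lit 0) (p (nat_lit 0x68612) (nat_lit 0) (p (nat_lit 0x50592) (nat_lit 0)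 (p (nat_lit 0x40512) (nat_lit 0) (p (nat_lit 0x50312) (nat_lit 0) (p (nat_lit 0x38292) (nat_lit 0) (p (nat_lit 0x28212) (nat_lit 0) (p (nat_lit 0x38112) (nat_lit 0) (p (nat_lit 0x20092) (nat_lit 0) (p (nat_lit 0x10012) (nat_lit 0) pn)))))))))))))))))))))))))) :=
  Cl.node (nat_lit 0x100004) (nat_lit 2) (by decide +kernel) (ClAll.succ (ClAll.succ ClAll.zero s597) n186)

def n246 : Cl (O (nat_lit 1)) (R (nat_lit 14353))
    (p (nat_lit 0x200004) (nat_lit 0) (p (nat_lit 0x380c2) (nat_lit 0) (p (nat_lit 0x44c2a) (nat_lit 0) (p (nat_lit 0x111) (nat_lit 0) (p (nat_lit 0x101) (nat_lit 0) (p (nat_lit 0xc1) (nat_lit 1) (p (nat_lit 0x119) (nat_lit 1) (p (nat_lit 0xc9) (nat_lit 0) (p (nat_lit 0x89) (nat_lit 1) (p (nat_lit 0x41) (nat_lit 0) (p (nat_lit 0x8090887069a) (nat_lit 0) (p (nat_lit 0x7870806861a) (nat_lit 0) (p (nat_lit 0x800070786058a) (nat_lit 0) (p (nat_lit 0x787058502)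 (nat_lit 0) (p (nat_lit 0x586850482) (nat_lit 0) (p (nat_lit 0x160014) (nat_lit 0) (p (nat_lit 0x16000c) (nat_lit 0) (p (nat_lit 0x68612) (nat_lit 0) (p (nat_lit 0x50592) (nat_lit 0) (p (nat_lit 0x40512) (nat_lit 0) (p (nat_lit 0x50312) (nat_lit 0) (p (nat_lit 0x38292) (nat_lit 0) (p (nat_lit 0x28212) (nat_lit 0) (p (nat_lit 0x38112) (nat_lit 0) (p (nat_lit 0x20092) (nat_lit 0) (p (nat_lit 0x10012) (nat_lit 0) pn)))))))))))))))))))))))))) :=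
  Cl.node (nat_lit 0xb0014) (nat_lit 2) (by decide +kernel) (ClAll.succ (ClAll.succ ClAll.zero n187) s622)

def n247 : Cl (O (nat_lit 1)) (R (nat_lit 14353))
    (p (nat_lit 0x200004) (nat_lit 0) (p (nat_lit 0x380c2) (nat_lit 0) (p (nat_lit 0x44c2a) (nat_lit 1) (p (nat_lit 0x111) (nat_lit 0) (p (nat_lit 0x101) (nat_lit 0) (p (nat_lit 0xc1) (nat_lit 1) (p (nat_lit 0x119) (nat_lit 1) (p (nat_lit 0xc9) (nat_lit 0) (p (nat_lit 0x89) (nat_lit 1) (p (nat_lit 0x41) (nat_lit 0) (p (nat_lit 0x8090887069a) (nat_lit 0) (p (nat_lit 0x7870806861a) (nat_lit 0) (p (nat_lit 0x800070786058a) (nat_lit 0) (p (nat_lit 0x787058502) (nat_lit 0) (p (nat_lit 0x586850482) (nat_lit 0) (p (nat_lit 0x160014) (nat_lit 0) (p (nat_lit 0x16000c) (nat_lit 0) (p (nat_lit 0x68612) (nat_lit 0) (p (nat_lit 0x50592) (nat_lit 0) (p (nat_lit 0x40512) (nat_lit 0) (p (nat_lit 0x50312) (nat_lit 0) (p (nat_lit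 0x38292) (nat_lit 0) (p (nat_lit 0x28212) (nat_lit 0) (p (nat_lit 0x38112) (nat_lit 0) (p (nat_lit 0x20092) (nat_lit 0) (p (nat_lit 0x10012) (nat_lit 0) pn)))))))))))))))))))))))))) :=
  Cl.node (nat_lit 0x41) (nat_lit 2) (by decide +kernel) (ClAll.succ (ClAll.succ ClAll.zero s625) n188)

def n248 : Cl (O (nat_lit 1)) (R (nat_lit 14353))
    (p (nat_lit 0x200004) (nat_lit 0) (p (nat_lit 0x380c2) (nat_lit 1) (p (nat_lit 0x444aa) (nat_lit 7) (p (nat_lit 0x111) (nat_lit 1) (p (nat_lit 0x101) (nat_lit 0) (p (nat_lit 0xc1) (nat_lit 1) (p (nat_lit 0x119) (nat_lit 1) (p (nat_lit 0xc9) (nat_lit 0) (p (nat_lit 0x89) (nat_lit 1) (p (nat_lit 0x41) (nat_lit 0) (p (nat_lit 0x8090887069a) (nat_lit 0) (p (nat_lit 0x7870806861a) (nat_lit 0) (p (nat_lit 0x800070786058a) (nat_lit 0) (p (nat_lit 0x787058502) (nat_lit 0) (p (nat_lit 0x586850482) (nat_lit 0) (p (nat_lit 0x160014) (nat_lit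 0) (p (nat_lit 0x16000c) (nat_lit 0) (p (nat_lit 0x68612) (nat_lit 0) (p (nat_lit 0x50592) (nat_lit 0) (p (nat_lit 0x40512) (nat_lit 0) (p (nat_lit 0x50312) (nat_lit 0) (p (nat_lit 0x38292) (nat_lit 0) (p (nat_lit 0x28212) (nat_lit 0) (p (nat_lit 0x38112) (nat_lit 0) (p (nat_lit 0x20092) (nat_lit 0) (p (nat_lit 0x10012) (nat_lit 0) pn)))))))))))))))))))))))))) :=
  Cl.node (nat_lit 0x109) (nat_lit 2) (by decide +kernel) (ClAll.succ (ClAll.succ ClAll.zero n189) s661)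

def n249 : Cl (O (nat_lit 1)) (R (nat_lit 14353))
    (p (nat_lit 0x380c2) (nat_lit 0) (p (nat_lit 0x4c42a) (nat_lit 2) (p (nat_lit 0x111) (nat_lit 0) (p (nat_lit 0x89) (nat_lit 0) (p (nat_lit 0x109) (nat_lit 1) (p (nat_lit 0x101) (nat_lit 0) (p (nat_lit 0x119) (nat_lit 0) (p (nat_lit 0xd1) (nat_lit 0) (p (nat_lit 0x81) (nat_lit 0) (p (nat_lit 0x41) (nat_lit 1) (p (nat_lit 0x8090887069a) (nat_lit 0) (p (nat_lit 0x7870806861a) (nat_lit 0) (p (nat_lit 0x800070786058a) (nat_lit 0) (p (nat_lit 0x787058502) (nat_lit 0) (p (nat_lit 0x586850482) (nat_lit 0) (p (nat_lit 0x160014) (nat_lit 0) (p (nat_lit 0x16000c) (nat_lit 0) (p (nat_lit 0x68612) (nat_lit 0) (p (nat_lit 0x50592) (nat_lit 0) (p (nat_lit 0x40512) (nat_lit 0) (p (nat_lit 0x50312) (nat_lit 0) (p (nat_lit 0x38292) (nat_lit 0) (p (nat_lit 0x28212) (nat_lit 0) (p (nat_lit 0x38112) (nat_lit 0) (p (nat_lit 0x20092) (nat_lit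 0) (p (nat_lit 0x10012) (nat_lit 0) pn)))))))))))))))))))))))))) :=
  Cl.node (nat_lit 0xc9) (nat_lit 2) (by decide +kernel) (ClAll.succ (ClAll.succ ClAll.zero s687) n190)

def n250 : Cl (O (nat_lit 1)) (R (nat_lit 14353))
    (p (nat_lit 0x380c2) (nat_lit 0) (p (nat_lit 0x4c42a) (nat_lit 8) (p (nat_lit 0x111) (nat_lit 0) (p (nat_lit 0x89) (nat_lit 0) (p (nat_lit 0x109) (nat_lit 1) (p (nat_lit 0x101) (nat_lit 0) (p (nat_lit 0x119) (nat_lit 0) (p (nat_lit 0xd1) (nat_lit 0) (p (nat_lit 0x81) (nat_lit 0) (p (nat_lit 0x41) (nat_lit 1) (p (nat_lit 0x8090887069a) (nat_lit 0) (p (nat_lit 0x7870806861a) (nat_lit 0) (p (nat_lit 0x800070786058a) (nat_lit 0) (p (nat_lit 0x787058502) (nat_lit 0) (p (nat_lit 0x586850482) (nat_lit 0) (p (nat_lit 0x160014) (nat_lit 0) (p (nat_lit 0x16000c) (nat_lit 0) (p (nat_lit 0x68612) (nat_lit 0) (p (nat_lit 0x50592) (nat_lit 0) (p (nat_lit 0x40512)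 (nat_lit 0) (p (nat_lit 0x50312) (nat_lit 0) (p (nat_lit 0x38292) (nat_lit 0) (p (nat_lit 0x28212) (nat_lit 0) (p (nat_lit 0x38112) (nat_lit 0) (p (nat_lit 0x20092) (nat_lit 0) (p (nat_lit 0x10012) (nat_lit 0) pn)))))))))))))))))))))))))) :=
  Cl.node (nat_lit 0xc9) (nat_lit 2) (by decide +kernel) (ClAll.succ (ClAll.succ ClAll.zero s706) n191)

def n251 : Cl (O (nat_lit 1)) (R (nat_lit 14353))
    (p (nat_lit 0x380c2) (nat_lit 0) (p (nat_lit 0x3cc2a) (nat_lit 11) (p (nat_lit 0x111) (nat_lit 1) (p (nat_lit 0x89) (nat_lit 0) (p (nat_lit 0x109) (nat_lit 1) (p (nat_lit 0x101) (nat_lit 0) (p (nat_lit 0x119) (nat_lit 0) (p (nat_lit 0xd1) (nat_lit 0) (p (nat_lit 0x81) (nat_lit 0) (p (nat_lit 0x41) (nat_lit 1) (p (nat_lit 0x8090887069a) (nat_lit 0) (p (nat_lit 0x7870806861a) (nat_lit 0) (p (nat_lit 0x800070786058a) (nat_lit 0) (p (nat_lit 0x787058502) (nat_lit 0) (p (nat_lit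 0x586850482) (nat_lit 0) (p (nat_lit 0x160014) (nat_lit 0) (p (nat_lit 0x16000c) (nat_lit 0) (p (nat_lit 0x68612) (nat_lit 0) (p (nat_lit 0x50592) (nat_lit 0) (p (nat_lit 0x40512) (nat_lit 0) (p (nat_lit 0x50312) (nat_lit 0) (p (nat_lit 0x38292) (nat_lit 0) (p (nat_lit 0x28212) (nat_lit 0) (p (nat_lit 0x38112) (nat_lit 0) (p (nat_lit 0x20092) (nat_lit 0) (p (nat_lit 0x10012) (nat_lit 0) pn)))))))))))))))))))))))))) :=
  Cl.node (nat_lit 0xb0014) (nat_lit 2) (by decide +kernel) (ClAll.succ (ClAll.succ ClAll.zero n192) s744)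

def n252 : Cl (O (nat_lit 1)) (R (nat_lit 14353))
    (p (nat_lit 0x380c2) (nat_lit 0) (p (nat_lit 0x4c42a) (nat_lit 2) (p (nat_lit 0xc9) (nat_lit 0) (p (nat_lit 0x89) (nat_lit 1) (p (nat_lit 0x109) (nat_lit 1) (p (nat_lit 0x101) (nat_lit 0) (p (nat_lit 0x119) (nat_lit 0) (p (nat_lit 0xd1) (nat_lit 0) (p (nat_lit 0x81) (nat_lit 0) (p (nat_lit 0x41) (nat_lit 1) (p (nat_lit 0x8090887069a) (nat_lit 0) (p (nat_lit 0x7870806861a) (nat_lit 0) (p (nat_lit 0x800070786058a) (nat_lit 0) (p (nat_lit 0x787058502) (nat_lit 0) (p (nat_lit 0x586850482) (nat_lit 0) (p (nat_lit 0x160014) (nat_lit 0) (p (nat_lit 0x16000c) (nat_lit 0) (p (nat_lit 0x68612) (nat_lit 0) (p (nat_lit 0x50592) (nat_lit 0) (p (nat_lit 0x40512) (nat_lit 0) (p (nat_lit 0x50312) (nat_lit 0) (p (nat_lit 0x38292) (nat_lit 0) (p (nat_lit 0x28212) (nat_lit 0) (p (nat_lit 0x38112) (nat_lit 0) (p (nat_lit 0x20092) (nat_lit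 0) (p (nat_lit 0x10012) (nat_lit 0) pn)))))))))))))))))))))))))) :=
  Cl.node (nat_lit 0x111) (nat_lit 2) (by decide +kernel) (ClAll.succ (ClAll.succ ClAll.zero s748) n193)

def n253 : Cl (O (nat_lit 1)) (R (nat_lit 14353))
    (p (nat_lit 0x380c2) (nat_lit 0) (p (nat_lit 0x4c42a) (nat_lit 8) (p (nat_lit 0xc9) (nat_lit 0) (p (nat_lit 0x89) (nat_lit 1) (p (nat_lit 0x109) (nat_lit 1) (p (nat_lit 0x101) (nat_lit 0) (p (nat_lit 0x119) (nat_lit 0) (p (nat_lit 0xd1) (nat_lit 0) (p (nat_lit 0x81) (nat_lit 0) (p (nat_lit 0x41) (nat_lit 1) (p (nat_lit 0x8090887069a) (nat_lit 0) (p (nat_lit 0x7870806861a) (nat_lit 0) (p (nat_lit 0x800070786058a) (nat_lit 0) (p (nat_lit 0x787058502) (nat_lit 0) (p (nat_lit 0x586850482) (nat_lit 0) (p (nat_lit 0x160014) (nat_lit 0) (p (nat_lit 0x16000c) (nat_lit 0) (p (nat_lit 0x68612) (nat_lit 0) (p (nat_lit 0x50592) (nat_lit 0) (p (nat_lit 0x40512)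 (nat_lit 0) (p (nat_lit 0x50312) (nat_lit 0) (p (nat_lit 0x38292) (nat_lit 0) (p (nat_lit 0x28212) (nat_lit 0) (p (nat_lit 0x38112) (nat_lit 0) (p (nat_lit 0x20092) (nat_lit 0) (p (nat_lit 0x10012) (nat_lit 0) pn)))))))))))))))))))))))))) :=
  Cl.node (nat_lit 0x111) (nat_lit 2) (by decide +kernel) (ClAll.succ (ClAll.succ ClAll.zero s757) n194)

def n254 : Cl (O (nat_lit 1)) (R (nat_lit 14353))
    (p (nat_lit 0x380c2) (nat_lit 1) (p (nat_lit 0x4c42a) (nat_lit 8) (p (nat_lit 0xc9) (nat_lit 0) (p (nat_lit 0x89) (nat_lit 1) (p (nat_lit 0x109) (nat_lit 1) (p (nat_lit 0x101) (nat_lit 0) (p (nat_lit 0x119) (nat_lit 0) (p (nat_lit 0xd1) (nat_lit 0) (p (nat_lit 0x81) (nat_lit 0) (p (nat_lit 0x41) (nat_lit 1) (p (nat_lit 0x8090887069a) (nat_lit 0) (p (nat_lit 0x7870806861a) (nat_lit 0) (p (nat_lit 0x800070786058a) (nat_lit 0) (p (nat_lit 0x787058502) (nat_lit 0) (p (nat_lit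 0x586850482) (nat_lit 0) (p (nat_lit 0x160014) (nat_lit 0) (p (nat_lit 0x16000c) (nat_lit 0) (p (nat_lit 0x68612) (nat_lit 0) (p (nat_lit 0x50592) (nat_lit 0) (p (nat_lit 0x40512) (nat_lit 0) (p (nat_lit 0x50312) (nat_lit 0) (p (nat_lit 0x38292) (nat_lit 0) (p (nat_lit 0x28212) (nat_lit 0) (p (nat_lit 0x38112) (nat_lit 0) (p (nat_lit 0x20092) (nat_lit 0) (p (nat_lit 0x10012) (nat_lit 0) pn)))))))))))))))))))))))))) :=
  Cl.node (nat_lit 0xb000c) (nat_lit 2) (by decide +kernel) (ClAll.succ (ClAll.succ ClAll.zero n195) s771)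

def n255 : Cl (O (nat_lit 1)) (R (nat_lit 14353))
    (p (nat_lit 0xb0014) (nat_lit 0) (p (nat_lit 0x380c2) (nat_lit 0) (p (nat_lit 0x3cc2a) (nat_lit 11) (p (nat_lit 0x89) (nat_lit 0) (p (nat_lit 0xc1) (nat_lit 0) (p (nat_lit 0x101) (nat_lit 1) (p (nat_lit 0x119) (nat_lit 0) (p (nat_lit 0xd1) (nat_lit 0) (p (nat_lit 0x81) (nat_lit 0) (p (nat_lit 0x41) (nat_lit 1) (p (nat_lit 0x8090887069a) (nat_lit 0) (p (nat_lit 0x7870806861a) (nat_lit 0) (p (nat_lit 0x800070786058a) (nat_lit 0) (p (nat_lit 0x787058502) (nat_lit 0) (p (nat_lit 0x586850482) (nat_lit 0) (p (nat_lit 0x160014) (nat_lit 0) (p (nat_lit 0x16000c) (nat_lit 0) (p (nat_lit 0x68612) (nat_lit 0) (p (nat_lit 0x50592) (nat_lit 0) (p (nat_lit 0x40512) (nat_lit 0) (p (nat_lit 0x50312) (nat_lit 0) (p (nat_lit 0x38292) (nat_lit 0) (p (nat_lit 0x28212) (nat_lit 0) (p (nat_lit 0x38112) (nat_lit 0) (p (nat_lit 0x20092)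 (nat_lit 0) (p (nat_lit 0x10012) (nat_lit 0) pn)))))))))))))))))))))))))) :=
  Cl.node (nat_lit 0xb000c) (nat_lit 2) (by decide +kernel) (ClAll.succ (ClAll.succ ClAll.zero n196) s799)

def n256 : Cl (O (nat_lit 1)) (R (nat_lit 14353))
    (p (nat_lit 0x380c2) (nat_lit 0) (p (nat_lit 0x4c42a) (nat_lit 2) (p (nat_lit 0xc9) (nat_lit 0) (p (nat_lit 0x89) (nat_lit 1) (p (nat_lit 0xc1) (nat_lit 0) (p (nat_lit 0x101) (nat_lit 1) (p (nat_lit 0x119) (nat_lit 0) (p (nat_lit 0xd1) (nat_lit 0) (p (nat_lit 0x81) (nat_lit 0) (p (nat_lit 0x41) (nat_lit 1) (p (nat_lit 0x8090887069a) (nat_lit 0) (p (nat_lit 0x7870806861a) (nat_lit 0) (p (nat_lit 0x800070786058a) (nat_lit 0) (p (nat_lit 0x787058502) (nat_lit 0) (p (nat_lit 0x586850482) (nat_lit 0) (p (nat_lit 0x160014) (nat_lit 0) (p (nat_lit 0x16000c) (nat_lit 0) (p (nat_lit 0x68612) (nat_lit 0) (p (nat_lit 0x50592) (nat_lit 0) (p (nat_lit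 0x40512) (nat_lit 0) (p (nat_lit 0x50312) (nat_lit 0) (p (nat_lit 0x38292) (nat_lit 0) (p (nat_lit 0x28212) (nat_lit 0) (p (nat_lit 0x38112) (nat_lit 0) (p (nat_lit 0x20092) (nat_lit 0) (p (nat_lit 0x10012) (nat_lit 0) pn)))))))))))))))))))))))))) :=
  Cl.node (nat_lit 0x111) (nat_lit 2) (by decide +kernel) (ClAll.succ (ClAll.succ ClAll.zero s804) n197)

def n257 : Cl (O (nat_lit 1)) (R (nat_lit 14353))
    (p (nat_lit 0x380c2) (nat_lit 0) (p (nat_lit 0x4c42a) (nat_lit 8) (p (nat_lit 0xc9) (nat_lit 0) (p (nat_lit 0x89) (nat_lit 1) (p (nat_lit 0xc1) (nat_lit 0) (p (nat_lit 0x101) (nat_lit 1) (p (nat_lit 0x119) (nat_lit 0) (p (nat_lit 0xd1) (nat_lit 0) (p (nat_lit 0x81) (nat_lit 0) (p (nat_lit 0x41) (nat_lit 1) (p (nat_lit 0x8090887069a) (nat_lit 0) (p (nat_lit 0x7870806861a) (nat_lit 0) (p (nat_lit 0x800070786058a) (nat_lit 0) (p (nat_lit 0x787058502) (nat_lit 0) (p (nat_lit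 0x586850482) (nat_lit 0) (p (nat_lit 0x160014) (nat_lit 0) (p (nat_lit 0x16000c) (nat_lit 0) (p (nat_lit 0x68612) (nat_lit 0) (p (nat_lit 0x50592) (nat_lit 0) (p (nat_lit 0x40512) (nat_lit 0) (p (nat_lit 0x50312) (nat_lit 0) (p (nat_lit 0x38292) (nat_lit 0) (p (nat_lit 0x28212) (nat_lit 0) (p (nat_lit 0x38112) (nat_lit 0) (p (nat_lit 0x20092) (nat_lit 0) (p (nat_lit 0x10012) (nat_lit 0) pn)))))))))))))))))))))))))) :=
  Cl.node (nat_lit 0xd1) (nat_lit 2) (by decide +kernel) (ClAll.succ (ClAll.succ ClAll.zero s812) n198)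

def n258 : Cl (O (nat_lit 1)) (R (nat_lit 14353))
    (p (nat_lit 0x380c2) (nat_lit 1) (p (nat_lit 0x4c42a) (nat_lit 8) (p (nat_lit 0xc9) (nat_lit 0) (p (nat_lit 0x89) (nat_lit 1) (p (nat_lit 0xc1) (nat_lit 0) (p (nat_lit 0x101) (nat_lit 1) (p (nat_lit 0x119) (nat_lit 0) (p (nat_lit 0xd1) (nat_lit 0) (p (nat_lit 0x81) (nat_lit 0) (p (nat_lit 0x41) (nat_lit 1) (p (nat_lit 0x8090887069a) (nat_lit 0) (p (nat_lit 0x7870806861a) (nat_lit 0) (p (nat_lit 0x800070786058a) (nat_lit 0) (p (nat_lit 0x787058502) (nat_lit 0) (p (nat_lit 0x586850482) (nat_lit 0) (p (nat_lit 0x160014) (nat_lit 0) (p (nat_lit 0x16000c) (nat_lit 0) (p (nat_lit 0x68612) (nat_lit 0) (p (nat_lit 0x50592) (nat_lit 0) (p (nat_lit 0x40512) (nat_lit 0) (p (nat_lit 0x50312) (nat_lit 0) (p (nat_lit 0x38292) (nat_lit 0) (p (nat_lit 0x28212) (nat_lit 0) (p (nat_lit 0x38112) (nat_lit 0) (p (nat_lit 0x20092) (nat_lit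 0) (p (nat_lit 0x10012) (nat_lit 0) pn)))))))))))))))))))))))))) :=
  Cl.node (nat_lit 0xb000c) (nat_lit 2) (by decide +kernel) (ClAll.succ (ClAll.succ ClAll.zero s820) s821)

def n259 : Cl (O (nat_lit 1)) (R (nat_lit 14353))
    (p (nat_lit 0x380c2) (nat_lit 0) (p (nat_lit 0x44c2a) (nat_lit 0) (p (nat_lit 0x109) (nat_lit 0) (p (nat_lit 0x89) (nat_lit 1) (p (nat_lit 0xc9) (nat_lit 1) (p (nat_lit 0xc1) (nat_lit 0) (p (nat_lit 0x119) (nat_lit 1) (p (nat_lit 0xd1) (nat_lit 0) (p (nat_lit 0x81) (nat_lit 0) (p (nat_lit 0x41) (nat_lit 1) (p (nat_lit 0x8090887069a) (nat_lit 0) (p (nat_lit 0x7870806861a) (nat_lit 0) (p (nat_lit 0x800070786058a) (nat_lit 0) (p (nat_lit 0x787058502) (nat_lit 0) (p (nat_lit 0x586850482) (nat_lit 0) (p (nat_lit 0x160014) (nat_lit 0) (p (nat_lit 0x16000c) (nat_lit 0) (p (nat_lit 0x68612) (nat_lit 0) (p (nat_lit 0x50592) (nat_lit 0) (p (nat_lit 0x40512)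 (nat_lit 0) (p (nat_lit 0x50312) (nat_lit 0) (p (nat_lit 0x38292) (nat_lit 0) (p (nat_lit 0x28212) (nat_lit 0) (p (nat_lit 0x38112) (nat_lit 0) (p (nat_lit 0x20092) (nat_lit 0) (p (nat_lit 0x10012) (nat_lit 0) pn)))))))))))))))))))))))))) :=
  Cl.node (nat_lit 0x200004) (nat_lit 2) (by decide +kernel) (ClAll.succ (ClAll.succ ClAll.zero n199) s869)

def n260 : Cl (O (nat_lit 1)) (R (nat_lit 14353))
    (p (nat_lit 0x380c2) (nat_lit 0) (p (nat_lit 0x44c2a) (nat_lit 1) (p (nat_lit 0x109) (nat_lit 0) (p (nat_lit 0x89) (nat_lit 1) (p (nat_lit 0xc9) (nat_lit 1) (p (nat_lit 0xc1) (nat_lit 0) (p (nat_lit 0x119) (nat_lit 1) (p (nat_lit 0xd1) (nat_lit 0) (p (nat_lit 0x81) (nat_lit 0) (p (nat_lit 0x41) (nat_lit 1) (p (nat_lit 0x8090887069a) (nat_lit 0) (p (nat_lit 0x7870806861a) (nat_lit 0) (p (nat_lit 0x800070786058a) (nat_lit 0) (p (nat_lit 0x787058502) (nat_lit 0) (p (nat_lit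 0x586850482) (nat_lit 0) (p (nat_lit 0x160014) (nat_lit 0) (p (nat_lit 0x16000c) (nat_lit 0) (p (nat_lit 0x68612) (nat_lit 0) (p (nat_lit 0x50592) (nat_lit 0) (p (nat_lit 0x40512) (nat_lit 0) (p (nat_lit 0x50312) (nat_lit 0) (p (nat_lit 0x38292) (nat_lit 0) (p (nat_lit 0x28212) (nat_lit 0) (p (nat_lit 0x38112) (nat_lit 0) (p (nat_lit 0x20092) (nat_lit 0) (p (nat_lit 0x10012) (nat_lit 0) pn)))))))))))))))))))))))))) :=
  Cl.node (nat_lit 0x109) (nat_lit 2) (by decide +kernel) (ClAll.succ (ClAll.succ ClAll.zero s871) s872)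

def n261 : Cl (O (nat_lit 1)) (R (nat_lit 14353))
    (p (nat_lit 0x380c2) (nat_lit 0) (p (nat_lit 0x3c4aa) (nat_lit 10) (p (nat_lit 0x109) (nat_lit 1) (p (nat_lit 0x89) (nat_lit 1) (p (nat_lit 0xc9) (nat_lit 1) (p (nat_lit 0xc1) (nat_lit 0) (p (nat_lit 0x119) (nat_lit 1) (p (nat_lit 0xd1) (nat_lit 0) (p (nat_lit 0x81) (nat_lit 0) (p (nat_lit 0x41) (nat_lit 1) (p (nat_lit 0x8090887069a) (nat_lit 0) (p (nat_lit 0x7870806861a) (nat_lit 0) (p (nat_lit 0x800070786058a) (nat_lit 0) (p (nat_lit 0x787058502) (nat_lit 0) (p (nat_lit 0x586850482) (nat_lit 0) (p (nat_lit 0x160014) (nat_lit 0) (p (nat_lit 0x16000c) (nat_lit 0) (p (nat_lit 0x68612) (nat_lit 0) (p (nat_lit 0x50592) (nat_lit 0) (p (nat_lit 0x40512) (nat_lit 0) (p (nat_lit 0x50312) (nat_lit 0) (p (nat_lit 0x38292) (nat_lit 0) (p (nat_lit 0x28212) (nat_lit 0) (p (nat_lit 0x38112) (nat_lit 0) (p (nat_lit 0x20092) (nat_lit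 0) (p (nat_lit 0x10012) (nat_lit 0) pn)))))))))))))))))))))))))) :=
  Cl.node (nat_lit 0x200004) (nat_lit 2) (by decide +kernel) (ClAll.succ (ClAll.succ ClAll.zero n200) s896)

def n262 : Cl (O (nat_lit 1)) (R (nat_lit 14353))
    (p (nat_lit 0x380c2) (nat_lit 0) (p (nat_lit 0x44c2a) (nat_lit 0) (p (nat_lit 0x109) (nat_lit 0) (p (nat_lit 0x89) (nat_lit 1) (p (nat_lit 0x101) (nat_lit 0) (p (nat_lit 0xc1) (nat_lit 1) (p (nat_lit 0x119) (nat_lit 1) (p (nat_lit 0xd1) (nat_lit 0) (p (nat_lit 0x81) (nat_lit 0) (p (nat_lit 0x41) (nat_lit 1) (p (nat_lit 0x8090887069a) (nat_lit 0) (p (nat_lit 0x7870806861a) (nat_lit 0) (p (nat_lit 0x800070786058a) (nat_lit 0) (p (nat_lit 0x787058502) (nat_lit 0) (p (nat_lit 0x586850482) (nat_lit 0) (p (nat_lit 0x160014) (nat_lit 0) (p (nat_lit 0x16000c) (nat_lit 0) (p (nat_lit 0x68612) (nat_lit 0) (p (nat_lit 0x50592) (nat_lit 0) (p (nat_lit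 0x40512) (nat_lit 0) (p (nat_lit 0x50312) (nat_lit 0) (p (nat_lit 0x38292) (nat_lit 0) (p (nat_lit 0x28212) (nat_lit 0) (p (nat_lit 0x38112) (nat_lit 0) (p (nat_lit 0x20092) (nat_lit 0) (p (nat_lit 0x10012) (nat_lit 0) pn)))))))))))))))))))))))))) :=
  Cl.node (nat_lit 0x200004) (nat_lit 2) (by decide +kernel) (ClAll.succ (ClAll.succ ClAll.zero n201) s913)

def n263 : Cl (O (nat_lit 1)) (R (nat_lit 14353))
    (p (nat_lit 0x380c2) (nat_lit 0) (p (nat_lit 0x3c4aa) (nat_lit 7) (p (nat_lit 0x109) (nat_lit 1) (p (nat_lit 0x89) (nat_lit 1) (p (nat_lit 0x101) (nat_lit 0) (p (nat_lit 0xc1) (nat_lit 1) (p (nat_lit 0x119) (nat_lit 1) (p (nat_lit 0xd1) (nat_lit 0) (p (nat_lit 0x81) (nat_lit 0) (p (nat_lit 0x41) (nat_lit 1) (p (nat_lit 0x8090887069a) (nat_lit 0) (p (nat_lit 0x7870806861a) (nat_lit 0) (p (nat_lit 0x800070786058a) (nat_lit 0) (p (nat_lit 0x787058502) (nat_lit 0)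 (p (nat_lit 0x586850482) (nat_lit 0) (p (nat_lit 0x160014) (nat_lit 0) (p (nat_lit 0x16000c) (nat_lit 0) (p (nat_lit 0x68612) (nat_lit 0) (p (nat_lit 0x50592) (nat_lit 0) (p (nat_lit 0x40512) (nat_lit 0) (p (nat_lit 0x50312) (nat_lit 0) (p (nat_lit 0x38292) (nat_lit 0) (p (nat_lit 0x28212) (nat_lit 0) (p (nat_lit 0x38112) (nat_lit 0) (p (nat_lit 0x20092) (nat_lit 0) (p (nat_lit 0x10012) (nat_lit 0) pn)))))))))))))))))))))))))) :=
  Cl.node (nat_lit 0x200004) (nat_lit 2) (by decide +kernel) (ClAll.succ (ClAll.succ ClAll.zero n202) s935)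

def n264 : Cl (O (nat_lit 1)) (R (nat_lit 14353))
    (p (nat_lit 0x380c2) (nat_lit 1) (p (nat_lit 0x3c4aa) (nat_lit 7) (p (nat_lit 0x109) (nat_lit 1) (p (nat_lit 0x89) (nat_lit 1) (p (nat_lit 0x101) (nat_lit 0) (p (nat_lit 0xc1) (nat_lit 1) (p (nat_lit 0x119) (nat_lit 1) (p (nat_lit 0xd1) (nat_lit 0) (p (nat_lit 0x81) (nat_lit 0) (p (nat_lit 0x41) (nat_lit 1) (p (nat_lit 0x8090887069a) (nat_lit 0) (p (nat_lit 0x7870806861a) (nat_lit 0) (p (nat_lit 0x800070786058a) (nat_lit 0) (p (nat_lit 0x787058502) (nat_lit 0) (p (nat_lit 0x586850482) (nat_lit 0) (p (nat_lit 0x160014) (nat_lit 0) (p (nat_lit 0x16000c) (nat_lit 0) (p (nat_lit 0x68612) (nat_lit 0) (p (nat_lit 0x50592) (nat_lit 0) (p (nat_lit 0x40512) (nat_lit 0) (p (nat_lit 0x50312) (nat_lit 0) (p (nat_lit 0x38292) (nat_lit 0) (p (nat_lit 0x28212) (nat_lit 0) (p (nat_lit 0x38112) (nat_lit 0) (p (nat_lit 0x20092) (nat_lit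 0) (p (nat_lit 0x10012) (nat_lit 0) pn)))))))))))))))))))))))))) :=
  Cl.node (nat_lit 0x200004) (nat_lit 2) (by decide +kernel) (ClAll.succ (ClAll.succ ClAll.zero n203) s938)

def n265 : Cl (O (nat_lit 1)) (R (nat_lit 14353))
    (p (nat_lit 0x380c2) (nat_lit 0) (p (nat_lit 0x3c4aa) (nat_lit 10) (p (nat_lit 0x109) (nat_lit 1) (p (nat_lit 0x89) (nat_lit 1) (p (nat_lit 0x101) (nat_lit 0) (p (nat_lit 0xc1) (nat_lit 1) (p (nat_lit 0x119) (nat_lit 1) (p (nat_lit 0xd1) (nat_lit 0) (p (nat_lit 0x81) (nat_lit 0) (p (nat_lit 0x41) (nat_lit 1) (p (nat_lit 0x8090887069a) (nat_lit 0) (p (nat_lit 0x7870806861a) (nat_lit 0) (p (nat_lit 0x800070786058a) (nat_lit 0) (p (nat_lit 0x787058502) (nat_lit 0) (p (nat_lit 0x586850482) (nat_lit 0) (p (nat_lit 0x160014) (nat_lit 0) (p (nat_lit 0x16000c) (nat_lit 0) (p (nat_lit 0x68612) (nat_lit 0) (p (nat_lit 0x50592) (nat_lit 0) (p (nat_lit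 0x40512) (nat_lit 0) (p (nat_lit 0x50312) (nat_lit 0) (p (nat_lit 0x38292) (nat_lit 0) (p (nat_lit 0x28212) (nat_lit 0) (p (nat_lit 0x38112) (nat_lit 0) (p (nat_lit 0x20092) (nat_lit 0) (p (nat_lit 0x10012) (nat_lit 0) pn)))))))))))))))))))))))))) :=
  Cl.node (nat_lit 0x200004) (nat_lit 2) (by decide +kernel) (ClAll.succ (ClAll.succ ClAll.zero n204) s943)

def n266 : Cl (O (nat_lit 1)) (R (nat_lit 14353))
    (p (nat_lit 0x4c42a) (nat_lit 2) (p (nat_lit 0x119) (nat_lit 1) (p (nat_lit 0xc9) (nat_lit 0) (p (nat_lit 0x89) (nat_lit 1) (p (nat_lit 0x109) (nat_lit 1) (p (nat_lit 0x101) (nat_lit 0) (p (nat_lit 0x111) (nat_lit 0) (p (nat_lit 0xd1) (nat_lit 1) (p (nat_lit 0x81) (nat_lit 0) (p (nat_lit 0x41) (nat_lit 1) (p (nat_lit 0x8090887069a) (nat_lit 0) (p (nat_lit 0x7870806861a) (nat_lit 0) (p (nat_lit 0x800070786058a) (nat_lit 0) (p (nat_lit 0x787058502) (nat_lit 0) (p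 (nat_lit 0x586850482) (nat_lit 0) (p (nat_lit 0x160014) (nat_lit 0) (p (nat_lit 0x16000c) (nat_lit 0) (p (nat_lit 0x68612) (nat_lit 0) (p (nat_lit 0x50592) (nat_lit 0) (p (nat_lit 0x40512) (nat_lit 0) (p (nat_lit 0x50312) (nat_lit 0) (p (nat_lit 0x38292) (nat_lit 0) (p (nat_lit 0x28212) (nat_lit 0) (p (nat_lit 0x38112) (nat_lit 0) (p (nat_lit 0x20092) (nat_lit 0) (p (nat_lit 0x10012) (nat_lit 0) pn)))))))))))))))))))))))))) :=
  Cl.node (nat_lit 0x380c2) (nat_lit 1) (by decide +kernel) (ClAll.succ ClAll.zero n205)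

def n267 : Cl (O (nat_lit 1)) (R (nat_lit 14353))
    (p (nat_lit 0xb000c) (nat_lit 0) (p (nat_lit 0x380c2) (nat_lit 0) (p (nat_lit 0x3c4aa) (nat_lit 9) (p (nat_lit 0x109) (nat_lit 1) (p (nat_lit 0xc9) (nat_lit 1) (p (nat_lit 0x89) (nat_lit 1) (p (nat_lit 0x111) (nat_lit 1) (p (nat_lit 0xd1) (nat_lit 1) (p (nat_lit 0x81) (nat_lit 0) (p (nat_lit 0x41) (nat_lit 1) (p (nat_lit 0x8090887069a) (nat_lit 0) (p (nat_lit 0x7870806861a) (nat_lit 0) (p (nat_lit 0x800070786058a) (nat_lit 0) (p (nat_lit 0x787058502) (nat_lit 0) (p (nat_lit 0x586850482) (nat_lit 0) (p (nat_lit 0x160014) (nat_lit 0) (p (nat_lit 0x16000c) (nat_lit 0) (p (nat_lit 0x68612) (nat_lit 0) (p (nat_lit 0x50592) (nat_lit 0) (p (nat_lit 0x40512) (nat_lit 0) (p (nat_lit 0x50312) (nat_lit 0) (p (nat_lit 0x38292) (nat_lit 0) (p (nat_lit 0x28212) (nat_lit 0) (p (nat_lit 0x38112) (nat_lit 0) (p (nat_lit 0x20092)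 (nat_lit 0) (p (nat_lit 0x10012) (nat_lit 0) pn)))))))))))))))))))))))))) :=
  Cl.node (nat_lit 0x89) (nat_lit 2) (by decide +kernel) (ClAll.succ (ClAll.succ ClAll.zero s1073) s1074)

def n268 : Cl (O (nat_lit 1)) (R (nat_lit 14353))
    (p (nat_lit 0x380c2) (nat_lit 0) (p (nat_lit 0x3c4aa) (nat_lit 7) (p (nat_lit 0xd1) (nat_lit 1) (p (nat_lit 0x111) (nat_lit 1) (p (nat_lit 0x109) (nat_lit 0) (p (nat_lit 0x101) (nat_lit 0) (p (nat_lit 0x119) (nat_lit 0) (p (nat_lit 0xc1) (nat_lit 0) (p (nat_lit 0x81) (nat_lit 1) (p (nat_lit 0x41) (nat_lit 1) (p (nat_lit 0x8090887069a) (nat_lit 0) (p (nat_lit 0x7870806861a) (nat_lit 0) (p (nat_lit 0x800070786058a) (nat_lit 0) (p (nat_lit 0x787058502) (nat_lit 0) (p (nat_lit 0x586850482) (nat_lit 0) (p (nat_lit 0x160014) (nat_lit 0) (p (nat_lit 0x16000c) (nat_lit 0) (p (nat_lit 0x68612) (nat_lit 0) (p (nat_lit 0x50592) (nat_lit 0) (p (nat_lit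 0x40512) (nat_lit 0) (p (nat_lit 0x50312) (nat_lit 0) (p (nat_lit 0x38292) (nat_lit 0) (p (nat_lit 0x28212) (nat_lit 0) (p (nat_lit 0x38112) (nat_lit 0) (p (nat_lit 0x20092) (nat_lit 0) (p (nat_lit 0x10012) (nat_lit 0) pn)))))))))))))))))))))))))) :=
  Cl.node (nat_lit 0x200004) (nat_lit 2) (by decide +kernel) (ClAll.succ (ClAll.succ ClAll.zero n206) s1094)

def n269 : Cl (O (nat_lit 1)) (R (nat_lit 14353))
    (p (nat_lit 0x380c2) (nat_lit 1) (p (nat_lit 0x3c4aa) (nat_lit 7) (p (nat_lit 0xd1) (nat_lit 1) (p (nat_lit 0x111) (nat_lit 1) (p (nat_lit 0x109) (nat_lit 0) (p (nat_lit 0x101) (nat_lit 0) (p (nat_lit 0x119) (nat_lit 0) (p (nat_lit 0xc1) (nat_lit 0) (p (nat_lit 0x81) (nat_lit 1) (p (nat_lit 0x41) (nat_lit 1) (p (nat_lit 0x8090887069a) (nat_lit 0) (p (nat_lit 0x7870806861a) (nat_lit 0) (p (nat_lit 0x800070786058a) (nat_lit 0) (p (nat_lit 0x787058502) (nat_lit 0)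 (p (nat_lit 0x586850482) (nat_lit 0) (p (nat_lit 0x160014) (nat_lit 0) (p (nat_lit 0x16000c) (nat_lit 0) (p (nat_lit 0x68612) (nat_lit 0) (p (nat_lit 0x50592) (nat_lit 0) (p (nat_lit 0x40512) (nat_lit 0) (p (nat_lit 0x50312) (nat_lit 0) (p (nat_lit 0x38292) (nat_lit 0) (p (nat_lit 0x28212) (nat_lit 0) (p (nat_lit 0x38112) (nat_lit 0) (p (nat_lit 0x20092) (nat_lit 0) (p (nat_lit 0x10012) (nat_lit 0) pn)))))))))))))))))))))))))) :=
  Cl.node (nat_lit 0x200004) (nat_lit 2) (by decide +kernel) (ClAll.succ (ClAll.succ ClAll.zero n207) s1102)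

def n270 : Cl (O (nat_lit 1)) (R (nat_lit 14353))
    (p (nat_lit 0x380c2) (nat_lit 0) (p (nat_lit 0x3c4aa) (nat_lit 7) (p (nat_lit 0xd1) (nat_lit 1) (p (nat_lit 0xc9) (nat_lit 0) (p (nat_lit 0x109) (nat_lit 1) (p (nat_lit 0x101) (nat_lit 0) (p (nat_lit 0x119) (nat_lit 0) (p (nat_lit 0xc1) (nat_lit 0) (p (nat_lit 0x81) (nat_lit 1) (p (nat_lit 0x41) (nat_lit 1) (p (nat_lit 0x8090887069a) (nat_lit 0) (p (nat_lit 0x7870806861a) (nat_lit 0) (p (nat_lit 0x800070786058a) (nat_lit 0) (p (nat_lit 0x787058502) (nat_lit 0) (p (nat_lit 0x586850482) (nat_lit 0) (p (nat_lit 0x160014) (nat_lit 0) (p (nat_lit 0x16000c) (nat_lit 0) (p (nat_lit 0x68612) (nat_lit 0) (p (nat_lit 0x50592) (nat_lit 0) (p (nat_lit 0x40512) (nat_lit 0) (p (nat_lit 0x50312) (nat_lit 0) (p (nat_lit 0x38292) (nat_lit 0) (p (nat_lit 0x28212) (nat_lit 0) (p (nat_lit 0x38112) (nat_lit 0) (p (nat_lit 0x20092) (nat_lit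 0) (p (nat_lit 0x10012) (nat_lit 0) pn)))))))))))))))))))))))))) :=
  Cl.node (nat_lit 0x200004) (nat_lit 2) (by decide +kernel) (ClAll.succ (ClAll.succ ClAll.zero n208) s1117)

def n271 : Cl (O (nat_lit 1)) (R (nat_lit 14353))
    (p (nat_lit 0x380c2) (nat_lit 1) (p (nat_lit 0x3c4aa) (nat_lit 7) (p (nat_lit 0xd1) (nat_lit 1) (p (nat_lit 0xc9) (nat_lit 0) (p (nat_lit 0x109) (nat_lit 1) (p (nat_lit 0x101) (nat_lit 0) (p (nat_lit 0x119) (nat_lit 0) (p (nat_lit 0xc1) (nat_lit 0) (p (nat_lit 0x81) (nat_lit 1) (p (nat_lit 0x41) (nat_lit 1) (p (nat_lit 0x8090887069a) (nat_lit 0) (p (nat_lit 0x7870806861a) (nat_lit 0) (p (nat_lit 0x800070786058a) (nat_lit 0) (p (nat_lit 0x787058502) (nat_lit 0) (p (nat_lit 0x586850482) (nat_lit 0) (p (nat_lit 0x160014) (nat_lit 0) (p (nat_lit 0x16000c) (nat_lit 0) (p (nat_lit 0x68612) (nat_lit 0) (p (nat_lit 0x50592) (nat_lit 0) (p (nat_lit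 0x40512) (nat_lit 0) (p (nat_lit 0x50312) (nat_lit 0) (p (nat_lit 0x38292) (nat_lit 0) (p (nat_lit 0x28212) (nat_lit 0) (p (nat_lit 0x38112) (nat_lit 0) (p (nat_lit 0x20092) (nat_lit 0) (p (nat_lit 0x10012) (nat_lit 0) pn)))))))))))))))))))))))))) :=
  Cl.node (nat_lit 0x200004) (nat_lit 2) (by decide +kernel) (ClAll.succ (ClAll.succ ClAll.zero n209) s1124)

def n272 : Cl (O (nat_lit 1)) (R (nat_lit 14353))
    (p (nat_lit 0x200004) (nat_lit 0) (p (nat_lit 0x380c2) (nat_lit 0) (p (nat_lit 0x44c2a) (nat_lit 0) (p (nat_lit 0xd1) (nat_lit 0) (p (nat_lit 0xc9) (nat_lit 0) (p (nat_lit 0x101) (nat_lit 1) (p (nat_lit 0x119) (nat_lit 0) (p (nat_lit 0xc1) (nat_lit 0) (p (nat_lit 0x81) (nat_lit 1) (p (nat_lit 0x41) (nat_lit 1) (p (nat_lit 0x8090887069a) (nat_lit 0) (p (nat_lit 0x7870806861a) (nat_lit 0) (p (nat_lit 0x800070786058a) (nat_lit 0) (p (nat_lit 0x787058502) (nat_lit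 0) (p (nat_lit 0x586850482) (nat_lit 0) (p (nat_lit 0x160014) (nat_lit 0) (p (nat_lit 0x16000c) (nat_lit 0) (p (nat_lit 0x68612) (nat_lit 0) (p (nat_lit 0x50592) (nat_lit 0) (p (nat_lit 0x40512) (nat_lit 0) (p (nat_lit 0x50312) (nat_lit 0) (p (nat_lit 0x38292) (nat_lit 0) (p (nat_lit 0x28212) (nat_lit 0) (p (nat_lit 0x38112) (nat_lit 0) (p (nat_lit 0x20092) (nat_lit 0) (p (nat_lit 0x10012) (nat_lit 0) pn)))))))))))))))))))))))))) :=
  Cl.node (nat_lit 0x100004) (nat_lit 2) (by decide +kernel) (ClAll.succ (ClAll.succ ClAll.zero s1130) s1131)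

def n273 : Cl (O (nat_lit 1)) (R (nat_lit 14353))
    (p (nat_lit 0xb0014) (nat_lit 0) (p (nat_lit 0x380c2) (nat_lit 0) (p (nat_lit 0x44c2a) (nat_lit 1) (p (nat_lit 0xd1) (nat_lit 0) (p (nat_lit 0xc9) (nat_lit 0) (p (nat_lit 0x101) (nat_lit 1) (p (nat_lit 0x119) (nat_lit 0) (p (nat_lit 0xc1) (nat_lit 0) (p (nat_lit 0x81) (nat_lit 1) (p (nat_lit 0x41) (nat_lit 1) (p (nat_lit 0x8090887069a) (nat_lit 0) (p (nat_lit 0x7870806861a) (nat_lit 0) (p (nat_lit 0x800070786058a) (nat_lit 0) (p (nat_lit 0x787058502) (nat_lit 0) (p (nat_lit 0x586850482) (nat_lit 0) (p (nat_lit 0x160014) (nat_lit 0) (p (nat_lit 0x16000c) (nat_lit 0) (p (nat_lit 0x68612) (nat_lit 0) (p (nat_lit 0x50592) (nat_lit 0) (p (nat_lit 0x40512) (nat_lit 0) (p (nat_lit 0x50312) (nat_lit 0) (p (nat_lit 0x38292) (nat_lit 0) (p (nat_lit 0x28212) (nat_lit 0) (p (nat_lit 0x38112) (nat_lit 0) (p (nat_lit 0x20092)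 (nat_lit 0) (p (nat_lit 0x10012) (nat_lit 0) pn)))))))))))))))))))))))))) :=
  Cl.node (nat_lit 0xb000c) (nat_lit 2) (by decide +kernel) (ClAll.succ (ClAll.succ ClAll.zero s1134) s1135)

def n274 : Cl (O (nat_lit 1)) (R (nat_lit 14353))
    (p (nat_lit 0x200004) (nat_lit 0) (p (nat_lit 0x380c2) (nat_lit 0) (p (nat_lit 0x3c4aa) (nat_lit 7) (p (nat_lit 0xd1) (nat_lit 1) (p (nat_lit 0xc9) (nat_lit 0) (p (nat_lit 0x101) (nat_lit 1) (p (nat_lit 0x119) (nat_lit 0) (p (nat_lit 0xc1) (nat_lit 0) (p (nat_lit 0x81) (nat_lit 1) (p (nat_lit 0x41) (nat_lit 1) (p (nat_lit 0x8090887069a) (nat_lit 0) (p (nat_lit 0x7870806861a) (nat_lit 0) (p (nat_lit 0x800070786058a) (nat_lit 0) (p (nat_lit 0x787058502) (nat_lit 0) (p (nat_lit 0x586850482) (nat_lit 0) (p (nat_lit 0x160014) (nat_lit 0) (p (nat_lit 0x16000c) (nat_lit 0) (p (nat_lit 0x68612) (nat_lit 0) (p (nat_lit 0x50592) (nat_lit 0)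 (p (nat_lit 0x40512) (nat_lit 0) (p (nat_lit 0x50312) (nat_lit 0) (p (nat_lit 0x38292) (nat_lit 0) (p (nat_lit 0x28212) (nat_lit 0) (p (nat_lit 0x38112) (nat_lit 0) (p (nat_lit 0x20092) (nat_lit 0) (p (nat_lit 0x10012) (nat_lit 0) pn)))))))))))))))))))))))))) :=
  Cl.node (nat_lit 0xb0014) (nat_lit 2) (by decide +kernel) (ClAll.succ (ClAll.succ ClAll.zero n210) s1172)

def n275 : Cl (O (nat_lit 1)) (R (nat_lit 14353))
    (p (nat_lit 0x200004) (nat_lit 0) (p (nat_lit 0x380c2) (nat_lit 1) (p (nat_lit 0x3c4aa) (nat_lit 7) (p (nat_lit 0xd1) (nat_lit 1) (p (nat_lit 0xc9) (nat_lit 0) (p (nat_lit 0x101) (nat_lit 1) (p (nat_lit 0x119) (nat_lit 0) (p (nat_lit 0xc1) (nat_lit 0) (p (nat_lit 0x81) (nat_lit 1) (p (nat_lit 0x41) (nat_lit 1) (p (nat_lit 0x8090887069a) (nat_lit 0) (p (nat_lit 0x7870806861a) (nat_lit 0) (p (nat_lit 0x800070786058a) (nat_lit 0) (p (nat_lit 0x787058502)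 (nat_lit 0) (p (nat_lit 0x586850482) (nat_lit 0) (p (nat_lit 0x160014) (nat_lit 0) (p (nat_lit 0x16000c) (nat_lit 0) (p (nat_lit 0x68612) (nat_lit 0) (p (nat_lit 0x50592) (nat_lit 0) (p (nat_lit 0x40512) (nat_lit 0) (p (nat_lit 0x50312) (nat_lit 0) (p (nat_lit 0x38292) (nat_lit 0) (p (nat_lit 0x28212) (nat_lit 0) (p (nat_lit 0x38112) (nat_lit 0) (p (nat_lit 0x20092) (nat_lit 0) (p (nat_lit 0x10012) (nat_lit 0) pn)))))))))))))))))))))))))) :=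
  Cl.node (nat_lit 0x100004) (nat_lit 2) (by decide +kernel) (ClAll.succ (ClAll.succ ClAll.zero n211) s1188)

def n276 : Cl (O (nat_lit 1)) (R (nat_lit 14353))
    (p (nat_lit 0x200004) (nat_lit 0) (p (nat_lit 0x380c2) (nat_lit 0) (p (nat_lit 0x3c4aa) (nat_lit 7) (p (nat_lit 0x111) (nat_lit 1) (p (nat_lit 0xd1) (nat_lit 1) (p (nat_lit 0xc9) (nat_lit 0) (p (nat_lit 0x119) (nat_lit 1) (p (nat_lit 0xc1) (nat_lit 0) (p (nat_lit 0x81) (nat_lit 1) (p (nat_lit 0x41) (nat_lit 1) (p (nat_lit 0x8090887069a) (nat_lit 0) (p (nat_lit 0x7870806861a) (nat_lit 0) (p (nat_lit 0x800070786058a) (nat_lit 0) (p (nat_lit 0x787058502) (nat_lit 0) (p (nat_lit 0x586850482) (nat_lit 0) (p (nat_lit 0x160014) (nat_lit 0) (p (nat_lit 0x16000c) (nat_lit 0) (p (nat_lit 0x68612) (nat_lit 0) (p (nat_lit 0x50592) (nat_lit 0) (p (nat_lit 0x40512) (nat_lit 0) (p (nat_lit 0x50312) (nat_lit 0) (p (nat_lit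 0x38292) (nat_lit 0) (p (nat_lit 0x28212) (nat_lit 0) (p (nat_lit 0x38112) (nat_lit 0) (p (nat_lit 0x20092) (nat_lit 0) (p (nat_lit 0x10012) (nat_lit 0) pn)))))))))))))))))))))))))) :=
  Cl.node (nat_lit 0x100004) (nat_lit 2) (by decide +kernel) (ClAll.succ (ClAll.succ ClAll.zero n212) s1207)

def n277 : Cl (O (nat_lit 1)) (R (nat_lit 14353))
    (p (nat_lit 0x109) (nat_lit 1) (p (nat_lit 0x380c2) (nat_lit 0) (p (nat_lit 0x44c2a) (nat_lit 1) (p (nat_lit 0x111) (nat_lit 0) (p (nat_lit 0x109) (nat_lit 0) (p (nat_lit 0xc9) (nat_lit 1) (p (nat_lit 0x119) (nat_lit 1) (p (nat_lit 0xc1) (nat_lit 0) (p (nat_lit 0x81) (nat_lit 1) (p (nat_lit 0x41) (nat_lit 1) (p (nat_lit 0x8090887069a) (nat_lit 0) (p (nat_lit 0x7870806861a) (nat_lit 0) (p (nat_lit 0x800070786058a) (nat_lit 0) (p (nat_lit 0x787058502) (nat_lit 0) (p (nat_lit 0x586850482) (nat_lit 0) (p (nat_lit 0x160014) (nat_lit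 0) (p (nat_lit 0x16000c) (nat_lit 0) (p (nat_lit 0x68612) (nat_lit 0) (p (nat_lit 0x50592) (nat_lit 0) (p (nat_lit 0x40512) (nat_lit 0) (p (nat_lit 0x50312) (nat_lit 0) (p (nat_lit 0x38292) (nat_lit 0) (p (nat_lit 0x28212) (nat_lit 0) (p (nat_lit 0x38112) (nat_lit 0) (p (nat_lit 0x20092) (nat_lit 0) (p (nat_lit 0x10012) (nat_lit 0) pn)))))))))))))))))))))))))) :=
  Cl.node (nat_lit 0xb0014) (nat_lit 2) (by decide +kernel) (ClAll.succ (ClAll.succ ClAll.zero s1216) s1217)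

def n278 : Cl (O (nat_lit 1)) (R (nat_lit 14353))
    (p (nat_lit 0x200004) (nat_lit 0) (p (nat_lit 0x380c2) (nat_lit 1) (p (nat_lit 0x3c4aa) (nat_lit 7) (p (nat_lit 0x111) (nat_lit 1) (p (nat_lit 0x109) (nat_lit 0) (p (nat_lit 0xc9) (nat_lit 1) (p (nat_lit 0x119) (nat_lit 1) (p (nat_lit 0xc1) (nat_lit 0) (p (nat_lit 0x81) (nat_lit 1) (p (nat_lit 0x41) (nat_lit 1) (p (nat_lit 0x8090887069a) (nat_lit 0) (p (nat_lit 0x7870806861a) (nat_lit 0) (p (nat_lit 0x800070786058a) (nat_lit 0) (p (nat_lit 0x787058502) (nat_lit 0) (p (nat_lit 0x586850482) (nat_lit 0) (p (nat_lit 0x160014) (nat_lit 0) (p (nat_lit 0x16000c) (nat_lit 0) (p (nat_lit 0x68612) (nat_lit 0) (p (nat_lit 0x50592) (nat_lit 0) (p (nat_lit 0x40512) (nat_lit 0) (p (nat_lit 0x50312) (nat_lit 0) (p (nat_lit 0x38292) (nat_lit 0) (p (nat_lit 0x28212) (nat_lit 0) (p (nat_lit 0x38112) (nat_lit 0) (p (nat_lit 0x20092)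 (nat_lit 0) (p (nat_lit 0x10012) (nat_lit 0) pn)))))))))))))))))))))))))) :=
  Cl.node (nat_lit 0x100004) (nat_lit 2) (by decide +kernel) (ClAll.succ (ClAll.succ ClAll.zero n213) s1241)

def n279 : Cl (O (nat_lit 1)) (R (nat_lit 14353))
    (p (nat_lit 0x444aa) (nat_lit 7) (p (nat_lit 0x81) (nat_lit 1) (p (nat_lit 0xc9) (nat_lit 1) (p (nat_lit 0x109) (nat_lit 1) (p (nat_lit 0x101) (nat_lit 0) (p (nat_lit 0x119) (nat_lit 0) (p (nat_lit 0xd1) (nat_lit 0) (p (nat_lit 0x89) (nat_lit 0) (p (nat_lit 0x41) (nat_lit 0) (p (nat_lit 0x8090887069a) (nat_lit 0) (p (nat_lit 0x7870806861a) (nat_lit 0) (p (nat_lit 0x800070786058a) (nat_lit 0) (p (nat_lit 0x787058502) (nat_lit 0) (p (nat_lit 0x586850482) (nat_lit 0) (p (nat_lit 0x160014) (nat_lit 0) (p (nat_lit 0x16000c) (nat_lit 0) (p (nat_lit 0x68612) (nat_lit 0) (p (nat_lit 0x50592) (nat_lit 0) (p (nat_lit 0x40512) (nat_lit 0) (p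 (nat_lit 0x50312) (nat_lit 0) (p (nat_lit 0x38292) (nat_lit 0) (p (nat_lit 0x28212) (nat_lit 0) (p (nat_lit 0x38112) (nat_lit 0) (p (nat_lit 0x20092) (nat_lit 0) (p (nat_lit 0x10012) (nat_lit 0) pn))))))))))))))))))))))))) :=
  Cl.node (nat_lit 0x380c2) (nat_lit 2) (by decide +kernel) (ClAll.succ (ClAll.succ ClAll.zero n214) n215)

def n280 : Cl (O (nat_lit 1)) (R (nat_lit 14353))
    (p (nat_lit 0x4c42a) (nat_lit 2) (p (nat_lit 0x111) (nat_lit 0) (p (nat_lit 0xc9) (nat_lit 0) (p (nat_lit 0x81) (nat_lit 0) (p (nat_lit 0x101) (nat_lit 1) (p (nat_lit 0x119) (nat_lit 0) (p (nat_lit 0xd1) (nat_lit 0) (p (nat_lit 0x89) (nat_lit 0) (p (nat_lit 0x41) (nat_lit 0) (p (nat_lit 0x8090887069a) (nat_lit 0) (p (nat_lit 0x7870806861a) (nat_lit 0) (p (nat_lit 0x800070786058a) (nat_lit 0) (p (nat_lit 0x787058502) (nat_lit 0) (p (nat_lit 0x586850482) (nat_lit 0) (p (nat_lit 0x160014)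 (nat_lit 0) (p (nat_lit 0x16000c) (nat_lit 0) (p (nat_lit 0x68612) (nat_lit 0) (p (nat_lit 0x50592) (nat_lit 0) (p (nat_lit 0x40512) (nat_lit 0) (p (nat_lit 0x50312) (nat_lit 0) (p (nat_lit 0x38292) (nat_lit 0) (p (nat_lit 0x28212) (nat_lit 0) (p (nat_lit 0x38112) (nat_lit 0) (p (nat_lit 0x20092) (nat_lit 0) (p (nat_lit 0x10012) (nat_lit 0) pn))))))))))))))))))))))))) :=
  Cl.node (nat_lit 0x380c2) (nat_lit 1) (by decide +kernel) (ClAll.succ ClAll.zero n216)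

def n281 : Cl (O (nat_lit 1)) (R (nat_lit 14353))
    (p (nat_lit 0x4c42a) (nat_lit 8) (p (nat_lit 0x111) (nat_lit 0) (p (nat_lit 0xc9) (nat_lit 0) (p (nat_lit 0x81) (nat_lit 0) (p (nat_lit 0x101) (nat_lit 1) (p (nat_lit 0x119) (nat_lit 0) (p (nat_lit 0xd1) (nat_lit 0) (p (nat_lit 0x89) (nat_lit 0) (p (nat_lit 0x41) (nat_lit 0) (p (nat_lit 0x8090887069a) (nat_lit 0) (p (nat_lit 0x7870806861a) (nat_lit 0) (p (nat_lit 0x800070786058a) (nat_lit 0) (p (nat_lit 0x787058502) (nat_lit 0) (p (nat_lit 0x586850482) (nat_lit 0) (p (nat_lit 0x160014) (nat_lit 0) (p (nat_lit 0x16000c) (nat_lit 0) (p (nat_lit 0x68612) (nat_lit 0) (p (nat_lit 0x50592) (nat_lit 0) (p (nat_lit 0x40512) (nat_lit 0) (p (nat_lit 0x50312) (nat_lit 0) (p (nat_lit 0x38292) (nat_lit 0) (p (nat_lit 0x28212) (nat_lit 0) (p (nat_lit 0x38112) (nat_lit 0) (p (nat_lit 0x20092) (nat_lit 0) (p (nat_lit 0x10012) (nat_lit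 0) pn))))))))))))))))))))))))) :=
  Cl.node (nat_lit 0x380c2) (nat_lit 2) (by decide +kernel) (ClAll.succ (ClAll.succ ClAll.zero s57) s58)

def n282 : Cl (O (nat_lit 1)) (R (nat_lit 14353))
    (p (nat_lit 0x444aa) (nat_lit 7) (p (nat_lit 0x111) (nat_lit 0) (p (nat_lit 0xc9) (nat_lit 1) (p (nat_lit 0x81) (nat_lit 0) (p (nat_lit 0x101) (nat_lit 1) (p (nat_lit 0x119) (nat_lit 0) (p (nat_lit 0xd1) (nat_lit 0) (p (nat_lit 0x89) (nat_lit 0) (p (nat_lit 0x41) (nat_lit 0) (p (nat_lit 0x8090887069a) (nat_lit 0) (p (nat_lit 0x7870806861a) (nat_lit 0) (p (nat_lit 0x800070786058a) (nat_lit 0) (p (nat_lit 0x787058502) (nat_lit 0) (p (nat_lit 0x586850482) (nat_lit 0) (p (nat_lit 0x160014) (nat_lit 0) (p (nat_lit 0x16000c) (nat_lit 0) (p (nat_lit 0x68612) (nat_lit 0) (p (nat_lit 0x50592) (nat_lit 0) (p (nat_lit 0x40512) (nat_lit 0) (p (nat_lit 0x50312) (nat_lit 0) (p (nat_lit 0x38292)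 (nat_lit 0) (p (nat_lit 0x28212) (nat_lit 0) (p (nat_lit 0x38112) (nat_lit 0) (p (nat_lit 0x20092) (nat_lit 0) (p (nat_lit 0x10012) (nat_lit 0) pn))))))))))))))))))))))))) :=
  Cl.node (nat_lit 0x380c2) (nat_lit 2) (by decide +kernel) (ClAll.succ (ClAll.succ ClAll.zero n217) n218)

def n283 : Cl (O (nat_lit 1)) (R (nat_lit 14353))
    (p (nat_lit 0x444aa) (nat_lit 8) (p (nat_lit 0x111) (nat_lit 0) (p (nat_lit 0xc9) (nat_lit 1) (p (nat_lit 0x81) (nat_lit 0) (p (nat_lit 0x101) (nat_lit 1) (p (nat_lit 0x119) (nat_lit 0) (p (nat_lit 0xd1) (nat_lit 0) (p (nat_lit 0x89) (nat_lit 0) (p (nat_lit 0x41) (nat_lit 0) (p (nat_lit 0x8090887069a) (nat_lit 0) (p (nat_lit 0x7870806861a) (nat_lit 0) (p (nat_lit 0x800070786058a) (nat_lit 0) (p (nat_lit 0x787058502) (nat_lit 0) (p (nat_lit 0x586850482) (nat_lit 0) (p (nat_lit 0x160014) (nat_lit 0) (p (nat_lit 0x16000c) (nat_lit 0) (p (nat_lit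 0x68612) (nat_lit 0) (p (nat_lit 0x50592) (nat_lit 0) (p (nat_lit 0x40512) (nat_lit 0) (p (nat_lit 0x50312) (nat_lit 0) (p (nat_lit 0x38292) (nat_lit 0) (p (nat_lit 0x28212) (nat_lit 0) (p (nat_lit 0x38112) (nat_lit 0) (p (nat_lit 0x20092) (nat_lit 0) (p (nat_lit 0x10012) (nat_lit 0) pn))))))))))))))))))))))))) :=
  Cl.node (nat_lit 0x380c2) (nat_lit 2) (by decide +kernel) (ClAll.succ (ClAll.succ ClAll.zero n219) s121)

def n284 : Cl (O (nat_lit 1)) (R (nat_lit 14353))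
    (p (nat_lit 0x4c42a) (nat_lit 2) (p (nat_lit 0xc9) (nat_lit 0) (p (nat_lit 0xc1) (nat_lit 0) (p (nat_lit 0x81) (nat_lit 1) (p (nat_lit 0x101) (nat_lit 1) (p (nat_lit 0x119) (nat_lit 0) (p (nat_lit 0xd1) (nat_lit 0) (p (nat_lit 0x89) (nat_lit 0) (p (nat_lit 0x41) (nat_lit 0) (p (nat_lit 0x8090887069a) (nat_lit 0) (p (nat_lit 0x7870806861a) (nat_lit 0) (p (nat_lit 0x800070786058a) (nat_lit 0) (p (nat_lit 0x787058502) (nat_lit 0) (p (nat_lit 0x586850482) (nat_lit 0) (p (nat_lit 0x160014) (nat_lit 0) (p (nat_lit 0x16000c) (nat_lit 0) (p (nat_lit 0x68612) (nat_lit 0) (p (nat_lit 0x50592) (nat_lit 0) (p (nat_lit 0x40512) (nat_lit 0) (p (nat_lit 0x50312) (nat_lit 0) (p (nat_lit 0x38292) (nat_lit 0) (p (nat_lit 0x28212) (nat_lit 0) (p (nat_lit 0x38112) (nat_lit 0) (p (nat_lit 0x20092) (nat_lit 0) (p (nat_lit 0x10012) (nat_lit 0) pn))))))))))))))))))))))))) :=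
  Cl.node (nat_lit 0x380c2) (nat_lit 1) (by decide +kernel) (ClAll.succ ClAll.zero n220)

def n285 : Cl (O (nat_lit 1)) (R (nat_lit 14353))
    (p (nat_lit 0x4c42a) (nat_lit 5) (p (nat_lit 0xc9) (nat_lit 0) (p (nat_lit 0xc1) (nat_lit 0) (p (nat_lit 0x81) (nat_lit 1) (p (nat_lit 0x101) (nat_lit 1) (p (nat_lit 0x119) (nat_lit 0) (p (nat_lit 0xd1) (nat_lit 0) (p (nat_lit 0x89) (nat_lit 0) (p (nat_lit 0x41) (nat_lit 0) (p (nat_lit 0x8090887069a) (nat_lit 0) (p (nat_lit 0x7870806861a) (nat_lit 0) (p (nat_lit 0x800070786058a) (nat_lit 0) (p (nat_lit 0x787058502) (nat_lit 0) (p (nat_lit 0x586850482) (nat_lit 0) (p (nat_lit 0x160014) (nat_lit 0) (p (nat_lit 0x16000c) (nat_lit 0) (p (nat_lit 0x68612) (nat_lit 0) (p (nat_lit 0x50592) (nat_lit 0) (p (nat_lit 0x40512) (nat_lit 0) (p (nat_lit 0x50312) (nat_lit 0) (p (nat_lit 0x38292) (nat_lit 0) (p (nat_lit 0x28212) (nat_lit 0) (p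 (nat_lit 0x38112) (nat_lit 0) (p (nat_lit 0x20092) (nat_lit 0) (p (nat_lit 0x10012) (nat_lit 0) pn))))))))))))))))))))))))) :=
  Cl.node (nat_lit 0x380c2) (nat_lit 2) (by decide +kernel) (ClAll.succ (ClAll.succ ClAll.zero s148) s149)

def n286 : Cl (O (nat_lit 1)) (R (nat_lit 14353))
    (p (nat_lit 0x4c42a) (nat_lit 8) (p (nat_lit 0xc9) (nat_lit 0) (p (nat_lit 0xc1) (nat_lit 0) (p (nat_lit 0x81) (nat_lit 1) (p (nat_lit 0x101) (nat_lit 1) (p (nat_lit 0x119) (nat_lit 0) (p (nat_lit 0xd1) (nat_lit 0) (p (nat_lit 0x89) (nat_lit 0) (p (nat_lit 0x41) (nat_lit 0) (p (nat_lit 0x8090887069a) (nat_lit 0) (p (nat_lit 0x7870806861a) (nat_lit 0) (p (nat_lit 0x800070786058a) (nat_lit 0) (p (nat_lit 0x787058502) (nat_lit 0) (p (nat_lit 0x586850482) (nat_lit 0) (p (nat_lit 0x160014) (nat_lit 0) (p (nat_lit 0x16000c) (nat_lit 0) (p (nat_lit 0x68612) (nat_lit 0) (p (nat_lit 0x50592)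 (nat_lit 0) (p (nat_lit 0x40512) (nat_lit 0) (p (nat_lit 0x50312) (nat_lit 0) (p (nat_lit 0x38292) (nat_lit 0) (p (nat_lit 0x28212) (nat_lit 0) (p (nat_lit 0x38112) (nat_lit 0) (p (nat_lit 0x20092) (nat_lit 0) (p (nat_lit 0x10012) (nat_lit 0) pn))))))))))))))))))))))))) :=
  Cl.node (nat_lit 0x380c2) (nat_lit 2) (by decide +kernel) (ClAll.succ (ClAll.succ ClAll.zero n221) s160)

def n287 : Cl (O (nat_lit 1)) (R (nat_lit 14353))
    (p (nat_lit 0x444aa) (nat_lit 7) (p (nat_lit 0xc9) (nat_lit 1) (p (nat_lit 0xc1) (nat_lit 0) (p (nat_lit 0x81) (nat_lit 1) (p (nat_lit 0x101) (nat_lit 1) (p (nat_lit 0x119) (nat_lit 0) (p (nat_lit 0xd1) (nat_lit 0) (p (nat_lit 0x89) (nat_lit 0) (p (nat_lit 0x41) (nat_lit 0) (p (nat_lit 0x8090887069a) (nat_lit 0) (p (nat_lit 0x7870806861a) (nat_lit 0) (p (nat_lit 0x800070786058a) (nat_lit 0) (p (nat_lit 0x787058502) (nat_lit 0) (p (nat_lit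 0x586850482) (nat_lit 0) (p (nat_lit 0x160014) (nat_lit 0) (p (nat_lit 0x16000c) (nat_lit 0) (p (nat_lit 0x68612) (nat_lit 0) (p (nat_lit 0x50592) (nat_lit 0) (p (nat_lit 0x40512) (nat_lit 0) (p (nat_lit 0x50312) (nat_lit 0) (p (nat_lit 0x38292) (nat_lit 0) (p (nat_lit 0x28212) (nat_lit 0) (p (nat_lit 0x38112) (nat_lit 0) (p (nat_lit 0x20092) (nat_lit 0) (p (nat_lit 0x10012) (nat_lit 0) pn))))))))))))))))))))))))) :=
  Cl.node (nat_lit 0x380c2) (nat_lit 2) (by decide +kernel) (ClAll.succ (ClAll.succ ClAll.zero s171) n222)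

def n288 : Cl (O (nat_lit 1)) (R (nat_lit 14353))
    (p (nat_lit 0x380c2) (nat_lit 0) (p (nat_lit 0x3cc2a) (nat_lit 10) (p (nat_lit 0x109) (nat_lit 1) (p (nat_lit 0xc9) (nat_lit 1) (p (nat_lit 0xc1) (nat_lit 0) (p (nat_lit 0x119) (nat_lit 1) (p (nat_lit 0xd1) (nat_lit 0) (p (nat_lit 0x89) (nat_lit 0) (p (nat_lit 0x41) (nat_lit 0) (p (nat_lit 0x8090887069a) (nat_lit 0) (p (nat_lit 0x7870806861a) (nat_lit 0) (p (nat_lit 0x800070786058a) (nat_lit 0) (p (nat_lit 0x787058502) (nat_lit 0) (p (nat_lit 0x586850482) (nat_lit 0) (p (nat_lit 0x160014) (nat_lit 0) (p (nat_lit 0x16000c) (nat_lit 0) (p (nat_lit 0x68612) (nat_lit 0) (p (nat_lit 0x50592) (nat_lit 0) (p (nat_lit 0x40512) (nat_lit 0) (p (nat_lit 0x50312) (nat_lit 0) (p (nat_lit 0x38292) (nat_lit 0) (p (nat_lit 0x28212) (nat_lit 0) (p (nat_lit 0x38112) (nat_lit 0) (p (nat_lit 0x20092) (nat_lit 0) (p (nat_lit 0x10012)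 (nat_lit 0) pn))))))))))))))))))))))))) :=
  Cl.node (nat_lit 0x200004) (nat_lit 2) (by decide +kernel) (ClAll.succ (ClAll.succ ClAll.zero n223) s195)

def n289 : Cl (O (nat_lit 1)) (R (nat_lit 14353))
    (p (nat_lit 0x380c2) (nat_lit 1) (p (nat_lit 0x3cc2a) (nat_lit 10) (p (nat_lit 0x109) (nat_lit 1) (p (nat_lit 0xc9) (nat_lit 1) (p (nat_lit 0xc1) (nat_lit 0) (p (nat_lit 0x119) (nat_lit 1) (p (nat_lit 0xd1) (nat_lit 0) (p (nat_lit 0x89) (nat_lit 0) (p (nat_lit 0x41) (nat_lit 0) (p (nat_lit 0x8090887069a) (nat_lit 0) (p (nat_lit 0x7870806861a) (nat_lit 0) (p (nat_lit 0x800070786058a) (nat_lit 0) (p (nat_lit 0x787058502) (nat_lit 0) (p (nat_lit 0x586850482) (nat_lit 0) (p (nat_lit 0x160014) (nat_lit 0) (p (nat_lit 0x16000c) (nat_lit 0) (p (nat_lit 0x68612) (nat_lit 0) (p (nat_lit 0x50592) (nat_lit 0) (p (nat_lit 0x40512) (nat_lit 0) (p (nat_lit 0x50312) (nat_lit 0) (p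 (nat_lit 0x38292) (nat_lit 0) (p (nat_lit 0x28212) (nat_lit 0) (p (nat_lit 0x38112) (nat_lit 0) (p (nat_lit 0x20092) (nat_lit 0) (p (nat_lit 0x10012) (nat_lit 0) pn))))))))))))))))))))))))) :=
  Cl.node (nat_lit 0x41) (nat_lit 2) (by decide +kernel) (ClAll.succ (ClAll.succ ClAll.zero s196) s197)

def n290 : Cl (O (nat_lit 1)) (R (nat_lit 14353))
    (p (nat_lit 0x380c2) (nat_lit 0) (p (nat_lit 0x3cc2a) (nat_lit 11) (p (nat_lit 0x109) (nat_lit 1) (p (nat_lit 0xc9) (nat_lit 1) (p (nat_lit 0xc1) (nat_lit 0) (p (nat_lit 0x119) (nat_lit 1) (p (nat_lit 0xd1) (nat_lit 0) (p (nat_lit 0x89) (nat_lit 0) (p (nat_lit 0x41) (nat_lit 0) (p (nat_lit 0x8090887069a) (nat_lit 0) (p (nat_lit 0x7870806861a) (nat_lit 0) (p (nat_lit 0x800070786058a) (nat_lit 0) (p (nat_lit 0x787058502) (nat_lit 0) (p (nat_lit 0x586850482) (nat_lit 0) (p (nat_lit 0x160014) (nat_lit 0) (p (nat_lit 0x16000c)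 (nat_lit 0) (p (nat_lit 0x68612) (nat_lit 0) (p (nat_lit 0x50592) (nat_lit 0) (p (nat_lit 0x40512) (nat_lit 0) (p (nat_lit 0x50312) (nat_lit 0) (p (nat_lit 0x38292) (nat_lit 0) (p (nat_lit 0x28212) (nat_lit 0) (p (nat_lit 0x38112) (nat_lit 0) (p (nat_lit 0x20092) (nat_lit 0) (p (nat_lit 0x10012) (nat_lit 0) pn))))))))))))))))))))))))) :=
  Cl.node (nat_lit 0x81) (nat_lit 2) (by decide +kernel) (ClAll.succ (ClAll.succ ClAll.zero s198) n224)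

def n291 : Cl (O (nat_lit 1)) (R (nat_lit 14353))
    (p (nat_lit 0x380c2) (nat_lit 1) (p (nat_lit 0x3cc2a) (nat_lit 10) (p (nat_lit 0x109) (nat_lit 1) (p (nat_lit 0x81) (nat_lit 0) (p (nat_lit 0xc1) (nat_lit 1) (p (nat_lit 0x119) (nat_lit 1) (p (nat_lit 0xd1) (nat_lit 0) (p (nat_lit 0x89) (nat_lit 0) (p (nat_lit 0x41) (nat_lit 0) (p (nat_lit 0x8090887069a) (nat_lit 0) (p (nat_lit 0x7870806861a) (nat_lit 0) (p (nat_lit 0x800070786058a) (nat_lit 0) (p (nat_lit 0x787058502) (nat_lit 0) (p (nat_lit 0x586850482) (nat_lit 0) (p (nat_lit 0x160014) (nat_lit 0) (p (nat_lit 0x16000c) (nat_lit 0) (p (nat_lit 0x68612) (nat_lit 0) (p (nat_lit 0x50592) (nat_lit 0) (p (nat_lit 0x40512) (nat_lit 0) (p (nat_lit 0x50312) (nat_lit 0) (p (nat_lit 0x38292) (nat_lit 0) (p (nat_lit 0x28212) (nat_lit 0) (p (nat_lit 0x38112) (nat_lit 0) (p (nat_lit 0x20092) (nat_lit 0) (p (nat_lit 0x10012)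 (nat_lit 0) pn))))))))))))))))))))))))) :=
  Cl.node (nat_lit 0xc9) (nat_lit 2) (by decide +kernel) (ClAll.succ (ClAll.succ ClAll.zero n225) s237)

def n292 : Cl (O (nat_lit 1)) (R (nat_lit 14353))
    (p (nat_lit 0x380c2) (nat_lit 0) (p (nat_lit 0x3cc2a) (nat_lit 11) (p (nat_lit 0x109) (nat_lit 1) (p (nat_lit 0x81) (nat_lit 0) (p (nat_lit 0xc1) (nat_lit 1) (p (nat_lit 0x119) (nat_lit 1) (p (nat_lit 0xd1) (nat_lit 0) (p (nat_lit 0x89) (nat_lit 0) (p (nat_lit 0x41) (nat_lit 0) (p (nat_lit 0x8090887069a) (nat_lit 0) (p (nat_lit 0x7870806861a) (nat_lit 0) (p (nat_lit 0x800070786058a) (nat_lit 0) (p (nat_lit 0x787058502) (nat_lit 0) (p (nat_lit 0x586850482) (nat_lit 0) (p (nat_lit 0x160014) (nat_lit 0) (p (nat_lit 0x16000c) (nat_lit 0) (p (nat_lit 0x68612) (nat_lit 0) (p (nat_lit 0x50592) (nat_lit 0) (p (nat_lit 0x40512) (nat_lit 0) (p (nat_lit 0x50312) (nat_lit 0) (p (nat_lit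 0x38292) (nat_lit 0) (p (nat_lit 0x28212) (nat_lit 0) (p (nat_lit 0x38112) (nat_lit 0) (p (nat_lit 0x20092) (nat_lit 0) (p (nat_lit 0x10012) (nat_lit 0) pn))))))))))))))))))))))))) :=
  Cl.node (nat_lit 0xd1) (nat_lit 2) (by decide +kernel) (ClAll.succ (ClAll.succ ClAll.zero n226) n227)

def n293 : Cl (O (nat_lit 1)) (R (nat_lit 14353))
    (p (nat_lit 0x44c2a) (nat_lit 0) (p (nat_lit 0x109) (nat_lit 0) (p (nat_lit 0x101) (nat_lit 0) (p (nat_lit 0x81) (nat_lit 1) (p (nat_lit 0xc1) (nat_lit 1) (p (nat_lit 0x119) (nat_lit 1) (p (nat_lit 0xd1) (nat_lit 0) (p (nat_lit 0x89) (nat_lit 0) (p (nat_lit 0x41) (nat_lit 0) (p (nat_lit 0x8090887069a) (nat_lit 0) (p (nat_lit 0x7870806861a) (nat_lit 0) (p (nat_lit 0x800070786058a) (nat_lit 0) (p (nat_lit 0x787058502) (nat_lit 0) (p (nat_lit 0x586850482) (nat_lit 0) (p (nat_lit 0x160014) (nat_lit 0) (p (nat_lit 0x16000c) (nat_lit 0)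 (p (nat_lit 0x68612) (nat_lit 0) (p (nat_lit 0x50592) (nat_lit 0) (p (nat_lit 0x40512) (nat_lit 0) (p (nat_lit 0x50312) (nat_lit 0) (p (nat_lit 0x38292) (nat_lit 0) (p (nat_lit 0x28212) (nat_lit 0) (p (nat_lit 0x38112) (nat_lit 0) (p (nat_lit 0x20092) (nat_lit 0) (p (nat_lit 0x10012) (nat_lit 0) pn))))))))))))))))))))))))) :=
  Cl.node (nat_lit 0x380c2) (nat_lit 2) (by decide +kernel) (ClAll.succ (ClAll.succ ClAll.zero n228) n229)

def n294 : Cl (O (nat_lit 1)) (R (nat_lit 14353))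
    (p (nat_lit 0x44c2a) (nat_lit 1) (p (nat_lit 0x109) (nat_lit 0) (p (nat_lit 0x101) (nat_lit 0) (p (nat_lit 0x81) (nat_lit 1) (p (nat_lit 0xc1) (nat_lit 1) (p (nat_lit 0x119) (nat_lit 1) (p (nat_lit 0xd1) (nat_lit 0) (p (nat_lit 0x89) (nat_lit 0) (p (nat_lit 0x41) (nat_lit 0) (p (nat_lit 0x8090887069a) (nat_lit 0) (p (nat_lit 0x7870806861a) (nat_lit 0) (p (nat_lit 0x800070786058a) (nat_lit 0) (p (nat_lit 0x787058502) (nat_lit 0) (p (nat_lit 0x586850482) (nat_lit 0) (p (nat_lit 0x160014) (nat_lit 0) (p (nat_lit 0x16000c) (nat_lit 0) (p (nat_lit 0x68612) (nat_lit 0) (p (nat_lit 0x50592) (nat_lit 0) (p (nat_lit 0x40512) (nat_lit 0) (p (nat_lit 0x50312) (nat_lit 0) (p (nat_lit 0x38292) (nat_lit 0) (p (nat_lit 0x28212) (nat_lit 0) (p (nat_lit 0x38112) (nat_lit 0) (p (nat_lit 0x20092) (nat_lit 0) (p (nat_lit 0x10012) (nat_lit 0) pn))))))))))))))))))))))))) :=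
  Cl.node (nat_lit 0x380c2) (nat_lit 1) (by decide +kernel) (ClAll.succ ClAll.zero n230)

def n295 : Cl (O (nat_lit 1)) (R (nat_lit 14353))
    (p (nat_lit 0x444aa) (nat_lit 7) (p (nat_lit 0x109) (nat_lit 1) (p (nat_lit 0x101) (nat_lit 0) (p (nat_lit 0x81) (nat_lit 1) (p (nat_lit 0xc1) (nat_lit 1) (p (nat_lit 0x119) (nat_lit 1) (p (nat_lit 0xd1) (nat_lit 0) (p (nat_lit 0x89) (nat_lit 0) (p (nat_lit 0x41) (nat_lit 0) (p (nat_lit 0x8090887069a) (nat_lit 0) (p (nat_lit 0x7870806861a) (nat_lit 0) (p (nat_lit 0x800070786058a) (nat_lit 0) (p (nat_lit 0x787058502) (nat_lit 0) (p (nat_lit 0x586850482) (nat_lit 0) (p (nat_lit 0x160014) (nat_lit 0) (p (nat_lit 0x16000c) (nat_lit 0) (p (nat_lit 0x68612) (nat_lit 0) (p (nat_lit 0x50592) (nat_lit 0) (p (nat_lit 0x40512) (nat_lit 0) (p (nat_lit 0x50312) (nat_lit 0) (p (nat_lit 0x38292) (nat_lit 0) (p (nat_lit 0x28212) (nat_lit 0)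 (p (nat_lit 0x38112) (nat_lit 0) (p (nat_lit 0x20092) (nat_lit 0) (p (nat_lit 0x10012) (nat_lit 0) pn))))))))))))))))))))))))) :=
  Cl.node (nat_lit 0x380c2) (nat_lit 2) (by decide +kernel) (ClAll.succ (ClAll.succ ClAll.zero s283) n231)

def n296 : Cl (O (nat_lit 1)) (R (nat_lit 14353))
    (p (nat_lit 0x444aa) (nat_lit 8) (p (nat_lit 0x109) (nat_lit 1) (p (nat_lit 0x101) (nat_lit 0) (p (nat_lit 0x81) (nat_lit 1) (p (nat_lit 0xc1) (nat_lit 1) (p (nat_lit 0x119) (nat_lit 1) (p (nat_lit 0xd1) (nat_lit 0) (p (nat_lit 0x89) (nat_lit 0) (p (nat_lit 0x41) (nat_lit 0) (p (nat_lit 0x8090887069a) (nat_lit 0) (p (nat_lit 0x7870806861a) (nat_lit 0) (p (nat_lit 0x800070786058a) (nat_lit 0) (p (nat_lit 0x787058502) (nat_lit 0) (p (nat_lit 0x586850482) (nat_lit 0) (p (nat_lit 0x160014) (nat_lit 0) (p (nat_lit 0x16000c) (nat_lit 0) (p (nat_lit 0x68612) (nat_lit 0) (p (nat_lit 0x50592)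 (nat_lit 0) (p (nat_lit 0x40512) (nat_lit 0) (p (nat_lit 0x50312) (nat_lit 0) (p (nat_lit 0x38292) (nat_lit 0) (p (nat_lit 0x28212) (nat_lit 0) (p (nat_lit 0x38112) (nat_lit 0) (p (nat_lit 0x20092) (nat_lit 0) (p (nat_lit 0x10012) (nat_lit 0) pn))))))))))))))))))))))))) :=
  Cl.node (nat_lit 0x380c2) (nat_lit 2) (by decide +kernel) (ClAll.succ (ClAll.succ ClAll.zero n232) s302)

def n297 : Cl (O (nat_lit 1)) (R (nat_lit 14353))
    (p (nat_lit 0x41) (nat_lit 0) (p (nat_lit 0x200004) (nat_lit 0) (p (nat_lit 0xc1) (nat_lit 1) (p (nat_lit 0x109) (nat_lit 1) (p (nat_lit 0x101) (nat_lit 0) (p (nat_lit 0x111) (nat_lit 0) (p (nat_lit 0xd1) (nat_lit 1) (p (nat_lit 0x89) (nat_lit 0) (p (nat_lit 0x41) (nat_lit 0) (p (nat_lit 0x8090887069a) (nat_lit 0) (p (nat_lit 0x7870806861a) (nat_lit 0) (p (nat_lit 0x800070786058a) (nat_lit 0) (p (nat_lit 0x787058502) (nat_lit 0) (p (nat_lit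 0x586850482) (nat_lit 0) (p (nat_lit 0x160014) (nat_lit 0) (p (nat_lit 0x16000c) (nat_lit 0) (p (nat_lit 0x68612) (nat_lit 0) (p (nat_lit 0x50592) (nat_lit 0) (p (nat_lit 0x40512) (nat_lit 0) (p (nat_lit 0x50312) (nat_lit 0) (p (nat_lit 0x38292) (nat_lit 0) (p (nat_lit 0x28212) (nat_lit 0) (p (nat_lit 0x38112) (nat_lit 0) (p (nat_lit 0x20092) (nat_lit 0) (p (nat_lit 0x10012) (nat_lit 0) pn))))))))))))))))))))))))) :=
  Cl.node (nat_lit 0x3cc2a) (nat_lit 12) (by decide +kernel) (ClAll.succ (ClAll.succ (ClAll.succ (ClAll.succ (ClAll.succ (ClAll.succ (ClAll.succ (ClAll.succ (ClAll.succ (ClAll.succ (ClAll.succ (ClAll.succ ClAll.zero s321) s322) s323) s324) s325) s326) s327) s328) s329) s330) s331) s332)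

def n298 : Cl (O (nat_lit 1)) (R (nat_lit 14353))
    (p (nat_lit 0x109) (nat_lit 0) (p (nat_lit 0x200004) (nat_lit 0) (p (nat_lit 0x119) (nat_lit 0) (p (nat_lit 0x81) (nat_lit 0) (p (nat_lit 0x101) (nat_lit 1) (p (nat_lit 0x111) (nat_lit 0) (p (nat_lit 0xd1) (nat_lit 1) (p (nat_lit 0x89) (nat_lit 0) (p (nat_lit 0x41) (nat_lit 0) (p (nat_lit 0x8090887069a) (nat_lit 0) (p (nat_lit 0x7870806861a) (nat_lit 0) (p (nat_lit 0x800070786058a) (nat_lit 0) (p (nat_lit 0x787058502) (nat_lit 0) (p (nat_lit 0x586850482) (nat_lit 0) (p (nat_lit 0x160014) (nat_lit 0) (p (nat_lit 0x16000c) (nat_lit 0) (p (nat_lit 0x68612) (nat_lit 0) (p (nat_lit 0x50592) (nat_lit 0) (p (nat_lit 0x40512) (nat_lit 0) (p (nat_lit 0x50312) (nat_lit 0) (p (nat_lit 0x38292) (nat_lit 0) (p (nat_lit 0x28212) (nat_lit 0) (p (nat_lit 0x38112) (nat_lit 0) (p (nat_lit 0x20092) (nat_lit 0) (p (nat_lit 0x10012)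 (nat_lit 0) pn))))))))))))))))))))))))) :=
  Cl.node (nat_lit 0x4c42a) (nat_lit 12) (by decide +kernel) (ClAll.succ (ClAll.succ (ClAll.succ (ClAll.succ (ClAll.succ (ClAll.succ (ClAll.succ (ClAll.succ (ClAll.succ (ClAll.succ (ClAll.succ (ClAll.succ ClAll.zero s335) s336) n233) s342) s343) s344) s345) s346) s347) s348) s349) s350)

def n299 : Cl (O (nat_lit 1)) (R (nat_lit 14353))
    (p (nat_lit 0x109) (nat_lit 1) (p (nat_lit 0x200004) (nat_lit 0) (p (nat_lit 0x119) (nat_lit 0) (p (nat_lit 0x81) (nat_lit 0) (p (nat_lit 0x101) (nat_lit 1) (p (nat_lit 0x111) (nat_lit 0) (p (nat_lit 0xd1) (nat_lit 1) (p (nat_lit 0x89) (nat_lit 0) (p (nat_lit 0x41) (nat_lit 0) (p (nat_lit 0x8090887069a) (nat_lit 0) (p (nat_lit 0x7870806861a) (nat_lit 0) (p (nat_lit 0x800070786058a) (nat_lit 0) (p (nat_lit 0x787058502) (nat_lit 0) (p (nat_lit 0x586850482) (nat_lit 0) (p (nat_lit 0x160014)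 (nat_lit 0) (p (nat_lit 0x16000c) (nat_lit 0) (p (nat_lit 0x68612) (nat_lit 0) (p (nat_lit 0x50592) (nat_lit 0) (p (nat_lit 0x40512) (nat_lit 0) (p (nat_lit 0x50312) (nat_lit 0) (p (nat_lit 0x38292) (nat_lit 0) (p (nat_lit 0x28212) (nat_lit 0) (p (nat_lit 0x38112) (nat_lit 0) (p (nat_lit 0x20092) (nat_lit 0) (p (nat_lit 0x10012) (nat_lit 0) pn))))))))))))))))))))))))) :=
  Cl.node (nat_lit 0x3cc2a) (nat_lit 12) (by decide +kernel) (ClAll.succ (ClAll.succ (ClAll.succ (ClAll.succ (ClAll.succ (ClAll.succ (ClAll.succ (ClAll.succ (ClAll.succ (ClAll.succ (ClAll.succ (ClAll.succ ClAll.zero s351) s352) s353) s354) s355) s356) s357) s358) s359) s360) s361) s362)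

def n300 : Cl (O (nat_lit 1)) (R (nat_lit 14353))
    (p (nat_lit 0x444aa) (nat_lit 7) (p (nat_lit 0x119) (nat_lit 0) (p (nat_lit 0xc1) (nat_lit 0) (p (nat_lit 0x81) (nat_lit 1) (p (nat_lit 0x101) (nat_lit 1) (p (nat_lit 0x111) (nat_lit 0) (p (nat_lit 0xd1) (nat_lit 1) (p (nat_lit 0x89) (nat_lit 0) (p (nat_lit 0x41) (nat_lit 0) (p (nat_lit 0x8090887069a) (nat_lit 0) (p (nat_lit 0x7870806861a) (nat_lit 0) (p (nat_lit 0x800070786058a) (nat_lit 0) (p (nat_lit 0x787058502) (nat_lit 0) (p (nat_lit 0x586850482) (nat_lit 0) (p (nat_lit 0x160014) (nat_lit 0) (p (nat_lit 0x16000c) (nat_lit 0) (p (nat_lit 0x68612) (nat_lit 0) (p (nat_lit 0x50592) (nat_lit 0) (p (nat_lit 0x40512) (nat_lit 0) (p (nat_lit 0x50312) (nat_lit 0) (p (nat_lit 0x38292) (nat_lit 0) (p (nat_lit 0x28212) (nat_lit 0) (p (nat_lit 0x38112) (nat_lit 0) (p (nat_lit 0x20092) (nat_lit 0) (p (nat_lit 0x10012) (nat_lit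 0) pn))))))))))))))))))))))))) :=
  Cl.node (nat_lit 0x380c2) (nat_lit 2) (by decide +kernel) (ClAll.succ (ClAll.succ ClAll.zero s372) n234)

def n301 : Cl (O (nat_lit 1)) (R (nat_lit 14353))
    (p (nat_lit 0x444aa) (nat_lit 8) (p (nat_lit 0x119) (nat_lit 0) (p (nat_lit 0xc1) (nat_lit 0) (p (nat_lit 0x81) (nat_lit 1) (p (nat_lit 0x101) (nat_lit 1) (p (nat_lit 0x111) (nat_lit 0) (p (nat_lit 0xd1) (nat_lit 1) (p (nat_lit 0x89) (nat_lit 0) (p (nat_lit 0x41) (nat_lit 0) (p (nat_lit 0x8090887069a) (nat_lit 0) (p (nat_lit 0x7870806861a) (nat_lit 0) (p (nat_lit 0x800070786058a) (nat_lit 0) (p (nat_lit 0x787058502) (nat_lit 0) (p (nat_lit 0x586850482) (nat_lit 0) (p (nat_lit 0x160014) (nat_lit 0) (p (nat_lit 0x16000c) (nat_lit 0) (p (nat_lit 0x68612) (nat_lit 0) (p (nat_lit 0x50592) (nat_lit 0) (p (nat_lit 0x40512) (nat_lit 0) (p (nat_lit 0x50312) (nat_lit 0) (p (nat_lit 0x38292)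 (nat_lit 0) (p (nat_lit 0x28212) (nat_lit 0) (p (nat_lit 0x38112) (nat_lit 0) (p (nat_lit 0x20092) (nat_lit 0) (p (nat_lit 0x10012) (nat_lit 0) pn))))))))))))))))))))))))) :=
  Cl.node (nat_lit 0x380c2) (nat_lit 2) (by decide +kernel) (ClAll.succ (ClAll.succ ClAll.zero s377) s378)

def n302 : Cl (O (nat_lit 1)) (R (nat_lit 14353))
    (p (nat_lit 0x444aa) (nat_lit 7) (p (nat_lit 0xd1) (nat_lit 1) (p (nat_lit 0x111) (nat_lit 1) (p (nat_lit 0x109) (nat_lit 0) (p (nat_lit 0x101) (nat_lit 0) (p (nat_lit 0x119) (nat_lit 0) (p (nat_lit 0xc9) (nat_lit 0) (p (nat_lit 0x89) (nat_lit 1) (p (nat_lit 0x41) (nat_lit 0) (p (nat_lit 0x8090887069a) (nat_lit 0) (p (nat_lit 0x7870806861a) (nat_lit 0) (p (nat_lit 0x800070786058a) (nat_lit 0) (p (nat_lit 0x787058502) (nat_lit 0) (p (nat_lit 0x586850482) (nat_lit 0) (p (nat_lit 0x160014) (nat_lit 0) (p (nat_lit 0x16000c) (nat_lit 0) (p (nat_lit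 0x68612) (nat_lit 0) (p (nat_lit 0x50592) (nat_lit 0) (p (nat_lit 0x40512) (nat_lit 0) (p (nat_lit 0x50312) (nat_lit 0) (p (nat_lit 0x38292) (nat_lit 0) (p (nat_lit 0x28212) (nat_lit 0) (p (nat_lit 0x38112) (nat_lit 0) (p (nat_lit 0x20092) (nat_lit 0) (p (nat_lit 0x10012) (nat_lit 0) pn))))))))))))))))))))))))) :=
  Cl.node (nat_lit 0x380c2) (nat_lit 2) (by decide +kernel) (ClAll.succ (ClAll.succ ClAll.zero n235) n236)

def n303 : Cl (O (nat_lit 1)) (R (nat_lit 14353))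
    (p (nat_lit 0x41) (nat_lit 0) (p (nat_lit 0x200004) (nat_lit 0) (p (nat_lit 0xd1) (nat_lit 0) (p (nat_lit 0x109) (nat_lit 1) (p (nat_lit 0x101) (nat_lit 0) (p (nat_lit 0x119) (nat_lit 0) (p (nat_lit 0xc9) (nat_lit 0) (p (nat_lit 0x89) (nat_lit 1) (p (nat_lit 0x41) (nat_lit 0) (p (nat_lit 0x8090887069a) (nat_lit 0) (p (nat_lit 0x7870806861a) (nat_lit 0) (p (nat_lit 0x800070786058a) (nat_lit 0) (p (nat_lit 0x787058502) (nat_lit 0) (p (nat_lit 0x586850482) (nat_lit 0) (p (nat_lit 0x160014) (nat_lit 0) (p (nat_lit 0x16000c) (nat_lit 0) (p (nat_lit 0x68612) (nat_lit 0) (p (nat_lit 0x50592) (nat_lit 0) (p (nat_lit 0x40512) (nat_lit 0) (p (nat_lit 0x50312) (nat_lit 0) (p (nat_lit 0x38292) (nat_lit 0) (p (nat_lit 0x28212) (nat_lit 0) (p (nat_lit 0x38112) (nat_lit 0) (p (nat_lit 0x20092) (nat_lit 0) (p (nat_lit 0x10012) (nat_lit 0) pn))))))))))))))))))))))))) :=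
  Cl.node (nat_lit 0x44c2a) (nat_lit 12) (by decide +kernel) (ClAll.succ (ClAll.succ (ClAll.succ (ClAll.succ (ClAll.succ (ClAll.succ (ClAll.succ (ClAll.succ (ClAll.succ (ClAll.succ (ClAll.succ (ClAll.succ ClAll.zero n237) n238) s450) s451) s452) s453) s454) s455) s456) s457) s458) s459)

def n304 : Cl (O (nat_lit 1)) (R (nat_lit 14353))
    (p (nat_lit 0x380c2) (nat_lit 0) (p (nat_lit 0x444aa) (nat_lit 7) (p (nat_lit 0xd1) (nat_lit 1) (p (nat_lit 0x109) (nat_lit 1) (p (nat_lit 0x101) (nat_lit 0) (p (nat_lit 0x119) (nat_lit 0) (p (nat_lit 0xc9) (nat_lit 0) (p (nat_lit 0x89) (nat_lit 1) (p (nat_lit 0x41) (nat_lit 0) (p (nat_lit 0x8090887069a) (nat_lit 0) (p (nat_lit 0x7870806861a) (nat_lit 0) (p (nat_lit 0x800070786058a) (nat_lit 0) (p (nat_lit 0x787058502) (nat_lit 0) (p (nat_lit 0x586850482) (nat_lit 0) (p (nat_lit 0x160014) (nat_lit 0) (p (nat_lit 0x16000c) (nat_lit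 0) (p (nat_lit 0x68612) (nat_lit 0) (p (nat_lit 0x50592) (nat_lit 0) (p (nat_lit 0x40512) (nat_lit 0) (p (nat_lit 0x50312) (nat_lit 0) (p (nat_lit 0x38292) (nat_lit 0) (p (nat_lit 0x28212) (nat_lit 0) (p (nat_lit 0x38112) (nat_lit 0) (p (nat_lit 0x20092) (nat_lit 0) (p (nat_lit 0x10012) (nat_lit 0) pn))))))))))))))))))))))))) :=
  Cl.node (nat_lit 0x200004) (nat_lit 2) (by decide +kernel) (ClAll.succ (ClAll.succ ClAll.zero n239) s485)

def n305 : Cl (O (nat_lit 1)) (R (nat_lit 14353))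
    (p (nat_lit 0x380c2) (nat_lit 1) (p (nat_lit 0x444aa) (nat_lit 7) (p (nat_lit 0xd1) (nat_lit 1) (p (nat_lit 0x109) (nat_lit 1) (p (nat_lit 0x101) (nat_lit 0) (p (nat_lit 0x119) (nat_lit 0) (p (nat_lit 0xc9) (nat_lit 0) (p (nat_lit 0x89) (nat_lit 1) (p (nat_lit 0x41) (nat_lit 0) (p (nat_lit 0x8090887069a) (nat_lit 0) (p (nat_lit 0x7870806861a) (nat_lit 0) (p (nat_lit 0x800070786058a) (nat_lit 0) (p (nat_lit 0x787058502) (nat_lit 0) (p (nat_lit 0x586850482) (nat_lit 0) (p (nat_lit 0x160014) (nat_lit 0) (p (nat_lit 0x16000c) (nat_lit 0) (p (nat_lit 0x68612) (nat_lit 0) (p (nat_lit 0x50592) (nat_lit 0) (p (nat_lit 0x40512) (nat_lit 0) (p (nat_lit 0x50312) (nat_lit 0) (p (nat_lit 0x38292) (nat_lit 0) (p (nat_lit 0x28212) (nat_lit 0) (p (nat_lit 0x38112) (nat_lit 0) (p (nat_lit 0x20092) (nat_lit 0) (p (nat_lit 0x10012) (nat_lit 0) pn))))))))))))))))))))))))) :=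
  Cl.node (nat_lit 0x200004) (nat_lit 2) (by decide +kernel) (ClAll.succ (ClAll.succ ClAll.zero n240) s533)

def n306 : Cl (O (nat_lit 1)) (R (nat_lit 14353))
    (p (nat_lit 0x109) (nat_lit 1) (p (nat_lit 0x200004) (nat_lit 0) (p (nat_lit 0xd1) (nat_lit 0) (p (nat_lit 0xc1) (nat_lit 0) (p (nat_lit 0x101) (nat_lit 1) (p (nat_lit 0x119) (nat_lit 0) (p (nat_lit 0xc9) (nat_lit 0) (p (nat_lit 0x89) (nat_lit 1) (p (nat_lit 0x41) (nat_lit 0) (p (nat_lit 0x8090887069a) (nat_lit 0) (p (nat_lit 0x7870806861a) (nat_lit 0) (p (nat_lit 0x800070786058a) (nat_lit 0) (p (nat_lit 0x787058502) (nat_lit 0) (p (nat_lit 0x586850482) (nat_lit 0) (p (nat_lit 0x160014) (nat_lit 0) (p (nat_lit 0x16000c) (nat_lit 0) (p (nat_lit 0x68612) (nat_lit 0) (p (nat_lit 0x50592) (nat_lit 0) (p (nat_lit 0x40512) (nat_lit 0) (p (nat_lit 0x50312) (nat_lit 0) (p (nat_lit 0x38292) (nat_lit 0) (p (nat_lit 0x28212)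 (nat_lit 0) (p (nat_lit 0x38112) (nat_lit 0) (p (nat_lit 0x20092) (nat_lit 0) (p (nat_lit 0x10012) (nat_lit 0) pn))))))))))))))))))))))))) :=
  Cl.node (nat_lit 0x44c2a) (nat_lit 12) (by decide +kernel) (ClAll.succ (ClAll.succ (ClAll.succ (ClAll.succ (ClAll.succ (ClAll.succ (ClAll.succ (ClAll.succ (ClAll.succ (ClAll.succ (ClAll.succ (ClAll.succ ClAll.zero n241) n242) s545) s546) s547) s548) s549) s550) s551) s552) s553) s554)

def n307 : Cl (O (nat_lit 1)) (R (nat_lit 14353))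
    (p (nat_lit 0x380c2) (nat_lit 1) (p (nat_lit 0x444aa) (nat_lit 7) (p (nat_lit 0xd1) (nat_lit 1) (p (nat_lit 0xc1) (nat_lit 0) (p (nat_lit 0x101) (nat_lit 1) (p (nat_lit 0x119) (nat_lit 0) (p (nat_lit 0xc9) (nat_lit 0) (p (nat_lit 0x89) (nat_lit 1) (p (nat_lit 0x41) (nat_lit 0) (p (nat_lit 0x8090887069a) (nat_lit 0) (p (nat_lit 0x7870806861a) (nat_lit 0) (p (nat_lit 0x800070786058a) (nat_lit 0) (p (nat_lit 0x787058502) (nat_lit 0) (p (nat_lit 0x586850482) (nat_lit 0) (p (nat_lit 0x160014) (nat_lit 0) (p (nat_lit 0x16000c) (nat_lit 0) (p (nat_lit 0x68612) (nat_lit 0) (p (nat_lit 0x50592) (nat_lit 0) (p (nat_lit 0x40512) (nat_lit 0) (p (nat_lit 0x50312) (nat_lit 0) (p (nat_lit 0x38292) (nat_lit 0) (p (nat_lit 0x28212) (nat_lit 0) (p (nat_lit 0x38112) (nat_lit 0) (p (nat_lit 0x20092) (nat_lit 0) (p (nat_lit 0x10012) (nat_lit 0) pn))))))))))))))))))))))))) :=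
  Cl.node (nat_lit 0x200004) (nat_lit 2) (by decide +kernel) (ClAll.succ (ClAll.succ ClAll.zero n243) s579)

def n308 : Cl (O (nat_lit 1)) (R (nat_lit 14353))
    (p (nat_lit 0x380c2) (nat_lit 0) (p (nat_lit 0x444aa) (nat_lit 7) (p (nat_lit 0x111) (nat_lit 1) (p (nat_lit 0xd1) (nat_lit 1) (p (nat_lit 0xc1) (nat_lit 0) (p (nat_lit 0x119) (nat_lit 1) (p (nat_lit 0xc9) (nat_lit 0) (p (nat_lit 0x89) (nat_lit 1) (p (nat_lit 0x41) (nat_lit 0) (p (nat_lit 0x8090887069a) (nat_lit 0) (p (nat_lit 0x7870806861a) (nat_lit 0) (p (nat_lit 0x800070786058a) (nat_lit 0) (p (nat_lit 0x787058502) (nat_lit 0) (p (nat_lit 0x586850482) (nat_lit 0) (p (nat_lit 0x160014) (nat_lit 0) (p (nat_lit 0x16000c) (nat_lit 0) (p (nat_lit 0x68612) (nat_lit 0) (p (nat_lit 0x50592) (nat_lit 0) (p (nat_lit 0x40512) (nat_lit 0) (p (nat_lit 0x50312) (nat_lit 0) (p (nat_lit 0x38292) (nat_lit 0) (p (nat_lit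 0x28212) (nat_lit 0) (p (nat_lit 0x38112) (nat_lit 0) (p (nat_lit 0x20092) (nat_lit 0) (p (nat_lit 0x10012) (nat_lit 0) pn))))))))))))))))))))))))) :=
  Cl.node (nat_lit 0x200004) (nat_lit 2) (by decide +kernel) (ClAll.succ (ClAll.succ ClAll.zero n244) s596)

def n309 : Cl (O (nat_lit 1)) (R (nat_lit 14353))
    (p (nat_lit 0x380c2) (nat_lit 1) (p (nat_lit 0x444aa) (nat_lit 7) (p (nat_lit 0x111) (nat_lit 1) (p (nat_lit 0xd1) (nat_lit 1) (p (nat_lit 0xc1) (nat_lit 0) (p (nat_lit 0x119) (nat_lit 1) (p (nat_lit 0xc9) (nat_lit 0) (p (nat_lit 0x89) (nat_lit 1) (p (nat_lit 0x41) (nat_lit 0) (p (nat_lit 0x8090887069a) (nat_lit 0) (p (nat_lit 0x7870806861a) (nat_lit 0) (p (nat_lit 0x800070786058a) (nat_lit 0) (p (nat_lit 0x787058502) (nat_lit 0) (p (nat_lit 0x586850482) (nat_lit 0) (p (nat_lit 0x160014) (nat_lit 0) (p (nat_lit 0x16000c) (nat_lit 0) (p (nat_lit 0x68612) (nat_lit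 0) (p (nat_lit 0x50592) (nat_lit 0) (p (nat_lit 0x40512) (nat_lit 0) (p (nat_lit 0x50312) (nat_lit 0) (p (nat_lit 0x38292) (nat_lit 0) (p (nat_lit 0x28212) (nat_lit 0) (p (nat_lit 0x38112) (nat_lit 0) (p (nat_lit 0x20092) (nat_lit 0) (p (nat_lit 0x10012) (nat_lit 0) pn))))))))))))))))))))))))) :=
  Cl.node (nat_lit 0x200004) (nat_lit 2) (by decide +kernel) (ClAll.succ (ClAll.succ ClAll.zero n245) s602)

def n310 : Cl (O (nat_lit 1)) (R (nat_lit 14353))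
    (p (nat_lit 0x380c2) (nat_lit 0) (p (nat_lit 0x44c2a) (nat_lit 0) (p (nat_lit 0x111) (nat_lit 0) (p (nat_lit 0x101) (nat_lit 0) (p (nat_lit 0xc1) (nat_lit 1) (p (nat_lit 0x119) (nat_lit 1) (p (nat_lit 0xc9) (nat_lit 0) (p (nat_lit 0x89) (nat_lit 1) (p (nat_lit 0x41) (nat_lit 0) (p (nat_lit 0x8090887069a) (nat_lit 0) (p (nat_lit 0x7870806861a) (nat_lit 0) (p (nat_lit 0x800070786058a) (nat_lit 0) (p (nat_lit 0x787058502) (nat_lit 0) (p (nat_lit 0x586850482) (nat_lit 0) (p (nat_lit 0x160014) (nat_lit 0) (p (nat_lit 0x16000c) (nat_lit 0) (p (nat_lit 0x68612) (nat_lit 0) (p (nat_lit 0x50592) (nat_lit 0) (p (nat_lit 0x40512) (nat_lit 0) (p (nat_lit 0x50312) (nat_lit 0) (p (nat_lit 0x38292) (nat_lit 0) (p (nat_lit 0x28212) (nat_lit 0) (p (nat_lit 0x38112) (nat_lit 0) (p (nat_lit 0x20092) (nat_lit 0) (p (nat_lit 0x10012) (nat_lit 0) pn))))))))))))))))))))))))) :=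
  Cl.node (nat_lit 0x200004) (nat_lit 2) (by decide +kernel) (ClAll.succ (ClAll.succ ClAll.zero n246) s623)

def n311 : Cl (O (nat_lit 1)) (R (nat_lit 14353))
    (p (nat_lit 0x380c2) (nat_lit 0) (p (nat_lit 0x44c2a) (nat_lit 1) (p (nat_lit 0x111) (nat_lit 0) (p (nat_lit 0x101) (nat_lit 0) (p (nat_lit 0xc1) (nat_lit 1) (p (nat_lit 0x119) (nat_lit 1) (p (nat_lit 0xc9) (nat_lit 0) (p (nat_lit 0x89) (nat_lit 1) (p (nat_lit 0x41) (nat_lit 0) (p (nat_lit 0x8090887069a) (nat_lit 0) (p (nat_lit 0x7870806861a) (nat_lit 0) (p (nat_lit 0x800070786058a) (nat_lit 0) (p (nat_lit 0x787058502) (nat_lit 0) (p (nat_lit 0x586850482) (nat_lit 0) (p (nat_lit 0x160014) (nat_lit 0) (p (nat_lit 0x16000c) (nat_lit 0) (p (nat_lit 0x68612) (nat_lit 0) (p (nat_lit 0x50592) (nat_lit 0) (p (nat_lit 0x40512) (nat_lit 0) (p (nat_lit 0x50312) (nat_lit 0) (p (nat_lit 0x38292) (nat_lit 0) (p (nat_lit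 0x28212) (nat_lit 0) (p (nat_lit 0x38112) (nat_lit 0) (p (nat_lit 0x20092) (nat_lit 0) (p (nat_lit 0x10012) (nat_lit 0) pn))))))))))))))))))))))))) :=
  Cl.node (nat_lit 0x200004) (nat_lit 2) (by decide +kernel) (ClAll.succ (ClAll.succ ClAll.zero n247) s628)

def n312 : Cl (O (nat_lit 1)) (R (nat_lit 14353))
    (p (nat_lit 0x380c2) (nat_lit 1) (p (nat_lit 0x444aa) (nat_lit 7) (p (nat_lit 0x111) (nat_lit 1) (p (nat_lit 0x101) (nat_lit 0) (p (nat_lit 0xc1) (nat_lit 1) (p (nat_lit 0x119) (nat_lit 1) (p (nat_lit 0xc9) (nat_lit 0) (p (nat_lit 0x89) (nat_lit 1) (p (nat_lit 0x41) (nat_lit 0) (p (nat_lit 0x8090887069a) (nat_lit 0) (p (nat_lit 0x7870806861a) (nat_lit 0) (p (nat_lit 0x800070786058a) (nat_lit 0) (p (nat_lit 0x787058502) (nat_lit 0) (p (nat_lit 0x586850482) (nat_lit 0) (p (nat_lit 0x160014) (nat_lit 0) (p (nat_lit 0x16000c) (nat_lit 0) (p (nat_lit 0x68612) (nat_lit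 0) (p (nat_lit 0x50592) (nat_lit 0) (p (nat_lit 0x40512) (nat_lit 0) (p (nat_lit 0x50312) (nat_lit 0) (p (nat_lit 0x38292) (nat_lit 0) (p (nat_lit 0x28212) (nat_lit 0) (p (nat_lit 0x38112) (nat_lit 0) (p (nat_lit 0x20092) (nat_lit 0) (p (nat_lit 0x10012) (nat_lit 0) pn))))))))))))))))))))))))) :=
  Cl.node (nat_lit 0x200004) (nat_lit 2) (by decide +kernel) (ClAll.succ (ClAll.succ ClAll.zero n248) s662)

def n313 : Cl (O (nat_lit 1)) (R (nat_lit 14353))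
    (p (nat_lit 0x4c42a) (nat_lit 2) (p (nat_lit 0x111) (nat_lit 0) (p (nat_lit 0x89) (nat_lit 0) (p (nat_lit 0x109) (nat_lit 1) (p (nat_lit 0x101) (nat_lit 0) (p (nat_lit 0x119) (nat_lit 0) (p (nat_lit 0xd1) (nat_lit 0) (p (nat_lit 0x81) (nat_lit 0) (p (nat_lit 0x41) (nat_lit 1) (p (nat_lit 0x8090887069a) (nat_lit 0) (p (nat_lit 0x7870806861a) (nat_lit 0) (p (nat_lit 0x800070786058a) (nat_lit 0) (p (nat_lit 0x787058502) (nat_lit 0) (p (nat_lit 0x586850482) (nat_lit 0) (p (nat_lit 0x160014) (nat_lit 0) (p (nat_lit 0x16000c) (nat_lit 0) (p (nat_lit 0x68612) (nat_lit 0) (p (nat_lit 0x50592) (nat_lit 0) (p (nat_lit 0x40512) (nat_lit 0) (p (nat_lit 0x50312) (nat_lit 0) (p (nat_lit 0x38292) (nat_lit 0) (p (nat_lit 0x28212) (nat_lit 0) (p (nat_lit 0x38112) (nat_lit 0) (p (nat_lit 0x20092) (nat_lit 0) (p (nat_lit 0x10012) (nat_lit 0) pn))))))))))))))))))))))))) :=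
  Cl.node (nat_lit 0x380c2) (nat_lit 1) (by decide +kernel) (ClAll.succ ClAll.zero n249)

def n314 : Cl (O (nat_lit 1)) (R (nat_lit 14353))
    (p (nat_lit 0x4c42a) (nat_lit 8) (p (nat_lit 0x111) (nat_lit 0) (p (nat_lit 0x89) (nat_lit 0) (p (nat_lit 0x109) (nat_lit 1) (p (nat_lit 0x101) (nat_lit 0) (p (nat_lit 0x119) (nat_lit 0) (p (nat_lit 0xd1) (nat_lit 0) (p (nat_lit 0x81) (nat_lit 0) (p (nat_lit 0x41) (nat_lit 1) (p (nat_lit 0x8090887069a) (nat_lit 0) (p (nat_lit 0x7870806861a) (nat_lit 0) (p (nat_lit 0x800070786058a) (nat_lit 0) (p (nat_lit 0x787058502) (nat_lit 0) (p (nat_lit 0x586850482) (nat_lit 0) (p (nat_lit 0x160014) (nat_lit 0) (p (nat_lit 0x16000c) (nat_lit 0) (p (nat_lit 0x68612) (nat_lit 0) (p (nat_lit 0x50592) (nat_lit 0) (p (nat_lit 0x40512) (nat_lit 0) (p (nat_lit 0x50312) (nat_lit 0) (p (nat_lit 0x38292) (nat_lit 0) (p (nat_lit 0x28212) (nat_lit 0)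 (p (nat_lit 0x38112) (nat_lit 0) (p (nat_lit 0x20092) (nat_lit 0) (p (nat_lit 0x10012) (nat_lit 0) pn))))))))))))))))))))))))) :=
  Cl.node (nat_lit 0x380c2) (nat_lit 2) (by decide +kernel) (ClAll.succ (ClAll.succ ClAll.zero n250) s715)

def n315 : Cl (O (nat_lit 1)) (R (nat_lit 14353))
    (p (nat_lit 0x3cc2a) (nat_lit 11) (p (nat_lit 0x111) (nat_lit 1) (p (nat_lit 0x89) (nat_lit 0) (p (nat_lit 0x109) (nat_lit 1) (p (nat_lit 0x101) (nat_lit 0) (p (nat_lit 0x119) (nat_lit 0) (p (nat_lit 0xd1) (nat_lit 0) (p (nat_lit 0x81) (nat_lit 0) (p (nat_lit 0x41) (nat_lit 1) (p (nat_lit 0x8090887069a) (nat_lit 0) (p (nat_lit 0x7870806861a) (nat_lit 0) (p (nat_lit 0x800070786058a) (nat_lit 0) (p (nat_lit 0x787058502) (nat_lit 0) (p (nat_lit 0x586850482) (nat_lit 0) (p (nat_lit 0x160014) (nat_lit 0) (p (nat_lit 0x16000c) (nat_lit 0) (p (nat_lit 0x68612) (nat_lit 0) (p (nat_lit 0x50592)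 (nat_lit 0) (p (nat_lit 0x40512) (nat_lit 0) (p (nat_lit 0x50312) (nat_lit 0) (p (nat_lit 0x38292) (nat_lit 0) (p (nat_lit 0x28212) (nat_lit 0) (p (nat_lit 0x38112) (nat_lit 0) (p (nat_lit 0x20092) (nat_lit 0) (p (nat_lit 0x10012) (nat_lit 0) pn))))))))))))))))))))))))) :=
  Cl.node (nat_lit 0x380c2) (nat_lit 2) (by decide +kernel) (ClAll.succ (ClAll.succ ClAll.zero n251) s745)

def n316 : Cl (O (nat_lit 1)) (R (nat_lit 14353))
    (p (nat_lit 0x4c42a) (nat_lit 2) (p (nat_lit 0xc9) (nat_lit 0) (p (nat_lit 0x89) (nat_lit 1) (p (nat_lit 0x109) (nat_lit 1) (p (nat_lit 0x101) (nat_lit 0) (p (nat_lit 0x119) (nat_lit 0) (p (nat_lit 0xd1) (nat_lit 0) (p (nat_lit 0x81) (nat_lit 0) (p (nat_lit 0x41) (nat_lit 1) (p (nat_lit 0x8090887069a) (nat_lit 0) (p (nat_lit 0x7870806861a) (nat_lit 0) (p (nat_lit 0x800070786058a) (nat_lit 0) (p (nat_lit 0x787058502) (nat_lit 0) (p (nat_lit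 0x586850482) (nat_lit 0) (p (nat_lit 0x160014) (nat_lit 0) (p (nat_lit 0x16000c) (nat_lit 0) (p (nat_lit 0x68612) (nat_lit 0) (p (nat_lit 0x50592) (nat_lit 0) (p (nat_lit 0x40512) (nat_lit 0) (p (nat_lit 0x50312) (nat_lit 0) (p (nat_lit 0x38292) (nat_lit 0) (p (nat_lit 0x28212) (nat_lit 0) (p (nat_lit 0x38112) (nat_lit 0) (p (nat_lit 0x20092) (nat_lit 0) (p (nat_lit 0x10012) (nat_lit 0) pn))))))))))))))))))))))))) :=
  Cl.node (nat_lit 0x380c2) (nat_lit 1) (by decide +kernel) (ClAll.succ ClAll.zero n252)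

def n317 : Cl (O (nat_lit 1)) (R (nat_lit 14353))
    (p (nat_lit 0x4c42a) (nat_lit 8) (p (nat_lit 0xc9) (nat_lit 0) (p (nat_lit 0x89) (nat_lit 1) (p (nat_lit 0x109) (nat_lit 1) (p (nat_lit 0x101) (nat_lit 0) (p (nat_lit 0x119) (nat_lit 0) (p (nat_lit 0xd1) (nat_lit 0) (p (nat_lit 0x81) (nat_lit 0) (p (nat_lit 0x41) (nat_lit 1) (p (nat_lit 0x8090887069a) (nat_lit 0) (p (nat_lit 0x7870806861a) (nat_lit 0) (p (nat_lit 0x800070786058a) (nat_lit 0) (p (nat_lit 0x787058502) (nat_lit 0) (p (nat_lit 0x586850482) (nat_lit 0) (p (nat_lit 0x160014) (nat_lit 0) (p (nat_lit 0x16000c) (nat_lit 0) (p (nat_lit 0x68612) (nat_lit 0) (p (nat_lit 0x50592) (nat_lit 0) (p (nat_lit 0x40512) (nat_lit 0) (p (nat_lit 0x50312) (nat_lit 0) (p (nat_lit 0x38292) (nat_lit 0) (p (nat_lit 0x28212) (nat_lit 0) (p (nat_lit 0x38112) (nat_lit 0) (p (nat_lit 0x20092) (nat_lit 0) (p (nat_lit 0x10012) (nat_lit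 0) pn))))))))))))))))))))))))) :=
  Cl.node (nat_lit 0x380c2) (nat_lit 2) (by decide +kernel) (ClAll.succ (ClAll.succ ClAll.zero n253) n254)

def n318 : Cl (O (nat_lit 1)) (R (nat_lit 14353))
    (p (nat_lit 0x380c2) (nat_lit 0) (p (nat_lit 0x3cc2a) (nat_lit 11) (p (nat_lit 0x89) (nat_lit 0) (p (nat_lit 0xc1) (nat_lit 0) (p (nat_lit 0x101) (nat_lit 1) (p (nat_lit 0x119) (nat_lit 0) (p (nat_lit 0xd1) (nat_lit 0) (p (nat_lit 0x81) (nat_lit 0) (p (nat_lit 0x41) (nat_lit 1) (p (nat_lit 0x8090887069a) (nat_lit 0) (p (nat_lit 0x7870806861a) (nat_lit 0) (p (nat_lit 0x800070786058a) (nat_lit 0) (p (nat_lit 0x787058502) (nat_lit 0) (p (nat_lit 0x586850482) (nat_lit 0) (p (nat_lit 0x160014) (nat_lit 0) (p (nat_lit 0x16000c) (nat_lit 0) (p (nat_lit 0x68612) (nat_lit 0) (p (nat_lit 0x50592) (nat_lit 0) (p (nat_lit 0x40512) (nat_lit 0) (p (nat_lit 0x50312) (nat_lit 0) (p (nat_lit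 0x38292) (nat_lit 0) (p (nat_lit 0x28212) (nat_lit 0) (p (nat_lit 0x38112) (nat_lit 0) (p (nat_lit 0x20092) (nat_lit 0) (p (nat_lit 0x10012) (nat_lit 0) pn))))))))))))))))))))))))) :=
  Cl.node (nat_lit 0xb0014) (nat_lit 2) (by decide +kernel) (ClAll.succ (ClAll.succ ClAll.zero n255) s800)

def n319 : Cl (O (nat_lit 1)) (R (nat_lit 14353))
    (p (nat_lit 0x4c42a) (nat_lit 2) (p (nat_lit 0xc9) (nat_lit 0) (p (nat_lit 0x89) (nat_lit 1) (p (nat_lit 0xc1) (nat_lit 0) (p (nat_lit 0x101) (nat_lit 1) (p (nat_lit 0x119) (nat_lit 0) (p (nat_lit 0xd1) (nat_lit 0) (p (nat_lit 0x81) (nat_lit 0) (p (nat_lit 0x41) (nat_lit 1) (p (nat_lit 0x8090887069a) (nat_lit 0) (p (nat_lit 0x7870806861a) (nat_lit 0) (p (nat_lit 0x800070786058a) (nat_lit 0) (p (nat_lit 0x787058502) (nat_lit 0) (p (nat_lit 0x586850482) (nat_lit 0) (p (nat_lit 0x160014) (nat_lit 0) (p (nat_lit 0x16000c) (nat_lit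 0) (p (nat_lit 0x68612) (nat_lit 0) (p (nat_lit 0x50592) (nat_lit 0) (p (nat_lit 0x40512) (nat_lit 0) (p (nat_lit 0x50312) (nat_lit 0) (p (nat_lit 0x38292) (nat_lit 0) (p (nat_lit 0x28212) (nat_lit 0) (p (nat_lit 0x38112) (nat_lit 0) (p (nat_lit 0x20092) (nat_lit 0) (p (nat_lit 0x10012) (nat_lit 0) pn))))))))))))))))))))))))) :=
  Cl.node (nat_lit 0x380c2) (nat_lit 1) (by decide +kernel) (ClAll.succ ClAll.zero n256)

def n320 : Cl (O (nat_lit 1)) (R (nat_lit 14353))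
    (p (nat_lit 0x4c42a) (nat_lit 8) (p (nat_lit 0xc9) (nat_lit 0) (p (nat_lit 0x89) (nat_lit 1) (p (nat_lit 0xc1) (nat_lit 0) (p (nat_lit 0x101) (nat_lit 1) (p (nat_lit 0x119) (nat_lit 0) (p (nat_lit 0xd1) (nat_lit 0) (p (nat_lit 0x81) (nat_lit 0) (p (nat_lit 0x41) (nat_lit 1) (p (nat_lit 0x8090887069a) (nat_lit 0) (p (nat_lit 0x7870806861a) (nat_lit 0) (p (nat_lit 0x800070786058a) (nat_lit 0) (p (nat_lit 0x787058502) (nat_lit 0) (p (nat_lit 0x586850482) (nat_lit 0) (p (nat_lit 0x160014) (nat_lit 0) (p (nat_lit 0x16000c) (nat_lit 0) (p (nat_lit 0x68612) (nat_lit 0) (p (nat_lit 0x50592) (nat_lit 0) (p (nat_lit 0x40512) (nat_lit 0) (p (nat_lit 0x50312) (nat_lit 0) (p (nat_lit 0x38292) (nat_lit 0) (p (nat_lit 0x28212) (nat_lit 0) (p (nat_lit 0x38112) (nat_lit 0) (p (nat_lit 0x20092) (nat_lit 0) (p (nat_lit 0x10012) (nat_lit 0) pn))))))))))))))))))))))))) :=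
  Cl.node (nat_lit 0x380c2) (nat_lit 2) (by decide +kernel) (ClAll.succ (ClAll.succ ClAll.zero n257) n258)

def n321 : Cl (O (nat_lit 1)) (R (nat_lit 14353))
    (p (nat_lit 0x44c2a) (nat_lit 0) (p (nat_lit 0x109) (nat_lit 0) (p (nat_lit 0x89) (nat_lit 1) (p (nat_lit 0xc9) (nat_lit 1) (p (nat_lit 0xc1) (nat_lit 0) (p (nat_lit 0x119) (nat_lit 1) (p (nat_lit 0xd1) (nat_lit 0) (p (nat_lit 0x81) (nat_lit 0) (p (nat_lit 0x41) (nat_lit 1) (p (nat_lit 0x8090887069a) (nat_lit 0) (p (nat_lit 0x7870806861a) (nat_lit 0) (p (nat_lit 0x800070786058a) (nat_lit 0) (p (nat_lit 0x787058502) (nat_lit 0) (p (nat_lit 0x586850482) (nat_lit 0) (p (nat_lit 0x160014) (nat_lit 0) (p (nat_lit 0x16000c) (nat_lit 0) (p (nat_lit 0x68612) (nat_lit 0) (p (nat_lit 0x50592) (nat_lit 0) (p (nat_lit 0x40512) (nat_lit 0) (p (nat_lit 0x50312) (nat_lit 0) (p (nat_lit 0x38292) (nat_lit 0) (p (nat_lit 0x28212)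 (nat_lit 0) (p (nat_lit 0x38112) (nat_lit 0) (p (nat_lit 0x20092) (nat_lit 0) (p (nat_lit 0x10012) (nat_lit 0) pn))))))))))))))))))))))))) :=
  Cl.node (nat_lit 0x380c2) (nat_lit 2) (by decide +kernel) (ClAll.succ (ClAll.succ ClAll.zero n259) s870)

def n322 : Cl (O (nat_lit 1)) (R (nat_lit 14353))
    (p (nat_lit 0x44c2a) (nat_lit 1) (p (nat_lit 0x109) (nat_lit 0) (p (nat_lit 0x89) (nat_lit 1) (p (nat_lit 0xc9) (nat_lit 1) (p (nat_lit 0xc1) (nat_lit 0) (p (nat_lit 0x119) (nat_lit 1) (p (nat_lit 0xd1) (nat_lit 0) (p (nat_lit 0x81) (nat_lit 0) (p (nat_lit 0x41) (nat_lit 1) (p (nat_lit 0x8090887069a) (nat_lit 0) (p (nat_lit 0x7870806861a) (nat_lit 0) (p (nat_lit 0x800070786058a) (nat_lit 0) (p (nat_lit 0x787058502) (nat_lit 0) (p (nat_lit 0x586850482) (nat_lit 0) (p (nat_lit 0x160014) (nat_lit 0) (p (nat_lit 0x16000c) (nat_lit 0) (p (nat_lit 0x68612) (nat_lit 0) (p (nat_lit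 0x50592) (nat_lit 0) (p (nat_lit 0x40512) (nat_lit 0) (p (nat_lit 0x50312) (nat_lit 0) (p (nat_lit 0x38292) (nat_lit 0) (p (nat_lit 0x28212) (nat_lit 0) (p (nat_lit 0x38112) (nat_lit 0) (p (nat_lit 0x20092) (nat_lit 0) (p (nat_lit 0x10012) (nat_lit 0) pn))))))))))))))))))))))))) :=
  Cl.node (nat_lit 0x380c2) (nat_lit 1) (by decide +kernel) (ClAll.succ ClAll.zero n260)

def n323 : Cl (O (nat_lit 1)) (R (nat_lit 14353))
    (p (nat_lit 0x3c4aa) (nat_lit 10) (p (nat_lit 0x109) (nat_lit 1) (p (nat_lit 0x89) (nat_lit 1) (p (nat_lit 0xc9) (nat_lit 1) (p (nat_lit 0xc1) (nat_lit 0) (p (nat_lit 0x119) (nat_lit 1) (p (nat_lit 0xd1) (nat_lit 0) (p (nat_lit 0x81) (nat_lit 0) (p (nat_lit 0x41) (nat_lit 1) (p (nat_lit 0x8090887069a) (nat_lit 0) (p (nat_lit 0x7870806861a) (nat_lit 0) (p (nat_lit 0x800070786058a) (nat_lit 0) (p (nat_lit 0x787058502) (nat_lit 0) (p (nat_lit 0x586850482)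 (nat_lit 0) (p (nat_lit 0x160014) (nat_lit 0) (p (nat_lit 0x16000c) (nat_lit 0) (p (nat_lit 0x68612) (nat_lit 0) (p (nat_lit 0x50592) (nat_lit 0) (p (nat_lit 0x40512) (nat_lit 0) (p (nat_lit 0x50312) (nat_lit 0) (p (nat_lit 0x38292) (nat_lit 0) (p (nat_lit 0x28212) (nat_lit 0) (p (nat_lit 0x38112) (nat_lit 0) (p (nat_lit 0x20092) (nat_lit 0) (p (nat_lit 0x10012) (nat_lit 0) pn))))))))))))))))))))))))) :=
  Cl.node (nat_lit 0x380c2) (nat_lit 2) (by decide +kernel) (ClAll.succ (ClAll.succ ClAll.zero n261) s897)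

def n324 : Cl (O (nat_lit 1)) (R (nat_lit 14353))
    (p (nat_lit 0x44c2a) (nat_lit 0) (p (nat_lit 0x109) (nat_lit 0) (p (nat_lit 0x89) (nat_lit 1) (p (nat_lit 0x101) (nat_lit 0) (p (nat_lit 0xc1) (nat_lit 1) (p (nat_lit 0x119) (nat_lit 1) (p (nat_lit 0xd1) (nat_lit 0) (p (nat_lit 0x81) (nat_lit 0) (p (nat_lit 0x41) (nat_lit 1) (p (nat_lit 0x8090887069a) (nat_lit 0) (p (nat_lit 0x7870806861a) (nat_lit 0) (p (nat_lit 0x800070786058a) (nat_lit 0) (p (nat_lit 0x787058502) (nat_lit 0) (p (nat_lit 0x586850482) (nat_lit 0) (p (nat_lit 0x160014) (nat_lit 0) (p (nat_lit 0x16000c) (nat_lit 0) (p (nat_lit 0x68612) (nat_lit 0) (p (nat_lit 0x50592) (nat_lit 0) (p (nat_lit 0x40512) (nat_lit 0) (p (nat_lit 0x50312) (nat_lit 0) (p (nat_lit 0x38292) (nat_lit 0) (p (nat_lit 0x28212) (nat_lit 0) (p (nat_lit 0x38112) (nat_lit 0) (p (nat_lit 0x20092) (nat_lit 0) (p (nat_lit 0x10012) (nat_lit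 0) pn))))))))))))))))))))))))) :=
  Cl.node (nat_lit 0x380c2) (nat_lit 2) (by decide +kernel) (ClAll.succ (ClAll.succ ClAll.zero n262) s914)

def n325 : Cl (O (nat_lit 1)) (R (nat_lit 14353))
    (p (nat_lit 0x3c4aa) (nat_lit 7) (p (nat_lit 0x109) (nat_lit 1) (p (nat_lit 0x89) (nat_lit 1) (p (nat_lit 0x101) (nat_lit 0) (p (nat_lit 0xc1) (nat_lit 1) (p (nat_lit 0x119) (nat_lit 1) (p (nat_lit 0xd1) (nat_lit 0) (p (nat_lit 0x81) (nat_lit 0) (p (nat_lit 0x41) (nat_lit 1) (p (nat_lit 0x8090887069a) (nat_lit 0) (p (nat_lit 0x7870806861a) (nat_lit 0) (p (nat_lit 0x800070786058a) (nat_lit 0) (p (nat_lit 0x787058502) (nat_lit 0) (p (nat_lit 0x586850482) (nat_lit 0) (p (nat_lit 0x160014) (nat_lit 0) (p (nat_lit 0x16000c) (nat_lit 0) (p (nat_lit 0x68612) (nat_lit 0) (p (nat_lit 0x50592) (nat_lit 0) (p (nat_lit 0x40512) (nat_lit 0) (p (nat_lit 0x50312) (nat_lit 0) (p (nat_lit 0x38292)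 (nat_lit 0) (p (nat_lit 0x28212) (nat_lit 0) (p (nat_lit 0x38112) (nat_lit 0) (p (nat_lit 0x20092) (nat_lit 0) (p (nat_lit 0x10012) (nat_lit 0) pn))))))))))))))))))))))))) :=
  Cl.node (nat_lit 0x380c2) (nat_lit 2) (by decide +kernel) (ClAll.succ (ClAll.succ ClAll.zero n263) n264)

def n326 : Cl (O (nat_lit 1)) (R (nat_lit 14353))
    (p (nat_lit 0x3c4aa) (nat_lit 10) (p (nat_lit 0x109) (nat_lit 1) (p (nat_lit 0x89) (nat_lit 1) (p (nat_lit 0x101) (nat_lit 0) (p (nat_lit 0xc1) (nat_lit 1) (p (nat_lit 0x119) (nat_lit 1) (p (nat_lit 0xd1) (nat_lit 0) (p (nat_lit 0x81) (nat_lit 0) (p (nat_lit 0x41) (nat_lit 1) (p (nat_lit 0x8090887069a) (nat_lit 0) (p (nat_lit 0x7870806861a) (nat_lit 0) (p (nat_lit 0x800070786058a) (nat_lit 0) (p (nat_lit 0x787058502) (nat_lit 0) (p (nat_lit 0x586850482) (nat_lit 0) (p (nat_lit 0x160014) (nat_lit 0) (p (nat_lit 0x16000c) (nat_lit 0) (p (nat_lit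 0x68612) (nat_lit 0) (p (nat_lit 0x50592) (nat_lit 0) (p (nat_lit 0x40512) (nat_lit 0) (p (nat_lit 0x50312) (nat_lit 0) (p (nat_lit 0x38292) (nat_lit 0) (p (nat_lit 0x28212) (nat_lit 0) (p (nat_lit 0x38112) (nat_lit 0) (p (nat_lit 0x20092) (nat_lit 0) (p (nat_lit 0x10012) (nat_lit 0) pn))))))))))))))))))))))))) :=
  Cl.node (nat_lit 0x380c2) (nat_lit 2) (by decide +kernel) (ClAll.succ (ClAll.succ ClAll.zero n265) s944)

def n327 : Cl (O (nat_lit 1)) (R (nat_lit 14353))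
    (p (nat_lit 0x380c2) (nat_lit 0) (p (nat_lit 0x3cc2a) (nat_lit 11) (p (nat_lit 0x89) (nat_lit 0) (p (nat_lit 0x101) (nat_lit 1) (p (nat_lit 0xc1) (nat_lit 1) (p (nat_lit 0x119) (nat_lit 1) (p (nat_lit 0xd1) (nat_lit 0) (p (nat_lit 0x81) (nat_lit 0) (p (nat_lit 0x41) (nat_lit 1) (p (nat_lit 0x8090887069a) (nat_lit 0) (p (nat_lit 0x7870806861a) (nat_lit 0) (p (nat_lit 0x800070786058a) (nat_lit 0) (p (nat_lit 0x787058502) (nat_lit 0) (p (nat_lit 0x586850482) (nat_lit 0) (p (nat_lit 0x160014) (nat_lit 0) (p (nat_lit 0x16000c) (nat_lit 0) (p (nat_lit 0x68612) (nat_lit 0) (p (nat_lit 0x50592) (nat_lit 0) (p (nat_lit 0x40512) (nat_lit 0) (p (nat_lit 0x50312) (nat_lit 0) (p (nat_lit 0x38292) (nat_lit 0) (p (nat_lit 0x28212) (nat_lit 0) (p (nat_lit 0x38112) (nat_lit 0) (p (nat_lit 0x20092) (nat_lit 0) (p (nat_lit 0x10012) (nat_lit 0) pn))))))))))))))))))))))))) :=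
  Cl.node (nat_lit 0xb000c) (nat_lit 2) (by decide +kernel) (ClAll.succ (ClAll.succ ClAll.zero s957) s958)

def n328 : Cl (O (nat_lit 1)) (R (nat_lit 14353))
    (p (nat_lit 0x380c2) (nat_lit 0) (p (nat_lit 0x3c4aa) (nat_lit 7) (p (nat_lit 0x89) (nat_lit 1) (p (nat_lit 0x101) (nat_lit 1) (p (nat_lit 0xc1) (nat_lit 1) (p (nat_lit 0x119) (nat_lit 1) (p (nat_lit 0xd1) (nat_lit 0) (p (nat_lit 0x81) (nat_lit 0) (p (nat_lit 0x41) (nat_lit 1) (p (nat_lit 0x8090887069a) (nat_lit 0) (p (nat_lit 0x7870806861a) (nat_lit 0) (p (nat_lit 0x800070786058a) (nat_lit 0) (p (nat_lit 0x787058502) (nat_lit 0) (p (nat_lit 0x586850482) (nat_lit 0) (p (nat_lit 0x160014) (nat_lit 0) (p (nat_lit 0x16000c) (nat_lit 0) (p (nat_lit 0x68612) (nat_lit 0) (p (nat_lit 0x50592) (nat_lit 0) (p (nat_lit 0x40512) (nat_lit 0) (p (nat_lit 0x50312) (nat_lit 0) (p (nat_lit 0x38292) (nat_lit 0) (p (nat_lit 0x28212)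 (nat_lit 0) (p (nat_lit 0x38112) (nat_lit 0) (p (nat_lit 0x20092) (nat_lit 0) (p (nat_lit 0x10012) (nat_lit 0) pn))))))))))))))))))))))))) :=
  Cl.node (nat_lit 0xb0014) (nat_lit 2) (by decide +kernel) (ClAll.succ (ClAll.succ ClAll.zero s967) s968)

def n329 : Cl (O (nat_lit 1)) (R (nat_lit 14353))
    (p (nat_lit 0x119) (nat_lit 0) (p (nat_lit 0xc9) (nat_lit 0) (p (nat_lit 0x89) (nat_lit 1) (p (nat_lit 0x109) (nat_lit 1) (p (nat_lit 0x101) (nat_lit 0) (p (nat_lit 0x111) (nat_lit 0) (p (nat_lit 0xd1) (nat_lit 1) (p (nat_lit 0x81) (nat_lit 0) (p (nat_lit 0x41) (nat_lit 1) (p (nat_lit 0x8090887069a) (nat_lit 0) (p (nat_lit 0x7870806861a) (nat_lit 0) (p (nat_lit 0x800070786058a) (nat_lit 0) (p (nat_lit 0x787058502) (nat_lit 0) (p (nat_lit 0x586850482) (nat_lit 0) (p (nat_lit 0x160014) (nat_lit 0) (p (nat_lit 0x16000c) (nat_lit 0) (p (nat_lit 0x68612) (nat_lit 0) (p (nat_lit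 0x50592) (nat_lit 0) (p (nat_lit 0x40512) (nat_lit 0) (p (nat_lit 0x50312) (nat_lit 0) (p (nat_lit 0x38292) (nat_lit 0) (p (nat_lit 0x28212) (nat_lit 0) (p (nat_lit 0x38112) (nat_lit 0) (p (nat_lit 0x20092) (nat_lit 0) (p (nat_lit 0x10012) (nat_lit 0) pn))))))))))))))))))))))))) :=
  Cl.node (nat_lit 0x4c42a) (nat_lit 12) (by decide +kernel) (ClAll.succ (ClAll.succ (ClAll.succ (ClAll.succ (ClAll.succ (ClAll.succ (ClAll.succ (ClAll.succ (ClAll.succ (ClAll.succ (ClAll.succ (ClAll.succ ClAll.zero s988) s989) s990) s991) s992) s993) s994) s995) s996) s997) s998) s999)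

def n330 : Cl (O (nat_lit 1)) (R (nat_lit 14353))
    (p (nat_lit 0x119) (nat_lit 1) (p (nat_lit 0xc9) (nat_lit 0) (p (nat_lit 0x89) (nat_lit 1) (p (nat_lit 0x109) (nat_lit 1) (p (nat_lit 0x101) (nat_lit 0) (p (nat_lit 0x111) (nat_lit 0) (p (nat_lit 0xd1) (nat_lit 1) (p (nat_lit 0x81) (nat_lit 0) (p (nat_lit 0x41) (nat_lit 1) (p (nat_lit 0x8090887069a) (nat_lit 0) (p (nat_lit 0x7870806861a) (nat_lit 0) (p (nat_lit 0x800070786058a) (nat_lit 0) (p (nat_lit 0x787058502) (nat_lit 0) (p (nat_lit 0x586850482) (nat_lit 0) (p (nat_lit 0x160014) (nat_lit 0) (p (nat_lit 0x16000c) (nat_lit 0) (p (nat_lit 0x68612) (nat_lit 0) (p (nat_lit 0x50592) (nat_lit 0) (p (nat_lit 0x40512) (nat_lit 0) (p (nat_lit 0x50312) (nat_lit 0) (p (nat_lit 0x38292) (nat_lit 0) (p (nat_lit 0x28212) (nat_lit 0) (p (nat_lit 0x38112) (nat_lit 0) (p (nat_lit 0x20092) (nat_lit 0) (p (nat_lit 0x10012) (nat_lit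 0) pn))))))))))))))))))))))))) :=
  Cl.node (nat_lit 0x4c42a) (nat_lit 12) (by decide +kernel) (ClAll.succ (ClAll.succ (ClAll.succ (ClAll.succ (ClAll.succ (ClAll.succ (ClAll.succ (ClAll.succ (ClAll.succ (ClAll.succ (ClAll.succ (ClAll.succ ClAll.zero s1000) s1001) n266) s1004) s1005) s1006) s1007) s1008) s1009) s1010) s1011) s1012)

def n331 : Cl (O (nat_lit 1)) (R (nat_lit 14353))
    (p (nat_lit 0x380c2) (nat_lit 0) (p (nat_lit 0x3c4aa) (nat_lit 9) (p (nat_lit 0x109) (nat_lit 1) (p (nat_lit 0xc9) (nat_lit 1) (p (nat_lit 0x89) (nat_lit 1) (p (nat_lit 0x111) (nat_lit 1) (p (nat_lit 0xd1) (nat_lit 1) (p (nat_lit 0x81) (nat_lit 0) (p (nat_lit 0x41) (nat_lit 1) (p (nat_lit 0x8090887069a) (nat_lit 0) (p (nat_lit 0x7870806861a) (nat_lit 0) (p (nat_lit 0x800070786058a) (nat_lit 0) (p (nat_lit 0x787058502) (nat_lit 0) (p (nat_lit 0x586850482) (nat_lit 0) (p (nat_lit 0x160014)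 (nat_lit 0) (p (nat_lit 0x16000c) (nat_lit 0) (p (nat_lit 0x68612) (nat_lit 0) (p (nat_lit 0x50592) (nat_lit 0) (p (nat_lit 0x40512) (nat_lit 0) (p (nat_lit 0x50312) (nat_lit 0) (p (nat_lit 0x38292) (nat_lit 0) (p (nat_lit 0x28212) (nat_lit 0) (p (nat_lit 0x38112) (nat_lit 0) (p (nat_lit 0x20092) (nat_lit 0) (p (nat_lit 0x10012) (nat_lit 0) pn))))))))))))))))))))))))) :=
  Cl.node (nat_lit 0xb000c) (nat_lit 2) (by decide +kernel) (ClAll.succ (ClAll.succ ClAll.zero n267) s1075)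

def n332 : Cl (O (nat_lit 1)) (R (nat_lit 14353))
    (p (nat_lit 0x3c4aa) (nat_lit 7) (p (nat_lit 0xd1) (nat_lit 1) (p (nat_lit 0x111) (nat_lit 1) (p (nat_lit 0x109) (nat_lit 0) (p (nat_lit 0x101) (nat_lit 0) (p (nat_lit 0x119) (nat_lit 0) (p (nat_lit 0xc1) (nat_lit 0) (p (nat_lit 0x81) (nat_lit 1) (p (nat_lit 0x41) (nat_lit 1) (p (nat_lit 0x8090887069a) (nat_lit 0) (p (nat_lit 0x7870806861a) (nat_lit 0) (p (nat_lit 0x800070786058a) (nat_lit 0) (p (nat_lit 0x787058502) (nat_lit 0) (p (nat_lit 0x586850482) (nat_lit 0) (p (nat_lit 0x160014) (nat_lit 0) (p (nat_lit 0x16000c) (nat_lit 0) (p (nat_lit 0x68612) (nat_lit 0) (p (nat_lit 0x50592) (nat_lit 0) (p (nat_lit 0x40512) (nat_lit 0) (p (nat_lit 0x50312) (nat_lit 0) (p (nat_lit 0x38292) (nat_lit 0) (p (nat_lit 0x28212) (nat_lit 0) (p (nat_lit 0x38112) (nat_lit 0) (p (nat_lit 0x20092) (nat_lit 0) (p (nat_lit 0x10012) (nat_lit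 0) pn))))))))))))))))))))))))) :=
  Cl.node (nat_lit 0x380c2) (nat_lit 2) (by decide +kernel) (ClAll.succ (ClAll.succ ClAll.zero n268) n269)

def n333 : Cl (O (nat_lit 1)) (R (nat_lit 14353))
    (p (nat_lit 0x3c4aa) (nat_lit 7) (p (nat_lit 0xd1) (nat_lit 1) (p (nat_lit 0xc9) (nat_lit 0) (p (nat_lit 0x109) (nat_lit 1) (p (nat_lit 0x101) (nat_lit 0) (p (nat_lit 0x119) (nat_lit 0) (p (nat_lit 0xc1) (nat_lit 0) (p (nat_lit 0x81) (nat_lit 1) (p (nat_lit 0x41) (nat_lit 1) (p (nat_lit 0x8090887069a) (nat_lit 0) (p (nat_lit 0x7870806861a) (nat_lit 0) (p (nat_lit 0x800070786058a) (nat_lit 0) (p (nat_lit 0x787058502) (nat_lit 0) (p (nat_lit 0x586850482) (nat_lit 0) (p (nat_lit 0x160014) (nat_lit 0) (p (nat_lit 0x16000c) (nat_lit 0) (p (nat_lit 0x68612) (nat_lit 0) (p (nat_lit 0x50592) (nat_lit 0) (p (nat_lit 0x40512) (nat_lit 0) (p (nat_lit 0x50312) (nat_lit 0) (p (nat_lit 0x38292)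 (nat_lit 0) (p (nat_lit 0x28212) (nat_lit 0) (p (nat_lit 0x38112) (nat_lit 0) (p (nat_lit 0x20092) (nat_lit 0) (p (nat_lit 0x10012) (nat_lit 0) pn))))))))))))))))))))))))) :=
  Cl.node (nat_lit 0x380c2) (nat_lit 2) (by decide +kernel) (ClAll.succ (ClAll.succ ClAll.zero n270) n271)

def n334 : Cl (O (nat_lit 1)) (R (nat_lit 14353))
    (p (nat_lit 0x380c2) (nat_lit 0) (p (nat_lit 0x44c2a) (nat_lit 0) (p (nat_lit 0xd1) (nat_lit 0) (p (nat_lit 0xc9) (nat_lit 0) (p (nat_lit 0x101) (nat_lit 1) (p (nat_lit 0x119) (nat_lit 0) (p (nat_lit 0xc1) (nat_lit 0) (p (nat_lit 0x81) (nat_lit 1) (p (nat_lit 0x41) (nat_lit 1) (p (nat_lit 0x8090887069a) (nat_lit 0) (p (nat_lit 0x7870806861a) (nat_lit 0) (p (nat_lit 0x800070786058a) (nat_lit 0) (p (nat_lit 0x787058502) (nat_lit 0) (p (nat_lit 0x586850482) (nat_lit 0) (p (nat_lit 0x160014) (nat_lit 0) (p (nat_lit 0x16000c) (nat_lit 0) (p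 (nat_lit 0x68612) (nat_lit 0) (p (nat_lit 0x50592) (nat_lit 0) (p (nat_lit 0x40512) (nat_lit 0) (p (nat_lit 0x50312) (nat_lit 0) (p (nat_lit 0x38292) (nat_lit 0) (p (nat_lit 0x28212) (nat_lit 0) (p (nat_lit 0x38112) (nat_lit 0) (p (nat_lit 0x20092) (nat_lit 0) (p (nat_lit 0x10012) (nat_lit 0) pn))))))))))))))))))))))))) :=
  Cl.node (nat_lit 0x200004) (nat_lit 2) (by decide +kernel) (ClAll.succ (ClAll.succ ClAll.zero n272) s1132)

def n335 : Cl (O (nat_lit 1)) (R (nat_lit 14353))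
    (p (nat_lit 0x380c2) (nat_lit 0) (p (nat_lit 0x44c2a) (nat_lit 1) (p (nat_lit 0xd1) (nat_lit 0) (p (nat_lit 0xc9) (nat_lit 0) (p (nat_lit 0x101) (nat_lit 1) (p (nat_lit 0x119) (nat_lit 0) (p (nat_lit 0xc1) (nat_lit 0) (p (nat_lit 0x81) (nat_lit 1) (p (nat_lit 0x41) (nat_lit 1) (p (nat_lit 0x8090887069a) (nat_lit 0) (p (nat_lit 0x7870806861a) (nat_lit 0) (p (nat_lit 0x800070786058a) (nat_lit 0) (p (nat_lit 0x787058502) (nat_lit 0) (p (nat_lit 0x586850482) (nat_lit 0) (p (nat_lit 0x160014) (nat_lit 0) (p (nat_lit 0x16000c) (nat_lit 0) (p (nat_lit 0x68612) (nat_lit 0) (p (nat_lit 0x50592) (nat_lit 0) (p (nat_lit 0x40512) (nat_lit 0) (p (nat_lit 0x50312) (nat_lit 0) (p (nat_lit 0x38292) (nat_lit 0) (p (nat_lit 0x28212) (nat_lit 0) (p (nat_lit 0x38112) (nat_lit 0) (p (nat_lit 0x20092) (nat_lit 0) (p (nat_lit 0x10012) (nat_lit 0) pn))))))))))))))))))))))))) :=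
  Cl.node (nat_lit 0xb0014) (nat_lit 2) (by decide +kernel) (ClAll.succ (ClAll.succ ClAll.zero n273) s1136)

def n336 : Cl (O (nat_lit 1)) (R (nat_lit 14353))
    (p (nat_lit 0x380c2) (nat_lit 0) (p (nat_lit 0x3c4aa) (nat_lit 7) (p (nat_lit 0xd1) (nat_lit 1) (p (nat_lit 0xc9) (nat_lit 0) (p (nat_lit 0x101) (nat_lit 1) (p (nat_lit 0x119) (nat_lit 0) (p (nat_lit 0xc1) (nat_lit 0) (p (nat_lit 0x81) (nat_lit 1) (p (nat_lit 0x41) (nat_lit 1) (p (nat_lit 0x8090887069a) (nat_lit 0) (p (nat_lit 0x7870806861a) (nat_lit 0) (p (nat_lit 0x800070786058a) (nat_lit 0) (p (nat_lit 0x787058502) (nat_lit 0) (p (nat_lit 0x586850482) (nat_lit 0) (p (nat_lit 0x160014) (nat_lit 0) (p (nat_lit 0x16000c) (nat_lit 0) (p (nat_lit 0x68612) (nat_lit 0) (p (nat_lit 0x50592) (nat_lit 0) (p (nat_lit 0x40512) (nat_lit 0) (p (nat_lit 0x50312) (nat_lit 0) (p (nat_lit 0x38292) (nat_lit 0) (p (nat_lit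 0x28212) (nat_lit 0) (p (nat_lit 0x38112) (nat_lit 0) (p (nat_lit 0x20092) (nat_lit 0) (p (nat_lit 0x10012) (nat_lit 0) pn))))))))))))))))))))))))) :=
  Cl.node (nat_lit 0x200004) (nat_lit 2) (by decide +kernel) (ClAll.succ (ClAll.succ ClAll.zero n274) s1173)

def n337 : Cl (O (nat_lit 1)) (R (nat_lit 14353))
    (p (nat_lit 0x380c2) (nat_lit 1) (p (nat_lit 0x3c4aa) (nat_lit 7) (p (nat_lit 0xd1) (nat_lit 1) (p (nat_lit 0xc9) (nat_lit 0) (p (nat_lit 0x101) (nat_lit 1) (p (nat_lit 0x119) (nat_lit 0) (p (nat_lit 0xc1) (nat_lit 0) (p (nat_lit 0x81) (nat_lit 1) (p (nat_lit 0x41) (nat_lit 1) (p (nat_lit 0x8090887069a) (nat_lit 0) (p (nat_lit 0x7870806861a) (nat_lit 0) (p (nat_lit 0x800070786058a) (nat_lit 0) (p (nat_lit 0x787058502) (nat_lit 0) (p (nat_lit 0x586850482) (nat_lit 0) (p (nat_lit 0x160014) (nat_lit 0) (p (nat_lit 0x16000c) (nat_lit 0) (p (nat_lit 0x68612) (nat_lit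 0) (p (nat_lit 0x50592) (nat_lit 0) (p (nat_lit 0x40512) (nat_lit 0) (p (nat_lit 0x50312) (nat_lit 0) (p (nat_lit 0x38292) (nat_lit 0) (p (nat_lit 0x28212) (nat_lit 0) (p (nat_lit 0x38112) (nat_lit 0) (p (nat_lit 0x20092) (nat_lit 0) (p (nat_lit 0x10012) (nat_lit 0) pn))))))))))))))))))))))))) :=
  Cl.node (nat_lit 0x200004) (nat_lit 2) (by decide +kernel) (ClAll.succ (ClAll.succ ClAll.zero n275) s1189)

def n338 : Cl (O (nat_lit 1)) (R (nat_lit 14353))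
    (p (nat_lit 0x380c2) (nat_lit 0) (p (nat_lit 0x3c4aa) (nat_lit 7) (p (nat_lit 0x111) (nat_lit 1) (p (nat_lit 0xd1) (nat_lit 1) (p (nat_lit 0xc9) (nat_lit 0) (p (nat_lit 0x119) (nat_lit 1) (p (nat_lit 0xc1) (nat_lit 0) (p (nat_lit 0x81) (nat_lit 1) (p (nat_lit 0x41) (nat_lit 1) (p (nat_lit 0x8090887069a) (nat_lit 0) (p (nat_lit 0x7870806861a) (nat_lit 0) (p (nat_lit 0x800070786058a) (nat_lit 0) (p (nat_lit 0x787058502) (nat_lit 0) (p (nat_lit 0x586850482) (nat_lit 0) (p (nat_lit 0x160014) (nat_lit 0) (p (nat_lit 0x16000c) (nat_lit 0) (p (nat_lit 0x68612) (nat_lit 0) (p (nat_lit 0x50592) (nat_lit 0) (p (nat_lit 0x40512) (nat_lit 0) (p (nat_lit 0x50312) (nat_lit 0) (p (nat_lit 0x38292) (nat_lit 0) (p (nat_lit 0x28212) (nat_lit 0) (p (nat_lit 0x38112) (nat_lit 0) (p (nat_lit 0x20092) (nat_lit 0) (p (nat_lit 0x10012) (nat_lit 0) pn))))))))))))))))))))))))) :=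
  Cl.node (nat_lit 0x200004) (nat_lit 2) (by decide +kernel) (ClAll.succ (ClAll.succ ClAll.zero n276) s1208)

def n339 : Cl (O (nat_lit 1)) (R (nat_lit 14353))
    (p (nat_lit 0x380c2) (nat_lit 0) (p (nat_lit 0x44c2a) (nat_lit 1) (p (nat_lit 0x111) (nat_lit 0) (p (nat_lit 0x109) (nat_lit 0) (p (nat_lit 0xc9) (nat_lit 1) (p (nat_lit 0x119) (nat_lit 1) (p (nat_lit 0xc1) (nat_lit 0) (p (nat_lit 0x81) (nat_lit 1) (p (nat_lit 0x41) (nat_lit 1) (p (nat_lit 0x8090887069a) (nat_lit 0) (p (nat_lit 0x7870806861a) (nat_lit 0) (p (nat_lit 0x800070786058a) (nat_lit 0) (p (nat_lit 0x787058502) (nat_lit 0) (p (nat_lit 0x586850482) (nat_lit 0) (p (nat_lit 0x160014) (nat_lit 0) (p (nat_lit 0x16000c) (nat_lit 0) (p (nat_lit 0x68612) (nat_lit 0) (p (nat_lit 0x50592) (nat_lit 0) (p (nat_lit 0x40512) (nat_lit 0) (p (nat_lit 0x50312) (nat_lit 0) (p (nat_lit 0x38292) (nat_lit 0) (p (nat_lit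 0x28212) (nat_lit 0) (p (nat_lit 0x38112) (nat_lit 0) (p (nat_lit 0x20092) (nat_lit 0) (p (nat_lit 0x10012) (nat_lit 0) pn))))))))))))))))))))))))) :=
  Cl.node (nat_lit 0x109) (nat_lit 2) (by decide +kernel) (ClAll.succ (ClAll.succ ClAll.zero s1215) n277)

def n340 : Cl (O (nat_lit 1)) (R (nat_lit 14353))
    (p (nat_lit 0x380c2) (nat_lit 0) (p (nat_lit 0x3c4aa) (nat_lit 7) (p (nat_lit 0x111) (nat_lit 1) (p (nat_lit 0x109) (nat_lit 0) (p (nat_lit 0xc9) (nat_lit 1) (p (nat_lit 0x119) (nat_lit 1) (p (nat_lit 0xc1) (nat_lit 0) (p (nat_lit 0x81) (nat_lit 1) (p (nat_lit 0x41) (nat_lit 1) (p (nat_lit 0x8090887069a) (nat_lit 0) (p (nat_lit 0x7870806861a) (nat_lit 0) (p (nat_lit 0x800070786058a) (nat_lit 0) (p (nat_lit 0x787058502) (nat_lit 0) (p (nat_lit 0x586850482) (nat_lit 0) (p (nat_lit 0x160014) (nat_lit 0) (p (nat_lit 0x16000c) (nat_lit 0) (p (nat_lit 0x68612) (nat_lit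 0) (p (nat_lit 0x50592) (nat_lit 0) (p (nat_lit 0x40512) (nat_lit 0) (p (nat_lit 0x50312) (nat_lit 0) (p (nat_lit 0x38292) (nat_lit 0) (p (nat_lit 0x28212) (nat_lit 0) (p (nat_lit 0x38112) (nat_lit 0) (p (nat_lit 0x20092) (nat_lit 0) (p (nat_lit 0x10012) (nat_lit 0) pn))))))))))))))))))))))))) :=
  Cl.node (nat_lit 0xb0014) (nat_lit 2) (by decide +kernel) (ClAll.succ (ClAll.succ ClAll.zero s1235) s1236)

def n341 : Cl (O (nat_lit 1)) (R (nat_lit 14353))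
    (p (nat_lit 0x380c2) (nat_lit 1) (p (nat_lit 0x3c4aa) (nat_lit 7) (p (nat_lit 0x111) (nat_lit 1) (p (nat_lit 0x109) (nat_lit 0) (p (nat_lit 0xc9) (nat_lit 1) (p (nat_lit 0x119) (nat_lit 1) (p (nat_lit 0xc1) (nat_lit 0) (p (nat_lit 0x81) (nat_lit 1) (p (nat_lit 0x41) (nat_lit 1) (p (nat_lit 0x8090887069a) (nat_lit 0) (p (nat_lit 0x7870806861a) (nat_lit 0) (p (nat_lit 0x800070786058a) (nat_lit 0) (p (nat_lit 0x787058502) (nat_lit 0) (p (nat_lit 0x586850482) (nat_lit 0) (p (nat_lit 0x160014) (nat_lit 0) (p (nat_lit 0x16000c) (nat_lit 0) (p (nat_lit 0x68612) (nat_lit 0) (p (nat_lit 0x50592) (nat_lit 0) (p (nat_lit 0x40512) (nat_lit 0) (p (nat_lit 0x50312) (nat_lit 0) (p (nat_lit 0x38292) (nat_lit 0) (p (nat_lit 0x28212) (nat_lit 0) (p (nat_lit 0x38112) (nat_lit 0) (p (nat_lit 0x20092) (nat_lit 0) (p (nat_lit 0x10012) (nat_lit 0) pn))))))))))))))))))))))))) :=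
  Cl.node (nat_lit 0x200004) (nat_lit 2) (by decide +kernel) (ClAll.succ (ClAll.succ ClAll.zero n278) s1242)

def n342 : Cl (O (nat_lit 1)) (R (nat_lit 14353))
    (p (nat_lit 0x81) (nat_lit 1) (p (nat_lit 0xc9) (nat_lit 1) (p (nat_lit 0x109) (nat_lit 1) (p (nat_lit 0x101) (nat_lit 0) (p (nat_lit 0x119) (nat_lit 0) (p (nat_lit 0xd1) (nat_lit 0) (p (nat_lit 0x89) (nat_lit 0) (p (nat_lit 0x41) (nat_lit 0) (p (nat_lit 0x8090887069a) (nat_lit 0) (p (nat_lit 0x7870806861a) (nat_lit 0) (p (nat_lit 0x800070786058a) (nat_lit 0) (p (nat_lit 0x787058502) (nat_lit 0) (p (nat_lit 0x586850482) (nat_lit 0) (p (nat_lit 0x160014) (nat_lit 0) (p (nat_lit 0x16000c) (nat_lit 0) (p (nat_lit 0x68612) (nat_lit 0) (p (nat_lit 0x50592) (nat_lit 0) (p (nat_lit 0x40512) (nat_lit 0) (p (nat_lit 0x50312) (nat_lit 0) (p (nat_lit 0x38292) (nat_lit 0) (p (nat_lit 0x28212) (nat_lit 0) (p (nat_lit 0x38112)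 (nat_lit 0) (p (nat_lit 0x20092) (nat_lit 0) (p (nat_lit 0x10012) (nat_lit 0) pn)))))))))))))))))))))))) :=
  Cl.node (nat_lit 0x444aa) (nat_lit 12) (by decide +kernel) (ClAll.succ (ClAll.succ (ClAll.succ (ClAll.succ (ClAll.succ (ClAll.succ (ClAll.succ (ClAll.succ (ClAll.succ (ClAll.succ (ClAll.succ (ClAll.succ ClAll.zero s3) s4) s5) s6) s7) s8) s9) n279) s18) s19) s20) s21)

def n343 : Cl (O (nat_lit 1)) (R (nat_lit 14353))
    (p (nat_lit 0x111) (nat_lit 0) (p (nat_lit 0xc9) (nat_lit 0) (p (nat_lit 0x81) (nat_lit 0) (p (nat_lit 0x101) (nat_lit 1) (p (nat_lit 0x119) (nat_lit 0) (p (nat_lit 0xd1) (nat_lit 0) (p (nat_lit 0x89) (nat_lit 0) (p (nat_lit 0x41) (nat_lit 0) (p (nat_lit 0x8090887069a) (nat_lit 0) (p (nat_lit 0x7870806861a) (nat_lit 0) (p (nat_lit 0x800070786058a) (nat_lit 0) (p (nat_lit 0x787058502) (nat_lit 0) (p (nat_lit 0x586850482) (nat_lit 0) (p (nat_lit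 0x160014) (nat_lit 0) (p (nat_lit 0x16000c) (nat_lit 0) (p (nat_lit 0x68612) (nat_lit 0) (p (nat_lit 0x50592) (nat_lit 0) (p (nat_lit 0x40512) (nat_lit 0) (p (nat_lit 0x50312) (nat_lit 0) (p (nat_lit 0x38292) (nat_lit 0) (p (nat_lit 0x28212) (nat_lit 0) (p (nat_lit 0x38112) (nat_lit 0) (p (nat_lit 0x20092) (nat_lit 0) (p (nat_lit 0x10012) (nat_lit 0) pn)))))))))))))))))))))))) :=
  Cl.node (nat_lit 0x4c42a) (nat_lit 12) (by decide +kernel) (ClAll.succ (ClAll.succ (ClAll.succ (ClAll.succ (ClAll.succ (ClAll.succ (ClAll.succ (ClAll.succ (ClAll.succ (ClAll.succ (ClAll.succ (ClAll.succ ClAll.zero s22) s23) n280) s52) s53) s54) s55) s56) n281) s59) s60) s61)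

def n344 : Cl (O (nat_lit 1)) (R (nat_lit 14353))
    (p (nat_lit 0x111) (nat_lit 1) (p (nat_lit 0xc9) (nat_lit 0) (p (nat_lit 0x81) (nat_lit 0) (p (nat_lit 0x101) (nat_lit 1) (p (nat_lit 0x119) (nat_lit 0) (p (nat_lit 0xd1) (nat_lit 0) (p (nat_lit 0x89) (nat_lit 0) (p (nat_lit 0x41) (nat_lit 0) (p (nat_lit 0x8090887069a) (nat_lit 0) (p (nat_lit 0x7870806861a) (nat_lit 0) (p (nat_lit 0x800070786058a) (nat_lit 0) (p (nat_lit 0x787058502) (nat_lit 0) (p (nat_lit 0x586850482) (nat_lit 0) (p (nat_lit 0x160014) (nat_lit 0) (p (nat_lit 0x16000c) (nat_lit 0) (p (nat_lit 0x68612) (nat_lit 0) (p (nat_lit 0x50592) (nat_lit 0) (p (nat_lit 0x40512) (nat_lit 0) (p (nat_lit 0x50312) (nat_lit 0) (p (nat_lit 0x38292) (nat_lit 0) (p (nat_lit 0x28212) (nat_lit 0) (p (nat_lit 0x38112) (nat_lit 0) (p (nat_lit 0x20092) (nat_lit 0) (p (nat_lit 0x10012) (nat_lit 0) pn))))))))))))))))))))))))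 :=
  Cl.node (nat_lit 0x44c2a) (nat_lit 12) (by decide +kernel) (ClAll.succ (ClAll.succ (ClAll.succ (ClAll.succ (ClAll.succ (ClAll.succ (ClAll.succ (ClAll.succ (ClAll.succ (ClAll.succ (ClAll.succ (ClAll.succ ClAll.zero s62) s63) s64) s65) s66) s67) s68) s69) s70) s71) s72) s73)

def n345 : Cl (O (nat_lit 1)) (R (nat_lit 14353))
    (p (nat_lit 0x111) (nat_lit 0) (p (nat_lit 0xc9) (nat_lit 1) (p (nat_lit 0x81) (nat_lit 0) (p (nat_lit 0x101) (nat_lit 1) (p (nat_lit 0x119) (nat_lit 0) (p (nat_lit 0xd1) (nat_lit 0) (p (nat_lit 0x89) (nat_lit 0) (p (nat_lit 0x41) (nat_lit 0) (p (nat_lit 0x8090887069a) (nat_lit 0) (p (nat_lit 0x7870806861a) (nat_lit 0) (p (nat_lit 0x800070786058a) (nat_lit 0) (p (nat_lit 0x787058502) (nat_lit 0) (p (nat_lit 0x586850482) (nat_lit 0) (p (nat_lit 0x160014) (nat_lit 0) (p (nat_lit 0x16000c) (nat_lit 0) (p (nat_lit 0x68612) (nat_lit 0) (p (nat_lit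 0x50592) (nat_lit 0) (p (nat_lit 0x40512) (nat_lit 0) (p (nat_lit 0x50312) (nat_lit 0) (p (nat_lit 0x38292) (nat_lit 0) (p (nat_lit 0x28212) (nat_lit 0) (p (nat_lit 0x38112) (nat_lit 0) (p (nat_lit 0x20092) (nat_lit 0) (p (nat_lit 0x10012) (nat_lit 0) pn)))))))))))))))))))))))) :=
  Cl.node (nat_lit 0x444aa) (nat_lit 12) (by decide +kernel) (ClAll.succ (ClAll.succ (ClAll.succ (ClAll.succ (ClAll.succ (ClAll.succ (ClAll.succ (ClAll.succ (ClAll.succ (ClAll.succ (ClAll.succ (ClAll.succ ClAll.zero s74) s75) s76) s77) s78) s79) s80) n282) n283) s122) s123) s124)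

def n346 : Cl (O (nat_lit 1)) (R (nat_lit 14353))
    (p (nat_lit 0xc9) (nat_lit 0) (p (nat_lit 0xc1) (nat_lit 0) (p (nat_lit 0x81) (nat_lit 1) (p (nat_lit 0x101) (nat_lit 1) (p (nat_lit 0x119) (nat_lit 0) (p (nat_lit 0xd1) (nat_lit 0) (p (nat_lit 0x89) (nat_lit 0) (p (nat_lit 0x41) (nat_lit 0) (p (nat_lit 0x8090887069a) (nat_lit 0) (p (nat_lit 0x7870806861a) (nat_lit 0) (p (nat_lit 0x800070786058a) (nat_lit 0) (p (nat_lit 0x787058502) (nat_lit 0) (p (nat_lit 0x586850482) (nat_lit 0) (p (nat_lit 0x160014) (nat_lit 0) (p (nat_lit 0x16000c) (nat_lit 0) (p (nat_lit 0x68612) (nat_lit 0) (p (nat_lit 0x50592) (nat_lit 0) (p (nat_lit 0x40512) (nat_lit 0) (p (nat_lit 0x50312) (nat_lit 0) (p (nat_lit 0x38292) (nat_lit 0) (p (nat_lit 0x28212) (nat_lit 0) (p (nat_lit 0x38112) (nat_lit 0) (p (nat_lit 0x20092) (nat_lit 0) (p (nat_lit 0x10012) (nat_lit 0) pn))))))))))))))))))))))))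 :=
  Cl.node (nat_lit 0x4c42a) (nat_lit 12) (by decide +kernel) (ClAll.succ (ClAll.succ (ClAll.succ (ClAll.succ (ClAll.succ (ClAll.succ (ClAll.succ (ClAll.succ (ClAll.succ (ClAll.succ (ClAll.succ (ClAll.succ ClAll.zero s126) s127) n284) s146) s147) n285) s150) s151) n286) s161) s162) s163)

def n347 : Cl (O (nat_lit 1)) (R (nat_lit 14353))
    (p (nat_lit 0xc9) (nat_lit 1) (p (nat_lit 0xc1) (nat_lit 0) (p (nat_lit 0x81) (nat_lit 1) (p (nat_lit 0x101) (nat_lit 1) (p (nat_lit 0x119) (nat_lit 0) (p (nat_lit 0xd1) (nat_lit 0) (p (nat_lit 0x89) (nat_lit 0) (p (nat_lit 0x41) (nat_lit 0) (p (nat_lit 0x8090887069a) (nat_lit 0) (p (nat_lit 0x7870806861a) (nat_lit 0) (p (nat_lit 0x800070786058a) (nat_lit 0) (p (nat_lit 0x787058502) (nat_lit 0) (p (nat_lit 0x586850482) (nat_lit 0) (p (nat_lit 0x160014) (nat_lit 0) (p (nat_lit 0x16000c) (nat_lit 0) (p (nat_lit 0x68612) (nat_lit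 0) (p (nat_lit 0x50592) (nat_lit 0) (p (nat_lit 0x40512) (nat_lit 0) (p (nat_lit 0x50312) (nat_lit 0) (p (nat_lit 0x38292) (nat_lit 0) (p (nat_lit 0x28212) (nat_lit 0) (p (nat_lit 0x38112) (nat_lit 0) (p (nat_lit 0x20092) (nat_lit 0) (p (nat_lit 0x10012) (nat_lit 0) pn)))))))))))))))))))))))) :=
  Cl.node (nat_lit 0x444aa) (nat_lit 12) (by decide +kernel) (ClAll.succ (ClAll.succ (ClAll.succ (ClAll.succ (ClAll.succ (ClAll.succ (ClAll.succ (ClAll.succ (ClAll.succ (ClAll.succ (ClAll.succ (ClAll.succ ClAll.zero s164) s165) s166) s167) s168) s169) s170) n287) s176) s177) s178) s179)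

def n348 : Cl (O (nat_lit 1)) (R (nat_lit 14353))
    (p (nat_lit 0x3cc2a) (nat_lit 10) (p (nat_lit 0x109) (nat_lit 1) (p (nat_lit 0xc9) (nat_lit 1) (p (nat_lit 0xc1) (nat_lit 0) (p (nat_lit 0x119) (nat_lit 1) (p (nat_lit 0xd1) (nat_lit 0) (p (nat_lit 0x89) (nat_lit 0) (p (nat_lit 0x41) (nat_lit 0) (p (nat_lit 0x8090887069a) (nat_lit 0) (p (nat_lit 0x7870806861a) (nat_lit 0) (p (nat_lit 0x800070786058a) (nat_lit 0) (p (nat_lit 0x787058502) (nat_lit 0) (p (nat_lit 0x586850482) (nat_lit 0) (p (nat_lit 0x160014) (nat_lit 0) (p (nat_lit 0x16000c) (nat_lit 0) (p (nat_lit 0x68612) (nat_lit 0) (p (nat_lit 0x50592) (nat_lit 0) (p (nat_lit 0x40512) (nat_lit 0) (p (nat_lit 0x50312) (nat_lit 0) (p (nat_lit 0x38292) (nat_lit 0) (p (nat_lit 0x28212) (nat_lit 0) (p (nat_lit 0x38112) (nat_lit 0) (p (nat_lit 0x20092) (nat_lit 0) (p (nat_lit 0x10012) (nat_lit 0) pn))))))))))))))))))))))))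 :=
  Cl.node (nat_lit 0x380c2) (nat_lit 2) (by decide +kernel) (ClAll.succ (ClAll.succ ClAll.zero n288) n289)

def n349 : Cl (O (nat_lit 1)) (R (nat_lit 14353))
    (p (nat_lit 0x3cc2a) (nat_lit 11) (p (nat_lit 0x109) (nat_lit 1) (p (nat_lit 0xc9) (nat_lit 1) (p (nat_lit 0xc1) (nat_lit 0) (p (nat_lit 0x119) (nat_lit 1) (p (nat_lit 0xd1) (nat_lit 0) (p (nat_lit 0x89) (nat_lit 0) (p (nat_lit 0x41) (nat_lit 0) (p (nat_lit 0x8090887069a) (nat_lit 0) (p (nat_lit 0x7870806861a) (nat_lit 0) (p (nat_lit 0x800070786058a) (nat_lit 0) (p (nat_lit 0x787058502) (nat_lit 0) (p (nat_lit 0x586850482) (nat_lit 0) (p (nat_lit 0x160014) (nat_lit 0) (p (nat_lit 0x16000c) (nat_lit 0) (p (nat_lit 0x68612) (nat_lit 0) (p (nat_lit 0x50592) (nat_lit 0) (p (nat_lit 0x40512) (nat_lit 0) (p (nat_lit 0x50312) (nat_lit 0) (p (nat_lit 0x38292) (nat_lit 0) (p (nat_lit 0x28212) (nat_lit 0) (p (nat_lit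 0x38112) (nat_lit 0) (p (nat_lit 0x20092) (nat_lit 0) (p (nat_lit 0x10012) (nat_lit 0) pn)))))))))))))))))))))))) :=
  Cl.node (nat_lit 0x380c2) (nat_lit 2) (by decide +kernel) (ClAll.succ (ClAll.succ ClAll.zero n290) s201)

def n350 : Cl (O (nat_lit 1)) (R (nat_lit 14353))
    (p (nat_lit 0x3cc2a) (nat_lit 10) (p (nat_lit 0x109) (nat_lit 1) (p (nat_lit 0x81) (nat_lit 0) (p (nat_lit 0xc1) (nat_lit 1) (p (nat_lit 0x119) (nat_lit 1) (p (nat_lit 0xd1) (nat_lit 0) (p (nat_lit 0x89) (nat_lit 0) (p (nat_lit 0x41) (nat_lit 0) (p (nat_lit 0x8090887069a) (nat_lit 0) (p (nat_lit 0x7870806861a) (nat_lit 0) (p (nat_lit 0x800070786058a) (nat_lit 0) (p (nat_lit 0x787058502) (nat_lit 0) (p (nat_lit 0x586850482) (nat_lit 0) (p (nat_lit 0x160014) (nat_lit 0) (p (nat_lit 0x16000c) (nat_lit 0) (p (nat_lit 0x68612) (nat_lit 0) (p (nat_lit 0x50592) (nat_lit 0) (p (nat_lit 0x40512) (nat_lit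 0) (p (nat_lit 0x50312) (nat_lit 0) (p (nat_lit 0x38292) (nat_lit 0) (p (nat_lit 0x28212) (nat_lit 0) (p (nat_lit 0x38112) (nat_lit 0) (p (nat_lit 0x20092) (nat_lit 0) (p (nat_lit 0x10012) (nat_lit 0) pn)))))))))))))))))))))))) :=
  Cl.node (nat_lit 0x380c2) (nat_lit 2) (by decide +kernel) (ClAll.succ (ClAll.succ ClAll.zero s224) n291)

def n351 : Cl (O (nat_lit 1)) (R (nat_lit 14353))
    (p (nat_lit 0x3cc2a) (nat_lit 11) (p (nat_lit 0x109) (nat_lit 1) (p (nat_lit 0x81) (nat_lit 0) (p (nat_lit 0xc1) (nat_lit 1) (p (nat_lit 0x119) (nat_lit 1) (p (nat_lit 0xd1) (nat_lit 0) (p (nat_lit 0x89) (nat_lit 0) (p (nat_lit 0x41) (nat_lit 0) (p (nat_lit 0x8090887069a) (nat_lit 0) (p (nat_lit 0x7870806861a) (nat_lit 0) (p (nat_lit 0x800070786058a) (nat_lit 0) (p (nat_lit 0x787058502) (nat_lit 0) (p (nat_lit 0x586850482) (nat_lit 0) (p (nat_lit 0x160014) (nat_lit 0) (p (nat_lit 0x16000c)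 (nat_lit 0) (p (nat_lit 0x68612) (nat_lit 0) (p (nat_lit 0x50592) (nat_lit 0) (p (nat_lit 0x40512) (nat_lit 0) (p (nat_lit 0x50312) (nat_lit 0) (p (nat_lit 0x38292) (nat_lit 0) (p (nat_lit 0x28212) (nat_lit 0) (p (nat_lit 0x38112) (nat_lit 0) (p (nat_lit 0x20092) (nat_lit 0) (p (nat_lit 0x10012) (nat_lit 0) pn)))))))))))))))))))))))) :=
  Cl.node (nat_lit 0x380c2) (nat_lit 2) (by decide +kernel) (ClAll.succ (ClAll.succ ClAll.zero n292) s242)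

def n352 : Cl (O (nat_lit 1)) (R (nat_lit 14353))
    (p (nat_lit 0x109) (nat_lit 0) (p (nat_lit 0x101) (nat_lit 0) (p (nat_lit 0x81) (nat_lit 1) (p (nat_lit 0xc1) (nat_lit 1) (p (nat_lit 0x119) (nat_lit 1) (p (nat_lit 0xd1) (nat_lit 0) (p (nat_lit 0x89) (nat_lit 0) (p (nat_lit 0x41) (nat_lit 0) (p (nat_lit 0x8090887069a) (nat_lit 0) (p (nat_lit 0x7870806861a) (nat_lit 0) (p (nat_lit 0x800070786058a) (nat_lit 0) (p (nat_lit 0x787058502) (nat_lit 0) (p (nat_lit 0x586850482) (nat_lit 0) (p (nat_lit 0x160014) (nat_lit 0) (p (nat_lit 0x16000c) (nat_lit 0) (p (nat_lit 0x68612) (nat_lit 0) (p (nat_lit 0x50592) (nat_lit 0) (p (nat_lit 0x40512) (nat_lit 0) (p (nat_lit 0x50312) (nat_lit 0) (p (nat_lit 0x38292) (nat_lit 0) (p (nat_lit 0x28212) (nat_lit 0) (p (nat_lit 0x38112) (nat_lit 0) (p (nat_lit 0x20092) (nat_lit 0) (p (nat_lit 0x10012) (nat_lit 0) pn))))))))))))))))))))))))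 :=
  Cl.node (nat_lit 0x44c2a) (nat_lit 12) (by decide +kernel) (ClAll.succ (ClAll.succ (ClAll.succ (ClAll.succ (ClAll.succ (ClAll.succ (ClAll.succ (ClAll.succ (ClAll.succ (ClAll.succ (ClAll.succ (ClAll.succ ClAll.zero n293) n294) s266) s267) s268) s269) s270) s271) s272) s273) s274) s275)

def n353 : Cl (O (nat_lit 1)) (R (nat_lit 14353))
    (p (nat_lit 0x109) (nat_lit 1) (p (nat_lit 0x101) (nat_lit 0) (p (nat_lit 0x81) (nat_lit 1) (p (nat_lit 0xc1) (nat_lit 1) (p (nat_lit 0x119) (nat_lit 1) (p (nat_lit 0xd1) (nat_lit 0) (p (nat_lit 0x89) (nat_lit 0) (p (nat_lit 0x41) (nat_lit 0) (p (nat_lit 0x8090887069a) (nat_lit 0) (p (nat_lit 0x7870806861a) (nat_lit 0) (p (nat_lit 0x800070786058a) (nat_lit 0) (p (nat_lit 0x787058502) (nat_lit 0) (p (nat_lit 0x586850482) (nat_lit 0) (p (nat_lit 0x160014) (nat_lit 0) (p (nat_lit 0x16000c) (nat_lit 0) (p (nat_lit 0x68612) (nat_lit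 0) (p (nat_lit 0x50592) (nat_lit 0) (p (nat_lit 0x40512) (nat_lit 0) (p (nat_lit 0x50312) (nat_lit 0) (p (nat_lit 0x38292) (nat_lit 0) (p (nat_lit 0x28212) (nat_lit 0) (p (nat_lit 0x38112) (nat_lit 0) (p (nat_lit 0x20092) (nat_lit 0) (p (nat_lit 0x10012) (nat_lit 0) pn)))))))))))))))))))))))) :=
  Cl.node (nat_lit 0x444aa) (nat_lit 12) (by decide +kernel) (ClAll.succ (ClAll.succ (ClAll.succ (ClAll.succ (ClAll.succ (ClAll.succ (ClAll.succ (ClAll.succ (ClAll.succ (ClAll.succ (ClAll.succ (ClAll.succ ClAll.zero s276) s277) s278) s279) s280) s281) s282) n295) n296) s303) s304) s305)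

def n354 : Cl (O (nat_lit 1)) (R (nat_lit 14353))
    (p (nat_lit 0x444aa) (nat_lit 8) (p (nat_lit 0x101) (nat_lit 1) (p (nat_lit 0x81) (nat_lit 1) (p (nat_lit 0xc1) (nat_lit 1) (p (nat_lit 0x119) (nat_lit 1) (p (nat_lit 0xd1) (nat_lit 0) (p (nat_lit 0x89) (nat_lit 0) (p (nat_lit 0x41) (nat_lit 0) (p (nat_lit 0x8090887069a) (nat_lit 0) (p (nat_lit 0x7870806861a) (nat_lit 0) (p (nat_lit 0x800070786058a) (nat_lit 0) (p (nat_lit 0x787058502) (nat_lit 0) (p (nat_lit 0x586850482) (nat_lit 0) (p (nat_lit 0x160014) (nat_lit 0) (p (nat_lit 0x16000c) (nat_lit 0) (p (nat_lit 0x68612) (nat_lit 0) (p (nat_lit 0x50592) (nat_lit 0) (p (nat_lit 0x40512) (nat_lit 0) (p (nat_lit 0x50312) (nat_lit 0) (p (nat_lit 0x38292) (nat_lit 0) (p (nat_lit 0x28212) (nat_lit 0) (p (nat_lit 0x38112) (nat_lit 0) (p (nat_lit 0x20092) (nat_lit 0) (p (nat_lit 0x10012) (nat_lit 0) pn))))))))))))))))))))))))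 :=
  Cl.node (nat_lit 0x380c2) (nat_lit 2) (by decide +kernel) (ClAll.succ (ClAll.succ ClAll.zero s314) s315)

def n355 : Cl (O (nat_lit 1)) (R (nat_lit 14353))
    (p (nat_lit 0x200004) (nat_lit 0) (p (nat_lit 0xc1) (nat_lit 1) (p (nat_lit 0x109) (nat_lit 1) (p (nat_lit 0x101) (nat_lit 0) (p (nat_lit 0x111) (nat_lit 0) (p (nat_lit 0xd1) (nat_lit 1) (p (nat_lit 0x89) (nat_lit 0) (p (nat_lit 0x41) (nat_lit 0) (p (nat_lit 0x8090887069a) (nat_lit 0) (p (nat_lit 0x7870806861a) (nat_lit 0) (p (nat_lit 0x800070786058a) (nat_lit 0) (p (nat_lit 0x787058502) (nat_lit 0) (p (nat_lit 0x586850482) (nat_lit 0) (p (nat_lit 0x160014) (nat_lit 0) (p (nat_lit 0x16000c) (nat_lit 0) (p (nat_lit 0x68612) (nat_lit 0) (p (nat_lit 0x50592) (nat_lit 0) (p (nat_lit 0x40512) (nat_lit 0) (p (nat_lit 0x50312) (nat_lit 0) (p (nat_lit 0x38292) (nat_lit 0) (p (nat_lit 0x28212) (nat_lit 0) (p (nat_lit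 0x38112) (nat_lit 0) (p (nat_lit 0x20092) (nat_lit 0) (p (nat_lit 0x10012) (nat_lit 0) pn)))))))))))))))))))))))) :=
  Cl.node (nat_lit 0x41) (nat_lit 2) (by decide +kernel) (ClAll.succ (ClAll.succ ClAll.zero n297) s333)

def n356 : Cl (O (nat_lit 1)) (R (nat_lit 14353))
    (p (nat_lit 0x200004) (nat_lit 0) (p (nat_lit 0x119) (nat_lit 0) (p (nat_lit 0x81) (nat_lit 0) (p (nat_lit 0x101) (nat_lit 1) (p (nat_lit 0x111) (nat_lit 0) (p (nat_lit 0xd1) (nat_lit 1) (p (nat_lit 0x89) (nat_lit 0) (p (nat_lit 0x41) (nat_lit 0) (p (nat_lit 0x8090887069a) (nat_lit 0) (p (nat_lit 0x7870806861a) (nat_lit 0) (p (nat_lit 0x800070786058a) (nat_lit 0) (p (nat_lit 0x787058502) (nat_lit 0) (p (nat_lit 0x586850482) (nat_lit 0) (p (nat_lit 0x160014) (nat_lit 0) (p (nat_lit 0x16000c) (nat_lit 0) (p (nat_lit 0x68612) (nat_lit 0) (p (nat_lit 0x50592) (nat_lit 0) (p (nat_lit 0x40512) (nat_lit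 0) (p (nat_lit 0x50312) (nat_lit 0) (p (nat_lit 0x38292) (nat_lit 0) (p (nat_lit 0x28212) (nat_lit 0) (p (nat_lit 0x38112) (nat_lit 0) (p (nat_lit 0x20092) (nat_lit 0) (p (nat_lit 0x10012) (nat_lit 0) pn)))))))))))))))))))))))) :=
  Cl.node (nat_lit 0x109) (nat_lit 2) (by decide +kernel) (ClAll.succ (ClAll.succ ClAll.zero n298) n299)

def n357 : Cl (O (nat_lit 1)) (R (nat_lit 14353))
    (p (nat_lit 0x119) (nat_lit 0) (p (nat_lit 0xc1) (nat_lit 0) (p (nat_lit 0x81) (nat_lit 1) (p (nat_lit 0x101) (nat_lit 1) (p (nat_lit 0x111) (nat_lit 0) (p (nat_lit 0xd1) (nat_lit 1) (p (nat_lit 0x89) (nat_lit 0) (p (nat_lit 0x41) (nat_lit 0) (p (nat_lit 0x8090887069a) (nat_lit 0) (p (nat_lit 0x7870806861a) (nat_lit 0) (p (nat_lit 0x800070786058a) (nat_lit 0) (p (nat_lit 0x787058502) (nat_lit 0) (p (nat_lit 0x586850482) (nat_lit 0) (p (nat_lit 0x160014) (nat_lit 0) (p (nat_lit 0x16000c)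 (nat_lit 0) (p (nat_lit 0x68612) (nat_lit 0) (p (nat_lit 0x50592) (nat_lit 0) (p (nat_lit 0x40512) (nat_lit 0) (p (nat_lit 0x50312) (nat_lit 0) (p (nat_lit 0x38292) (nat_lit 0) (p (nat_lit 0x28212) (nat_lit 0) (p (nat_lit 0x38112) (nat_lit 0) (p (nat_lit 0x20092) (nat_lit 0) (p (nat_lit 0x10012) (nat_lit 0) pn)))))))))))))))))))))))) :=
  Cl.node (nat_lit 0x444aa) (nat_lit 12) (by decide +kernel) (ClAll.succ (ClAll.succ (ClAll.succ (ClAll.succ (ClAll.succ (ClAll.succ (ClAll.succ (ClAll.succ (ClAll.succ (ClAll.succ (ClAll.succ (ClAll.succ ClAll.zero s365) s366) s367) s368) s369) s370) s371) n300) n301) s379) s380) s381)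

def n358 : Cl (O (nat_lit 1)) (R (nat_lit 14353))
    (p (nat_lit 0x119) (nat_lit 1) (p (nat_lit 0xc1) (nat_lit 0) (p (nat_lit 0x81) (nat_lit 1) (p (nat_lit 0x101) (nat_lit 1) (p (nat_lit 0x111) (nat_lit 0) (p (nat_lit 0xd1) (nat_lit 1) (p (nat_lit 0x89) (nat_lit 0) (p (nat_lit 0x41) (nat_lit 0) (p (nat_lit 0x8090887069a) (nat_lit 0) (p (nat_lit 0x7870806861a) (nat_lit 0) (p (nat_lit 0x800070786058a) (nat_lit 0) (p (nat_lit 0x787058502) (nat_lit 0) (p (nat_lit 0x586850482) (nat_lit 0) (p (nat_lit 0x160014) (nat_lit 0) (p (nat_lit 0x16000c) (nat_lit 0) (p (nat_lit 0x68612) (nat_lit 0) (p (nat_lit 0x50592) (nat_lit 0) (p (nat_lit 0x40512) (nat_lit 0) (p (nat_lit 0x50312) (nat_lit 0) (p (nat_lit 0x38292) (nat_lit 0) (p (nat_lit 0x28212) (nat_lit 0) (p (nat_lit 0x38112) (nat_lit 0) (p (nat_lit 0x20092) (nat_lit 0) (p (nat_lit 0x10012) (nat_lit 0) pn))))))))))))))))))))))))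 :=
  Cl.node (nat_lit 0x3cc2a) (nat_lit 12) (by decide +kernel) (ClAll.succ (ClAll.succ (ClAll.succ (ClAll.succ (ClAll.succ (ClAll.succ (ClAll.succ (ClAll.succ (ClAll.succ (ClAll.succ (ClAll.succ (ClAll.succ ClAll.zero s382) s383) s384) s385) s386) s387) s388) s389) s390) s391) s392) s393)

def n359 : Cl (O (nat_lit 1)) (R (nat_lit 14353))
    (p (nat_lit 0xd1) (nat_lit 1) (p (nat_lit 0x111) (nat_lit 1) (p (nat_lit 0x109) (nat_lit 0) (p (nat_lit 0x101) (nat_lit 0) (p (nat_lit 0x119) (nat_lit 0) (p (nat_lit 0xc9) (nat_lit 0) (p (nat_lit 0x89) (nat_lit 1) (p (nat_lit 0x41) (nat_lit 0) (p (nat_lit 0x8090887069a) (nat_lit 0) (p (nat_lit 0x7870806861a) (nat_lit 0) (p (nat_lit 0x800070786058a) (nat_lit 0) (p (nat_lit 0x787058502) (nat_lit 0) (p (nat_lit 0x586850482) (nat_lit 0) (p (nat_lit 0x160014) (nat_lit 0) (p (nat_lit 0x16000c) (nat_lit 0) (p (nat_lit 0x68612) (nat_lit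 0) (p (nat_lit 0x50592) (nat_lit 0) (p (nat_lit 0x40512) (nat_lit 0) (p (nat_lit 0x50312) (nat_lit 0) (p (nat_lit 0x38292) (nat_lit 0) (p (nat_lit 0x28212) (nat_lit 0) (p (nat_lit 0x38112) (nat_lit 0) (p (nat_lit 0x20092) (nat_lit 0) (p (nat_lit 0x10012) (nat_lit 0) pn)))))))))))))))))))))))) :=
  Cl.node (nat_lit 0x444aa) (nat_lit 12) (by decide +kernel) (ClAll.succ (ClAll.succ (ClAll.succ (ClAll.succ (ClAll.succ (ClAll.succ (ClAll.succ (ClAll.succ (ClAll.succ (ClAll.succ (ClAll.succ (ClAll.succ ClAll.zero s423) s424) s425) s426) s427) s428) s429) n302) s442) s443) s444) s445)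

def n360 : Cl (O (nat_lit 1)) (R (nat_lit 14353))
    (p (nat_lit 0x200004) (nat_lit 0) (p (nat_lit 0xd1) (nat_lit 0) (p (nat_lit 0x109) (nat_lit 1) (p (nat_lit 0x101) (nat_lit 0) (p (nat_lit 0x119) (nat_lit 0) (p (nat_lit 0xc9) (nat_lit 0) (p (nat_lit 0x89) (nat_lit 1) (p (nat_lit 0x41) (nat_lit 0) (p (nat_lit 0x8090887069a) (nat_lit 0) (p (nat_lit 0x7870806861a) (nat_lit 0) (p (nat_lit 0x800070786058a) (nat_lit 0) (p (nat_lit 0x787058502) (nat_lit 0) (p (nat_lit 0x586850482) (nat_lit 0) (p (nat_lit 0x160014) (nat_lit 0) (p (nat_lit 0x16000c) (nat_lit 0) (p (nat_lit 0x68612) (nat_lit 0) (p (nat_lit 0x50592) (nat_lit 0) (p (nat_lit 0x40512) (nat_lit 0) (p (nat_lit 0x50312) (nat_lit 0) (p (nat_lit 0x38292) (nat_lit 0) (p (nat_lit 0x28212) (nat_lit 0) (p (nat_lit 0x38112) (nat_lit 0) (p (nat_lit 0x20092) (nat_lit 0) (p (nat_lit 0x10012) (nat_lit 0) pn))))))))))))))))))))))))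 :=
  Cl.node (nat_lit 0x41) (nat_lit 2) (by decide +kernel) (ClAll.succ (ClAll.succ ClAll.zero n303) s460)

def n361 : Cl (O (nat_lit 1)) (R (nat_lit 14353))
    (p (nat_lit 0x444aa) (nat_lit 7) (p (nat_lit 0xd1) (nat_lit 1) (p (nat_lit 0x109) (nat_lit 1) (p (nat_lit 0x101) (nat_lit 0) (p (nat_lit 0x119) (nat_lit 0) (p (nat_lit 0xc9) (nat_lit 0) (p (nat_lit 0x89) (nat_lit 1) (p (nat_lit 0x41) (nat_lit 0) (p (nat_lit 0x8090887069a) (nat_lit 0) (p (nat_lit 0x7870806861a) (nat_lit 0) (p (nat_lit 0x800070786058a) (nat_lit 0) (p (nat_lit 0x787058502) (nat_lit 0) (p (nat_lit 0x586850482) (nat_lit 0) (p (nat_lit 0x160014) (nat_lit 0) (p (nat_lit 0x16000c) (nat_lit 0) (p (nat_lit 0x68612) (nat_lit 0) (p (nat_lit 0x50592) (nat_lit 0) (p (nat_lit 0x40512) (nat_lit 0) (p (nat_lit 0x50312) (nat_lit 0) (p (nat_lit 0x38292) (nat_lit 0) (p (nat_lit 0x28212) (nat_lit 0) (p (nat_lit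 0x38112) (nat_lit 0) (p (nat_lit 0x20092) (nat_lit 0) (p (nat_lit 0x10012) (nat_lit 0) pn)))))))))))))))))))))))) :=
  Cl.node (nat_lit 0x380c2) (nat_lit 2) (by decide +kernel) (ClAll.succ (ClAll.succ ClAll.zero n304) n305)

def n362 : Cl (O (nat_lit 1)) (R (nat_lit 14353))
    (p (nat_lit 0x200004) (nat_lit 0) (p (nat_lit 0xd1) (nat_lit 0) (p (nat_lit 0xc1) (nat_lit 0) (p (nat_lit 0x101) (nat_lit 1) (p (nat_lit 0x119) (nat_lit 0) (p (nat_lit 0xc9) (nat_lit 0) (p (nat_lit 0x89) (nat_lit 1) (p (nat_lit 0x41) (nat_lit 0) (p (nat_lit 0x8090887069a) (nat_lit 0) (p (nat_lit 0x7870806861a) (nat_lit 0) (p (nat_lit 0x800070786058a) (nat_lit 0) (p (nat_lit 0x787058502) (nat_lit 0) (p (nat_lit 0x586850482) (nat_lit 0) (p (nat_lit 0x160014) (nat_lit 0) (p (nat_lit 0x16000c) (nat_lit 0) (p (nat_lit 0x68612) (nat_lit 0) (p (nat_lit 0x50592) (nat_lit 0) (p (nat_lit 0x40512) (nat_lit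 0) (p (nat_lit 0x50312) (nat_lit 0) (p (nat_lit 0x38292) (nat_lit 0) (p (nat_lit 0x28212) (nat_lit 0) (p (nat_lit 0x38112) (nat_lit 0) (p (nat_lit 0x20092) (nat_lit 0) (p (nat_lit 0x10012) (nat_lit 0) pn)))))))))))))))))))))))) :=
  Cl.node (nat_lit 0x109) (nat_lit 2) (by decide +kernel) (ClAll.succ (ClAll.succ ClAll.zero s538) n306)

def n363 : Cl (O (nat_lit 1)) (R (nat_lit 14353))
    (p (nat_lit 0x444aa) (nat_lit 7) (p (nat_lit 0xd1) (nat_lit 1) (p (nat_lit 0xc1) (nat_lit 0) (p (nat_lit 0x101) (nat_lit 1) (p (nat_lit 0x119) (nat_lit 0) (p (nat_lit 0xc9) (nat_lit 0) (p (nat_lit 0x89) (nat_lit 1) (p (nat_lit 0x41) (nat_lit 0) (p (nat_lit 0x8090887069a) (nat_lit 0) (p (nat_lit 0x7870806861a) (nat_lit 0) (p (nat_lit 0x800070786058a) (nat_lit 0) (p (nat_lit 0x787058502) (nat_lit 0) (p (nat_lit 0x586850482) (nat_lit 0) (p (nat_lit 0x160014) (nat_lit 0) (p (nat_lit 0x16000c)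 (nat_lit 0) (p (nat_lit 0x68612) (nat_lit 0) (p (nat_lit 0x50592) (nat_lit 0) (p (nat_lit 0x40512) (nat_lit 0) (p (nat_lit 0x50312) (nat_lit 0) (p (nat_lit 0x38292) (nat_lit 0) (p (nat_lit 0x28212) (nat_lit 0) (p (nat_lit 0x38112) (nat_lit 0) (p (nat_lit 0x20092) (nat_lit 0) (p (nat_lit 0x10012) (nat_lit 0) pn)))))))))))))))))))))))) :=
  Cl.node (nat_lit 0x380c2) (nat_lit 2) (by decide +kernel) (ClAll.succ (ClAll.succ ClAll.zero s563) n307)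

def n364 : Cl (O (nat_lit 1)) (R (nat_lit 14353))
    (p (nat_lit 0x444aa) (nat_lit 7) (p (nat_lit 0x111) (nat_lit 1) (p (nat_lit 0xd1) (nat_lit 1) (p (nat_lit 0xc1) (nat_lit 0) (p (nat_lit 0x119) (nat_lit 1) (p (nat_lit 0xc9) (nat_lit 0) (p (nat_lit 0x89) (nat_lit 1) (p (nat_lit 0x41) (nat_lit 0) (p (nat_lit 0x8090887069a) (nat_lit 0) (p (nat_lit 0x7870806861a) (nat_lit 0) (p (nat_lit 0x800070786058a) (nat_lit 0) (p (nat_lit 0x787058502) (nat_lit 0) (p (nat_lit 0x586850482) (nat_lit 0) (p (nat_lit 0x160014) (nat_lit 0) (p (nat_lit 0x16000c) (nat_lit 0) (p (nat_lit 0x68612) (nat_lit 0) (p (nat_lit 0x50592) (nat_lit 0) (p (nat_lit 0x40512) (nat_lit 0) (p (nat_lit 0x50312) (nat_lit 0) (p (nat_lit 0x38292) (nat_lit 0) (p (nat_lit 0x28212) (nat_lit 0) (p (nat_lit 0x38112) (nat_lit 0) (p (nat_lit 0x20092) (nat_lit 0) (p (nat_lit 0x10012) (nat_lit 0) pn))))))))))))))))))))))))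 :=
  Cl.node (nat_lit 0x380c2) (nat_lit 2) (by decide +kernel) (ClAll.succ (ClAll.succ ClAll.zero n308) n309)

def n365 : Cl (O (nat_lit 1)) (R (nat_lit 14353))
    (p (nat_lit 0x44c2a) (nat_lit 0) (p (nat_lit 0x111) (nat_lit 0) (p (nat_lit 0x101) (nat_lit 0) (p (nat_lit 0xc1) (nat_lit 1) (p (nat_lit 0x119) (nat_lit 1) (p (nat_lit 0xc9) (nat_lit 0) (p (nat_lit 0x89) (nat_lit 1) (p (nat_lit 0x41) (nat_lit 0) (p (nat_lit 0x8090887069a) (nat_lit 0) (p (nat_lit 0x7870806861a) (nat_lit 0) (p (nat_lit 0x800070786058a) (nat_lit 0) (p (nat_lit 0x787058502) (nat_lit 0) (p (nat_lit 0x586850482) (nat_lit 0) (p (nat_lit 0x160014) (nat_lit 0) (p (nat_lit 0x16000c) (nat_lit 0) (p (nat_lit 0x68612) (nat_lit 0) (p (nat_lit 0x50592) (nat_lit 0) (p (nat_lit 0x40512) (nat_lit 0) (p (nat_lit 0x50312) (nat_lit 0) (p (nat_lit 0x38292) (nat_lit 0) (p (nat_lit 0x28212) (nat_lit 0) (p (nat_lit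 0x38112) (nat_lit 0) (p (nat_lit 0x20092) (nat_lit 0) (p (nat_lit 0x10012) (nat_lit 0) pn)))))))))))))))))))))))) :=
  Cl.node (nat_lit 0x380c2) (nat_lit 2) (by decide +kernel) (ClAll.succ (ClAll.succ ClAll.zero n310) s624)

def n366 : Cl (O (nat_lit 1)) (R (nat_lit 14353))
    (p (nat_lit 0x44c2a) (nat_lit 1) (p (nat_lit 0x111) (nat_lit 0) (p (nat_lit 0x101) (nat_lit 0) (p (nat_lit 0xc1) (nat_lit 1) (p (nat_lit 0x119) (nat_lit 1) (p (nat_lit 0xc9) (nat_lit 0) (p (nat_lit 0x89) (nat_lit 1) (p (nat_lit 0x41) (nat_lit 0) (p (nat_lit 0x8090887069a) (nat_lit 0) (p (nat_lit 0x7870806861a) (nat_lit 0) (p (nat_lit 0x800070786058a) (nat_lit 0) (p (nat_lit 0x787058502) (nat_lit 0) (p (nat_lit 0x586850482) (nat_lit 0) (p (nat_lit 0x160014) (nat_lit 0) (p (nat_lit 0x16000c) (nat_lit 0) (p (nat_lit 0x68612) (nat_lit 0) (p (nat_lit 0x50592) (nat_lit 0) (p (nat_lit 0x40512) (nat_lit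 0) (p (nat_lit 0x50312) (nat_lit 0) (p (nat_lit 0x38292) (nat_lit 0) (p (nat_lit 0x28212) (nat_lit 0) (p (nat_lit 0x38112) (nat_lit 0) (p (nat_lit 0x20092) (nat_lit 0) (p (nat_lit 0x10012) (nat_lit 0) pn)))))))))))))))))))))))) :=
  Cl.node (nat_lit 0x380c2) (nat_lit 1) (by decide +kernel) (ClAll.succ ClAll.zero n311)

def n367 : Cl (O (nat_lit 1)) (R (nat_lit 14353))
    (p (nat_lit 0x444aa) (nat_lit 7) (p (nat_lit 0x111) (nat_lit 1) (p (nat_lit 0x101) (nat_lit 0) (p (nat_lit 0xc1) (nat_lit 1) (p (nat_lit 0x119) (nat_lit 1) (p (nat_lit 0xc9) (nat_lit 0) (p (nat_lit 0x89) (nat_lit 1) (p (nat_lit 0x41) (nat_lit 0) (p (nat_lit 0x8090887069a) (nat_lit 0) (p (nat_lit 0x7870806861a) (nat_lit 0) (p (nat_lit 0x800070786058a) (nat_lit 0) (p (nat_lit 0x787058502) (nat_lit 0) (p (nat_lit 0x586850482) (nat_lit 0) (p (nat_lit 0x160014) (nat_lit 0) (p (nat_lit 0x16000c) (nat_lit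 0) (p (nat_lit 0x68612) (nat_lit 0) (p (nat_lit 0x50592) (nat_lit 0) (p (nat_lit 0x40512) (nat_lit 0) (p (nat_lit 0x50312) (nat_lit 0) (p (nat_lit 0x38292) (nat_lit 0) (p (nat_lit 0x28212) (nat_lit 0) (p (nat_lit 0x38112) (nat_lit 0) (p (nat_lit 0x20092) (nat_lit 0) (p (nat_lit 0x10012) (nat_lit 0) pn)))))))))))))))))))))))) :=
  Cl.node (nat_lit 0x380c2) (nat_lit 2) (by decide +kernel) (ClAll.succ (ClAll.succ ClAll.zero s646) n312)

def n368 : Cl (O (nat_lit 1)) (R (nat_lit 14353))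
    (p (nat_lit 0x111) (nat_lit 0) (p (nat_lit 0x89) (nat_lit 0) (p (nat_lit 0x109) (nat_lit 1) (p (nat_lit 0x101) (nat_lit 0) (p (nat_lit 0x119) (nat_lit 0) (p (nat_lit 0xd1) (nat_lit 0) (p (nat_lit 0x81) (nat_lit 0) (p (nat_lit 0x41) (nat_lit 1) (p (nat_lit 0x8090887069a) (nat_lit 0) (p (nat_lit 0x7870806861a) (nat_lit 0) (p (nat_lit 0x800070786058a) (nat_lit 0) (p (nat_lit 0x787058502) (nat_lit 0) (p (nat_lit 0x586850482) (nat_lit 0) (p (nat_lit 0x160014) (nat_lit 0) (p (nat_lit 0x16000c) (nat_lit 0) (p (nat_lit 0x68612) (nat_lit 0) (p (nat_lit 0x50592) (nat_lit 0) (p (nat_lit 0x40512) (nat_lit 0) (p (nat_lit 0x50312) (nat_lit 0) (p (nat_lit 0x38292) (nat_lit 0) (p (nat_lit 0x28212) (nat_lit 0) (p (nat_lit 0x38112) (nat_lit 0) (p (nat_lit 0x20092) (nat_lit 0) (p (nat_lit 0x10012) (nat_lit 0) pn)))))))))))))))))))))))) :=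
  Cl.node (nat_lit 0x4c42a) (nat_lit 12) (by decide +kernel) (ClAll.succ (ClAll.succ (ClAll.succ (ClAll.succ (ClAll.succ (ClAll.succ (ClAll.succ (ClAll.succ (ClAll.succ (ClAll.succ (ClAll.succ (ClAll.succ ClAll.zero s685) s686) n313) s701) s702) s703) s704) s705) n314) s716) s717) s718)

def n369 : Cl (O (nat_lit 1)) (R (nat_lit 14353))
    (p (nat_lit 0x111) (nat_lit 1) (p (nat_lit 0x89) (nat_lit 0) (p (nat_lit 0x109) (nat_lit 1) (p (nat_lit 0x101) (nat_lit 0) (p (nat_lit 0x119) (nat_lit 0) (p (nat_lit 0xd1) (nat_lit 0) (p (nat_lit 0x81) (nat_lit 0) (p (nat_lit 0x41) (nat_lit 1) (p (nat_lit 0x8090887069a) (nat_lit 0) (p (nat_lit 0x7870806861a) (nat_lit 0) (p (nat_lit 0x800070786058a) (nat_lit 0) (p (nat_lit 0x787058502) (nat_lit 0) (p (nat_lit 0x586850482) (nat_lit 0) (p (nat_lit 0x160014) (nat_lit 0) (p (nat_lit 0x16000c) (nat_lit 0) (p (nat_lit 0x68612) (nat_lit 0)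 (p (nat_lit 0x50592) (nat_lit 0) (p (nat_lit 0x40512) (nat_lit 0) (p (nat_lit 0x50312) (nat_lit 0) (p (nat_lit 0x38292) (nat_lit 0) (p (nat_lit 0x28212) (nat_lit 0) (p (nat_lit 0x38112) (nat_lit 0) (p (nat_lit 0x20092) (nat_lit 0) (p (nat_lit 0x10012) (nat_lit 0) pn)))))))))))))))))))))))) :=
  Cl.node (nat_lit 0x3cc2a) (nat_lit 12) (by decide +kernel) (ClAll.succ (ClAll.succ (ClAll.succ (ClAll.succ (ClAll.succ (ClAll.succ (ClAll.succ (ClAll.succ (ClAll.succ (ClAll.succ (ClAll.succ (ClAll.succ ClAll.zero s719) s720) s721) s722) s723) s724) s725) s726) s727) s728) s729) n315)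

def n370 : Cl (O (nat_lit 1)) (R (nat_lit 14353))
    (p (nat_lit 0xc9) (nat_lit 0) (p (nat_lit 0x89) (nat_lit 1) (p (nat_lit 0x109) (nat_lit 1) (p (nat_lit 0x101) (nat_lit 0) (p (nat_lit 0x119) (nat_lit 0) (p (nat_lit 0xd1) (nat_lit 0) (p (nat_lit 0x81) (nat_lit 0) (p (nat_lit 0x41) (nat_lit 1) (p (nat_lit 0x8090887069a) (nat_lit 0) (p (nat_lit 0x7870806861a) (nat_lit 0) (p (nat_lit 0x800070786058a) (nat_lit 0) (p (nat_lit 0x787058502) (nat_lit 0) (p (nat_lit 0x586850482) (nat_lit 0) (p (nat_lit 0x160014) (nat_lit 0) (p (nat_lit 0x16000c) (nat_lit 0) (p (nat_lit 0x68612) (nat_lit 0) (p (nat_lit 0x50592) (nat_lit 0) (p (nat_lit 0x40512) (nat_lit 0) (p (nat_lit 0x50312) (nat_lit 0) (p (nat_lit 0x38292) (nat_lit 0) (p (nat_lit 0x28212) (nat_lit 0) (p (nat_lit 0x38112) (nat_lit 0) (p (nat_lit 0x20092) (nat_lit 0) (p (nat_lit 0x10012) (nat_lit 0) pn))))))))))))))))))))))))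 :=
  Cl.node (nat_lit 0x4c42a) (nat_lit 12) (by decide +kernel) (ClAll.succ (ClAll.succ (ClAll.succ (ClAll.succ (ClAll.succ (ClAll.succ (ClAll.succ (ClAll.succ (ClAll.succ (ClAll.succ (ClAll.succ (ClAll.succ ClAll.zero s746) s747) n316) s752) s753) s754) s755) s756) n317) s772) s773) s774)

def n371 : Cl (O (nat_lit 1)) (R (nat_lit 14353))
    (p (nat_lit 0x3cc2a) (nat_lit 11) (p (nat_lit 0x89) (nat_lit 0) (p (nat_lit 0xc1) (nat_lit 0) (p (nat_lit 0x101) (nat_lit 1) (p (nat_lit 0x119) (nat_lit 0) (p (nat_lit 0xd1) (nat_lit 0) (p (nat_lit 0x81) (nat_lit 0) (p (nat_lit 0x41) (nat_lit 1) (p (nat_lit 0x8090887069a) (nat_lit 0) (p (nat_lit 0x7870806861a) (nat_lit 0) (p (nat_lit 0x800070786058a) (nat_lit 0) (p (nat_lit 0x787058502) (nat_lit 0) (p (nat_lit 0x586850482) (nat_lit 0) (p (nat_lit 0x160014) (nat_lit 0) (p (nat_lit 0x16000c) (nat_lit 0) (p (nat_lit 0x68612) (nat_lit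 0) (p (nat_lit 0x50592) (nat_lit 0) (p (nat_lit 0x40512) (nat_lit 0) (p (nat_lit 0x50312) (nat_lit 0) (p (nat_lit 0x38292) (nat_lit 0) (p (nat_lit 0x28212) (nat_lit 0) (p (nat_lit 0x38112) (nat_lit 0) (p (nat_lit 0x20092) (nat_lit 0) (p (nat_lit 0x10012) (nat_lit 0) pn)))))))))))))))))))))))) :=
  Cl.node (nat_lit 0x380c2) (nat_lit 2) (by decide +kernel) (ClAll.succ (ClAll.succ ClAll.zero n318) s801)

def n372 : Cl (O (nat_lit 1)) (R (nat_lit 14353))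
    (p (nat_lit 0xc9) (nat_lit 0) (p (nat_lit 0x89) (nat_lit 1) (p (nat_lit 0xc1) (nat_lit 0) (p (nat_lit 0x101) (nat_lit 1) (p (nat_lit 0x119) (nat_lit 0) (p (nat_lit 0xd1) (nat_lit 0) (p (nat_lit 0x81) (nat_lit 0) (p (nat_lit 0x41) (nat_lit 1) (p (nat_lit 0x8090887069a) (nat_lit 0) (p (nat_lit 0x7870806861a) (nat_lit 0) (p (nat_lit 0x800070786058a) (nat_lit 0) (p (nat_lit 0x787058502) (nat_lit 0) (p (nat_lit 0x586850482) (nat_lit 0) (p (nat_lit 0x160014) (nat_lit 0) (p (nat_lit 0x16000c) (nat_lit 0) (p (nat_lit 0x68612) (nat_lit 0) (p (nat_lit 0x50592) (nat_lit 0) (p (nat_lit 0x40512) (nat_lit 0) (p (nat_lit 0x50312) (nat_lit 0) (p (nat_lit 0x38292) (nat_lit 0) (p (nat_lit 0x28212) (nat_lit 0) (p (nat_lit 0x38112) (nat_lit 0) (p (nat_lit 0x20092) (nat_lit 0) (p (nat_lit 0x10012) (nat_lit 0) pn)))))))))))))))))))))))) :=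
  Cl.node (nat_lit 0x4c42a) (nat_lit 12) (by decide +kernel) (ClAll.succ (ClAll.succ (ClAll.succ (ClAll.succ (ClAll.succ (ClAll.succ (ClAll.succ (ClAll.succ (ClAll.succ (ClAll.succ (ClAll.succ (ClAll.succ ClAll.zero s802) s803) n319) s807) s808) s809) s810) s811) n320) s822) s823) s824)

def n373 : Cl (O (nat_lit 1)) (R (nat_lit 14353))
    (p (nat_lit 0xc9) (nat_lit 1) (p (nat_lit 0x89) (nat_lit 1) (p (nat_lit 0xc1) (nat_lit 0) (p (nat_lit 0x101) (nat_lit 1) (p (nat_lit 0x119) (nat_lit 0) (p (nat_lit 0xd1) (nat_lit 0) (p (nat_lit 0x81) (nat_lit 0) (p (nat_lit 0x41) (nat_lit 1) (p (nat_lit 0x8090887069a) (nat_lit 0) (p (nat_lit 0x7870806861a) (nat_lit 0) (p (nat_lit 0x800070786058a) (nat_lit 0) (p (nat_lit 0x787058502) (nat_lit 0) (p (nat_lit 0x586850482) (nat_lit 0) (p (nat_lit 0x160014) (nat_lit 0) (p (nat_lit 0x16000c) (nat_lit 0) (p (nat_lit 0x68612) (nat_lit 0)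 (p (nat_lit 0x50592) (nat_lit 0) (p (nat_lit 0x40512) (nat_lit 0) (p (nat_lit 0x50312) (nat_lit 0) (p (nat_lit 0x38292) (nat_lit 0) (p (nat_lit 0x28212) (nat_lit 0) (p (nat_lit 0x38112) (nat_lit 0) (p (nat_lit 0x20092) (nat_lit 0) (p (nat_lit 0x10012) (nat_lit 0) pn)))))))))))))))))))))))) :=
  Cl.node (nat_lit 0x3c4aa) (nat_lit 12) (by decide +kernel) (ClAll.succ (ClAll.succ (ClAll.succ (ClAll.succ (ClAll.succ (ClAll.succ (ClAll.succ (ClAll.succ (ClAll.succ (ClAll.succ (ClAll.succ (ClAll.succ ClAll.zero s825) s826) s827) s828) s829) s830) s831) s832) s833) s834) s835) s836)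

def n374 : Cl (O (nat_lit 1)) (R (nat_lit 14353))
    (p (nat_lit 0x3c4aa) (nat_lit 7) (p (nat_lit 0x89) (nat_lit 1) (p (nat_lit 0xc1) (nat_lit 1) (p (nat_lit 0x101) (nat_lit 1) (p (nat_lit 0x119) (nat_lit 0) (p (nat_lit 0xd1) (nat_lit 0) (p (nat_lit 0x81) (nat_lit 0) (p (nat_lit 0x41) (nat_lit 1) (p (nat_lit 0x8090887069a) (nat_lit 0) (p (nat_lit 0x7870806861a) (nat_lit 0) (p (nat_lit 0x800070786058a) (nat_lit 0) (p (nat_lit 0x787058502) (nat_lit 0) (p (nat_lit 0x586850482) (nat_lit 0) (p (nat_lit 0x160014) (nat_lit 0) (p (nat_lit 0x16000c) (nat_lit 0) (p (nat_lit 0x68612) (nat_lit 0) (p (nat_lit 0x50592) (nat_lit 0) (p (nat_lit 0x40512) (nat_lit 0) (p (nat_lit 0x50312) (nat_lit 0) (p (nat_lit 0x38292) (nat_lit 0) (p (nat_lit 0x28212) (nat_lit 0) (p (nat_lit 0x38112) (nat_lit 0) (p (nat_lit 0x20092) (nat_lit 0) (p (nat_lit 0x10012) (nat_lit 0) pn))))))))))))))))))))))))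 :=
  Cl.node (nat_lit 0x380c2) (nat_lit 2) (by decide +kernel) (ClAll.succ (ClAll.succ ClAll.zero s856) s857)

def n375 : Cl (O (nat_lit 1)) (R (nat_lit 14353))
    (p (nat_lit 0x109) (nat_lit 0) (p (nat_lit 0x89) (nat_lit 1) (p (nat_lit 0xc9) (nat_lit 1) (p (nat_lit 0xc1) (nat_lit 0) (p (nat_lit 0x119) (nat_lit 1) (p (nat_lit 0xd1) (nat_lit 0) (p (nat_lit 0x81) (nat_lit 0) (p (nat_lit 0x41) (nat_lit 1) (p (nat_lit 0x8090887069a) (nat_lit 0) (p (nat_lit 0x7870806861a) (nat_lit 0) (p (nat_lit 0x800070786058a) (nat_lit 0) (p (nat_lit 0x787058502) (nat_lit 0) (p (nat_lit 0x586850482) (nat_lit 0) (p (nat_lit 0x160014) (nat_lit 0) (p (nat_lit 0x16000c) (nat_lit 0) (p (nat_lit 0x68612) (nat_lit 0) (p (nat_lit 0x50592) (nat_lit 0) (p (nat_lit 0x40512) (nat_lit 0) (p (nat_lit 0x50312) (nat_lit 0) (p (nat_lit 0x38292) (nat_lit 0) (p (nat_lit 0x28212) (nat_lit 0) (p (nat_lit 0x38112)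 (nat_lit 0) (p (nat_lit 0x20092) (nat_lit 0) (p (nat_lit 0x10012) (nat_lit 0) pn)))))))))))))))))))))))) :=
  Cl.node (nat_lit 0x44c2a) (nat_lit 12) (by decide +kernel) (ClAll.succ (ClAll.succ (ClAll.succ (ClAll.succ (ClAll.succ (ClAll.succ (ClAll.succ (ClAll.succ (ClAll.succ (ClAll.succ (ClAll.succ (ClAll.succ ClAll.zero n321) n322) s873) s874) s875) s876) s877) s878) s879) s880) s881) s882)

def n376 : Cl (O (nat_lit 1)) (R (nat_lit 14353))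
    (p (nat_lit 0x109) (nat_lit 1) (p (nat_lit 0x89) (nat_lit 1) (p (nat_lit 0xc9) (nat_lit 1) (p (nat_lit 0xc1) (nat_lit 0) (p (nat_lit 0x119) (nat_lit 1) (p (nat_lit 0xd1) (nat_lit 0) (p (nat_lit 0x81) (nat_lit 0) (p (nat_lit 0x41) (nat_lit 1) (p (nat_lit 0x8090887069a) (nat_lit 0) (p (nat_lit 0x7870806861a) (nat_lit 0) (p (nat_lit 0x800070786058a) (nat_lit 0) (p (nat_lit 0x787058502) (nat_lit 0) (p (nat_lit 0x586850482) (nat_lit 0) (p (nat_lit 0x160014) (nat_lit 0) (p (nat_lit 0x16000c) (nat_lit 0) (p (nat_lit 0x68612) (nat_lit 0) (p (nat_lit 0x50592) (nat_lit 0) (p (nat_lit 0x40512) (nat_lit 0) (p (nat_lit 0x50312) (nat_lit 0) (p (nat_lit 0x38292) (nat_lit 0) (p (nat_lit 0x28212) (nat_lit 0) (p (nat_lit 0x38112) (nat_lit 0) (p (nat_lit 0x20092) (nat_lit 0) (p (nat_lit 0x10012) (nat_lit 0) pn)))))))))))))))))))))))) :=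
  Cl.node (nat_lit 0x3c4aa) (nat_lit 12) (by decide +kernel) (ClAll.succ (ClAll.succ (ClAll.succ (ClAll.succ (ClAll.succ (ClAll.succ (ClAll.succ (ClAll.succ (ClAll.succ (ClAll.succ (ClAll.succ (ClAll.succ ClAll.zero s883) s884) s885) s886) s887) s888) s889) s890) s891) s892) n323) s898)

def n377 : Cl (O (nat_lit 1)) (R (nat_lit 14353))
    (p (nat_lit 0x109) (nat_lit 0) (p (nat_lit 0x89) (nat_lit 1) (p (nat_lit 0x101) (nat_lit 0) (p (nat_lit 0xc1) (nat_lit 1) (p (nat_lit 0x119) (nat_lit 1) (p (nat_lit 0xd1) (nat_lit 0) (p (nat_lit 0x81) (nat_lit 0) (p (nat_lit 0x41) (nat_lit 1) (p (nat_lit 0x8090887069a) (nat_lit 0) (p (nat_lit 0x7870806861a) (nat_lit 0) (p (nat_lit 0x800070786058a) (nat_lit 0) (p (nat_lit 0x787058502) (nat_lit 0) (p (nat_lit 0x586850482) (nat_lit 0) (p (nat_lit 0x160014) (nat_lit 0) (p (nat_lit 0x16000c) (nat_lit 0) (p (nat_lit 0x68612) (nat_lit 0)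 (p (nat_lit 0x50592) (nat_lit 0) (p (nat_lit 0x40512) (nat_lit 0) (p (nat_lit 0x50312) (nat_lit 0) (p (nat_lit 0x38292) (nat_lit 0) (p (nat_lit 0x28212) (nat_lit 0) (p (nat_lit 0x38112) (nat_lit 0) (p (nat_lit 0x20092) (nat_lit 0) (p (nat_lit 0x10012) (nat_lit 0) pn)))))))))))))))))))))))) :=
  Cl.node (nat_lit 0x44c2a) (nat_lit 12) (by decide +kernel) (ClAll.succ (ClAll.succ (ClAll.succ (ClAll.succ (ClAll.succ (ClAll.succ (ClAll.succ (ClAll.succ (ClAll.succ (ClAll.succ (ClAll.succ (ClAll.succ ClAll.zero n324) s915) s916) s917) s918) s919) s920) s921) s922) s923) s924) s925)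

def n378 : Cl (O (nat_lit 1)) (R (nat_lit 14353))
    (p (nat_lit 0x109) (nat_lit 1) (p (nat_lit 0x89) (nat_lit 1) (p (nat_lit 0x101) (nat_lit 0) (p (nat_lit 0xc1) (nat_lit 1) (p (nat_lit 0x119) (nat_lit 1) (p (nat_lit 0xd1) (nat_lit 0) (p (nat_lit 0x81) (nat_lit 0) (p (nat_lit 0x41) (nat_lit 1) (p (nat_lit 0x8090887069a) (nat_lit 0) (p (nat_lit 0x7870806861a) (nat_lit 0) (p (nat_lit 0x800070786058a) (nat_lit 0) (p (nat_lit 0x787058502) (nat_lit 0) (p (nat_lit 0x586850482) (nat_lit 0) (p (nat_lit 0x160014) (nat_lit 0) (p (nat_lit 0x16000c) (nat_lit 0) (p (nat_lit 0x68612) (nat_lit 0) (p (nat_lit 0x50592) (nat_lit 0) (p (nat_lit 0x40512) (nat_lit 0) (p (nat_lit 0x50312) (nat_lit 0) (p (nat_lit 0x38292) (nat_lit 0) (p (nat_lit 0x28212) (nat_lit 0) (p (nat_lit 0x38112) (nat_lit 0) (p (nat_lit 0x20092) (nat_lit 0) (p (nat_lit 0x10012) (nat_lit 0) pn))))))))))))))))))))))))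 :=
  Cl.node (nat_lit 0x3c4aa) (nat_lit 12) (by decide +kernel) (ClAll.succ (ClAll.succ (ClAll.succ (ClAll.succ (ClAll.succ (ClAll.succ (ClAll.succ (ClAll.succ (ClAll.succ (ClAll.succ (ClAll.succ (ClAll.succ ClAll.zero s926) s927) s928) s929) s930) s931) s932) n325) s939) s940) n326) s945)

def n379 : Cl (O (nat_lit 1)) (R (nat_lit 14353))
    (p (nat_lit 0x3cc2a) (nat_lit 11) (p (nat_lit 0x89) (nat_lit 0) (p (nat_lit 0x101) (nat_lit 1) (p (nat_lit 0xc1) (nat_lit 1) (p (nat_lit 0x119) (nat_lit 1) (p (nat_lit 0xd1) (nat_lit 0) (p (nat_lit 0x81) (nat_lit 0) (p (nat_lit 0x41) (nat_lit 1) (p (nat_lit 0x8090887069a) (nat_lit 0) (p (nat_lit 0x7870806861a) (nat_lit 0) (p (nat_lit 0x800070786058a) (nat_lit 0) (p (nat_lit 0x787058502) (nat_lit 0) (p (nat_lit 0x586850482) (nat_lit 0) (p (nat_lit 0x160014) (nat_lit 0) (p (nat_lit 0x16000c) (nat_lit 0) (p (nat_lit 0x68612) (nat_lit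 0) (p (nat_lit 0x50592) (nat_lit 0) (p (nat_lit 0x40512) (nat_lit 0) (p (nat_lit 0x50312) (nat_lit 0) (p (nat_lit 0x38292) (nat_lit 0) (p (nat_lit 0x28212) (nat_lit 0) (p (nat_lit 0x38112) (nat_lit 0) (p (nat_lit 0x20092) (nat_lit 0) (p (nat_lit 0x10012) (nat_lit 0) pn)))))))))))))))))))))))) :=
  Cl.node (nat_lit 0x380c2) (nat_lit 2) (by decide +kernel) (ClAll.succ (ClAll.succ ClAll.zero n327) s959)

def n380 : Cl (O (nat_lit 1)) (R (nat_lit 14353))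
    (p (nat_lit 0x3c4aa) (nat_lit 7) (p (nat_lit 0x89) (nat_lit 1) (p (nat_lit 0x101) (nat_lit 1) (p (nat_lit 0xc1) (nat_lit 1) (p (nat_lit 0x119) (nat_lit 1) (p (nat_lit 0xd1) (nat_lit 0) (p (nat_lit 0x81) (nat_lit 0) (p (nat_lit 0x41) (nat_lit 1) (p (nat_lit 0x8090887069a) (nat_lit 0) (p (nat_lit 0x7870806861a) (nat_lit 0) (p (nat_lit 0x800070786058a) (nat_lit 0) (p (nat_lit 0x787058502) (nat_lit 0) (p (nat_lit 0x586850482) (nat_lit 0) (p (nat_lit 0x160014) (nat_lit 0) (p (nat_lit 0x16000c) (nat_lit 0) (p (nat_lit 0x68612) (nat_lit 0) (p (nat_lit 0x50592) (nat_lit 0) (p (nat_lit 0x40512) (nat_lit 0) (p (nat_lit 0x50312) (nat_lit 0) (p (nat_lit 0x38292) (nat_lit 0) (p (nat_lit 0x28212) (nat_lit 0) (p (nat_lit 0x38112) (nat_lit 0) (p (nat_lit 0x20092) (nat_lit 0) (p (nat_lit 0x10012) (nat_lit 0) pn)))))))))))))))))))))))) :=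
  Cl.node (nat_lit 0x380c2) (nat_lit 2) (by decide +kernel) (ClAll.succ (ClAll.succ ClAll.zero n328) s969)

def n381 : Cl (O (nat_lit 1)) (R (nat_lit 14353))
    (p (nat_lit 0x119) (nat_lit 1) (p (nat_lit 0x89) (nat_lit 0) (p (nat_lit 0x109) (nat_lit 1) (p (nat_lit 0x101) (nat_lit 0) (p (nat_lit 0x111) (nat_lit 0) (p (nat_lit 0xd1) (nat_lit 1) (p (nat_lit 0x81) (nat_lit 0) (p (nat_lit 0x41) (nat_lit 1) (p (nat_lit 0x8090887069a) (nat_lit 0) (p (nat_lit 0x7870806861a) (nat_lit 0) (p (nat_lit 0x800070786058a) (nat_lit 0) (p (nat_lit 0x787058502) (nat_lit 0) (p (nat_lit 0x586850482) (nat_lit 0) (p (nat_lit 0x160014) (nat_lit 0) (p (nat_lit 0x16000c) (nat_lit 0) (p (nat_lit 0x68612) (nat_lit 0) (p (nat_lit 0x50592) (nat_lit 0) (p (nat_lit 0x40512) (nat_lit 0) (p (nat_lit 0x50312) (nat_lit 0) (p (nat_lit 0x38292) (nat_lit 0) (p (nat_lit 0x28212) (nat_lit 0) (p (nat_lit 0x38112)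 (nat_lit 0) (p (nat_lit 0x20092) (nat_lit 0) (p (nat_lit 0x10012) (nat_lit 0) pn)))))))))))))))))))))))) :=
  Cl.node (nat_lit 0x4c42a) (nat_lit 12) (by decide +kernel) (ClAll.succ (ClAll.succ (ClAll.succ (ClAll.succ (ClAll.succ (ClAll.succ (ClAll.succ (ClAll.succ (ClAll.succ (ClAll.succ (ClAll.succ (ClAll.succ ClAll.zero s976) s977) s978) s979) s980) s981) s982) s983) s984) s985) s986) s987)

def n382 : Cl (O (nat_lit 1)) (R (nat_lit 14353))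
    (p (nat_lit 0xc9) (nat_lit 0) (p (nat_lit 0x89) (nat_lit 1) (p (nat_lit 0x109) (nat_lit 1) (p (nat_lit 0x101) (nat_lit 0) (p (nat_lit 0x111) (nat_lit 0) (p (nat_lit 0xd1) (nat_lit 1) (p (nat_lit 0x81) (nat_lit 0) (p (nat_lit 0x41) (nat_lit 1) (p (nat_lit 0x8090887069a) (nat_lit 0) (p (nat_lit 0x7870806861a) (nat_lit 0) (p (nat_lit 0x800070786058a) (nat_lit 0) (p (nat_lit 0x787058502) (nat_lit 0) (p (nat_lit 0x586850482) (nat_lit 0) (p (nat_lit 0x160014) (nat_lit 0) (p (nat_lit 0x16000c) (nat_lit 0) (p (nat_lit 0x68612) (nat_lit 0) (p (nat_lit 0x50592) (nat_lit 0) (p (nat_lit 0x40512) (nat_lit 0) (p (nat_lit 0x50312) (nat_lit 0) (p (nat_lit 0x38292) (nat_lit 0) (p (nat_lit 0x28212) (nat_lit 0) (p (nat_lit 0x38112) (nat_lit 0) (p (nat_lit 0x20092) (nat_lit 0) (p (nat_lit 0x10012) (nat_lit 0) pn)))))))))))))))))))))))) :=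
  Cl.node (nat_lit 0x119) (nat_lit 2) (by decide +kernel) (ClAll.succ (ClAll.succ ClAll.zero n329) n330)

def n383 : Cl (O (nat_lit 1)) (R (nat_lit 14353))
    (p (nat_lit 0x3c4aa) (nat_lit 9) (p (nat_lit 0x109) (nat_lit 1) (p (nat_lit 0xc9) (nat_lit 1) (p (nat_lit 0x89) (nat_lit 1) (p (nat_lit 0x111) (nat_lit 1) (p (nat_lit 0xd1) (nat_lit 1) (p (nat_lit 0x81) (nat_lit 0) (p (nat_lit 0x41) (nat_lit 1) (p (nat_lit 0x8090887069a) (nat_lit 0) (p (nat_lit 0x7870806861a) (nat_lit 0) (p (nat_lit 0x800070786058a) (nat_lit 0) (p (nat_lit 0x787058502) (nat_lit 0) (p (nat_lit 0x586850482) (nat_lit 0) (p (nat_lit 0x160014) (nat_lit 0) (p (nat_lit 0x16000c) (nat_lit 0) (p (nat_lit 0x68612) (nat_lit 0) (p (nat_lit 0x50592) (nat_lit 0) (p (nat_lit 0x40512) (nat_lit 0) (p (nat_lit 0x50312) (nat_lit 0) (p (nat_lit 0x38292) (nat_lit 0) (p (nat_lit 0x28212) (nat_lit 0) (p (nat_lit 0x38112)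 (nat_lit 0) (p (nat_lit 0x20092) (nat_lit 0) (p (nat_lit 0x10012) (nat_lit 0) pn)))))))))))))))))))))))) :=
  Cl.node (nat_lit 0x380c2) (nat_lit 1) (by decide +kernel) (ClAll.succ ClAll.zero n331)

def n384 : Cl (O (nat_lit 1)) (R (nat_lit 14353))
    (p (nat_lit 0xd1) (nat_lit 1) (p (nat_lit 0x111) (nat_lit 1) (p (nat_lit 0x109) (nat_lit 0) (p (nat_lit 0x101) (nat_lit 0) (p (nat_lit 0x119) (nat_lit 0) (p (nat_lit 0xc1) (nat_lit 0) (p (nat_lit 0x81) (nat_lit 1) (p (nat_lit 0x41) (nat_lit 1) (p (nat_lit 0x8090887069a) (nat_lit 0) (p (nat_lit 0x7870806861a) (nat_lit 0) (p (nat_lit 0x800070786058a) (nat_lit 0) (p (nat_lit 0x787058502) (nat_lit 0) (p (nat_lit 0x586850482) (nat_lit 0) (p (nat_lit 0x160014) (nat_lit 0) (p (nat_lit 0x16000c) (nat_lit 0) (p (nat_lit 0x68612) (nat_lit 0) (p (nat_lit 0x50592) (nat_lit 0) (p (nat_lit 0x40512) (nat_lit 0) (p (nat_lit 0x50312) (nat_lit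 0) (p (nat_lit 0x38292) (nat_lit 0) (p (nat_lit 0x28212) (nat_lit 0) (p (nat_lit 0x38112) (nat_lit 0) (p (nat_lit 0x20092) (nat_lit 0) (p (nat_lit 0x10012) (nat_lit 0) pn)))))))))))))))))))))))) :=
  Cl.node (nat_lit 0x3c4aa) (nat_lit 12) (by decide +kernel) (ClAll.succ (ClAll.succ (ClAll.succ (ClAll.succ (ClAll.succ (ClAll.succ (ClAll.succ (ClAll.succ (ClAll.succ (ClAll.succ (ClAll.succ (ClAll.succ ClAll.zero s1080) s1081) s1082) s1083) s1084) s1085) s1086) n332) s1103) s1104) s1105) s1106)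

def n385 : Cl (O (nat_lit 1)) (R (nat_lit 14353))
    (p (nat_lit 0xd1) (nat_lit 1) (p (nat_lit 0xc9) (nat_lit 0) (p (nat_lit 0x109) (nat_lit 1) (p (nat_lit 0x101) (nat_lit 0) (p (nat_lit 0x119) (nat_lit 0) (p (nat_lit 0xc1) (nat_lit 0) (p (nat_lit 0x81) (nat_lit 1) (p (nat_lit 0x41) (nat_lit 1) (p (nat_lit 0x8090887069a) (nat_lit 0) (p (nat_lit 0x7870806861a) (nat_lit 0) (p (nat_lit 0x800070786058a) (nat_lit 0) (p (nat_lit 0x787058502) (nat_lit 0) (p (nat_lit 0x586850482) (nat_lit 0) (p (nat_lit 0x160014) (nat_lit 0) (p (nat_lit 0x16000c) (nat_lit 0) (p (nat_lit 0x68612) (nat_lit 0) (p (nat_lit 0x50592) (nat_lit 0) (p (nat_lit 0x40512) (nat_lit 0) (p (nat_lit 0x50312) (nat_lit 0) (p (nat_lit 0x38292) (nat_lit 0) (p (nat_lit 0x28212) (nat_lit 0) (p (nat_lit 0x38112) (nat_lit 0) (p (nat_lit 0x20092) (nat_lit 0) (p (nat_lit 0x10012) (nat_lit 0) pn))))))))))))))))))))))))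 :=
  Cl.node (nat_lit 0x3c4aa) (nat_lit 12) (by decide +kernel) (ClAll.succ (ClAll.succ (ClAll.succ (ClAll.succ (ClAll.succ (ClAll.succ (ClAll.succ (ClAll.succ (ClAll.succ (ClAll.succ (ClAll.succ (ClAll.succ ClAll.zero s1108) s1109) s1110) s1111) s1112) s1113) s1114) n333) s1125) s1126) s1127) s1128)

def n386 : Cl (O (nat_lit 1)) (R (nat_lit 14353))
    (p (nat_lit 0x44c2a) (nat_lit 0) (p (nat_lit 0xd1) (nat_lit 0) (p (nat_lit 0xc9) (nat_lit 0) (p (nat_lit 0x101) (nat_lit 1) (p (nat_lit 0x119) (nat_lit 0) (p (nat_lit 0xc1) (nat_lit 0) (p (nat_lit 0x81) (nat_lit 1) (p (nat_lit 0x41) (nat_lit 1) (p (nat_lit 0x8090887069a) (nat_lit 0) (p (nat_lit 0x7870806861a) (nat_lit 0) (p (nat_lit 0x800070786058a) (nat_lit 0) (p (nat_lit 0x787058502) (nat_lit 0) (p (nat_lit 0x586850482) (nat_lit 0) (p (nat_lit 0x160014) (nat_lit 0) (p (nat_lit 0x16000c) (nat_lit 0) (p (nat_lit 0x68612)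 (nat_lit 0) (p (nat_lit 0x50592) (nat_lit 0) (p (nat_lit 0x40512) (nat_lit 0) (p (nat_lit 0x50312) (nat_lit 0) (p (nat_lit 0x38292) (nat_lit 0) (p (nat_lit 0x28212) (nat_lit 0) (p (nat_lit 0x38112) (nat_lit 0) (p (nat_lit 0x20092) (nat_lit 0) (p (nat_lit 0x10012) (nat_lit 0) pn)))))))))))))))))))))))) :=
  Cl.node (nat_lit 0x380c2) (nat_lit 2) (by decide +kernel) (ClAll.succ (ClAll.succ ClAll.zero n334) s1133)

def n387 : Cl (O (nat_lit 1)) (R (nat_lit 14353))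
    (p (nat_lit 0x44c2a) (nat_lit 1) (p (nat_lit 0xd1) (nat_lit 0) (p (nat_lit 0xc9) (nat_lit 0) (p (nat_lit 0x101) (nat_lit 1) (p (nat_lit 0x119) (nat_lit 0) (p (nat_lit 0xc1) (nat_lit 0) (p (nat_lit 0x81) (nat_lit 1) (p (nat_lit 0x41) (nat_lit 1) (p (nat_lit 0x8090887069a) (nat_lit 0) (p (nat_lit 0x7870806861a) (nat_lit 0) (p (nat_lit 0x800070786058a) (nat_lit 0) (p (nat_lit 0x787058502) (nat_lit 0) (p (nat_lit 0x586850482) (nat_lit 0) (p (nat_lit 0x160014) (nat_lit 0) (p (nat_lit 0x16000c) (nat_lit 0) (p (nat_lit 0x68612) (nat_lit 0) (p (nat_lit 0x50592) (nat_lit 0) (p (nat_lit 0x40512) (nat_lit 0) (p (nat_lit 0x50312) (nat_lit 0) (p (nat_lit 0x38292) (nat_lit 0) (p (nat_lit 0x28212) (nat_lit 0) (p (nat_lit 0x38112) (nat_lit 0) (p (nat_lit 0x20092) (nat_lit 0) (p (nat_lit 0x10012) (nat_lit 0) pn)))))))))))))))))))))))) :=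
  Cl.node (nat_lit 0x380c2) (nat_lit 1) (by decide +kernel) (ClAll.succ ClAll.zero n335)

def n388 : Cl (O (nat_lit 1)) (R (nat_lit 14353))
    (p (nat_lit 0x3c4aa) (nat_lit 7) (p (nat_lit 0xd1) (nat_lit 1) (p (nat_lit 0xc9) (nat_lit 0) (p (nat_lit 0x101) (nat_lit 1) (p (nat_lit 0x119) (nat_lit 0) (p (nat_lit 0xc1) (nat_lit 0) (p (nat_lit 0x81) (nat_lit 1) (p (nat_lit 0x41) (nat_lit 1) (p (nat_lit 0x8090887069a) (nat_lit 0) (p (nat_lit 0x7870806861a) (nat_lit 0) (p (nat_lit 0x800070786058a) (nat_lit 0) (p (nat_lit 0x787058502) (nat_lit 0) (p (nat_lit 0x586850482) (nat_lit 0) (p (nat_lit 0x160014) (nat_lit 0) (p (nat_lit 0x16000c) (nat_lit 0) (p (nat_lit 0x68612) (nat_lit 0) (p (nat_lit 0x50592) (nat_lit 0) (p (nat_lit 0x40512) (nat_lit 0) (p (nat_lit 0x50312) (nat_lit 0) (p (nat_lit 0x38292) (nat_lit 0) (p (nat_lit 0x28212) (nat_lit 0) (p (nat_lit 0x38112) (nat_lit 0)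 (p (nat_lit 0x20092) (nat_lit 0) (p (nat_lit 0x10012) (nat_lit 0) pn)))))))))))))))))))))))) :=
  Cl.node (nat_lit 0x380c2) (nat_lit 2) (by decide +kernel) (ClAll.succ (ClAll.succ ClAll.zero n336) n337)

def n389 : Cl (O (nat_lit 1)) (R (nat_lit 14353))
    (p (nat_lit 0x3c4aa) (nat_lit 7) (p (nat_lit 0x111) (nat_lit 1) (p (nat_lit 0xd1) (nat_lit 1) (p (nat_lit 0xc9) (nat_lit 0) (p (nat_lit 0x119) (nat_lit 1) (p (nat_lit 0xc1) (nat_lit 0) (p (nat_lit 0x81) (nat_lit 1) (p (nat_lit 0x41) (nat_lit 1) (p (nat_lit 0x8090887069a) (nat_lit 0) (p (nat_lit 0x7870806861a) (nat_lit 0) (p (nat_lit 0x800070786058a) (nat_lit 0) (p (nat_lit 0x787058502) (nat_lit 0) (p (nat_lit 0x586850482) (nat_lit 0) (p (nat_lit 0x160014) (nat_lit 0) (p (nat_lit 0x16000c) (nat_lit 0) (p (nat_lit 0x68612) (nat_lit 0) (p (nat_lit 0x50592) (nat_lit 0) (p (nat_lit 0x40512) (nat_lit 0) (p (nat_lit 0x50312)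 (nat_lit 0) (p (nat_lit 0x38292) (nat_lit 0) (p (nat_lit 0x28212) (nat_lit 0) (p (nat_lit 0x38112) (nat_lit 0) (p (nat_lit 0x20092) (nat_lit 0) (p (nat_lit 0x10012) (nat_lit 0) pn)))))))))))))))))))))))) :=
  Cl.node (nat_lit 0x380c2) (nat_lit 2) (by decide +kernel) (ClAll.succ (ClAll.succ ClAll.zero n338) s1209)

def n390 : Cl (O (nat_lit 1)) (R (nat_lit 14353))
    (p (nat_lit 0x44c2a) (nat_lit 1) (p (nat_lit 0x111) (nat_lit 0) (p (nat_lit 0x109) (nat_lit 0) (p (nat_lit 0xc9) (nat_lit 1) (p (nat_lit 0x119) (nat_lit 1) (p (nat_lit 0xc1) (nat_lit 0) (p (nat_lit 0x81) (nat_lit 1) (p (nat_lit 0x41) (nat_lit 1) (p (nat_lit 0x8090887069a) (nat_lit 0) (p (nat_lit 0x7870806861a) (nat_lit 0) (p (nat_lit 0x800070786058a) (nat_lit 0) (p (nat_lit 0x787058502) (nat_lit 0) (p (nat_lit 0x586850482) (nat_lit 0) (p (nat_lit 0x160014) (nat_lit 0) (p (nat_lit 0x16000c) (nat_lit 0) (p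 (nat_lit 0x68612) (nat_lit 0) (p (nat_lit 0x50592) (nat_lit 0) (p (nat_lit 0x40512) (nat_lit 0) (p (nat_lit 0x50312) (nat_lit 0) (p (nat_lit 0x38292) (nat_lit 0) (p (nat_lit 0x28212) (nat_lit 0) (p (nat_lit 0x38112) (nat_lit 0) (p (nat_lit 0x20092) (nat_lit 0) (p (nat_lit 0x10012) (nat_lit 0) pn)))))))))))))))))))))))) :=
  Cl.node (nat_lit 0x380c2) (nat_lit 1) (by decide +kernel) (ClAll.succ ClAll.zero n339)

def n391 : Cl (O (nat_lit 1)) (R (nat_lit 14353))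
    (p (nat_lit 0x3c4aa) (nat_lit 7) (p (nat_lit 0x111) (nat_lit 1) (p (nat_lit 0x109) (nat_lit 0) (p (nat_lit 0xc9) (nat_lit 1) (p (nat_lit 0x119) (nat_lit 1) (p (nat_lit 0xc1) (nat_lit 0) (p (nat_lit 0x81) (nat_lit 1) (p (nat_lit 0x41) (nat_lit 1) (p (nat_lit 0x8090887069a) (nat_lit 0) (p (nat_lit 0x7870806861a) (nat_lit 0) (p (nat_lit 0x800070786058a) (nat_lit 0) (p (nat_lit 0x787058502) (nat_lit 0) (p (nat_lit 0x586850482) (nat_lit 0) (p (nat_lit 0x160014) (nat_lit 0) (p (nat_lit 0x16000c) (nat_lit 0) (p (nat_lit 0x68612) (nat_lit 0) (p (nat_lit 0x50592) (nat_lit 0) (p (nat_lit 0x40512) (nat_lit 0) (p (nat_lit 0x50312) (nat_lit 0) (p (nat_lit 0x38292) (nat_lit 0) (p (nat_lit 0x28212) (nat_lit 0) (p (nat_lit 0x38112) (nat_lit 0) (p (nat_lit 0x20092) (nat_lit 0) (p (nat_lit 0x10012) (nat_lit 0) pn)))))))))))))))))))))))) :=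
  Cl.node (nat_lit 0x380c2) (nat_lit 2) (by decide +kernel) (ClAll.succ (ClAll.succ ClAll.zero n340) n341)

def n392 : Cl (O (nat_lit 1)) (R (nat_lit 14353))
    (p (nat_lit 0xc9) (nat_lit 1) (p (nat_lit 0x109) (nat_lit 1) (p (nat_lit 0x101) (nat_lit 0) (p (nat_lit 0x119) (nat_lit 0) (p (nat_lit 0xd1) (nat_lit 0) (p (nat_lit 0x89) (nat_lit 0) (p (nat_lit 0x41) (nat_lit 0) (p (nat_lit 0x8090887069a) (nat_lit 0) (p (nat_lit 0x7870806861a) (nat_lit 0) (p (nat_lit 0x800070786058a) (nat_lit 0) (p (nat_lit 0x787058502) (nat_lit 0) (p (nat_lit 0x586850482) (nat_lit 0) (p (nat_lit 0x160014) (nat_lit 0) (p (nat_lit 0x16000c) (nat_lit 0) (p (nat_lit 0x68612) (nat_lit 0) (p (nat_lit 0x50592) (nat_lit 0) (p (nat_lit 0x40512) (nat_lit 0) (p (nat_lit 0x50312) (nat_lit 0) (p (nat_lit 0x38292) (nat_lit 0) (p (nat_lit 0x28212) (nat_lit 0) (p (nat_lit 0x38112) (nat_lit 0) (p (nat_lit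 0x20092) (nat_lit 0) (p (nat_lit 0x10012) (nat_lit 0) pn))))))))))))))))))))))) :=
  Cl.node (nat_lit 0x81) (nat_lit 2) (by decide +kernel) (ClAll.succ (ClAll.succ ClAll.zero s2) n342)

def n393 : Cl (O (nat_lit 1)) (R (nat_lit 14353))
    (p (nat_lit 0xc9) (nat_lit 0) (p (nat_lit 0x81) (nat_lit 0) (p (nat_lit 0x101) (nat_lit 1) (p (nat_lit 0x119) (nat_lit 0) (p (nat_lit 0xd1) (nat_lit 0) (p (nat_lit 0x89) (nat_lit 0) (p (nat_lit 0x41) (nat_lit 0) (p (nat_lit 0x8090887069a) (nat_lit 0) (p (nat_lit 0x7870806861a) (nat_lit 0) (p (nat_lit 0x800070786058a) (nat_lit 0) (p (nat_lit 0x787058502) (nat_lit 0) (p (nat_lit 0x586850482) (nat_lit 0) (p (nat_lit 0x160014) (nat_lit 0) (p (nat_lit 0x16000c) (nat_lit 0) (p (nat_lit 0x68612) (nat_lit 0) (p (nat_lit 0x50592) (nat_lit 0) (p (nat_lit 0x40512) (nat_lit 0) (p (nat_lit 0x50312) (nat_lit 0) (p (nat_lit 0x38292) (nat_lit 0) (p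 (nat_lit 0x28212) (nat_lit 0) (p (nat_lit 0x38112) (nat_lit 0) (p (nat_lit 0x20092) (nat_lit 0) (p (nat_lit 0x10012) (nat_lit 0) pn))))))))))))))))))))))) :=
  Cl.node (nat_lit 0x111) (nat_lit 2) (by decide +kernel) (ClAll.succ (ClAll.succ ClAll.zero n343) n344)

def n394 : Cl (O (nat_lit 1)) (R (nat_lit 14353))
    (p (nat_lit 0xc9) (nat_lit 1) (p (nat_lit 0x81) (nat_lit 0) (p (nat_lit 0x101) (nat_lit 1) (p (nat_lit 0x119) (nat_lit 0) (p (nat_lit 0xd1) (nat_lit 0) (p (nat_lit 0x89) (nat_lit 0) (p (nat_lit 0x41) (nat_lit 0) (p (nat_lit 0x8090887069a) (nat_lit 0) (p (nat_lit 0x7870806861a) (nat_lit 0) (p (nat_lit 0x800070786058a) (nat_lit 0) (p (nat_lit 0x787058502) (nat_lit 0) (p (nat_lit 0x586850482) (nat_lit 0) (p (nat_lit 0x160014) (nat_lit 0) (p (nat_lit 0x16000c) (nat_lit 0) (p (nat_lit 0x68612) (nat_lit 0) (p (nat_lit 0x50592) (nat_lit 0) (p (nat_lit 0x40512) (nat_lit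 0) (p (nat_lit 0x50312) (nat_lit 0) (p (nat_lit 0x38292) (nat_lit 0) (p (nat_lit 0x28212) (nat_lit 0) (p (nat_lit 0x38112) (nat_lit 0) (p (nat_lit 0x20092) (nat_lit 0) (p (nat_lit 0x10012) (nat_lit 0) pn))))))))))))))))))))))) :=
  Cl.node (nat_lit 0x111) (nat_lit 2) (by decide +kernel) (ClAll.succ (ClAll.succ ClAll.zero n345) s125)

def n395 : Cl (O (nat_lit 1)) (R (nat_lit 14353))
    (p (nat_lit 0xc1) (nat_lit 0) (p (nat_lit 0x81) (nat_lit 1) (p (nat_lit 0x101) (nat_lit 1) (p (nat_lit 0x119) (nat_lit 0) (p (nat_lit 0xd1) (nat_lit 0) (p (nat_lit 0x89) (nat_lit 0) (p (nat_lit 0x41) (nat_lit 0) (p (nat_lit 0x8090887069a) (nat_lit 0) (p (nat_lit 0x7870806861a) (nat_lit 0) (p (nat_lit 0x800070786058a) (nat_lit 0) (p (nat_lit 0x787058502) (nat_lit 0) (p (nat_lit 0x586850482) (nat_lit 0) (p (nat_lit 0x160014) (nat_lit 0) (p (nat_lit 0x16000c) (nat_lit 0) (p (nat_lit 0x68612)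 (nat_lit 0) (p (nat_lit 0x50592) (nat_lit 0) (p (nat_lit 0x40512) (nat_lit 0) (p (nat_lit 0x50312) (nat_lit 0) (p (nat_lit 0x38292) (nat_lit 0) (p (nat_lit 0x28212) (nat_lit 0) (p (nat_lit 0x38112) (nat_lit 0) (p (nat_lit 0x20092) (nat_lit 0) (p (nat_lit 0x10012) (nat_lit 0) pn))))))))))))))))))))))) :=
  Cl.node (nat_lit 0xc9) (nat_lit 2) (by decide +kernel) (ClAll.succ (ClAll.succ ClAll.zero n346) n347)

def n396 : Cl (O (nat_lit 1)) (R (nat_lit 14353))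
    (p (nat_lit 0x109) (nat_lit 1) (p (nat_lit 0xc9) (nat_lit 1) (p (nat_lit 0xc1) (nat_lit 0) (p (nat_lit 0x119) (nat_lit 1) (p (nat_lit 0xd1) (nat_lit 0) (p (nat_lit 0x89) (nat_lit 0) (p (nat_lit 0x41) (nat_lit 0) (p (nat_lit 0x8090887069a) (nat_lit 0) (p (nat_lit 0x7870806861a) (nat_lit 0) (p (nat_lit 0x800070786058a) (nat_lit 0) (p (nat_lit 0x787058502) (nat_lit 0) (p (nat_lit 0x586850482) (nat_lit 0) (p (nat_lit 0x160014) (nat_lit 0) (p (nat_lit 0x16000c) (nat_lit 0) (p (nat_lit 0x68612) (nat_lit 0) (p (nat_lit 0x50592) (nat_lit 0) (p (nat_lit 0x40512) (nat_lit 0) (p (nat_lit 0x50312) (nat_lit 0) (p (nat_lit 0x38292) (nat_lit 0) (p (nat_lit 0x28212) (nat_lit 0) (p (nat_lit 0x38112) (nat_lit 0) (p (nat_lit 0x20092) (nat_lit 0) (p (nat_lit 0x10012) (nat_lit 0) pn))))))))))))))))))))))) :=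
  Cl.node (nat_lit 0x3cc2a) (nat_lit 12) (by decide +kernel) (ClAll.succ (ClAll.succ (ClAll.succ (ClAll.succ (ClAll.succ (ClAll.succ (ClAll.succ (ClAll.succ (ClAll.succ (ClAll.succ (ClAll.succ (ClAll.succ ClAll.zero s183) s184) s185) s186) s187) s188) s189) s190) s191) s192) n348) n349)

def n397 : Cl (O (nat_lit 1)) (R (nat_lit 14353))
    (p (nat_lit 0x109) (nat_lit 0) (p (nat_lit 0x81) (nat_lit 0) (p (nat_lit 0xc1) (nat_lit 1) (p (nat_lit 0x119) (nat_lit 1) (p (nat_lit 0xd1) (nat_lit 0) (p (nat_lit 0x89) (nat_lit 0) (p (nat_lit 0x41) (nat_lit 0) (p (nat_lit 0x8090887069a) (nat_lit 0) (p (nat_lit 0x7870806861a) (nat_lit 0) (p (nat_lit 0x800070786058a) (nat_lit 0) (p (nat_lit 0x787058502) (nat_lit 0) (p (nat_lit 0x586850482) (nat_lit 0) (p (nat_lit 0x160014) (nat_lit 0) (p (nat_lit 0x16000c) (nat_lit 0) (p (nat_lit 0x68612) (nat_lit 0) (p (nat_lit 0x50592) (nat_lit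 0) (p (nat_lit 0x40512) (nat_lit 0) (p (nat_lit 0x50312) (nat_lit 0) (p (nat_lit 0x38292) (nat_lit 0) (p (nat_lit 0x28212) (nat_lit 0) (p (nat_lit 0x38112) (nat_lit 0) (p (nat_lit 0x20092) (nat_lit 0) (p (nat_lit 0x10012) (nat_lit 0) pn))))))))))))))))))))))) :=
  Cl.node (nat_lit 0x44c2a) (nat_lit 12) (by decide +kernel) (ClAll.succ (ClAll.succ (ClAll.succ (ClAll.succ (ClAll.succ (ClAll.succ (ClAll.succ (ClAll.succ (ClAll.succ (ClAll.succ (ClAll.succ (ClAll.succ ClAll.zero s202) s203) s204) s205) s206) s207) s208) s209) s210) s211) s212) s213)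

def n398 : Cl (O (nat_lit 1)) (R (nat_lit 14353))
    (p (nat_lit 0x109) (nat_lit 1) (p (nat_lit 0x81) (nat_lit 0) (p (nat_lit 0xc1) (nat_lit 1) (p (nat_lit 0x119) (nat_lit 1) (p (nat_lit 0xd1) (nat_lit 0) (p (nat_lit 0x89) (nat_lit 0) (p (nat_lit 0x41) (nat_lit 0) (p (nat_lit 0x8090887069a) (nat_lit 0) (p (nat_lit 0x7870806861a) (nat_lit 0) (p (nat_lit 0x800070786058a) (nat_lit 0) (p (nat_lit 0x787058502) (nat_lit 0) (p (nat_lit 0x586850482) (nat_lit 0) (p (nat_lit 0x160014) (nat_lit 0) (p (nat_lit 0x16000c) (nat_lit 0) (p (nat_lit 0x68612) (nat_lit 0) (p (nat_lit 0x50592) (nat_lit 0) (p (nat_lit 0x40512) (nat_lit 0) (p (nat_lit 0x50312) (nat_lit 0) (p (nat_lit 0x38292) (nat_lit 0) (p (nat_lit 0x28212) (nat_lit 0) (p (nat_lit 0x38112) (nat_lit 0) (p (nat_lit 0x20092) (nat_lit 0) (p (nat_lit 0x10012) (nat_lit 0) pn))))))))))))))))))))))) :=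
  Cl.node (nat_lit 0x3cc2a) (nat_lit 12) (by decide +kernel) (ClAll.succ (ClAll.succ (ClAll.succ (ClAll.succ (ClAll.succ (ClAll.succ (ClAll.succ (ClAll.succ (ClAll.succ (ClAll.succ (ClAll.succ (ClAll.succ ClAll.zero s214) s215) s216) s217) s218) s219) s220) s221) s222) s223) n350) n351)

def n399 : Cl (O (nat_lit 1)) (R (nat_lit 14353))
    (p (nat_lit 0x101) (nat_lit 0) (p (nat_lit 0x81) (nat_lit 1) (p (nat_lit 0xc1) (nat_lit 1) (p (nat_lit 0x119) (nat_lit 1) (p (nat_lit 0xd1) (nat_lit 0) (p (nat_lit 0x89) (nat_lit 0) (p (nat_lit 0x41) (nat_lit 0) (p (nat_lit 0x8090887069a) (nat_lit 0) (p (nat_lit 0x7870806861a) (nat_lit 0) (p (nat_lit 0x800070786058a) (nat_lit 0) (p (nat_lit 0x787058502) (nat_lit 0) (p (nat_lit 0x586850482) (nat_lit 0) (p (nat_lit 0x160014) (nat_lit 0) (p (nat_lit 0x16000c) (nat_lit 0) (p (nat_lit 0x68612) (nat_lit 0) (p (nat_lit 0x50592) (nat_lit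 0) (p (nat_lit 0x40512) (nat_lit 0) (p (nat_lit 0x50312) (nat_lit 0) (p (nat_lit 0x38292) (nat_lit 0) (p (nat_lit 0x28212) (nat_lit 0) (p (nat_lit 0x38112) (nat_lit 0) (p (nat_lit 0x20092) (nat_lit 0) (p (nat_lit 0x10012) (nat_lit 0) pn))))))))))))))))))))))) :=
  Cl.node (nat_lit 0x109) (nat_lit 2) (by decide +kernel) (ClAll.succ (ClAll.succ ClAll.zero n352) n353)

def n400 : Cl (O (nat_lit 1)) (R (nat_lit 14353))
    (p (nat_lit 0x101) (nat_lit 1) (p (nat_lit 0x81) (nat_lit 1) (p (nat_lit 0xc1) (nat_lit 1) (p (nat_lit 0x119) (nat_lit 1) (p (nat_lit 0xd1) (nat_lit 0) (p (nat_lit 0x89) (nat_lit 0) (p (nat_lit 0x41) (nat_lit 0) (p (nat_lit 0x8090887069a) (nat_lit 0) (p (nat_lit 0x7870806861a) (nat_lit 0) (p (nat_lit 0x800070786058a) (nat_lit 0) (p (nat_lit 0x787058502) (nat_lit 0) (p (nat_lit 0x586850482) (nat_lit 0) (p (nat_lit 0x160014) (nat_lit 0) (p (nat_lit 0x16000c)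 (nat_lit 0) (p (nat_lit 0x68612) (nat_lit 0) (p (nat_lit 0x50592) (nat_lit 0) (p (nat_lit 0x40512) (nat_lit 0) (p (nat_lit 0x50312) (nat_lit 0) (p (nat_lit 0x38292) (nat_lit 0) (p (nat_lit 0x28212) (nat_lit 0) (p (nat_lit 0x38112) (nat_lit 0) (p (nat_lit 0x20092) (nat_lit 0) (p (nat_lit 0x10012) (nat_lit 0) pn))))))))))))))))))))))) :=
  Cl.node (nat_lit 0x444aa) (nat_lit 12) (by decide +kernel) (ClAll.succ (ClAll.succ (ClAll.succ (ClAll.succ (ClAll.succ (ClAll.succ (ClAll.succ (ClAll.succ (ClAll.succ (ClAll.succ (ClAll.succ (ClAll.succ ClAll.zero s306) s307) s308) s309) s310) s311) s312) s313) n354) s316) s317) s318)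

def n401 : Cl (O (nat_lit 1)) (R (nat_lit 14353))
    (p (nat_lit 0xc1) (nat_lit 1) (p (nat_lit 0x109) (nat_lit 1) (p (nat_lit 0x101) (nat_lit 0) (p (nat_lit 0x111) (nat_lit 0) (p (nat_lit 0xd1) (nat_lit 1) (p (nat_lit 0x89) (nat_lit 0) (p (nat_lit 0x41) (nat_lit 0) (p (nat_lit 0x8090887069a) (nat_lit 0) (p (nat_lit 0x7870806861a) (nat_lit 0) (p (nat_lit 0x800070786058a) (nat_lit 0) (p (nat_lit 0x787058502) (nat_lit 0) (p (nat_lit 0x586850482) (nat_lit 0) (p (nat_lit 0x160014) (nat_lit 0) (p (nat_lit 0x16000c) (nat_lit 0) (p (nat_lit 0x68612) (nat_lit 0) (p (nat_lit 0x50592) (nat_lit 0) (p (nat_lit 0x40512) (nat_lit 0) (p (nat_lit 0x50312) (nat_lit 0) (p (nat_lit 0x38292) (nat_lit 0) (p (nat_lit 0x28212) (nat_lit 0) (p (nat_lit 0x38112) (nat_lit 0) (p (nat_lit 0x20092) (nat_lit 0) (p (nat_lit 0x10012) (nat_lit 0) pn))))))))))))))))))))))) :=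
  Cl.node (nat_lit 0x200004) (nat_lit 2) (by decide +kernel) (ClAll.succ (ClAll.succ ClAll.zero n355) s334)

def n402 : Cl (O (nat_lit 1)) (R (nat_lit 14353))
    (p (nat_lit 0x119) (nat_lit 0) (p (nat_lit 0x81) (nat_lit 0) (p (nat_lit 0x101) (nat_lit 1) (p (nat_lit 0x111) (nat_lit 0) (p (nat_lit 0xd1) (nat_lit 1) (p (nat_lit 0x89) (nat_lit 0) (p (nat_lit 0x41) (nat_lit 0) (p (nat_lit 0x8090887069a) (nat_lit 0) (p (nat_lit 0x7870806861a) (nat_lit 0) (p (nat_lit 0x800070786058a) (nat_lit 0) (p (nat_lit 0x787058502) (nat_lit 0) (p (nat_lit 0x586850482) (nat_lit 0) (p (nat_lit 0x160014) (nat_lit 0) (p (nat_lit 0x16000c) (nat_lit 0) (p (nat_lit 0x68612) (nat_lit 0) (p (nat_lit 0x50592) (nat_lit 0) (p (nat_lit 0x40512) (nat_lit 0) (p (nat_lit 0x50312) (nat_lit 0) (p (nat_lit 0x38292) (nat_lit 0) (p (nat_lit 0x28212) (nat_lit 0) (p (nat_lit 0x38112) (nat_lit 0) (p (nat_lit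 0x20092) (nat_lit 0) (p (nat_lit 0x10012) (nat_lit 0) pn))))))))))))))))))))))) :=
  Cl.node (nat_lit 0x200004) (nat_lit 2) (by decide +kernel) (ClAll.succ (ClAll.succ ClAll.zero n356) s363)

def n403 : Cl (O (nat_lit 1)) (R (nat_lit 14353))
    (p (nat_lit 0xc1) (nat_lit 0) (p (nat_lit 0x81) (nat_lit 1) (p (nat_lit 0x101) (nat_lit 1) (p (nat_lit 0x111) (nat_lit 0) (p (nat_lit 0xd1) (nat_lit 1) (p (nat_lit 0x89) (nat_lit 0) (p (nat_lit 0x41) (nat_lit 0) (p (nat_lit 0x8090887069a) (nat_lit 0) (p (nat_lit 0x7870806861a) (nat_lit 0) (p (nat_lit 0x800070786058a) (nat_lit 0) (p (nat_lit 0x787058502) (nat_lit 0) (p (nat_lit 0x586850482) (nat_lit 0) (p (nat_lit 0x160014) (nat_lit 0) (p (nat_lit 0x16000c) (nat_lit 0) (p (nat_lit 0x68612) (nat_lit 0) (p (nat_lit 0x50592) (nat_lit 0) (p (nat_lit 0x40512) (nat_lit 0) (p (nat_lit 0x50312) (nat_lit 0) (p (nat_lit 0x38292) (nat_lit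 0) (p (nat_lit 0x28212) (nat_lit 0) (p (nat_lit 0x38112) (nat_lit 0) (p (nat_lit 0x20092) (nat_lit 0) (p (nat_lit 0x10012) (nat_lit 0) pn))))))))))))))))))))))) :=
  Cl.node (nat_lit 0x119) (nat_lit 2) (by decide +kernel) (ClAll.succ (ClAll.succ ClAll.zero n357) n358)

def n404 : Cl (O (nat_lit 1)) (R (nat_lit 14353))
    (p (nat_lit 0x101) (nat_lit 0) (p (nat_lit 0xc1) (nat_lit 1) (p (nat_lit 0x81) (nat_lit 1) (p (nat_lit 0x111) (nat_lit 1) (p (nat_lit 0xd1) (nat_lit 1) (p (nat_lit 0x89) (nat_lit 0) (p (nat_lit 0x41) (nat_lit 0) (p (nat_lit 0x8090887069a) (nat_lit 0) (p (nat_lit 0x7870806861a) (nat_lit 0) (p (nat_lit 0x800070786058a) (nat_lit 0) (p (nat_lit 0x787058502) (nat_lit 0) (p (nat_lit 0x586850482) (nat_lit 0) (p (nat_lit 0x160014) (nat_lit 0) (p (nat_lit 0x16000c) (nat_lit 0) (p (nat_lit 0x68612) (nat_lit 0) (p (nat_lit 0x50592) (nat_lit 0) (p (nat_lit 0x40512)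 (nat_lit 0) (p (nat_lit 0x50312) (nat_lit 0) (p (nat_lit 0x38292) (nat_lit 0) (p (nat_lit 0x28212) (nat_lit 0) (p (nat_lit 0x38112) (nat_lit 0) (p (nat_lit 0x20092) (nat_lit 0) (p (nat_lit 0x10012) (nat_lit 0) pn))))))))))))))))))))))) :=
  Cl.node (nat_lit 0x3cc2a) (nat_lit 12) (by decide +kernel) (ClAll.succ (ClAll.succ (ClAll.succ (ClAll.succ (ClAll.succ (ClAll.succ (ClAll.succ (ClAll.succ (ClAll.succ (ClAll.succ (ClAll.succ (ClAll.succ ClAll.zero s397) s398) s399) s400) s401) s402) s403) s404) s405) s406) s407) s408)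

def n405 : Cl (O (nat_lit 1)) (R (nat_lit 14353))
    (p (nat_lit 0x101) (nat_lit 1) (p (nat_lit 0xc1) (nat_lit 1) (p (nat_lit 0x81) (nat_lit 1) (p (nat_lit 0x111) (nat_lit 1) (p (nat_lit 0xd1) (nat_lit 1) (p (nat_lit 0x89) (nat_lit 0) (p (nat_lit 0x41) (nat_lit 0) (p (nat_lit 0x8090887069a) (nat_lit 0) (p (nat_lit 0x7870806861a) (nat_lit 0) (p (nat_lit 0x800070786058a) (nat_lit 0) (p (nat_lit 0x787058502) (nat_lit 0) (p (nat_lit 0x586850482) (nat_lit 0) (p (nat_lit 0x160014) (nat_lit 0) (p (nat_lit 0x16000c) (nat_lit 0) (p (nat_lit 0x68612) (nat_lit 0) (p (nat_lit 0x50592) (nat_lit 0) (p (nat_lit 0x40512) (nat_lit 0) (p (nat_lit 0x50312) (nat_lit 0) (p (nat_lit 0x38292) (nat_lit 0) (p (nat_lit 0x28212) (nat_lit 0) (p (nat_lit 0x38112) (nat_lit 0) (p (nat_lit 0x20092) (nat_lit 0) (p (nat_lit 0x10012) (nat_lit 0) pn))))))))))))))))))))))) :=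
  Cl.node (nat_lit 0x444aa) (nat_lit 12) (by decide +kernel) (ClAll.succ (ClAll.succ (ClAll.succ (ClAll.succ (ClAll.succ (ClAll.succ (ClAll.succ (ClAll.succ (ClAll.succ (ClAll.succ (ClAll.succ (ClAll.succ ClAll.zero s409) s410) s411) s412) s413) s414) s415) s416) s417) s418) s419) s420)

def n406 : Cl (O (nat_lit 1)) (R (nat_lit 14353))
    (p (nat_lit 0x111) (nat_lit 1) (p (nat_lit 0x109) (nat_lit 0) (p (nat_lit 0x101) (nat_lit 0) (p (nat_lit 0x119) (nat_lit 0) (p (nat_lit 0xc9) (nat_lit 0) (p (nat_lit 0x89) (nat_lit 1) (p (nat_lit 0x41) (nat_lit 0) (p (nat_lit 0x8090887069a) (nat_lit 0) (p (nat_lit 0x7870806861a) (nat_lit 0) (p (nat_lit 0x800070786058a) (nat_lit 0) (p (nat_lit 0x787058502) (nat_lit 0) (p (nat_lit 0x586850482) (nat_lit 0) (p (nat_lit 0x160014) (nat_lit 0) (p (nat_lit 0x16000c) (nat_lit 0) (p (nat_lit 0x68612) (nat_lit 0) (p (nat_lit 0x50592) (nat_lit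 0) (p (nat_lit 0x40512) (nat_lit 0) (p (nat_lit 0x50312) (nat_lit 0) (p (nat_lit 0x38292) (nat_lit 0) (p (nat_lit 0x28212) (nat_lit 0) (p (nat_lit 0x38112) (nat_lit 0) (p (nat_lit 0x20092) (nat_lit 0) (p (nat_lit 0x10012) (nat_lit 0) pn))))))))))))))))))))))) :=
  Cl.node (nat_lit 0xd1) (nat_lit 2) (by decide +kernel) (ClAll.succ (ClAll.succ ClAll.zero s422) n359)

def n407 : Cl (O (nat_lit 1)) (R (nat_lit 14353))
    (p (nat_lit 0xd1) (nat_lit 0) (p (nat_lit 0x109) (nat_lit 1) (p (nat_lit 0x101) (nat_lit 0) (p (nat_lit 0x119) (nat_lit 0) (p (nat_lit 0xc9) (nat_lit 0) (p (nat_lit 0x89) (nat_lit 1) (p (nat_lit 0x41) (nat_lit 0) (p (nat_lit 0x8090887069a) (nat_lit 0) (p (nat_lit 0x7870806861a) (nat_lit 0) (p (nat_lit 0x800070786058a) (nat_lit 0) (p (nat_lit 0x787058502) (nat_lit 0) (p (nat_lit 0x586850482) (nat_lit 0) (p (nat_lit 0x160014) (nat_lit 0) (p (nat_lit 0x16000c)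 (nat_lit 0) (p (nat_lit 0x68612) (nat_lit 0) (p (nat_lit 0x50592) (nat_lit 0) (p (nat_lit 0x40512) (nat_lit 0) (p (nat_lit 0x50312) (nat_lit 0) (p (nat_lit 0x38292) (nat_lit 0) (p (nat_lit 0x28212) (nat_lit 0) (p (nat_lit 0x38112) (nat_lit 0) (p (nat_lit 0x20092) (nat_lit 0) (p (nat_lit 0x10012) (nat_lit 0) pn))))))))))))))))))))))) :=
  Cl.node (nat_lit 0x200004) (nat_lit 2) (by decide +kernel) (ClAll.succ (ClAll.succ ClAll.zero n360) s461)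

def n408 : Cl (O (nat_lit 1)) (R (nat_lit 14353))
    (p (nat_lit 0xd1) (nat_lit 1) (p (nat_lit 0x109) (nat_lit 1) (p (nat_lit 0x101) (nat_lit 0) (p (nat_lit 0x119) (nat_lit 0) (p (nat_lit 0xc9) (nat_lit 0) (p (nat_lit 0x89) (nat_lit 1) (p (nat_lit 0x41) (nat_lit 0) (p (nat_lit 0x8090887069a) (nat_lit 0) (p (nat_lit 0x7870806861a) (nat_lit 0) (p (nat_lit 0x800070786058a) (nat_lit 0) (p (nat_lit 0x787058502) (nat_lit 0) (p (nat_lit 0x586850482) (nat_lit 0) (p (nat_lit 0x160014) (nat_lit 0) (p (nat_lit 0x16000c) (nat_lit 0) (p (nat_lit 0x68612) (nat_lit 0) (p (nat_lit 0x50592) (nat_lit 0) (p (nat_lit 0x40512) (nat_lit 0) (p (nat_lit 0x50312) (nat_lit 0) (p (nat_lit 0x38292) (nat_lit 0) (p (nat_lit 0x28212) (nat_lit 0) (p (nat_lit 0x38112) (nat_lit 0) (p (nat_lit 0x20092) (nat_lit 0) (p (nat_lit 0x10012) (nat_lit 0) pn))))))))))))))))))))))) :=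
  Cl.node (nat_lit 0x444aa) (nat_lit 12) (by decide +kernel) (ClAll.succ (ClAll.succ (ClAll.succ (ClAll.succ (ClAll.succ (ClAll.succ (ClAll.succ (ClAll.succ (ClAll.succ (ClAll.succ (ClAll.succ (ClAll.succ ClAll.zero s462) s463) s464) s465) s466) s467) s468) n361) s534) s535) s536) s537)

def n409 : Cl (O (nat_lit 1)) (R (nat_lit 14353))
    (p (nat_lit 0xd1) (nat_lit 0) (p (nat_lit 0xc1) (nat_lit 0) (p (nat_lit 0x101) (nat_lit 1) (p (nat_lit 0x119) (nat_lit 0) (p (nat_lit 0xc9) (nat_lit 0) (p (nat_lit 0x89) (nat_lit 1) (p (nat_lit 0x41) (nat_lit 0) (p (nat_lit 0x8090887069a) (nat_lit 0) (p (nat_lit 0x7870806861a) (nat_lit 0) (p (nat_lit 0x800070786058a) (nat_lit 0) (p (nat_lit 0x787058502) (nat_lit 0) (p (nat_lit 0x586850482) (nat_lit 0) (p (nat_lit 0x160014) (nat_lit 0) (p (nat_lit 0x16000c) (nat_lit 0) (p (nat_lit 0x68612) (nat_lit 0) (p (nat_lit 0x50592) (nat_lit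 0) (p (nat_lit 0x40512) (nat_lit 0) (p (nat_lit 0x50312) (nat_lit 0) (p (nat_lit 0x38292) (nat_lit 0) (p (nat_lit 0x28212) (nat_lit 0) (p (nat_lit 0x38112) (nat_lit 0) (p (nat_lit 0x20092) (nat_lit 0) (p (nat_lit 0x10012) (nat_lit 0) pn))))))))))))))))))))))) :=
  Cl.node (nat_lit 0x200004) (nat_lit 2) (by decide +kernel) (ClAll.succ (ClAll.succ ClAll.zero n362) s555)

def n410 : Cl (O (nat_lit 1)) (R (nat_lit 14353))
    (p (nat_lit 0xd1) (nat_lit 1) (p (nat_lit 0xc1) (nat_lit 0) (p (nat_lit 0x101) (nat_lit 1) (p (nat_lit 0x119) (nat_lit 0) (p (nat_lit 0xc9) (nat_lit 0) (p (nat_lit 0x89) (nat_lit 1) (p (nat_lit 0x41) (nat_lit 0) (p (nat_lit 0x8090887069a) (nat_lit 0) (p (nat_lit 0x7870806861a) (nat_lit 0) (p (nat_lit 0x800070786058a) (nat_lit 0) (p (nat_lit 0x787058502) (nat_lit 0) (p (nat_lit 0x586850482) (nat_lit 0) (p (nat_lit 0x160014) (nat_lit 0) (p (nat_lit 0x16000c)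 (nat_lit 0) (p (nat_lit 0x68612) (nat_lit 0) (p (nat_lit 0x50592) (nat_lit 0) (p (nat_lit 0x40512) (nat_lit 0) (p (nat_lit 0x50312) (nat_lit 0) (p (nat_lit 0x38292) (nat_lit 0) (p (nat_lit 0x28212) (nat_lit 0) (p (nat_lit 0x38112) (nat_lit 0) (p (nat_lit 0x20092) (nat_lit 0) (p (nat_lit 0x10012) (nat_lit 0) pn))))))))))))))))))))))) :=
  Cl.node (nat_lit 0x444aa) (nat_lit 12) (by decide +kernel) (ClAll.succ (ClAll.succ (ClAll.succ (ClAll.succ (ClAll.succ (ClAll.succ (ClAll.succ (ClAll.succ (ClAll.succ (ClAll.succ (ClAll.succ (ClAll.succ ClAll.zero s556) s557) s558) s559) s560) s561) s562) n363) s580) s581) s582) s583)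

def n411 : Cl (O (nat_lit 1)) (R (nat_lit 14353))
    (p (nat_lit 0x111) (nat_lit 1) (p (nat_lit 0xd1) (nat_lit 1) (p (nat_lit 0xc1) (nat_lit 0) (p (nat_lit 0x119) (nat_lit 1) (p (nat_lit 0xc9) (nat_lit 0) (p (nat_lit 0x89) (nat_lit 1) (p (nat_lit 0x41) (nat_lit 0) (p (nat_lit 0x8090887069a) (nat_lit 0) (p (nat_lit 0x7870806861a) (nat_lit 0) (p (nat_lit 0x800070786058a) (nat_lit 0) (p (nat_lit 0x787058502) (nat_lit 0) (p (nat_lit 0x586850482) (nat_lit 0) (p (nat_lit 0x160014) (nat_lit 0) (p (nat_lit 0x16000c) (nat_lit 0) (p (nat_lit 0x68612) (nat_lit 0) (p (nat_lit 0x50592) (nat_lit 0) (p (nat_lit 0x40512) (nat_lit 0) (p (nat_lit 0x50312) (nat_lit 0) (p (nat_lit 0x38292) (nat_lit 0) (p (nat_lit 0x28212) (nat_lit 0) (p (nat_lit 0x38112) (nat_lit 0) (p (nat_lit 0x20092) (nat_lit 0) (p (nat_lit 0x10012) (nat_lit 0) pn))))))))))))))))))))))) :=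
  Cl.node (nat_lit 0x444aa) (nat_lit 12) (by decide +kernel) (ClAll.succ (ClAll.succ (ClAll.succ (ClAll.succ (ClAll.succ (ClAll.succ (ClAll.succ (ClAll.succ (ClAll.succ (ClAll.succ (ClAll.succ (ClAll.succ ClAll.zero s587) s588) s589) s590) s591) s592) s593) n364) s603) s604) s605) s606)

def n412 : Cl (O (nat_lit 1)) (R (nat_lit 14353))
    (p (nat_lit 0x111) (nat_lit 0) (p (nat_lit 0x101) (nat_lit 0) (p (nat_lit 0xc1) (nat_lit 1) (p (nat_lit 0x119) (nat_lit 1) (p (nat_lit 0xc9) (nat_lit 0) (p (nat_lit 0x89) (nat_lit 1) (p (nat_lit 0x41) (nat_lit 0) (p (nat_lit 0x8090887069a) (nat_lit 0) (p (nat_lit 0x7870806861a) (nat_lit 0) (p (nat_lit 0x800070786058a) (nat_lit 0) (p (nat_lit 0x787058502) (nat_lit 0) (p (nat_lit 0x586850482) (nat_lit 0) (p (nat_lit 0x160014) (nat_lit 0) (p (nat_lit 0x16000c) (nat_lit 0) (p (nat_lit 0x68612) (nat_lit 0) (p (nat_lit 0x50592) (nat_lit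 0) (p (nat_lit 0x40512) (nat_lit 0) (p (nat_lit 0x50312) (nat_lit 0) (p (nat_lit 0x38292) (nat_lit 0) (p (nat_lit 0x28212) (nat_lit 0) (p (nat_lit 0x38112) (nat_lit 0) (p (nat_lit 0x20092) (nat_lit 0) (p (nat_lit 0x10012) (nat_lit 0) pn))))))))))))))))))))))) :=
  Cl.node (nat_lit 0x44c2a) (nat_lit 12) (by decide +kernel) (ClAll.succ (ClAll.succ (ClAll.succ (ClAll.succ (ClAll.succ (ClAll.succ (ClAll.succ (ClAll.succ (ClAll.succ (ClAll.succ (ClAll.succ (ClAll.succ ClAll.zero n365) n366) s629) s630) s631) s632) s633) s634) s635) s636) s637) s638)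

def n413 : Cl (O (nat_lit 1)) (R (nat_lit 14353))
    (p (nat_lit 0x111) (nat_lit 1) (p (nat_lit 0x101) (nat_lit 0) (p (nat_lit 0xc1) (nat_lit 1) (p (nat_lit 0x119) (nat_lit 1) (p (nat_lit 0xc9) (nat_lit 0) (p (nat_lit 0x89) (nat_lit 1) (p (nat_lit 0x41) (nat_lit 0) (p (nat_lit 0x8090887069a) (nat_lit 0) (p (nat_lit 0x7870806861a) (nat_lit 0) (p (nat_lit 0x800070786058a) (nat_lit 0) (p (nat_lit 0x787058502) (nat_lit 0) (p (nat_lit 0x586850482) (nat_lit 0) (p (nat_lit 0x160014) (nat_lit 0) (p (nat_lit 0x16000c) (nat_lit 0) (p (nat_lit 0x68612) (nat_lit 0) (p (nat_lit 0x50592) (nat_lit 0) (p (nat_lit 0x40512) (nat_lit 0) (p (nat_lit 0x50312) (nat_lit 0) (p (nat_lit 0x38292) (nat_lit 0) (p (nat_lit 0x28212) (nat_lit 0) (p (nat_lit 0x38112) (nat_lit 0) (p (nat_lit 0x20092) (nat_lit 0) (p (nat_lit 0x10012) (nat_lit 0) pn))))))))))))))))))))))) :=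
  Cl.node (nat_lit 0x444aa) (nat_lit 12) (by decide +kernel) (ClAll.succ (ClAll.succ (ClAll.succ (ClAll.succ (ClAll.succ (ClAll.succ (ClAll.succ (ClAll.succ (ClAll.succ (ClAll.succ (ClAll.succ (ClAll.succ ClAll.zero s639) s640) s641) s642) s643) s644) s645) n367) s663) s664) s665) s666)

def n414 : Cl (O (nat_lit 1)) (R (nat_lit 14353))
    (p (nat_lit 0x444aa) (nat_lit 8) (p (nat_lit 0x101) (nat_lit 1) (p (nat_lit 0xc1) (nat_lit 1) (p (nat_lit 0x119) (nat_lit 1) (p (nat_lit 0xc9) (nat_lit 0) (p (nat_lit 0x89) (nat_lit 1) (p (nat_lit 0x41) (nat_lit 0) (p (nat_lit 0x8090887069a) (nat_lit 0) (p (nat_lit 0x7870806861a) (nat_lit 0) (p (nat_lit 0x800070786058a) (nat_lit 0) (p (nat_lit 0x787058502) (nat_lit 0) (p (nat_lit 0x586850482) (nat_lit 0) (p (nat_lit 0x160014) (nat_lit 0) (p (nat_lit 0x16000c) (nat_lit 0) (p (nat_lit 0x68612) (nat_lit 0) (p (nat_lit 0x50592) (nat_lit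 0) (p (nat_lit 0x40512) (nat_lit 0) (p (nat_lit 0x50312) (nat_lit 0) (p (nat_lit 0x38292) (nat_lit 0) (p (nat_lit 0x28212) (nat_lit 0) (p (nat_lit 0x38112) (nat_lit 0) (p (nat_lit 0x20092) (nat_lit 0) (p (nat_lit 0x10012) (nat_lit 0) pn))))))))))))))))))))))) :=
  Cl.node (nat_lit 0x380c2) (nat_lit 2) (by decide +kernel) (ClAll.succ (ClAll.succ ClAll.zero s675) s676)

def n415 : Cl (O (nat_lit 1)) (R (nat_lit 14353))
    (p (nat_lit 0x89) (nat_lit 0) (p (nat_lit 0x109) (nat_lit 1) (p (nat_lit 0x101) (nat_lit 0) (p (nat_lit 0x119) (nat_lit 0) (p (nat_lit 0xd1) (nat_lit 0) (p (nat_lit 0x81) (nat_lit 0) (p (nat_lit 0x41) (nat_lit 1) (p (nat_lit 0x8090887069a) (nat_lit 0) (p (nat_lit 0x7870806861a) (nat_lit 0) (p (nat_lit 0x800070786058a) (nat_lit 0) (p (nat_lit 0x787058502) (nat_lit 0) (p (nat_lit 0x586850482) (nat_lit 0) (p (nat_lit 0x160014) (nat_lit 0) (p (nat_lit 0x16000c)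 (nat_lit 0) (p (nat_lit 0x68612) (nat_lit 0) (p (nat_lit 0x50592) (nat_lit 0) (p (nat_lit 0x40512) (nat_lit 0) (p (nat_lit 0x50312) (nat_lit 0) (p (nat_lit 0x38292) (nat_lit 0) (p (nat_lit 0x28212) (nat_lit 0) (p (nat_lit 0x38112) (nat_lit 0) (p (nat_lit 0x20092) (nat_lit 0) (p (nat_lit 0x10012) (nat_lit 0) pn))))))))))))))))))))))) :=
  Cl.node (nat_lit 0x111) (nat_lit 2) (by decide +kernel) (ClAll.succ (ClAll.succ ClAll.zero n368) n369)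

def n416 : Cl (O (nat_lit 1)) (R (nat_lit 14353))
    (p (nat_lit 0x89) (nat_lit 1) (p (nat_lit 0x109) (nat_lit 1) (p (nat_lit 0x101) (nat_lit 0) (p (nat_lit 0x119) (nat_lit 0) (p (nat_lit 0xd1) (nat_lit 0) (p (nat_lit 0x81) (nat_lit 0) (p (nat_lit 0x41) (nat_lit 1) (p (nat_lit 0x8090887069a) (nat_lit 0) (p (nat_lit 0x7870806861a) (nat_lit 0) (p (nat_lit 0x800070786058a) (nat_lit 0) (p (nat_lit 0x787058502) (nat_lit 0) (p (nat_lit 0x586850482) (nat_lit 0) (p (nat_lit 0x160014) (nat_lit 0) (p (nat_lit 0x16000c) (nat_lit 0) (p (nat_lit 0x68612) (nat_lit 0) (p (nat_lit 0x50592) (nat_lit 0) (p (nat_lit 0x40512) (nat_lit 0) (p (nat_lit 0x50312) (nat_lit 0) (p (nat_lit 0x38292) (nat_lit 0) (p (nat_lit 0x28212) (nat_lit 0) (p (nat_lit 0x38112) (nat_lit 0) (p (nat_lit 0x20092) (nat_lit 0) (p (nat_lit 0x10012) (nat_lit 0) pn))))))))))))))))))))))) :=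
  Cl.node (nat_lit 0xc9) (nat_lit 2) (by decide +kernel) (ClAll.succ (ClAll.succ ClAll.zero n370) s775)

def n417 : Cl (O (nat_lit 1)) (R (nat_lit 14353))
    (p (nat_lit 0x89) (nat_lit 0) (p (nat_lit 0xc1) (nat_lit 0) (p (nat_lit 0x101) (nat_lit 1) (p (nat_lit 0x119) (nat_lit 0) (p (nat_lit 0xd1) (nat_lit 0) (p (nat_lit 0x81) (nat_lit 0) (p (nat_lit 0x41) (nat_lit 1) (p (nat_lit 0x8090887069a) (nat_lit 0) (p (nat_lit 0x7870806861a) (nat_lit 0) (p (nat_lit 0x800070786058a) (nat_lit 0) (p (nat_lit 0x787058502) (nat_lit 0) (p (nat_lit 0x586850482) (nat_lit 0) (p (nat_lit 0x160014) (nat_lit 0) (p (nat_lit 0x16000c) (nat_lit 0) (p (nat_lit 0x68612) (nat_lit 0) (p (nat_lit 0x50592) (nat_lit 0) (p (nat_lit 0x40512) (nat_lit 0) (p (nat_lit 0x50312) (nat_lit 0) (p (nat_lit 0x38292) (nat_lit 0) (p (nat_lit 0x28212) (nat_lit 0) (p (nat_lit 0x38112) (nat_lit 0) (p (nat_lit 0x20092)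 (nat_lit 0) (p (nat_lit 0x10012) (nat_lit 0) pn))))))))))))))))))))))) :=
  Cl.node (nat_lit 0x3cc2a) (nat_lit 12) (by decide +kernel) (ClAll.succ (ClAll.succ (ClAll.succ (ClAll.succ (ClAll.succ (ClAll.succ (ClAll.succ (ClAll.succ (ClAll.succ (ClAll.succ (ClAll.succ (ClAll.succ ClAll.zero s776) s777) s778) s779) s780) s781) s782) s783) s784) s785) s786) n371)

def n418 : Cl (O (nat_lit 1)) (R (nat_lit 14353))
    (p (nat_lit 0x89) (nat_lit 1) (p (nat_lit 0xc1) (nat_lit 0) (p (nat_lit 0x101) (nat_lit 1) (p (nat_lit 0x119) (nat_lit 0) (p (nat_lit 0xd1) (nat_lit 0) (p (nat_lit 0x81) (nat_lit 0) (p (nat_lit 0x41) (nat_lit 1) (p (nat_lit 0x8090887069a) (nat_lit 0) (p (nat_lit 0x7870806861a) (nat_lit 0) (p (nat_lit 0x800070786058a) (nat_lit 0) (p (nat_lit 0x787058502) (nat_lit 0) (p (nat_lit 0x586850482) (nat_lit 0) (p (nat_lit 0x160014) (nat_lit 0) (p (nat_lit 0x16000c) (nat_lit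 0) (p (nat_lit 0x68612) (nat_lit 0) (p (nat_lit 0x50592) (nat_lit 0) (p (nat_lit 0x40512) (nat_lit 0) (p (nat_lit 0x50312) (nat_lit 0) (p (nat_lit 0x38292) (nat_lit 0) (p (nat_lit 0x28212) (nat_lit 0) (p (nat_lit 0x38112) (nat_lit 0) (p (nat_lit 0x20092) (nat_lit 0) (p (nat_lit 0x10012) (nat_lit 0) pn))))))))))))))))))))))) :=
  Cl.node (nat_lit 0xc9) (nat_lit 2) (by decide +kernel) (ClAll.succ (ClAll.succ ClAll.zero n372) n373)

def n419 : Cl (O (nat_lit 1)) (R (nat_lit 14353))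
    (p (nat_lit 0x89) (nat_lit 0) (p (nat_lit 0xc1) (nat_lit 1) (p (nat_lit 0x101) (nat_lit 1) (p (nat_lit 0x119) (nat_lit 0) (p (nat_lit 0xd1) (nat_lit 0) (p (nat_lit 0x81) (nat_lit 0) (p (nat_lit 0x41) (nat_lit 1) (p (nat_lit 0x8090887069a) (nat_lit 0) (p (nat_lit 0x7870806861a) (nat_lit 0) (p (nat_lit 0x800070786058a) (nat_lit 0) (p (nat_lit 0x787058502) (nat_lit 0) (p (nat_lit 0x586850482) (nat_lit 0) (p (nat_lit 0x160014) (nat_lit 0) (p (nat_lit 0x16000c) (nat_lit 0) (p (nat_lit 0x68612) (nat_lit 0) (p (nat_lit 0x50592) (nat_lit 0) (p (nat_lit 0x40512) (nat_lit 0) (p (nat_lit 0x50312) (nat_lit 0) (p (nat_lit 0x38292) (nat_lit 0) (p (nat_lit 0x28212) (nat_lit 0) (p (nat_lit 0x38112) (nat_lit 0) (p (nat_lit 0x20092) (nat_lit 0) (p (nat_lit 0x10012) (nat_lit 0) pn))))))))))))))))))))))) :=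
  Cl.node (nat_lit 0x3cc2a) (nat_lit 12) (by decide +kernel) (ClAll.succ (ClAll.succ (ClAll.succ (ClAll.succ (ClAll.succ (ClAll.succ (ClAll.succ (ClAll.succ (ClAll.succ (ClAll.succ (ClAll.succ (ClAll.succ ClAll.zero s837) s838) s839) s840) s841) s842) s843) s844) s845) s846) s847) s848)

def n420 : Cl (O (nat_lit 1)) (R (nat_lit 14353))
    (p (nat_lit 0x89) (nat_lit 1) (p (nat_lit 0xc1) (nat_lit 1) (p (nat_lit 0x101) (nat_lit 1) (p (nat_lit 0x119) (nat_lit 0) (p (nat_lit 0xd1) (nat_lit 0) (p (nat_lit 0x81) (nat_lit 0) (p (nat_lit 0x41) (nat_lit 1) (p (nat_lit 0x8090887069a) (nat_lit 0) (p (nat_lit 0x7870806861a) (nat_lit 0) (p (nat_lit 0x800070786058a) (nat_lit 0) (p (nat_lit 0x787058502) (nat_lit 0) (p (nat_lit 0x586850482) (nat_lit 0) (p (nat_lit 0x160014) (nat_lit 0) (p (nat_lit 0x16000c) (nat_lit 0) (p (nat_lit 0x68612) (nat_lit 0) (p (nat_lit 0x50592) (nat_lit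 0) (p (nat_lit 0x40512) (nat_lit 0) (p (nat_lit 0x50312) (nat_lit 0) (p (nat_lit 0x38292) (nat_lit 0) (p (nat_lit 0x28212) (nat_lit 0) (p (nat_lit 0x38112) (nat_lit 0) (p (nat_lit 0x20092) (nat_lit 0) (p (nat_lit 0x10012) (nat_lit 0) pn))))))))))))))))))))))) :=
  Cl.node (nat_lit 0x3c4aa) (nat_lit 12) (by decide +kernel) (ClAll.succ (ClAll.succ (ClAll.succ (ClAll.succ (ClAll.succ (ClAll.succ (ClAll.succ (ClAll.succ (ClAll.succ (ClAll.succ (ClAll.succ (ClAll.succ ClAll.zero s849) s850) s851) s852) s853) s854) s855) n374) s858) s859) s860) s861)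

def n421 : Cl (O (nat_lit 1)) (R (nat_lit 14353))
    (p (nat_lit 0x89) (nat_lit 1) (p (nat_lit 0xc9) (nat_lit 1) (p (nat_lit 0xc1) (nat_lit 0) (p (nat_lit 0x119) (nat_lit 1) (p (nat_lit 0xd1) (nat_lit 0) (p (nat_lit 0x81) (nat_lit 0) (p (nat_lit 0x41) (nat_lit 1) (p (nat_lit 0x8090887069a) (nat_lit 0) (p (nat_lit 0x7870806861a) (nat_lit 0) (p (nat_lit 0x800070786058a) (nat_lit 0) (p (nat_lit 0x787058502) (nat_lit 0) (p (nat_lit 0x586850482) (nat_lit 0) (p (nat_lit 0x160014) (nat_lit 0) (p (nat_lit 0x16000c) (nat_lit 0) (p (nat_lit 0x68612) (nat_lit 0) (p (nat_lit 0x50592) (nat_lit 0) (p (nat_lit 0x40512) (nat_lit 0) (p (nat_lit 0x50312) (nat_lit 0) (p (nat_lit 0x38292) (nat_lit 0) (p (nat_lit 0x28212) (nat_lit 0) (p (nat_lit 0x38112) (nat_lit 0) (p (nat_lit 0x20092) (nat_lit 0) (p (nat_lit 0x10012) (nat_lit 0) pn))))))))))))))))))))))) :=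
  Cl.node (nat_lit 0x109) (nat_lit 2) (by decide +kernel) (ClAll.succ (ClAll.succ ClAll.zero n375) n376)

def n422 : Cl (O (nat_lit 1)) (R (nat_lit 14353))
    (p (nat_lit 0x89) (nat_lit 0) (p (nat_lit 0x101) (nat_lit 0) (p (nat_lit 0xc1) (nat_lit 1) (p (nat_lit 0x119) (nat_lit 1) (p (nat_lit 0xd1) (nat_lit 0) (p (nat_lit 0x81) (nat_lit 0) (p (nat_lit 0x41) (nat_lit 1) (p (nat_lit 0x8090887069a) (nat_lit 0) (p (nat_lit 0x7870806861a) (nat_lit 0) (p (nat_lit 0x800070786058a) (nat_lit 0) (p (nat_lit 0x787058502) (nat_lit 0) (p (nat_lit 0x586850482) (nat_lit 0) (p (nat_lit 0x160014) (nat_lit 0) (p (nat_lit 0x16000c) (nat_lit 0) (p (nat_lit 0x68612) (nat_lit 0) (p (nat_lit 0x50592) (nat_lit 0) (p (nat_lit 0x40512) (nat_lit 0) (p (nat_lit 0x50312) (nat_lit 0) (p (nat_lit 0x38292) (nat_lit 0) (p (nat_lit 0x28212) (nat_lit 0) (p (nat_lit 0x38112) (nat_lit 0) (p (nat_lit 0x20092)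 (nat_lit 0) (p (nat_lit 0x10012) (nat_lit 0) pn))))))))))))))))))))))) :=
  Cl.node (nat_lit 0x44c2a) (nat_lit 12) (by decide +kernel) (ClAll.succ (ClAll.succ (ClAll.succ (ClAll.succ (ClAll.succ (ClAll.succ (ClAll.succ (ClAll.succ (ClAll.succ (ClAll.succ (ClAll.succ (ClAll.succ ClAll.zero s899) s900) s901) s902) s903) s904) s905) s906) s907) s908) s909) s910)

def n423 : Cl (O (nat_lit 1)) (R (nat_lit 14353))
    (p (nat_lit 0x89) (nat_lit 1) (p (nat_lit 0x101) (nat_lit 0) (p (nat_lit 0xc1) (nat_lit 1) (p (nat_lit 0x119) (nat_lit 1) (p (nat_lit 0xd1) (nat_lit 0) (p (nat_lit 0x81) (nat_lit 0) (p (nat_lit 0x41) (nat_lit 1) (p (nat_lit 0x8090887069a) (nat_lit 0) (p (nat_lit 0x7870806861a) (nat_lit 0) (p (nat_lit 0x800070786058a) (nat_lit 0) (p (nat_lit 0x787058502) (nat_lit 0) (p (nat_lit 0x586850482) (nat_lit 0) (p (nat_lit 0x160014) (nat_lit 0) (p (nat_lit 0x16000c) (nat_lit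 0) (p (nat_lit 0x68612) (nat_lit 0) (p (nat_lit 0x50592) (nat_lit 0) (p (nat_lit 0x40512) (nat_lit 0) (p (nat_lit 0x50312) (nat_lit 0) (p (nat_lit 0x38292) (nat_lit 0) (p (nat_lit 0x28212) (nat_lit 0) (p (nat_lit 0x38112) (nat_lit 0) (p (nat_lit 0x20092) (nat_lit 0) (p (nat_lit 0x10012) (nat_lit 0) pn))))))))))))))))))))))) :=
  Cl.node (nat_lit 0x109) (nat_lit 2) (by decide +kernel) (ClAll.succ (ClAll.succ ClAll.zero n377) n378)

def n424 : Cl (O (nat_lit 1)) (R (nat_lit 14353))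
    (p (nat_lit 0x89) (nat_lit 0) (p (nat_lit 0x101) (nat_lit 1) (p (nat_lit 0xc1) (nat_lit 1) (p (nat_lit 0x119) (nat_lit 1) (p (nat_lit 0xd1) (nat_lit 0) (p (nat_lit 0x81) (nat_lit 0) (p (nat_lit 0x41) (nat_lit 1) (p (nat_lit 0x8090887069a) (nat_lit 0) (p (nat_lit 0x7870806861a) (nat_lit 0) (p (nat_lit 0x800070786058a) (nat_lit 0) (p (nat_lit 0x787058502) (nat_lit 0) (p (nat_lit 0x586850482) (nat_lit 0) (p (nat_lit 0x160014) (nat_lit 0) (p (nat_lit 0x16000c) (nat_lit 0) (p (nat_lit 0x68612) (nat_lit 0) (p (nat_lit 0x50592) (nat_lit 0) (p (nat_lit 0x40512) (nat_lit 0) (p (nat_lit 0x50312) (nat_lit 0) (p (nat_lit 0x38292) (nat_lit 0) (p (nat_lit 0x28212) (nat_lit 0) (p (nat_lit 0x38112) (nat_lit 0) (p (nat_lit 0x20092) (nat_lit 0) (p (nat_lit 0x10012) (nat_lit 0) pn))))))))))))))))))))))) :=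
  Cl.node (nat_lit 0x3cc2a) (nat_lit 12) (by decide +kernel) (ClAll.succ (ClAll.succ (ClAll.succ (ClAll.succ (ClAll.succ (ClAll.succ (ClAll.succ (ClAll.succ (ClAll.succ (ClAll.succ (ClAll.succ (ClAll.succ ClAll.zero s946) s947) s948) s949) s950) s951) s952) s953) s954) s955) s956) n379)

def n425 : Cl (O (nat_lit 1)) (R (nat_lit 14353))
    (p (nat_lit 0x89) (nat_lit 1) (p (nat_lit 0x101) (nat_lit 1) (p (nat_lit 0xc1) (nat_lit 1) (p (nat_lit 0x119) (nat_lit 1) (p (nat_lit 0xd1) (nat_lit 0) (p (nat_lit 0x81) (nat_lit 0) (p (nat_lit 0x41) (nat_lit 1) (p (nat_lit 0x8090887069a) (nat_lit 0) (p (nat_lit 0x7870806861a) (nat_lit 0) (p (nat_lit 0x800070786058a) (nat_lit 0) (p (nat_lit 0x787058502) (nat_lit 0) (p (nat_lit 0x586850482) (nat_lit 0) (p (nat_lit 0x160014) (nat_lit 0) (p (nat_lit 0x16000c) (nat_lit 0) (p (nat_lit 0x68612) (nat_lit 0) (p (nat_lit 0x50592) (nat_lit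 0) (p (nat_lit 0x40512) (nat_lit 0) (p (nat_lit 0x50312) (nat_lit 0) (p (nat_lit 0x38292) (nat_lit 0) (p (nat_lit 0x28212) (nat_lit 0) (p (nat_lit 0x38112) (nat_lit 0) (p (nat_lit 0x20092) (nat_lit 0) (p (nat_lit 0x10012) (nat_lit 0) pn))))))))))))))))))))))) :=
  Cl.node (nat_lit 0x3c4aa) (nat_lit 12) (by decide +kernel) (ClAll.succ (ClAll.succ (ClAll.succ (ClAll.succ (ClAll.succ (ClAll.succ (ClAll.succ (ClAll.succ (ClAll.succ (ClAll.succ (ClAll.succ (ClAll.succ ClAll.zero s960) s961) s962) s963) s964) s965) s966) n380) s970) s971) s972) s973)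

def n426 : Cl (O (nat_lit 1)) (R (nat_lit 14353))
    (p (nat_lit 0x89) (nat_lit 0) (p (nat_lit 0x109) (nat_lit 1) (p (nat_lit 0x101) (nat_lit 0) (p (nat_lit 0x111) (nat_lit 0) (p (nat_lit 0xd1) (nat_lit 1) (p (nat_lit 0x81) (nat_lit 0) (p (nat_lit 0x41) (nat_lit 1) (p (nat_lit 0x8090887069a) (nat_lit 0) (p (nat_lit 0x7870806861a) (nat_lit 0) (p (nat_lit 0x800070786058a) (nat_lit 0) (p (nat_lit 0x787058502) (nat_lit 0) (p (nat_lit 0x586850482) (nat_lit 0) (p (nat_lit 0x160014) (nat_lit 0) (p (nat_lit 0x16000c) (nat_lit 0) (p (nat_lit 0x68612) (nat_lit 0) (p (nat_lit 0x50592) (nat_lit 0) (p (nat_lit 0x40512) (nat_lit 0) (p (nat_lit 0x50312) (nat_lit 0) (p (nat_lit 0x38292) (nat_lit 0) (p (nat_lit 0x28212) (nat_lit 0) (p (nat_lit 0x38112) (nat_lit 0) (p (nat_lit 0x20092) (nat_lit 0) (p (nat_lit 0x10012) (nat_lit 0) pn))))))))))))))))))))))) :=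
  Cl.node (nat_lit 0x119) (nat_lit 2) (by decide +kernel) (ClAll.succ (ClAll.succ ClAll.zero s975) n381)

def n427 : Cl (O (nat_lit 1)) (R (nat_lit 14353))
    (p (nat_lit 0x89) (nat_lit 1) (p (nat_lit 0x109) (nat_lit 1) (p (nat_lit 0x101) (nat_lit 0) (p (nat_lit 0x111) (nat_lit 0) (p (nat_lit 0xd1) (nat_lit 1) (p (nat_lit 0x81) (nat_lit 0) (p (nat_lit 0x41) (nat_lit 1) (p (nat_lit 0x8090887069a) (nat_lit 0) (p (nat_lit 0x7870806861a) (nat_lit 0) (p (nat_lit 0x800070786058a) (nat_lit 0) (p (nat_lit 0x787058502) (nat_lit 0) (p (nat_lit 0x586850482) (nat_lit 0) (p (nat_lit 0x160014) (nat_lit 0) (p (nat_lit 0x16000c) (nat_lit 0) (p (nat_lit 0x68612) (nat_lit 0) (p (nat_lit 0x50592) (nat_lit 0) (p (nat_lit 0x40512) (nat_lit 0) (p (nat_lit 0x50312) (nat_lit 0) (p (nat_lit 0x38292) (nat_lit 0) (p (nat_lit 0x28212) (nat_lit 0) (p (nat_lit 0x38112) (nat_lit 0) (p (nat_lit 0x20092)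 (nat_lit 0) (p (nat_lit 0x10012) (nat_lit 0) pn))))))))))))))))))))))) :=
  Cl.node (nat_lit 0xc9) (nat_lit 2) (by decide +kernel) (ClAll.succ (ClAll.succ ClAll.zero n382) s1013)

def n428 : Cl (O (nat_lit 1)) (R (nat_lit 14353))
    (p (nat_lit 0xc9) (nat_lit 0) (p (nat_lit 0x89) (nat_lit 1) (p (nat_lit 0x101) (nat_lit 1) (p (nat_lit 0x111) (nat_lit 0) (p (nat_lit 0xd1) (nat_lit 1) (p (nat_lit 0x81) (nat_lit 0) (p (nat_lit 0x41) (nat_lit 1) (p (nat_lit 0x8090887069a) (nat_lit 0) (p (nat_lit 0x7870806861a) (nat_lit 0) (p (nat_lit 0x800070786058a) (nat_lit 0) (p (nat_lit 0x787058502) (nat_lit 0) (p (nat_lit 0x586850482) (nat_lit 0) (p (nat_lit 0x160014) (nat_lit 0) (p (nat_lit 0x16000c) (nat_lit 0) (p (nat_lit 0x68612) (nat_lit 0) (p (nat_lit 0x50592) (nat_lit 0) (p (nat_lit 0x40512) (nat_lit 0) (p (nat_lit 0x50312) (nat_lit 0) (p (nat_lit 0x38292) (nat_lit 0) (p (nat_lit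 0x28212) (nat_lit 0) (p (nat_lit 0x38112) (nat_lit 0) (p (nat_lit 0x20092) (nat_lit 0) (p (nat_lit 0x10012) (nat_lit 0) pn))))))))))))))))))))))) :=
  Cl.node (nat_lit 0x3cc2a) (nat_lit 12) (by decide +kernel) (ClAll.succ (ClAll.succ (ClAll.succ (ClAll.succ (ClAll.succ (ClAll.succ (ClAll.succ (ClAll.succ (ClAll.succ (ClAll.succ (ClAll.succ (ClAll.succ ClAll.zero s1026) s1027) s1028) s1029) s1030) s1031) s1032) s1033) s1034) s1035) s1036) s1037)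

def n429 : Cl (O (nat_lit 1)) (R (nat_lit 14353))
    (p (nat_lit 0xc9) (nat_lit 1) (p (nat_lit 0x89) (nat_lit 1) (p (nat_lit 0x101) (nat_lit 1) (p (nat_lit 0x111) (nat_lit 0) (p (nat_lit 0xd1) (nat_lit 1) (p (nat_lit 0x81) (nat_lit 0) (p (nat_lit 0x41) (nat_lit 1) (p (nat_lit 0x8090887069a) (nat_lit 0) (p (nat_lit 0x7870806861a) (nat_lit 0) (p (nat_lit 0x800070786058a) (nat_lit 0) (p (nat_lit 0x787058502) (nat_lit 0) (p (nat_lit 0x586850482) (nat_lit 0) (p (nat_lit 0x160014) (nat_lit 0) (p (nat_lit 0x16000c) (nat_lit 0) (p (nat_lit 0x68612) (nat_lit 0) (p (nat_lit 0x50592) (nat_lit 0) (p (nat_lit 0x40512) (nat_lit 0) (p (nat_lit 0x50312) (nat_lit 0) (p (nat_lit 0x38292) (nat_lit 0) (p (nat_lit 0x28212) (nat_lit 0) (p (nat_lit 0x38112) (nat_lit 0) (p (nat_lit 0x20092) (nat_lit 0) (p (nat_lit 0x10012) (nat_lit 0) pn))))))))))))))))))))))) :=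
  Cl.node (nat_lit 0x3c4aa) (nat_lit 12) (by decide +kernel) (ClAll.succ (ClAll.succ (ClAll.succ (ClAll.succ (ClAll.succ (ClAll.succ (ClAll.succ (ClAll.succ (ClAll.succ (ClAll.succ (ClAll.succ (ClAll.succ ClAll.zero s1038) s1039) s1040) s1041) s1042) s1043) s1044) s1045) s1046) s1047) s1048) s1049)

def n430 : Cl (O (nat_lit 1)) (R (nat_lit 14353))
    (p (nat_lit 0x109) (nat_lit 0) (p (nat_lit 0xc9) (nat_lit 1) (p (nat_lit 0x89) (nat_lit 1) (p (nat_lit 0x111) (nat_lit 1) (p (nat_lit 0xd1) (nat_lit 1) (p (nat_lit 0x81) (nat_lit 0) (p (nat_lit 0x41) (nat_lit 1) (p (nat_lit 0x8090887069a) (nat_lit 0) (p (nat_lit 0x7870806861a) (nat_lit 0) (p (nat_lit 0x800070786058a) (nat_lit 0) (p (nat_lit 0x787058502) (nat_lit 0) (p (nat_lit 0x586850482) (nat_lit 0) (p (nat_lit 0x160014) (nat_lit 0) (p (nat_lit 0x16000c) (nat_lit 0) (p (nat_lit 0x68612) (nat_lit 0) (p (nat_lit 0x50592)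 (nat_lit 0) (p (nat_lit 0x40512) (nat_lit 0) (p (nat_lit 0x50312) (nat_lit 0) (p (nat_lit 0x38292) (nat_lit 0) (p (nat_lit 0x28212) (nat_lit 0) (p (nat_lit 0x38112) (nat_lit 0) (p (nat_lit 0x20092) (nat_lit 0) (p (nat_lit 0x10012) (nat_lit 0) pn))))))))))))))))))))))) :=
  Cl.node (nat_lit 0x3cc2a) (nat_lit 12) (by decide +kernel) (ClAll.succ (ClAll.succ (ClAll.succ (ClAll.succ (ClAll.succ (ClAll.succ (ClAll.succ (ClAll.succ (ClAll.succ (ClAll.succ (ClAll.succ (ClAll.succ ClAll.zero s1052) s1053) s1054) s1055) s1056) s1057) s1058) s1059) s1060) s1061) s1062) s1063)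

def n431 : Cl (O (nat_lit 1)) (R (nat_lit 14353))
    (p (nat_lit 0x109) (nat_lit 1) (p (nat_lit 0xc9) (nat_lit 1) (p (nat_lit 0x89) (nat_lit 1) (p (nat_lit 0x111) (nat_lit 1) (p (nat_lit 0xd1) (nat_lit 1) (p (nat_lit 0x81) (nat_lit 0) (p (nat_lit 0x41) (nat_lit 1) (p (nat_lit 0x8090887069a) (nat_lit 0) (p (nat_lit 0x7870806861a) (nat_lit 0) (p (nat_lit 0x800070786058a) (nat_lit 0) (p (nat_lit 0x787058502) (nat_lit 0) (p (nat_lit 0x586850482) (nat_lit 0) (p (nat_lit 0x160014) (nat_lit 0) (p (nat_lit 0x16000c) (nat_lit 0) (p (nat_lit 0x68612) (nat_lit 0) (p (nat_lit 0x50592) (nat_lit 0) (p (nat_lit 0x40512) (nat_lit 0) (p (nat_lit 0x50312) (nat_lit 0) (p (nat_lit 0x38292) (nat_lit 0) (p (nat_lit 0x28212) (nat_lit 0) (p (nat_lit 0x38112) (nat_lit 0) (p (nat_lit 0x20092) (nat_lit 0) (p (nat_lit 0x10012) (nat_lit 0) pn))))))))))))))))))))))) :=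
  Cl.node (nat_lit 0x3c4aa) (nat_lit 12) (by decide +kernel) (ClAll.succ (ClAll.succ (ClAll.succ (ClAll.succ (ClAll.succ (ClAll.succ (ClAll.succ (ClAll.succ (ClAll.succ (ClAll.succ (ClAll.succ (ClAll.succ ClAll.zero s1064) s1065) s1066) s1067) s1068) s1069) s1070) s1071) s1072) n383) s1076) s1077)

def n432 : Cl (O (nat_lit 1)) (R (nat_lit 14353))
    (p (nat_lit 0x111) (nat_lit 1) (p (nat_lit 0x109) (nat_lit 0) (p (nat_lit 0x101) (nat_lit 0) (p (nat_lit 0x119) (nat_lit 0) (p (nat_lit 0xc1) (nat_lit 0) (p (nat_lit 0x81) (nat_lit 1) (p (nat_lit 0x41) (nat_lit 1) (p (nat_lit 0x8090887069a) (nat_lit 0) (p (nat_lit 0x7870806861a) (nat_lit 0) (p (nat_lit 0x800070786058a) (nat_lit 0) (p (nat_lit 0x787058502) (nat_lit 0) (p (nat_lit 0x586850482) (nat_lit 0) (p (nat_lit 0x160014) (nat_lit 0) (p (nat_lit 0x16000c) (nat_lit 0) (p (nat_lit 0x68612) (nat_lit 0) (p (nat_lit 0x50592)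 (nat_lit 0) (p (nat_lit 0x40512) (nat_lit 0) (p (nat_lit 0x50312) (nat_lit 0) (p (nat_lit 0x38292) (nat_lit 0) (p (nat_lit 0x28212) (nat_lit 0) (p (nat_lit 0x38112) (nat_lit 0) (p (nat_lit 0x20092) (nat_lit 0) (p (nat_lit 0x10012) (nat_lit 0) pn))))))))))))))))))))))) :=
  Cl.node (nat_lit 0xd1) (nat_lit 2) (by decide +kernel) (ClAll.succ (ClAll.succ ClAll.zero s1079) n384)

def n433 : Cl (O (nat_lit 1)) (R (nat_lit 14353))
    (p (nat_lit 0xc9) (nat_lit 0) (p (nat_lit 0x109) (nat_lit 1) (p (nat_lit 0x101) (nat_lit 0) (p (nat_lit 0x119) (nat_lit 0) (p (nat_lit 0xc1) (nat_lit 0) (p (nat_lit 0x81) (nat_lit 1) (p (nat_lit 0x41) (nat_lit 1) (p (nat_lit 0x8090887069a) (nat_lit 0) (p (nat_lit 0x7870806861a) (nat_lit 0) (p (nat_lit 0x800070786058a) (nat_lit 0) (p (nat_lit 0x787058502) (nat_lit 0) (p (nat_lit 0x586850482) (nat_lit 0) (p (nat_lit 0x160014) (nat_lit 0) (p (nat_lit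 0x16000c) (nat_lit 0) (p (nat_lit 0x68612) (nat_lit 0) (p (nat_lit 0x50592) (nat_lit 0) (p (nat_lit 0x40512) (nat_lit 0) (p (nat_lit 0x50312) (nat_lit 0) (p (nat_lit 0x38292) (nat_lit 0) (p (nat_lit 0x28212) (nat_lit 0) (p (nat_lit 0x38112) (nat_lit 0) (p (nat_lit 0x20092) (nat_lit 0) (p (nat_lit 0x10012) (nat_lit 0) pn))))))))))))))))))))))) :=
  Cl.node (nat_lit 0xd1) (nat_lit 2) (by decide +kernel) (ClAll.succ (ClAll.succ ClAll.zero s1107) n385)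

def n434 : Cl (O (nat_lit 1)) (R (nat_lit 14353))
    (p (nat_lit 0xd1) (nat_lit 0) (p (nat_lit 0xc9) (nat_lit 0) (p (nat_lit 0x101) (nat_lit 1) (p (nat_lit 0x119) (nat_lit 0) (p (nat_lit 0xc1) (nat_lit 0) (p (nat_lit 0x81) (nat_lit 1) (p (nat_lit 0x41) (nat_lit 1) (p (nat_lit 0x8090887069a) (nat_lit 0) (p (nat_lit 0x7870806861a) (nat_lit 0) (p (nat_lit 0x800070786058a) (nat_lit 0) (p (nat_lit 0x787058502) (nat_lit 0) (p (nat_lit 0x586850482) (nat_lit 0) (p (nat_lit 0x160014) (nat_lit 0) (p (nat_lit 0x16000c) (nat_lit 0) (p (nat_lit 0x68612) (nat_lit 0) (p (nat_lit 0x50592) (nat_lit 0) (p (nat_lit 0x40512) (nat_lit 0) (p (nat_lit 0x50312) (nat_lit 0) (p (nat_lit 0x38292) (nat_lit 0) (p (nat_lit 0x28212) (nat_lit 0) (p (nat_lit 0x38112) (nat_lit 0) (p (nat_lit 0x20092) (nat_lit 0) (p (nat_lit 0x10012) (nat_lit 0) pn))))))))))))))))))))))) :=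
  Cl.node (nat_lit 0x44c2a) (nat_lit 12) (by decide +kernel) (ClAll.succ (ClAll.succ (ClAll.succ (ClAll.succ (ClAll.succ (ClAll.succ (ClAll.succ (ClAll.succ (ClAll.succ (ClAll.succ (ClAll.succ (ClAll.succ ClAll.zero n386) n387) s1137) s1138) s1139) s1140) s1141) s1142) s1143) s1144) s1145) s1146)

def n435 : Cl (O (nat_lit 1)) (R (nat_lit 14353))
    (p (nat_lit 0xd1) (nat_lit 1) (p (nat_lit 0xc9) (nat_lit 0) (p (nat_lit 0x101) (nat_lit 1) (p (nat_lit 0x119) (nat_lit 0) (p (nat_lit 0xc1) (nat_lit 0) (p (nat_lit 0x81) (nat_lit 1) (p (nat_lit 0x41) (nat_lit 1) (p (nat_lit 0x8090887069a) (nat_lit 0) (p (nat_lit 0x7870806861a) (nat_lit 0) (p (nat_lit 0x800070786058a) (nat_lit 0) (p (nat_lit 0x787058502) (nat_lit 0) (p (nat_lit 0x586850482) (nat_lit 0) (p (nat_lit 0x160014) (nat_lit 0) (p (nat_lit 0x16000c) (nat_lit 0) (p (nat_lit 0x68612) (nat_lit 0) (p (nat_lit 0x50592)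 (nat_lit 0) (p (nat_lit 0x40512) (nat_lit 0) (p (nat_lit 0x50312) (nat_lit 0) (p (nat_lit 0x38292) (nat_lit 0) (p (nat_lit 0x28212) (nat_lit 0) (p (nat_lit 0x38112) (nat_lit 0) (p (nat_lit 0x20092) (nat_lit 0) (p (nat_lit 0x10012) (nat_lit 0) pn))))))))))))))))))))))) :=
  Cl.node (nat_lit 0x3c4aa) (nat_lit 12) (by decide +kernel) (ClAll.succ (ClAll.succ (ClAll.succ (ClAll.succ (ClAll.succ (ClAll.succ (ClAll.succ (ClAll.succ (ClAll.succ (ClAll.succ (ClAll.succ (ClAll.succ ClAll.zero s1147) s1148) s1149) s1150) s1151) s1152) s1153) n388) s1190) s1191) s1192) s1193)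

def n436 : Cl (O (nat_lit 1)) (R (nat_lit 14353))
    (p (nat_lit 0x111) (nat_lit 1) (p (nat_lit 0xd1) (nat_lit 1) (p (nat_lit 0xc9) (nat_lit 0) (p (nat_lit 0x119) (nat_lit 1) (p (nat_lit 0xc1) (nat_lit 0) (p (nat_lit 0x81) (nat_lit 1) (p (nat_lit 0x41) (nat_lit 1) (p (nat_lit 0x8090887069a) (nat_lit 0) (p (nat_lit 0x7870806861a) (nat_lit 0) (p (nat_lit 0x800070786058a) (nat_lit 0) (p (nat_lit 0x787058502) (nat_lit 0) (p (nat_lit 0x586850482) (nat_lit 0) (p (nat_lit 0x160014) (nat_lit 0) (p (nat_lit 0x16000c) (nat_lit 0) (p (nat_lit 0x68612) (nat_lit 0) (p (nat_lit 0x50592) (nat_lit 0) (p (nat_lit 0x40512) (nat_lit 0) (p (nat_lit 0x50312) (nat_lit 0) (p (nat_lit 0x38292) (nat_lit 0) (p (nat_lit 0x28212) (nat_lit 0) (p (nat_lit 0x38112) (nat_lit 0) (p (nat_lit 0x20092) (nat_lit 0) (p (nat_lit 0x10012) (nat_lit 0) pn))))))))))))))))))))))) :=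
  Cl.node (nat_lit 0x3c4aa) (nat_lit 12) (by decide +kernel) (ClAll.succ (ClAll.succ (ClAll.succ (ClAll.succ (ClAll.succ (ClAll.succ (ClAll.succ (ClAll.succ (ClAll.succ (ClAll.succ (ClAll.succ (ClAll.succ ClAll.zero s1197) s1198) s1199) s1200) s1201) s1202) s1203) n389) s1210) s1211) s1212) s1213)

def n437 : Cl (O (nat_lit 1)) (R (nat_lit 14353))
    (p (nat_lit 0x111) (nat_lit 0) (p (nat_lit 0x109) (nat_lit 0) (p (nat_lit 0xc9) (nat_lit 1) (p (nat_lit 0x119) (nat_lit 1) (p (nat_lit 0xc1) (nat_lit 0) (p (nat_lit 0x81) (nat_lit 1) (p (nat_lit 0x41) (nat_lit 1) (p (nat_lit 0x8090887069a) (nat_lit 0) (p (nat_lit 0x7870806861a) (nat_lit 0) (p (nat_lit 0x800070786058a) (nat_lit 0) (p (nat_lit 0x787058502) (nat_lit 0) (p (nat_lit 0x586850482) (nat_lit 0) (p (nat_lit 0x160014) (nat_lit 0) (p (nat_lit 0x16000c) (nat_lit 0) (p (nat_lit 0x68612) (nat_lit 0) (p (nat_lit 0x50592)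 (nat_lit 0) (p (nat_lit 0x40512) (nat_lit 0) (p (nat_lit 0x50312) (nat_lit 0) (p (nat_lit 0x38292) (nat_lit 0) (p (nat_lit 0x28212) (nat_lit 0) (p (nat_lit 0x38112) (nat_lit 0) (p (nat_lit 0x20092) (nat_lit 0) (p (nat_lit 0x10012) (nat_lit 0) pn))))))))))))))))))))))) :=
  Cl.node (nat_lit 0x44c2a) (nat_lit 12) (by decide +kernel) (ClAll.succ (ClAll.succ (ClAll.succ (ClAll.succ (ClAll.succ (ClAll.succ (ClAll.succ (ClAll.succ (ClAll.succ (ClAll.succ (ClAll.succ (ClAll.succ ClAll.zero s1214) n390) s1218) s1219) s1220) s1221) s1222) s1223) s1224) s1225) s1226) s1227)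

def n438 : Cl (O (nat_lit 1)) (R (nat_lit 14353))
    (p (nat_lit 0x111) (nat_lit 1) (p (nat_lit 0x109) (nat_lit 0) (p (nat_lit 0xc9) (nat_lit 1) (p (nat_lit 0x119) (nat_lit 1) (p (nat_lit 0xc1) (nat_lit 0) (p (nat_lit 0x81) (nat_lit 1) (p (nat_lit 0x41) (nat_lit 1) (p (nat_lit 0x8090887069a) (nat_lit 0) (p (nat_lit 0x7870806861a) (nat_lit 0) (p (nat_lit 0x800070786058a) (nat_lit 0) (p (nat_lit 0x787058502) (nat_lit 0) (p (nat_lit 0x586850482) (nat_lit 0) (p (nat_lit 0x160014) (nat_lit 0) (p (nat_lit 0x16000c) (nat_lit 0) (p (nat_lit 0x68612) (nat_lit 0) (p (nat_lit 0x50592) (nat_lit 0) (p (nat_lit 0x40512) (nat_lit 0) (p (nat_lit 0x50312) (nat_lit 0) (p (nat_lit 0x38292) (nat_lit 0) (p (nat_lit 0x28212) (nat_lit 0) (p (nat_lit 0x38112) (nat_lit 0) (p (nat_lit 0x20092) (nat_lit 0) (p (nat_lit 0x10012) (nat_lit 0) pn))))))))))))))))))))))) :=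
  Cl.node (nat_lit 0x3c4aa) (nat_lit 12) (by decide +kernel) (ClAll.succ (ClAll.succ (ClAll.succ (ClAll.succ (ClAll.succ (ClAll.succ (ClAll.succ (ClAll.succ (ClAll.succ (ClAll.succ (ClAll.succ (ClAll.succ ClAll.zero s1228) s1229) s1230) s1231) s1232) s1233) s1234) n391) s1243) s1244) s1245) s1246)

def n439 : Cl (O (nat_lit 1)) (R (nat_lit 14353))
    (p (nat_lit 0x119) (nat_lit 1) (p (nat_lit 0x111) (nat_lit 0) (p (nat_lit 0x109) (nat_lit 0) (p (nat_lit 0x101) (nat_lit 0) (p (nat_lit 0xc1) (nat_lit 1) (p (nat_lit 0x81) (nat_lit 1) (p (nat_lit 0x41) (nat_lit 1) (p (nat_lit 0x8090887069a) (nat_lit 0) (p (nat_lit 0x7870806861a) (nat_lit 0) (p (nat_lit 0x800070786058a) (nat_lit 0) (p (nat_lit 0x787058502) (nat_lit 0) (p (nat_lit 0x586850482) (nat_lit 0) (p (nat_lit 0x160014) (nat_lit 0) (p (nat_lit 0x16000c) (nat_lit 0) (p (nat_lit 0x68612) (nat_lit 0) (p (nat_lit 0x50592)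 (nat_lit 0) (p (nat_lit 0x40512) (nat_lit 0) (p (nat_lit 0x50312) (nat_lit 0) (p (nat_lit 0x38292) (nat_lit 0) (p (nat_lit 0x28212) (nat_lit 0) (p (nat_lit 0x38112) (nat_lit 0) (p (nat_lit 0x20092) (nat_lit 0) (p (nat_lit 0x10012) (nat_lit 0) pn))))))))))))))))))))))) :=
  Cl.node (nat_lit 0x3c4aa) (nat_lit 12) (by decide +kernel) (ClAll.succ (ClAll.succ (ClAll.succ (ClAll.succ (ClAll.succ (ClAll.succ (ClAll.succ (ClAll.succ (ClAll.succ (ClAll.succ (ClAll.succ (ClAll.succ ClAll.zero s1260) s1261) s1262) s1263) s1264) s1265) s1266) s1267) s1268) s1269) s1270) s1271)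

def n440 : Cl (O (nat_lit 1)) (R (nat_lit 14353))
    (p (nat_lit 0x109) (nat_lit 1) (p (nat_lit 0x101) (nat_lit 0) (p (nat_lit 0x119) (nat_lit 0) (p (nat_lit 0xd1) (nat_lit 0) (p (nat_lit 0x89) (nat_lit 0) (p (nat_lit 0x41) (nat_lit 0) (p (nat_lit 0x8090887069a) (nat_lit 0) (p (nat_lit 0x7870806861a) (nat_lit 0) (p (nat_lit 0x800070786058a) (nat_lit 0) (p (nat_lit 0x787058502) (nat_lit 0) (p (nat_lit 0x586850482) (nat_lit 0) (p (nat_lit 0x160014) (nat_lit 0) (p (nat_lit 0x16000c) (nat_lit 0) (p (nat_lit 0x68612) (nat_lit 0) (p (nat_lit 0x50592) (nat_lit 0) (p (nat_lit 0x40512) (nat_lit 0) (p (nat_lit 0x50312) (nat_lit 0) (p (nat_lit 0x38292) (nat_lit 0) (p (nat_lit 0x28212) (nat_lit 0) (p (nat_lit 0x38112) (nat_lit 0) (p (nat_lit 0x20092) (nat_lit 0) (p (nat_lit 0x10012) (nat_lit 0) pn)))))))))))))))))))))) :=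
  Cl.node (nat_lit 0xc9) (nat_lit 2) (by decide +kernel) (ClAll.succ (ClAll.succ ClAll.zero s1) n392)

def n441 : Cl (O (nat_lit 1)) (R (nat_lit 14353))
    (p (nat_lit 0x81) (nat_lit 0) (p (nat_lit 0x101) (nat_lit 1) (p (nat_lit 0x119) (nat_lit 0) (p (nat_lit 0xd1) (nat_lit 0) (p (nat_lit 0x89) (nat_lit 0) (p (nat_lit 0x41) (nat_lit 0) (p (nat_lit 0x8090887069a) (nat_lit 0) (p (nat_lit 0x7870806861a) (nat_lit 0) (p (nat_lit 0x800070786058a) (nat_lit 0) (p (nat_lit 0x787058502) (nat_lit 0) (p (nat_lit 0x586850482) (nat_lit 0) (p (nat_lit 0x160014) (nat_lit 0) (p (nat_lit 0x16000c) (nat_lit 0) (p (nat_lit 0x68612) (nat_lit 0) (p (nat_lit 0x50592) (nat_lit 0) (p (nat_lit 0x40512) (nat_lit 0) (p (nat_lit 0x50312) (nat_lit 0) (p (nat_lit 0x38292) (nat_lit 0) (p (nat_lit 0x28212) (nat_lit 0) (p (nat_lit 0x38112) (nat_lit 0) (p (nat_lit 0x20092) (nat_lit 0) (p (nat_lit 0x10012)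 (nat_lit 0) pn)))))))))))))))))))))) :=
  Cl.node (nat_lit 0xc9) (nat_lit 2) (by decide +kernel) (ClAll.succ (ClAll.succ ClAll.zero n393) n394)

def n442 : Cl (O (nat_lit 1)) (R (nat_lit 14353))
    (p (nat_lit 0x81) (nat_lit 1) (p (nat_lit 0x101) (nat_lit 1) (p (nat_lit 0x119) (nat_lit 0) (p (nat_lit 0xd1) (nat_lit 0) (p (nat_lit 0x89) (nat_lit 0) (p (nat_lit 0x41) (nat_lit 0) (p (nat_lit 0x8090887069a) (nat_lit 0) (p (nat_lit 0x7870806861a) (nat_lit 0) (p (nat_lit 0x800070786058a) (nat_lit 0) (p (nat_lit 0x787058502) (nat_lit 0) (p (nat_lit 0x586850482) (nat_lit 0) (p (nat_lit 0x160014) (nat_lit 0) (p (nat_lit 0x16000c) (nat_lit 0) (p (nat_lit 0x68612) (nat_lit 0) (p (nat_lit 0x50592) (nat_lit 0) (p (nat_lit 0x40512) (nat_lit 0) (p (nat_lit 0x50312) (nat_lit 0) (p (nat_lit 0x38292) (nat_lit 0) (p (nat_lit 0x28212) (nat_lit 0) (p (nat_lit 0x38112) (nat_lit 0) (p (nat_lit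 0x20092) (nat_lit 0) (p (nat_lit 0x10012) (nat_lit 0) pn)))))))))))))))))))))) :=
  Cl.node (nat_lit 0xc1) (nat_lit 2) (by decide +kernel) (ClAll.succ (ClAll.succ ClAll.zero n395) s180)

def n443 : Cl (O (nat_lit 1)) (R (nat_lit 14353))
    (p (nat_lit 0xc9) (nat_lit 1) (p (nat_lit 0xc1) (nat_lit 0) (p (nat_lit 0x119) (nat_lit 1) (p (nat_lit 0xd1) (nat_lit 0) (p (nat_lit 0x89) (nat_lit 0) (p (nat_lit 0x41) (nat_lit 0) (p (nat_lit 0x8090887069a) (nat_lit 0) (p (nat_lit 0x7870806861a) (nat_lit 0) (p (nat_lit 0x800070786058a) (nat_lit 0) (p (nat_lit 0x787058502) (nat_lit 0) (p (nat_lit 0x586850482) (nat_lit 0) (p (nat_lit 0x160014) (nat_lit 0) (p (nat_lit 0x16000c) (nat_lit 0) (p (nat_lit 0x68612) (nat_lit 0) (p (nat_lit 0x50592) (nat_lit 0) (p (nat_lit 0x40512) (nat_lit 0) (p (nat_lit 0x50312) (nat_lit 0) (p (nat_lit 0x38292) (nat_lit 0) (p (nat_lit 0x28212) (nat_lit 0)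 (p (nat_lit 0x38112) (nat_lit 0) (p (nat_lit 0x20092) (nat_lit 0) (p (nat_lit 0x10012) (nat_lit 0) pn)))))))))))))))))))))) :=
  Cl.node (nat_lit 0x109) (nat_lit 2) (by decide +kernel) (ClAll.succ (ClAll.succ ClAll.zero s182) n396)

def n444 : Cl (O (nat_lit 1)) (R (nat_lit 14353))
    (p (nat_lit 0x81) (nat_lit 0) (p (nat_lit 0xc1) (nat_lit 1) (p (nat_lit 0x119) (nat_lit 1) (p (nat_lit 0xd1) (nat_lit 0) (p (nat_lit 0x89) (nat_lit 0) (p (nat_lit 0x41) (nat_lit 0) (p (nat_lit 0x8090887069a) (nat_lit 0) (p (nat_lit 0x7870806861a) (nat_lit 0) (p (nat_lit 0x800070786058a) (nat_lit 0) (p (nat_lit 0x787058502) (nat_lit 0) (p (nat_lit 0x586850482) (nat_lit 0) (p (nat_lit 0x160014) (nat_lit 0) (p (nat_lit 0x16000c) (nat_lit 0) (p (nat_lit 0x68612) (nat_lit 0) (p (nat_lit 0x50592) (nat_lit 0) (p (nat_lit 0x40512) (nat_lit 0) (p (nat_lit 0x50312) (nat_lit 0) (p (nat_lit 0x38292)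 (nat_lit 0) (p (nat_lit 0x28212) (nat_lit 0) (p (nat_lit 0x38112) (nat_lit 0) (p (nat_lit 0x20092) (nat_lit 0) (p (nat_lit 0x10012) (nat_lit 0) pn)))))))))))))))))))))) :=
  Cl.node (nat_lit 0x109) (nat_lit 2) (by decide +kernel) (ClAll.succ (ClAll.succ ClAll.zero n397) n398)

def n445 : Cl (O (nat_lit 1)) (R (nat_lit 14353))
    (p (nat_lit 0x81) (nat_lit 1) (p (nat_lit 0xc1) (nat_lit 1) (p (nat_lit 0x119) (nat_lit 1) (p (nat_lit 0xd1) (nat_lit 0) (p (nat_lit 0x89) (nat_lit 0) (p (nat_lit 0x41) (nat_lit 0) (p (nat_lit 0x8090887069a) (nat_lit 0) (p (nat_lit 0x7870806861a) (nat_lit 0) (p (nat_lit 0x800070786058a) (nat_lit 0) (p (nat_lit 0x787058502) (nat_lit 0) (p (nat_lit 0x586850482) (nat_lit 0) (p (nat_lit 0x160014) (nat_lit 0) (p (nat_lit 0x16000c) (nat_lit 0) (p (nat_lit 0x68612) (nat_lit 0) (p (nat_lit 0x50592) (nat_lit 0) (p (nat_lit 0x40512) (nat_lit 0) (p (nat_lit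 0x50312) (nat_lit 0) (p (nat_lit 0x38292) (nat_lit 0) (p (nat_lit 0x28212) (nat_lit 0) (p (nat_lit 0x38112) (nat_lit 0) (p (nat_lit 0x20092) (nat_lit 0) (p (nat_lit 0x10012) (nat_lit 0) pn)))))))))))))))))))))) :=
  Cl.node (nat_lit 0x101) (nat_lit 2) (by decide +kernel) (ClAll.succ (ClAll.succ ClAll.zero n399) n400)

def n446 : Cl (O (nat_lit 1)) (R (nat_lit 14353))
    (p (nat_lit 0x109) (nat_lit 1) (p (nat_lit 0x101) (nat_lit 0) (p (nat_lit 0x111) (nat_lit 0) (p (nat_lit 0xd1) (nat_lit 1) (p (nat_lit 0x89) (nat_lit 0) (p (nat_lit 0x41) (nat_lit 0) (p (nat_lit 0x8090887069a) (nat_lit 0) (p (nat_lit 0x7870806861a) (nat_lit 0) (p (nat_lit 0x800070786058a) (nat_lit 0) (p (nat_lit 0x787058502) (nat_lit 0) (p (nat_lit 0x586850482) (nat_lit 0) (p (nat_lit 0x160014) (nat_lit 0) (p (nat_lit 0x16000c) (nat_lit 0) (p (nat_lit 0x68612) (nat_lit 0) (p (nat_lit 0x50592) (nat_lit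 0) (p (nat_lit 0x40512) (nat_lit 0) (p (nat_lit 0x50312) (nat_lit 0) (p (nat_lit 0x38292) (nat_lit 0) (p (nat_lit 0x28212) (nat_lit 0) (p (nat_lit 0x38112) (nat_lit 0) (p (nat_lit 0x20092) (nat_lit 0) (p (nat_lit 0x10012) (nat_lit 0) pn)))))))))))))))))))))) :=
  Cl.node (nat_lit 0xc1) (nat_lit 2) (by decide +kernel) (ClAll.succ (ClAll.succ ClAll.zero s320) n401)

def n447 : Cl (O (nat_lit 1)) (R (nat_lit 14353))
    (p (nat_lit 0x81) (nat_lit 0) (p (nat_lit 0x101) (nat_lit 1) (p (nat_lit 0x111) (nat_lit 0) (p (nat_lit 0xd1) (nat_lit 1) (p (nat_lit 0x89) (nat_lit 0) (p (nat_lit 0x41) (nat_lit 0) (p (nat_lit 0x8090887069a) (nat_lit 0) (p (nat_lit 0x7870806861a) (nat_lit 0) (p (nat_lit 0x800070786058a) (nat_lit 0) (p (nat_lit 0x787058502) (nat_lit 0) (p (nat_lit 0x586850482) (nat_lit 0) (p (nat_lit 0x160014) (nat_lit 0) (p (nat_lit 0x16000c) (nat_lit 0) (p (nat_lit 0x68612)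 (nat_lit 0) (p (nat_lit 0x50592) (nat_lit 0) (p (nat_lit 0x40512) (nat_lit 0) (p (nat_lit 0x50312) (nat_lit 0) (p (nat_lit 0x38292) (nat_lit 0) (p (nat_lit 0x28212) (nat_lit 0) (p (nat_lit 0x38112) (nat_lit 0) (p (nat_lit 0x20092) (nat_lit 0) (p (nat_lit 0x10012) (nat_lit 0) pn)))))))))))))))))))))) :=
  Cl.node (nat_lit 0x119) (nat_lit 2) (by decide +kernel) (ClAll.succ (ClAll.succ ClAll.zero n402) s364)

def n448 : Cl (O (nat_lit 1)) (R (nat_lit 14353))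
    (p (nat_lit 0x81) (nat_lit 1) (p (nat_lit 0x101) (nat_lit 1) (p (nat_lit 0x111) (nat_lit 0) (p (nat_lit 0xd1) (nat_lit 1) (p (nat_lit 0x89) (nat_lit 0) (p (nat_lit 0x41) (nat_lit 0) (p (nat_lit 0x8090887069a) (nat_lit 0) (p (nat_lit 0x7870806861a) (nat_lit 0) (p (nat_lit 0x800070786058a) (nat_lit 0) (p (nat_lit 0x787058502) (nat_lit 0) (p (nat_lit 0x586850482) (nat_lit 0) (p (nat_lit 0x160014) (nat_lit 0) (p (nat_lit 0x16000c) (nat_lit 0) (p (nat_lit 0x68612) (nat_lit 0) (p (nat_lit 0x50592) (nat_lit 0) (p (nat_lit 0x40512) (nat_lit 0) (p (nat_lit 0x50312) (nat_lit 0) (p (nat_lit 0x38292) (nat_lit 0) (p (nat_lit 0x28212) (nat_lit 0) (p (nat_lit 0x38112) (nat_lit 0) (p (nat_lit 0x20092) (nat_lit 0) (p (nat_lit 0x10012) (nat_lit 0) pn)))))))))))))))))))))) :=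
  Cl.node (nat_lit 0xc1) (nat_lit 2) (by decide +kernel) (ClAll.succ (ClAll.succ ClAll.zero n403) s394)

def n449 : Cl (O (nat_lit 1)) (R (nat_lit 14353))
    (p (nat_lit 0xc1) (nat_lit 1) (p (nat_lit 0x81) (nat_lit 1) (p (nat_lit 0x111) (nat_lit 1) (p (nat_lit 0xd1) (nat_lit 1) (p (nat_lit 0x89) (nat_lit 0) (p (nat_lit 0x41) (nat_lit 0) (p (nat_lit 0x8090887069a) (nat_lit 0) (p (nat_lit 0x7870806861a) (nat_lit 0) (p (nat_lit 0x800070786058a) (nat_lit 0) (p (nat_lit 0x787058502) (nat_lit 0) (p (nat_lit 0x586850482) (nat_lit 0) (p (nat_lit 0x160014) (nat_lit 0) (p (nat_lit 0x16000c) (nat_lit 0) (p (nat_lit 0x68612) (nat_lit 0) (p (nat_lit 0x50592) (nat_lit 0) (p (nat_lit 0x40512) (nat_lit 0) (p (nat_lit 0x50312) (nat_lit 0) (p (nat_lit 0x38292) (nat_lit 0) (p (nat_lit 0x28212) (nat_lit 0) (p (nat_lit 0x38112) (nat_lit 0) (p (nat_lit 0x20092) (nat_lit 0) (p (nat_lit 0x10012)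 (nat_lit 0) pn)))))))))))))))))))))) :=
  Cl.node (nat_lit 0x101) (nat_lit 2) (by decide +kernel) (ClAll.succ (ClAll.succ ClAll.zero n404) n405)

def n450 : Cl (O (nat_lit 1)) (R (nat_lit 14353))
    (p (nat_lit 0x109) (nat_lit 0) (p (nat_lit 0x101) (nat_lit 0) (p (nat_lit 0x119) (nat_lit 0) (p (nat_lit 0xc9) (nat_lit 0) (p (nat_lit 0x89) (nat_lit 1) (p (nat_lit 0x41) (nat_lit 0) (p (nat_lit 0x8090887069a) (nat_lit 0) (p (nat_lit 0x7870806861a) (nat_lit 0) (p (nat_lit 0x800070786058a) (nat_lit 0) (p (nat_lit 0x787058502) (nat_lit 0) (p (nat_lit 0x586850482) (nat_lit 0) (p (nat_lit 0x160014) (nat_lit 0) (p (nat_lit 0x16000c) (nat_lit 0) (p (nat_lit 0x68612) (nat_lit 0) (p (nat_lit 0x50592) (nat_lit 0) (p (nat_lit 0x40512) (nat_lit 0) (p (nat_lit 0x50312) (nat_lit 0) (p (nat_lit 0x38292) (nat_lit 0) (p (nat_lit 0x28212) (nat_lit 0) (p (nat_lit 0x38112) (nat_lit 0) (p (nat_lit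 0x20092) (nat_lit 0) (p (nat_lit 0x10012) (nat_lit 0) pn)))))))))))))))))))))) :=
  Cl.node (nat_lit 0x111) (nat_lit 2) (by decide +kernel) (ClAll.succ (ClAll.succ ClAll.zero s421) n406)

def n451 : Cl (O (nat_lit 1)) (R (nat_lit 14353))
    (p (nat_lit 0x109) (nat_lit 1) (p (nat_lit 0x101) (nat_lit 0) (p (nat_lit 0x119) (nat_lit 0) (p (nat_lit 0xc9) (nat_lit 0) (p (nat_lit 0x89) (nat_lit 1) (p (nat_lit 0x41) (nat_lit 0) (p (nat_lit 0x8090887069a) (nat_lit 0) (p (nat_lit 0x7870806861a) (nat_lit 0) (p (nat_lit 0x800070786058a) (nat_lit 0) (p (nat_lit 0x787058502) (nat_lit 0) (p (nat_lit 0x586850482) (nat_lit 0) (p (nat_lit 0x160014) (nat_lit 0) (p (nat_lit 0x16000c) (nat_lit 0) (p (nat_lit 0x68612) (nat_lit 0) (p (nat_lit 0x50592) (nat_lit 0) (p (nat_lit 0x40512) (nat_lit 0) (p (nat_lit 0x50312) (nat_lit 0) (p (nat_lit 0x38292) (nat_lit 0) (p (nat_lit 0x28212) (nat_lit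 0) (p (nat_lit 0x38112) (nat_lit 0) (p (nat_lit 0x20092) (nat_lit 0) (p (nat_lit 0x10012) (nat_lit 0) pn)))))))))))))))))))))) :=
  Cl.node (nat_lit 0xd1) (nat_lit 2) (by decide +kernel) (ClAll.succ (ClAll.succ ClAll.zero n407) n408)

def n452 : Cl (O (nat_lit 1)) (R (nat_lit 14353))
    (p (nat_lit 0xc1) (nat_lit 0) (p (nat_lit 0x101) (nat_lit 1) (p (nat_lit 0x119) (nat_lit 0) (p (nat_lit 0xc9) (nat_lit 0) (p (nat_lit 0x89) (nat_lit 1) (p (nat_lit 0x41) (nat_lit 0) (p (nat_lit 0x8090887069a) (nat_lit 0) (p (nat_lit 0x7870806861a) (nat_lit 0) (p (nat_lit 0x800070786058a) (nat_lit 0) (p (nat_lit 0x787058502) (nat_lit 0) (p (nat_lit 0x586850482) (nat_lit 0) (p (nat_lit 0x160014) (nat_lit 0) (p (nat_lit 0x16000c) (nat_lit 0) (p (nat_lit 0x68612) (nat_lit 0) (p (nat_lit 0x50592) (nat_lit 0) (p (nat_lit 0x40512) (nat_lit 0) (p (nat_lit 0x50312) (nat_lit 0) (p (nat_lit 0x38292)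 (nat_lit 0) (p (nat_lit 0x28212) (nat_lit 0) (p (nat_lit 0x38112) (nat_lit 0) (p (nat_lit 0x20092) (nat_lit 0) (p (nat_lit 0x10012) (nat_lit 0) pn)))))))))))))))))))))) :=
  Cl.node (nat_lit 0xd1) (nat_lit 2) (by decide +kernel) (ClAll.succ (ClAll.succ ClAll.zero n409) n410)

def n453 : Cl (O (nat_lit 1)) (R (nat_lit 14353))
    (p (nat_lit 0xd1) (nat_lit 1) (p (nat_lit 0xc1) (nat_lit 0) (p (nat_lit 0x119) (nat_lit 1) (p (nat_lit 0xc9) (nat_lit 0) (p (nat_lit 0x89) (nat_lit 1) (p (nat_lit 0x41) (nat_lit 0) (p (nat_lit 0x8090887069a) (nat_lit 0) (p (nat_lit 0x7870806861a) (nat_lit 0) (p (nat_lit 0x800070786058a) (nat_lit 0) (p (nat_lit 0x787058502) (nat_lit 0) (p (nat_lit 0x586850482) (nat_lit 0) (p (nat_lit 0x160014) (nat_lit 0) (p (nat_lit 0x16000c) (nat_lit 0) (p (nat_lit 0x68612) (nat_lit 0) (p (nat_lit 0x50592) (nat_lit 0) (p (nat_lit 0x40512) (nat_lit 0) (p (nat_lit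 0x50312) (nat_lit 0) (p (nat_lit 0x38292) (nat_lit 0) (p (nat_lit 0x28212) (nat_lit 0) (p (nat_lit 0x38112) (nat_lit 0) (p (nat_lit 0x20092) (nat_lit 0) (p (nat_lit 0x10012) (nat_lit 0) pn)))))))))))))))))))))) :=
  Cl.node (nat_lit 0x111) (nat_lit 2) (by decide +kernel) (ClAll.succ (ClAll.succ ClAll.zero s586) n411)

def n454 : Cl (O (nat_lit 1)) (R (nat_lit 14353))
    (p (nat_lit 0x101) (nat_lit 0) (p (nat_lit 0xc1) (nat_lit 1) (p (nat_lit 0x119) (nat_lit 1) (p (nat_lit 0xc9) (nat_lit 0) (p (nat_lit 0x89) (nat_lit 1) (p (nat_lit 0x41) (nat_lit 0) (p (nat_lit 0x8090887069a) (nat_lit 0) (p (nat_lit 0x7870806861a) (nat_lit 0) (p (nat_lit 0x800070786058a) (nat_lit 0) (p (nat_lit 0x787058502) (nat_lit 0) (p (nat_lit 0x586850482) (nat_lit 0) (p (nat_lit 0x160014) (nat_lit 0) (p (nat_lit 0x16000c) (nat_lit 0) (p (nat_lit 0x68612) (nat_lit 0) (p (nat_lit 0x50592) (nat_lit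 0) (p (nat_lit 0x40512) (nat_lit 0) (p (nat_lit 0x50312) (nat_lit 0) (p (nat_lit 0x38292) (nat_lit 0) (p (nat_lit 0x28212) (nat_lit 0) (p (nat_lit 0x38112) (nat_lit 0) (p (nat_lit 0x20092) (nat_lit 0) (p (nat_lit 0x10012) (nat_lit 0) pn)))))))))))))))))))))) :=
  Cl.node (nat_lit 0x111) (nat_lit 2) (by decide +kernel) (ClAll.succ (ClAll.succ ClAll.zero n412) n413)

def n455 : Cl (O (nat_lit 1)) (R (nat_lit 14353))
    (p (nat_lit 0x101) (nat_lit 1) (p (nat_lit 0xc1) (nat_lit 1) (p (nat_lit 0x119) (nat_lit 1) (p (nat_lit 0xc9) (nat_lit 0) (p (nat_lit 0x89) (nat_lit 1) (p (nat_lit 0x41) (nat_lit 0) (p (nat_lit 0x8090887069a) (nat_lit 0) (p (nat_lit 0x7870806861a) (nat_lit 0) (p (nat_lit 0x800070786058a) (nat_lit 0) (p (nat_lit 0x787058502) (nat_lit 0) (p (nat_lit 0x586850482) (nat_lit 0) (p (nat_lit 0x160014) (nat_lit 0) (p (nat_lit 0x16000c) (nat_lit 0) (p (nat_lit 0x68612)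 (nat_lit 0) (p (nat_lit 0x50592) (nat_lit 0) (p (nat_lit 0x40512) (nat_lit 0) (p (nat_lit 0x50312) (nat_lit 0) (p (nat_lit 0x38292) (nat_lit 0) (p (nat_lit 0x28212) (nat_lit 0) (p (nat_lit 0x38112) (nat_lit 0) (p (nat_lit 0x20092) (nat_lit 0) (p (nat_lit 0x10012) (nat_lit 0) pn)))))))))))))))))))))) :=
  Cl.node (nat_lit 0x444aa) (nat_lit 12) (by decide +kernel) (ClAll.succ (ClAll.succ (ClAll.succ (ClAll.succ (ClAll.succ (ClAll.succ (ClAll.succ (ClAll.succ (ClAll.succ (ClAll.succ (ClAll.succ (ClAll.succ ClAll.zero s667) s668) s669) s670) s671) s672) s673) s674) n414) s677) s678) s679)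

def n456 : Cl (O (nat_lit 1)) (R (nat_lit 14353))
    (p (nat_lit 0x109) (nat_lit 1) (p (nat_lit 0x101) (nat_lit 0) (p (nat_lit 0x119) (nat_lit 0) (p (nat_lit 0xd1) (nat_lit 0) (p (nat_lit 0x81) (nat_lit 0) (p (nat_lit 0x41) (nat_lit 1) (p (nat_lit 0x8090887069a) (nat_lit 0) (p (nat_lit 0x7870806861a) (nat_lit 0) (p (nat_lit 0x800070786058a) (nat_lit 0) (p (nat_lit 0x787058502) (nat_lit 0) (p (nat_lit 0x586850482) (nat_lit 0) (p (nat_lit 0x160014) (nat_lit 0) (p (nat_lit 0x16000c) (nat_lit 0) (p (nat_lit 0x68612) (nat_lit 0) (p (nat_lit 0x50592) (nat_lit 0) (p (nat_lit 0x40512) (nat_lit 0) (p (nat_lit 0x50312) (nat_lit 0) (p (nat_lit 0x38292) (nat_lit 0) (p (nat_lit 0x28212) (nat_lit 0) (p (nat_lit 0x38112) (nat_lit 0) (p (nat_lit 0x20092) (nat_lit 0) (p (nat_lit 0x10012) (nat_lit 0) pn)))))))))))))))))))))) :=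
  Cl.node (nat_lit 0x89) (nat_lit 2) (by decide +kernel) (ClAll.succ (ClAll.succ ClAll.zero n415) n416)

def n457 : Cl (O (nat_lit 1)) (R (nat_lit 14353))
    (p (nat_lit 0xc1) (nat_lit 0) (p (nat_lit 0x101) (nat_lit 1) (p (nat_lit 0x119) (nat_lit 0) (p (nat_lit 0xd1) (nat_lit 0) (p (nat_lit 0x81) (nat_lit 0) (p (nat_lit 0x41) (nat_lit 1) (p (nat_lit 0x8090887069a) (nat_lit 0) (p (nat_lit 0x7870806861a) (nat_lit 0) (p (nat_lit 0x800070786058a) (nat_lit 0) (p (nat_lit 0x787058502) (nat_lit 0) (p (nat_lit 0x586850482) (nat_lit 0) (p (nat_lit 0x160014) (nat_lit 0) (p (nat_lit 0x16000c) (nat_lit 0) (p (nat_lit 0x68612) (nat_lit 0) (p (nat_lit 0x50592) (nat_lit 0) (p (nat_lit 0x40512) (nat_lit 0) (p (nat_lit 0x50312) (nat_lit 0) (p (nat_lit 0x38292) (nat_lit 0) (p (nat_lit 0x28212) (nat_lit 0) (p (nat_lit 0x38112) (nat_lit 0) (p (nat_lit 0x20092) (nat_lit 0) (p (nat_lit 0x10012)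 (nat_lit 0) pn)))))))))))))))))))))) :=
  Cl.node (nat_lit 0x89) (nat_lit 2) (by decide +kernel) (ClAll.succ (ClAll.succ ClAll.zero n417) n418)

def n458 : Cl (O (nat_lit 1)) (R (nat_lit 14353))
    (p (nat_lit 0xc1) (nat_lit 1) (p (nat_lit 0x101) (nat_lit 1) (p (nat_lit 0x119) (nat_lit 0) (p (nat_lit 0xd1) (nat_lit 0) (p (nat_lit 0x81) (nat_lit 0) (p (nat_lit 0x41) (nat_lit 1) (p (nat_lit 0x8090887069a) (nat_lit 0) (p (nat_lit 0x7870806861a) (nat_lit 0) (p (nat_lit 0x800070786058a) (nat_lit 0) (p (nat_lit 0x787058502) (nat_lit 0) (p (nat_lit 0x586850482) (nat_lit 0) (p (nat_lit 0x160014) (nat_lit 0) (p (nat_lit 0x16000c) (nat_lit 0) (p (nat_lit 0x68612) (nat_lit 0) (p (nat_lit 0x50592) (nat_lit 0) (p (nat_lit 0x40512) (nat_lit 0) (p (nat_lit 0x50312) (nat_lit 0) (p (nat_lit 0x38292) (nat_lit 0) (p (nat_lit 0x28212) (nat_lit 0) (p (nat_lit 0x38112) (nat_lit 0) (p (nat_lit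 0x20092) (nat_lit 0) (p (nat_lit 0x10012) (nat_lit 0) pn)))))))))))))))))))))) :=
  Cl.node (nat_lit 0x89) (nat_lit 2) (by decide +kernel) (ClAll.succ (ClAll.succ ClAll.zero n419) n420)

def n459 : Cl (O (nat_lit 1)) (R (nat_lit 14353))
    (p (nat_lit 0xc9) (nat_lit 1) (p (nat_lit 0xc1) (nat_lit 0) (p (nat_lit 0x119) (nat_lit 1) (p (nat_lit 0xd1) (nat_lit 0) (p (nat_lit 0x81) (nat_lit 0) (p (nat_lit 0x41) (nat_lit 1) (p (nat_lit 0x8090887069a) (nat_lit 0) (p (nat_lit 0x7870806861a) (nat_lit 0) (p (nat_lit 0x800070786058a) (nat_lit 0) (p (nat_lit 0x787058502) (nat_lit 0) (p (nat_lit 0x586850482) (nat_lit 0) (p (nat_lit 0x160014) (nat_lit 0) (p (nat_lit 0x16000c) (nat_lit 0) (p (nat_lit 0x68612) (nat_lit 0) (p (nat_lit 0x50592) (nat_lit 0) (p (nat_lit 0x40512) (nat_lit 0) (p (nat_lit 0x50312) (nat_lit 0) (p (nat_lit 0x38292) (nat_lit 0) (p (nat_lit 0x28212) (nat_lit 0)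 (p (nat_lit 0x38112) (nat_lit 0) (p (nat_lit 0x20092) (nat_lit 0) (p (nat_lit 0x10012) (nat_lit 0) pn)))))))))))))))))))))) :=
  Cl.node (nat_lit 0x89) (nat_lit 2) (by decide +kernel) (ClAll.succ (ClAll.succ ClAll.zero s863) n421)

def n460 : Cl (O (nat_lit 1)) (R (nat_lit 14353))
    (p (nat_lit 0x101) (nat_lit 0) (p (nat_lit 0xc1) (nat_lit 1) (p (nat_lit 0x119) (nat_lit 1) (p (nat_lit 0xd1) (nat_lit 0) (p (nat_lit 0x81) (nat_lit 0) (p (nat_lit 0x41) (nat_lit 1) (p (nat_lit 0x8090887069a) (nat_lit 0) (p (nat_lit 0x7870806861a) (nat_lit 0) (p (nat_lit 0x800070786058a) (nat_lit 0) (p (nat_lit 0x787058502) (nat_lit 0) (p (nat_lit 0x586850482) (nat_lit 0) (p (nat_lit 0x160014) (nat_lit 0) (p (nat_lit 0x16000c) (nat_lit 0) (p (nat_lit 0x68612) (nat_lit 0) (p (nat_lit 0x50592) (nat_lit 0) (p (nat_lit 0x40512) (nat_lit 0) (p (nat_lit 0x50312) (nat_lit 0) (p (nat_lit 0x38292)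 (nat_lit 0) (p (nat_lit 0x28212) (nat_lit 0) (p (nat_lit 0x38112) (nat_lit 0) (p (nat_lit 0x20092) (nat_lit 0) (p (nat_lit 0x10012) (nat_lit 0) pn)))))))))))))))))))))) :=
  Cl.node (nat_lit 0x89) (nat_lit 2) (by decide +kernel) (ClAll.succ (ClAll.succ ClAll.zero n422) n423)

def n461 : Cl (O (nat_lit 1)) (R (nat_lit 14353))
    (p (nat_lit 0x101) (nat_lit 1) (p (nat_lit 0xc1) (nat_lit 1) (p (nat_lit 0x119) (nat_lit 1) (p (nat_lit 0xd1) (nat_lit 0) (p (nat_lit 0x81) (nat_lit 0) (p (nat_lit 0x41) (nat_lit 1) (p (nat_lit 0x8090887069a) (nat_lit 0) (p (nat_lit 0x7870806861a) (nat_lit 0) (p (nat_lit 0x800070786058a) (nat_lit 0) (p (nat_lit 0x787058502) (nat_lit 0) (p (nat_lit 0x586850482) (nat_lit 0) (p (nat_lit 0x160014) (nat_lit 0) (p (nat_lit 0x16000c) (nat_lit 0) (p (nat_lit 0x68612) (nat_lit 0) (p (nat_lit 0x50592) (nat_lit 0) (p (nat_lit 0x40512) (nat_lit 0) (p (nat_lit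 0x50312) (nat_lit 0) (p (nat_lit 0x38292) (nat_lit 0) (p (nat_lit 0x28212) (nat_lit 0) (p (nat_lit 0x38112) (nat_lit 0) (p (nat_lit 0x20092) (nat_lit 0) (p (nat_lit 0x10012) (nat_lit 0) pn)))))))))))))))))))))) :=
  Cl.node (nat_lit 0x89) (nat_lit 2) (by decide +kernel) (ClAll.succ (ClAll.succ ClAll.zero n424) n425)

def n462 : Cl (O (nat_lit 1)) (R (nat_lit 14353))
    (p (nat_lit 0x109) (nat_lit 1) (p (nat_lit 0x101) (nat_lit 0) (p (nat_lit 0x111) (nat_lit 0) (p (nat_lit 0xd1) (nat_lit 1) (p (nat_lit 0x81) (nat_lit 0) (p (nat_lit 0x41) (nat_lit 1) (p (nat_lit 0x8090887069a) (nat_lit 0) (p (nat_lit 0x7870806861a) (nat_lit 0) (p (nat_lit 0x800070786058a) (nat_lit 0) (p (nat_lit 0x787058502) (nat_lit 0) (p (nat_lit 0x586850482) (nat_lit 0) (p (nat_lit 0x160014) (nat_lit 0) (p (nat_lit 0x16000c) (nat_lit 0) (p (nat_lit 0x68612) (nat_lit 0) (p (nat_lit 0x50592) (nat_lit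 0) (p (nat_lit 0x40512) (nat_lit 0) (p (nat_lit 0x50312) (nat_lit 0) (p (nat_lit 0x38292) (nat_lit 0) (p (nat_lit 0x28212) (nat_lit 0) (p (nat_lit 0x38112) (nat_lit 0) (p (nat_lit 0x20092) (nat_lit 0) (p (nat_lit 0x10012) (nat_lit 0) pn)))))))))))))))))))))) :=
  Cl.node (nat_lit 0x89) (nat_lit 2) (by decide +kernel) (ClAll.succ (ClAll.succ ClAll.zero n426) n427)

def n463 : Cl (O (nat_lit 1)) (R (nat_lit 14353))
    (p (nat_lit 0x89) (nat_lit 0) (p (nat_lit 0x101) (nat_lit 1) (p (nat_lit 0x111) (nat_lit 0) (p (nat_lit 0xd1) (nat_lit 1) (p (nat_lit 0x81) (nat_lit 0) (p (nat_lit 0x41) (nat_lit 1) (p (nat_lit 0x8090887069a) (nat_lit 0) (p (nat_lit 0x7870806861a) (nat_lit 0) (p (nat_lit 0x800070786058a) (nat_lit 0) (p (nat_lit 0x787058502) (nat_lit 0) (p (nat_lit 0x586850482) (nat_lit 0) (p (nat_lit 0x160014) (nat_lit 0) (p (nat_lit 0x16000c) (nat_lit 0) (p (nat_lit 0x68612)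 (nat_lit 0) (p (nat_lit 0x50592) (nat_lit 0) (p (nat_lit 0x40512) (nat_lit 0) (p (nat_lit 0x50312) (nat_lit 0) (p (nat_lit 0x38292) (nat_lit 0) (p (nat_lit 0x28212) (nat_lit 0) (p (nat_lit 0x38112) (nat_lit 0) (p (nat_lit 0x20092) (nat_lit 0) (p (nat_lit 0x10012) (nat_lit 0) pn)))))))))))))))))))))) :=
  Cl.node (nat_lit 0x3cc2a) (nat_lit 12) (by decide +kernel) (ClAll.succ (ClAll.succ (ClAll.succ (ClAll.succ (ClAll.succ (ClAll.succ (ClAll.succ (ClAll.succ (ClAll.succ (ClAll.succ (ClAll.succ (ClAll.succ ClAll.zero s1014) s1015) s1016) s1017) s1018) s1019) s1020) s1021) s1022) s1023) s1024) s1025)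

def n464 : Cl (O (nat_lit 1)) (R (nat_lit 14353))
    (p (nat_lit 0x89) (nat_lit 1) (p (nat_lit 0x101) (nat_lit 1) (p (nat_lit 0x111) (nat_lit 0) (p (nat_lit 0xd1) (nat_lit 1) (p (nat_lit 0x81) (nat_lit 0) (p (nat_lit 0x41) (nat_lit 1) (p (nat_lit 0x8090887069a) (nat_lit 0) (p (nat_lit 0x7870806861a) (nat_lit 0) (p (nat_lit 0x800070786058a) (nat_lit 0) (p (nat_lit 0x787058502) (nat_lit 0) (p (nat_lit 0x586850482) (nat_lit 0) (p (nat_lit 0x160014) (nat_lit 0) (p (nat_lit 0x16000c) (nat_lit 0) (p (nat_lit 0x68612) (nat_lit 0) (p (nat_lit 0x50592) (nat_lit 0) (p (nat_lit 0x40512) (nat_lit 0) (p (nat_lit 0x50312) (nat_lit 0) (p (nat_lit 0x38292) (nat_lit 0) (p (nat_lit 0x28212) (nat_lit 0) (p (nat_lit 0x38112) (nat_lit 0) (p (nat_lit 0x20092) (nat_lit 0) (p (nat_lit 0x10012) (nat_lit 0) pn)))))))))))))))))))))) :=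
  Cl.node (nat_lit 0xc9) (nat_lit 2) (by decide +kernel) (ClAll.succ (ClAll.succ ClAll.zero n428) n429)

def n465 : Cl (O (nat_lit 1)) (R (nat_lit 14353))
    (p (nat_lit 0xc9) (nat_lit 1) (p (nat_lit 0x89) (nat_lit 1) (p (nat_lit 0x111) (nat_lit 1) (p (nat_lit 0xd1) (nat_lit 1) (p (nat_lit 0x81) (nat_lit 0) (p (nat_lit 0x41) (nat_lit 1) (p (nat_lit 0x8090887069a) (nat_lit 0) (p (nat_lit 0x7870806861a) (nat_lit 0) (p (nat_lit 0x800070786058a) (nat_lit 0) (p (nat_lit 0x787058502) (nat_lit 0) (p (nat_lit 0x586850482) (nat_lit 0) (p (nat_lit 0x160014) (nat_lit 0) (p (nat_lit 0x16000c) (nat_lit 0) (p (nat_lit 0x68612) (nat_lit 0) (p (nat_lit 0x50592) (nat_lit 0) (p (nat_lit 0x40512) (nat_lit 0) (p (nat_lit 0x50312) (nat_lit 0) (p (nat_lit 0x38292) (nat_lit 0) (p (nat_lit 0x28212) (nat_lit 0) (p (nat_lit 0x38112) (nat_lit 0) (p (nat_lit 0x20092) (nat_lit 0) (p (nat_lit 0x10012)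 (nat_lit 0) pn)))))))))))))))))))))) :=
  Cl.node (nat_lit 0x109) (nat_lit 2) (by decide +kernel) (ClAll.succ (ClAll.succ ClAll.zero n430) n431)

def n466 : Cl (O (nat_lit 1)) (R (nat_lit 14353))
    (p (nat_lit 0x109) (nat_lit 0) (p (nat_lit 0x101) (nat_lit 0) (p (nat_lit 0x119) (nat_lit 0) (p (nat_lit 0xc1) (nat_lit 0) (p (nat_lit 0x81) (nat_lit 1) (p (nat_lit 0x41) (nat_lit 1) (p (nat_lit 0x8090887069a) (nat_lit 0) (p (nat_lit 0x7870806861a) (nat_lit 0) (p (nat_lit 0x800070786058a) (nat_lit 0) (p (nat_lit 0x787058502) (nat_lit 0) (p (nat_lit 0x586850482) (nat_lit 0) (p (nat_lit 0x160014) (nat_lit 0) (p (nat_lit 0x16000c) (nat_lit 0) (p (nat_lit 0x68612) (nat_lit 0) (p (nat_lit 0x50592) (nat_lit 0) (p (nat_lit 0x40512) (nat_lit 0) (p (nat_lit 0x50312) (nat_lit 0) (p (nat_lit 0x38292) (nat_lit 0) (p (nat_lit 0x28212) (nat_lit 0) (p (nat_lit 0x38112) (nat_lit 0) (p (nat_lit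 0x20092) (nat_lit 0) (p (nat_lit 0x10012) (nat_lit 0) pn)))))))))))))))))))))) :=
  Cl.node (nat_lit 0x111) (nat_lit 2) (by decide +kernel) (ClAll.succ (ClAll.succ ClAll.zero s1078) n432)

def n467 : Cl (O (nat_lit 1)) (R (nat_lit 14353))
    (p (nat_lit 0x109) (nat_lit 1) (p (nat_lit 0x101) (nat_lit 0) (p (nat_lit 0x119) (nat_lit 0) (p (nat_lit 0xc1) (nat_lit 0) (p (nat_lit 0x81) (nat_lit 1) (p (nat_lit 0x41) (nat_lit 1) (p (nat_lit 0x8090887069a) (nat_lit 0) (p (nat_lit 0x7870806861a) (nat_lit 0) (p (nat_lit 0x800070786058a) (nat_lit 0) (p (nat_lit 0x787058502) (nat_lit 0) (p (nat_lit 0x586850482) (nat_lit 0) (p (nat_lit 0x160014) (nat_lit 0) (p (nat_lit 0x16000c) (nat_lit 0) (p (nat_lit 0x68612) (nat_lit 0) (p (nat_lit 0x50592) (nat_lit 0) (p (nat_lit 0x40512) (nat_lit 0) (p (nat_lit 0x50312) (nat_lit 0) (p (nat_lit 0x38292) (nat_lit 0) (p (nat_lit 0x28212) (nat_lit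 0) (p (nat_lit 0x38112) (nat_lit 0) (p (nat_lit 0x20092) (nat_lit 0) (p (nat_lit 0x10012) (nat_lit 0) pn)))))))))))))))))))))) :=
  Cl.node (nat_lit 0xc9) (nat_lit 2) (by decide +kernel) (ClAll.succ (ClAll.succ ClAll.zero n433) s1129)

def n468 : Cl (O (nat_lit 1)) (R (nat_lit 14353))
    (p (nat_lit 0xc9) (nat_lit 0) (p (nat_lit 0x101) (nat_lit 1) (p (nat_lit 0x119) (nat_lit 0) (p (nat_lit 0xc1) (nat_lit 0) (p (nat_lit 0x81) (nat_lit 1) (p (nat_lit 0x41) (nat_lit 1) (p (nat_lit 0x8090887069a) (nat_lit 0) (p (nat_lit 0x7870806861a) (nat_lit 0) (p (nat_lit 0x800070786058a) (nat_lit 0) (p (nat_lit 0x787058502) (nat_lit 0) (p (nat_lit 0x586850482) (nat_lit 0) (p (nat_lit 0x160014) (nat_lit 0) (p (nat_lit 0x16000c) (nat_lit 0) (p (nat_lit 0x68612) (nat_lit 0) (p (nat_lit 0x50592) (nat_lit 0) (p (nat_lit 0x40512) (nat_lit 0) (p (nat_lit 0x50312) (nat_lit 0) (p (nat_lit 0x38292)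 (nat_lit 0) (p (nat_lit 0x28212) (nat_lit 0) (p (nat_lit 0x38112) (nat_lit 0) (p (nat_lit 0x20092) (nat_lit 0) (p (nat_lit 0x10012) (nat_lit 0) pn)))))))))))))))))))))) :=
  Cl.node (nat_lit 0xd1) (nat_lit 2) (by decide +kernel) (ClAll.succ (ClAll.succ ClAll.zero n434) n435)

def n469 : Cl (O (nat_lit 1)) (R (nat_lit 14353))
    (p (nat_lit 0xd1) (nat_lit 1) (p (nat_lit 0xc9) (nat_lit 0) (p (nat_lit 0x119) (nat_lit 1) (p (nat_lit 0xc1) (nat_lit 0) (p (nat_lit 0x81) (nat_lit 1) (p (nat_lit 0x41) (nat_lit 1) (p (nat_lit 0x8090887069a) (nat_lit 0) (p (nat_lit 0x7870806861a) (nat_lit 0) (p (nat_lit 0x800070786058a) (nat_lit 0) (p (nat_lit 0x787058502) (nat_lit 0) (p (nat_lit 0x586850482) (nat_lit 0) (p (nat_lit 0x160014) (nat_lit 0) (p (nat_lit 0x16000c) (nat_lit 0) (p (nat_lit 0x68612) (nat_lit 0) (p (nat_lit 0x50592) (nat_lit 0) (p (nat_lit 0x40512) (nat_lit 0) (p (nat_lit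 0x50312) (nat_lit 0) (p (nat_lit 0x38292) (nat_lit 0) (p (nat_lit 0x28212) (nat_lit 0) (p (nat_lit 0x38112) (nat_lit 0) (p (nat_lit 0x20092) (nat_lit 0) (p (nat_lit 0x10012) (nat_lit 0) pn)))))))))))))))))))))) :=
  Cl.node (nat_lit 0x111) (nat_lit 2) (by decide +kernel) (ClAll.succ (ClAll.succ ClAll.zero s1196) n436)

def n470 : Cl (O (nat_lit 1)) (R (nat_lit 14353))
    (p (nat_lit 0x109) (nat_lit 0) (p (nat_lit 0xc9) (nat_lit 1) (p (nat_lit 0x119) (nat_lit 1) (p (nat_lit 0xc1) (nat_lit 0) (p (nat_lit 0x81) (nat_lit 1) (p (nat_lit 0x41) (nat_lit 1) (p (nat_lit 0x8090887069a) (nat_lit 0) (p (nat_lit 0x7870806861a) (nat_lit 0) (p (nat_lit 0x800070786058a) (nat_lit 0) (p (nat_lit 0x787058502) (nat_lit 0) (p (nat_lit 0x586850482) (nat_lit 0) (p (nat_lit 0x160014) (nat_lit 0) (p (nat_lit 0x16000c) (nat_lit 0) (p (nat_lit 0x68612) (nat_lit 0) (p (nat_lit 0x50592) (nat_lit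 0) (p (nat_lit 0x40512) (nat_lit 0) (p (nat_lit 0x50312) (nat_lit 0) (p (nat_lit 0x38292) (nat_lit 0) (p (nat_lit 0x28212) (nat_lit 0) (p (nat_lit 0x38112) (nat_lit 0) (p (nat_lit 0x20092) (nat_lit 0) (p (nat_lit 0x10012) (nat_lit 0) pn)))))))))))))))))))))) :=
  Cl.node (nat_lit 0x111) (nat_lit 2) (by decide +kernel) (ClAll.succ (ClAll.succ ClAll.zero n437) n438)

def n471 : Cl (O (nat_lit 1)) (R (nat_lit 14353))
    (p (nat_lit 0x109) (nat_lit 1) (p (nat_lit 0xc9) (nat_lit 1) (p (nat_lit 0x119) (nat_lit 1) (p (nat_lit 0xc1) (nat_lit 0) (p (nat_lit 0x81) (nat_lit 1) (p (nat_lit 0x41) (nat_lit 1) (p (nat_lit 0x8090887069a) (nat_lit 0) (p (nat_lit 0x7870806861a) (nat_lit 0) (p (nat_lit 0x800070786058a) (nat_lit 0) (p (nat_lit 0x787058502) (nat_lit 0) (p (nat_lit 0x586850482) (nat_lit 0) (p (nat_lit 0x160014) (nat_lit 0) (p (nat_lit 0x16000c) (nat_lit 0) (p (nat_lit 0x68612)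 (nat_lit 0) (p (nat_lit 0x50592) (nat_lit 0) (p (nat_lit 0x40512) (nat_lit 0) (p (nat_lit 0x50312) (nat_lit 0) (p (nat_lit 0x38292) (nat_lit 0) (p (nat_lit 0x28212) (nat_lit 0) (p (nat_lit 0x38112) (nat_lit 0) (p (nat_lit 0x20092) (nat_lit 0) (p (nat_lit 0x10012) (nat_lit 0) pn)))))))))))))))))))))) :=
  Cl.node (nat_lit 0x3c4aa) (nat_lit 12) (by decide +kernel) (ClAll.succ (ClAll.succ (ClAll.succ (ClAll.succ (ClAll.succ (ClAll.succ (ClAll.succ (ClAll.succ (ClAll.succ (ClAll.succ (ClAll.succ (ClAll.succ ClAll.zero s1247) s1248) s1249) s1250) s1251) s1252) s1253) s1254) s1255) s1256) s1257) s1258)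

def n472 : Cl (O (nat_lit 1)) (R (nat_lit 14353))
    (p (nat_lit 0x111) (nat_lit 0) (p (nat_lit 0x109) (nat_lit 0) (p (nat_lit 0x101) (nat_lit 0) (p (nat_lit 0xc1) (nat_lit 1) (p (nat_lit 0x81) (nat_lit 1) (p (nat_lit 0x41) (nat_lit 1) (p (nat_lit 0x8090887069a) (nat_lit 0) (p (nat_lit 0x7870806861a) (nat_lit 0) (p (nat_lit 0x800070786058a) (nat_lit 0) (p (nat_lit 0x787058502) (nat_lit 0) (p (nat_lit 0x586850482) (nat_lit 0) (p (nat_lit 0x160014) (nat_lit 0) (p (nat_lit 0x16000c) (nat_lit 0) (p (nat_lit 0x68612) (nat_lit 0) (p (nat_lit 0x50592) (nat_lit 0) (p (nat_lit 0x40512) (nat_lit 0) (p (nat_lit 0x50312) (nat_lit 0) (p (nat_lit 0x38292) (nat_lit 0) (p (nat_lit 0x28212) (nat_lit 0) (p (nat_lit 0x38112) (nat_lit 0) (p (nat_lit 0x20092) (nat_lit 0) (p (nat_lit 0x10012) (nat_lit 0) pn)))))))))))))))))))))) :=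
  Cl.node (nat_lit 0x119) (nat_lit 2) (by decide +kernel) (ClAll.succ (ClAll.succ ClAll.zero s1259) n439)

def n473 : Cl (O (nat_lit 1)) (R (nat_lit 14353))
    (p (nat_lit 0x101) (nat_lit 0) (p (nat_lit 0x119) (nat_lit 0) (p (nat_lit 0xd1) (nat_lit 0) (p (nat_lit 0x89) (nat_lit 0) (p (nat_lit 0x41) (nat_lit 0) (p (nat_lit 0x8090887069a) (nat_lit 0) (p (nat_lit 0x7870806861a) (nat_lit 0) (p (nat_lit 0x800070786058a) (nat_lit 0) (p (nat_lit 0x787058502) (nat_lit 0) (p (nat_lit 0x586850482) (nat_lit 0) (p (nat_lit 0x160014) (nat_lit 0) (p (nat_lit 0x16000c) (nat_lit 0) (p (nat_lit 0x68612) (nat_lit 0) (p (nat_lit 0x50592) (nat_lit 0) (p (nat_lit 0x40512) (nat_lit 0) (p (nat_lit 0x50312) (nat_lit 0) (p (nat_lit 0x38292) (nat_lit 0) (p (nat_lit 0x28212) (nat_lit 0) (p (nat_lit 0x38112) (nat_lit 0) (p (nat_lit 0x20092) (nat_lit 0) (p (nat_lit 0x10012) (nat_lit 0) pn)))))))))))))))))))))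 :=
  Cl.node (nat_lit 0x109) (nat_lit 2) (by decide +kernel) (ClAll.succ (ClAll.succ ClAll.zero s0) n440)

def n474 : Cl (O (nat_lit 1)) (R (nat_lit 14353))
    (p (nat_lit 0x101) (nat_lit 1) (p (nat_lit 0x119) (nat_lit 0) (p (nat_lit 0xd1) (nat_lit 0) (p (nat_lit 0x89) (nat_lit 0) (p (nat_lit 0x41) (nat_lit 0) (p (nat_lit 0x8090887069a) (nat_lit 0) (p (nat_lit 0x7870806861a) (nat_lit 0) (p (nat_lit 0x800070786058a) (nat_lit 0) (p (nat_lit 0x787058502) (nat_lit 0) (p (nat_lit 0x586850482) (nat_lit 0) (p (nat_lit 0x160014) (nat_lit 0) (p (nat_lit 0x16000c) (nat_lit 0) (p (nat_lit 0x68612) (nat_lit 0) (p (nat_lit 0x50592) (nat_lit 0) (p (nat_lit 0x40512) (nat_lit 0) (p (nat_lit 0x50312) (nat_lit 0) (p (nat_lit 0x38292) (nat_lit 0) (p (nat_lit 0x28212) (nat_lit 0) (p (nat_lit 0x38112) (nat_lit 0) (p (nat_lit 0x20092) (nat_lit 0) (p (nat_lit 0x10012) (nat_lit 0) pn)))))))))))))))))))))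 :=
  Cl.node (nat_lit 0x81) (nat_lit 2) (by decide +kernel) (ClAll.succ (ClAll.succ ClAll.zero n441) n442)

def n475 : Cl (O (nat_lit 1)) (R (nat_lit 14353))
    (p (nat_lit 0xc1) (nat_lit 0) (p (nat_lit 0x119) (nat_lit 1) (p (nat_lit 0xd1) (nat_lit 0) (p (nat_lit 0x89) (nat_lit 0) (p (nat_lit 0x41) (nat_lit 0) (p (nat_lit 0x8090887069a) (nat_lit 0) (p (nat_lit 0x7870806861a) (nat_lit 0) (p (nat_lit 0x800070786058a) (nat_lit 0) (p (nat_lit 0x787058502) (nat_lit 0) (p (nat_lit 0x586850482) (nat_lit 0) (p (nat_lit 0x160014) (nat_lit 0) (p (nat_lit 0x16000c) (nat_lit 0) (p (nat_lit 0x68612) (nat_lit 0) (p (nat_lit 0x50592) (nat_lit 0) (p (nat_lit 0x40512) (nat_lit 0) (p (nat_lit 0x50312) (nat_lit 0) (p (nat_lit 0x38292) (nat_lit 0) (p (nat_lit 0x28212) (nat_lit 0) (p (nat_lit 0x38112) (nat_lit 0) (p (nat_lit 0x20092) (nat_lit 0) (p (nat_lit 0x10012) (nat_lit 0) pn)))))))))))))))))))))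 :=
  Cl.node (nat_lit 0xc9) (nat_lit 2) (by decide +kernel) (ClAll.succ (ClAll.succ ClAll.zero s181) n443)

def n476 : Cl (O (nat_lit 1)) (R (nat_lit 14353))
    (p (nat_lit 0xc1) (nat_lit 1) (p (nat_lit 0x119) (nat_lit 1) (p (nat_lit 0xd1) (nat_lit 0) (p (nat_lit 0x89) (nat_lit 0) (p (nat_lit 0x41) (nat_lit 0) (p (nat_lit 0x8090887069a) (nat_lit 0) (p (nat_lit 0x7870806861a) (nat_lit 0) (p (nat_lit 0x800070786058a) (nat_lit 0) (p (nat_lit 0x787058502) (nat_lit 0) (p (nat_lit 0x586850482) (nat_lit 0) (p (nat_lit 0x160014) (nat_lit 0) (p (nat_lit 0x16000c) (nat_lit 0) (p (nat_lit 0x68612) (nat_lit 0) (p (nat_lit 0x50592) (nat_lit 0) (p (nat_lit 0x40512) (nat_lit 0) (p (nat_lit 0x50312) (nat_lit 0) (p (nat_lit 0x38292) (nat_lit 0) (p (nat_lit 0x28212) (nat_lit 0) (p (nat_lit 0x38112) (nat_lit 0) (p (nat_lit 0x20092) (nat_lit 0) (p (nat_lit 0x10012) (nat_lit 0) pn)))))))))))))))))))))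 :=
  Cl.node (nat_lit 0x81) (nat_lit 2) (by decide +kernel) (ClAll.succ (ClAll.succ ClAll.zero n444) n445)

def n477 : Cl (O (nat_lit 1)) (R (nat_lit 14353))
    (p (nat_lit 0x101) (nat_lit 0) (p (nat_lit 0x111) (nat_lit 0) (p (nat_lit 0xd1) (nat_lit 1) (p (nat_lit 0x89) (nat_lit 0) (p (nat_lit 0x41) (nat_lit 0) (p (nat_lit 0x8090887069a) (nat_lit 0) (p (nat_lit 0x7870806861a) (nat_lit 0) (p (nat_lit 0x800070786058a) (nat_lit 0) (p (nat_lit 0x787058502) (nat_lit 0) (p (nat_lit 0x586850482) (nat_lit 0) (p (nat_lit 0x160014) (nat_lit 0) (p (nat_lit 0x16000c) (nat_lit 0) (p (nat_lit 0x68612) (nat_lit 0) (p (nat_lit 0x50592) (nat_lit 0) (p (nat_lit 0x40512) (nat_lit 0) (p (nat_lit 0x50312) (nat_lit 0) (p (nat_lit 0x38292) (nat_lit 0) (p (nat_lit 0x28212) (nat_lit 0) (p (nat_lit 0x38112) (nat_lit 0) (p (nat_lit 0x20092) (nat_lit 0) (p (nat_lit 0x10012) (nat_lit 0) pn)))))))))))))))))))))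 :=
  Cl.node (nat_lit 0x109) (nat_lit 2) (by decide +kernel) (ClAll.succ (ClAll.succ ClAll.zero s319) n446)

def n478 : Cl (O (nat_lit 1)) (R (nat_lit 14353))
    (p (nat_lit 0x101) (nat_lit 1) (p (nat_lit 0x111) (nat_lit 0) (p (nat_lit 0xd1) (nat_lit 1) (p (nat_lit 0x89) (nat_lit 0) (p (nat_lit 0x41) (nat_lit 0) (p (nat_lit 0x8090887069a) (nat_lit 0) (p (nat_lit 0x7870806861a) (nat_lit 0) (p (nat_lit 0x800070786058a) (nat_lit 0) (p (nat_lit 0x787058502) (nat_lit 0) (p (nat_lit 0x586850482) (nat_lit 0) (p (nat_lit 0x160014) (nat_lit 0) (p (nat_lit 0x16000c) (nat_lit 0) (p (nat_lit 0x68612) (nat_lit 0) (p (nat_lit 0x50592) (nat_lit 0) (p (nat_lit 0x40512) (nat_lit 0) (p (nat_lit 0x50312) (nat_lit 0) (p (nat_lit 0x38292) (nat_lit 0) (p (nat_lit 0x28212) (nat_lit 0) (p (nat_lit 0x38112) (nat_lit 0) (p (nat_lit 0x20092) (nat_lit 0) (p (nat_lit 0x10012) (nat_lit 0) pn)))))))))))))))))))))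 :=
  Cl.node (nat_lit 0x81) (nat_lit 2) (by decide +kernel) (ClAll.succ (ClAll.succ ClAll.zero n447) n448)

def n479 : Cl (O (nat_lit 1)) (R (nat_lit 14353))
    (p (nat_lit 0x81) (nat_lit 1) (p (nat_lit 0x111) (nat_lit 1) (p (nat_lit 0xd1) (nat_lit 1) (p (nat_lit 0x89) (nat_lit 0) (p (nat_lit 0x41) (nat_lit 0) (p (nat_lit 0x8090887069a) (nat_lit 0) (p (nat_lit 0x7870806861a) (nat_lit 0) (p (nat_lit 0x800070786058a) (nat_lit 0) (p (nat_lit 0x787058502) (nat_lit 0) (p (nat_lit 0x586850482) (nat_lit 0) (p (nat_lit 0x160014) (nat_lit 0) (p (nat_lit 0x16000c) (nat_lit 0) (p (nat_lit 0x68612) (nat_lit 0) (p (nat_lit 0x50592) (nat_lit 0) (p (nat_lit 0x40512) (nat_lit 0) (p (nat_lit 0x50312) (nat_lit 0) (p (nat_lit 0x38292) (nat_lit 0) (p (nat_lit 0x28212) (nat_lit 0) (p (nat_lit 0x38112) (nat_lit 0) (p (nat_lit 0x20092) (nat_lit 0) (p (nat_lit 0x10012) (nat_lit 0) pn)))))))))))))))))))))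 :=
  Cl.node (nat_lit 0xc1) (nat_lit 2) (by decide +kernel) (ClAll.succ (ClAll.succ ClAll.zero s396) n449)

def n480 : Cl (O (nat_lit 1)) (R (nat_lit 14353))
    (p (nat_lit 0x101) (nat_lit 0) (p (nat_lit 0x119) (nat_lit 0) (p (nat_lit 0xc9) (nat_lit 0) (p (nat_lit 0x89) (nat_lit 1) (p (nat_lit 0x41) (nat_lit 0) (p (nat_lit 0x8090887069a) (nat_lit 0) (p (nat_lit 0x7870806861a) (nat_lit 0) (p (nat_lit 0x800070786058a) (nat_lit 0) (p (nat_lit 0x787058502) (nat_lit 0) (p (nat_lit 0x586850482) (nat_lit 0) (p (nat_lit 0x160014) (nat_lit 0) (p (nat_lit 0x16000c) (nat_lit 0) (p (nat_lit 0x68612) (nat_lit 0) (p (nat_lit 0x50592) (nat_lit 0) (p (nat_lit 0x40512) (nat_lit 0) (p (nat_lit 0x50312) (nat_lit 0) (p (nat_lit 0x38292) (nat_lit 0) (p (nat_lit 0x28212) (nat_lit 0) (p (nat_lit 0x38112) (nat_lit 0) (p (nat_lit 0x20092) (nat_lit 0) (p (nat_lit 0x10012) (nat_lit 0) pn)))))))))))))))))))))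 :=
  Cl.node (nat_lit 0x109) (nat_lit 2) (by decide +kernel) (ClAll.succ (ClAll.succ ClAll.zero n450) n451)

def n481 : Cl (O (nat_lit 1)) (R (nat_lit 14353))
    (p (nat_lit 0x101) (nat_lit 1) (p (nat_lit 0x119) (nat_lit 0) (p (nat_lit 0xc9) (nat_lit 0) (p (nat_lit 0x89) (nat_lit 1) (p (nat_lit 0x41) (nat_lit 0) (p (nat_lit 0x8090887069a) (nat_lit 0) (p (nat_lit 0x7870806861a) (nat_lit 0) (p (nat_lit 0x800070786058a) (nat_lit 0) (p (nat_lit 0x787058502) (nat_lit 0) (p (nat_lit 0x586850482) (nat_lit 0) (p (nat_lit 0x160014) (nat_lit 0) (p (nat_lit 0x16000c) (nat_lit 0) (p (nat_lit 0x68612) (nat_lit 0) (p (nat_lit 0x50592) (nat_lit 0) (p (nat_lit 0x40512) (nat_lit 0) (p (nat_lit 0x50312) (nat_lit 0) (p (nat_lit 0x38292) (nat_lit 0) (p (nat_lit 0x28212) (nat_lit 0) (p (nat_lit 0x38112) (nat_lit 0) (p (nat_lit 0x20092) (nat_lit 0) (p (nat_lit 0x10012) (nat_lit 0) pn)))))))))))))))))))))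 :=
  Cl.node (nat_lit 0xc1) (nat_lit 2) (by decide +kernel) (ClAll.succ (ClAll.succ ClAll.zero n452) s584)

def n482 : Cl (O (nat_lit 1)) (R (nat_lit 14353))
    (p (nat_lit 0xc1) (nat_lit 0) (p (nat_lit 0x119) (nat_lit 1) (p (nat_lit 0xc9) (nat_lit 0) (p (nat_lit 0x89) (nat_lit 1) (p (nat_lit 0x41) (nat_lit 0) (p (nat_lit 0x8090887069a) (nat_lit 0) (p (nat_lit 0x7870806861a) (nat_lit 0) (p (nat_lit 0x800070786058a) (nat_lit 0) (p (nat_lit 0x787058502) (nat_lit 0) (p (nat_lit 0x586850482) (nat_lit 0) (p (nat_lit 0x160014) (nat_lit 0) (p (nat_lit 0x16000c) (nat_lit 0) (p (nat_lit 0x68612) (nat_lit 0) (p (nat_lit 0x50592) (nat_lit 0) (p (nat_lit 0x40512) (nat_lit 0) (p (nat_lit 0x50312) (nat_lit 0) (p (nat_lit 0x38292) (nat_lit 0) (p (nat_lit 0x28212) (nat_lit 0) (p (nat_lit 0x38112) (nat_lit 0) (p (nat_lit 0x20092) (nat_lit 0) (p (nat_lit 0x10012) (nat_lit 0) pn)))))))))))))))))))))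 :=
  Cl.node (nat_lit 0xd1) (nat_lit 2) (by decide +kernel) (ClAll.succ (ClAll.succ ClAll.zero s585) n453)

def n483 : Cl (O (nat_lit 1)) (R (nat_lit 14353))
    (p (nat_lit 0xc1) (nat_lit 1) (p (nat_lit 0x119) (nat_lit 1) (p (nat_lit 0xc9) (nat_lit 0) (p (nat_lit 0x89) (nat_lit 1) (p (nat_lit 0x41) (nat_lit 0) (p (nat_lit 0x8090887069a) (nat_lit 0) (p (nat_lit 0x7870806861a) (nat_lit 0) (p (nat_lit 0x800070786058a) (nat_lit 0) (p (nat_lit 0x787058502) (nat_lit 0) (p (nat_lit 0x586850482) (nat_lit 0) (p (nat_lit 0x160014) (nat_lit 0) (p (nat_lit 0x16000c) (nat_lit 0) (p (nat_lit 0x68612) (nat_lit 0) (p (nat_lit 0x50592) (nat_lit 0) (p (nat_lit 0x40512) (nat_lit 0) (p (nat_lit 0x50312) (nat_lit 0) (p (nat_lit 0x38292) (nat_lit 0) (p (nat_lit 0x28212) (nat_lit 0) (p (nat_lit 0x38112) (nat_lit 0) (p (nat_lit 0x20092) (nat_lit 0) (p (nat_lit 0x10012) (nat_lit 0) pn)))))))))))))))))))))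 :=
  Cl.node (nat_lit 0x101) (nat_lit 2) (by decide +kernel) (ClAll.succ (ClAll.succ ClAll.zero n454) n455)

def n484 : Cl (O (nat_lit 1)) (R (nat_lit 14353))
    (p (nat_lit 0x101) (nat_lit 0) (p (nat_lit 0x109) (nat_lit 0) (p (nat_lit 0xc9) (nat_lit 1) (p (nat_lit 0x89) (nat_lit 1) (p (nat_lit 0x41) (nat_lit 0) (p (nat_lit 0x8090887069a) (nat_lit 0) (p (nat_lit 0x7870806861a) (nat_lit 0) (p (nat_lit 0x800070786058a) (nat_lit 0) (p (nat_lit 0x787058502) (nat_lit 0) (p (nat_lit 0x586850482) (nat_lit 0) (p (nat_lit 0x160014) (nat_lit 0) (p (nat_lit 0x16000c) (nat_lit 0) (p (nat_lit 0x68612) (nat_lit 0) (p (nat_lit 0x50592) (nat_lit 0) (p (nat_lit 0x40512) (nat_lit 0) (p (nat_lit 0x50312) (nat_lit 0) (p (nat_lit 0x38292) (nat_lit 0) (p (nat_lit 0x28212) (nat_lit 0) (p (nat_lit 0x38112) (nat_lit 0) (p (nat_lit 0x20092) (nat_lit 0) (p (nat_lit 0x10012) (nat_lit 0) pn)))))))))))))))))))))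 :=
  Cl.node (nat_lit 0x111) (nat_lit 2) (by decide +kernel) (ClAll.succ (ClAll.succ ClAll.zero s680) s681)

def n485 : Cl (O (nat_lit 1)) (R (nat_lit 14353))
    (p (nat_lit 0x101) (nat_lit 0) (p (nat_lit 0x119) (nat_lit 0) (p (nat_lit 0xd1) (nat_lit 0) (p (nat_lit 0x81) (nat_lit 0) (p (nat_lit 0x41) (nat_lit 1) (p (nat_lit 0x8090887069a) (nat_lit 0) (p (nat_lit 0x7870806861a) (nat_lit 0) (p (nat_lit 0x800070786058a) (nat_lit 0) (p (nat_lit 0x787058502) (nat_lit 0) (p (nat_lit 0x586850482) (nat_lit 0) (p (nat_lit 0x160014) (nat_lit 0) (p (nat_lit 0x16000c) (nat_lit 0) (p (nat_lit 0x68612) (nat_lit 0) (p (nat_lit 0x50592) (nat_lit 0) (p (nat_lit 0x40512) (nat_lit 0) (p (nat_lit 0x50312) (nat_lit 0) (p (nat_lit 0x38292) (nat_lit 0) (p (nat_lit 0x28212) (nat_lit 0) (p (nat_lit 0x38112) (nat_lit 0) (p (nat_lit 0x20092) (nat_lit 0) (p (nat_lit 0x10012) (nat_lit 0) pn)))))))))))))))))))))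 :=
  Cl.node (nat_lit 0x109) (nat_lit 2) (by decide +kernel) (ClAll.succ (ClAll.succ ClAll.zero s684) n456)

def n486 : Cl (O (nat_lit 1)) (R (nat_lit 14353))
    (p (nat_lit 0x101) (nat_lit 1) (p (nat_lit 0x119) (nat_lit 0) (p (nat_lit 0xd1) (nat_lit 0) (p (nat_lit 0x81) (nat_lit 0) (p (nat_lit 0x41) (nat_lit 1) (p (nat_lit 0x8090887069a) (nat_lit 0) (p (nat_lit 0x7870806861a) (nat_lit 0) (p (nat_lit 0x800070786058a) (nat_lit 0) (p (nat_lit 0x787058502) (nat_lit 0) (p (nat_lit 0x586850482) (nat_lit 0) (p (nat_lit 0x160014) (nat_lit 0) (p (nat_lit 0x16000c) (nat_lit 0) (p (nat_lit 0x68612) (nat_lit 0) (p (nat_lit 0x50592) (nat_lit 0) (p (nat_lit 0x40512) (nat_lit 0) (p (nat_lit 0x50312) (nat_lit 0) (p (nat_lit 0x38292) (nat_lit 0) (p (nat_lit 0x28212) (nat_lit 0) (p (nat_lit 0x38112) (nat_lit 0) (p (nat_lit 0x20092) (nat_lit 0) (p (nat_lit 0x10012) (nat_lit 0) pn)))))))))))))))))))))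 :=
  Cl.node (nat_lit 0xc1) (nat_lit 2) (by decide +kernel) (ClAll.succ (ClAll.succ ClAll.zero n457) n458)

def n487 : Cl (O (nat_lit 1)) (R (nat_lit 14353))
    (p (nat_lit 0xc1) (nat_lit 0) (p (nat_lit 0x119) (nat_lit 1) (p (nat_lit 0xd1) (nat_lit 0) (p (nat_lit 0x81) (nat_lit 0) (p (nat_lit 0x41) (nat_lit 1) (p (nat_lit 0x8090887069a) (nat_lit 0) (p (nat_lit 0x7870806861a) (nat_lit 0) (p (nat_lit 0x800070786058a) (nat_lit 0) (p (nat_lit 0x787058502) (nat_lit 0) (p (nat_lit 0x586850482) (nat_lit 0) (p (nat_lit 0x160014) (nat_lit 0) (p (nat_lit 0x16000c) (nat_lit 0) (p (nat_lit 0x68612) (nat_lit 0) (p (nat_lit 0x50592) (nat_lit 0) (p (nat_lit 0x40512) (nat_lit 0) (p (nat_lit 0x50312) (nat_lit 0) (p (nat_lit 0x38292) (nat_lit 0) (p (nat_lit 0x28212) (nat_lit 0) (p (nat_lit 0x38112) (nat_lit 0) (p (nat_lit 0x20092) (nat_lit 0) (p (nat_lit 0x10012) (nat_lit 0) pn)))))))))))))))))))))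 :=
  Cl.node (nat_lit 0xc9) (nat_lit 2) (by decide +kernel) (ClAll.succ (ClAll.succ ClAll.zero s862) n459)

def n488 : Cl (O (nat_lit 1)) (R (nat_lit 14353))
    (p (nat_lit 0xc1) (nat_lit 1) (p (nat_lit 0x119) (nat_lit 1) (p (nat_lit 0xd1) (nat_lit 0) (p (nat_lit 0x81) (nat_lit 0) (p (nat_lit 0x41) (nat_lit 1) (p (nat_lit 0x8090887069a) (nat_lit 0) (p (nat_lit 0x7870806861a) (nat_lit 0) (p (nat_lit 0x800070786058a) (nat_lit 0) (p (nat_lit 0x787058502) (nat_lit 0) (p (nat_lit 0x586850482) (nat_lit 0) (p (nat_lit 0x160014) (nat_lit 0) (p (nat_lit 0x16000c) (nat_lit 0) (p (nat_lit 0x68612) (nat_lit 0) (p (nat_lit 0x50592) (nat_lit 0) (p (nat_lit 0x40512) (nat_lit 0) (p (nat_lit 0x50312) (nat_lit 0) (p (nat_lit 0x38292) (nat_lit 0) (p (nat_lit 0x28212) (nat_lit 0) (p (nat_lit 0x38112) (nat_lit 0) (p (nat_lit 0x20092) (nat_lit 0) (p (nat_lit 0x10012) (nat_lit 0) pn)))))))))))))))))))))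 :=
  Cl.node (nat_lit 0x101) (nat_lit 2) (by decide +kernel) (ClAll.succ (ClAll.succ ClAll.zero n460) n461)

def n489 : Cl (O (nat_lit 1)) (R (nat_lit 14353))
    (p (nat_lit 0x101) (nat_lit 0) (p (nat_lit 0x111) (nat_lit 0) (p (nat_lit 0xd1) (nat_lit 1) (p (nat_lit 0x81) (nat_lit 0) (p (nat_lit 0x41) (nat_lit 1) (p (nat_lit 0x8090887069a) (nat_lit 0) (p (nat_lit 0x7870806861a) (nat_lit 0) (p (nat_lit 0x800070786058a) (nat_lit 0) (p (nat_lit 0x787058502) (nat_lit 0) (p (nat_lit 0x586850482) (nat_lit 0) (p (nat_lit 0x160014) (nat_lit 0) (p (nat_lit 0x16000c) (nat_lit 0) (p (nat_lit 0x68612) (nat_lit 0) (p (nat_lit 0x50592) (nat_lit 0) (p (nat_lit 0x40512) (nat_lit 0) (p (nat_lit 0x50312) (nat_lit 0) (p (nat_lit 0x38292) (nat_lit 0) (p (nat_lit 0x28212) (nat_lit 0) (p (nat_lit 0x38112) (nat_lit 0) (p (nat_lit 0x20092) (nat_lit 0) (p (nat_lit 0x10012) (nat_lit 0) pn)))))))))))))))))))))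 :=
  Cl.node (nat_lit 0x109) (nat_lit 2) (by decide +kernel) (ClAll.succ (ClAll.succ ClAll.zero s974) n462)

def n490 : Cl (O (nat_lit 1)) (R (nat_lit 14353))
    (p (nat_lit 0x101) (nat_lit 1) (p (nat_lit 0x111) (nat_lit 0) (p (nat_lit 0xd1) (nat_lit 1) (p (nat_lit 0x81) (nat_lit 0) (p (nat_lit 0x41) (nat_lit 1) (p (nat_lit 0x8090887069a) (nat_lit 0) (p (nat_lit 0x7870806861a) (nat_lit 0) (p (nat_lit 0x800070786058a) (nat_lit 0) (p (nat_lit 0x787058502) (nat_lit 0) (p (nat_lit 0x586850482) (nat_lit 0) (p (nat_lit 0x160014) (nat_lit 0) (p (nat_lit 0x16000c) (nat_lit 0) (p (nat_lit 0x68612) (nat_lit 0) (p (nat_lit 0x50592) (nat_lit 0) (p (nat_lit 0x40512) (nat_lit 0) (p (nat_lit 0x50312) (nat_lit 0) (p (nat_lit 0x38292) (nat_lit 0) (p (nat_lit 0x28212) (nat_lit 0) (p (nat_lit 0x38112) (nat_lit 0) (p (nat_lit 0x20092) (nat_lit 0) (p (nat_lit 0x10012) (nat_lit 0) pn)))))))))))))))))))))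 :=
  Cl.node (nat_lit 0x89) (nat_lit 2) (by decide +kernel) (ClAll.succ (ClAll.succ ClAll.zero n463) n464)

def n491 : Cl (O (nat_lit 1)) (R (nat_lit 14353))
    (p (nat_lit 0x89) (nat_lit 1) (p (nat_lit 0x111) (nat_lit 1) (p (nat_lit 0xd1) (nat_lit 1) (p (nat_lit 0x81) (nat_lit 0) (p (nat_lit 0x41) (nat_lit 1) (p (nat_lit 0x8090887069a) (nat_lit 0) (p (nat_lit 0x7870806861a) (nat_lit 0) (p (nat_lit 0x800070786058a) (nat_lit 0) (p (nat_lit 0x787058502) (nat_lit 0) (p (nat_lit 0x586850482) (nat_lit 0) (p (nat_lit 0x160014) (nat_lit 0) (p (nat_lit 0x16000c) (nat_lit 0) (p (nat_lit 0x68612) (nat_lit 0) (p (nat_lit 0x50592) (nat_lit 0) (p (nat_lit 0x40512) (nat_lit 0) (p (nat_lit 0x50312) (nat_lit 0) (p (nat_lit 0x38292) (nat_lit 0) (p (nat_lit 0x28212) (nat_lit 0) (p (nat_lit 0x38112) (nat_lit 0) (p (nat_lit 0x20092) (nat_lit 0) (p (nat_lit 0x10012) (nat_lit 0) pn)))))))))))))))))))))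 :=
  Cl.node (nat_lit 0xc9) (nat_lit 2) (by decide +kernel) (ClAll.succ (ClAll.succ ClAll.zero s1051) n465)

def n492 : Cl (O (nat_lit 1)) (R (nat_lit 14353))
    (p (nat_lit 0x101) (nat_lit 0) (p (nat_lit 0x119) (nat_lit 0) (p (nat_lit 0xc1) (nat_lit 0) (p (nat_lit 0x81) (nat_lit 1) (p (nat_lit 0x41) (nat_lit 1) (p (nat_lit 0x8090887069a) (nat_lit 0) (p (nat_lit 0x7870806861a) (nat_lit 0) (p (nat_lit 0x800070786058a) (nat_lit 0) (p (nat_lit 0x787058502) (nat_lit 0) (p (nat_lit 0x586850482) (nat_lit 0) (p (nat_lit 0x160014) (nat_lit 0) (p (nat_lit 0x16000c) (nat_lit 0) (p (nat_lit 0x68612) (nat_lit 0) (p (nat_lit 0x50592) (nat_lit 0) (p (nat_lit 0x40512) (nat_lit 0) (p (nat_lit 0x50312) (nat_lit 0) (p (nat_lit 0x38292) (nat_lit 0) (p (nat_lit 0x28212) (nat_lit 0) (p (nat_lit 0x38112) (nat_lit 0) (p (nat_lit 0x20092) (nat_lit 0) (p (nat_lit 0x10012) (nat_lit 0) pn)))))))))))))))))))))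 :=
  Cl.node (nat_lit 0x109) (nat_lit 2) (by decide +kernel) (ClAll.succ (ClAll.succ ClAll.zero n466) n467)

def n493 : Cl (O (nat_lit 1)) (R (nat_lit 14353))
    (p (nat_lit 0x101) (nat_lit 1) (p (nat_lit 0x119) (nat_lit 0) (p (nat_lit 0xc1) (nat_lit 0) (p (nat_lit 0x81) (nat_lit 1) (p (nat_lit 0x41) (nat_lit 1) (p (nat_lit 0x8090887069a) (nat_lit 0) (p (nat_lit 0x7870806861a) (nat_lit 0) (p (nat_lit 0x800070786058a) (nat_lit 0) (p (nat_lit 0x787058502) (nat_lit 0) (p (nat_lit 0x586850482) (nat_lit 0) (p (nat_lit 0x160014) (nat_lit 0) (p (nat_lit 0x16000c) (nat_lit 0) (p (nat_lit 0x68612) (nat_lit 0) (p (nat_lit 0x50592) (nat_lit 0) (p (nat_lit 0x40512) (nat_lit 0) (p (nat_lit 0x50312) (nat_lit 0) (p (nat_lit 0x38292) (nat_lit 0) (p (nat_lit 0x28212) (nat_lit 0) (p (nat_lit 0x38112) (nat_lit 0) (p (nat_lit 0x20092) (nat_lit 0) (p (nat_lit 0x10012) (nat_lit 0) pn)))))))))))))))))))))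 :=
  Cl.node (nat_lit 0xc9) (nat_lit 2) (by decide +kernel) (ClAll.succ (ClAll.succ ClAll.zero n468) s1194)

def n494 : Cl (O (nat_lit 1)) (R (nat_lit 14353))
    (p (nat_lit 0xc9) (nat_lit 0) (p (nat_lit 0x119) (nat_lit 1) (p (nat_lit 0xc1) (nat_lit 0) (p (nat_lit 0x81) (nat_lit 1) (p (nat_lit 0x41) (nat_lit 1) (p (nat_lit 0x8090887069a) (nat_lit 0) (p (nat_lit 0x7870806861a) (nat_lit 0) (p (nat_lit 0x800070786058a) (nat_lit 0) (p (nat_lit 0x787058502) (nat_lit 0) (p (nat_lit 0x586850482) (nat_lit 0) (p (nat_lit 0x160014) (nat_lit 0) (p (nat_lit 0x16000c) (nat_lit 0) (p (nat_lit 0x68612) (nat_lit 0) (p (nat_lit 0x50592) (nat_lit 0) (p (nat_lit 0x40512) (nat_lit 0) (p (nat_lit 0x50312) (nat_lit 0) (p (nat_lit 0x38292) (nat_lit 0) (p (nat_lit 0x28212) (nat_lit 0) (p (nat_lit 0x38112) (nat_lit 0) (p (nat_lit 0x20092) (nat_lit 0) (p (nat_lit 0x10012) (nat_lit 0) pn)))))))))))))))))))))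 :=
  Cl.node (nat_lit 0xd1) (nat_lit 2) (by decide +kernel) (ClAll.succ (ClAll.succ ClAll.zero s1195) n469)

def n495 : Cl (O (nat_lit 1)) (R (nat_lit 14353))
    (p (nat_lit 0xc9) (nat_lit 1) (p (nat_lit 0x119) (nat_lit 1) (p (nat_lit 0xc1) (nat_lit 0) (p (nat_lit 0x81) (nat_lit 1) (p (nat_lit 0x41) (nat_lit 1) (p (nat_lit 0x8090887069a) (nat_lit 0) (p (nat_lit 0x7870806861a) (nat_lit 0) (p (nat_lit 0x800070786058a) (nat_lit 0) (p (nat_lit 0x787058502) (nat_lit 0) (p (nat_lit 0x586850482) (nat_lit 0) (p (nat_lit 0x160014) (nat_lit 0) (p (nat_lit 0x16000c) (nat_lit 0) (p (nat_lit 0x68612) (nat_lit 0) (p (nat_lit 0x50592) (nat_lit 0) (p (nat_lit 0x40512) (nat_lit 0) (p (nat_lit 0x50312) (nat_lit 0) (p (nat_lit 0x38292) (nat_lit 0) (p (nat_lit 0x28212) (nat_lit 0) (p (nat_lit 0x38112) (nat_lit 0) (p (nat_lit 0x20092) (nat_lit 0) (p (nat_lit 0x10012) (nat_lit 0) pn)))))))))))))))))))))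 :=
  Cl.node (nat_lit 0x109) (nat_lit 2) (by decide +kernel) (ClAll.succ (ClAll.succ ClAll.zero n470) n471)

def n496 : Cl (O (nat_lit 1)) (R (nat_lit 14353))
    (p (nat_lit 0x109) (nat_lit 0) (p (nat_lit 0x101) (nat_lit 0) (p (nat_lit 0xc1) (nat_lit 1) (p (nat_lit 0x81) (nat_lit 1) (p (nat_lit 0x41) (nat_lit 1) (p (nat_lit 0x8090887069a) (nat_lit 0) (p (nat_lit 0x7870806861a) (nat_lit 0) (p (nat_lit 0x800070786058a) (nat_lit 0) (p (nat_lit 0x787058502) (nat_lit 0) (p (nat_lit 0x586850482) (nat_lit 0) (p (nat_lit 0x160014) (nat_lit 0) (p (nat_lit 0x16000c) (nat_lit 0) (p (nat_lit 0x68612) (nat_lit 0) (p (nat_lit 0x50592) (nat_lit 0) (p (nat_lit 0x40512) (nat_lit 0) (p (nat_lit 0x50312) (nat_lit 0) (p (nat_lit 0x38292) (nat_lit 0) (p (nat_lit 0x28212) (nat_lit 0) (p (nat_lit 0x38112) (nat_lit 0) (p (nat_lit 0x20092) (nat_lit 0) (p (nat_lit 0x10012) (nat_lit 0) pn)))))))))))))))))))))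 :=
  Cl.node (nat_lit 0x111) (nat_lit 2) (by decide +kernel) (ClAll.succ (ClAll.succ ClAll.zero n472) s1272)

def n497 : Cl (O (nat_lit 1)) (R (nat_lit 14353))
    (p (nat_lit 0x119) (nat_lit 0) (p (nat_lit 0xd1) (nat_lit 0) (p (nat_lit 0x89) (nat_lit 0) (p (nat_lit 0x41) (nat_lit 0) (p (nat_lit 0x8090887069a) (nat_lit 0) (p (nat_lit 0x7870806861a) (nat_lit 0) (p (nat_lit 0x800070786058a) (nat_lit 0) (p (nat_lit 0x787058502) (nat_lit 0) (p (nat_lit 0x586850482) (nat_lit 0) (p (nat_lit 0x160014) (nat_lit 0) (p (nat_lit 0x16000c) (nat_lit 0) (p (nat_lit 0x68612) (nat_lit 0) (p (nat_lit 0x50592) (nat_lit 0) (p (nat_lit 0x40512) (nat_lit 0) (p (nat_lit 0x50312) (nat_lit 0) (p (nat_lit 0x38292) (nat_lit 0) (p (nat_lit 0x28212) (nat_lit 0) (p (nat_lit 0x38112) (nat_lit 0) (p (nat_lit 0x20092) (nat_lit 0) (p (nat_lit 0x10012) (nat_lit 0) pn)))))))))))))))))))) :=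
  Cl.node (nat_lit 0x101) (nat_lit 2) (by decide +kernel) (ClAll.succ (ClAll.succ ClAll.zero n473) n474)

def n498 : Cl (O (nat_lit 1)) (R (nat_lit 14353))
    (p (nat_lit 0x119) (nat_lit 1) (p (nat_lit 0xd1) (nat_lit 0) (p (nat_lit 0x89) (nat_lit 0) (p (nat_lit 0x41) (nat_lit 0) (p (nat_lit 0x8090887069a) (nat_lit 0) (p (nat_lit 0x7870806861a) (nat_lit 0) (p (nat_lit 0x800070786058a) (nat_lit 0) (p (nat_lit 0x787058502) (nat_lit 0) (p (nat_lit 0x586850482) (nat_lit 0) (p (nat_lit 0x160014) (nat_lit 0) (p (nat_lit 0x16000c) (nat_lit 0) (p (nat_lit 0x68612) (nat_lit 0) (p (nat_lit 0x50592) (nat_lit 0) (p (nat_lit 0x40512) (nat_lit 0) (p (nat_lit 0x50312) (nat_lit 0) (p (nat_lit 0x38292) (nat_lit 0) (p (nat_lit 0x28212) (nat_lit 0) (p (nat_lit 0x38112) (nat_lit 0) (p (nat_lit 0x20092) (nat_lit 0) (p (nat_lit 0x10012) (nat_lit 0) pn)))))))))))))))))))) :=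
  Cl.node (nat_lit 0xc1) (nat_lit 2) (by decide +kernel) (ClAll.succ (ClAll.succ ClAll.zero n475) n476)

def n499 : Cl (O (nat_lit 1)) (R (nat_lit 14353))
    (p (nat_lit 0x111) (nat_lit 0) (p (nat_lit 0xd1) (nat_lit 1) (p (nat_lit 0x89) (nat_lit 0) (p (nat_lit 0x41) (nat_lit 0) (p (nat_lit 0x8090887069a) (nat_lit 0) (p (nat_lit 0x7870806861a) (nat_lit 0) (p (nat_lit 0x800070786058a) (nat_lit 0) (p (nat_lit 0x787058502) (nat_lit 0) (p (nat_lit 0x586850482) (nat_lit 0) (p (nat_lit 0x160014) (nat_lit 0) (p (nat_lit 0x16000c) (nat_lit 0) (p (nat_lit 0x68612) (nat_lit 0) (p (nat_lit 0x50592) (nat_lit 0) (p (nat_lit 0x40512) (nat_lit 0) (p (nat_lit 0x50312) (nat_lit 0) (p (nat_lit 0x38292) (nat_lit 0) (p (nat_lit 0x28212) (nat_lit 0) (p (nat_lit 0x38112) (nat_lit 0) (p (nat_lit 0x20092) (nat_lit 0) (p (nat_lit 0x10012) (nat_lit 0) pn)))))))))))))))))))) :=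
  Cl.node (nat_lit 0x101) (nat_lit 2) (by decide +kernel) (ClAll.succ (ClAll.succ ClAll.zero n477) n478)

def n500 : Cl (O (nat_lit 1)) (R (nat_lit 14353))
    (p (nat_lit 0x111) (nat_lit 1) (p (nat_lit 0xd1) (nat_lit 1) (p (nat_lit 0x89) (nat_lit 0) (p (nat_lit 0x41) (nat_lit 0) (p (nat_lit 0x8090887069a) (nat_lit 0) (p (nat_lit 0x7870806861a) (nat_lit 0) (p (nat_lit 0x800070786058a) (nat_lit 0) (p (nat_lit 0x787058502) (nat_lit 0) (p (nat_lit 0x586850482) (nat_lit 0) (p (nat_lit 0x160014) (nat_lit 0) (p (nat_lit 0x16000c) (nat_lit 0) (p (nat_lit 0x68612) (nat_lit 0) (p (nat_lit 0x50592) (nat_lit 0) (p (nat_lit 0x40512) (nat_lit 0) (p (nat_lit 0x50312) (nat_lit 0) (p (nat_lit 0x38292) (nat_lit 0) (p (nat_lit 0x28212) (nat_lit 0) (p (nat_lit 0x38112) (nat_lit 0) (p (nat_lit 0x20092) (nat_lit 0) (p (nat_lit 0x10012) (nat_lit 0) pn)))))))))))))))))))) :=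
  Cl.node (nat_lit 0x81) (nat_lit 2) (by decide +kernel) (ClAll.succ (ClAll.succ ClAll.zero s395) n479)

def n501 : Cl (O (nat_lit 1)) (R (nat_lit 14353))
    (p (nat_lit 0x119) (nat_lit 0) (p (nat_lit 0xc9) (nat_lit 0) (p (nat_lit 0x89) (nat_lit 1) (p (nat_lit 0x41) (nat_lit 0) (p (nat_lit 0x8090887069a) (nat_lit 0) (p (nat_lit 0x7870806861a) (nat_lit 0) (p (nat_lit 0x800070786058a) (nat_lit 0) (p (nat_lit 0x787058502) (nat_lit 0) (p (nat_lit 0x586850482) (nat_lit 0) (p (nat_lit 0x160014) (nat_lit 0) (p (nat_lit 0x16000c) (nat_lit 0) (p (nat_lit 0x68612) (nat_lit 0) (p (nat_lit 0x50592) (nat_lit 0) (p (nat_lit 0x40512) (nat_lit 0) (p (nat_lit 0x50312) (nat_lit 0) (p (nat_lit 0x38292) (nat_lit 0) (p (nat_lit 0x28212) (nat_lit 0) (p (nat_lit 0x38112) (nat_lit 0) (p (nat_lit 0x20092) (nat_lit 0) (p (nat_lit 0x10012) (nat_lit 0) pn)))))))))))))))))))) :=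
  Cl.node (nat_lit 0x101) (nat_lit 2) (by decide +kernel) (ClAll.succ (ClAll.succ ClAll.zero n480) n481)

def n502 : Cl (O (nat_lit 1)) (R (nat_lit 14353))
    (p (nat_lit 0x119) (nat_lit 1) (p (nat_lit 0xc9) (nat_lit 0) (p (nat_lit 0x89) (nat_lit 1) (p (nat_lit 0x41) (nat_lit 0) (p (nat_lit 0x8090887069a) (nat_lit 0) (p (nat_lit 0x7870806861a) (nat_lit 0) (p (nat_lit 0x800070786058a) (nat_lit 0) (p (nat_lit 0x787058502) (nat_lit 0) (p (nat_lit 0x586850482) (nat_lit 0) (p (nat_lit 0x160014) (nat_lit 0) (p (nat_lit 0x16000c) (nat_lit 0) (p (nat_lit 0x68612) (nat_lit 0) (p (nat_lit 0x50592) (nat_lit 0) (p (nat_lit 0x40512) (nat_lit 0) (p (nat_lit 0x50312) (nat_lit 0) (p (nat_lit 0x38292) (nat_lit 0) (p (nat_lit 0x28212) (nat_lit 0) (p (nat_lit 0x38112) (nat_lit 0) (p (nat_lit 0x20092) (nat_lit 0) (p (nat_lit 0x10012) (nat_lit 0) pn)))))))))))))))))))) :=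
  Cl.node (nat_lit 0xc1) (nat_lit 2) (by decide +kernel) (ClAll.succ (ClAll.succ ClAll.zero n482) n483)

def n503 : Cl (O (nat_lit 1)) (R (nat_lit 14353))
    (p (nat_lit 0x109) (nat_lit 0) (p (nat_lit 0xc9) (nat_lit 1) (p (nat_lit 0x89) (nat_lit 1) (p (nat_lit 0x41) (nat_lit 0) (p (nat_lit 0x8090887069a) (nat_lit 0) (p (nat_lit 0x7870806861a) (nat_lit 0) (p (nat_lit 0x800070786058a) (nat_lit 0) (p (nat_lit 0x787058502) (nat_lit 0) (p (nat_lit 0x586850482) (nat_lit 0) (p (nat_lit 0x160014) (nat_lit 0) (p (nat_lit 0x16000c) (nat_lit 0) (p (nat_lit 0x68612) (nat_lit 0) (p (nat_lit 0x50592) (nat_lit 0) (p (nat_lit 0x40512) (nat_lit 0) (p (nat_lit 0x50312) (nat_lit 0) (p (nat_lit 0x38292) (nat_lit 0) (p (nat_lit 0x28212) (nat_lit 0) (p (nat_lit 0x38112) (nat_lit 0) (p (nat_lit 0x20092) (nat_lit 0) (p (nat_lit 0x10012) (nat_lit 0) pn)))))))))))))))))))) :=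
  Cl.node (nat_lit 0x101) (nat_lit 2) (by decide +kernel) (ClAll.succ (ClAll.succ ClAll.zero n484) s682)

def n504 : Cl (O (nat_lit 1)) (R (nat_lit 14353))
    (p (nat_lit 0x119) (nat_lit 0) (p (nat_lit 0xd1) (nat_lit 0) (p (nat_lit 0x81) (nat_lit 0) (p (nat_lit 0x41) (nat_lit 1) (p (nat_lit 0x8090887069a) (nat_lit 0) (p (nat_lit 0x7870806861a) (nat_lit 0) (p (nat_lit 0x800070786058a) (nat_lit 0) (p (nat_lit 0x787058502) (nat_lit 0) (p (nat_lit 0x586850482) (nat_lit 0) (p (nat_lit 0x160014) (nat_lit 0) (p (nat_lit 0x16000c) (nat_lit 0) (p (nat_lit 0x68612) (nat_lit 0) (p (nat_lit 0x50592) (nat_lit 0) (p (nat_lit 0x40512) (nat_lit 0) (p (nat_lit 0x50312) (nat_lit 0) (p (nat_lit 0x38292) (nat_lit 0) (p (nat_lit 0x28212) (nat_lit 0) (p (nat_lit 0x38112) (nat_lit 0) (p (nat_lit 0x20092) (nat_lit 0) (p (nat_lit 0x10012) (nat_lit 0) pn)))))))))))))))))))) :=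
  Cl.node (nat_lit 0x101) (nat_lit 2) (by decide +kernel) (ClAll.succ (ClAll.succ ClAll.zero n485) n486)

def n505 : Cl (O (nat_lit 1)) (R (nat_lit 14353))
    (p (nat_lit 0x119) (nat_lit 1) (p (nat_lit 0xd1) (nat_lit 0) (p (nat_lit 0x81) (nat_lit 0) (p (nat_lit 0x41) (nat_lit 1) (p (nat_lit 0x8090887069a) (nat_lit 0) (p (nat_lit 0x7870806861a) (nat_lit 0) (p (nat_lit 0x800070786058a) (nat_lit 0) (p (nat_lit 0x787058502) (nat_lit 0) (p (nat_lit 0x586850482) (nat_lit 0) (p (nat_lit 0x160014) (nat_lit 0) (p (nat_lit 0x16000c) (nat_lit 0) (p (nat_lit 0x68612) (nat_lit 0) (p (nat_lit 0x50592) (nat_lit 0) (p (nat_lit 0x40512) (nat_lit 0) (p (nat_lit 0x50312) (nat_lit 0) (p (nat_lit 0x38292) (nat_lit 0) (p (nat_lit 0x28212) (nat_lit 0) (p (nat_lit 0x38112) (nat_lit 0) (p (nat_lit 0x20092) (nat_lit 0) (p (nat_lit 0x10012) (nat_lit 0) pn)))))))))))))))))))) :=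
  Cl.node (nat_lit 0xc1) (nat_lit 2) (by decide +kernel) (ClAll.succ (ClAll.succ ClAll.zero n487) n488)

def n506 : Cl (O (nat_lit 1)) (R (nat_lit 14353))
    (p (nat_lit 0x111) (nat_lit 0) (p (nat_lit 0xd1) (nat_lit 1) (p (nat_lit 0x81) (nat_lit 0) (p (nat_lit 0x41) (nat_lit 1) (p (nat_lit 0x8090887069a) (nat_lit 0) (p (nat_lit 0x7870806861a) (nat_lit 0) (p (nat_lit 0x800070786058a) (nat_lit 0) (p (nat_lit 0x787058502) (nat_lit 0) (p (nat_lit 0x586850482) (nat_lit 0) (p (nat_lit 0x160014) (nat_lit 0) (p (nat_lit 0x16000c) (nat_lit 0) (p (nat_lit 0x68612) (nat_lit 0) (p (nat_lit 0x50592) (nat_lit 0) (p (nat_lit 0x40512) (nat_lit 0) (p (nat_lit 0x50312) (nat_lit 0) (p (nat_lit 0x38292) (nat_lit 0) (p (nat_lit 0x28212) (nat_lit 0) (p (nat_lit 0x38112) (nat_lit 0) (p (nat_lit 0x20092) (nat_lit 0) (p (nat_lit 0x10012) (nat_lit 0) pn)))))))))))))))))))) :=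
  Cl.node (nat_lit 0x101) (nat_lit 2) (by decide +kernel) (ClAll.succ (ClAll.succ ClAll.zero n489) n490)

def n507 : Cl (O (nat_lit 1)) (R (nat_lit 14353))
    (p (nat_lit 0x111) (nat_lit 1) (p (nat_lit 0xd1) (nat_lit 1) (p (nat_lit 0x81) (nat_lit 0) (p (nat_lit 0x41) (nat_lit 1) (p (nat_lit 0x8090887069a) (nat_lit 0) (p (nat_lit 0x7870806861a) (nat_lit 0) (p (nat_lit 0x800070786058a) (nat_lit 0) (p (nat_lit 0x787058502) (nat_lit 0) (p (nat_lit 0x586850482) (nat_lit 0) (p (nat_lit 0x160014) (nat_lit 0) (p (nat_lit 0x16000c) (nat_lit 0) (p (nat_lit 0x68612) (nat_lit 0) (p (nat_lit 0x50592) (nat_lit 0) (p (nat_lit 0x40512) (nat_lit 0) (p (nat_lit 0x50312) (nat_lit 0) (p (nat_lit 0x38292) (nat_lit 0) (p (nat_lit 0x28212) (nat_lit 0) (p (nat_lit 0x38112) (nat_lit 0) (p (nat_lit 0x20092) (nat_lit 0) (p (nat_lit 0x10012) (nat_lit 0) pn)))))))))))))))))))) :=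
  Cl.node (nat_lit 0x89) (nat_lit 2) (by decide +kernel) (ClAll.succ (ClAll.succ ClAll.zero s1050) n491)

def n508 : Cl (O (nat_lit 1)) (R (nat_lit 14353))
    (p (nat_lit 0x119) (nat_lit 0) (p (nat_lit 0xc1) (nat_lit 0) (p (nat_lit 0x81) (nat_lit 1) (p (nat_lit 0x41) (nat_lit 1) (p (nat_lit 0x8090887069a) (nat_lit 0) (p (nat_lit 0x7870806861a) (nat_lit 0) (p (nat_lit 0x800070786058a) (nat_lit 0) (p (nat_lit 0x787058502) (nat_lit 0) (p (nat_lit 0x586850482) (nat_lit 0) (p (nat_lit 0x160014) (nat_lit 0) (p (nat_lit 0x16000c) (nat_lit 0) (p (nat_lit 0x68612) (nat_lit 0) (p (nat_lit 0x50592) (nat_lit 0) (p (nat_lit 0x40512) (nat_lit 0) (p (nat_lit 0x50312) (nat_lit 0) (p (nat_lit 0x38292) (nat_lit 0) (p (nat_lit 0x28212) (nat_lit 0) (p (nat_lit 0x38112) (nat_lit 0) (p (nat_lit 0x20092) (nat_lit 0) (p (nat_lit 0x10012) (nat_lit 0) pn)))))))))))))))))))) :=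
  Cl.node (nat_lit 0x101) (nat_lit 2) (by decide +kernel) (ClAll.succ (ClAll.succ ClAll.zero n492) n493)

def n509 : Cl (O (nat_lit 1)) (R (nat_lit 14353))
    (p (nat_lit 0x119) (nat_lit 1) (p (nat_lit 0xc1) (nat_lit 0) (p (nat_lit 0x81) (nat_lit 1) (p (nat_lit 0x41) (nat_lit 1) (p (nat_lit 0x8090887069a) (nat_lit 0) (p (nat_lit 0x7870806861a) (nat_lit 0) (p (nat_lit 0x800070786058a) (nat_lit 0) (p (nat_lit 0x787058502) (nat_lit 0) (p (nat_lit 0x586850482) (nat_lit 0) (p (nat_lit 0x160014) (nat_lit 0) (p (nat_lit 0x16000c) (nat_lit 0) (p (nat_lit 0x68612) (nat_lit 0) (p (nat_lit 0x50592) (nat_lit 0) (p (nat_lit 0x40512) (nat_lit 0) (p (nat_lit 0x50312) (nat_lit 0) (p (nat_lit 0x38292) (nat_lit 0) (p (nat_lit 0x28212) (nat_lit 0) (p (nat_lit 0x38112) (nat_lit 0) (p (nat_lit 0x20092) (nat_lit 0) (p (nat_lit 0x10012) (nat_lit 0) pn)))))))))))))))))))) :=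
  Cl.node (nat_lit 0xc9) (nat_lit 2) (by decide +kernel) (ClAll.succ (ClAll.succ ClAll.zero n494) n495)

def n510 : Cl (O (nat_lit 1)) (R (nat_lit 14353))
    (p (nat_lit 0x101) (nat_lit 0) (p (nat_lit 0xc1) (nat_lit 1) (p (nat_lit 0x81) (nat_lit 1) (p (nat_lit 0x41) (nat_lit 1) (p (nat_lit 0x8090887069a) (nat_lit 0) (p (nat_lit 0x7870806861a) (nat_lit 0) (p (nat_lit 0x800070786058a) (nat_lit 0) (p (nat_lit 0x787058502) (nat_lit 0) (p (nat_lit 0x586850482) (nat_lit 0) (p (nat_lit 0x160014) (nat_lit 0) (p (nat_lit 0x16000c) (nat_lit 0) (p (nat_lit 0x68612) (nat_lit 0) (p (nat_lit 0x50592) (nat_lit 0) (p (nat_lit 0x40512) (nat_lit 0) (p (nat_lit 0x50312) (nat_lit 0) (p (nat_lit 0x38292) (nat_lit 0) (p (nat_lit 0x28212) (nat_lit 0) (p (nat_lit 0x38112) (nat_lit 0) (p (nat_lit 0x20092) (nat_lit 0) (p (nat_lit 0x10012) (nat_lit 0) pn)))))))))))))))))))) :=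
  Cl.node (nat_lit 0x109) (nat_lit 2) (by decide +kernel) (ClAll.succ (ClAll.succ ClAll.zero n496) s1273)

def n511 : Cl (O (nat_lit 1)) (R (nat_lit 14353))
    (p (nat_lit 0xd1) (nat_lit 0) (p (nat_lit 0x89) (nat_lit 0) (p (nat_lit 0x41) (nat_lit 0) (p (nat_lit 0x8090887069a) (nat_lit 0) (p (nat_lit 0x7870806861a) (nat_lit 0) (p (nat_lit 0x800070786058a) (nat_lit 0) (p (nat_lit 0x787058502) (nat_lit 0) (p (nat_lit 0x586850482) (nat_lit 0) (p (nat_lit 0x160014) (nat_lit 0) (p (nat_lit 0x16000c) (nat_lit 0) (p (nat_lit 0x68612) (nat_lit 0) (p (nat_lit 0x50592) (nat_lit 0) (p (nat_lit 0x40512) (nat_lit 0) (p (nat_lit 0x50312) (nat_lit 0) (p (nat_lit 0x38292) (nat_lit 0) (p (nat_lit 0x28212) (nat_lit 0) (p (nat_lit 0x38112) (nat_lit 0) (p (nat_lit 0x20092) (nat_lit 0) (p (nat_lit 0x10012) (nat_lit 0) pn))))))))))))))))))) :=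
  Cl.node (nat_lit 0x119) (nat_lit 2) (by decide +kernel) (ClAll.succ (ClAll.succ ClAll.zero n497) n498)

def n512 : Cl (O (nat_lit 1)) (R (nat_lit 14353))
    (p (nat_lit 0xd1) (nat_lit 1) (p (nat_lit 0x89) (nat_lit 0) (p (nat_lit 0x41) (nat_lit 0) (p (nat_lit 0x8090887069a) (nat_lit 0) (p (nat_lit 0x7870806861a) (nat_lit 0) (p (nat_lit 0x800070786058a) (nat_lit 0) (p (nat_lit 0x787058502) (nat_lit 0) (p (nat_lit 0x586850482) (nat_lit 0) (p (nat_lit 0x160014) (nat_lit 0) (p (nat_lit 0x16000c) (nat_lit 0) (p (nat_lit 0x68612) (nat_lit 0) (p (nat_lit 0x50592) (nat_lit 0) (p (nat_lit 0x40512) (nat_lit 0) (p (nat_lit 0x50312) (nat_lit 0) (p (nat_lit 0x38292) (nat_lit 0) (p (nat_lit 0x28212) (nat_lit 0) (p (nat_lit 0x38112) (nat_lit 0) (p (nat_lit 0x20092) (nat_lit 0) (p (nat_lit 0x10012) (nat_lit 0) pn))))))))))))))))))) :=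
  Cl.node (nat_lit 0x111) (nat_lit 2) (by decide +kernel) (ClAll.succ (ClAll.succ ClAll.zero n499) n500)

def n513 : Cl (O (nat_lit 1)) (R (nat_lit 14353))
    (p (nat_lit 0xc9) (nat_lit 0) (p (nat_lit 0x89) (nat_lit 1) (p (nat_lit 0x41) (nat_lit 0) (p (nat_lit 0x8090887069a) (nat_lit 0) (p (nat_lit 0x7870806861a) (nat_lit 0) (p (nat_lit 0x800070786058a) (nat_lit 0) (p (nat_lit 0x787058502) (nat_lit 0) (p (nat_lit 0x586850482) (nat_lit 0) (p (nat_lit 0x160014) (nat_lit 0) (p (nat_lit 0x16000c) (nat_lit 0) (p (nat_lit 0x68612) (nat_lit 0) (p (nat_lit 0x50592) (nat_lit 0) (p (nat_lit 0x40512) (nat_lit 0) (p (nat_lit 0x50312) (nat_lit 0) (p (nat_lit 0x38292) (nat_lit 0) (p (nat_lit 0x28212) (nat_lit 0) (p (nat_lit 0x38112) (nat_lit 0) (p (nat_lit 0x20092) (nat_lit 0) (p (nat_lit 0x10012) (nat_lit 0) pn))))))))))))))))))) :=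
  Cl.node (nat_lit 0x119) (nat_lit 2) (by decide +kernel) (ClAll.succ (ClAll.succ ClAll.zero n501) n502)

def n514 : Cl (O (nat_lit 1)) (R (nat_lit 14353))
    (p (nat_lit 0xc9) (nat_lit 1) (p (nat_lit 0x89) (nat_lit 1) (p (nat_lit 0x41) (nat_lit 0) (p (nat_lit 0x8090887069a) (nat_lit 0) (p (nat_lit 0x7870806861a) (nat_lit 0) (p (nat_lit 0x800070786058a) (nat_lit 0) (p (nat_lit 0x787058502) (nat_lit 0) (p (nat_lit 0x586850482) (nat_lit 0) (p (nat_lit 0x160014) (nat_lit 0) (p (nat_lit 0x16000c) (nat_lit 0) (p (nat_lit 0x68612) (nat_lit 0) (p (nat_lit 0x50592) (nat_lit 0) (p (nat_lit 0x40512) (nat_lit 0) (p (nat_lit 0x50312) (nat_lit 0) (p (nat_lit 0x38292) (nat_lit 0) (p (nat_lit 0x28212) (nat_lit 0) (p (nat_lit 0x38112) (nat_lit 0) (p (nat_lit 0x20092) (nat_lit 0) (p (nat_lit 0x10012) (nat_lit 0) pn))))))))))))))))))) :=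
  Cl.node (nat_lit 0x109) (nat_lit 2) (by decide +kernel) (ClAll.succ (ClAll.succ ClAll.zero n503) s683)

def n515 : Cl (O (nat_lit 1)) (R (nat_lit 14353))
    (p (nat_lit 0xd1) (nat_lit 0) (p (nat_lit 0x81) (nat_lit 0) (p (nat_lit 0x41) (nat_lit 1) (p (nat_lit 0x8090887069a) (nat_lit 0) (p (nat_lit 0x7870806861a) (nat_lit 0) (p (nat_lit 0x800070786058a) (nat_lit 0) (p (nat_lit 0x787058502) (nat_lit 0) (p (nat_lit 0x586850482) (nat_lit 0) (p (nat_lit 0x160014) (nat_lit 0) (p (nat_lit 0x16000c) (nat_lit 0) (p (nat_lit 0x68612) (nat_lit 0) (p (nat_lit 0x50592) (nat_lit 0) (p (nat_lit 0x40512) (nat_lit 0) (p (nat_lit 0x50312) (nat_lit 0) (p (nat_lit 0x38292) (nat_lit 0) (p (nat_lit 0x28212) (nat_lit 0) (p (nat_lit 0x38112) (nat_lit 0) (p (nat_lit 0x20092) (nat_lit 0) (p (nat_lit 0x10012) (nat_lit 0) pn))))))))))))))))))) :=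
  Cl.node (nat_lit 0x119) (nat_lit 2) (by decide +kernel) (ClAll.succ (ClAll.succ ClAll.zero n504) n505)

def n516 : Cl (O (nat_lit 1)) (R (nat_lit 14353))
    (p (nat_lit 0xd1) (nat_lit 1) (p (nat_lit 0x81) (nat_lit 0) (p (nat_lit 0x41) (nat_lit 1) (p (nat_lit 0x8090887069a) (nat_lit 0) (p (nat_lit 0x7870806861a) (nat_lit 0) (p (nat_lit 0x800070786058a) (nat_lit 0) (p (nat_lit 0x787058502) (nat_lit 0) (p (nat_lit 0x586850482) (nat_lit 0) (p (nat_lit 0x160014) (nat_lit 0) (p (nat_lit 0x16000c) (nat_lit 0) (p (nat_lit 0x68612) (nat_lit 0) (p (nat_lit 0x50592) (nat_lit 0) (p (nat_lit 0x40512) (nat_lit 0) (p (nat_lit 0x50312) (nat_lit 0) (p (nat_lit 0x38292) (nat_lit 0) (p (nat_lit 0x28212) (nat_lit 0) (p (nat_lit 0x38112) (nat_lit 0) (p (nat_lit 0x20092) (nat_lit 0) (p (nat_lit 0x10012) (nat_lit 0) pn))))))))))))))))))) :=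
  Cl.node (nat_lit 0x111) (nat_lit 2) (by decide +kernel) (ClAll.succ (ClAll.succ ClAll.zero n506) n507)

def n517 : Cl (O (nat_lit 1)) (R (nat_lit 14353))
    (p (nat_lit 0xc1) (nat_lit 0) (p (nat_lit 0x81) (nat_lit 1) (p (nat_lit 0x41) (nat_lit 1) (p (nat_lit 0x8090887069a) (nat_lit 0) (p (nat_lit 0x7870806861a) (nat_lit 0) (p (nat_lit 0x800070786058a) (nat_lit 0) (p (nat_lit 0x787058502) (nat_lit 0) (p (nat_lit 0x586850482) (nat_lit 0) (p (nat_lit 0x160014) (nat_lit 0) (p (nat_lit 0x16000c) (nat_lit 0) (p (nat_lit 0x68612) (nat_lit 0) (p (nat_lit 0x50592) (nat_lit 0) (p (nat_lit 0x40512) (nat_lit 0) (p (nat_lit 0x50312) (nat_lit 0) (p (nat_lit 0x38292) (nat_lit 0) (p (nat_lit 0x28212) (nat_lit 0) (p (nat_lit 0x38112) (nat_lit 0) (p (nat_lit 0x20092) (nat_lit 0) (p (nat_lit 0x10012) (nat_lit 0) pn))))))))))))))))))) :=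
  Cl.node (nat_lit 0x119) (nat_lit 2) (by decide +kernel) (ClAll.succ (ClAll.succ ClAll.zero n508) n509)

def n518 : Cl (O (nat_lit 1)) (R (nat_lit 14353))
    (p (nat_lit 0xc1) (nat_lit 1) (p (nat_lit 0x81) (nat_lit 1) (p (nat_lit 0x41) (nat_lit 1) (p (nat_lit 0x8090887069a) (nat_lit 0) (p (nat_lit 0x7870806861a) (nat_lit 0) (p (nat_lit 0x800070786058a) (nat_lit 0) (p (nat_lit 0x787058502) (nat_lit 0) (p (nat_lit 0x586850482) (nat_lit 0) (p (nat_lit 0x160014) (nat_lit 0) (p (nat_lit 0x16000c) (nat_lit 0) (p (nat_lit 0x68612) (nat_lit 0) (p (nat_lit 0x50592) (nat_lit 0) (p (nat_lit 0x40512) (nat_lit 0) (p (nat_lit 0x50312) (nat_lit 0) (p (nat_lit 0x38292) (nat_lit 0) (p (nat_lit 0x28212) (nat_lit 0) (p (nat_lit 0x38112) (nat_lit 0) (p (nat_lit 0x20092) (nat_lit 0) (p (nat_lit 0x10012) (nat_lit 0) pn))))))))))))))))))) :=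
  Cl.node (nat_lit 0x101) (nat_lit 2) (by decide +kernel) (ClAll.succ (ClAll.succ ClAll.zero n510) s1274)

def n519 : Cl (O (nat_lit 1)) (R (nat_lit 14353))
    (p (nat_lit 0x89) (nat_lit 0) (p (nat_lit 0x41) (nat_lit 0) (p (nat_lit 0x8090887069a) (nat_lit 0) (p (nat_lit 0x7870806861a) (nat_lit 0) (p (nat_lit 0x800070786058a) (nat_lit 0) (p (nat_lit 0x787058502) (nat_lit 0) (p (nat_lit 0x586850482) (nat_lit 0) (p (nat_lit 0x160014) (nat_lit 0) (p (nat_lit 0x16000c) (nat_lit 0) (p (nat_lit 0x68612) (nat_lit 0) (p (nat_lit 0x50592) (nat_lit 0) (p (nat_lit 0x40512) (nat_lit 0) (p (nat_lit 0x50312) (nat_lit 0) (p (nat_lit 0x38292) (nat_lit 0) (p (nat_lit 0x28212) (nat_lit 0) (p (nat_lit 0x38112) (nat_lit 0) (p (nat_lit 0x20092) (nat_lit 0) (p (nat_lit 0x10012) (nat_lit 0) pn)))))))))))))))))) :=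
  Cl.node (nat_lit 0xd1) (nat_lit 2) (by decide +kernel) (ClAll.succ (ClAll.succ ClAll.zero n511) n512)

def n520 : Cl (O (nat_lit 1)) (R (nat_lit 14353))
    (p (nat_lit 0x89) (nat_lit 1) (p (nat_lit 0x41) (nat_lit 0) (p (nat_lit 0x8090887069a) (nat_lit 0) (p (nat_lit 0x7870806861a) (nat_lit 0) (p (nat_lit 0x800070786058a) (nat_lit 0) (p (nat_lit 0x787058502) (nat_lit 0) (p (nat_lit 0x586850482) (nat_lit 0) (p (nat_lit 0x160014) (nat_lit 0) (p (nat_lit 0x16000c) (nat_lit 0) (p (nat_lit 0x68612) (nat_lit 0) (p (nat_lit 0x50592) (nat_lit 0) (p (nat_lit 0x40512) (nat_lit 0) (p (nat_lit 0x50312) (nat_lit 0) (p (nat_lit 0x38292) (nat_lit 0) (p (nat_lit 0x28212) (nat_lit 0) (p (nat_lit 0x38112) (nat_lit 0) (p (nat_lit 0x20092) (nat_lit 0) (p (nat_lit 0x10012) (nat_lit 0) pn)))))))))))))))))) :=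
  Cl.node (nat_lit 0xc9) (nat_lit 2) (by decide +kernel) (ClAll.succ (ClAll.succ ClAll.zero n513) n514)

def n521 : Cl (O (nat_lit 1)) (R (nat_lit 14353))
    (p (nat_lit 0x81) (nat_lit 0) (p (nat_lit 0x41) (nat_lit 1) (p (nat_lit 0x8090887069a) (nat_lit 0) (p (nat_lit 0x7870806861a) (nat_lit 0) (p (nat_lit 0x800070786058a) (nat_lit 0) (p (nat_lit 0x787058502) (nat_lit 0) (p (nat_lit 0x586850482) (nat_lit 0) (p (nat_lit 0x160014) (nat_lit 0) (p (nat_lit 0x16000c) (nat_lit 0) (p (nat_lit 0x68612) (nat_lit 0) (p (nat_lit 0x50592) (nat_lit 0) (p (nat_lit 0x40512) (nat_lit 0) (p (nat_lit 0x50312) (nat_lit 0) (p (nat_lit 0x38292) (nat_lit 0) (p (nat_lit 0x28212) (nat_lit 0) (p (nat_lit 0x38112) (nat_lit 0) (p (nat_lit 0x20092) (nat_lit 0) (p (nat_lit 0x10012) (nat_lit 0) pn)))))))))))))))))) :=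
  Cl.node (nat_lit 0xd1) (nat_lit 2) (by decide +kernel) (ClAll.succ (ClAll.succ ClAll.zero n515) n516)

def n522 : Cl (O (nat_lit 1)) (R (nat_lit 14353))
    (p (nat_lit 0x81) (nat_lit 1) (p (nat_lit 0x41) (nat_lit 1) (p (nat_lit 0x8090887069a) (nat_lit 0) (p (nat_lit 0x7870806861a) (nat_lit 0) (p (nat_lit 0x800070786058a) (nat_lit 0) (p (nat_lit 0x787058502) (nat_lit 0) (p (nat_lit 0x586850482) (nat_lit 0) (p (nat_lit 0x160014) (nat_lit 0) (p (nat_lit 0x16000c) (nat_lit 0) (p (nat_lit 0x68612) (nat_lit 0) (p (nat_lit 0x50592) (nat_lit 0) (p (nat_lit 0x40512) (nat_lit 0) (p (nat_lit 0x50312) (nat_lit 0) (p (nat_lit 0x38292) (nat_lit 0) (p (nat_lit 0x28212) (nat_lit 0) (p (nat_lit 0x38112) (nat_lit 0) (p (nat_lit 0x20092) (nat_lit 0) (p (nat_lit 0x10012) (nat_lit 0) pn)))))))))))))))))) :=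
  Cl.node (nat_lit 0xc1) (nat_lit 2) (by decide +kernel) (ClAll.succ (ClAll.succ ClAll.zero n517) n518)

def n523 : Cl (O (nat_lit 1)) (R (nat_lit 14353))
    (p (nat_lit 0x41) (nat_lit 0) (p (nat_lit 0x8090887069a) (nat_lit 0) (p (nat_lit 0x7870806861a) (nat_lit 0) (p (nat_lit 0x800070786058a) (nat_lit 0) (p (nat_lit 0x787058502) (nat_lit 0) (p (nat_lit 0x586850482) (nat_lit 0) (p (nat_lit 0x160014) (nat_lit 0) (p (nat_lit 0x16000c) (nat_lit 0) (p (nat_lit 0x68612) (nat_lit 0) (p (nat_lit 0x50592) (nat_lit 0) (p (nat_lit 0x40512) (nat_lit 0) (p (nat_lit 0x50312) (nat_lit 0) (p (nat_lit 0x38292) (nat_lit 0) (p (nat_lit 0x28212) (nat_lit 0) (p (nat_lit 0x38112) (nat_lit 0) (p (nat_lit 0x20092) (nat_lit 0) (p (nat_lit 0x10012) (nat_lit 0) pn))))))))))))))))) :=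
  Cl.node (nat_lit 0x89) (nat_lit 2) (by decide +kernel) (ClAll.succ (ClAll.succ ClAll.zero n519) n520)

def n524 : Cl (O (nat_lit 1)) (R (nat_lit 14353))
    (p (nat_lit 0x41) (nat_lit 1) (p (nat_lit 0x8090887069a) (nat_lit 0) (p (nat_lit 0x7870806861a) (nat_lit 0) (p (nat_lit 0x800070786058a) (nat_lit 0) (p (nat_lit 0x787058502) (nat_lit 0) (p (nat_lit 0x586850482) (nat_lit 0) (p (nat_lit 0x160014) (nat_lit 0) (p (nat_lit 0x16000c) (nat_lit 0) (p (nat_lit 0x68612) (nat_lit 0) (p (nat_lit 0x50592) (nat_lit 0) (p (nat_lit 0x40512) (nat_lit 0) (p (nat_lit 0x50312) (nat_lit 0) (p (nat_lit 0x38292) (nat_lit 0) (p (nat_lit 0x28212) (nat_lit 0) (p (nat_lit 0x38112) (nat_lit 0) (p (nat_lit 0x20092) (nat_lit 0) (p (nat_lit 0x10012) (nat_lit 0) pn))))))))))))))))) :=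
  Cl.node (nat_lit 0x81) (nat_lit 2) (by decide +kernel) (ClAll.succ (ClAll.succ ClAll.zero n521) n522)

def n525 : Cl (O (nat_lit 1)) (R (nat_lit 14353))
    (p (nat_lit 0x8090887069a) (nat_lit 0) (p (nat_lit 0x7870806861a) (nat_lit 0) (p (nat_lit 0x800070786058a) (nat_lit 0) (p (nat_lit 0x787058502) (nat_lit 0) (p (nat_lit 0x586850482) (nat_lit 0) (p (nat_lit 0x160014) (nat_lit 0) (p (nat_lit 0x16000c) (nat_lit 0) (p (nat_lit 0x68612) (nat_lit 0) (p (nat_lit 0x50592) (nat_lit 0) (p (nat_lit 0x40512) (nat_lit 0) (p (nat_lit 0x50312) (nat_lit 0) (p (nat_lit 0x38292) (nat_lit 0) (p (nat_lit 0x28212) (nat_lit 0) (p (nat_lit 0x38112) (nat_lit 0) (p (nat_lit 0x20092) (nat_lit 0) (p (nat_lit 0x10012) (nat_lit 0) pn)))))))))))))))) :=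
  Cl.node (nat_lit 0x41) (nat_lit 2) (by decide +kernel) (ClAll.succ (ClAll.succ ClAll.zero n523) n524)

def n526 : Cl (O (nat_lit 1)) (R (nat_lit 14353))
    (p (nat_lit 0x7870806861a) (nat_lit 0) (p (nat_lit 0x800070786058a) (nat_lit 0) (p (nat_lit 0x787058502) (nat_lit 0) (p (nat_lit 0x586850482) (nat_lit 0) (p (nat_lit 0x160014) (nat_lit 0) (p (nat_lit 0x16000c) (nat_lit 0) (p (nat_lit 0x68612) (nat_lit 0) (p (nat_lit 0x50592) (nat_lit 0) (p (nat_lit 0x40512) (nat_lit 0) (p (nat_lit 0x50312) (nat_lit 0) (p (nat_lit 0x38292) (nat_lit 0) (p (nat_lit 0x28212) (nat_lit 0) (p (nat_lit 0x38112) (nat_lit 0) (p (nat_lit 0x20092) (nat_lit 0) (p (nat_lit 0x10012) (nat_lit 0) pn))))))))))))))) :=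
  Cl.node (nat_lit 0x8090887069a) (nat_lit 1) (by decide +kernel) (ClAll.succ ClAll.zero n525)

def n527 : Cl (O (nat_lit 1)) (R (nat_lit 14353))
    (p (nat_lit 0x800070786058a) (nat_lit 0) (p (nat_lit 0x787058502) (nat_lit 0) (p (nat_lit 0x586850482) (nat_lit 0) (p (nat_lit 0x160014) (nat_lit 0) (p (nat_lit 0x16000c) (nat_lit 0) (p (nat_lit 0x68612) (nat_lit 0) (p (nat_lit 0x50592) (nat_lit 0) (p (nat_lit 0x40512) (nat_lit 0) (p (nat_lit 0x50312) (nat_lit 0) (p (nat_lit 0x38292) (nat_lit 0) (p (nat_lit 0x28212) (nat_lit 0) (p (nat_lit 0x38112) (nat_lit 0) (p (nat_lit 0x20092) (nat_lit 0) (p (nat_lit 0x10012) (nat_lit 0) pn)))))))))))))) :=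
  Cl.node (nat_lit 0x7870806861a) (nat_lit 1) (by decide +kernel) (ClAll.succ ClAll.zero n526)

def n528 : Cl (O (nat_lit 1)) (R (nat_lit 14353))
    (p (nat_lit 0x787058502) (nat_lit 0) (p (nat_lit 0x586850482) (nat_lit 0) (p (nat_lit 0x160014) (nat_lit 0) (p (nat_lit 0x16000c) (nat_lit 0) (p (nat_lit 0x68612) (nat_lit 0) (p (nat_lit 0x50592) (nat_lit 0) (p (nat_lit 0x40512) (nat_lit 0) (p (nat_lit 0x50312) (nat_lit 0) (p (nat_lit 0x38292) (nat_lit 0) (p (nat_lit 0x28212) (nat_lit 0) (p (nat_lit 0x38112) (nat_lit 0) (p (nat_lit 0x20092) (nat_lit 0) (p (nat_lit 0x10012) (nat_lit 0) pn))))))))))))) :=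
  Cl.node (nat_lit 0x800070786058a) (nat_lit 1) (by decide +kernel) (ClAll.succ ClAll.zero n527)

def n529 : Cl (O (nat_lit 1)) (R (nat_lit 14353))
    (p (nat_lit 0x586850482) (nat_lit 0) (p (nat_lit 0x160014) (nat_lit 0) (p (nat_lit 0x16000c) (nat_lit 0) (p (nat_lit 0x68612) (nat_lit 0) (p (nat_lit 0x50592) (nat_lit 0) (p (nat_lit 0x40512) (nat_lit 0) (p (nat_lit 0x50312) (nat_lit 0) (p (nat_lit 0x38292) (nat_lit 0) (p (nat_lit 0x28212) (nat_lit 0) (p (nat_lit 0x38112) (nat_lit 0) (p (nat_lit 0x20092) (nat_lit 0) (p (nat_lit 0x10012) (nat_lit 0) pn)))))))))))) :=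
  Cl.node (nat_lit 0x787058502) (nat_lit 1) (by decide +kernel) (ClAll.succ ClAll.zero n528)

def n530 : Cl (O (nat_lit 1)) (R (nat_lit 14353))
    (p (nat_lit 0x160014) (nat_lit 0) (p (nat_lit 0x16000c) (nat_lit 0) (p (nat_lit 0x68612) (nat_lit 0) (p (nat_lit 0x50592) (nat_lit 0) (p (nat_lit 0x40512) (nat_lit 0) (p (nat_lit 0x50312) (nat_lit 0) (p (nat_lit 0x38292) (nat_lit 0) (p (nat_lit 0x28212) (nat_lit 0) (p (nat_lit 0x38112) (nat_lit 0) (p (nat_lit 0x20092) (nat_lit 0) (p (nat_lit 0x10012) (nat_lit 0) pn))))))))))) :=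
  Cl.node (nat_lit 0x586850482) (nat_lit 1) (by decide +kernel) (ClAll.succ ClAll.zero n529)

def n531 : Cl (O (nat_lit 1)) (R (nat_lit 14353))
    (p (nat_lit 0x16000c) (nat_lit 0) (p (nat_lit 0x68612) (nat_lit 0) (p (nat_lit 0x50592) (nat_lit 0) (p (nat_lit 0x40512) (nat_lit 0) (p (nat_lit 0x50312) (nat_lit 0) (p (nat_lit 0x38292) (nat_lit 0) (p (nat_lit 0x28212) (nat_lit 0) (p (nat_lit 0x38112) (nat_lit 0) (p (nat_lit 0x20092) (nat_lit 0) (p (nat_lit 0x10012) (nat_lit 0) pn)))))))))) :=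
  Cl.node (nat_lit 0x160014) (nat_lit 2) (by decide +kernel) (ClAll.succ (ClAll.succ ClAll.zero n530) s1275)

def n532 : Cl (O (nat_lit 1)) (R (nat_lit 14353))
    (p (nat_lit 0x68612) (nat_lit 0) (p (nat_lit 0x50592) (nat_lit 0) (p (nat_lit 0x40512) (nat_lit 0) (p (nat_lit 0x50312) (nat_lit 0) (p (nat_lit 0x38292) (nat_lit 0) (p (nat_lit 0x28212) (nat_lit 0) (p (nat_lit 0x38112) (nat_lit 0) (p (nat_lit 0x20092) (nat_lit 0) (p (nat_lit 0x10012) (nat_lit 0) pn))))))))) :=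
  Cl.node (nat_lit 0x16000c) (nat_lit 2) (by decide +kernel) (ClAll.succ (ClAll.succ ClAll.zero n531) s1276)

def n533 : Cl (O (nat_lit 1)) (R (nat_lit 14353))
    (p (nat_lit 0x50592) (nat_lit 0) (p (nat_lit 0x40512) (nat_lit 0) (p (nat_lit 0x50312) (nat_lit 0) (p (nat_lit 0x38292) (nat_lit 0) (p (nat_lit 0x28212) (nat_lit 0) (p (nat_lit 0x38112) (nat_lit 0) (p (nat_lit 0x20092) (nat_lit 0) (p (nat_lit 0x10012) (nat_lit 0) pn)))))))) :=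
  Cl.node (nat_lit 0x68612) (nat_lit 1) (by decide +kernel) (ClAll.succ ClAll.zero n532)

def n534 : Cl (O (nat_lit 1)) (R (nat_lit 14353))
    (p (nat_lit 0x40512) (nat_lit 0) (p (nat_lit 0x50312) (nat_lit 0) (p (nat_lit 0x38292) (nat_lit 0) (p (nat_lit 0x28212) (nat_lit 0) (p (nat_lit 0x38112) (nat_lit 0) (p (nat_lit 0x20092) (nat_lit 0) (p (nat_lit 0x10012) (nat_lit 0) pn))))))) :=
  Cl.node (nat_lit 0x50592) (nat_lit 1) (by decide +kernel) (ClAll.succ ClAll.zero n533)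

def n535 : Cl (O (nat_lit 1)) (R (nat_lit 14353))
    (p (nat_lit 0x50312) (nat_lit 0) (p (nat_lit 0x38292) (nat_lit 0) (p (nat_lit 0x28212) (nat_lit 0) (p (nat_lit 0x38112) (nat_lit 0) (p (nat_lit 0x20092) (nat_lit 0) (p (nat_lit 0x10012) (nat_lit 0) pn)))))) :=
  Cl.node (nat_lit 0x40512) (nat_lit 1) (by decide +kernel) (ClAll.succ ClAll.zero n534)

def n536 : Cl (O (nat_lit 1)) (R (nat_lit 14353))
    (p (nat_lit 0x38292) (nat_lit 0) (p (nat_lit 0x28212) (nat_lit 0) (p (nat_lit 0x38112) (nat_lit 0) (p (nat_lit 0x20092) (nat_lit 0) (p (nat_lit 0x10012) (nat_lit 0) pn))))) :=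
  Cl.node (nat_lit 0x50312) (nat_lit 1) (by decide +kernel) (ClAll.succ ClAll.zero n535)

def n537 : Cl (O (nat_lit 1)) (R (nat_lit 14353))
    (p (nat_lit 0x28212) (nat_lit 0) (p (nat_lit 0x38112) (nat_lit 0) (p (nat_lit 0x20092) (nat_lit 0) (p (nat_lit 0x10012) (nat_lit 0) pn)))) :=
  Cl.node (nat_lit 0x38292) (nat_lit 1) (by decide +kernel) (ClAll.succ ClAll.zero n536)

def n538 : Cl (O (nat_lit 1)) (R (nat_lit 14353))
    (p (nat_lit 0x38112) (nat_lit 0) (p (nat_lit 0x20092) (nat_lit 0) (p (nat_lit 0x10012) (nat_lit 0) pn))) :=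
  Cl.node (nat_lit 0x28212) (nat_lit 1) (by decide +kernel) (ClAll.succ ClAll.zero n537)

def n539 : Cl (O (nat_lit 1)) (R (nat_lit 14353))
    (p (nat_lit 0x20092) (nat_lit 0) (p (nat_lit 0x10012) (nat_lit 0) pn)) :=
  Cl.node (nat_lit 0x38112) (nat_lit 1) (by decide +kernel) (ClAll.succ ClAll.zero n538)

def n540 : Cl (O (nat_lit 1)) (R (nat_lit 14353))
    (p (nat_lit 0x10012) (nat_lit 0) pn) :=
  Cl.node (nat_lit 0x20092) (nat_lit 1) (by decide +kernel) (ClAll.succ ClAll.zero n539)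

def n541 : Cl (O (nat_lit 1)) (R (nat_lit 14353))
    pn :=
  Cl.node (nat_lit 0x10012) (nat_lit 1) (by decide +kernel) (ClAll.succ ClAll.zero n540)

theorem top : Cl (O (nat_lit 1)) (R (nat_lit 14353)) pn := n541

end Pool.Agent.Gen.F5.X12CD3Cm1
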